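import Pool.Agent.JD.S5
import Pool.Agent.CU.T6

/-!
# [JD-S7] the period of `E_D`

PROOF. `cubic_ED`: `b₂ = 0`, `b₄ = 0`, `b₆ = 4 δ`: `SBSD.cubic (ED δ) x = 4 x³ + 4 δ = SBSD.cubic (CU.W s) x` for `s² = 4 δ` (`CU.t6_cubic`). So `complexArea (ED δ) = complexArea (CU.W s)` (unfold `SBSD.complexArea`), `CU.complexArea_W`, `CU.complexArea_one`; `‖s‖² = ‖4 δ‖`, `‖s‖^(2/3) = ‖4 δ‖^(1/3)` (`Real.rpow_natCast`, `Real.rpow_mul`).
`period_ED`: as `CU.period_W` (CU/T6.lean) with `finprod_neron` (S5), `CU.norm_embedding_KK`, `CU.card_place_KK`. `jK D` is `((eE D : 𝓞 KK) : KK)` (`jK_apply`), `emb (4 * D) = 4 * emb D`.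
-/

set_option autoImplicit false

open NumberField IsDedekindDomain MeasureTheory
open scoped Classical ComplexConjugate

namespace JD

open CM27 CF JZ
open CU (la om eE t5b_lo)

theorem s7_cubic (δ x : ℂ) : SBSD.cubic (ED δ) x = 4 * x ^ 3 + 4 * δ := by
  simp only [SBSD.cubic, ED, WeierstrassCurve.b₂, WeierstrassCurve.b₄, WeierstrassCurve.b₆]
  ring

theorem complexArea_ED (δ : ℂ) (hδ : δ ≠ 0) :
    SBSD.complexArea (ED δ) = √3 / 2 * Om ^ 2 / ‖4 * δ‖ ^ ((1 : ℝ) / 3) := by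
  obtain ⟨s, hs⟩ := IsAlgClosed.exists_pow_nat_eq (4 * δ) (n := 2) (by norm_num)
  have h4 : 4 * δ ≠ 0 := mul_ne_zero (by norm_num) hδ
  have hs0 : s ≠ 0 := by
    rintro rfl
    rw [zero_pow (by norm_num)] at hs
    exact h4 hs.symm
  have h1 : SBSD.complexArea (ED δ) = SBSD.complexArea (CU.W s) := by
    unfold SBSD.complexArea
    simp only [s7_cubic, CU.t6_cubic, hs]
  have hn : (0 : ℝ) ≤ ‖s‖ := norm_nonneg _
  have h2 : ‖s‖ ^ ((2 : ℝ) / 3) = ‖4 * δ‖ ^ ((1 : ℝ) / 3) := by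
    rw [← hs, norm_pow, ← Real.rpow_natCast ‖s‖ 2, ← Real.rpow_mul hn]
    norm_num
  rw [h1, CU.complexArea_W s hs0, CU.complexArea_one, h2]

theorem period_ED {D : Eis} (hD : Cl D) : SBSD.period (ED (jK D)) = √3 * Om ^ 2 / ‖emb (4 * D)‖ ^ ((1 : ℝ) / 3) := by
  have hne : D ≠ 0 := by
    rintro rfl
    exact not_squarefree_zero hD.1
  have h1 : ∀ v : InfinitePlace KK,
      SBSD.archPeriod (ED (jK D)) v = √3 * Om ^ 2 / ‖emb (4 * D)‖ ^ ((1 : ℝ) / 3) := by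
    intro v
    have hne2 : v.embedding (jK D) ≠ 0 := by
      rw [jK_apply, ← norm_ne_zero_iff, CU.norm_embedding_KK, norm_ne_zero_iff, ← map_zero emb]
      exact fun h0 => hne (emb_injective h0)
    have h5 : ‖4 * v.embedding (jK D)‖ = ‖emb (4 * D)‖ := by
      rw [norm_mul, jK_apply, CU.norm_embedding_KK, map_mul, norm_mul]
      congr 1
      have h6 : emb (4 : Eis) = 4 := map_ofNat emb 4
      rw [h6]
    unfold SBSD.archPeriod
    rw [dif_neg (CU.not_isReal_KK v), ED_map, complexArea_ED _ hne2, h5]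
    ring
  unfold SBSD.period
  rw [finprod_neron hD, mul_one]
  simp only [h1]
  rw [Finset.prod_const, Finset.card_univ, CU.card_place_KK, pow_one]

end JD
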