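import Pool.Agent.JD.Defs
import Pool.Agent.CU.S4a

/-!
# [JD-S1] the number of points of `y² = x³ + D` over the residue fields

PROOF. All points of both cubics are nonsingular (`ED_nonsingular`, `CU.W_nonsingular`: `2, 3, D ≠ 0`), so the points are `Option {(x, y) : equation}` (`WeierstrassCurve.Affine.nonsingularPointEquiv`, see `CU.card_W_char` in CU/S2.lean).
`y² + (2/D) y = x³` is `Y² = x³ + D⁻²` with `Y = y + 1/D` (bijection).
`card_sq`: `D = e²`: `(x, Y) ↦ (D x, e³ Y)` is a bijection onto `{(x', y') : y'² = x'³ + D}` (`D³ = e⁶`).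
`card_nonsq`: for every `x`: `#{y : y² = (D x)³ + D} + #{Y : Y² = x³ + D⁻²} = 2` (`quadraticChar_card_sqrts`: `1 + χ(D³ z) + 1 + χ(z)`, `z = x³ + D⁻²`, `χ(D³) = χ(D) = -1`); sum over `x` (`x ↦ D x` is a bijection).
`card_ED`: `m = (q - 1)/3`, `q = |k| ≡ 1 mod 3` (`CU.norm_mod_three`), `(2/D)^m (4 D)^m = 8^m = 2^(q-1) = 1` (`FiniteField.pow_card_sub_one_eq_one`), so `(2/D)^m = r ζ²` (`ζ³ = 1`). `CU.card_W` (CU/S4a.lean) for `2/D` and `ζ²`; `star (ζ²) = ζ` (`ζ = 1, om, om²`: `TH.cube_one_cases`). `b` does not divide `3`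
(`CU.primary_not_three`) so `3 ≠ 0` in `k` (`k` has `N(b)` elements, `N(b) ≡ 1 mod 3`: see `CM27.b1_three_ne_zero` as in CU/S2.lean).
`e = 1`: `card_sq`; `e = -1`: `card_nonsq`.
-/

set_option autoImplicit false

open NumberField IsDedekindDomain
open scoped Classical ComplexConjugate

namespace JD

open CM27 CF JZ
open CU (la om eE)

theorem s1a_char (k : Type) [Field k] (h2 : (2 : k) ≠ 0) : ringChar k ≠ 2 := by
  intro h
  apply h2
  have h1 : ((2 : ℕ) : k) = 0 := (ringChar.spec k 2).2 (by rw [h])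
  exact_mod_cast h1

theorem s1a_n (k : Type) [Field k] [Fintype k] (h2 : (2 : k) ≠ 0) (a : k) :
    (Fintype.card {y : k // y ^ 2 = a} : ℤ) = quadraticChar k a + 1 := by
  rw [← quadraticChar_card_sqrts (s1a_char k h2) a, Set.toFinset_card]
  rfl

theorem s1a_ED (k : Type) [Field k] [Fintype k] (h2 : (2 : k) ≠ 0) (h3 : (3 : k) ≠ 0) (D : k) (hD : D ≠ 0) :
    Nat.card (ED D).toAffine.Point = (∑ x : k, Fintype.card {y : k // y ^ 2 = (D * x) ^ 3 + D}) + 1 := by
  have e : {xy : k × k // (ED D).toAffine.Nonsingular xy.1 xy.2} ≃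
      (Σ x : k, {y : k // y ^ 2 = x ^ 3 + D}) :=
    { toFun := fun p => ⟨p.1.1, p.1.2, (ED_nonsingular h2 h3 hD _ _).1 p.2⟩
      invFun := fun p => ⟨(p.1, p.2.1), (ED_nonsingular h2 h3 hD _ _).2 p.2.2⟩
      left_inv := fun p => rfl
      right_inv := fun p => rfl }
  have h1 : Nat.card (ED D).toAffine.Point = Nat.card (Option (Σ x : k, {y : k // y ^ 2 = x ^ 3 + D})) :=
    Nat.card_congr ((WeierstrassCurve.Affine.nonsingularPointEquiv (ED D).toAffine).trans
      (Equiv.optionCongr e))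
  rw [h1, Finite.card_option, Nat.card_eq_fintype_card, Fintype.card_sigma,
    ← Equiv.sum_comp (Equiv.mulLeft₀ D hD)]
  rfl

theorem s1a_W (k : Type) [Field k] [Fintype k] (h2 : (2 : k) ≠ 0) (h3 : (3 : k) ≠ 0) (D : k) (hD : D ≠ 0) :
    Nat.card (CU.W (2 / D)).toAffine.Point = (∑ x : k, Fintype.card {y : k // y ^ 2 = x ^ 3 + D⁻¹ ^ 2}) + 1 := by
  have hD2 : 2 / D ≠ 0 := div_ne_zero h2 hD
  have e : {xy : k × k // (CU.W (2 / D)).toAffine.Nonsingular xy.1 xy.2} ≃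
      (Σ x : k, {y : k // y ^ 2 = x ^ 3 + D⁻¹ ^ 2}) :=
    { toFun := fun p => ⟨p.1.1, p.1.2 + D⁻¹, by
        have h := (CU.W_nonsingular h3 hD2 _ _).1 p.2
        rw [← h]
        ring⟩
      invFun := fun p => ⟨(p.1, p.2.1 - D⁻¹), (CU.W_nonsingular h3 hD2 _ _).2 (by
        have h := p.2.2
        dsimp only
        linear_combination h)⟩
      left_inv := fun p => by
        apply Subtype.ext
        exact Prod.ext rfl (add_sub_cancel_right _ _)
      right_inv := fun p => by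
        obtain ⟨x, y, h⟩ := p
        have h4 : y - D⁻¹ + D⁻¹ = y := sub_add_cancel _ _
        simp only [h4] }
  have h1 : Nat.card (CU.W (2 / D)).toAffine.Point =
      Nat.card (Option (Σ x : k, {y : k // y ^ 2 = x ^ 3 + D⁻¹ ^ 2})) :=
    Nat.card_congr ((WeierstrassCurve.Affine.nonsingularPointEquiv (CU.W (2 / D)).toAffine).trans
      (Equiv.optionCongr e))
  rw [h1, Finite.card_option, Nat.card_eq_fintype_card, Fintype.card_sigma]

theorem s1a_term (k : Type) [Field k] [Fintype k] (h2 : (2 : k) ≠ 0) (D : k) (hD : D ≠ 0) (x : k) :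
    (Fintype.card {y : k // y ^ 2 = (D * x) ^ 3 + D} : ℤ) =
      quadraticChar k D ^ 3 * (Fintype.card {y : k // y ^ 2 = x ^ 3 + D⁻¹ ^ 2} - 1) + 1 := by
  have h1 : (D * x) ^ 3 + D = D ^ 3 * (x ^ 3 + D⁻¹ ^ 2) := by
    field_simp
  rw [s1a_n k h2, s1a_n k h2, h1, map_mul, map_pow, add_sub_cancel_right]

theorem card_sq (k : Type) [Field k] [Finite k] (h2 : (2 : k) ≠ 0) (h3 : (3 : k) ≠ 0) (D : k) (hD : D ≠ 0)
    (h : IsSquare D) : Nat.card (ED D).toAffine.Point = Nat.card (CU.W (2 / D)).toAffine.Point := by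
  have : Fintype k := Fintype.ofFinite k
  rw [s1a_ED k h2 h3 D hD, s1a_W k h2 h3 D hD]
  congr 1
  refine Finset.sum_congr rfl fun x _ => ?_
  have h1 := s1a_term k h2 D hD x
  rw [(quadraticChar_one_iff_isSquare hD).2 h] at h1
  have h4 : (Fintype.card {y : k // y ^ 2 = (D * x) ^ 3 + D} : ℤ) =
      (Fintype.card {y : k // y ^ 2 = x ^ 3 + D⁻¹ ^ 2} : ℤ) := by
    linarith
  exact_mod_cast h4

theorem card_nonsq (k : Type) [Field k] [Finite k] (h2 : (2 : k) ≠ 0) (h3 : (3 : k) ≠ 0) (D : k) (hD : D ≠ 0)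
    (h : ¬ IsSquare D) :
    Nat.card (ED D).toAffine.Point + Nat.card (CU.W (2 / D)).toAffine.Point = 2 * (Nat.card k + 1) := by
  have : Fintype k := Fintype.ofFinite k
  rw [s1a_ED k h2 h3 D hD, s1a_W k h2 h3 D hD]
  have h0 : quadraticChar k D = -1 := by
    rw [quadraticChar_neg_one_iff_not_isSquare]
    exact h
  have h1 : ∀ x : k, Fintype.card {y : k // y ^ 2 = (D * x) ^ 3 + D} +
      Fintype.card {y : k // y ^ 2 = x ^ 3 + D⁻¹ ^ 2} = 2 := by
    intro x
    have h1 := s1a_term k h2 D hD x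
    rw [h0] at h1
    have h4 : (Fintype.card {y : k // y ^ 2 = (D * x) ^ 3 + D} : ℤ) +
        (Fintype.card {y : k // y ^ 2 = x ^ 3 + D⁻¹ ^ 2} : ℤ) = 2 := by
      linarith
    exact_mod_cast h4
  have h4 : (∑ x : k, Fintype.card {y : k // y ^ 2 = (D * x) ^ 3 + D}) +
      (∑ x : k, Fintype.card {y : k // y ^ 2 = x ^ 3 + D⁻¹ ^ 2}) = 2 * Nat.card k := by
    rw [← Finset.sum_add_distrib, Finset.sum_congr rfl fun x _ => h1 x, Finset.sum_const, Finset.card_univ,
      smul_eq_mul, Nat.card_eq_fintype_card, mul_comm]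
  omega

theorem s1b_star {ζ : Eis} (h : ζ ^ 3 = 1) : star (ζ ^ 2) = ζ := by
  rcases TH.cube_one_cases h with rfl | rfl | rfl
  · decide
  · decide
  · decide

theorem card_ED (b : Eis) (hb : Prime b) (hp : Primary b) (k : Type) [Field k] [Finite k] (h2 : (2 : k) ≠ 0)
    (r : Eis →+* k) (hr : r b = 0) (hk : Nat.card k = b.norm.natAbs) (D : k) (hD : D ≠ 0) (ζ e : Eis) (hζ : ζ ^ 3 = 1)
    (h : (4 * D) ^ ((Nat.card k - 1) / 3) = r ζ) (he : (e = 1 ∧ IsSquare D) ∨ (e = -1 ∧ ¬ IsSquare D)) :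
    (Nat.card (ED D).toAffine.Point : ℂ) = b.norm.natAbs + 1 - (emb (e * ζ * b) + conj (emb (e * ζ * b))) := by
  have : Fintype k := Fintype.ofFinite k
  have h3 : (3 : k) ≠ 0 := b1_three_ne_zero k (by rw [hk, CU.norm_mod_three hp]; norm_num)
  have hmod : Nat.card k % 3 = 1 := by
    rw [hk]
    exact CU.norm_mod_three hp
  have h6 : ζ ^ 2 * ζ = 1 := by rw [← hζ]; ring
  have hcm : (2 / D) ^ ((Nat.card k - 1) / 3) = r (ζ ^ 2) := by
    have e1 : (2 / D) ^ ((Nat.card k - 1) / 3) * (4 * D) ^ ((Nat.card k - 1) / 3) = 1 := by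
      rw [← mul_pow, show 2 / D * (4 * D) = (2 : k) ^ 3 by field_simp; norm_num, ← pow_mul,
        show 3 * ((Nat.card k - 1) / 3) = Fintype.card k - 1 by rw [← Nat.card_eq_fintype_card]; omega]
      exact FiniteField.pow_card_sub_one_eq_one 2 h2
    have e2 : r (ζ ^ 2) * r ζ = 1 := by rw [← map_mul, h6, map_one]
    have e3 : r ζ ≠ 0 := right_ne_zero_of_mul_eq_one e2
    rw [h] at e1
    exact mul_right_cancel₀ e3 (e1.trans e2.symm)
  have hc0 : (2 / D : k) ≠ 0 := div_ne_zero h2 hD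
  have hW := CU.card_W b hb hp k r hr hk (2 / D) hc0 (ζ ^ 2) (by rw [← pow_mul, mul_comm, pow_mul, hζ, one_pow]) hcm
  rw [s1b_star hζ] at hW
  rcases he with ⟨rfl, hs⟩ | ⟨rfl, hs⟩
  · rw [card_sq k h2 h3 D hD hs, hW, one_mul]
  · have h4 := card_nonsq k h2 h3 D hD hs
    have h5 : (Nat.card (ED D).toAffine.Point : ℂ) + (Nat.card (CU.W (2 / D)).toAffine.Point : ℂ) =
        2 * (Nat.card k + 1) := by exact_mod_cast h4
    rw [hW, hk] at h5
    have h7 : emb (-1 * ζ * b) = -emb (ζ * b) := by rw [neg_one_mul, neg_mul, map_neg]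
    rw [h7, map_neg]
    linear_combination h5

end JD
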