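import Pool.Agent.JD.S5
import Pool.Agent.JD.S1
import Pool.Agent.CU.S6
import Pool.Agent.Q3.Base

/-!
# [JD-S6] `L(E_D / ℚ(ω), s)` as the product of two Hecke `L`-series

PROOF. `psv6_eq`, `psv6_la`, `psv6_zero`: as `CU.psv_eq`, `CU.psv_la` (CU/S1.lean); `cs (4 D) v = 0` and `qs D v = 0` if `D ∈ v`; `cs (4 D) v = 0` if `2 ∈ v` (`4 D ∈ v`). `Psi6_one`, `Psi6_mul`, `Psi6_prime`: `NAB.cm_one`, `NAB.cm_mul`, `NAB.cm_prime` (as in CU/S1.lean).
`LCW_ED`: copy of the proof of `CU.LCW_W` (CU/S5.lean): `NAB.LCW_eq_IL`, the local factors: `bc` (S5), `place_cases` (S5). `v = (la)`, `2 ∈ v`, `D ∈ v`: the local polynomial is `1` (`localPoly_bad` with `min_all`; `6 D` is not a unit), `psv6 = 0`. `v = (b)`, `b ∤ 6 D`: `localPoly_good` (S2), `card_ED` (S1) with `r = residue ∘ lo v`, `ζ = cs (4 D) v` (`CU.cs_spec`),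
`e = qs D v` (`1` if `D` is a square modulo `v`, i.e. in the residue field; `-1` otherwise: `(CMT.residue_completion KK v)` gives surjectivity and the kernel), `psv6 = e ζ b`, `emb (e ζ) conj (emb (e ζ)) = 1` (`CU.s5_star_mul` style).
`Psi6_norm_le`, `entire_ED`: as `CU.Psi_norm_le`, `CU.entire_of` (CU/S6.lean), with `LCW_ED`.
-/

set_option autoImplicit false

open NumberField IsDedekindDomain ArithmeticFunction
open scoped Classical ComplexConjugate

namespace JD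

open CM27 CMT NAB CF JZ
open CU (la om eE t5b_lo)

/-- (the same definition as `JL.psv6`) -/
noncomputable def psv6 (D : 𝓞 KK) (v : HeightOneSpectrum (𝓞 KK)) : Eis :=
  if h : ∃ b : Eis, Primary b ∧ Prime b ∧ eE b ∈ v.asIdeal then (Q3.qs D v : Eis) * CU.cs (4 * D) v * h.choose
  else 0

/-- (the same definition as `JL.Psi6`) -/
noncomputable def Psi6 (D : 𝓞 KK) (I : Ideal (𝓞 KK)) : Eis := NAB.cm (psv6 D) I

section
variable {v : HeightOneSpectrum (𝓞 KK)}

theorem psv6_eq (D : 𝓞 KK) {b : Eis} (hb : Prime b) (hp : Primary b) (hv : v.asIdeal = Ideal.span {eE b}) :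
    psv6 D v = (Q3.qs D v : Eis) * CU.cs (4 * D) v * b := by
  have hdom : IsDomain Eis := eis_isDomain
  have h : ∃ b : Eis, Primary b ∧ Prime b ∧ eE b ∈ v.asIdeal := ⟨b, hp, hb, (CU.mem_iff hv b).2 dvd_rfl⟩
  rw [psv6, dif_pos h]
  obtain ⟨h1, h2, h3⟩ := h.choose_spec
  have h4 := (CU.mem_iff hv _).1 h3
  congr 1
  exact CU.primary_unique h1 hp (hb.irreducible.associated_of_dvd h2.irreducible h4).symm

theorem psv6_la (D : 𝓞 KK) (hv : v.asIdeal = Ideal.span {eE la}) : psv6 D v = 0 := by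
  rw [psv6, dif_neg]
  rintro ⟨b, hp, hb, h⟩
  exact CU.primary_not_la hp ((CU.mem_iff hv b).1 h)

theorem psv6_zero (D : 𝓞 KK) (h : (2 : 𝓞 KK) ∈ v.asIdeal ∨ D ∈ v.asIdeal) : psv6 D v = 0 := by
  have h4 : 4 * D ∈ v.asIdeal := by
    rcases h with h | h
    · have h1 : (4 : 𝓞 KK) * D = (2 * D) * 2 := by ring
      rw [h1]
      exact v.asIdeal.mul_mem_left _ h
    · exact v.asIdeal.mul_mem_left _ h
  rw [psv6]
  split_ifs
  · rw [CU.cs_zero _ h4, mul_zero, zero_mul]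
  · rfl

end

theorem Psi6_one (D : 𝓞 KK) : Psi6 D 1 = 1 := NAB.cm_one _

theorem Psi6_mul (D : 𝓞 KK) (I J : Ideal (𝓞 KK)) : Psi6 D (I * J) = Psi6 D I * Psi6 D J :=
  NAB.cm_mul _ I J

theorem Psi6_prime (D : 𝓞 KK) (v : HeightOneSpectrum (𝓞 KK)) : Psi6 D v.asIdeal = psv6 D v :=
  NAB.cm_prime _ v

theorem s6b_norm_one {x : Eis} {n : ℕ} (hn : n ≠ 0) (h : x ^ n = 1) : emb x * conj (emb x) = 1 := by
  have h1 : ‖emb x‖ ^ n = 1 := by
    rw [← norm_pow, ← map_pow, h, map_one, norm_one]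
  have h2 : ‖emb x‖ = 1 := (pow_eq_one_iff_of_nonneg (norm_nonneg _) hn).1 h1
  rw [Complex.mul_conj, Complex.normSq_eq_norm_sq, h2]
  norm_num

/-- local factor at a place of good reduction -/
theorem s6b_good {D : Eis} (v : HeightOneSpectrum (𝓞 KK)) {b : Eis} (hb : Prime b) (hp : Primary b)
    (hv : v.asIdeal = Ideal.span {eE b}) (hbD : ¬ b ∣ 2 * D) (hu : IsUnit (6 * t5b_lo v D)) :
    ∃ a c : ℤ, (ED (algebraMap (v.adicCompletionIntegers KK) (v.adicCompletion KK) (t5b_lo v D))).localPolynomial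
        (v.adicCompletionIntegers KK) = 1 - Polynomial.C a * Polynomial.X + Polynomial.C c * Polynomial.X ^ 2 ∧
      (a : ℂ) = emb (Psi6 (eE D) v.asIdeal) + conj (emb (Psi6 (eE D) v.asIdeal)) ∧
      (c : ℂ) = emb (Psi6 (eE D) v.asIdeal) * conj (emb (Psi6 (eE D) v.asIdeal)) := by
  obtain ⟨hc', hfin⟩ := CM27.card_residue KK v
  have hb2 : ¬ b ∣ 2 := fun h => hbD (h.mul_right _)
  have hbD' : ¬ b ∣ D := fun h => hbD (h.mul_left _)
  have hcq : Nat.card (IsLocalRing.ResidueField (v.adicCompletionIntegers KK)) = b.norm.natAbs := by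
    rw [hc']
    exact CU.card_quot hv
  have hker : ∀ x : Eis, (IsLocalRing.residue (v.adicCompletionIntegers KK)) (t5b_lo v x) = 0 ↔ eE x ∈ v.asIdeal := by
    intro x
    rw [← (CMT.residue_completion KK v).2, RingHom.mem_ker]
    rfl
  set r : Eis →+* IsLocalRing.ResidueField (v.adicCompletionIntegers KK) :=
    (IsLocalRing.residue (v.adicCompletionIntegers KK)).comp (t5b_lo v) with hrdef
  have hr0 : ∀ x : Eis, r x = 0 ↔ b ∣ x := by
    intro x
    rw [← CU.mem_iff hv x]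
    exact hker x
  have hrb : r b = 0 := (hr0 b).2 dvd_rfl
  have hr2 : (2 : IsLocalRing.ResidueField (v.adicCompletionIntegers KK)) ≠ 0 := by
    rw [← map_ofNat r 2]
    exact fun h => hb2 ((hr0 2).1 h)
  have hrD : r D ≠ 0 := fun h => hbD' ((hr0 D).1 h)
  have h4D : 4 * eE D ∉ v.asIdeal := by
    intro h
    have h1 : eE (4 * D) ∈ v.asIdeal := by rw [map_mul, map_ofNat]; exact h
    have h2 := (CU.mem_iff hv _).1 h1
    have h3 : (4 : Eis) * D = 2 * (2 * D) := by ring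
    rw [h3] at h2
    rcases hb.dvd_or_dvd h2 with h4 | h4
    · exact hb2 h4
    · exact hbD h4
  obtain ⟨hz, hz2⟩ := CU.cs_spec hb hp hv (4 * eE D) h4D
  set ζ := CU.cs (4 * eE D) v with hζ
  have hpow : (4 * r D) ^ ((Nat.card (IsLocalRing.ResidueField (v.adicCompletionIntegers KK)) - 1) / 3) = r ζ := by
    have h1 : eE ((4 * D) ^ ((b.norm.natAbs - 1) / 3) - ζ) ∈ v.asIdeal := by
      rw [map_sub, map_pow, map_mul, map_ofNat]
      exact hz2
    have h2 := (hker _).2 h1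
    have h3 : r ((4 * D) ^ ((b.norm.natAbs - 1) / 3) - ζ) = 0 := h2
    rw [map_sub, map_pow, map_mul, map_ofNat, sub_eq_zero] at h3
    rw [hcq]
    exact h3
  have hmem : eE D ∉ v.asIdeal := fun h => hbD' ((CU.mem_iff hv D).1 h)
  have hsq : IsSquare (r D) ↔ ∃ x : 𝓞 KK, x ^ 2 - eE D ∈ v.asIdeal := by
    constructor
    · rintro ⟨y, hy⟩
      obtain ⟨x, hx⟩ := (CMT.residue_completion KK v).1 y
      refine ⟨x, ?_⟩
      rw [← (CMT.residue_completion KK v).2, RingHom.mem_ker, map_sub, map_pow, hx, sub_eq_zero, sq, ← hy]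
      rfl
    · rintro ⟨x, hx⟩
      rw [← (CMT.residue_completion KK v).2, RingHom.mem_ker, map_sub, map_pow, sub_eq_zero] at hx
      refine ⟨((IsLocalRing.residue (v.adicCompletionIntegers KK)).comp
          (algebraMap (𝓞 KK) (v.adicCompletionIntegers KK))) x, ?_⟩
      rw [← sq, hx]
      rfl
  have he : (((Q3.qs (eE D) v : ℤ) : Eis) = 1 ∧ IsSquare (r D)) ∨
      (((Q3.qs (eE D) v : ℤ) : Eis) = -1 ∧ ¬ IsSquare (r D)) := by
    unfold Q3.qs
    rw [if_neg hmem]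
    by_cases h : ∃ x : 𝓞 KK, x ^ 2 - eE D ∈ v.asIdeal
    · left
      rw [if_pos h]
      exact ⟨Int.cast_one, hsq.2 h⟩
    · right
      rw [if_neg h]
      exact ⟨by rw [Int.cast_neg, Int.cast_one], fun h1 => h (hsq.1 h1)⟩
  set e : Eis := ((Q3.qs (eE D) v : ℤ) : Eis) with hedef
  have he2 : e ^ 2 = 1 := by
    rcases he with ⟨h, -⟩ | ⟨h, -⟩ <;> rw [h] <;> ring
  have h5 := card_ED b hb hp (IsLocalRing.ResidueField (v.adicCompletionIntegers KK)) hr2 r hrb hcq (r D) hrD ζ e hz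
    hpow he
  have hpsi : psv6 (eE D) v = e * ζ * b := psv6_eq _ hb hp hv
  refine ⟨_, _, localPoly_good (v.adicCompletionIntegers KK) (v.adicCompletion KK) _ hu, ?_, ?_⟩
  · rw [Int.cast_sub, Int.cast_add, Int.cast_natCast, Int.cast_one, Int.cast_natCast]
    have h6 : (Nat.card (ED (IsLocalRing.residue (v.adicCompletionIntegers KK) (t5b_lo v D))).toAffine.Point : ℂ) =
        b.norm.natAbs + 1 - (emb (e * ζ * b) + conj (emb (e * ζ * b))) := h5
    rw [h6, Psi6_prime, hpsi, hcq]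
    ring
  · rw [Psi6_prime, hpsi, hcq, map_mul, map_mul, map_mul, map_mul, Int.cast_natCast, ← CU.emb_mul_conj]
    have e1 := s6b_norm_one two_ne_zero he2
    have e2 := s6b_norm_one three_ne_zero hz
    linear_combination (-(emb b * conj (emb b))) * (emb ζ * conj (emb ζ)) * e1 - (emb b * conj (emb b)) * e2

theorem LCW_ED {D : Eis} (hD : Cl D) :
    LCW KK (ED (jK D)) = IL KK (fun I => emb (Psi6 (eE D) I)) * IL KK (fun I => conj (emb (Psi6 (eE D) I))) := by
  refine LCW_eq_IL KK _ (fun I => emb (Psi6 (eE D) I)) (fun I => conj (emb (Psi6 (eE D) I)))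
    (by simp only [Psi6_one, map_one]) (by simp only [Psi6_one, map_one])
    (fun I J => by simp only [Psi6_mul, map_mul]) (fun I J => by simp only [Psi6_mul, map_mul]) ?_
  intro v
  rw [bc]
  have key : ¬ IsUnit (6 * t5b_lo v D) → psv6 (eE D) v = 0 →
      ∃ a b : ℤ, (ED (algebraMap (v.adicCompletionIntegers KK) (v.adicCompletion KK) (t5b_lo v D))).localPolynomial
        (v.adicCompletionIntegers KK) = 1 - Polynomial.C a * Polynomial.X + Polynomial.C b * Polynomial.X ^ 2 ∧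
      (a : ℂ) = emb (Psi6 (eE D) v.asIdeal) + conj (emb (Psi6 (eE D) v.asIdeal)) ∧
      (b : ℂ) = emb (Psi6 (eE D) v.asIdeal) * conj (emb (Psi6 (eE D) v.asIdeal)) := by
    intro h1 h2
    refine ⟨0, 0, ?_, ?_, ?_⟩
    · rw [localPoly_bad _ _ _ h1 (fun T hT => min_all v hD T hT)]
      simp
    · rw [Psi6_prime, h2]
      simp
    · rw [Psi6_prime, h2]
      simp
  rcases place_cases v hD with hv | ⟨b, hb, hp, hv, hbD, hu⟩ | ⟨h2, h3, h2i, k, D', hk, hD', hlo, -⟩ |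
    ⟨hDv, h6, l, D', hl, hD', hlo⟩
  · refine key ?_ (psv6_la _ hv)
    intro h
    have h1 : (6 : v.adicCompletionIntegers KK) * t5b_lo v D =
        t5b_lo v la * (2 * t5b_lo v (-om ^ 2) * t5b_lo v la * t5b_lo v D) := by
      have h3 := CU.t5b_three v
      linear_combination (2 * t5b_lo v D) * h3
    rw [h1] at h
    exact (CU.t5b_irr' CU.la_prime hv).not_isUnit (isUnit_of_mul_isUnit_left h)
  · exact s6b_good v hb hp hv hbD hu
  · refine key ?_ (psv6_zero _ (Or.inl ?_))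
    · intro h
      have h1 : (6 : v.adicCompletionIntegers KK) * t5b_lo v D = 2 * (3 * t5b_lo v D) := by ring
      rw [h1] at h
      exact h2i.not_isUnit (isUnit_of_mul_isUnit_left h)
    · rwa [map_ofNat] at h2
  · refine key ?_ (psv6_zero _ (Or.inr hDv))
    intro h
    rw [hlo] at h
    exact hl.not_isUnit (isUnit_of_mul_isUnit_left (isUnit_of_mul_isUnit_right h))

theorem s6a_cs_le (D : 𝓞 KK) (v : HeightOneSpectrum (𝓞 KK)) : ‖emb (CU.cs D v)‖ ^ 2 ≤ 1 := by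
  have h := CU.s6_cs_le D v
  rw [CM27.emb_star, Complex.norm_conj] at h
  exact h

theorem s6a_qs_le (D : 𝓞 KK) (v : HeightOneSpectrum (𝓞 KK)) : ‖emb ((Q3.qs D v : ℤ) : Eis)‖ ^ 2 ≤ 1 := by
  rw [map_intCast]
  unfold Q3.qs
  split_ifs <;> norm_num

theorem Psi6_norm_le (D : 𝓞 KK) (I : Ideal (𝓞 KK)) (hI : I ≠ 0) : ‖emb (Psi6 D I)‖ ^ 2 ≤ Ideal.absNorm I := by
  refine ideal_induction (F := KK) (P := fun I => ‖emb (Psi6 D I)‖ ^ 2 ≤ Ideal.absNorm I) ?_ ?_ I hI
  · rw [Psi6_one, map_one, norm_one, one_pow, map_one, Nat.cast_one]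
  · intro v I hI ih
    rw [Psi6_mul, Psi6_prime, map_mul, norm_mul, mul_pow, map_mul, Nat.cast_mul]
    refine mul_le_mul ?_ ih (by positivity) (by positivity)
    rcases CU.gen_cases (v := v) with hv | ⟨b, hb, hp, hv⟩
    · rw [psv6_la D hv, _root_.map_zero, norm_zero, zero_pow two_ne_zero]
      exact Nat.cast_nonneg _
    · rw [psv6_eq D hb hp hv, map_mul, map_mul, norm_mul, norm_mul, mul_pow, mul_pow, CU.norm_emb b, hv, CU.absNorm_span]
      calc ‖emb ((Q3.qs D v : ℤ) : Eis)‖ ^ 2 * ‖emb (CU.cs (4 * D) v)‖ ^ 2 * (b.norm.natAbs : ℝ) ≤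
            1 * 1 * (b.norm.natAbs : ℝ) := by
            gcongr
            · exact s6a_qs_le D v
            · exact s6a_cs_le (4 * D) v
        _ = _ := by rw [one_mul, one_mul]

theorem entire_ED {D : Eis} (hD : Cl D) (Φ : ℂ → ℂ) (hΦ : Differentiable ℂ Φ)
    (hs : ∀ s : ℂ, 3 / 2 < s.re → Φ s = LSeries (fun n => IL KK (fun I => conj (emb (Psi6 (eE D) I))) n) s) :
    SBSD2.IsEntireLSeries (ED (jK D)) (fun s => Φ s * conj (Φ (conj s))) := by
  obtain ⟨g, hg⟩ : ∃ g : Ideal (𝓞 KK) → ℂ, g = fun I => emb (Psi6 (eE D) I) := ⟨_, rfl⟩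
  have hlam : ∀ I : Ideal (𝓞 KK), I ≠ 0 → ‖g I‖ ^ 2 ≤ Ideal.absNorm I := by
    intro I hI
    rw [hg]
    exact Psi6_norm_le (eE D) I hI
  have hlam' : ∀ I : Ideal (𝓞 KK), I ≠ 0 → ‖conj (g I)‖ ^ 2 ≤ Ideal.absNorm I := by
    intro I hI
    rw [Complex.norm_conj]
    exact hlam I hI
  have hs' : ∀ s : ℂ, 3 / 2 < s.re →
      Φ s = LSeries (fun n => IL KK (fun I => conj (g I)) n) s := by
    intro s h5
    rw [hg]
    exact hs s h5
  have cc : Differentiable ℂ (fun s => conj (Φ (conj s))) :=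
    fun s => differentiableAt_conj_conj_iff.2 (hΦ (conj s))
  have hLf : (fun k => ((ED (jK D)).LFunction k : ℂ)) =
      fun k => (IL KK g * IL KK (fun I => conj (g I))) k := by
    have h6 := LCW_ED hD
    rw [hg, ← h6]
    rfl
  refine ⟨hΦ.mul cc, ?_⟩
  intro s h5
  have t1 := LSeriesSummable_IL KK _ hlam s h5
  have t2 := LSeriesSummable_IL KK _ hlam' s h5
  have t3 : (ED (jK D)).LSeries s =
      LSeries (fun k => ((ED (jK D)).LFunction k : ℂ)) s := rfl
  rw [t3, hLf]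
  refine ⟨ArithmeticFunction.LSeriesSummable_mul t1 t2, ?_⟩
  change Φ s * conj (Φ (conj s)) = _
  rw [ArithmeticFunction.LSeries_mul' t1 t2, hs' s h5, hs' (conj s) (by
    rw [Complex.conj_re]; exact h5), NAB.LSeries_conj, NAB.LSeries_conj, Complex.conj_conj, Complex.conj_conj,
    mul_comm]

end JD
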