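import Mathlib

/-!
# [JD-L1] the points of `y² = x³ + d` over a field with residue field `F₃`, `3 = ε l²`

PROOF. `w d = 1` (`η = ± 1`, `w (d - η) < 1`).
(cube) if `w x = 1` then `w (x - s) < 1` for `s = 1` or `s = -1` (`res`), `x = s + l t`, `w t ≤ 1`, `x³ = s³ + 3 s² l t + 3 s l² t² + l³ t³`, `3 = ε l²`: `w (x³ - s) ≤ exp (-3)`.
`w y > 1`: `w x > 1`, `w y ^ 2 = w x ^ 3` (`x³ = y² - d`), so `w y = exp (3 m)`, `m ≥ 1`: `exp 3 ≤ w y`.
`w y < 1`: `w (x³) = w (y² - d) = 1`, `w x = 1`, `x³ ≡ s mod l³`. `s = y² - d - (..) ≡ -d ≡ -η mod l`, so `s = -η` (`w 2 = 1`: `w 3 < 1`), and `w (y² - (d - η)) ≤ exp (-3)`. If `w y = exp (-1)`: `y = l u`, `w u = 1`, `u = ± 1 + l t`, `y² ≡ l² mod l³`, so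
`w (d - η - l²) ≤ exp (-3)`, contradiction to `hd'`. So `w y ≤ exp (-2)`.
`w y = 1`: `w (y - 1) < 1` or `w (y + 1) < 1` (`res`), done if `η = 1`. `η = -1`: `y² ≡ 1`, `x³ = y² - d ≡ 2 ≡ -1 mod l`, so `w x = 1`, `x³ ≡ -1 mod l³` by (cube): `w (y² - d + 1) ≤ exp (-3)`.
-/

set_option autoImplicit false

namespace JD

open WithZero

/-- a field with a discrete valuation, uniformizer `l`, `3 = ε l²`, residue field `F₃` -/
structure Loc3 {C : Type} [Field C] (w : Valuation C (WithZero (Multiplicative ℤ))) (l ε : C) : Prop where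
  hl : w l = exp (-1 : ℤ)
  heps : w ε = 1
  three : (3 : C) = ε * l ^ 2
  res : ∀ x, w x ≤ 1 → w x < 1 ∨ w (x - 1) < 1 ∨ w (x + 1) < 1

theorem l1_lt {C : Type} [Field C] {w : Valuation C (WithZero (Multiplicative ℤ))} {x : C} {n : ℤ}
    (h : w x < exp n) : w x ≤ exp (n - 1) := by
  by_cases hx : w x = 0
  · rw [hx]; exact zero_le
  · obtain ⟨k, hk⟩ : ∃ k : ℤ, w x = exp k := ⟨log (w x), (exp_log hx).symm⟩
    rw [hk] at h ⊢
    rw [exp_lt_exp] at h
    rw [exp_le_exp]
    omega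

theorem l1_lt1 {C : Type} [Field C] {w : Valuation C (WithZero (Multiplicative ℤ))} {x : C}
    (h : w x < 1) : w x ≤ exp (-1 : ℤ) := by
  have h1 : w x < exp (0 : ℤ) := by rw [exp_zero]; exact h
  exact l1_lt h1

theorem l1_of_le {C : Type} [Field C] {w : Valuation C (WithZero (Multiplicative ℤ))} {x : C} {n : ℤ} (hn : n < 0)
    (h : w x ≤ exp n) : w x < 1 := by
  refine lt_of_le_of_lt h ?_
  rw [← exp_zero, exp_lt_exp]
  exact hn

theorem l1_div {C : Type} [Field C] {w : Valuation C (WithZero (Multiplicative ℤ))} {l ε : C} (h : Loc3 w l ε)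
    {x : C} (hx : w x < 1) : ∃ t : C, x = l * t ∧ w t ≤ 1 := by
  have hl0 : l ≠ 0 := by
    intro h0
    have h1 := h.hl
    rw [h0, map_zero] at h1
    exact exp_ne_zero h1.symm
  refine ⟨x / l, by field_simp, ?_⟩
  rw [map_div₀, h.hl, div_le_iff₀ (zero_lt_iff.2 exp_ne_zero), one_mul]
  exact l1_lt1 hx

theorem l1_three {C : Type} [Field C] {w : Valuation C (WithZero (Multiplicative ℤ))} {l ε : C} (h : Loc3 w l ε) :
    w (3 : C) < 1 := by
  rw [h.three, map_mul, map_pow, h.hl, h.heps, one_mul, ← exp_nsmul, ← exp_zero, exp_lt_exp]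
  norm_num

theorem l1_two {C : Type} [Field C] {w : Valuation C (WithZero (Multiplicative ℤ))} {l ε : C} (h : Loc3 w l ε) :
    w (2 : C) = 1 := by
  have h1 : (2 : C) = 3 - 1 := by norm_num
  have h2 : w (1 : C) = 1 := map_one _
  rw [h1, Valuation.map_sub_eq_of_lt_right w (by rw [h2]; exact l1_three h), h2]

theorem l1_one_of {C : Type} [Field C] {w : Valuation C (WithZero (Multiplicative ℤ))} {x y : C}
    (hy : w y = 1) (hxy : w (x - y) < 1) : w x = 1 := by
  have h1 : x = (x - y) + y := by ring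
  rw [h1, Valuation.map_add_eq_of_lt_right w (by rw [hy]; exact hxy), hy]

theorem l1_sgn {C : Type} [Field C] {w : Valuation C (WithZero (Multiplicative ℤ))} {s : C} (hs : s = 1 ∨ s = -1) :
    w s = 1 := by
  rcases hs with rfl | rfl
  · exact map_one _
  · rw [Valuation.map_neg, map_one]

theorem l1_cube {C : Type} [Field C] {w : Valuation C (WithZero (Multiplicative ℤ))} {l ε : C} (h : Loc3 w l ε)
    {x : C} (hx : w x = 1) : ∃ s : C, (s = 1 ∨ s = -1) ∧ w (x - s) < 1 ∧ w (x ^ 3 - s) ≤ exp (-3 : ℤ) := by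
  obtain ⟨s, hs, hxs⟩ : ∃ s : C, (s = 1 ∨ s = -1) ∧ w (x - s) < 1 := by
    rcases h.res x hx.le with h1 | h1 | h1
    · exact absurd hx h1.ne
    · exact ⟨1, Or.inl rfl, h1⟩
    · exact ⟨-1, Or.inr rfl, by rw [sub_neg_eq_add]; exact h1⟩
  refine ⟨s, hs, hxs, ?_⟩
  obtain ⟨t, ht, hwt⟩ := l1_div h hxs
  have hs2 : s ^ 2 = 1 := by rcases hs with rfl | rfl <;> norm_num
  have hx1 : x = s + l * t := by rw [← ht]; ring
  have h3 := h.three
  have hkey : x ^ 3 - s = l ^ 3 * (ε * t + ε * s * l * t ^ 2 + t ^ 3) := by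
    rw [hx1]
    linear_combination (s + 3 * l * t) * hs2 + (l * t + s * l ^ 2 * t ^ 2) * h3
  have hws := l1_sgn (w := w) hs
  have hwl : w l ≤ 1 := by rw [h.hl, ← exp_zero, exp_le_exp]; norm_num
  have hb : w (ε * t + ε * s * l * t ^ 2 + t ^ 3) ≤ 1 := by
    refine w.map_add_le (w.map_add_le ?_ ?_) ?_
    · rw [map_mul, h.heps, one_mul]; exact hwt
    · rw [map_mul, map_mul, map_mul, h.heps, hws, one_mul, one_mul, map_pow]
      exact mul_le_one' hwl (pow_le_one' hwt 2)
    · rw [map_pow]; exact pow_le_one' hwt 3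
  rw [hkey, map_mul, map_pow, h.hl, ← exp_nsmul]
  refine (mul_le_of_le_one_right' hb).trans ?_
  rw [exp_le_exp]
  norm_num

theorem tri {C : Type} [Field C] {w : Valuation C (WithZero (Multiplicative ℤ))} {l ε : C} (h : Loc3 w l ε)
    {d η x y : C} (hη : η = 1 ∨ η = -1) (hd : w (d - η) ≤ exp (-2 : ℤ)) (hd' : ¬ w (d - η - l ^ 2) ≤ exp (-3 : ℤ))
    (he : y ^ 2 = x ^ 3 + d) :
    exp (3 : ℤ) ≤ w y ∨ (w x = 1 ∧ w y ≤ exp (-2 : ℤ)) ∨
      (w y = 1 ∧ η = 1 ∧ (w (y - 1) < 1 ∨ w (y + 1) < 1)) ∨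
      (w y = 1 ∧ η = -1 ∧ w x = 1 ∧ w (y ^ 2 - d + 1) ≤ exp (-3 : ℤ)) := by
  have hwη := l1_sgn (w := w) hη
  have hdη : w (d - η) < 1 := l1_of_le (by norm_num) hd
  have hwd : w d = 1 := l1_one_of hwη hdη
  have hx3 : x ^ 3 = y ^ 2 - d := by rw [he]; ring
  have h2 := l1_two h
  rcases lt_trichotomy (w y) 1 with hy | hy | hy
  · right; left
    have hy2 : w (y ^ 2) < 1 := by rw [map_pow]; exact pow_lt_one' hy (by norm_num)
    have hwx3 : w (x ^ 3) = 1 := by
      rw [hx3, Valuation.map_sub_eq_of_lt_right w (by rw [hwd]; exact hy2), hwd]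
    have hwx : w x = 1 := by
      rw [map_pow] at hwx3
      exact (pow_eq_one_iff.1 hwx3).resolve_right (by norm_num)
    obtain ⟨s, hs, hxs, hxs3⟩ := l1_cube h hwx
    have hsη : s = -η := by
      by_contra hne
      have hse : s = η := by
        rcases hs with rfl | rfl <;> rcases hη with rfl | rfl
        · rfl
        · exact absurd (by ring) hne
        · exact absurd rfl hne
        · rfl
      rw [hse, hx3] at hxs3
      have h4 : w (2 * η) < 1 := by
        have h5 : 2 * η = y ^ 2 - (d - η) - (y ^ 2 - d - η) := by ring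
        rw [h5]
        exact w.map_sub_lt (w.map_sub_lt hy2 hdη) (l1_of_le (by norm_num) hxs3)
      rw [map_mul, h2, hwη, mul_one] at h4
      exact lt_irrefl _ h4
    refine ⟨hwx, ?_⟩
    by_contra hcon
    have hy1 : w y = exp (-1 : ℤ) := by
      refine le_antisymm (l1_lt1 hy) ?_
      by_contra hlt
      exact hcon (l1_lt (not_le.1 hlt))
    obtain ⟨u, hu, hwu⟩ := l1_div h hy
    have hwu1 : w u = 1 := by
      rw [hu, map_mul, h.hl] at hy1
      exact (mul_eq_left₀ exp_ne_zero).1 hy1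
    obtain ⟨s', hs', hus⟩ : ∃ s' : C, (s' = 1 ∨ s' = -1) ∧ w (u - s') < 1 := by
      rcases h.res u hwu1.le with h1 | h1 | h1
      · exact absurd hwu1 h1.ne
      · exact ⟨1, Or.inl rfl, h1⟩
      · exact ⟨-1, Or.inr rfl, by rw [sub_neg_eq_add]; exact h1⟩
    obtain ⟨t, ht, hwt⟩ := l1_div h hus
    have hs2 : s' ^ 2 = 1 := by rcases hs' with rfl | rfl <;> norm_num
    have hu1 : u = s' + l * t := by rw [← ht]; ring
    have hwl : w l ≤ 1 := by rw [h.hl, ← exp_zero, exp_le_exp]; norm_num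
    have hws := l1_sgn (w := w) hs'
    have hyl : w (y ^ 2 - l ^ 2) ≤ exp (-3 : ℤ) := by
      have h6 : y ^ 2 - l ^ 2 = l ^ 3 * (2 * s' * t + l * t ^ 2) := by
        rw [hu, hu1]
        linear_combination (l ^ 2) * hs2
      have h7 : w (2 * s' * t + l * t ^ 2) ≤ 1 := by
        refine w.map_add_le ?_ ?_
        · rw [map_mul, map_mul, h2, hws, one_mul, one_mul]; exact hwt
        · rw [map_mul, map_pow]; exact mul_le_one' hwl (pow_le_one' hwt 2)
      rw [h6, map_mul, map_pow, h.hl, ← exp_nsmul]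
      refine (mul_le_of_le_one_right' h7).trans ?_
      rw [exp_le_exp]
      norm_num
    apply hd'
    have h8 : d - η - l ^ 2 = (y ^ 2 - l ^ 2) - (x ^ 3 - s) := by
      rw [hsη, hx3]; ring
    rw [h8]
    exact w.map_sub_le hyl hxs3
  · right; right
    rcases hη with hη1 | hη1
    · left
      refine ⟨hy, hη1, ?_⟩
      rcases h.res y hy.le with h1 | h1 | h1
      · exact absurd hy h1.ne
      · exact Or.inl h1
      · exact Or.inr h1
    · right
      have hy1 : w (y ^ 2 - 1) < 1 := by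
        have h3 : y ^ 2 - 1 = (y - 1) * (y + 1) := by ring
        have hle1 : w (y - 1) ≤ 1 := w.map_sub_le hy.le (map_one w).le
        have hle2 : w (y + 1) ≤ 1 := w.map_add_le hy.le (map_one w).le
        rw [h3, map_mul]
        rcases h.res y hy.le with h1 | h1 | h1
        · exact absurd hy h1.ne
        · exact lt_of_le_of_lt (mul_le_of_le_one_right' hle2) h1
        · exact lt_of_le_of_lt (mul_le_of_le_one_left' hle1) h1
      have hx31 : w (x ^ 3 - (-1)) < 1 := by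
        have h4 : x ^ 3 - (-1) = (y ^ 2 - 1) - (d - η) + 3 := by rw [hx3, hη1]; ring
        rw [h4]
        exact w.map_add_lt (w.map_sub_lt hy1 hdη) (l1_three h)
      have hwx : w x = 1 := by
        have h5 := l1_one_of (l1_sgn (w := w) (Or.inr rfl : (-1 : C) = 1 ∨ (-1 : C) = -1)) hx31
        rw [map_pow] at h5
        exact (pow_eq_one_iff.1 h5).resolve_right (by norm_num)
      obtain ⟨s, hs, -, hxs3⟩ := l1_cube h hwx
      have hs1 : s = -1 := by
        rcases hs with hs | hs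
        · exfalso
          rw [hs] at hxs3
          have h6 : w (2 : C) < 1 := by
            have h7 : (2 : C) = (x ^ 3 - (-1)) - (x ^ 3 - 1) := by ring
            rw [h7]
            exact w.map_sub_lt hx31 (l1_of_le (by norm_num) hxs3)
          rw [h2] at h6
          exact lt_irrefl _ h6
        · exact hs
      refine ⟨hy, hη1, hwx, ?_⟩
      rw [hs1, hx3, sub_neg_eq_add] at hxs3
      exact hxs3
  · left
    have hy0 : w y ≠ 0 := ne_of_gt (lt_trans zero_lt_one hy)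
    have hy2 : w d < w (y ^ 2) := by
      rw [hwd, map_pow]
      exact one_lt_pow' hy (by norm_num)
    have hwx3 : w x ^ 3 = w y ^ 2 := by
      rw [← map_pow, hx3, Valuation.map_sub_eq_of_lt_left w hy2, map_pow]
    have hx0 : w x ≠ 0 := by
      intro h0
      rw [h0, zero_pow (by norm_num)] at hwx3
      exact pow_ne_zero 2 hy0 hwx3.symm
    obtain ⟨k, hk⟩ : ∃ k : ℤ, w y = exp k := ⟨log (w y), (exp_log hy0).symm⟩
    obtain ⟨m, hm⟩ : ∃ m : ℤ, w x = exp m := ⟨log (w x), (exp_log hx0).symm⟩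
    rw [hk, hm, ← exp_nsmul, ← exp_nsmul, exp_inj, nsmul_eq_mul, nsmul_eq_mul] at hwx3
    rw [hk, ← exp_zero, exp_lt_exp] at hy
    rw [hk, exp_le_exp]
    push_cast at hwx3
    omega

end JD
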