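import Pool.Agent.JD.E2
import Pool.Agent.JD.L1

/-!
# [JD-E3] the place over `λ`, `D ≡ -1`: all classes come from points

`C = v.adicCompletion KK`, `V = Valued.v`, `Loc3 V l ε` (L1.lean) and `ε ≡ -1 mod l`. `d ≡ -1 mod l²`, `d + 1 ≢ l² mod l³`. `u² - y² d = 1`.

PROOF. `sol_la` [E3a] (`V y ≤ exp (-3)`, `V (u - 1) < 1`): `y = l³ y₃`. `b₁³ + (ε/(4 d)) b₁ - y₃/(4 d) = 0`: the residues: `4 d ≡ -1`, `ε ≡ -1`: `f(X) ≡ X³ + X + y₃`, `X³ ≡ X` on residues (`res`), so `f(X) ≡ -X + y₃` (`2 ≡ -1`): approximate root `x₀ = 0, 1` or `-1` with `x₀ ≡ y₃` (`res`), `f'(x₀) = 3 x₀² + ε/(4 d)` a unit: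
`hensel3` gives `b₁`. `b = l b₁`: `b (3 + 4 b² d) = y` (multiply by `4 d l³`, `3 = ε l²`). `3 + 4 b² d = l² (ε + 4 b₁² d) ≠ 0` (`ε + 4 b₁² d ≡ -1 - b₁²`, which is `-1` or `-2`, not `0` modulo `l`). `1 + 4 b² d ≠ 0` (`≡ 1`). `a = u / (1 + 4 b² d)`. With `t = b² d`: `(1 + t)(1 + 4 t)² = 1 + t (3 + 4 t)²`, so
`u² = 1 + y² d = 1 + t (3 + 4 t)² = (1 + t)(1 + 4 t)²`, `a² = 1 + t`. `4 a² - 1 = 3 + 4 t`, `4 a³ - 3 a = a (1 + 4 t) = u`.
`sqrt_one` [E3b]: `V (x - 1) < 1` implies `x = z²`, `V (z - 1) < 1` (`2` is a unit at `v`): e.g. `hensel3` applied to `(X² - x) (X + 1)`... simplest: `X³ + X² - x X - x = (X² - x)(X + 1)` with `x₀ = 1`: `f(1) = 2 (1 - x)`, `f'(1) = 3 + 2 - x ≡ 4 ≡ 1` (a unit: `5 - x = 4 + (1 - x)`), the root `z ≡ 1` is not `-1` (`V 2 = 1`), so `z² = x`.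
`sol_minus` [E3c]: `V y = exp (-2)`, `V (u - 1) ≤ exp (-2)`. `d - 1 = -2 + (d + 1) ≡ 1 mod l`, `y₀² = d - 1` (`sqrt_one`), the points `(-1, ± y₀)`: `y₀² = (-1)³ + d`. In `M`: `θ = -(y₀ - r)² = (1 - 2 d) + 2 y₀ r`, `N θ = 1`. `d = -1 + l² δ`, `V δ ≤ 1`, `¬ V (δ - 1) < 1`. `A = 8 d² - 8 d + 1`, `B = 4 (1 - 2 d) y₀`:
`θ² = A + B r`, `θ⁴ = (A² + B² d) + 2 A B r = (2 A² - 1) + 2 A B r` (`A² - B² d = 1`). `1 - 2 d = 3 - 2 l² δ = l² (ε - 2 δ)`, so `V B ≤ exp (-2)`, `A² ≡ 1 mod l⁴`, `A ≡ 17 ≡ -1 mod l`, so `A ≡ -1 mod l⁴`. `2 A B ≡ -2 B ≡ B ≡ 4 l² (ε - 2 δ) y₀ ≡ l² (δ - 1) y₀ mod l³` (`4 ≡ 1`, `-2 ≡ 1`, `ε ≡ -1 mod l`).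
`α = u + y r`: `u² = 1 + y² d ≡ 1 mod l⁴`, `u ≡ 1 mod l⁴`. `α⁴ = U + Y r` with `U ≡ 1 mod l³`, `Y ≡ 4 y ≡ y mod l³`. So `(θ α)⁴ = U' + Y' r`, `U' ≡ 1 mod l³`, `Y' ≡ y + l² (δ - 1) y₀ mod l³`; `y = l² y₂` with `y₂ ≡ ± 1`, `(δ - 1) y₀ ≡ ± 1`: for a suitable sign of `y₀`: `Y' ≡ 0 mod l³`. `U'² - Y'² d = 1`. By `sol_la` and `cheb`
`(θ α)⁴ = β³` with `β ∈ C(r)`. `θ α = ((θ α)³ / β²)³ = γ³`, `γ ∈ C(r)`. `y₀ - r = -(y₀ - r)³/θ = α (-(y₀ - r)/γ)³`. (`C(r) = IntermediateField.adjoin C {r}`; `y₀ - r ≠ 0`: otherwise `y₀² = d`, but `y₀² = d - 1`. `α ≠ 0`, `θ ≠ 0`: norm 1.)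
-/

set_option autoImplicit false

open NumberField IsDedekindDomain
open scoped Classical

namespace JD

open CM27 CF JZ
open CU (la om eE)

/-- The class of `α` in `C(r)* / cubes` comes from a point of `y² = x³ + d` over `C` (`r² = d`). -/
def LocSol {C M : Type} [Field C] [Field M] [Algebra C M] (d : C) (r α : M) : Prop :=
  (∃ g ∈ IntermediateField.adjoin C {r}, g ^ 3 = α) ∨
  ∃ (x y : C) (g : M), g ∈ IntermediateField.adjoin C {r} ∧ g ≠ 0 ∧ y ^ 2 = x ^ 3 + d ∧ algebraMap C M y - r ≠ 0 ∧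
    algebraMap C M y - r = α * g ^ 3

theorem locSol_of_sol3 {C M : Type} [Field C] [Field M] [Algebra C M] {d u y : C} {r : M} (hr : r ^ 2 = algebraMap C M d)
    (h : u ^ 2 - y ^ 2 * d = 1) (hs : Sol3 u y) : LocSol d r (algebraMap C M u + algebraMap C M y * r) := by
  obtain ⟨a, b, h1, h2, h3⟩ := hs
  left
  refine ⟨algebraMap C M a + algebraMap C M b * r, ?_, ?_⟩
  · have hr' : r ∈ IntermediateField.adjoin C {r} := IntermediateField.mem_adjoin_simple_self C r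
    exact add_mem (algebraMap_mem _ a) (mul_mem (algebraMap_mem _ b) hr')
  · refine cheb hr ?_ ?_ ?_ ?_
    · rw [← h1]
      simp only [map_sub, map_mul, map_pow, map_ofNat]
    · rw [← h2]
      simp only [map_sub, map_mul, map_pow, map_ofNat, map_one]
    · have := congrArg (algebraMap C M) h
      simpa only [map_sub, map_mul, map_pow, map_one] using this
    · have := (map_ne_zero (algebraMap C M)).2 h3
      simpa only [map_sub, map_mul, map_pow, map_ofNat, map_one] using this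

section e3aux
open WithZero
variable {C : Type} [Field C] {w : Valuation C (WithZero (Multiplicative ℤ))} {l ε d u y : C}

theorem e3_mul {x z : C} {m n : ℤ} (k : ℤ) (hx : w x ≤ exp m) (hz : w z ≤ exp n) (hk : m + n ≤ k) : w (x * z) ≤ exp k := by
  rw [map_mul]
  refine (mul_le_mul' hx hz).trans ?_
  rw [← exp_add, exp_le_exp]
  exact hk

theorem e3_one {x : C} (hx : w x ≤ 1) : w x ≤ exp (0 : ℤ) := by rw [exp_zero]; exact hx

theorem e3_mono {x : C} {m : ℤ} (k : ℤ) (hx : w x ≤ exp m) (hk : m ≤ k) : w x ≤ exp k :=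
  hx.trans (exp_le_exp.2 hk)

theorem e3_nat (n : ℕ) : w (n : C) ≤ exp (0 : ℤ) := by
  rw [exp_zero]
  induction n with
  | zero => rw [Nat.cast_zero, map_zero]; exact zero_le
  | succ n ih => rw [Nat.cast_succ]; exact w.map_add_le ih (map_one w).le

theorem e3_num (n : ℕ) [n.AtLeastTwo] : w (OfNat.ofNat n : C) ≤ exp (0 : ℤ) := by
  have h := e3_nat (w := w) (OfNat.ofNat n : ℕ)
  rwa [Nat.cast_ofNat] at h

theorem e3c_est (hL : Loc3 w l ε) (hε : w (ε + 1) < 1) (hu : w (u - 1) ≤ exp (-2 : ℤ)) (h : u ^ 2 - y ^ 2 * d = 1)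
    {y₁ A B T1 T2 P Q U Y δ y₂ : C} (hy₁ : w y₁ ≤ 1) (hA : A = 2 * (1 - 2 * d) ^ 2 - 1) (hB : B = 4 * (1 - 2 * d) * y₁)
    (hT1 : T1 = 2 * A ^ 2 - 1) (hT2 : T2 = 2 * A * B) (hP : P = 2 * u ^ 2 - 1) (hQ : Q = 2 * u * y)
    (hU : U = 2 * P ^ 2 - 1) (hY : Y = 2 * P * Q) (hδ : d = -1 + l ^ 2 * δ) (hδ1 : w δ ≤ 1) (hy₂ : y = l ^ 2 * y₂)
    (hy₂' : w y₂ ≤ 1) (hs : w (y₂ + (δ - 1) * y₁) < 1) :
    w (T1 * Y + T2 * U) ≤ exp (-3 : ℤ) ∧ w (T1 * U + T2 * Y * d - 1) < 1 := by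
  have h1 : w (1 : C) ≤ exp (0 : ℤ) := by rw [map_one, exp_zero]
  have h2 : w (2 : C) ≤ exp (0 : ℤ) := e3_num 2
  have h3 : w (3 : C) ≤ exp (-1 : ℤ) := l1_lt1 (l1_three hL)
  have h4 : w (4 : C) ≤ exp (0 : ℤ) := e3_num 4
  have h5 : w (5 : C) ≤ exp (0 : ℤ) := e3_num 5
  have h8 : w (8 : C) ≤ exp (0 : ℤ) := e3_num 8
  have hl2 : w (l ^ 2) ≤ exp (-2 : ℤ) := by
    rw [map_pow, hL.hl, ← exp_nsmul, exp_le_exp]
    norm_num
  have hε0 : w ε ≤ exp (0 : ℤ) := e3_one hL.heps.le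
  have hε1 : w (ε + 1) ≤ exp (-1 : ℤ) := l1_lt1 hε
  have hδ0 := e3_one hδ1
  have hy10 := e3_one hy₁
  have hc : w (1 - 2 * d) ≤ exp (-2 : ℤ) := by
    have h6 : 1 - 2 * d = l ^ 2 * (ε - 2 * δ) := by
      rw [hδ]
      linear_combination hL.three
    rw [h6]
    exact e3_mul _ hl2 (w.map_sub_le hε0 (e3_mul 0 h2 hδ0 (by norm_num))) (by norm_num)
  have hA1 : w (A + 1) ≤ exp (-4 : ℤ) := by
    have h6 : A + 1 = 2 * ((1 - 2 * d) * (1 - 2 * d)) := by rw [hA]; ring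
    rw [h6]
    exact e3_mul _ h2 (e3_mul (-4) hc hc (by norm_num)) (by norm_num)
  have hA0 : w A ≤ exp (0 : ℤ) := by
    have h6 : A = (A + 1) - 1 := by ring
    rw [h6]
    exact w.map_sub_le (e3_mono 0 hA1 (by norm_num)) h1
  have hB2 : w B ≤ exp (-2 : ℤ) := by
    rw [hB]
    exact e3_mul _ (e3_mul (-2) h4 hc (by norm_num)) hy10 (by norm_num)
  have hT11 : w (T1 - 1) ≤ exp (-4 : ℤ) := by
    have h6 : T1 - 1 = 2 * (A - 1) * (A + 1) := by rw [hT1]; ring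
    rw [h6]
    exact e3_mul _ (e3_mul 0 h2 (w.map_sub_le hA0 h1) (by norm_num)) hA1 (by norm_num)
  have hT22 : w T2 ≤ exp (-2 : ℤ) := by
    rw [hT2]
    exact e3_mul _ (e3_mul 0 h2 hA0 (by norm_num)) hB2 (by norm_num)
  have hT23 : w (T2 - l ^ 2 * ((δ - 1) * y₁)) ≤ exp (-3 : ℤ) := by
    have h6 : T2 - l ^ 2 * ((δ - 1) * y₁) = 2 * (A + 1) * B + l ^ 2 * (y₁ * (3 * (3 + 5 * δ) - 8 * (ε + 1))) := by
      rw [hT2, hB, hδ]
      linear_combination (-(8 * y₁)) * hL.three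
    rw [h6]
    refine w.map_add_le (e3_mul _ (e3_mul (-4) h2 hA1 (by norm_num)) hB2 (by norm_num)) ?_
    refine e3_mul _ hl2 (e3_mul (-1) hy10 (w.map_sub_le (e3_mul (-1) h3 (w.map_add_le (e3_mono 0 h3 (by norm_num))
      (e3_mul 0 h5 hδ0 (by norm_num))) (by norm_num)) (e3_mul (-1) h8 hε1 (by norm_num))) (by norm_num)) (by norm_num)
  have hd0 : w d ≤ exp (0 : ℤ) := by
    rw [hδ]
    refine w.map_add_le ?_ (e3_mul _ hl2 hδ0 (by norm_num))
    rw [Valuation.map_neg]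
    exact h1
  have hu0 : w u ≤ exp (0 : ℤ) := by
    have h6 : u = (u - 1) + 1 := by ring
    rw [h6]
    exact w.map_add_le (e3_mono 0 hu (by norm_num)) h1
  have hy0 : w y ≤ exp (-2 : ℤ) := by
    rw [hy₂]
    exact e3_mul _ hl2 (e3_one hy₂') (by norm_num)
  have hu2 : w (u ^ 2 - 1) ≤ exp (-4 : ℤ) := by
    have h6 : u ^ 2 - 1 = y * y * d := by linear_combination h
    rw [h6]
    exact e3_mul _ (e3_mul (-4) hy0 hy0 (by norm_num)) hd0 (by norm_num)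
  have hP1 : w (P - 1) ≤ exp (-4 : ℤ) := by
    have h6 : P - 1 = 2 * (u ^ 2 - 1) := by rw [hP]; ring
    rw [h6]
    exact e3_mul _ h2 hu2 (by norm_num)
  have hP0 : w P ≤ exp (0 : ℤ) := by
    have h6 : P = (P - 1) + 1 := by ring
    rw [h6]
    exact w.map_add_le (e3_mono 0 hP1 (by norm_num)) h1
  have hU1 : w (U - 1) ≤ exp (-4 : ℤ) := by
    have h6 : U - 1 = 2 * (P + 1) * (P - 1) := by rw [hU]; ring
    rw [h6]
    exact e3_mul _ (e3_mul 0 h2 (w.map_add_le hP0 h1) (by norm_num)) hP1 (by norm_num)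
  have hU0 : w U ≤ exp (0 : ℤ) := by
    have h6 : U = (U - 1) + 1 := by ring
    rw [h6]
    exact w.map_add_le (e3_mono 0 hU1 (by norm_num)) h1
  have hY3 : w (Y - y) ≤ exp (-3 : ℤ) := by
    have h6 : Y - y = y * (4 * u * (P - 1) + (4 * (u - 1) + 3)) := by rw [hY, hQ]; ring
    rw [h6]
    refine e3_mul _ hy0 (w.map_add_le (e3_mul (-1) (e3_mul 0 h4 hu0 (by norm_num)) hP1 (by norm_num))
      (w.map_add_le (e3_mul _ h4 hu (by norm_num)) h3)) (by norm_num)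
  have hY0 : w Y ≤ exp (-2 : ℤ) := by
    have h6 : Y = (Y - y) + y := by ring
    rw [h6]
    exact w.map_add_le (e3_mono _ hY3 (by norm_num)) hy0
  constructor
  · have h6 : T1 * Y + T2 * U = (T1 - 1) * Y + ((Y - y) + (T2 * (U - 1) + ((T2 - l ^ 2 * ((δ - 1) * y₁)) +
        l ^ 2 * (y₂ + (δ - 1) * y₁)))) := by
      rw [hy₂]
      ring
    rw [h6]
    refine w.map_add_le (e3_mul _ hT11 hY0 (by norm_num)) (w.map_add_le hY3 (w.map_add_le
      (e3_mul _ hT22 hU1 (by norm_num)) (w.map_add_le hT23 (e3_mul _ hl2 (l1_lt1 hs) (by norm_num)))))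
  · have h6 : T1 * U + T2 * Y * d - 1 = (T1 - 1) * U + ((U - 1) + T2 * Y * d) := by ring
    rw [h6]
    refine l1_of_le (n := -1) (by norm_num) (w.map_add_le (e3_mul _ hT11 hU0 (by norm_num)) (w.map_add_le
      (e3_mono _ hU1 (by norm_num)) (e3_mul _ (e3_mul (-4) hT22 hY0 (by norm_num)) hd0 (by norm_num))))

/-- two units agree up to sign modulo `l` -/
theorem e3c_sign (hL : Loc3 w l ε) {x z : C} (hx : w x = 1) (hz : w z = 1) : w (x + z) < 1 ∨ w (x - z) < 1 := by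
  have key : ∀ t : C, w t = 1 → ∃ e : C, (e = 1 ∨ e = -1) ∧ w (t - e) < 1 := by
    intro t ht
    rcases hL.res t ht.le with h1 | h1 | h1
    · exact absurd ht h1.ne
    · exact ⟨1, Or.inl rfl, h1⟩
    · exact ⟨-1, Or.inr rfl, by rw [sub_neg_eq_add]; exact h1⟩
  obtain ⟨e, he, hxe⟩ := key x hx
  obtain ⟨f, hf, hzf⟩ := key z hz
  have h1 : e = f ∨ e = -f := by
    rcases he with rfl | rfl <;> rcases hf with rfl | rfl
    · exact Or.inl rfl
    · exact Or.inr (by ring)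
    · exact Or.inr rfl
    · exact Or.inl rfl
  rcases h1 with h1 | h1
  · right
    have h2 : x - z = (x - e) - (z - f) := by rw [h1]; ring
    rw [h2]
    exact w.map_sub_lt hxe hzf
  · left
    have h2 : x + z = (x - e) + (z - f) := by rw [h1]; ring
    rw [h2]
    exact w.map_add_lt hxe hzf

end e3aux

section
variable (v : HeightOneSpectrum (𝓞 KK)) {l ε d u y : v.adicCompletion KK}

/-- [E3b] -/
theorem sqrt_one (h2 : Valued.v (2 : v.adicCompletion KK) = (1 : WithZero (Multiplicative ℤ))) {x : v.adicCompletion KK}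
    (hx : Valued.v (x - 1) < (1 : WithZero (Multiplicative ℤ))) :
    ∃ z : v.adicCompletion KK, z ^ 2 = x ∧ Valued.v (z - 1) < (1 : WithZero (Multiplicative ℤ)) := by
  have h4 : Valued.v (4 : v.adicCompletion KK) = (1 : WithZero (Multiplicative ℤ)) := by
    have : (4 : v.adicCompletion KK) = 2 ^ 2 := by norm_num
    rw [this, map_pow, h2, one_pow]
  have h1 : Valued.v (1 : v.adicCompletion KK) = (1 : WithZero (Multiplicative ℤ)) := map_one _
  have hx1 : Valued.v x = (1 : WithZero (Multiplicative ℤ)) := l1_one_of h1 hx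
  obtain ⟨z, hz, hz'⟩ := hensel3 v (p := 1) (q := -x) (t := -x) (x₀ := 1) h1.le
    (by rw [Valuation.map_neg]; exact hx1.le) (by rw [Valuation.map_neg]; exact hx1.le) h1.le (by
      have h5 : (1 : v.adicCompletion KK) ^ 3 + 1 * 1 ^ 2 + -x * 1 + -x = -(2 * (x - 1)) := by ring
      rw [h5, Valuation.map_neg, map_mul, h2, one_mul]
      exact hx) (by
      have h5 : 3 * (1 : v.adicCompletion KK) ^ 2 + 2 * 1 * 1 + -x = 4 - (x - 1) := by ring
      rw [h5, Valuation.map_sub_eq_of_lt_left _ (by rw [h4]; exact hx), h4])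
  refine ⟨z, ?_, hz'⟩
  have h5 : (z ^ 2 - x) * (z + 1) = 0 := by linear_combination hz
  rcases mul_eq_zero.1 h5 with h6 | h6
  · exact sub_eq_zero.1 h6
  · exfalso
    have h7 : (2 : v.adicCompletion KK) = -(z - 1) := by linear_combination h6
    rw [h7, Valuation.map_neg] at h2
    exact hz'.ne h2

/-- [E3a] -/
theorem sol_la (hL : Loc3 (Valued.v : Valuation (v.adicCompletion KK) (WithZero (Multiplicative ℤ))) l ε)
    (hε : Valued.v (ε + 1) < (1 : WithZero (Multiplicative ℤ)))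
    (hd : Valued.v (d + 1) < (1 : WithZero (Multiplicative ℤ)))
    (hu : Valued.v (u - 1) < (1 : WithZero (Multiplicative ℤ))) (hy : Valued.v y ≤ WithZero.exp (-3 : ℤ))
    (h : u ^ 2 - y ^ 2 * d = 1) : Sol3 u y := by
  have hV2 := l1_two hL
  have hV4 : Valued.v (4 : v.adicCompletion KK) = (1 : WithZero (Multiplicative ℤ)) := by
    have : (4 : v.adicCompletion KK) = 2 ^ 2 := by norm_num
    rw [this, map_pow, hV2, one_pow]
  have hV3 := l1_three hL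
  have hV1 : Valued.v (1 : v.adicCompletion KK) = (1 : WithZero (Multiplicative ℤ)) := map_one _
  have hVd : Valued.v d = (1 : WithZero (Multiplicative ℤ)) := by
    refine l1_one_of (y := -1) (by rw [Valuation.map_neg, map_one]) ?_
    rw [sub_neg_eq_add]
    exact hd
  have hV4d : Valued.v (4 * d) = (1 : WithZero (Multiplicative ℤ)) := by rw [map_mul, hV4, hVd, one_mul]
  have h4d : 4 * d ≠ 0 := by
    intro h0
    rw [h0, map_zero] at hV4d
    exact zero_ne_one hV4d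
  have hd00 : d ≠ 0 := right_ne_zero_of_mul h4d
  have h40 : (4 : v.adicCompletion KK) ≠ 0 := left_ne_zero_of_mul h4d
  have hl0 : l ≠ 0 := by
    intro h0
    have h1 := hL.hl
    rw [h0, map_zero] at h1
    exact WithZero.exp_ne_zero h1.symm
  have hVl : Valued.v l < (1 : WithZero (Multiplicative ℤ)) := l1_of_le (n := -1) (by norm_num) hL.hl.le
  obtain ⟨y₃, hy₃⟩ : ∃ y₃ : v.adicCompletion KK, y = l ^ 3 * y₃ := ⟨y / l ^ 3, by field_simp⟩
  have hVy₃ : Valued.v y₃ ≤ (1 : WithZero (Multiplicative ℤ)) := by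
    rw [hy₃, map_mul, map_pow, hL.hl, ← WithZero.exp_nsmul] at hy
    by_contra hcon
    have h5 : (WithZero.exp ((3 : ℕ) • (-1 : ℤ)) : WithZero (Multiplicative ℤ)) * 1 < WithZero.exp ((3 : ℕ) • (-1 : ℤ)) * Valued.v y₃ :=
      (mul_lt_mul_iff_right₀ (zero_lt_iff.2 WithZero.exp_ne_zero)).2 (not_le.1 hcon)
    rw [mul_one] at h5
    have h6 := lt_of_lt_of_le h5 hy
    rw [WithZero.exp_lt_exp] at h6
    norm_num at h6
  obtain ⟨s, hs3, hs2, hVs⟩ : ∃ s : v.adicCompletion KK, s ^ 3 = s ∧ (s ^ 2 = 0 ∨ s ^ 2 = 1) ∧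
      Valued.v (y₃ - s) < (1 : WithZero (Multiplicative ℤ)) := by
    rcases hL.res y₃ hVy₃ with h1 | h1 | h1
    · exact ⟨0, by ring, Or.inl (by ring), by rw [sub_zero]; exact h1⟩
    · exact ⟨1, by ring, Or.inr (by ring), h1⟩
    · exact ⟨-1, by ring, Or.inr (by ring), by rw [sub_neg_eq_add]; exact h1⟩
  have hVs1 : Valued.v s ≤ (1 : WithZero (Multiplicative ℤ)) := by
    have h1 : s = y₃ - (y₃ - s) := by ring
    rw [h1]
    exact Valuation.map_sub_le _ hVy₃ hVs.le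
  have hVq : Valued.v (ε / (4 * d)) = (1 : WithZero (Multiplicative ℤ)) := by rw [map_div₀, hV4d, div_one, hL.heps]
  obtain ⟨b₁, hb₁, hb₁'⟩ := hensel3 v (p := 0) (q := ε / (4 * d)) (t := -y₃ / (4 * d)) (x₀ := s)
    (by rw [map_zero]; exact zero_le) hVq.le
    (by rw [map_div₀, Valuation.map_neg, hV4d, div_one]; exact hVy₃) hVs1 (by
      have h5 : s ^ 3 + 0 * s ^ 2 + ε / (4 * d) * s + -y₃ / (4 * d) =
          (s * (4 * (d + 1) + ((ε + 1) - 3 * 2)) - (y₃ - s)) / (4 * d) := by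
        field_simp
        linear_combination (4 * d) * hs3
      rw [h5, map_div₀, hV4d, div_one]
      refine Valuation.map_sub_lt _ ?_ hVs
      rw [map_mul]
      refine lt_of_le_of_lt (mul_le_of_le_one_left' hVs1) ?_
      refine Valuation.map_add_lt _ ?_ (Valuation.map_sub_lt _ hε ?_)
      · rw [map_mul, hV4, one_mul]
        exact hd
      · rw [map_mul, hV2, mul_one]
        exact hV3) (by
      have h5 : 3 * s ^ 2 + 2 * 0 * s + ε / (4 * d) = 3 * s ^ 2 + ε / (4 * d) := by ring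
      rw [h5, Valuation.map_add_eq_of_lt_right _ ?_, hVq]
      rw [hVq, map_mul, map_pow]
      exact lt_of_le_of_lt (mul_le_of_le_one_right' (pow_le_one' hVs1 2)) hV3)
  have hVb : Valued.v b₁ ≤ (1 : WithZero (Multiplicative ℤ)) := by
    have h1 : b₁ = (b₁ - s) + s := by ring
    rw [h1]
    exact Valuation.map_add_le _ hb₁'.le hVs1
  have hb2 : 4 * d * b₁ ^ 3 + ε * b₁ - y₃ = 0 := by
    have h5 : 4 * d * (b₁ ^ 3 + 0 * b₁ ^ 2 + ε / (4 * d) * b₁ + -y₃ / (4 * d)) = 4 * d * b₁ ^ 3 + ε * b₁ - y₃ := by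
      field_simp
      ring
    rw [← h5, hb₁, mul_zero]
  have hu1 : Valued.v (ε + 4 * b₁ ^ 2 * d) = (1 : WithZero (Multiplicative ℤ)) := by
    have h6 : Valued.v (1 + s ^ 2) = (1 : WithZero (Multiplicative ℤ)) := by
      rcases hs2 with h7 | h7
      · rw [h7, add_zero, hV1]
      · rw [h7, one_add_one_eq_two, hV2]
    have h7 : ε + 4 * b₁ ^ 2 * d = ((ε + 1) + (4 * ((b₁ - s) * (b₁ + s)) * d + (4 * s ^ 2 * (d + 1) - 3 * s ^ 2))) - (1 + s ^ 2) := by ring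
    rw [h7, Valuation.map_sub_eq_of_lt_right _ ?_, h6]
    rw [h6]
    refine Valuation.map_add_lt _ hε (Valuation.map_add_lt _ ?_ (Valuation.map_sub_lt _ ?_ ?_))
    · rw [map_mul, map_mul, hVd, hV4, one_mul, mul_one, map_mul]
      exact lt_of_le_of_lt (mul_le_of_le_one_right' (Valuation.map_add_le _ hVb hVs1)) hb₁'
    · rw [map_mul, map_mul, hV4, one_mul, map_pow]
      exact lt_of_le_of_lt (mul_le_of_le_one_left' (pow_le_one' hVs1 2)) hd
    · rw [map_mul, map_pow]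
      exact lt_of_le_of_lt (mul_le_of_le_one_right' (pow_le_one' hVs1 2)) hV3
  have hu10 : ε + 4 * b₁ ^ 2 * d ≠ 0 := by
    intro h0
    rw [h0, map_zero] at hu1
    exact zero_ne_one hu1
  have h34 : 3 + 4 * ((l * b₁) ^ 2 * d) = l ^ 2 * (ε + 4 * b₁ ^ 2 * d) := by linear_combination hL.three
  have h340 : 3 + 4 * ((l * b₁) ^ 2 * d) ≠ 0 := by
    rw [h34]
    exact mul_ne_zero (pow_ne_zero 2 hl0) hu10
  have hyb : l * b₁ * (3 + 4 * ((l * b₁) ^ 2 * d)) = y := by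
    rw [h34, hy₃]
    linear_combination (l ^ 3) * hb2
  have h14 : 1 + 4 * ((l * b₁) ^ 2 * d) ≠ 0 := by
    intro h0
    have h5 : Valued.v (4 * ((l * b₁) ^ 2 * d)) < (1 : WithZero (Multiplicative ℤ)) := by
      rw [map_mul, hV4, one_mul, map_mul, hVd, mul_one, map_pow, map_mul]
      refine pow_lt_one' ?_ (by norm_num)
      exact lt_of_le_of_lt (mul_le_of_le_one_right' hVb) hVl
    have h6 : 4 * ((l * b₁) ^ 2 * d) = -1 := by linear_combination h0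
    rw [h6, Valuation.map_neg, map_one] at h5
    exact lt_irrefl _ h5
  set b := l * b₁ with hb
  set T := b ^ 2 * d with hT
  have hu2 : u ^ 2 = (1 + T) * (1 + 4 * T) ^ 2 := by
    have h5 : u ^ 2 = 1 + y ^ 2 * d := by linear_combination h
    rw [h5, ← hyb]
    have h6 : (b * (3 + 4 * T)) ^ 2 * d = T * (3 + 4 * T) ^ 2 := by rw [hT]; ring
    rw [h6]
    ring
  have ha2 : (u / (1 + 4 * T)) ^ 2 = 1 + T := by
    rw [div_pow, hu2]
    exact mul_div_cancel_right₀ _ (pow_ne_zero 2 h14)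
  refine ⟨u / (1 + 4 * T), b, ?_, ?_, ?_⟩
  · have h5 : 4 * (u / (1 + 4 * T)) ^ 3 - 3 * (u / (1 + 4 * T)) = (u / (1 + 4 * T)) * (4 * (u / (1 + 4 * T)) ^ 2 - 3) := by ring
    rw [h5, ha2]
    have h6 : 4 * (1 + T) - 3 = 1 + 4 * T := by ring
    rw [h6]
    field_simp
  · rw [ha2, ← hyb]
    ring
  · rw [ha2]
    have h6 : 4 * (1 + T) - 1 = 3 + 4 * T := by ring
    rw [h6]
    exact h340

/-- [E3c] -/
theorem sol_minus (hL : Loc3 (Valued.v : Valuation (v.adicCompletion KK) (WithZero (Multiplicative ℤ))) l ε)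
    (hε : Valued.v (ε + 1) < (1 : WithZero (Multiplicative ℤ)))
    (hd : Valued.v (d + 1) ≤ WithZero.exp (-2 : ℤ)) (hd' : ¬ Valued.v (d + 1 - l ^ 2) ≤ WithZero.exp (-3 : ℤ))
    (hu : Valued.v (u - 1) ≤ WithZero.exp (-2 : ℤ)) (hy : Valued.v y = WithZero.exp (-2 : ℤ))
    (h : u ^ 2 - y ^ 2 * d = 1) {M : Type} [Field M] [Algebra (v.adicCompletion KK) M] {r : M}
    (hr : r ^ 2 = algebraMap (v.adicCompletion KK) M d) :
    LocSol d r (algebraMap (v.adicCompletion KK) M u + algebraMap (v.adicCompletion KK) M y * r) := by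
  have hV2 := l1_two hL
  have hV3 := l1_three hL
  have hl0 : l ≠ 0 := by
    intro h0
    have h1 := hL.hl
    rw [h0, map_zero] at h1
    exact WithZero.exp_ne_zero h1.symm
  have hd1 : Valued.v (d + 1) < (1 : WithZero (Multiplicative ℤ)) := l1_of_le (by norm_num) hd
  obtain ⟨y₀, hy₀, hy₀'⟩ := sqrt_one v hV2 (x := d - 1) (by
    have h1 : d - 1 - 1 = (d + 1) - 3 := by ring
    rw [h1]
    exact Valuation.map_sub_lt _ hd1 hV3)
  have hVy₀ : Valued.v y₀ = (1 : WithZero (Multiplicative ℤ)) := l1_one_of (map_one _) hy₀'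
  obtain ⟨δ, hδ⟩ : ∃ δ : v.adicCompletion KK, d + 1 = l ^ 2 * δ := ⟨(d + 1) / l ^ 2, by field_simp⟩
  obtain ⟨y₂, hy₂⟩ : ∃ y₂ : v.adicCompletion KK, y = l ^ 2 * y₂ := ⟨y / l ^ 2, by field_simp⟩
  have hVl2 : Valued.v (l ^ 2) = (WithZero.exp (-2 : ℤ) : WithZero (Multiplicative ℤ)) := by
    rw [map_pow, hL.hl, ← WithZero.exp_nsmul]
    norm_num
  have hcancel : ∀ x : v.adicCompletion KK, Valued.v (l ^ 2 * x) ≤ (WithZero.exp (-2 : ℤ) : WithZero (Multiplicative ℤ)) →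
      Valued.v x ≤ (1 : WithZero (Multiplicative ℤ)) := by
    intro x hx
    rw [map_mul, hVl2] at hx
    by_contra hcon
    have h5 : (WithZero.exp (-2 : ℤ) : WithZero (Multiplicative ℤ)) * 1 < WithZero.exp (-2 : ℤ) * Valued.v x :=
      (mul_lt_mul_iff_right₀ (zero_lt_iff.2 WithZero.exp_ne_zero)).2 (not_le.1 hcon)
    rw [mul_one] at h5
    exact absurd hx (not_le.2 h5)
  have hVδ : Valued.v δ ≤ (1 : WithZero (Multiplicative ℤ)) := hcancel δ (by rw [← hδ]; exact hd)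
  have hVy₂ : Valued.v y₂ = (1 : WithZero (Multiplicative ℤ)) := by
    rw [hy₂, map_mul, hVl2] at hy
    exact (mul_eq_left₀ WithZero.exp_ne_zero).1 hy
  have hVδ1 : Valued.v (δ - 1) = (1 : WithZero (Multiplicative ℤ)) := by
    refine le_antisymm (Valuation.map_sub_le _ hVδ (map_one _).le) ?_
    by_contra hcon
    apply hd'
    have h1 : d + 1 - l ^ 2 = l ^ 2 * (δ - 1) := by rw [hδ]; ring
    rw [h1]
    exact e3_mul _ hVl2.le (l1_lt1 (not_le.1 hcon)) (by norm_num)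
  obtain ⟨y₁, hy₁, hVy₁, hs⟩ : ∃ y₁ : v.adicCompletion KK, y₁ ^ 2 = d - 1 ∧ Valued.v y₁ = (1 : WithZero (Multiplicative ℤ)) ∧
      Valued.v (y₂ + (δ - 1) * y₁) < (1 : WithZero (Multiplicative ℤ)) := by
    rcases e3c_sign hL (x := y₂) (z := (δ - 1) * y₀) hVy₂ (by rw [map_mul, hVδ1, hVy₀, one_mul]) with h1 | h1
    · exact ⟨y₀, hy₀, hVy₀, h1⟩
    · refine ⟨-y₀, by rw [neg_sq]; exact hy₀, by rw [Valuation.map_neg]; exact hVy₀, ?_⟩
      have h2 : y₂ + (δ - 1) * -y₀ = y₂ - (δ - 1) * y₀ := by ring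
      rw [h2]
      exact h1
  obtain ⟨A, hA⟩ : ∃ A : v.adicCompletion KK, A = 2 * (1 - 2 * d) ^ 2 - 1 := ⟨_, rfl⟩
  obtain ⟨B, hB⟩ : ∃ B : v.adicCompletion KK, B = 4 * (1 - 2 * d) * y₁ := ⟨_, rfl⟩
  obtain ⟨T1, hT1⟩ : ∃ T1 : v.adicCompletion KK, T1 = 2 * A ^ 2 - 1 := ⟨_, rfl⟩
  obtain ⟨T2, hT2⟩ : ∃ T2 : v.adicCompletion KK, T2 = 2 * A * B := ⟨_, rfl⟩
  obtain ⟨P, hP⟩ : ∃ P : v.adicCompletion KK, P = 2 * u ^ 2 - 1 := ⟨_, rfl⟩
  obtain ⟨Q, hQ⟩ : ∃ Q : v.adicCompletion KK, Q = 2 * u * y := ⟨_, rfl⟩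
  obtain ⟨U, hU⟩ : ∃ U : v.adicCompletion KK, U = 2 * P ^ 2 - 1 := ⟨_, rfl⟩
  obtain ⟨Y, hY⟩ : ∃ Y : v.adicCompletion KK, Y = 2 * P * Q := ⟨_, rfl⟩
  obtain ⟨hest1, hest2⟩ := e3c_est hL hε hu h hVy₁.le hA hB hT1 hT2 hP hQ hU hY
    (by linear_combination hδ) hVδ hy₂ hVy₂.le hs
  have hAB : A ^ 2 - B ^ 2 * d = 1 := by
    rw [hA, hB]
    linear_combination (-(16 * (1 - 2 * d) ^ 2 * d)) * hy₁
  have hPQ : P ^ 2 - Q ^ 2 * d = 1 := by
    rw [hP, hQ]
    linear_combination (4 * u ^ 2) * h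
  have hT : T1 ^ 2 - T2 ^ 2 * d = 1 := by
    rw [hT1, hT2]
    linear_combination (4 * A ^ 2) * hAB
  have hUY : U ^ 2 - Y ^ 2 * d = 1 := by
    rw [hU, hY]
    linear_combination (4 * P ^ 2) * hPQ
  have hN : (T1 * U + T2 * Y * d) ^ 2 - (T1 * Y + T2 * U) ^ 2 * d = 1 := by
    linear_combination (U ^ 2 - Y ^ 2 * d) * hT + hUY
  obtain ⟨a, b, ha, hb, hab⟩ := sol_la v hL hε hd1 hest2 hest1 hN
  -- everything in `M`
  set φ := algebraMap (v.adicCompletion KK) M with hφ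
  have hr' : r ∈ IntermediateField.adjoin (v.adicCompletion KK) {r} := IntermediateField.mem_adjoin_simple_self _ r
  have hmem : ∀ p q : v.adicCompletion KK, φ p + φ q * r ∈ IntermediateField.adjoin (v.adicCompletion KK) {r} := fun p q =>
    add_mem (algebraMap_mem _ p) (mul_mem (algebraMap_mem _ q) hr')
  have hβ : (φ a + φ b * r) ^ 3 = φ (T1 * U + T2 * Y * d) + φ (T1 * Y + T2 * U) * r := by
    refine cheb hr ?_ ?_ ?_ ?_
    · rw [← ha]
      simp only [map_sub, map_mul, map_pow, map_ofNat]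
    · rw [← hb]
      simp only [map_sub, map_mul, map_pow, map_ofNat, map_one]
    · have := congrArg φ hN
      simpa only [map_sub, map_mul, map_pow, map_one] using this
    · have := (map_ne_zero φ).2 hab
      simpa only [map_sub, map_mul, map_pow, map_ofNat, map_one] using this
  set α := φ u + φ y * r with hα
  set π := φ y₁ - r with hπ
  have hy₁' : φ y₁ ^ 2 = φ d - 1 := by
    have := congrArg φ hy₁
    simpa only [map_sub, map_pow, map_one] using this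
  have hπ0 : π ≠ 0 := by
    intro h0
    have h1 : π * (φ y₁ + r) = -1 := by
      rw [hπ]
      linear_combination hy₁' - hr
    rw [h0, zero_mul] at h1
    exact (neg_ne_zero.2 one_ne_zero) h1.symm
  have hα0 : α ≠ 0 := by
    intro h0
    have h2 : φ u ^ 2 - φ y ^ 2 * φ d = 1 := by
      have := congrArg φ h
      simpa only [map_sub, map_mul, map_pow, map_one] using this
    have h1 : α * (φ u - φ y * r) = 1 := by
      rw [hα]
      linear_combination h2 - (φ y ^ 2) * hr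
    rw [h0, zero_mul] at h1
    exact zero_ne_one h1
  have hθ : -π ^ 2 = φ (1 - 2 * d) + φ (2 * y₁) * r := by
    rw [hπ]
    simp only [map_sub, map_mul, map_ofNat, map_one]
    linear_combination -hy₁' - hr
  have hθ2 : (-π ^ 2) ^ 2 = φ A + φ B * r := by
    rw [hθ, hA, hB]
    simp only [map_sub, map_mul, map_pow, map_ofNat, map_one]
    linear_combination (4 * φ y₁ ^ 2) * hr + (4 * φ d) * hy₁'
  have hθ4 : (-π ^ 2) ^ 4 = φ T1 + φ T2 * r := by
    have h1 : (-π ^ 2) ^ 4 = ((-π ^ 2) ^ 2) ^ 2 := by ring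
    have h2 : φ A ^ 2 - φ B ^ 2 * φ d = 1 := by
      have := congrArg φ hAB
      simpa only [map_sub, map_mul, map_pow, map_one] using this
    rw [h1, hθ2, hT1, hT2]
    simp only [map_sub, map_mul, map_pow, map_ofNat, map_one]
    linear_combination (φ B ^ 2) * hr - h2
  have hα2 : α ^ 2 = φ P + φ Q * r := by
    have h2 : φ u ^ 2 - φ y ^ 2 * φ d = 1 := by
      have := congrArg φ h
      simpa only [map_sub, map_mul, map_pow, map_one] using this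
    rw [hα, hP, hQ]
    simp only [map_sub, map_mul, map_pow, map_ofNat, map_one]
    linear_combination (φ y ^ 2) * hr - h2
  have hα4 : α ^ 4 = φ U + φ Y * r := by
    have h1 : α ^ 4 = (α ^ 2) ^ 2 := by ring
    have h2 : φ P ^ 2 - φ Q ^ 2 * φ d = 1 := by
      have := congrArg φ hPQ
      simpa only [map_sub, map_mul, map_pow, map_one] using this
    rw [h1, hα2, hU, hY]
    simp only [map_sub, map_mul, map_pow, map_ofNat, map_one]
    linear_combination (φ Q ^ 2) * hr - h2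
  have hβ' : (φ a + φ b * r) ^ 3 = (-π ^ 2 * α) ^ 4 := by
    rw [hβ, mul_pow, hθ4, hα4]
    simp only [map_add, map_mul]
    linear_combination (-(φ T2 * φ Y)) * hr
  have hθα : -π ^ 2 * α ≠ 0 := mul_ne_zero (neg_ne_zero.2 (pow_ne_zero 2 hπ0)) hα0
  have hβ0 : φ a + φ b * r ≠ 0 := by
    intro h0
    rw [h0] at hβ'
    exact pow_ne_zero 4 hθα (by rw [← hβ']; ring)
  right
  refine ⟨-1, y₁, -π / ((φ a + φ b * r) / (-π ^ 2 * α)), ?_, ?_, ?_, hπ0, ?_⟩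
  · have h1 : π ∈ IntermediateField.adjoin (v.adicCompletion KK) {r} := sub_mem (algebraMap_mem _ y₁) hr'
    have h2 : α ∈ IntermediateField.adjoin (v.adicCompletion KK) {r} := hmem u y
    exact div_mem (neg_mem h1) (div_mem (hmem a b) (mul_mem (neg_mem (pow_mem h1 2)) h2))
  · exact div_ne_zero (neg_ne_zero.2 hπ0) (div_ne_zero hβ0 hθα)
  · rw [hy₁]
    ring
  · have h1 : α * (-π / ((φ a + φ b * r) / (-π ^ 2 * α))) ^ 3 = π ^ 9 * α ^ 4 / (φ a + φ b * r) ^ 3 := by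
      field_simp
    rw [h1, hβ']
    field_simp
    rfl

end

end JD
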