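import Pool.Agent.JD.Q1
import Pool.Agent.CU.C12a

/-!
# [JD-E1] tools: triple angle formula; Hensel's lemma for cubic polynomials over the completions

PROOF. `cheb` [E1a]: `b² d (4 a² - 1)² = v² d = u² - 1 = (a² - 1)(4 a² - 1)²` (as `u = a (4 a² - 3)` and `a² (4 a² - 3)² - 1 = (a² - 1)(4 a² - 1)²`), so `b² d = a² - 1`. `(a + b r)³ = a³ + 3 a b² d + (3 a² b + b³ d) r`, `a³ + 3 a (a² - 1) = 4 a³ - 3 a = u`, `b (3 a² + a² - 1) = v`.
`hensel3` [E1a]: `CUD.c12a_hens KK v` (CU/C12a.lean): `HenselianLocalRing (v.adicCompletionIntegers KK)`; the monic polynomial `X³ + p X² + q X + t`, see the proof of `CUD.cube_of_one`. An element of the completion with `Valued.v ≤ 1` is an element of `v.adicCompletionIntegers KK`; `Valued.v < 1`: in the maximal ideal; `Valued.v = 1`: a unit.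
`cube_four` [E1b]: at a place with `3 = ε l²`, `Valued.v l = exp (-1)`, `Valued.v ε = 1`: if `Valued.v (x - 1) ≤ exp (-4)` then `x` is a cube: `x = 1 + l³ z`, `Valued.v z ≤ exp (-1)`; look for `m` with `(1 + l m)³ = 1 + 3 l m + 3 l² m² + l³ m³ = 1 + l³ (m³ + ε l m² + ε m)`: `m³ + ε l m² + ε m - z = 0` has the approximate root `m = 0`
(`f(0) = -z`, `f'(0) = ε` a unit): `hensel3`.
-/

set_option autoImplicit false

open NumberField IsDedekindDomain
open scoped Classical

namespace JD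

open CM27 CF JZ
open CU (la om eE)

theorem cheb {M : Type} [Field M] {a b u v d r : M} (hr : r ^ 2 = d) (h1 : 4 * a ^ 3 - 3 * a = u) (h2 : b * (4 * a ^ 2 - 1) = v)
    (h3 : u ^ 2 - v ^ 2 * d = 1) (h4 : 4 * a ^ 2 - 1 ≠ 0) : (a + b * r) ^ 3 = u + v * r := by
  have hb : b ^ 2 * d = a ^ 2 - 1 := by
    have h5 : (4 * a ^ 2 - 1) ^ 2 * (b ^ 2 * d) = (4 * a ^ 2 - 1) ^ 2 * (a ^ 2 - 1) := by
      rw [← h1, ← h2] at h3
      linear_combination (-1 : M) * h3
    exact mul_left_cancel₀ (pow_ne_zero 2 h4) h5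
  rw [← h1, ← h2]
  have h6 : (a + b * r) ^ 3 = a ^ 3 + 3 * a * (b ^ 2 * d) + (3 * a ^ 2 * b + b * (b ^ 2 * d)) * r := by
    linear_combination (3 * a * b ^ 2 + b ^ 3 * r) * hr
  rw [h6, hb]
  ring

section
variable (v : HeightOneSpectrum (𝓞 KK))

theorem hensel3 {p q t x₀ : v.adicCompletion KK} (hp : Valued.v p ≤ (1 : WithZero (Multiplicative ℤ)))
    (hq : Valued.v q ≤ (1 : WithZero (Multiplicative ℤ))) (ht : Valued.v t ≤ (1 : WithZero (Multiplicative ℤ)))
    (hx : Valued.v x₀ ≤ (1 : WithZero (Multiplicative ℤ)))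
    (h0 : Valued.v (x₀ ^ 3 + p * x₀ ^ 2 + q * x₀ + t) < (1 : WithZero (Multiplicative ℤ)))
    (h1 : Valued.v (3 * x₀ ^ 2 + 2 * p * x₀ + q) = (1 : WithZero (Multiplicative ℤ))) :
    ∃ x : v.adicCompletion KK, x ^ 3 + p * x ^ 2 + q * x + t = 0 ∧ Valued.v (x - x₀) < (1 : WithZero (Multiplicative ℤ)) := by
  have hhens := CUD.c12a_hens KK v
  have hint : (Valued.v : Valuation (v.adicCompletion KK) _).Integers (v.adicCompletionIntegers KK) :=
    Valuation.valuationSubring.integers _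
  set P : v.adicCompletionIntegers KK := ⟨p, hp⟩ with hP
  set Q : v.adicCompletionIntegers KK := ⟨q, hq⟩ with hQ
  set T : v.adicCompletionIntegers KK := ⟨t, ht⟩ with hT
  set X₀ : v.adicCompletionIntegers KK := ⟨x₀, hx⟩ with hX₀
  obtain ⟨s, hs, hs'⟩ := hhens.is_henselian
    (Polynomial.X ^ 3 + Polynomial.C P * Polynomial.X ^ 2 + Polynomial.C Q * Polynomial.X + Polynomial.C T)
    (by monicity!) X₀ (by
      have h4 : Polynomial.eval X₀ (Polynomial.X ^ 3 + Polynomial.C P * Polynomial.X ^ 2 + Polynomial.C Q * Polynomial.X +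
          Polynomial.C T) = X₀ ^ 3 + P * X₀ ^ 2 + Q * X₀ + T := by simp
      rw [h4]
      refine (Valuation.mem_maximalIdeal_iff _ _).2 ?_
      exact h0) (by
      have h4 : Polynomial.eval X₀ (Polynomial.derivative (Polynomial.X ^ 3 + Polynomial.C P * Polynomial.X ^ 2 +
          Polynomial.C Q * Polynomial.X + Polynomial.C T)) = 3 * X₀ ^ 2 + 2 * P * X₀ + Q := by
        simp
        ring
      rw [h4, hint.isUnit_iff_valuation_eq_one]
      exact h1)
  refine ⟨(s : v.adicCompletion KK), ?_, ?_⟩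
  · have h4 : s ^ 3 + P * s ^ 2 + Q * s + T = 0 := by
      have h5 := hs
      rw [Polynomial.IsRoot.def] at h5
      simpa only [Polynomial.eval_add, Polynomial.eval_mul, Polynomial.eval_pow, Polynomial.eval_X, Polynomial.eval_C] using h5
    exact congrArg (fun x : v.adicCompletionIntegers KK => (x : v.adicCompletion KK)) h4
  · exact (Valuation.mem_maximalIdeal_iff _ _).1 hs'

theorem cube_four {l ε x : v.adicCompletion KK} (hl : Valued.v l = WithZero.exp (-1 : ℤ))
    (hε : Valued.v ε = (1 : WithZero (Multiplicative ℤ))) (h3 : (3 : v.adicCompletion KK) = ε * l ^ 2)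
    (hx : Valued.v (x - 1) ≤ WithZero.exp (-4 : ℤ)) :
    ∃ m : v.adicCompletion KK, Valued.v m ≤ (1 : WithZero (Multiplicative ℤ)) ∧ x = (1 + l * m) ^ 3 := by
  have hl0 : l ≠ 0 := by
    intro h0
    rw [h0, map_zero] at hl
    exact WithZero.exp_ne_zero hl.symm
  have hl1 : Valued.v l < (1 : WithZero (Multiplicative ℤ)) := by
    rw [hl, ← WithZero.exp_zero, WithZero.exp_lt_exp]
    norm_num
  obtain ⟨z, hz⟩ : ∃ z : v.adicCompletion KK, x = 1 + l ^ 3 * z := ⟨(x - 1) / l ^ 3, by field_simp; ring⟩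
  have hz1 : Valued.v z ≤ WithZero.exp (-1 : ℤ) := by
    have h4 : x - 1 = l ^ 3 * z := by rw [hz]; ring
    rw [h4, map_mul, map_pow, hl, ← WithZero.exp_nsmul] at hx
    by_contra hcon
    have h5 : (WithZero.exp ((3 : ℕ) • (-1 : ℤ)) : WithZero (Multiplicative ℤ)) * WithZero.exp (-1 : ℤ) < WithZero.exp ((3 : ℕ) • (-1 : ℤ)) * Valued.v z :=
      (mul_lt_mul_iff_right₀ (zero_lt_iff.2 WithZero.exp_ne_zero)).2 (not_le.1 hcon)
    rw [← WithZero.exp_add] at h5
    have h6 := lt_of_lt_of_le h5 hx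
    rw [WithZero.exp_lt_exp] at h6
    norm_num at h6
  have hz2 : Valued.v z < (1 : WithZero (Multiplicative ℤ)) := by
    refine lt_of_le_of_lt hz1 ?_
    rw [← WithZero.exp_zero, WithZero.exp_lt_exp]
    norm_num
  obtain ⟨m, hm, hm'⟩ := hensel3 v (p := ε * l) (q := ε) (t := -z) (x₀ := 0)
    (by rw [map_mul, hε, one_mul]; exact hl1.le) hε.le (by rw [Valuation.map_neg]; exact hz2.le)
    (by rw [map_zero]; exact zero_le) (by
      have h5 : (0 : v.adicCompletion KK) ^ 3 + ε * l * 0 ^ 2 + ε * 0 + -z = -z := by ring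
      rw [h5, Valuation.map_neg]
      exact hz2) (by
      have h5 : 3 * (0 : v.adicCompletion KK) ^ 2 + 2 * (ε * l) * 0 + ε = ε := by ring
      rw [h5]
      exact hε)
  refine ⟨m, ?_, ?_⟩
  · rw [sub_zero] at hm'
    exact hm'.le
  · rw [hz]
    linear_combination (-(l ^ 3)) * hm - (l * m + l ^ 2 * m ^ 2) * h3

end

end JD
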