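import Pool.Agent.JD.S2
import Pool.Agent.PI.T3a
import Pool.Agent.CU.T3

/-!
# [JD-S4] the Tamagawa number of `y² = x³ + D` at `λ` is prime to `3` (abstract discrete valuation ring `A`, uniformizer `l`, residue field `F₃`, `3 = ε l²`)

PROOF. `index_odd`: as `CU.index_four` (CU/T0.lean): let `H` be the closure of `S`. `P + P ∈ H` for all `P` (`P ∈ S`: clear; `P ∉ S`: `h P P`), so `G ⧸ H` has exponent 2. The map `q ↦ if q = 0 then none else some (f q.out)` is injective (if `f q.out = f q'.out` then `q + q' = 0`, `q = -q' = q'`), so `G ⧸ H` is finite and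
`index ≠ 0`. If `3 ∣ Nat.card (G ⧸ H)` there is an element of order 3 (`exists_prime_addOrderOf_dvd_card`), contradiction to exponent 2.

`nr_iff`: `V` = the valuation. The reduced curve is `y² = x³ + D̄` in characteristic 3; a point `(ā, b̄)` on it is nonsingular iff `b̄ ≠ 0` (partial derivatives `-3 x² = 0` and `2 y`). If `1 ≤ V y` and `y = algebraMap b`, then `b` is a unit: nonsingular. If `V y < 1`: `y = algebraMap b`, `l ∣ b`, `x³ = y² - D` is integral, so
`x = algebraMap a`, and the reduced point is singular.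

`sing_form`: `(x, y)` with `V y < 1`: `x = algebraMap a`, `y = algebraMap b`, `b² = a³ + D`, `l ∣ b`. `D ≡ η mod l²`. `a³ ≡ -D ≡ -η mod l`; `a ≡ 0, 1, -1 mod l` (`hres`), so `a ≡ -η mod l` (`η = ± 1`, `l ∤ 2`), `a = -η + l s`, `a³ = -η + 3 l s - 3 η l² s² + l³ s³ ≡ -η mod l³` (`3 = ε l²`, `η² = 1`), so
`b² ≡ D - η mod l³`. If `l² ∤ b`: `b = l u`, `u ≡ ± 1 mod l` (`hres`, `u` is a unit), `b² ≡ l² mod l³`, `l³ ∣ D - η - l²`: contradiction to `hD'`. So `b = l² t`.

`add_NR`: `P = (x₁, y₁)`, `Q = (x₂, y₂)`, both with `V y < 1`: `x_i = -η + l s_i`, `y_i = l² t_i` with `s₁ ≡ s₂`, `t₁ ≡ t₂ mod l`. If `P = -Q`: `P + Q = 0`, `NR`. Otherwise `y₁ + y₂ ≠ 0` [if `y₁ + y₂ = 0` then `x₁³ = x₂³`; `x₁ ≠ x₂` (otherwise `P = -Q`), so `x₁² + x₁ x₂ + x₂² = 0`; but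
`x₁² + x₁ x₂ + x₂² = 3 η² - 3 η l (s₁ + s₂) + l² (s₁² + s₁ s₂ + s₂²) ≡ l² (ε + 3 s₁²) ≡ l² ε mod l³` is not `0`], and the slope is `m = (x₁² + x₁ x₂ + x₂²)/(y₁ + y₂)` (for `x₁ ≠ x₂`: `(y₁ - y₂)(y₁ + y₂) = x₁³ - x₂³`; for `x₁ = x₂`, `y₁ = y₂`: `3 x²/(2 y)`). The numerator is `l² · unit` (as computed),
the denominator `l² (t₁ + t₂)`, `t₁ + t₂ ≡ 2 t₁ mod l`. The sum is `(x₃, y₃)`, `x₃ = m² - x₁ - x₂`.
 `l ∣ t₁`: `V m > 1`, `V x₃ > 1`, so `V y₃ > 1` (`y₃² = x₃³ + D`): `NR`.
 `l ∤ t₁`: `V m = 1`, `m = algebraMap μ`, `μ² ≡ 1 mod l` (`hres`), `x₃ = algebraMap a₃`, `a₃ ≡ 1 + 2 η mod l`. If `V y₃ < 1` then `a₃ ≡ -η mod l` (`sing_form`), `1 + 3 η ≡ 0`, `l ∣ 1`, contradiction. So `1 ≤ V y₃`: `NR`.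

`tamagawa_la`: `VC63.tamagawa_eq` with `unit_la` (S2), `index_odd` for `S = {NR}`, `G` the group of points, `α = (A ⧸ l) × (A ⧸ l)` (finite: `IsLocalRing.ResidueField A × IsLocalRing.ResidueField A`, at most three classes by `hres`), `f P = (s mod l, t mod l)` for `P = (x, y)` with `V y < 1` (choose `s, t`), arbitrary otherwise.
-/

set_option autoImplicit false

open Polynomial NumberField IsDedekindDomain
open scoped Classical ComplexConjugate

namespace JD

theorem index_odd {G : Type*} [AddCommGroup G] (S : Set G) (h0 : (0 : G) ∈ S) {α : Type*} [Finite α] (f : G → α)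
    (h : ∀ P Q : G, P ∉ S → Q ∉ S → f P = f Q → P + Q ∈ S) :
    (AddSubgroup.closure S).index ≠ 0 ∧ ¬ 3 ∣ (AddSubgroup.closure S).index := by
  set H := AddSubgroup.closure S with hH
  have hsub : ∀ x ∈ S, x ∈ H := fun x hx => AddSubgroup.subset_closure hx
  have h2 : ∀ q : G ⧸ H, q + q = 0 := by
    intro q
    induction q using QuotientAddGroup.induction_on with
    | H P =>
      rw [← QuotientAddGroup.mk_add, QuotientAddGroup.eq_zero_iff]
      by_cases hP : P ∈ S
      · exact H.add_mem (hsub P hP) (hsub P hP)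
      · exact hsub _ (h P P hP hP rfl)
  have hout : ∀ q : G ⧸ H, q ≠ 0 → q.out ∉ S := by
    intro q hq hS
    apply hq
    rw [← QuotientAddGroup.out_eq' q, QuotientAddGroup.eq_zero_iff]
    exact hsub _ hS
  have hinj : Function.Injective
      (fun q : G ⧸ H => if q = 0 then (none : Option α) else some (f q.out)) := by
    intro q q' hqq
    by_cases hq : q = 0
    · by_cases hq' : q' = 0
      · rw [hq, hq']
      · simp [hq, hq'] at hqq
    · by_cases hq' : q' = 0
      · simp [hq, hq'] at hqq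
      · simp only [hq, hq', if_false, Option.some.injEq] at hqq
        have h3 := hsub _ (h _ _ (hout q hq) (hout q' hq') hqq)
        rw [← QuotientAddGroup.eq_zero_iff, QuotientAddGroup.mk_add, QuotientAddGroup.out_eq',
          QuotientAddGroup.out_eq'] at h3
        have h4 := h2 q'
        rw [← h4] at h3
        exact add_right_cancel h3
  have hfin : Finite (G ⧸ H) := Finite.of_injective _ hinj
  have hidx : H.index = Nat.card (G ⧸ H) := rfl
  rw [hidx]
  refine ⟨Nat.card_pos.ne', fun h3 => ?_⟩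
  have : Fact (Nat.Prime 3) := ⟨Nat.prime_three⟩
  obtain ⟨x, hx⟩ := exists_prime_addOrderOf_dvd_card' 3 h3
  have h4 : addOrderOf x ∣ 2 := addOrderOf_dvd_of_nsmul_eq_zero (by rw [two_nsmul, h2])
  rw [hx] at h4
  exact absurd (Nat.le_of_dvd two_pos h4) (by norm_num)

theorem s4b_nonsing (k : Type) [Field k] (h3 : (3 : k) = 0) (d x y : k) :
    (ED d).toAffine.Nonsingular x y ↔ y ^ 2 = x ^ 3 + d ∧ y ≠ 0 := by
  rw [WeierstrassCurve.Affine.nonsingular_iff', ED_equation]
  simp only [ED]
  constructor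
  · rintro ⟨h1, h2'⟩
    refine ⟨h1, ?_⟩
    rintro rfl
    rcases h2' with h | h
    · apply h
      linear_combination (-x ^ 2) * h3
    · apply h
      ring
  · rintro ⟨h1, hy⟩
    refine ⟨h1, Or.inr ?_⟩
    intro h
    apply hy
    linear_combination y * h3 - h

theorem s4b_x {A : Type} [CommRing A] [IsDomain A] [IsDiscreteValuationRing A] {K : Type} [Field K]
    [Algebra A K] [IsFractionRing A K] {D : A} {x y : K} (h : y ^ 2 = x ^ 3 + algebraMap A K D) {b : A}
    (hb : algebraMap A K b = y) : ∃ a : A, algebraMap A K a = x := by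
  refine IsIntegrallyClosed.exists_algebraMap_eq_of_isIntegral_pow (n := 3) (by norm_num) ?_
  have h1 : x ^ 3 = algebraMap A K (b ^ 2 - D) := by
    rw [map_sub, map_pow, hb]
    linear_combination -h
  rw [h1]
  exact isIntegral_algebraMap

theorem s4b_mem {A : Type} [CommRing A] [IsDomain A] [IsDiscreteValuationRing A] {K : Type} [Field K]
    [Algebra A K] [IsFractionRing A K] (b : A) :
    (IsDiscreteValuationRing.maximalIdeal A).valuation K (algebraMap A K b) < 1 ↔ b ∈ IsLocalRing.maximalIdeal A :=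
  IsDedekindDomain.HeightOneSpectrum.valuation_lt_one_iff_mem _ b

section
variable {A : Type} [CommRing A] [IsDomain A] [IsDiscreteValuationRing A] {K : Type} [Field K]
  [Algebra A K] [IsFractionRing A K] {l ε η D : A} (hl : Irreducible l) (hε : IsUnit ε) (h3 : (3 : A) = ε * l ^ 2)
  (hres : ∀ x : A, l ∣ x ∨ l ∣ x - 1 ∨ l ∣ x + 1) (hη : η = 1 ∨ η = -1) (hD : l ^ 2 ∣ D - η)
  (hD' : ¬ l ^ 3 ∣ D - η - l ^ 2)
include hl hε h3 hres hη hD hD'

theorem nr_iff (x y : K) (h : ((ED D).map (algebraMap A K)).toAffine.Nonsingular x y) :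
    VC63.NR (ED D) (.some x y h) ↔ 1 ≤ (IsDiscreteValuationRing.maximalIdeal A).valuation K y := by
  have hinj : Function.Injective (algebraMap A K) := IsFractionRing.injective A K
  have heq : y ^ 2 = x ^ 3 + algebraMap A K D := by
    have h1 := h.1
    rw [ED_map, ED_equation] at h1
    exact h1
  have hred : (ED D).map (IsLocalRing.residue A) = ED (IsLocalRing.residue A D) := ED_map _ _
  have hl' : l ∈ IsLocalRing.maximalIdeal A := (IsLocalRing.mem_maximalIdeal l).2 hl.not_isUnit
  have h30 : (3 : IsLocalRing.ResidueField A) = 0 := by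
    have h1 : IsLocalRing.residue A 3 = 0 := by
      rw [IsLocalRing.residue_eq_zero_iff, h3]
      exact Ideal.mul_mem_left _ _ (Ideal.pow_mem_of_mem _ hl' 2 (by norm_num))
    rwa [map_ofNat] at h1
  simp only [VC63.NR, hred]
  constructor
  · intro H
    by_contra hcon
    push Not at hcon
    obtain ⟨b, hb⟩ := IsDiscreteValuationRing.exists_lift_of_le_one hcon.le
    obtain ⟨a, ha⟩ := s4b_x heq hb
    have h1 := (s4b_nonsing _ h30 _ _ _).1 (H a b ha hb)
    apply h1.2
    rw [IsLocalRing.residue_eq_zero_iff]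
    rw [← hb, s4b_mem] at hcon
    exact hcon
  · intro H a b ha hb
    rw [s4b_nonsing _ h30]
    subst ha hb
    have hAeq : b ^ 2 = a ^ 3 + D := by
      apply hinj
      rw [map_pow, map_add, map_pow]
      exact heq
    refine ⟨?_, ?_⟩
    · rw [← map_pow, hAeq, map_add, map_pow]
    · rw [Ne, IsLocalRing.residue_eq_zero_iff]
      intro hmem
      rw [← s4b_mem (K := K)] at hmem
      exact absurd H (not_le.2 hmem)

theorem sing_form (x y : K) (h : y ^ 2 = x ^ 3 + algebraMap A K D)
    (hy : (IsDiscreteValuationRing.maximalIdeal A).valuation K y < 1) :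
    ∃ s t : A, x = algebraMap A K (-η + l * s) ∧ y = algebraMap A K (l ^ 2 * t) := by
  have hinj : Function.Injective (algebraMap A K) := IsFractionRing.injective A K
  obtain ⟨b, hb⟩ := IsDiscreteValuationRing.exists_lift_of_le_one hy.le
  obtain ⟨a, ha⟩ := s4b_x h hb
  have hAeq : b ^ 2 = a ^ 3 + D := by
    apply hinj
    rw [map_pow, map_add, map_pow, ha, hb]
    exact h
  have hlb : l ∣ b := by
    rw [← hb, s4b_mem] at hy
    rw [hl.maximalIdeal_eq] at hy
    exact Ideal.mem_span_singleton.1 hy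
  have h1 : ¬ l ∣ 1 := fun h => hl.not_isUnit (isUnit_of_dvd_one h)
  have hl3 : l ∣ 3 := ⟨ε * l, by rw [h3]; ring⟩
  have h2 : ¬ l ∣ 2 := fun h => h1 (by
    have := dvd_sub hl3 h
    rwa [show (3 : A) - 2 = 1 by norm_num] at this)
  have hη2 : η ^ 2 = 1 := by rcases hη with rfl | rfl <;> ring
  obtain ⟨u, hu⟩ := hlb
  obtain ⟨d, hd⟩ := hD
  have ha' : l ∣ a + η := by
    rcases hres a with ⟨c, hc⟩ | ⟨c, hc⟩ | ⟨c, hc⟩
    · exfalso
      apply h1
      refine ⟨η * (l * u ^ 2 - l ^ 2 * c ^ 3 - l * d), ?_⟩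
      subst hu hc
      linear_combination -hη2 - η * hAeq - η * hd
    · rcases hη with rfl | rfl
      · exfalso
        apply h2
        refine ⟨l * u ^ 2 - l * d - 3 * c - 3 * l * c ^ 2 - l ^ 2 * c ^ 3, ?_⟩
        have hc' : a = 1 + l * c := by linear_combination hc
        subst hu hc'
        linear_combination -hAeq - hd
      · exact ⟨c, by linear_combination hc⟩
    · rcases hη with rfl | rfl
      · exact ⟨c, by linear_combination hc⟩
      · exfalso
        apply h2
        refine ⟨-(l * u ^ 2) + l * d + 3 * c - 3 * l * c ^ 2 + l ^ 2 * c ^ 3, ?_⟩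
        have hc' : a = -1 + l * c := by linear_combination hc
        subst hu hc'
        linear_combination hAeq + hd
  obtain ⟨s, hs⟩ := ha'
  have hs' : a = -η + l * s := by linear_combination hs
  have hlu : l ∣ u := by
    by_contra hlu
    apply hD'
    rcases hres u with hc | ⟨w, hw⟩ | ⟨w, hw⟩
    · exact absurd hc hlu
    · refine ⟨w * (u + 1) - ε * s + ε * η * l * s ^ 2 - s ^ 3, ?_⟩
      subst hu hs'
      linear_combination -hAeq + l ^ 2 * (u + 1) * hw + l ^ 2 * s ^ 2 * η * h3 + (η - 3 * l * s) * hη2 - l * s * h3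
    · refine ⟨w * (u - 1) - ε * s + ε * η * l * s ^ 2 - s ^ 3, ?_⟩
      subst hu hs'
      linear_combination -hAeq + l ^ 2 * (u - 1) * hw + l ^ 2 * s ^ 2 * η * h3 + (η - 3 * l * s) * hη2 - l * s * h3
  obtain ⟨t, ht⟩ := hlu
  refine ⟨s, t, ?_, ?_⟩
  · rw [← ha, hs']
  · rw [← hb, hu, ht]
    congr 1
    ring

omit hl hε h3 hres hη hD hD' in
theorem s4c_eq {F : Type} [Field F] (W : WeierstrassCurve.Affine F) (a1 : W.a₁ = 0) (a2 : W.a₂ = 0) (a3 : W.a₃ = 0)
    (a4 : W.a₄ = 0) {d x y : F} (a6 : W.a₆ = d) (h : W.Equation x y) : y ^ 2 = x ^ 3 + d := by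
  rw [WeierstrassCurve.Affine.equation_iff, a1, a2, a3, a4, a6] at h
  linear_combination h

omit hl hε h3 hres hη hD hD' in
theorem s4c_slope {F : Type} [Field F] (W : WeierstrassCurve.Affine F) (a1 : W.a₁ = 0) (a2 : W.a₂ = 0) (a3 : W.a₃ = 0)
    (a4 : W.a₄ = 0) {d x₁ x₂ y₁ y₂ : F} (e₁ : y₁ ^ 2 = x₁ ^ 3 + d) (e₂ : y₂ ^ 2 = x₂ ^ 3 + d)
    (hxy : ¬(x₁ = x₂ ∧ y₁ = W.negY x₂ y₂)) :
    W.slope x₁ x₂ y₁ y₂ * (y₁ + y₂) = x₁ ^ 2 + x₁ * x₂ + x₂ ^ 2 := by
  have hneg : ∀ x y, W.negY x y = -y := by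
    intro x y
    rw [WeierstrassCurve.Affine.negY, a1, a3]
    ring
  by_cases hx : x₁ = x₂
  · subst hx
    have hy : y₁ ≠ W.negY x₁ y₂ := fun h => hxy ⟨rfl, h⟩
    have hy' : y₁ + y₂ ≠ 0 := by
      intro h
      apply hy
      rw [hneg]
      linear_combination h
    have hyy : y₁ = y₂ := by
      have h1 : (y₁ - y₂) * (y₁ + y₂) = 0 := by linear_combination e₁ - e₂
      exact sub_eq_zero.1 ((mul_eq_zero.1 h1).resolve_right hy')
    rw [WeierstrassCurve.Affine.slope_of_Y_ne rfl hy, hneg, a1, a2, a4, ← hyy]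
    rw [← hyy] at hy'
    rw [sub_neg_eq_add, div_mul_cancel₀ _ hy']
    ring
  · rw [WeierstrassCurve.Affine.slope_of_X_ne hx]
    have h1 : x₁ - x₂ ≠ 0 := sub_ne_zero.2 hx
    rw [div_mul_eq_mul_div, div_eq_iff h1]
    linear_combination e₁ - e₂

theorem add_NR (hK : (6 : K) ≠ 0) {s₁ t₁ s₂ t₂ : A} (hs : l ∣ s₁ - s₂) (ht : l ∣ t₁ - t₂)
    (h₁ : ((ED D).map (algebraMap A K)).toAffine.Nonsingular (algebraMap A K (-η + l * s₁)) (algebraMap A K (l ^ 2 * t₁)))
    (h₂ : ((ED D).map (algebraMap A K)).toAffine.Nonsingular (algebraMap A K (-η + l * s₂)) (algebraMap A K (l ^ 2 * t₂))) :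
    VC63.NR (ED D) ((.some _ _ h₁ : ((ED D).map (algebraMap A K)).toAffine.Point) + .some _ _ h₂) := by
  have hinj : Function.Injective (algebraMap A K) := IsFractionRing.injective A K
  have hη2 : η ^ 2 = 1 := by
    rcases hη with rfl | rfl <;> ring
  have e₁ := h₁.1
  have e₂ := h₂.1
  rw [ED_map, ED_equation] at e₁ e₂
  by_cases hxy : algebraMap A K (-η + l * s₁) = algebraMap A K (-η + l * s₂) ∧
      algebraMap A K (l ^ 2 * t₁) =
        ((ED D).map (algebraMap A K)).toAffine.negY (algebraMap A K (-η + l * s₂)) (algebraMap A K (l ^ 2 * t₂))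
  · rw [WeierstrassCurve.Affine.Point.add_of_Y_eq hxy.1 hxy.2]
    exact trivial
  · rw [WeierstrassCurve.Affine.Point.add_some hxy, nr_iff hl hε h3 hres hη hD hD']
    by_contra hcon
    rw [not_le] at hcon
    have h4 := (WeierstrassCurve.Affine.nonsingular_add h₁ h₂ hxy).1
    have hm := s4c_slope ((ED D).map (algebraMap A K)).toAffine (by simp [ED]) (by simp [ED]) (by simp [ED])
      (by simp [ED]) e₁ e₂ hxy
    have hX : ((ED D).map (algebraMap A K)).toAffine.addX (algebraMap A K (-η + l * s₁))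
        (algebraMap A K (-η + l * s₂)) (((ED D).map (algebraMap A K)).toAffine.slope (algebraMap A K (-η + l * s₁))
          (algebraMap A K (-η + l * s₂)) (algebraMap A K (l ^ 2 * t₁)) (algebraMap A K (l ^ 2 * t₂))) =
        (((ED D).map (algebraMap A K)).toAffine.slope (algebraMap A K (-η + l * s₁))
          (algebraMap A K (-η + l * s₂)) (algebraMap A K (l ^ 2 * t₁)) (algebraMap A K (l ^ 2 * t₂))) ^ 2 -
          algebraMap A K (-η + l * s₁) - algebraMap A K (-η + l * s₂) := by
      rw [WeierstrassCurve.Affine.addX]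
      simp [ED]
    obtain ⟨s, t, hs3, -⟩ := sing_form hl hε h3 hres hη hD hD' _ _
      (s4c_eq ((ED D).map (algebraMap A K)).toAffine (by simp [ED]) (by simp [ED]) (by simp [ED])
        (by simp [ED]) (by simp [ED]) h4) hcon
    rw [hX] at hs3
    set m := ((ED D).map (algebraMap A K)).toAffine.slope (algebraMap A K (-η + l * s₁))
          (algebraMap A K (-η + l * s₂)) (algebraMap A K (l ^ 2 * t₁)) (algebraMap A K (l ^ 2 * t₂)) with hmdef
    have hn : (-η + l * s₁) ^ 2 + (-η + l * s₁) * (-η + l * s₂) + (-η + l * s₂) ^ 2 =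
        l ^ 2 * (ε - ε * η * l * (s₁ + s₂) + (s₁ ^ 2 + s₁ * s₂ + s₂ ^ 2)) := by
      linear_combination 3 * hη2 + (1 - η * l * (s₁ + s₂)) * h3
    set u := ε - ε * η * l * (s₁ + s₂) + (s₁ ^ 2 + s₁ * s₂ + s₂ ^ 2) with hu
    have hl0 : algebraMap A K (l ^ 2) ≠ 0 := by
      intro h
      exact pow_ne_zero 2 hl.ne_zero (hinj (by rw [h, map_zero]))
    have hm2 : m * algebraMap A K (t₁ + t₂) = algebraMap A K u := by
      apply mul_left_cancel₀ hl0
      rw [← map_mul, ← hn]
      simp only [map_add, map_mul, map_pow, map_neg] at hm ⊢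
      linear_combination hm
    have hm3 : m ^ 2 = algebraMap A K (l * (s + s₁ + s₂ - ε * η * l)) := by
      have e : l * (s + s₁ + s₂ - ε * η * l) = (-η + l * s) + (-η + l * s₁) + (-η + l * s₂) := by
        linear_combination η * h3
      rw [e, map_add, map_add]
      linear_combination hs3
    have hu2 : u ^ 2 = l * ((s + s₁ + s₂ - ε * η * l) * (t₁ + t₂) ^ 2) := by
      apply hinj
      rw [map_pow, ← hm2, mul_pow, hm3, ← map_pow, ← map_mul]
      congr 1
      ring
    have hprime : Prime l := hl.prime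
    have hlu : l ∣ u := hprime.dvd_of_dvd_pow ⟨_, hu2⟩
    obtain ⟨σ, hσ⟩ := hs
    obtain ⟨u', hu'⟩ := hlu
    have hlε : l ∣ ε := by
      refine ⟨u' + ε * η * (s₁ + s₂) - (ε * l * s₁ ^ 2 - ε * l ^ 2 * s₁ * σ + l * σ ^ 2), ?_⟩
      have hs₂ : s₂ = s₁ - l * σ := by linear_combination -hσ
      have h7 : s₁ ^ 2 + s₁ * s₂ + s₂ ^ 2 = l * (ε * l * s₁ ^ 2 - ε * l ^ 2 * s₁ * σ + l * σ ^ 2) := by
        rw [hs₂]
        linear_combination (s₁ ^ 2 - s₁ * l * σ) * h3
      linear_combination hu' - hu - h7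
    exact hl.not_isUnit (isUnit_of_dvd_unit hlε hε)

/-- the class modulo `l` of an element (three classes) -/
noncomputable def s4d_cl {A : Type} [CommRing A] (l x : A) : Fin 3 :=
  if l ∣ x then 0 else if l ∣ x - 1 then 1 else 2

omit [IsDomain A] [IsDiscreteValuationRing A] hl hε h3 hη hD hD' in
theorem s4d_cl_eq {x y : A} (h : s4d_cl l x = s4d_cl l y) : l ∣ x - y := by
  unfold s4d_cl at h
  rcases hres x with h1 | h1 | h1
  · rw [if_pos h1] at h
    by_cases h2 : l ∣ y
    · exact dvd_sub h1 h2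
    · rw [if_neg h2] at h
      by_cases h3 : l ∣ y - 1
      · rw [if_pos h3] at h
        exact absurd h (by decide)
      · rw [if_neg h3] at h
        exact absurd h (by decide)
  · by_cases h0 : l ∣ x
    · rw [if_pos h0] at h
      by_cases h2 : l ∣ y
      · exact dvd_sub h0 h2
      · rw [if_neg h2] at h
        by_cases h3 : l ∣ y - 1
        · rw [if_pos h3] at h
          exact absurd h (by decide)
        · rw [if_neg h3] at h
          exact absurd h (by decide)
    · rw [if_neg h0, if_pos h1] at h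
      by_cases h2 : l ∣ y
      · rw [if_pos h2] at h
        exact absurd h (by decide)
      · rw [if_neg h2] at h
        by_cases h3 : l ∣ y - 1
        · have := dvd_sub h1 h3
          rwa [sub_sub_sub_cancel_right] at this
        · rw [if_neg h3] at h
          exact absurd h (by decide)
  · by_cases h0 : l ∣ x
    · rw [if_pos h0] at h
      by_cases h2 : l ∣ y
      · exact dvd_sub h0 h2
      · rw [if_neg h2] at h
        by_cases h3 : l ∣ y - 1
        · rw [if_pos h3] at h
          exact absurd h (by decide)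
        · rw [if_neg h3] at h
          exact absurd h (by decide)
    · rw [if_neg h0] at h
      by_cases h0' : l ∣ x - 1
      · rw [if_pos h0'] at h
        by_cases h2 : l ∣ y
        · rw [if_pos h2] at h
          exact absurd h (by decide)
        · rw [if_neg h2] at h
          by_cases h3 : l ∣ y - 1
          · have := dvd_sub h0' h3
            rwa [sub_sub_sub_cancel_right] at this
          · rw [if_neg h3] at h
            exact absurd h (by decide)
      · rw [if_neg h0'] at h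
        by_cases h2 : l ∣ y
        · rw [if_pos h2] at h
          exact absurd h (by decide)
        · rw [if_neg h2] at h
          by_cases h3 : l ∣ y - 1
          · rw [if_pos h3] at h
            exact absurd h (by decide)
          · rcases hres y with h4 | h4 | h4
            · exact absurd h4 h2
            · exact absurd h4 h3
            · have := dvd_sub h1 h4
              rwa [add_sub_add_right_eq_sub] at this

omit hε h3 hres hD' in
theorem s4d_unit : IsUnit D := by
  have hlm : l ∈ IsLocalRing.maximalIdeal A := (IsLocalRing.mem_maximalIdeal l).2 hl.not_isUnit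
  by_contra hDu
  have hDm : D ∈ IsLocalRing.maximalIdeal A := (IsLocalRing.mem_maximalIdeal D).2 hDu
  obtain ⟨c, hc⟩ := hD
  have h1 : η ∈ IsLocalRing.maximalIdeal A := by
    have h2 : η = D - l * (l * c) := by linear_combination -hc
    rw [h2]
    exact Ideal.sub_mem _ hDm (Ideal.mul_mem_right _ _ hlm)
  rcases hη with rfl | rfl
  · exact (IsLocalRing.mem_maximalIdeal _).1 h1 isUnit_one
  · exact (IsLocalRing.mem_maximalIdeal _).1 h1 isUnit_one.neg

variable (K) in
theorem tamagawa_la (hK : (6 : K) ≠ 0) : SBSD.tamagawa A (ED (algebraMap A K D)) ≠ 0 ∧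
    ¬ 3 ∣ SBSD.tamagawa A (ED (algebraMap A K D)) := by
  have hu := unit_la (K := K) l ε hl hε h3 D (s4d_unit hl hη hD)
  rw [← ED_map, VC63.tamagawa_eq (ED D) hu]
  let Sg : ((ED D).map (algebraMap A K)).toAffine.Point → Prop := fun P =>
    ∃ s t : A, ∃ hn : ((ED D).map (algebraMap A K)).toAffine.Nonsingular
      (algebraMap A K (-η + l * s)) (algebraMap A K (l ^ 2 * t)), P = .some _ _ hn
  have hSg : ∀ P : ((ED D).map (algebraMap A K)).toAffine.Point, ¬ VC63.NR (ED D) P → Sg P := by
    intro P hP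
    match P, hP with
    | .zero, hP => exact absurd trivial hP
    | .some x y h, hP =>
      rw [nr_iff hl hε h3 hres hη hD hD', not_le] at hP
      have heq : y ^ 2 = x ^ 3 + algebraMap A K D := by
        have h1 := h.1
        have h2 : (ED (algebraMap A K D)).toAffine.Equation x y := by
          rw [← ED_map]
          exact h1
        exact (ED_equation _ _ _).1 h2
      obtain ⟨s, t, hs, ht⟩ := sing_form hl hε h3 hres hη hD hD' x y heq hP
      subst hs
      subst ht
      exact ⟨s, t, h, rfl⟩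
  let f : ((ED D).map (algebraMap A K)).toAffine.Point → Fin 3 × Fin 3 := fun P =>
    if h : Sg P then (s4d_cl l h.choose, s4d_cl l h.choose_spec.choose) else (0, 0)
  refine index_odd {P : ((ED D).map (algebraMap A K)).toAffine.Point | VC63.NR (ED D) P} ?_ f ?_
  · exact trivial
  · intro P Q hP hQ hf
    have h1 : Sg P := hSg P hP
    have h2 : Sg Q := hSg Q hQ
    have hf' : (s4d_cl l h1.choose, s4d_cl l h1.choose_spec.choose) =
        (s4d_cl l h2.choose, s4d_cl l h2.choose_spec.choose) := by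
      have e1 : f P = (s4d_cl l h1.choose, s4d_cl l h1.choose_spec.choose) := dif_pos h1
      have e2 : f Q = (s4d_cl l h2.choose, s4d_cl l h2.choose_spec.choose) := dif_pos h2
      rw [← e1, ← e2]
      exact hf
    obtain ⟨hn1, hP1⟩ := h1.choose_spec.choose_spec
    obtain ⟨hn2, hQ1⟩ := h2.choose_spec.choose_spec
    have hs := s4d_cl_eq hres (congrArg Prod.fst hf')
    have ht := s4d_cl_eq hres (congrArg Prod.snd hf')
    have h3' := add_NR hl hε h3 hres hη hD hD' hK hs ht hn1 hn2
    rw [← hP1, ← hQ1] at h3'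
    exact h3'

end

end JD
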