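import Pool.Agent.JD.T4
import Pool.Agent.JL.Z

/-!
# [JD-T5] the final theorems
-/

set_option autoImplicit false

open NumberField IsDedekindDomain
open scoped Classical ComplexConjugate

namespace JD

open CM27 NAB CF JZ
open CU (la om eE)
open JL (KD sD UC)

theorem lVal_of {D : Eis} (hD : Cl D) (hu : ¬ IsUnit D) : LVal D := by
  obtain ⟨Φ, h1, h2, q, -, h3, h4, h5⟩ := JL.L_main hD hu
  exact ⟨Φ, h1, h2, q, h3, h4, h5⟩

/-- The conjecture of Birch and Swinnerton-Dyer modulo `3` for all `D` of the class. -/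
theorem modThree_D {D : Eis} (hD : Cl D) (hu : ¬ IsUnit D) : CUE.ModThree (ED (jK D)) :=
  modThree hD (lVal_of hD hu)

/-- The `3`-part of the conjecture, if the class number of `ℚ(ω, √D)` is prime to `3` and there is a unit `u` with
`(u / ū) ^ 8 ≢ 1 mod 3`. -/
theorem threePart_of_UC {D : Eis} (hD : Cl D) (hu : ¬ IsUnit D) (h : UC D) :
    SBSD3.ThreePartRankZero (ED (jK D)) := final_all hD h (lVal_of hD hu)

/-- The `3`-part of the conjecture, if there is no form. -/
theorem threePart_of_noForm {D : Eis} (hD : Cl D) (hu : ¬ IsUnit D) (h : ¬ HasForm D) :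
    SBSD3.ThreePartRankZero (ED (jK D)) := threePart_of_UC hD hu (uc_of_noForm hD h)

end JD
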