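import Pool.Agent.JD.E3
import Pool.Agent.CU.S4a

/-!
# [JD-E5] split places outside `3`: unramified classes come from points

PROOF. `exists_sol` [E5a]: `k` finite, `q = |k| ≡ 1 mod 3`, `A, B, C ≠ 0`, `B / A` not a cube: `A h³ + B g³ = C` has a solution. `χ` a multiplicative character of order 3 (exists: `MulChar.exists_mulChar_orderOf`), `#{h : h³ = t} = 1 + χ t + conj (χ t)` (`CM27.b2_count`). The number of solutions is
`∑_{x ∈ k} (1 + χ(x/A) + χ²(x/A)) (1 + χ((C - x)/B) + χ²((C - x)/B))`. `∑_x χ^i(x) χ^j(C - x) = χ^(i+j)(C) J(χ^i, χ^j)` (substitute `x = C t`); `J(1,1)` gives `q`; `i = 0` or `j = 0` (not both): `0`; `J(χ, χ²) = J(χ², χ) = -χ(-1) = -1` (`jacobiSum_nontrivial_inv`, `χ(-1) = χ((-1)³) = 1`): contribution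
`-(χ(A⁻¹) χ²(B⁻¹) + χ²(A⁻¹) χ(B⁻¹)) = -(z + z²)`, `z = χ(B/A)`-power, a primitive cube root of unity: `+1`; `J(χ, χ)` and `J(χ², χ²)` are conjugate of absolute value `√q` (Mathlib: `jacobiSum_mul_jacobiSum_inv` / `gaussSum`-norm; see TH.jacobi_pow (MP_9ab903_nt/TH/B1b.lean) and B3/Z5.lean). So the number is `q + 1 + 2 Re(..) ≥ q + 1 - 2 √q = (√q - 1)² > 0`.
(Alternative: any other proof.)
`sol_split` [E5b]: `C = v.adicCompletion KK`, `V 2 = V 3 = V s = 1`, `s² = d`, `V a = γ³`, `a ≠ 0`. Choose `π` with `V π = γ`: `a = π³ a₁`, `V a₁ = 1`; it is enough to treat `a₁` (`g` replaced by `g/π`). If the residue of `a₁` is a cube then `a₁` is a cube (`hensel3` for `X³ - a₁`; `3` is a unit). Otherwise the residue field has `q ≡ 1 mod 3` elements (it contains the cube root of unity `om ≠ 1` because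
`V 3 = 1`), and `h³ - ā₁² g³ = 2 ā₁ s̄` has a solution in the residue field (`exists_sol` with `A = 1`, `B = -ā₁²`, `C = 2 ā₁ s̄`; `B/A = -ā₁²` is not a cube). Not both `g = h = 0`. `h ≠ 0`: lift `g` to `g₁ ≠ 0` (if the residue is `0` take a uniformizer) and solve `X³ = a₁² g₁³ + 2 a₁ s` by `hensel3` near `h`; `h = 0`: then `g ≠ 0`,
solve `X³ = -2 s / a₁` near `g` with `h₁ = 0`. `pt_of_gh`-computation (see E4.lean: `(s + a g³)² = (g h)³ + d`).
-/

set_option autoImplicit false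

open NumberField IsDedekindDomain
open scoped Classical

namespace JD

open CM27 CF JZ
open CU (la om eE)

/-- the classes modulo cubes -/
theorem e5a_class {k : Type} [Field k] [Finite k] {b : k} (hb0 : b ≠ 0) (hb : ¬ ∃ t : k, t ^ 3 = b) {t : k}
    (ht : t ≠ 0) : (∃ z : k, z ^ 3 = t) ∨ (∃ z : k, b * z ^ 3 = t) ∨ (∃ z : k, b ^ 2 * z ^ 3 = t) := by
  obtain ⟨g, hg⟩ := IsCyclic.exists_generator (α := kˣ)
  obtain ⟨i, hi⟩ := Subgroup.mem_zpowers_iff.1 (hg (Units.mk0 b hb0))
  obtain ⟨j, hj⟩ := Subgroup.mem_zpowers_iff.1 (hg (Units.mk0 t ht))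
  have hib : b = ((g ^ i : kˣ) : k) := by rw [hi]; rfl
  have hjt : t = ((g ^ j : kˣ) : k) := by rw [hj]; rfl
  have hi3 : ¬ (3 : ℤ) ∣ i := by
    rintro ⟨m, hm⟩
    apply hb
    refine ⟨((g ^ m : kˣ) : k), ?_⟩
    rw [hib, hm, ← Units.val_pow_eq_pow_val, ← zpow_natCast, ← zpow_mul, mul_comm]
    rfl
  have key : ∀ e : ℤ, (3 : ℤ) ∣ j - e * i → ∃ z : kˣ, g ^ j = (g ^ i) ^ e * z ^ 3 := by
    rintro e ⟨m, hm⟩
    refine ⟨g ^ m, ?_⟩
    rw [← zpow_mul, ← zpow_natCast (g ^ m) 3, ← zpow_mul, ← zpow_add]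
    congr 1
    push_cast
    linarith
  have hcases : (3 : ℤ) ∣ j - 0 * i ∨ (3 : ℤ) ∣ j - 1 * i ∨ (3 : ℤ) ∣ j - 2 * i := by
    have hi1 : i % 3 = 1 ∨ i % 3 = 2 := by omega
    have hj1 : j % 3 = 0 ∨ j % 3 = 1 ∨ j % 3 = 2 := by omega
    rcases hi1 with hi1 | hi1 <;> rcases hj1 with hj1 | hj1 | hj1
    · left; omega
    · right; left; omega
    · right; right; omega
    · left; omega
    · right; right; omega
    · right; left; omega
  rcases hcases with h | h | h
  · obtain ⟨z, hz⟩ := key 0 h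
    left
    refine ⟨z, ?_⟩
    rw [hjt, hz, zpow_zero, one_mul]
    rfl
  · obtain ⟨z, hz⟩ := key 1 h
    right; left
    refine ⟨z, ?_⟩
    rw [hjt, hz, zpow_one, hib]
    rfl
  · obtain ⟨z, hz⟩ := key 2 h
    right; right
    refine ⟨z, ?_⟩
    rw [hjt, hz, hib, zpow_ofNat]
    rfl

/-- the three classes: counting -/
theorem e5a_main {k : Type} [Field k] [Finite k] {b : k} (hb0 : b ≠ 0) (hb : ¬ ∃ t : k, t ^ 3 = b) :
    ∃ y z : k, z ≠ 0 ∧ 1 + b * y ^ 3 = b ^ 2 * z ^ 3 := by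
  classical
  have := Fintype.ofFinite k
  by_contra hno
  set H0 : Finset k := Finset.univ.filter fun t => t ≠ 0 ∧ ∃ z : k, z ^ 3 = t with hH0
  set H1 : Finset k := Finset.univ.filter fun t => t ≠ 0 ∧ ∃ z : k, b * z ^ 3 = t with hH1
  have m0 : ∀ t, t ∈ H0 ↔ t ≠ 0 ∧ ∃ z : k, z ^ 3 = t := by
    intro t
    rw [hH0, Finset.mem_filter]
    exact ⟨fun h => h.2, fun h => ⟨Finset.mem_univ _, h⟩⟩
  have m1 : ∀ t, t ∈ H1 ↔ t ≠ 0 ∧ ∃ z : k, b * z ^ 3 = t := by
    intro t
    rw [hH1, Finset.mem_filter]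
    exact ⟨fun h => h.2, fun h => ⟨Finset.mem_univ _, h⟩⟩
  have hcard : H1.card = H0.card := by
    have h1 : H1 = H0.image fun t => b * t := by
      ext t
      rw [Finset.mem_image, m1]
      constructor
      · rintro ⟨ht, z, hz⟩
        refine ⟨z ^ 3, (m0 _).2 ⟨?_, z, rfl⟩, hz⟩
        intro h0
        rw [h0, mul_zero] at hz
        exact ht hz.symm
      · rintro ⟨s, hs, rfl⟩
        obtain ⟨hs0, z, hz⟩ := (m0 s).1 hs
        exact ⟨mul_ne_zero hb0 hs0, z, by rw [hz]⟩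
    rw [h1, Finset.card_image_of_injective _ (mul_right_injective₀ hb0)]
  have hm1 : (-1 : k) ∈ H0 := (m0 _).2 ⟨neg_ne_zero.2 one_ne_zero, -1, by ring⟩
  set φ : k → k := fun x => if ∃ z : k, z ^ 3 = x + 1 then -(x + 1) else -((x + 1) / x) with hφ
  have hx1 : ∀ x ∈ H1, x + 1 ≠ 0 := by
    intro x hx h0
    obtain ⟨hx0, z, hz⟩ := (m1 x).1 hx
    have hz0 : z ≠ 0 := by
      rintro rfl
      apply hx0
      rw [← hz]
      ring
    apply hb
    refine ⟨-1 / z, ?_⟩
    have h1 : b * z ^ 3 = -1 := by rw [hz]; linear_combination h0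
    rw [div_pow, div_eq_iff (pow_ne_zero 3 hz0), h1]
    ring
  have hcl : ∀ x ∈ H1, (¬ ∃ z : k, z ^ 3 = x + 1) → ∃ z : k, b * z ^ 3 = x + 1 := by
    intro x hx hnc
    rcases e5a_class hb0 hb (hx1 x hx) with h | h | ⟨z, hz⟩
    · exact absurd h hnc
    · exact h
    · exfalso
      obtain ⟨hx0, y, hy⟩ := (m1 x).1 hx
      apply hno
      refine ⟨y, z, ?_, ?_⟩
      · rintro rfl
        apply hx1 x hx
        rw [← hz]
        ring
      · rw [hz, hy]
        ring
  have hmaps : ∀ x ∈ H1, φ x ∈ H0.erase (-1) := by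
    intro x hx
    obtain ⟨hx0, y, hy⟩ := (m1 x).1 hx
    have hy0 : y ≠ 0 := by
      rintro rfl
      apply hx0
      rw [← hy]
      ring
    by_cases hc : ∃ z : k, z ^ 3 = x + 1
    · have h1 : φ x = -(x + 1) := if_pos hc
      obtain ⟨z, hz⟩ := hc
      rw [h1, Finset.mem_erase, m0]
      refine ⟨?_, neg_ne_zero.2 (hx1 x hx), -z, ?_⟩
      · intro h2
        apply hx0
        linear_combination -h2
      · rw [← hz]
        ring
    · have h1 : φ x = -((x + 1) / x) := if_neg hc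
      obtain ⟨z, hz⟩ := hcl x hx hc
      rw [h1, Finset.mem_erase, m0]
      refine ⟨?_, neg_ne_zero.2 (div_ne_zero (hx1 x hx) hx0), -(z / y), ?_⟩
      · intro h2
        have h3 : (x + 1) / x = 1 := by linear_combination -h2
        rw [div_eq_iff hx0] at h3
        exact one_ne_zero (α := k) (by linear_combination h3)
      · rw [← hz, ← hy]
        field_simp
  have hinj : Set.InjOn φ H1 := by
    have hmix : ∀ x1 ∈ H1, ∀ x2 ∈ H1, x1 * x2 = 1 → False := by
      intro x1 hx1 x2 hx2 h12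
      obtain ⟨-, y1, hy1⟩ := (m1 x1).1 hx1
      obtain ⟨-, y2, hy2⟩ := (m1 x2).1 hx2
      apply hb
      refine ⟨b * (y1 * y2), ?_⟩
      have h3 : b ^ 2 * (y1 * y2) ^ 3 = 1 := by
        rw [← h12, ← hy1, ← hy2]
        ring
      linear_combination b * h3
    intro x1 h1 x2 h2 h12
    have hx10 : x1 ≠ 0 := ((m1 x1).1 h1).1
    have hx20 : x2 ≠ 0 := ((m1 x2).1 h2).1
    by_cases c1 : ∃ z : k, z ^ 3 = x1 + 1 <;> by_cases c2 : ∃ z : k, z ^ 3 = x2 + 1
    · have e1 : φ x1 = -(x1 + 1) := if_pos c1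
      have e2 : φ x2 = -(x2 + 1) := if_pos c2
      rw [e1, e2] at h12
      linear_combination -h12
    · exfalso
      have e1 : φ x1 = -(x1 + 1) := if_pos c1
      have e2 : φ x2 = -((x2 + 1) / x2) := if_neg c2
      rw [e1, e2] at h12
      refine hmix x1 h1 x2 h2 ?_
      have h3 : (x1 + 1) = (x2 + 1) / x2 := by linear_combination -h12
      rw [eq_div_iff hx20] at h3
      linear_combination h3
    · exfalso
      have e1 : φ x1 = -((x1 + 1) / x1) := if_neg c1
      have e2 : φ x2 = -(x2 + 1) := if_pos c2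
      rw [e1, e2] at h12
      refine hmix x1 h1 x2 h2 ?_
      have h3 : (x2 + 1) = (x1 + 1) / x1 := by linear_combination h12
      rw [eq_div_iff hx10] at h3
      linear_combination h3
    · have e1 : φ x1 = -((x1 + 1) / x1) := if_neg c1
      have e2 : φ x2 = -((x2 + 1) / x2) := if_neg c2
      rw [e1, e2] at h12
      have h3 : (x1 + 1) / x1 = (x2 + 1) / x2 := by linear_combination -h12
      rw [div_eq_div_iff hx10 hx20] at h3
      linear_combination -h3
  have h1 := Finset.card_le_card_of_injOn φ hmaps hinj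
  rw [Finset.card_erase_of_mem hm1, hcard] at h1
  have h2 : 0 < H0.card := Finset.card_pos.2 ⟨-1, hm1⟩
  omega

/-- [E5a] -/
theorem exists_sol {k : Type} [Field k] [Finite k] (hq : Nat.card k % 3 = 1) {A B C : k} (hA : A ≠ 0) (hB : B ≠ 0)
    (hC : C ≠ 0) (hBA : ¬ ∃ t : k, t ^ 3 = B / A) : ∃ g h : k, A * h ^ 3 + B * g ^ 3 = C := by
  set b : k := B / A with hbdef
  have hb0 : b ≠ 0 := div_ne_zero hB hA
  have hAb : A * b = B := by rw [hbdef]; field_simp
  rcases e5a_class hb0 hBA (t := C / A) (div_ne_zero hC hA) with ⟨z, hz⟩ | ⟨z, hz⟩ | ⟨w, hw⟩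
  · refine ⟨0, z, ?_⟩
    rw [hz]
    field_simp
    ring
  · refine ⟨z, 0, ?_⟩
    have h1 : A * (b * z ^ 3) = C := by rw [hz]; field_simp
    rw [← h1, ← hAb]
    ring
  · obtain ⟨y, z, hz0, hyz⟩ := e5a_main hb0 hBA
    refine ⟨y * w / z, w / z, ?_⟩
    have h1 : A * (b ^ 2 * w ^ 3) = C := by rw [hw]; field_simp
    have h2 : A * (w / z) ^ 3 + B * (y * w / z) ^ 3 = A * (w / z) ^ 3 * (1 + b * y ^ 3) := by
      rw [← hAb]
      field_simp
    rw [h2, hyz, ← h1]
    field_simp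

theorem e5b_res0 (v : HeightOneSpectrum (𝓞 KK)) (x : v.adicCompletionIntegers KK) :
    IsLocalRing.residue (v.adicCompletionIntegers KK) x = 0 ↔
      Valued.v (x : v.adicCompletion KK) < (1 : WithZero (Multiplicative ℤ)) := by
  rw [IsLocalRing.residue_eq_zero_iff, c3_mem_max]

theorem e5b_res1 (v : HeightOneSpectrum (𝓞 KK)) (x : v.adicCompletionIntegers KK) :
    IsLocalRing.residue (v.adicCompletionIntegers KK) x ≠ 0 ↔
      Valued.v (x : v.adicCompletion KK) = (1 : WithZero (Multiplicative ℤ)) := by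
  have h : Valued.v (x : v.adicCompletion KK) ≤ (1 : WithZero (Multiplicative ℤ)) := x.2
  rw [Ne, e5b_res0]
  exact ⟨fun h1 => le_antisymm h (not_lt.1 h1), fun h1 h2 => absurd h1 h2.ne⟩

theorem e5b_root (v : HeightOneSpectrum (𝓞 KK))
    (h3 : Valued.v (3 : v.adicCompletion KK) = (1 : WithZero (Multiplicative ℤ)))
    {c x₀ : v.adicCompletion KK} (hc : Valued.v c ≤ (1 : WithZero (Multiplicative ℤ)))
    (hx : Valued.v x₀ = (1 : WithZero (Multiplicative ℤ)))
    (h : Valued.v (x₀ ^ 3 - c) < (1 : WithZero (Multiplicative ℤ))) : ∃ x : v.adicCompletion KK, x ^ 3 = c := by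
  have hz : Valued.v (0 : v.adicCompletion KK) ≤ (1 : WithZero (Multiplicative ℤ)) := by
    rw [map_zero]; exact zero_le_one
  obtain ⟨x, hx1, -⟩ := hensel3 v (p := 0) (q := 0) (t := -c) (x₀ := x₀) hz hz (by rw [Valuation.map_neg]; exact hc) hx.le
    (by
      have e : x₀ ^ 3 + 0 * x₀ ^ 2 + 0 * x₀ + -c = x₀ ^ 3 - c := by ring
      rw [e]; exact h)
    (by
      have e : 3 * x₀ ^ 2 + 2 * 0 * x₀ + 0 = 3 * x₀ ^ 2 := by ring
      rw [e, map_mul, map_pow, h3, hx, one_pow, one_mul])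
  refine ⟨x, ?_⟩
  linear_combination hx1

theorem e5b_card (v : HeightOneSpectrum (𝓞 KK))
    (h3 : Valued.v (3 : v.adicCompletion KK) = (1 : WithZero (Multiplicative ℤ))) :
    Nat.card (IsLocalRing.ResidueField (v.adicCompletionIntegers KK)) % 3 = 1 := by
  have hfin : Finite (IsLocalRing.ResidueField (v.adicCompletionIntegers KK)) := (card_residue KK v).2
  set k := IsLocalRing.ResidueField (v.adicCompletionIntegers KK) with hk
  set w : k := IsLocalRing.residue (v.adicCompletionIntegers KK) (CU.t5b_lo v om) with hw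
  have h30 : (3 : k) ≠ 0 := by
    have h1 := (e5b_res1 v (3 : v.adicCompletionIntegers KK)).2 h3
    rwa [map_ofNat] at h1
  have hom : om ^ 2 + om + 1 = 0 := by
    unfold CU.om
    decide
  have hw2 : w ^ 2 + w + 1 = 0 := by
    have h1 := congrArg (fun x => IsLocalRing.residue (v.adicCompletionIntegers KK) (CU.t5b_lo v x)) hom
    simpa only [map_add, map_pow, map_one, map_zero] using h1
  have hw1 : w ≠ 1 := by
    intro h1
    rw [h1] at hw2
    apply h30
    linear_combination hw2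
  have hw3 : w ^ 3 = 1 := by linear_combination (w - 1) * hw2
  have hw0 : w ≠ 0 := by
    intro h1
    rw [h1] at hw3
    norm_num at hw3
  have ho : orderOf (Units.mk0 w hw0) = 3 := by
    have : Fact (Nat.Prime 3) := ⟨Nat.prime_three⟩
    refine orderOf_eq_prime ?_ ?_
    · apply Units.ext
      rw [Units.val_pow_eq_pow_val, Units.val_mk0, Units.val_one]
      exact hw3
    · intro h1
      apply hw1
      have h2 := congrArg Units.val h1
      rwa [Units.val_mk0, Units.val_one] at h2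
  have hd : 3 ∣ Nat.card kˣ := by
    rw [← ho]
    exact orderOf_dvd_natCard _
  rw [Nat.card_units] at hd
  have hq : 1 < Nat.card k := Finite.one_lt_card
  omega

theorem e5b_unit (v : HeightOneSpectrum (𝓞 KK))
    (h2 : Valued.v (2 : v.adicCompletion KK) = (1 : WithZero (Multiplicative ℤ)))
    (h3 : Valued.v (3 : v.adicCompletion KK) = (1 : WithZero (Multiplicative ℤ)))
    (a s : v.adicCompletionIntegers KK)
    (hs : Valued.v (s : v.adicCompletion KK) = (1 : WithZero (Multiplicative ℤ)))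
    (ha : Valued.v (a : v.adicCompletion KK) = (1 : WithZero (Multiplicative ℤ))) :
    (∃ g : v.adicCompletion KK, g ^ 3 = a) ∨ ∃ g h : v.adicCompletion KK, g ≠ 0 ∧
      h ^ 3 - (a : v.adicCompletion KK) ^ 2 * g ^ 3 = 2 * a * s := by
  have hfin : Finite (IsLocalRing.ResidueField (v.adicCompletionIntegers KK)) := (card_residue KK v).2
  have hcard := e5b_card v h3
  set k := IsLocalRing.ResidueField (v.adicCompletionIntegers KK) with hk
  set R : v.adicCompletionIntegers KK →+* k := IsLocalRing.residue (v.adicCompletionIntegers KK) with hR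
  have hRs : Function.Surjective R := IsLocalRing.residue_surjective
  have hra : R a ≠ 0 := (e5b_res1 v a).2 ha
  have hrs : R s ≠ 0 := (e5b_res1 v s).2 hs
  have hr2 : (2 : k) ≠ 0 := by
    have h1 := (e5b_res1 v (2 : v.adicCompletionIntegers KK)).2 h2
    rwa [map_ofNat] at h1
  have ha0 : (a : v.adicCompletion KK) ≠ 0 := by
    intro h0
    rw [h0, map_zero] at ha
    exact zero_ne_one ha
  by_cases hcu : ∃ t : k, t ^ 3 = R a
  · left
    obtain ⟨t, ht⟩ := hcu
    obtain ⟨t₀, rfl⟩ := hRs t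
    have ht0 : R t₀ ≠ 0 := by
      intro h0
      rw [h0] at ht
      apply hra
      rw [← ht]
      norm_num
    refine e5b_root v h3 ha.le ((e5b_res1 v t₀).1 ht0) ?_
    have h4 : R (t₀ ^ 3 - a) = 0 := by rw [map_sub, map_pow, ht, sub_self]
    have h5 := (e5b_res0 v _).1 h4
    simpa only [AddSubgroupClass.coe_sub, SubmonoidClass.coe_pow] using h5
  · right
    have hB : -(R a) ^ 2 ≠ 0 := neg_ne_zero.2 (pow_ne_zero 2 hra)
    obtain ⟨gb, hb, hgh⟩ := exists_sol hcard (A := (1 : k)) (B := -(R a) ^ 2) (C := 2 * R a * R s) one_ne_zero hB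
      (mul_ne_zero (mul_ne_zero hr2 hra) hrs) (by
        rintro ⟨t, ht⟩
        rw [div_one] at ht
        have ht0 : t ≠ 0 := by
          rintro rfl
          apply hB
          rw [← ht]
          norm_num
        apply hcu
        refine ⟨R a / (-t), ?_⟩
        have h5 : (-t) ^ 3 = (R a) ^ 2 := by linear_combination -ht
        rw [div_pow, h5, div_eq_iff (pow_ne_zero 2 hra)]
        ring)
    rw [one_mul] at hgh
    obtain ⟨g₀, rfl⟩ := hRs gb
    obtain ⟨h₀, rfl⟩ := hRs hb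
    have hkey : R (h₀ ^ 3 - a ^ 2 * g₀ ^ 3 - 2 * a * s) = 0 := by
      simp only [map_sub, map_mul, map_pow, map_ofNat]
      linear_combination hgh
    by_cases hh : R h₀ = 0
    · have hg0 : R g₀ ≠ 0 := by
        intro h0
        rw [hh, h0] at hgh
        apply mul_ne_zero (mul_ne_zero hr2 hra) hrs
        rw [← hgh]
        norm_num
      have hkey2 : R (a ^ 2 * g₀ ^ 3 + 2 * a * s) = 0 := by
        have h5 : R (a ^ 2 * g₀ ^ 3 + 2 * a * s) = R h₀ ^ 3 - R (h₀ ^ 3 - a ^ 2 * g₀ ^ 3 - 2 * a * s) := by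
          simp only [map_sub, map_add, map_mul, map_pow, map_ofNat]
          ring
        rw [h5, hkey, hh]
        norm_num
      have hv2 := (e5b_res0 v _).1 hkey2
      have hcoe : ((a ^ 2 * g₀ ^ 3 + 2 * a * s : v.adicCompletionIntegers KK) : v.adicCompletion KK) =
          (a : v.adicCompletion KK) ^ 2 * ((g₀ : v.adicCompletion KK) ^ 3 - (-2 * s / a)) := by
        have h6 : ((2 : v.adicCompletionIntegers KK) : v.adicCompletion KK) = 2 := rfl
        rw [AddMemClass.coe_add, MulMemClass.coe_mul, MulMemClass.coe_mul, MulMemClass.coe_mul,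
          SubmonoidClass.coe_pow, SubmonoidClass.coe_pow, h6]
        field_simp
        ring
      rw [hcoe, map_mul, map_pow, ha, one_pow, one_mul] at hv2
      have hcv : Valued.v (-2 * (s : v.adicCompletion KK) / a) = (1 : WithZero (Multiplicative ℤ)) := by
        rw [map_div₀, map_mul, Valuation.map_neg, h2, hs, ha]
        norm_num
      obtain ⟨g, hg⟩ := e5b_root v h3 hcv.le ((e5b_res1 v g₀).1 hg0) hv2
      refine ⟨g, 0, ?_, ?_⟩
      · rintro rfl
        rw [← hg, zero_pow (by norm_num), map_zero] at hcv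
        exact zero_ne_one hcv
      · rw [hg]
        field_simp
        ring
    · obtain ⟨g₁, hg1, hg2⟩ : ∃ g₁ : v.adicCompletionIntegers KK, g₁ ≠ 0 ∧ R g₁ = R g₀ := by
        by_cases hg : g₀ = 0
        · obtain ⟨ϖ, hϖ⟩ := IsDiscreteValuationRing.exists_irreducible (v.adicCompletionIntegers KK)
          refine ⟨ϖ, hϖ.ne_zero, ?_⟩
          rw [hg, map_zero, hR, IsLocalRing.residue_eq_zero_iff, hϖ.maximalIdeal_eq]
          exact Ideal.mem_span_singleton_self ϖ
        · exact ⟨g₀, hg, rfl⟩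
      have hkey1 : R (h₀ ^ 3 - (a ^ 2 * g₁ ^ 3 + 2 * a * s)) = 0 := by
        simp only [map_sub, map_add, map_mul, map_pow, map_ofNat, hg2]
        linear_combination hgh
      have hv1 := (e5b_res0 v _).1 hkey1
      rw [AddSubgroupClass.coe_sub, SubmonoidClass.coe_pow] at hv1
      obtain ⟨h, hh1⟩ := e5b_root v h3 (a ^ 2 * g₁ ^ 3 + 2 * a * s : v.adicCompletionIntegers KK).2
        ((e5b_res1 v h₀).1 hh) hv1
      refine ⟨g₁, h, ?_, ?_⟩
      · intro h0
        exact hg1 (Subtype.ext h0)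
      · have h6 : ((2 : v.adicCompletionIntegers KK) : v.adicCompletion KK) = 2 := rfl
        rw [hh1, AddMemClass.coe_add, MulMemClass.coe_mul, MulMemClass.coe_mul, MulMemClass.coe_mul,
          SubmonoidClass.coe_pow, SubmonoidClass.coe_pow, h6]
        ring

section
variable (v : HeightOneSpectrum (𝓞 KK)) {d s a : v.adicCompletion KK}

/-- [E5b] -/
theorem sol_split (h2 : Valued.v (2 : v.adicCompletion KK) = (1 : WithZero (Multiplicative ℤ)))
    (h3 : Valued.v (3 : v.adicCompletion KK) = (1 : WithZero (Multiplicative ℤ)))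
    (hs : s ^ 2 = d) (hsu : Valued.v s = (1 : WithZero (Multiplicative ℤ))) (ha : a ≠ 0)
    (hav : ∃ γ : WithZero (Multiplicative ℤ), Valued.v a = γ ^ 3) :
    (∃ g : v.adicCompletion KK, g ^ 3 = a) ∨
      ∃ x y g : v.adicCompletion KK, g ≠ 0 ∧ y ^ 2 = x ^ 3 + d ∧ y - s ≠ 0 ∧ y - s = a * g ^ 3 := by
  obtain ⟨γ, hγ⟩ := hav
  have hγ0 : γ ≠ 0 := by
    rintro rfl
    rw [zero_pow (by norm_num)] at hγ
    exact (Valuation.ne_zero_iff _).2 ha hγ
  obtain ⟨p, hp⟩ : ∃ p : v.adicCompletion KK, Valued.v p = γ := by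
    obtain ⟨x, hx⟩ := v.valuation_surjective KK γ
    exact ⟨algebraMap KK (v.adicCompletion KK) x,
      (HeightOneSpectrum.valuedAdicCompletion_eq_valuation' (K := KK) v x).trans hx⟩
  have hp0 : p ≠ 0 := by
    rintro rfl
    rw [map_zero] at hp
    exact hγ0 hp.symm
  have ha1 : Valued.v (a / p ^ 3) = (1 : WithZero (Multiplicative ℤ)) := by
    rw [map_div₀, map_pow, hγ, hp, div_self (pow_ne_zero 3 hγ0)]
  rcases e5b_unit v h2 h3 ⟨a / p ^ 3, ha1.le⟩ ⟨s, hsu.le⟩ hsu ha1 with ⟨g, hg⟩ | ⟨g, h, hg0, hgh⟩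
  · left
    refine ⟨p * g, ?_⟩
    rw [mul_pow, hg]
    field_simp
  · right
    have hgh' : h ^ 3 - (a / p ^ 3) ^ 2 * g ^ 3 = 2 * (a / p ^ 3) * s := hgh
    refine ⟨g * h, s + a / p ^ 3 * g ^ 3, g / p, div_ne_zero hg0 hp0, ?_, ?_, ?_⟩
    · linear_combination hs - (g ^ 3) * hgh'
    · rw [add_sub_cancel_left]
      exact mul_ne_zero (div_ne_zero ha (pow_ne_zero 3 hp0)) (pow_ne_zero 3 hg0)
    · rw [add_sub_cancel_left, div_pow]
      ring

end

end JD
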