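import Pool.Agent.JD.L0
import Pool.Agent.CU.C9b

/-!
# [JD-E6] the elements of `Lam τ` at the places of `KK`

`α = u + y r` (`u, y ∈ KK`), `Lam τ α`.

PROOF. `lam_norm` [E6a]: `α τ(α) = (u + y r)(u - y r) = u² - y² D` (`r² = jF F D = algebraMap (jK D)`), injectivity of `algebraMap KK F`.
`lam_la` [E6a]: choose `w` over `λ` (`exists_ov`, Q3), `w'` its conjugate (`exists_cj`, Q3): `w'.valuation F x = w.valuation F (τ x)`, also over `λ` (`tau_jF`). `Lam`, third part, for `w` and `w'`: `w (α - 1) ≤ w(la)² = exp (-2)` (`ov_val`) and `w (τ α - 1) = w' (α - 1) ≤ exp (-2)`. Sum and difference: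
`w (2 (u - 1)) ≤ exp (-2)`, `w (2 y r) ≤ exp (-2)`; `w 2 = 1` (`2 = 3 - 1`, `w 3 < 1`, or `ov_mem` and `la ∤ 2`), `w r = 1` (`ov_D`): `w (u - 1), w y ≤ exp (-2)` (for the images in `F`). Transfer to `v`: `exists_Below` gives `v'` and `φ`; `below_val`: `Valued.v (φ x) = Valued.v x` for `x ∈ v'.adicCompletion KK`,
`φ (algebraMap x) = algebraMap (algebraMap x)` (`comm`), `valuedAdicCompletion_eq_valuation'`. So `v'.valuation KK x = w.valuation F (algebraMap KK F x)`. `v' = v` because both are the ideal `(eE la)` (`l0b_ideal`; `HeightOneSpectrum.ext`).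
`split_val` [E6b]: let `i : F →+* C = v.adicCompletion KK` be the homomorphism with `i = algebraMap` on `KK` and `i r = s` (`F = KK(r)`, `s² = D`; e.g. define `i z = u + y s` for the coordinates of `z = u + y r` (`exists_uv`, `uv_inj`: unique), or `(IntermediateField.adjoin.powerBasis ..).lift`, `AdjoinRoot.lift`).
`V (i z) ≤ 1` for `z` integral over `ℤ` (`i z` is integral over `ℤ`: monic equation; `Valuation.Integers` of the completion are integrally closed: or directly: if `V x > 1` then the leading term of the monic equation dominates: `Valuation.mem_of_integral` (`Mathlib/RingTheory/Valuation/Integral`): `Valued.v.integer` is integrally closed).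
`P = {z ∈ 𝓞 F | V (i z) < 1}` is a prime ideal of `𝓞 F`, not `0`: it contains the image of a nonzero element of `v.asIdeal` (`V (algebraMap a) = v.valuation a < 1`). Let `w : HeightOneSpectrum (𝓞 F)` be this prime. If `w.valuation F z = 1` then `V (i z) = 1`:
`z = n / d` with `n, d ∈ 𝓞 F`, `d ∉ P` (`HeightOneSpectrum.exists_primeCompl_mul_eq_of_integer` as in `l0b`/CO.lean, or `IsLocalization`: `z` is in the valuation ring of `w` = localization of `𝓞 F` at `P`: `HeightOneSpectrum.mem_integers_of_valuation_le_one`-like), then `w n = w d = 1`, so `n ∉ P`, and `V (i n) = V (i d) = 1`.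
`Lam`, second part: `w.valuation F α = g³`; choose `π ∈ F` with `w.valuation F π = g` (`HeightOneSpectrum.valuation_surjective` or `valuation_exists_uniformizer`; `g ≠ 0` because `α ≠ 0`): `w.valuation F (α / π³) = 1`, so `V (i α) = V (i π)³`.
-/

set_option autoImplicit false

open NumberField IsDedekindDomain
open scoped Classical

namespace JD

open CM27 CF JZ
open CU (la om eE)

section
variable {D : Eis} {F : Type} [Field F] [NumberField F] [Algebra KK F] {r : F} {τ : F ≃ₐ[KK] F}
  {α : F} {u y : KK}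

/-- [E6a] -/
theorem lam_norm (hQ : Quad D r τ) (hα : Lam τ α) (huy : α = algebraMap KK F u + algebraMap KK F y * r) :
    u ^ 2 - y ^ 2 * jK D = 1 := by
  have h1 := hα.1
  rw [huy, map_add, map_mul, τ.commutes, τ.commutes, hQ.tau] at h1
  apply (algebraMap KK F).injective
  rw [map_sub, map_pow, map_mul, map_pow, map_one, ← jF_apply, ← hQ.sq]
  linear_combination h1

/-- [E6a] -/
theorem lam_la (hD : Cl D) (hQ : Quad D r τ) (hα : Lam τ α) (huy : α = algebraMap KK F u + algebraMap KK F y * r)
    (v : HeightOneSpectrum (𝓞 KK)) (hv : v.asIdeal = Ideal.span {eE la}) :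
    v.valuation KK (u - 1) ≤ WithZero.exp (-2 : ℤ) ∧ v.valuation KK y ≤ WithZero.exp (-2 : ℤ) := by
  have hlt2 : ∀ w : HeightOneSpectrum (𝓞 F), OvLa w → w.valuation F (α - 1) ≤ WithZero.exp (-2 : ℤ) := by
    intro w hw
    have h1 := hα.2.2 w hw
    rw [ov_val hD hQ w hw] at h1
    refine h1.trans (le_of_eq ?_)
    rw [← WithZero.exp_nsmul]
    rfl
  obtain ⟨w, hw⟩ := exists_ov hD hQ
  obtain ⟨w', hw'⟩ := exists_cj τ w
  have how' : OvLa w' := by
    show w'.valuation F (jF F la) < 1
    rw [hw', tau_jF]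
    exact hw
  have e1 := hlt2 w hw
  have e2 := hlt2 w' how'
  rw [hw', map_sub, map_one] at e2
  have h2 : w.valuation F (2 : F) = 1 := by
    have h3 : (2 : F) = jF F 2 := by rw [map_ofNat]
    rw [h3]
    refine le_antisymm (q3a_le w (int_jF F 2)) (not_lt.1 fun h4 => ?_)
    have h5 := (ov_mem w hw 2).1 h4
    rw [CU.la_dvd_iff] at h5
    revert h5
    decide
  have hr := (ov_D hD hQ w hw).2
  have hu : w.valuation F (algebraMap KK F (u - 1)) ≤ WithZero.exp (-2 : ℤ) := by
    have e : (2 : F) * algebraMap KK F (u - 1) = (α - 1) + (τ α - 1) := by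
      rw [huy, map_add, map_mul, τ.commutes, τ.commutes, hQ.tau, map_sub, map_one]
      ring
    have h5 : w.valuation F ((2 : F) * algebraMap KK F (u - 1)) ≤ WithZero.exp (-2 : ℤ) := by
      rw [e]
      exact (Valuation.map_add _ _ _).trans (max_le e1 e2)
    rwa [map_mul, h2, one_mul] at h5
  have hy : w.valuation F (algebraMap KK F y) ≤ WithZero.exp (-2 : ℤ) := by
    have e : (2 : F) * algebraMap KK F y * r = (α - 1) - (τ α - 1) := by
      rw [huy, map_add, map_mul, τ.commutes, τ.commutes, hQ.tau]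
      ring
    have h5 : w.valuation F ((2 : F) * algebraMap KK F y * r) ≤ WithZero.exp (-2 : ℤ) := by
      rw [e]
      exact (Valuation.map_sub _ _ _).trans (max_le e1 e2)
    rwa [map_mul, map_mul, h2, hr, one_mul, mul_one] at h5
  obtain ⟨v', φ, hB⟩ := exists_Below w
  have hv' := l0b_ideal hB hw
  have hvv : v' = v := HeightOneSpectrum.ext (hv'.trans hv.symm)
  subst hvv
  have key : ∀ x : KK, v'.valuation KK x = w.valuation F (algebraMap KK F x) := by
    intro x
    have h5 := below_val hB hw hD hQ (algebraMap KK (v'.adicCompletion KK) x)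
    rw [hB.comm] at h5
    rw [← HeightOneSpectrum.valuedAdicCompletion_eq_valuation' w,
      ← HeightOneSpectrum.valuedAdicCompletion_eq_valuation' v']
    exact h5.symm
  rw [key, key]
  exact ⟨hu, hy⟩

/-- the homomorphism `F → C` with `r ↦ s` -/
theorem e6b_hom (hD0 : D ≠ 0) (hQ : Quad D r τ) {C : Type} [Field C] [Algebra KK C] {s : C}
    (hs : s ^ 2 = algebraMap KK C (jK D)) :
    ∃ i : F →+* C, ∀ a b : KK, i (algebraMap KK F a + algebraMap KK F b * r) =
      algebraMap KK C a + algebraMap KK C b * s := by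
  choose U V hUV using exists_uv (F := F) hD0 hQ
  have huniq : ∀ a b c d : KK, algebraMap KK F a + algebraMap KK F b * r =
      algebraMap KK F c + algebraMap KK F d * r → a = c ∧ b = d := by
    intro a b c d h
    have h1 : algebraMap KK F (a - c) + algebraMap KK F (b - d) * r = 0 := by
      rw [map_sub, map_sub]
      linear_combination h
    have h2 := uv_inj hD0 hQ h1
    exact ⟨sub_eq_zero.1 h2.1, sub_eq_zero.1 h2.2⟩
  have hf : ∀ a b : KK, algebraMap KK C (U (algebraMap KK F a + algebraMap KK F b * r)) +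
      algebraMap KK C (V (algebraMap KK F a + algebraMap KK F b * r)) * s =
      algebraMap KK C a + algebraMap KK C b * s := by
    intro a b
    obtain ⟨h1, h2⟩ := huniq _ _ _ _ (hUV (algebraMap KK F a + algebraMap KK F b * r))
    rw [← h1, ← h2]
  have hDr : r ^ 2 = algebraMap KK F (jK D) := by rw [hQ.sq, jF_apply]
  refine ⟨
    { toFun := fun z => algebraMap KK C (U z) + algebraMap KK C (V z) * s
      map_one' := ?_
      map_mul' := ?_
      map_zero' := ?_
      map_add' := ?_ }, hf⟩
  · have h := hf 1 0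
    rw [map_one, map_zero, zero_mul, add_zero, map_one, map_zero, zero_mul, add_zero] at h
    exact h
  · intro x y
    obtain ⟨a, b, rfl⟩ := exists_uv (F := F) hD0 hQ x
    obtain ⟨c, d, rfl⟩ := exists_uv (F := F) hD0 hQ y
    have e : (algebraMap KK F a + algebraMap KK F b * r) * (algebraMap KK F c + algebraMap KK F d * r) =
        algebraMap KK F (a * c + b * d * jK D) + algebraMap KK F (a * d + b * c) * r := by
      simp only [map_add, map_mul]
      rw [← hDr]
      ring
    show algebraMap KK C (U _) + algebraMap KK C (V _) * s =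
      (algebraMap KK C (U _) + algebraMap KK C (V _) * s) * (algebraMap KK C (U _) + algebraMap KK C (V _) * s)
    rw [hf a b, hf c d, e, hf]
    simp only [map_add, map_mul]
    rw [← hs]
    ring
  · have h := hf 0 0
    rw [map_zero, zero_mul, add_zero, map_zero, zero_mul, add_zero] at h
    exact h
  · intro x y
    obtain ⟨a, b, rfl⟩ := exists_uv (F := F) hD0 hQ x
    obtain ⟨c, d, rfl⟩ := exists_uv (F := F) hD0 hQ y
    have e : (algebraMap KK F a + algebraMap KK F b * r) + (algebraMap KK F c + algebraMap KK F d * r) =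
        algebraMap KK F (a + c) + algebraMap KK F (b + d) * r := by
      simp only [map_add]
      ring
    show algebraMap KK C (U _) + algebraMap KK C (V _) * s =
      (algebraMap KK C (U _) + algebraMap KK C (V _) * s) + (algebraMap KK C (U _) + algebraMap KK C (V _) * s)
    rw [hf a b, hf c d, e, hf]
    simp only [map_add]
    ring

/-- integral elements have valuation `≤ 1` -/
theorem e6b_int {K L : Type} [Field K] [NumberField K] [Field L] [NumberField L] (v : HeightOneSpectrum (𝓞 K))
    (i : L →+* v.adicCompletion K) {z : L} (hz : IsIntegral ℤ z) :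
    Valued.v (i z) ≤ (1 : WithZero (Multiplicative ℤ)) := by
  have h1 : IsIntegral (v.adicCompletionIntegers K) (i z) := by
    obtain ⟨p, hp, hp0⟩ := hz
    refine ⟨p.map (Int.castRingHom _), hp.map _, ?_⟩
    rw [Polynomial.eval₂_map]
    have h2 := congrArg i hp0
    rw [Polynomial.hom_eval₂, map_zero] at h2
    rw [← h2]
    congr 1
    exact RingHom.ext_int _ _
  obtain ⟨y, hy⟩ := IsIntegrallyClosed.algebraMap_eq_of_integral h1
  rw [← hy]
  exact y.2

/-- a homomorphism from `F` to a completion of `KK` gives a place of `F` -/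
theorem e6b_place (v : HeightOneSpectrum (𝓞 KK)) (i : F →+* v.adicCompletion KK)
    (hi : ∀ x : KK, i (algebraMap KK F x) = algebraMap KK (v.adicCompletion KK) x) :
    ∃ w : HeightOneSpectrum (𝓞 F), ∀ z : F, w.valuation F z ≤ 1 →
      Valued.v (i z) ≤ (1 : WithZero (Multiplicative ℤ)) := by
  have hint : ∀ z : 𝓞 F, Valued.v (i (algebraMap (𝓞 F) F z)) ≤ (1 : WithZero (Multiplicative ℤ)) := fun z =>
    e6b_int v i z.2
  let P : Ideal (𝓞 F) :=
    { carrier := {z | Valued.v (i (algebraMap (𝓞 F) F z)) < (1 : WithZero (Multiplicative ℤ))}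
      zero_mem' := by
        show Valued.v (i (algebraMap (𝓞 F) F 0)) < (1 : WithZero (Multiplicative ℤ))
        rw [map_zero, map_zero, map_zero]
        exact zero_lt_one
      add_mem' := by
        intro a b ha hb
        show Valued.v (i (algebraMap (𝓞 F) F (a + b))) < (1 : WithZero (Multiplicative ℤ))
        rw [map_add, map_add]
        exact Valuation.map_add_lt _ ha hb
      smul_mem' := by
        intro c a ha
        show Valued.v (i (algebraMap (𝓞 F) F (c * a))) < (1 : WithZero (Multiplicative ℤ))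
        rw [map_mul, map_mul, map_mul]
        have ha' : Valued.v (i (algebraMap (𝓞 F) F a)) < (1 : WithZero (Multiplicative ℤ)) := ha
        calc Valued.v (i (algebraMap (𝓞 F) F c)) * Valued.v (i (algebraMap (𝓞 F) F a)) ≤
              1 * Valued.v (i (algebraMap (𝓞 F) F a)) := mul_le_mul_left (hint c) _
          _ < 1 := by rw [one_mul]; exact ha' }
  have hP : ∀ z : 𝓞 F, z ∈ P ↔ Valued.v (i (algebraMap (𝓞 F) F z)) < (1 : WithZero (Multiplicative ℤ)) :=
    fun z => Iff.rfl
  have hprime : P.IsPrime := by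
    refine ⟨?_, ?_⟩
    · rw [Ideal.ne_top_iff_one, hP, map_one, map_one, map_one]
      exact lt_irrefl _
    · intro a b hab
      rw [hP] at hab ⊢
      rw [hP]
      by_contra hcon
      push Not at hcon
      have ha : Valued.v (i (algebraMap (𝓞 F) F a)) = (1 : WithZero (Multiplicative ℤ)) :=
        le_antisymm (hint a) hcon.1
      have hb : Valued.v (i (algebraMap (𝓞 F) F b)) = (1 : WithZero (Multiplicative ℤ)) :=
        le_antisymm (hint b) hcon.2
      rw [map_mul, map_mul, map_mul, ha, hb, one_mul] at hab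
      exact lt_irrefl _ hab
  have hne : P ≠ ⊥ := by
    intro hbot
    obtain ⟨a, ha, ha0⟩ := Submodule.exists_mem_ne_zero_of_ne_bot v.ne_bot
    have h1 : IsIntegral ℤ (algebraMap KK F (algebraMap (𝓞 KK) KK a)) :=
      map_isIntegral_int (algebraMap KK F) a.2
    obtain ⟨a', ha'⟩ : ∃ a' : 𝓞 F, algebraMap (𝓞 F) F a' = algebraMap KK F (algebraMap (𝓞 KK) KK a) :=
      ⟨⟨_, h1⟩, rfl⟩
    have h2 : a' ∈ P := by
      rw [hP, ha', hi]
      have h3 := HeightOneSpectrum.valuedAdicCompletion_eq_valuation' v (algebraMap (𝓞 KK) KK a)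
      refine (le_of_eq h3).trans_lt ?_
      exact (HeightOneSpectrum.valuation_lt_one_iff_mem v a).2 ha
    rw [hbot, Submodule.mem_bot] at h2
    rw [h2, map_zero] at ha'
    have h3 : algebraMap (𝓞 KK) KK a = 0 := (map_eq_zero _).1 ha'.symm
    exact ha0 ((map_eq_zero_iff _ (IsFractionRing.injective (𝓞 KK) KK)).1 h3)
  refine ⟨⟨P, hprime, hne⟩, fun z hz => ?_⟩
  obtain ⟨n, ⟨d, hd⟩, hnd⟩ := HeightOneSpectrum.exists_primeCompl_mul_eq_of_integer _ z hz
  have hd' : Valued.v (i (algebraMap (𝓞 F) F d)) = (1 : WithZero (Multiplicative ℤ)) := by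
    refine le_antisymm (hint d) (not_lt.1 fun h => hd ?_)
    exact (hP d).2 h
  have h5 : Valued.v (i (z * algebraMap (𝓞 F) F d)) ≤ (1 : WithZero (Multiplicative ℤ)) := by
    have h6 : z * algebraMap (𝓞 F) F d = algebraMap (𝓞 F) F n := hnd
    rw [h6]
    exact hint n
  rwa [map_mul, map_mul, hd', mul_one] at h5

/-- [E6b] -/
theorem split_val (hD : Cl D) (hQ : Quad D r τ) (hα : Lam τ α) (huy : α = algebraMap KK F u + algebraMap KK F y * r)
    (v : HeightOneSpectrum (𝓞 KK)) {s : v.adicCompletion KK} (hs : s ^ 2 = algebraMap KK (v.adicCompletion KK) (jK D)) :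
    ∃ γ : WithZero (Multiplicative ℤ), Valued.v (algebraMap KK (v.adicCompletion KK) u +
      algebraMap KK (v.adicCompletion KK) y * s) = γ ^ 3 := by
  have hD0 : D ≠ 0 := ne_of_cl hD
  obtain ⟨i, hi⟩ := e6b_hom hD0 hQ hs
  have hi' : ∀ x : KK, i (algebraMap KK F x) = algebraMap KK (v.adicCompletion KK) x := by
    intro x
    have h := hi x 0
    rw [map_zero, zero_mul, add_zero, map_zero, zero_mul, add_zero] at h
    exact h
  obtain ⟨w, hw⟩ := e6b_place v i hi'
  have hw1 : ∀ z : F, w.valuation F z = 1 → Valued.v (i z) = (1 : WithZero (Multiplicative ℤ)) := by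
    intro z hz
    have hz0 : z ≠ 0 := by
      rintro rfl
      rw [map_zero] at hz
      exact zero_ne_one hz
    refine le_antisymm (hw z hz.le) ?_
    have h1 := hw z⁻¹ (by rw [map_inv₀, hz, inv_one])
    rw [map_inv₀, map_inv₀] at h1
    have h0 : (Valued.v (i z) : WithZero (Multiplicative ℤ)) ≠ 0 :=
      (Valuation.ne_zero_iff _).2 ((map_ne_zero i).2 hz0)
    exact (inv_le_one₀ (zero_lt_iff.2 h0)).1 h1
  have hα0 : α ≠ 0 := by
    rintro rfl
    have h := hα.1
    rw [zero_mul] at h
    exact zero_ne_one h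
  obtain ⟨g, hg⟩ := hα.2.1 w
  have hg0 : g ≠ 0 := by
    rintro rfl
    rw [zero_pow (by norm_num : (3 : ℕ) ≠ 0)] at hg
    exact hα0 ((map_eq_zero _).1 hg)
  obtain ⟨π, hπ⟩ := w.valuation_surjective F g
  have hπ0 : π ≠ 0 := by
    rintro rfl
    rw [map_zero] at hπ
    exact hg0 hπ.symm
  have h1 : w.valuation F (α / π ^ 3) = 1 := by
    rw [map_div₀, map_pow, hg, hπ, div_self (pow_ne_zero _ hg0)]
  refine ⟨Valued.v (i π), ?_⟩
  have h2 := hw1 _ h1
  have h3 : α = α / π ^ 3 * π ^ 3 := by
    rw [div_mul_cancel₀ _ (pow_ne_zero _ hπ0)]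
  rw [← hi, ← huy, h3, map_mul, map_mul, h2, one_mul, map_pow, map_pow]

end

end JD
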