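import Pool.Agent.JD.E4
import Pool.Agent.JD.E5
import Pool.Agent.JD.E6

/-!
# [JD-E7] the class of an element of `Lam τ` comes from a point at every place

`C = v.adicCompletion KK`, `V = Valued.v`, `d ∈ C` the image of `jK D`, `M` a field over `C`, `ρ ∈ M` with `ρ² = d`; `u, y` also denote the images in `C`: `u² - y² d = 1` (`lam_norm`, E6).

PROOF. `locSol_la` [E7a]: `v = (la)`. `Loc3 V l ε` (L1) with `l` = the image of `jK la`, `ε` = the image of `jK (-om²)` (`CU.three_eq : 3 = -om² la²`; see the proof of `l3_tri` (L3.lean) or of `CU.tamagawa`-like statements for the same construction: `hl`: `V l = exp (-1)`: `v.intValuation_singleton`, `valuedAdicCompletion_eq_valuation'`;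
`res`: `below_res` (L0) needs a place `w` of `F`: take `exists_ov` and `exists_Below`, the place `v'` of `exists_Below` is `v` (`l0b_ideal`)). `V (ε + 1) < 1`: `1 - om² = (1 + om) la`. `hD : Cl D` gives `η = ± 1`, `3 ∣ D - η` and `¬ 3 la ∣ ..`-condition (Defs, `CondLa`): `V (d - η) ≤ exp (-2)`, `¬ V (d - η - l²) ≤ exp (-3)` (`l3_data` in L3.lean has this for `w`;
the same computation for `v`, or transfer by `below_val`). `lam_la` (E6): `V (u - 1) ≤ exp (-2)`, `V y ≤ exp (-2)`.
 `η = -1`: if `V y ≤ exp (-3)`: `sol_la` (E3) and `locSol_of_sol3`; otherwise `V y = exp (-2)`: `sol_minus`.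
 `η = 1`: `sqrt_one` (E3): `s² = d`, `s ∈ C`; `ρ² = s²` in `M`, so `ρ = ± s`; replace `s` by `-s`: `ρ = algebraMap s`. `a = u + y s`, `V (a - 1) ≤ exp (-2)`; `sol_plus` (E4): `g³ = a`: first alternative of `LocSol`; `x, y', g`: second alternative (elements of `C` are in `C(ρ)`: `algebraMap_mem`).
`locSol_split` [E7b]: `V 2 = V 3 = V d = 1` and there is `x` with `V (d - x²) < 1`: `V x = 1`, `d / x² ≡ 1`, `sqrt_one`: `d = s²`; `ρ = ± s`, replace `s` by `-s`; `a = u + y s ≠ 0` (`a (u - y s) = 1`), `V s = 1`, `V a = γ³` (`split_val`, E6): `sol_split` (E5).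
`locSol_all` [E7c]: `place_cases` (S5): (la): `locSol_la`. `v ∤ 6 D`: `V 2 = V 3 = V d = 1` (a unit `6 lo D` of the ring of integers; a product of elements with `V ≤ 1` and `V = 1`); if there is `x` with `V (d - x²) < 1`: `locSol_split`, otherwise `sol_inert` (E2) and `locSol_of_sol3`.
 `v = (2)`: `V 2 = exp (-1)` (irreducible: `IsDiscreteValuationRing`, the uniformizer; see `CMT`/`CU` for: irreducible elements of `v.adicCompletionIntegers KK` have `Valued.v = exp (-1)`), `V 3 = 1`, `V d = V (2^k D') = 1` or `exp (-1)`; `hsq`: if `V (d - x²) ≤ exp (-2)` then `V x ≤ 1` and `4 ∣ lo D - x²` in the ring of integers: contradiction.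
 `sol_two` (E2). Last case: `V 6 = 1` so `V 2 = V 3 = 1`, `V d = V (l D') = exp (-1)`: `sol_ram` (E2).
-/

set_option autoImplicit false

open NumberField IsDedekindDomain
open scoped Classical

namespace JD

open CM27 CF JZ
open CU (la om eE)

section
variable (v : HeightOneSpectrum (𝓞 KK))

theorem E7c_unit {x : v.adicCompletionIntegers KK} (h : IsUnit x) :
    Valued.v (x : v.adicCompletion KK) = (1 : WithZero (Multiplicative ℤ)) := by
  obtain ⟨y, hy⟩ := h.exists_right_inv
  have hx : Valued.v (x : v.adicCompletion KK) ≤ (1 : WithZero (Multiplicative ℤ)) := x.2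
  have hy' : Valued.v (y : v.adicCompletion KK) ≤ (1 : WithZero (Multiplicative ℤ)) := y.2
  have h1 : (x : v.adicCompletion KK) * (y : v.adicCompletion KK) = 1 := by
    have := congrArg (fun z : v.adicCompletionIntegers KK => (z : v.adicCompletion KK)) hy
    simpa using this
  have h2 : Valued.v (x : v.adicCompletion KK) * Valued.v (y : v.adicCompletion KK) = (1 : WithZero (Multiplicative ℤ)) := by
    rw [← map_mul, h1, map_one]
  refine le_antisymm hx ?_
  calc (1 : WithZero (Multiplicative ℤ)) = Valued.v (x : v.adicCompletion KK) * Valued.v (y : v.adicCompletion KK) := h2.symm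
    _ ≤ Valued.v (x : v.adicCompletion KK) * 1 := mul_le_mul' le_rfl hy'
    _ = _ := mul_one _

theorem E7c_unit' {x : v.adicCompletionIntegers KK}
    (h : Valued.v (x : v.adicCompletion KK) = (1 : WithZero (Multiplicative ℤ))) : IsUnit x := by
  have h0 : (x : v.adicCompletion KK) ≠ 0 := by
    intro h0
    rw [h0, map_zero] at h
    exact zero_ne_one h
  refine IsUnit.of_mul_eq_one ⟨(x : v.adicCompletion KK)⁻¹, ?_⟩ ?_
  · show Valued.v ((x : v.adicCompletion KK)⁻¹) ≤ 1
    rw [map_inv₀, h, inv_one]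
  · apply Subtype.ext
    show (x : v.adicCompletion KK) * (x : v.adicCompletion KK)⁻¹ = 1
    exact mul_inv_cancel₀ h0

theorem E7c_irr {x : v.adicCompletionIntegers KK} (h : Irreducible x) :
    Valued.v (x : v.adicCompletion KK) = (WithZero.exp (-1 : ℤ) : WithZero (Multiplicative ℤ)) := by
  obtain ⟨π, hπ⟩ := v.valuation_exists_uniformizer KK
  have hp : Valued.v (algebraMap KK (v.adicCompletion KK) π) = (WithZero.exp (-1 : ℤ) : WithZero (Multiplicative ℤ)) := by
    have h1 := HeightOneSpectrum.valuedAdicCompletion_eq_valuation' v (K := KK) π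
    exact h1.trans hπ
  have hlt : Valued.v (x : v.adicCompletion KK) < (1 : WithZero (Multiplicative ℤ)) := by
    refine lt_of_le_of_ne x.2 fun h1 => h.not_isUnit (E7c_unit' v h1)
  have hle : Valued.v (x : v.adicCompletion KK) ≤ (WithZero.exp (-1 : ℤ) : WithZero (Multiplicative ℤ)) := by
    have h1 := WithZero.lt_mul_exp_iff_le (x := Valued.v (x : v.adicCompletion KK)) (y := (WithZero.exp (-1 : ℤ) : WithZero (Multiplicative ℤ))) WithZero.exp_ne_zero
    rw [← WithZero.exp_add] at h1
    simp only [neg_add_cancel, WithZero.exp_zero] at h1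
    exact h1.1 hlt
  have hp0 : (algebraMap KK (v.adicCompletion KK) π) ≠ 0 := by
    intro h0
    rw [h0, map_zero] at hp
    exact WithZero.exp_ne_zero hp.symm
  have hpA : Valued.v (algebraMap KK (v.adicCompletion KK) π) ≤ (1 : WithZero (Multiplicative ℤ)) := by
    rw [hp, ← WithZero.exp_zero, WithZero.exp_le_exp]
    norm_num
  have hq : Valued.v ((x : v.adicCompletion KK) / algebraMap KK (v.adicCompletion KK) π) ≤ (1 : WithZero (Multiplicative ℤ)) := by
    rw [map_div₀, hp]
    exact div_le_one_of_le₀ hle zero_le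
  have hfac : x = (⟨_, hpA⟩ : v.adicCompletionIntegers KK) * ⟨_, hq⟩ := by
    apply Subtype.ext
    show (x : v.adicCompletion KK) = algebraMap KK (v.adicCompletion KK) π * ((x : v.adicCompletion KK) / algebraMap KK (v.adicCompletion KK) π)
    rw [mul_div_cancel₀ _ hp0]
  rcases h.isUnit_or_isUnit hfac with h1 | h1
  · have h2 := E7c_unit v h1
    rw [show (((⟨_, hpA⟩ : v.adicCompletionIntegers KK) : v.adicCompletion KK)) = algebraMap KK (v.adicCompletion KK) π from rfl, hp] at h2
    rw [← WithZero.exp_zero, WithZero.exp_inj] at h2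
    norm_num at h2
  · have h2 := E7c_unit v h1
    rw [show (((⟨_, hq⟩ : v.adicCompletionIntegers KK) : v.adicCompletion KK)) = (x : v.adicCompletion KK) / algebraMap KK (v.adicCompletion KK) π from rfl, map_div₀, hp,
      div_eq_one_iff_eq WithZero.exp_ne_zero] at h2
    exact h2

theorem E7c_dvd {x y : v.adicCompletionIntegers KK} (hx : (x : v.adicCompletion KK) ≠ 0)
    (h : Valued.v (y : v.adicCompletion KK) ≤ Valued.v (x : v.adicCompletion KK)) : x ∣ y := by
  refine ⟨⟨(y : v.adicCompletion KK) / (x : v.adicCompletion KK), ?_⟩, ?_⟩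
  · show Valued.v ((y : v.adicCompletion KK) / (x : v.adicCompletion KK)) ≤ 1
    rw [map_div₀]
    exact div_le_one_of_le₀ h zero_le
  · apply Subtype.ext
    show (y : v.adicCompletion KK) = (x : v.adicCompletion KK) * ((y : v.adicCompletion KK) / (x : v.adicCompletion KK))
    rw [mul_div_cancel₀ _ hx]

theorem E7c_two_three {a : v.adicCompletion KK} {b : v.adicCompletion KK}
    (ha : Valued.v a ≤ (1 : WithZero (Multiplicative ℤ))) (hb : Valued.v b ≤ (1 : WithZero (Multiplicative ℤ)))
    (hab : Valued.v (a * b) = (1 : WithZero (Multiplicative ℤ))) :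
    Valued.v a = (1 : WithZero (Multiplicative ℤ)) ∧ Valued.v b = (1 : WithZero (Multiplicative ℤ)) := by
  rw [map_mul] at hab
  constructor
  · refine le_antisymm ha ?_
    calc (1 : WithZero (Multiplicative ℤ)) = Valued.v a * Valued.v b := hab.symm
      _ ≤ Valued.v a * 1 := mul_le_mul' le_rfl hb
      _ = _ := mul_one _
  · refine le_antisymm hb ?_
    calc (1 : WithZero (Multiplicative ℤ)) = Valued.v a * Valued.v b := hab.symm
      _ ≤ 1 * Valued.v b := mul_le_mul' ha le_rfl
      _ = _ := one_mul _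

theorem E7c_natle (n : ℕ) : Valued.v ((n : ℕ) : v.adicCompletion KK) ≤ (1 : WithZero (Multiplicative ℤ)) := by
  have h1 : ((n : ℕ) : v.adicCompletion KK) = (((n : ℕ) : v.adicCompletionIntegers KK) : v.adicCompletion KK) := by
    push_cast
    rfl
  rw [h1]
  exact ((n : ℕ) : v.adicCompletionIntegers KK).2

end

/-- divisibility by powers of `la` at the place `(la)` -/
theorem e7a_le {v : HeightOneSpectrum (𝓞 KK)} (hv : v.asIdeal = Ideal.span {eE la}) (n : ℕ) (a : Eis) :
    Valued.v (algebraMap KK (v.adicCompletion KK) (jK a)) ≤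
      (WithZero.exp (-(n : ℤ)) : WithZero (Multiplicative ℤ)) ↔ la ^ n ∣ a := by
  have e1 : Valued.v (algebraMap KK (v.adicCompletion KK) (jK a)) = v.valuation KK (jK a) :=
    HeightOneSpectrum.valuedAdicCompletion_eq_valuation' v (jK a)
  have e2 : v.valuation KK (jK a) = v.intValuation (eE a) := by
    rw [← HeightOneSpectrum.valuation_of_algebraMap (K := KK)]
    rfl
  rw [e1, e2, HeightOneSpectrum.intValuation_le_pow_iff_mem, hv, Ideal.span_singleton_pow,
    Ideal.mem_span_singleton, ← map_pow]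
  constructor
  · rintro ⟨c, hc⟩
    refine ⟨eE.symm c, eE.injective ?_⟩
    rw [map_mul, eE.apply_symm_apply]
    exact hc
  · rintro ⟨c, rfl⟩
    rw [map_mul]
    exact dvd_mul_right _ _

theorem e7a_hl {v : HeightOneSpectrum (𝓞 KK)} (hv : v.asIdeal = Ideal.span {eE la}) :
    Valued.v (algebraMap KK (v.adicCompletion KK) (jK la)) = WithZero.exp (-1 : ℤ) := by
  have hdom := eis_isDomain
  have e1 : Valued.v (algebraMap KK (v.adicCompletion KK) (jK la)) = v.valuation KK (jK la) :=
    HeightOneSpectrum.valuedAdicCompletion_eq_valuation' v (jK la)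
  have e2 : v.valuation KK (jK la) = v.intValuation (eE la) := by
    rw [← HeightOneSpectrum.valuation_of_algebraMap (K := KK)]
    rfl
  have h3 : eE la ≠ 0 := by
    rw [Ne, EmbeddingLike.map_eq_zero_iff]
    exact CU.la_prime.ne_zero
  rw [e1, e2, v.intValuation_singleton h3 hv]

theorem e7a_v1 {v : HeightOneSpectrum (𝓞 KK)} (a : Eis) :
    Valued.v (algebraMap KK (v.adicCompletion KK) (jK a)) ≤ (1 : WithZero (Multiplicative ℤ)) := by
  have e1 : Valued.v (algebraMap KK (v.adicCompletion KK) (jK a)) = v.valuation KK (jK a) :=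
    HeightOneSpectrum.valuedAdicCompletion_eq_valuation' v (jK a)
  rw [e1]
  exact v.valuation_le_one (K := KK) (eE a)

theorem e7a_loc {v : HeightOneSpectrum (𝓞 KK)} (hv : v.asIdeal = Ideal.span {eE la}) :
    Loc3 (Valued.v : Valuation (v.adicCompletion KK) (WithZero (Multiplicative ℤ)))
      (algebraMap KK (v.adicCompletion KK) (jK la))
      (algebraMap KK (v.adicCompletion KK) (jK (-om ^ 2))) := by
  refine ⟨e7a_hl hv, ?_, ?_, ?_⟩
  · refine le_antisymm (e7a_v1 _) ?_
    by_contra hcon
    rw [not_le] at hcon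
    have h1 := l1_lt1 (w := (Valued.v : Valuation (v.adicCompletion KK) (WithZero (Multiplicative ℤ)))) hcon
    have h2 := (e7a_le hv 1 (-om ^ 2)).1 h1
    rw [pow_one] at h2
    exact CU.la_prime.not_isUnit (isUnit_of_dvd_unit h2 (CU.om_unit.pow 2).neg)
  · rw [← map_pow, ← map_pow, ← map_mul, ← map_mul, ← CU.three_eq, map_ofNat, map_ofNat]
  · intro x hx
    have key : ∀ y : v.adicCompletionIntegers KK, CU.t5b_lo v la ∣ y →
        Valued.v (y : v.adicCompletion KK) < (1 : WithZero (Multiplicative ℤ)) := by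
      rintro y ⟨c, rfl⟩
      have h2 : (((CU.t5b_lo v la * c : v.adicCompletionIntegers KK)) : v.adicCompletion KK) =
          algebraMap KK (v.adicCompletion KK) (jK la) * (c : v.adicCompletion KK) := rfl
      rw [h2, map_mul, e7a_hl hv]
      have hc : Valued.v (c : v.adicCompletion KK) ≤ (1 : WithZero (Multiplicative ℤ)) := c.2
      have h3 : WithZero.exp (-1 : ℤ) * Valued.v (c : v.adicCompletion KK) ≤ WithZero.exp (-1 : ℤ) * 1 :=
        mul_le_mul_right hc _
      refine lt_of_le_of_lt h3 ?_
      rw [mul_one]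
      exact l0b_lt
    obtain ⟨y, hy⟩ : ∃ y : v.adicCompletionIntegers KK, (y : v.adicCompletion KK) = x := ⟨⟨x, hx⟩, rfl⟩
    have e1 : ((y - 1 : v.adicCompletionIntegers KK) : v.adicCompletion KK) = x - 1 := by
      rw [← hy]
      rfl
    have e2 : ((y + 1 : v.adicCompletionIntegers KK) : v.adicCompletion KK) = x + 1 := by
      rw [← hy]
      rfl
    rcases CU.t5b_res hv y with h3 | h3 | h3
    · left
      have h4 := key _ h3
      rw [hy] at h4
      exact h4
    · right
      left
      have h4 := key _ h3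
      rw [e1] at h4
      exact h4
    · right
      right
      have h4 := key _ h3
      rw [e2] at h4
      exact h4

/-- the case `ρ = s` rational over `C` -/
theorem e7a_rat {C M : Type} [Field C] [Field M] [Algebra C M] {d s a : C} {ρ : M}
    (hs : ρ = algebraMap C M s)
    (h : (∃ g : C, g ^ 3 = a) ∨ ∃ x y g : C, g ≠ 0 ∧ y ^ 2 = x ^ 3 + d ∧ y - s ≠ 0 ∧ y - s = a * g ^ 3) :
    LocSol d ρ (algebraMap C M a) := by
  rcases h with ⟨g, hg⟩ | ⟨x, y, g, hg, h1, h2, h3⟩
  · left
    refine ⟨algebraMap C M g, algebraMap_mem _ g, ?_⟩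
    rw [← map_pow, hg]
  · right
    refine ⟨x, y, algebraMap C M g, algebraMap_mem _ g, (map_ne_zero _).2 hg, h1, ?_, ?_⟩
    · rw [hs, ← map_sub]
      exact (map_ne_zero _).2 h2
    · rw [hs, ← map_sub, h3, map_mul, map_pow]

/-- a square root of `d` in `C` gives `ρ` -/
theorem e7a_root {C M : Type} [Field C] [Field M] [Algebra C M] {d z : C} {ρ : M}
    (hρ : ρ ^ 2 = algebraMap C M d) (hz : z ^ 2 = d) : ∃ s : C, s ^ 2 = d ∧ (s = z ∨ s = -z) ∧ ρ = algebraMap C M s := by
  rw [← hz, map_pow, sq_eq_sq_iff_eq_or_eq_neg] at hρ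
  rcases hρ with h | h
  · exact ⟨z, hz, Or.inl rfl, h⟩
  · refine ⟨-z, by rw [neg_sq, hz], Or.inr rfl, ?_⟩
    rw [h, map_neg]

section
variable {D : Eis} {F : Type} [Field F] [NumberField F] [Algebra KK F] {r : F} {τ : F ≃ₐ[KK] F}
  {α : F} {u y : KK} (hD : Cl D) (hQ : Quad D r τ) (hα : Lam τ α) (huy : α = algebraMap KK F u + algebraMap KK F y * r)
  (v : HeightOneSpectrum (𝓞 KK)) {M : Type} [Field M] [Algebra (v.adicCompletion KK) M] {ρ : M}
  (hρ : ρ ^ 2 = algebraMap (v.adicCompletion KK) M (algebraMap KK (v.adicCompletion KK) (jK D)))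
include hD hQ hα huy hρ

/-- [E7a] -/
theorem locSol_la (hv : v.asIdeal = Ideal.span {eE la}) :
    LocSol (algebraMap KK (v.adicCompletion KK) (jK D)) ρ
      (algebraMap (v.adicCompletion KK) M (algebraMap KK (v.adicCompletion KK) u) +
        algebraMap (v.adicCompletion KK) M (algebraMap KK (v.adicCompletion KK) y) * ρ) := by
  have hL := e7a_loc hv
  set V : Valuation (v.adicCompletion KK) (WithZero (Multiplicative ℤ)) := Valued.v with hV
  set i := algebraMap KK (v.adicCompletion KK) with hi
  have hε : V (i (jK (-om ^ 2)) + 1) < 1 := by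
    have h1 : i (jK (-om ^ 2)) + 1 = i (jK (-om ^ 2 + 1)) := by
      rw [map_add, map_add, map_one, map_one]
    rw [h1]
    have h2 : la ^ 1 ∣ (-om ^ 2 + 1 : Eis) := by
      refine ⟨1 + om, ?_⟩
      rw [pow_one]
      show (-om ^ 2 + 1 : Eis) = (1 - om) * (1 + om)
      ring
    have h3 := (e7a_le hv 1 _).2 h2
    exact lt_of_le_of_lt h3 l0b_lt
  obtain ⟨η, hη, h3, hn⟩ := hD.2.1
  have hd : V (i (jK D) - i (jK η)) ≤ WithZero.exp (-2 : ℤ) := by
    rw [← map_sub, ← map_sub]
    refine (e7a_le hv 2 _).2 (dvd_trans ?_ h3)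
    rw [CU.three_eq]
    exact dvd_mul_left _ _
  have hd' : ¬ V (i (jK D) - i (jK η) - i (jK la) ^ 2) ≤ WithZero.exp (-3 : ℤ) := by
    rw [← map_sub, ← map_sub, ← map_pow, ← map_pow, ← map_sub, ← map_sub]
    exact fun h => hn ((e7a_le hv 3 _).1 h)
  obtain ⟨hu0, hy0⟩ := lam_la hD hQ hα huy v hv
  have hu : V (i u - 1) ≤ WithZero.exp (-2 : ℤ) := by
    have e1 : V (i (u - 1)) = v.valuation KK (u - 1) :=
      HeightOneSpectrum.valuedAdicCompletion_eq_valuation' v (u - 1)
    rw [← map_one i, ← map_sub, e1]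
    exact hu0
  have hy : V (i y) ≤ WithZero.exp (-2 : ℤ) := by
    have e1 : V (i y) = v.valuation KK y :=
      HeightOneSpectrum.valuedAdicCompletion_eq_valuation' v y
    rw [e1]
    exact hy0
  have hnorm : i u ^ 2 - i y ^ 2 * i (jK D) = 1 := by
    have := congrArg i (lam_norm hQ hα huy)
    simpa only [map_sub, map_mul, map_pow, map_one] using this
  rcases hη with rfl | rfl
  · rw [map_one, map_one] at hd hd'
    have hd1 : V (i (jK D) - 1) < 1 := l1_of_le (by norm_num) hd
    obtain ⟨z, hz, -⟩ := sqrt_one v (l1_two hL) hd1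
    obtain ⟨s, hs, -, hρs⟩ := e7a_root hρ hz
    have hVs : V s = 1 := by
      have h5 : V (i (jK D)) = 1 := l1_one_of (map_one V) hd1
      rw [← hs, map_pow] at h5
      exact (pow_eq_one_iff.1 h5).resolve_right (by norm_num)
    have ha : V (i u + i y * s - 1) ≤ WithZero.exp (-2 : ℤ) := by
      have h5 : i u + i y * s - 1 = (i u - 1) + i y * s := by ring
      rw [h5]
      refine V.map_add_le hu ?_
      rw [map_mul, hVs, mul_one]
      exact hy
    have h6 := e7a_rat hρs (sol_plus v hL hε hs hd hd' ha)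
    rw [map_add, map_mul, ← hρs] at h6
    exact h6
  · rw [map_neg, map_neg, map_one, map_one, sub_neg_eq_add] at hd hd'
    by_cases hy3 : V (i y) ≤ WithZero.exp (-3 : ℤ)
    · exact locSol_of_sol3 hρ hnorm (sol_la v hL hε (l1_of_le (by norm_num) hd)
        (l1_of_le (by norm_num) hu) hy3 hnorm)
    · have hy2 : V (i y) = WithZero.exp (-2 : ℤ) := by
        refine le_antisymm hy ?_
        by_contra hcon
        exact hy3 (l1_lt (not_le.1 hcon))
      exact sol_minus v hL hε hd hd' hu hy2 hnorm hρ

/-- [E7b] -/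
theorem locSol_split (h2 : Valued.v (2 : v.adicCompletion KK) = (1 : WithZero (Multiplicative ℤ)))
    (h3 : Valued.v (3 : v.adicCompletion KK) = (1 : WithZero (Multiplicative ℤ)))
    (hd : Valued.v (algebraMap KK (v.adicCompletion KK) (jK D)) = (1 : WithZero (Multiplicative ℤ)))
    {x : v.adicCompletion KK}
    (hx : Valued.v (algebraMap KK (v.adicCompletion KK) (jK D) - x ^ 2) < (1 : WithZero (Multiplicative ℤ))) :
    LocSol (algebraMap KK (v.adicCompletion KK) (jK D)) ρ
      (algebraMap (v.adicCompletion KK) M (algebraMap KK (v.adicCompletion KK) u) +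
        algebraMap (v.adicCompletion KK) M (algebraMap KK (v.adicCompletion KK) y) * ρ) := by
  have hnorm := lam_norm hQ hα huy
  set d : v.adicCompletion KK := algebraMap KK (v.adicCompletion KK) (jK D) with hdd
  set U : v.adicCompletion KK := algebraMap KK (v.adicCompletion KK) u with hU
  set Y : v.adicCompletion KK := algebraMap KK (v.adicCompletion KK) y with hY
  have hnorm' : U ^ 2 - Y ^ 2 * d = 1 := by
    have h1 := congrArg (algebraMap KK (v.adicCompletion KK)) hnorm
    simpa only [map_sub, map_mul, map_pow, map_one] using h1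
  have hx2 : Valued.v (x ^ 2) = (1 : WithZero (Multiplicative ℤ)) := by
    have h1 : x ^ 2 = d - (d - x ^ 2) := by ring
    rw [h1, Valuation.map_sub_eq_of_lt_left Valued.v (by rw [hd]; exact hx), hd]
  have hxv : Valued.v x = (1 : WithZero (Multiplicative ℤ)) := by
    rw [map_pow] at hx2
    exact (pow_eq_one_iff.1 hx2).resolve_right (by norm_num)
  have hx0 : x ≠ 0 := by
    rintro rfl
    rw [map_zero] at hxv
    exact zero_ne_one hxv
  obtain ⟨z, hz, -⟩ := sqrt_one v h2 (x := d / x ^ 2) (by
    have h1 : d / x ^ 2 - 1 = (d - x ^ 2) / x ^ 2 := by field_simp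
    rw [h1, map_div₀, hx2, div_one]
    exact hx)
  obtain ⟨s, hs, hsρ⟩ : ∃ s : v.adicCompletion KK, s ^ 2 = d ∧ ρ = algebraMap (v.adicCompletion KK) M s := by
    have h1 : (x * z) ^ 2 = d := by
      rw [mul_pow, hz]
      field_simp
    have h3 : ρ ^ 2 = (algebraMap (v.adicCompletion KK) M (x * z)) ^ 2 := by
      rw [hρ, ← map_pow, h1]
    rcases sq_eq_sq_iff_eq_or_eq_neg.1 h3 with h4 | h4
    · exact ⟨x * z, h1, h4⟩
    · exact ⟨-(x * z), by rw [neg_sq]; exact h1, by rw [h4, map_neg]⟩
  have hsv : Valued.v s = (1 : WithZero (Multiplicative ℤ)) := by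
    have h1 : Valued.v (s ^ 2) = (1 : WithZero (Multiplicative ℤ)) := by rw [hs]; exact hd
    rw [map_pow] at h1
    exact (pow_eq_one_iff.1 h1).resolve_right (by norm_num)
  have ha : U + Y * s ≠ 0 := by
    intro h0
    have h1 : (U + Y * s) * (U - Y * s) = 1 := by
      rw [← hnorm', ← hs]
      ring
    rw [h0, zero_mul] at h1
    exact zero_ne_one h1
  have hav := split_val hD hQ hα huy v hs
  have hcomb : algebraMap (v.adicCompletion KK) M U + algebraMap (v.adicCompletion KK) M Y * ρ =
      algebraMap (v.adicCompletion KK) M (U + Y * s) := by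
    rw [hsρ, map_add, map_mul]
  rw [hcomb]
  rcases sol_split v h2 h3 hs hsv ha hav with ⟨g, hg⟩ | ⟨x', y', g, hg0, hE, hne, hyg⟩
  · left
    exact ⟨algebraMap _ M g, algebraMap_mem _ g, by rw [← map_pow, hg]⟩
  · right
    refine ⟨x', y', algebraMap _ M g, algebraMap_mem _ g, (map_ne_zero _).2 hg0, hE, ?_, ?_⟩
    · rw [hsρ, ← map_sub]
      exact (map_ne_zero _).2 hne
    · rw [hsρ, ← map_sub, hyg, map_mul, map_pow]

/-- [E7c] -/
theorem locSol_all :
    LocSol (algebraMap KK (v.adicCompletion KK) (jK D)) ρ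
      (algebraMap (v.adicCompletion KK) M (algebraMap KK (v.adicCompletion KK) u) +
        algebraMap (v.adicCompletion KK) M (algebraMap KK (v.adicCompletion KK) y) * ρ) := by
  have hn := lam_norm hQ hα huy
  set d : v.adicCompletion KK := algebraMap KK (v.adicCompletion KK) (jK D) with hd_def
  have hn' : (algebraMap KK (v.adicCompletion KK) u) ^ 2 - (algebraMap KK (v.adicCompletion KK) y) ^ 2 * d = 1 := by
    have h1 := congrArg (algebraMap KK (v.adicCompletion KK)) hn
    simpa only [map_sub, map_mul, map_pow, map_one] using h1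
  have hlo : ((CU.t5b_lo v D : v.adicCompletionIntegers KK) : v.adicCompletion KK) = d := rfl
  have two_le : Valued.v (2 : v.adicCompletion KK) ≤ (1 : WithZero (Multiplicative ℤ)) := by
    have := E7c_natle v 2
    simpa using this
  have three_le : Valued.v (3 : v.adicCompletion KK) ≤ (1 : WithZero (Multiplicative ℤ)) := by
    have := E7c_natle v 3
    simpa using this
  have d_le : Valued.v d ≤ (1 : WithZero (Multiplicative ℤ)) := (CU.t5b_lo v D).2
  have c6 : ((6 : v.adicCompletionIntegers KK) : v.adicCompletion KK) = 6 :=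
    map_ofNat (algebraMap (v.adicCompletionIntegers KK) (v.adicCompletion KK)) 6
  have c4 : ((4 : v.adicCompletionIntegers KK) : v.adicCompletion KK) = 4 :=
    map_ofNat (algebraMap (v.adicCompletionIntegers KK) (v.adicCompletion KK)) 4
  have c3 : ((3 : v.adicCompletionIntegers KK) : v.adicCompletion KK) = 3 :=
    map_ofNat (algebraMap (v.adicCompletionIntegers KK) (v.adicCompletion KK)) 3
  have c2 : ((2 : v.adicCompletionIntegers KK) : v.adicCompletion KK) = 2 :=
    map_ofNat (algebraMap (v.adicCompletionIntegers KK) (v.adicCompletion KK)) 2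
  rcases place_cases v hD with hv | ⟨b, -, -, -, -, hu⟩ | ⟨-, h3, h2, k, D', hk, hD', hlo2, hsq⟩ |
    ⟨-, h6, l, D', hl, hD', hlo2⟩
  · exact locSol_la hD hQ hα huy v hρ hv
  · have h1 := E7c_unit v hu
    have h1' : ((6 * CU.t5b_lo v D : v.adicCompletionIntegers KK) : v.adicCompletion KK) = 2 * (3 * d) := by
      have e1 : ((6 * CU.t5b_lo v D : v.adicCompletionIntegers KK) : v.adicCompletion KK) =
          ((6 : v.adicCompletionIntegers KK) : v.adicCompletion KK) * ((CU.t5b_lo v D : v.adicCompletionIntegers KK) : v.adicCompletion KK) := rfl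
      rw [e1, c6, hlo]
      ring
    rw [h1'] at h1
    have h3d : Valued.v (3 * d) ≤ (1 : WithZero (Multiplicative ℤ)) := by
      rw [map_mul]
      exact mul_le_one' three_le d_le
    obtain ⟨h2, h3d'⟩ := E7c_two_three v two_le h3d h1
    obtain ⟨h3, hd⟩ := E7c_two_three v three_le d_le h3d'
    by_cases hx : ∃ x : v.adicCompletion KK, Valued.v (d - x ^ 2) < (1 : WithZero (Multiplicative ℤ))
    · obtain ⟨x, hx⟩ := hx
      exact locSol_split hD hQ hα huy v hρ h2 h3 hd hx
    · push Not at hx
      exact locSol_of_sol3 hρ hn' (sol_inert v h2 h3 hd (fun x => not_lt.2 (hx x)) hn')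
  · have v2 : Valued.v (2 : v.adicCompletion KK) = (WithZero.exp (-1 : ℤ) : WithZero (Multiplicative ℤ)) := by
      have h1 := E7c_irr v h2
      rwa [c2] at h1
    have v3 : Valued.v (3 : v.adicCompletion KK) = (1 : WithZero (Multiplicative ℤ)) := by
      have h1 := E7c_unit v h3
      rwa [c3] at h1
    have vD' := E7c_unit v hD'
    have hdk : d = 2 ^ k * (D' : v.adicCompletion KK) := by
      have e1 : ((2 ^ k * D' : v.adicCompletionIntegers KK) : v.adicCompletion KK) =
          ((2 : v.adicCompletionIntegers KK) : v.adicCompletion KK) ^ k * (D' : v.adicCompletion KK) := rfl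
      rw [← hlo, hlo2, e1, c2]
    have hd : Valued.v d = (1 : WithZero (Multiplicative ℤ)) ∨ Valued.v d = WithZero.exp (-1 : ℤ) := by
      rw [hdk, map_mul, map_pow, vD', mul_one, v2]
      rcases hk with rfl | rfl
      · left; exact pow_zero _
      · right; exact pow_one _
    refine locSol_of_sol3 hρ hn' (sol_two v v2 v3 hd ?_ hn')
    intro x hx
    have hx1 : Valued.v x ≤ (1 : WithZero (Multiplicative ℤ)) := by
      by_contra hc
      push Not at hc
      have h1 : (1 : WithZero (Multiplicative ℤ)) < Valued.v (x ^ 2) := by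
        rw [map_pow]
        exact one_lt_pow₀ hc two_ne_zero
      have h4 : Valued.v (d - x ^ 2) = Valued.v (x ^ 2) :=
        Valuation.map_sub_eq_of_lt_right _ (lt_of_le_of_lt d_le h1)
      rw [h4] at hx
      have h5 : (WithZero.exp (-2 : ℤ) : WithZero (Multiplicative ℤ)) ≤ 1 := by
        rw [← WithZero.exp_zero, WithZero.exp_le_exp]
        norm_num
      exact absurd (lt_of_lt_of_le h1 (hx.trans h5)) (lt_irrefl _)
    apply hsq ⟨x, hx1⟩
    apply E7c_dvd v
    · intro h0
      have h4 : ((4 : v.adicCompletionIntegers KK) : v.adicCompletion KK) = 2 * 2 := by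
        rw [c4]
        norm_num
      rw [h4] at h0
      rcases mul_eq_zero.1 h0 with h0 | h0 <;>
      · rw [h0, map_zero] at v2
        exact WithZero.exp_ne_zero v2.symm
    · have h4 : ((4 : v.adicCompletionIntegers KK) : v.adicCompletion KK) = 2 * 2 := by
        rw [c4]
        norm_num
      rw [h4, map_mul, v2, ← WithZero.exp_add]
      exact hx
  · have h1 := E7c_unit v h6
    have h1' : ((6 : v.adicCompletionIntegers KK) : v.adicCompletion KK) = 2 * 3 := by
      rw [c6]
      norm_num
    rw [h1'] at h1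
    obtain ⟨v2, v3⟩ := E7c_two_three v two_le three_le h1
    have hd : Valued.v d = WithZero.exp (-1 : ℤ) := by
      have e1 : ((l * D' : v.adicCompletionIntegers KK) : v.adicCompletion KK) =
          (l : v.adicCompletion KK) * (D' : v.adicCompletion KK) := rfl
      rw [← hlo, hlo2, e1, map_mul, E7c_irr v hl, E7c_unit v hD', mul_one]
    exact locSol_of_sol3 hρ hn' (sol_ram v v2 v3 hd hn')

end

end JD
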