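import Pool.Agent.JD.L3
import Pool.Agent.JD.Q4

/-!
# [JD-H1] the global lemma

PROOF. `v_eight`: for `z` in the completion at `w` over `λ` with `Valued.v z = 1`: `Valued.v (z ^ 24 - 1) ≤ exp (-3)`. There is `x ∈ F` with `Valued.v (z - x) < 1` (density, `HeightOneSpectrum.denseRange_algebraMap`), `w x = 1`, `w (x^8 - 1) < 1` (`ov_eight`), so
`Valued.v (z^8 - 1) < 1`, `≤ exp (-1) = Valued.v la` (`ov_val`): `z^8 = 1 + la t`, `Valued.v t ≤ 1`, `z^24 = 1 + 3 la t + 3 la² t² + la³ t³`, `3 = -om² la²`.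
`cube_of_loc`: `α₀ = b / τ b`, `α₀ τ α₀ = 1` (`tau_tau`). All `w α₀` are cubes: if `w (jF (2 D)) < 1` then `w (τ b) = w b` (`fix_of_two`), `w α₀ = 1`. Otherwise (`w (jF (2 D)) = 1`, an integer) `w b` is a cube (`val_of_LocK`) and `w (τ b) = w' b` for the conjugate place (`exists_cj`;
`w' (jF (2 D)) = w (jF (2 D)) = 1`, `tau_jF`), a cube. `κ` from `exists_kappa`; `a = α₀ / κ³`: `a τ a = 1`, `w a` a cube for all `w`, `w a = 1` over `λ`.
At `w` over `λ`: `b = h³ u` in the completion (`la_of_LocK`), `b τ b = t³`, so `a = b² / (t κ)³ = u² g³` with `g = h² / (t κ)` (`t ≠ 0`), `Valued.v a = 1 = Valued.v u`, so `Valued.v g = 1` (cube root in `WithZero (Multiplicative ℤ)`), `a^8 = (u^8)² g^24`, `Valued.v (a^8 - 1) ≤ exp (-2)`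
`= (w la)²`; and `Valued.v` of the image of an element of `F` is `w` (`valuedAdicCompletion_eq_valuation'`).
So `a^8 ∈ Lam τ` (`a^8 τ (a^8) = 1`, valuations cubes), `a^8 = c³`, `a = (a^3/c)^3`... (`a = a^9 / a^8 = (a³/c)³`), `α₀ = (κ a³/c)³` is a cube, `b² = α₀ (b τ b)` is a cube `= m³`, `b = b³/b² = (b/m)³`.
-/

set_option autoImplicit false

open NumberField IsDedekindDomain
open scoped Classical

namespace JD

open CM27 CF JZ
open CU (la om eE)

theorem h1_lt {a : WithZero (Multiplicative ℤ)} (h : a < 1) : a ≤ WithZero.exp (-1 : ℤ) := by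
  by_cases h0 : a = 0
  · rw [h0]
    exact zero_le
  · have h1 : a = WithZero.exp (WithZero.log a) := (WithZero.exp_log h0).symm
    rw [h1, ← WithZero.exp_zero, WithZero.exp_lt_exp] at h
    rw [h1, WithZero.exp_le_exp]
    omega

theorem h1_le {F : Type} [Field F] [NumberField F] (w : HeightOneSpectrum (𝓞 F)) {x : F}
    (hx : IsIntegral ℤ x) : w.valuation F x ≤ 1 :=
  w.valuation_le_one (K := F) (⟨x, hx⟩ : 𝓞 F)

theorem h1_dense {F : Type} [Field F] [NumberField F] (w : HeightOneSpectrum (𝓞 F))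
    (z : w.adicCompletion F) : ∃ x : F,
      Valued.v (algebraMap F (w.adicCompletion F) x - z) < (1 : WithZero (Multiplicative ℤ)) := by
  set i : F → w.adicCompletion F := fun k => algebraMap F (w.adicCompletion F) k with hi
  have hd : DenseRange i := HeightOneSpectrum.denseRange_algebraMap F w
  have hlt : IsOpen {x : w.adicCompletion F | Valued.v x < (1 : WithZero (Multiplicative ℤ))} := by
    have h := Valued.isOpen_ball (w.adicCompletion F) 1
    simpa only [Valuation.restrict_lt_one_iff] using h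
  have hopen : IsOpen {x : w.adicCompletion F | Valued.v (x - z) < (1 : WithZero (Multiplicative ℤ))} :=
    hlt.preimage (f := fun x : w.adicCompletion F => x - z) (by fun_prop)
  obtain ⟨a, ha⟩ := hd.exists_mem_open hopen ⟨z, by
    show Valued.v (z - z) < 1
    rw [sub_self, map_zero]
    exact zero_lt_one⟩
  exact ⟨a, ha⟩

theorem h1_val {F : Type} [Field F] [NumberField F] (w : HeightOneSpectrum (𝓞 F)) (x : F) :
    Valued.v (algebraMap F (w.adicCompletion F) x) = w.valuation F x :=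
  HeightOneSpectrum.valuedAdicCompletion_eq_valuation' w x

/-- `x ≡ y` implies `x^8 ≡ y^8` -/
theorem h1_pow {C : Type} [Field C] (v : Valuation C (WithZero (Multiplicative ℤ))) {x y : C}
    {g : WithZero (Multiplicative ℤ)}
    (hx : v x ≤ 1) (hy : v y ≤ 1) (h : v (x - y) < g) (n : ℕ) : v (x ^ n - y ^ n) < g := by
  have hg : (0 : WithZero (Multiplicative ℤ)) < g := lt_of_le_of_lt zero_le h
  induction n with
  | zero => rw [pow_zero, pow_zero, sub_self, map_zero]; exact hg
  | succ n ih =>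
    have e : x ^ (n + 1) - y ^ (n + 1) = (x ^ n - y ^ n) * x + y ^ n * (x - y) := by ring
    rw [e]
    apply Valuation.map_add_lt
    · rw [map_mul]
      exact lt_of_le_of_lt (mul_le_of_le_one_right' hx) ih
    · rw [map_mul, map_pow]
      exact lt_of_le_of_lt (mul_le_of_le_one_left' (pow_le_one' hy n)) h

section
variable {D : Eis} {F : Type} [Field F] [NumberField F] [Algebra KK F] {r : F} {τ : F ≃ₐ[KK] F}
  (hD : Cl D) (hQ : Quad D r τ)
include hD hQ

theorem v_eight (w : HeightOneSpectrum (𝓞 F)) (hw : OvLa w) {z : w.adicCompletion F}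
    (hz : Valued.v z = (1 : WithZero (Multiplicative ℤ))) : Valued.v (z ^ 24 - 1) ≤ WithZero.exp (-3 : ℤ) := by
  obtain ⟨x, hx⟩ := h1_dense w z
  set X : w.adicCompletion F := algebraMap F (w.adicCompletion F) x with hX
  have hXv : Valued.v X = (1 : WithZero (Multiplicative ℤ)) := by
    have e : X = z + (X - z) := by ring
    rw [e, Valuation.map_add_eq_of_lt_left _ (by rw [hz]; exact hx), hz]
  have hxw : w.valuation F x = 1 := by
    rw [← h1_val w x]
    exact hXv
  have h8 : Valued.v (X ^ 8 - 1) < (1 : WithZero (Multiplicative ℤ)) := by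
    have h1 := ov_eight hD hQ w hw hxw
    rw [← h1_val w, map_sub, map_pow, map_one] at h1
    exact h1
  have h9 : Valued.v (z ^ 8 - 1) < (1 : WithZero (Multiplicative ℤ)) := by
    have e : z ^ 8 - 1 = (X ^ 8 - 1) - (X ^ 8 - z ^ 8) := by ring
    rw [e]
    exact Valuation.map_sub_lt _ h8 (h1_pow _ hXv.le hz.le hx 8)
  have h10 := h1_lt h9
  set y := z ^ 8 - 1 with hy
  have e : z ^ 24 - 1 = 3 * y + 3 * y ^ 2 + y ^ 3 := by
    rw [hy]
    ring
  have h3 : Valued.v (3 : w.adicCompletion F) ≤ WithZero.exp (-2 : ℤ) := by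
    have e3 : (3 : w.adicCompletion F) = algebraMap F (w.adicCompletion F) (jF F 3) := by
      rw [map_ofNat, map_ofNat]
    rw [e3, h1_val, CU.three_eq, map_mul, map_mul, map_pow, map_pow, ov_val hD hQ w hw]
    have h4 : w.valuation F (jF F (-om ^ 2)) ≤ 1 := h1_le w (int_jF F _)
    calc _ ≤ WithZero.exp (-1 : ℤ) ^ 2 := mul_le_of_le_one_left' h4
      _ = WithZero.exp (-2 : ℤ) := by rw [← WithZero.exp_nsmul]; norm_num
  have hy1 : Valued.v y ≤ (1 : WithZero (Multiplicative ℤ)) := h9.le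
  rw [e]
  have k3 : WithZero.exp (-3 : ℤ) = WithZero.exp (-2 : ℤ) * WithZero.exp (-1 : ℤ) := by
    rw [← WithZero.exp_add]
    norm_num
  have k1 : Valued.v (3 * y) ≤ WithZero.exp (-3 : ℤ) := by
    rw [map_mul, k3]
    exact mul_le_mul' h3 h10
  apply Valuation.map_add_le
  · apply Valuation.map_add_le _ k1
    have e2 : 3 * y ^ 2 = (3 * y) * y := by ring
    rw [e2, map_mul]
    exact le_trans (mul_le_of_le_one_right' hy1) k1
  · rw [map_pow]
    calc _ ≤ WithZero.exp (-1 : ℤ) ^ 3 := pow_le_pow_left₀ zero_le h10 3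
      _ = WithZero.exp (-3 : ℤ) := by rw [← WithZero.exp_nsmul]; norm_num

theorem cube_of_loc (hN : NoBad τ) {b : F} (hb : b ≠ 0) (hc : ∃ t : F, b * τ b = t ^ 3)
    (hloc : ∀ w : HeightOneSpectrum (𝓞 F), LocK D r b w) : ∃ c : F, c ^ 3 = b := by
  obtain ⟨t, ht⟩ := hc
  have hD0 := ne_of_cl hD
  have hτb : τ b ≠ 0 := by
    intro h
    exact hb ((map_eq_zero_iff τ τ.injective).1 h)
  have ht0 : t ≠ 0 := by
    rintro rfl
    rw [zero_pow three_ne_zero] at ht
    exact mul_ne_zero hb hτb ht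
  obtain ⟨α, hα⟩ : ∃ α, α = b / τ b := ⟨_, rfl⟩
  have hα1 : α * τ α = 1 := by
    rw [hα, map_div₀, tau_tau hD0 hQ]
    field_simp
  have hα0 : α ≠ 0 := left_ne_zero_of_mul (by rw [hα1]; exact one_ne_zero)
  have hαt : α = b ^ 2 / t ^ 3 := by
    rw [hα, ← ht]
    field_simp
  have hαv : ∀ w : HeightOneSpectrum (𝓞 F), ∃ g : WithZero (Multiplicative ℤ),
      w.valuation F α = g ^ 3 := by
    intro w
    by_cases h2 : w.valuation F (jF F (2 * D)) < 1
    · refine ⟨1, ?_⟩
      rw [hα, map_div₀, fix_of_two hD hQ w h2 b, div_self, one_pow]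
      exact (Valuation.ne_zero_iff _).2 hb
    · have h2' : w.valuation F (jF F (2 * D)) = 1 :=
        le_antisymm (h1_le w (int_jF F _)) (not_lt.1 h2)
      obtain ⟨g, hg⟩ := val_of_LocK hD hQ hb w h2' (hloc w)
      obtain ⟨w', hw'⟩ := exists_cj τ w
      obtain ⟨g', hg'⟩ := val_of_LocK hD hQ hb w' (by rw [hw', tau_jF]; exact h2') (hloc w')
      rw [hw'] at hg'
      exact ⟨g / g', by rw [hα, map_div₀, hg, hg', div_pow]⟩
  obtain ⟨k, hk1, hk⟩ := exists_kappa hD hQ hα1 (fun w _ => hαv w)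
  have hk0 : k ≠ 0 := left_ne_zero_of_mul (by rw [hk1]; exact one_ne_zero)
  obtain ⟨a, ha⟩ : ∃ a, a = α / k ^ 3 := ⟨_, rfl⟩
  have hτk : τ k ≠ 0 := right_ne_zero_of_mul (by rw [hk1]; exact one_ne_zero)
  have ha1 : a * τ a = 1 := by
    rw [ha, map_div₀, map_pow]
    have e : α / k ^ 3 * (τ α / τ k ^ 3) = (α * τ α) / (k * τ k) ^ 3 := by
      field_simp
    rw [e, hα1, hk1]
    norm_num
  have ha0 : a ≠ 0 := left_ne_zero_of_mul (by rw [ha1]; exact one_ne_zero)
  have hav : ∀ w : HeightOneSpectrum (𝓞 F), ∃ g : WithZero (Multiplicative ℤ),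
      w.valuation F a = g ^ 3 := by
    intro w
    obtain ⟨g, hg⟩ := hαv w
    exact ⟨g / w.valuation F k, by rw [ha, map_div₀, hg, map_pow, div_pow]⟩
  have hLam : Lam τ (a ^ 8) := by
    refine ⟨?_, ?_, ?_⟩
    · rw [map_pow, ← mul_pow, ha1, one_pow]
    · intro w
      obtain ⟨g, hg⟩ := hav w
      exact ⟨g ^ 8, by rw [map_pow, hg, ← pow_mul, ← pow_mul, mul_comm]⟩
    · intro w hw
      obtain ⟨h, u, hh0, hbu, hu1, hu8⟩ := la_of_LocK hD hQ hb w hw (hloc w)
      set i := algebraMap F (w.adicCompletion F) with hi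
      have hit : i t ≠ 0 := (map_ne_zero_iff i i.injective).2 ht0
      have hik : i k ≠ 0 := (map_ne_zero_iff i i.injective).2 hk0
      obtain ⟨g, hg⟩ : ∃ g, g = h ^ 2 / (i t * i k) := ⟨_, rfl⟩
      have hia : i a = u ^ 2 * g ^ 3 := by
        rw [ha, hαt, map_div₀, map_div₀, map_pow, map_pow, map_pow, hbu, hg]
        field_simp
      have hwa : w.valuation F a = 1 := by
        rw [ha, map_div₀, map_pow, hk w hw, div_self]
        exact pow_ne_zero _ ((Valuation.ne_zero_iff _).2 hk0)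
      have hgv : Valued.v g = (1 : WithZero (Multiplicative ℤ)) := by
        have h1 : Valued.v (i a) = (1 : WithZero (Multiplicative ℤ)) := by
          rw [hi, h1_val, hwa]
        rw [hia, map_mul, map_pow, hu1, one_pow, one_mul, map_pow] at h1
        rcases lt_trichotomy (Valued.v g) (1 : WithZero (Multiplicative ℤ)) with h2 | h2 | h2
        · exact absurd h1 (pow_lt_one₀ zero_le h2 (by norm_num)).ne
        · exact h2
        · exact absurd h1 (one_lt_pow₀ h2 (by norm_num)).ne'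
      have h24 := v_eight hD hQ w hw hgv
      have h24' : Valued.v (g ^ 24 - 1) ≤ WithZero.exp (-2 : ℤ) :=
        le_trans h24 (WithZero.exp_le_exp.2 (by norm_num))
      have hfin : Valued.v (i (a ^ 8 - 1)) ≤ WithZero.exp (-2 : ℤ) := by
        have e : i (a ^ 8 - 1) = (u ^ 8 - 1) * ((u ^ 8 + 1) * g ^ 24) + (g ^ 24 - 1) := by
          rw [map_sub, map_pow, map_one, hia]
          ring
        rw [e]
        apply Valuation.map_add_le _ _ h24'
        rw [map_mul]
        refine le_trans (mul_le_of_le_one_right' ?_) hu8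
        rw [map_mul, map_pow, hgv, one_pow, mul_one]
        apply Valuation.map_add_le
        · rw [map_pow, hu1, one_pow]
        · rw [map_one]
      rw [hi, h1_val] at hfin
      rw [ov_val hD hQ w hw, ← WithZero.exp_nsmul]
      norm_num
      exact hfin
  obtain ⟨c, hc⟩ := hN _ hLam
  have hc0 : c ≠ 0 := by
    rintro rfl
    rw [zero_pow three_ne_zero] at hc
    exact pow_ne_zero 8 ha0 hc.symm
  obtain ⟨m, hm⟩ : ∃ m, m = a ^ 3 * k * t / c := ⟨_, rfl⟩
  have hm0 : m ≠ 0 := by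
    rw [hm]
    exact div_ne_zero (mul_ne_zero (mul_ne_zero (pow_ne_zero _ ha0) hk0) ht0) hc0
  have hm3 : m ^ 3 = b ^ 2 := by
    have e1 : b ^ 2 = a * k ^ 3 * t ^ 3 := by
      rw [ha, hαt]
      field_simp
    have e2 : m ^ 3 * c ^ 3 = (a ^ 3 * k * t) ^ 3 := by
      rw [hm]
      field_simp
    have e3 : m ^ 3 * c ^ 3 = b ^ 2 * c ^ 3 := by
      rw [e2, e1, hc]
      ring
    exact mul_right_cancel₀ (pow_ne_zero 3 hc0) e3
  refine ⟨b / m, ?_⟩
  rw [div_pow, hm3]
  field_simp

end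

end JD
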