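import Pool.Agent.JD.N4
import Pool.Agent.JD.H1

/-!
# [JD-N5] `Sha(E_D / K)[3^∞] = 0`

PROOF. `step`: let `L = AlgebraicClosure KK`; `F / KK` is finite, so there is `i : F →ₐ[KK] L` (`IsAlgClosed.lift`); `Algebra F L := i.toRingHom.toAlgebra`, `IsScalarTower KK F L`, `IsAlgClosure F L` (`L` is algebraically closed, algebraic over `KK` hence over `F`). `c` as in `Step`. `b, s` of `exists_bs` (N3),
`norm_cube`, `locK_of` (N4) for all `w`, `cube_of_loc` (H1): `b` is a cube. `CUD.trivial_of_cube` (CU/C8) for `F, L, 2 * r`: `cF hQ c σ = 0` for all `σ ∈ Gal(L/F)`, so `c (resK σ) = 0` (`toV` is injective). Let `T₀ : L ≃ₐ[KK] L` extend `τ` (`exists_ext`), `T = c T₀`, `KerE T`.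
Let `σ ∈ Gal(L/KK)`, `ρ = algebraMap F L r`; `(σ ρ)² = σ (D) = ρ²`, so `σ ρ = ± ρ`.
`σ ρ = ρ`: `σ` fixes all elements of `F` (`exists_uv`), so it is `resK` of an automorphism of `L/F`: `c σ = 0`, and `ptE σ T = T` (`kerE_fix`): `c σ = ptE σ T - T`.
`σ ρ = -ρ`: `σ₁ = σ T₀⁻¹` fixes `ρ` (`T₀ ρ = -ρ`), `c σ₁ = 0` as before, `σ = σ₁ T₀`, `c σ = c σ₁ + ptE σ₁ (c T₀) = ptE σ₁ T = T` (`kerE_fix`), and `ptE σ T - T = -T - T = -(2 • T) = T` (`kerE_neg`, `kerE_of_phi`: `3 • T = 0`; `o` with `o² + o + 1 = 0` in `L`: the image of an element of `KK`).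
`sha_zero`: `sha_pow` (N1) with `step` and `o`.
An `o : KK` with `o ^ 2 + o + 1 = 0`: `jK CU.om` (`exists_o`).
-/

set_option autoImplicit false

open NumberField IsDedekindDomain
open scoped Classical

namespace JD

open CM27 CF JZ
open CU (la om eE W3)
open CUD (gal_comm alg_comm tau_comm am_ne am_o)

theorem exists_o : (jK om) ^ 2 + jK om + 1 = 0 := by
  rw [← map_pow, ← map_one jK, ← map_add, ← map_add, show om ^ 2 + om + 1 = 0 by decide, map_zero]

section
variable {D : Eis} {F : Type} [Field F] [NumberField F] [Algebra KK F] {r : F} {τ : F ≃ₐ[KK] F}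


theorem n5_r_ne (hD : D ≠ 0) (hQ : Quad D r τ) : (2 * r : F) ≠ 0 := by
  have hjF : jF F D ≠ 0 := fun h0 => hD (jF_inj F (by rw [h0, map_zero]))
  have hr0 : r ≠ 0 := by
    rintro rfl
    apply hjF
    rw [← hQ.sq]
    ring
  exact mul_ne_zero two_ne_zero hr0

/-- the step, for an algebraic closure `L` of `KK` with an embedding of `F` -/
theorem n5_gen {L : Type} [Field L] [Algebra F L] [Algebra KK L] [IsScalarTower KK F L] [IsAlgClosure F L]
    (hD : Cl D) (hQ : Quad D r τ) (hN : NoBad τ)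
    {c : (L ≃ₐ[KK] L) → (ED (algebraMap KK L (jK D))).toAffine.Point} (hc : Coc KK L (jK D) c) (hK : ∀ σ, KerE (c σ))
    (hloc : ∀ v : HeightOneSpectrum (𝓞 KK),
      LocTriv c (v.adicCompletion KK) (AlgebraicClosure (v.adicCompletion KK))) :
    ∃ T : (ED (algebraMap KK L (jK D))).toAffine.Point,
      ∀ σ, c σ = ptE (σ : L →+* L) (gal_comm σ (jK D)) T - T := by
  have hD0 : D ≠ 0 := ne_of_cl hD
  have hL0 : CharZero L := charZero_of_injective_algebraMap (algebraMap F L).injective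
  obtain ⟨b, s, hb, hs, h⟩ := exists_bs (L := L) hD0 hQ exists_o hc hK
  have hcube := norm_cube (L := L) hD0 hQ exists_o hc hK hb hs h
  have hlocK := fun w => locK_of (L := L) hD0 hQ exists_o hc hK hb hs h hloc w
  obtain ⟨g, hg⟩ := cube_of_loc hD hQ hN hb hcube hlocK
  have hoF : (algebraMap KK F (jK om)) ^ 2 + algebraMap KK F (jK om) + 1 = 0 := am_o exists_o
  have h2r : (2 * r : F) ≠ 0 := n5_r_ne hD0 hQ
  have htriv : ∀ σ : L ≃ₐ[F] L, c (resK σ) = 0 := by
    intro σ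
    have h1 := CUD.trivial_of_cube (F := F) (L := L) h2r hoF (cF hQ c) (cF_ker hQ hK) b s hb hs h ⟨g, hg.symm⟩ σ
    have h2 : toV (sqL hQ) twoL (c (resK σ)) = 0 := h1
    exact (toV (sqL hQ) twoL).injective (by rw [h2, map_zero])
  obtain ⟨T₀, hT₀⟩ := exists_ext (L := L) τ
  -- automorphisms fixing the root
  have hfixF : ∀ σ : L ≃ₐ[KK] L, σ (algebraMap F L r) = algebraMap F L r → c σ = 0 := by
    intro σ hσ
    have hc1 : ∀ x : F, σ (algebraMap F L x) = algebraMap F L x := by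
      intro x
      obtain ⟨u, v, rfl⟩ := exists_uv hD0 hQ x
      rw [map_add, map_mul, ← IsScalarTower.algebraMap_apply KK F L, ← IsScalarTower.algebraMap_apply KK F L, map_add,
        map_mul, σ.commutes, σ.commutes, hσ]
    let σ' : L ≃ₐ[F] L := AlgEquiv.ofRingEquiv (f := σ.toRingEquiv) hc1
    have h1 : resK σ' = σ := by
      ext x
      rfl
    rw [← h1]
    exact htriv σ'
  have hrT : T₀ (algebraMap F L r) = -algebraMap F L r := by rw [hT₀, hQ.tau, map_neg]
  have hdL : algebraMap KK L (jK D) ≠ 0 := am_ne fun h0 => hD0 (jK_inj (h0.trans (map_zero jK).symm))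
  have hoL : (algebraMap KK L (jK om)) ^ 2 + algebraMap KK L (jK om) + 1 = 0 := am_o exists_o
  refine ⟨c T₀, fun σ => ?_⟩
  have hsq : (σ (algebraMap F L r)) ^ 2 = (algebraMap F L r) ^ 2 := by
    rw [← map_pow, sqL hQ, σ.commutes]
  rcases sq_eq_sq_iff_eq_or_eq_neg.1 hsq with h1 | h1
  · rw [hfixF σ h1, kerE_fix (sqL hQ) (σ : L →+* L) _ h1 (hK T₀), sub_self]
  · have h2 : (σ * T₀⁻¹) (algebraMap F L r) = algebraMap F L r := by
      have h3 : T₀⁻¹ (algebraMap F L r) = -algebraMap F L r := by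
        have h4 : T₀⁻¹ (T₀ (algebraMap F L r)) = algebraMap F L r := by
          rw [← AlgEquiv.mul_apply, inv_mul_cancel, AlgEquiv.one_apply]
        rw [hrT, map_neg] at h4
        exact neg_eq_iff_eq_neg.1 h4
      rw [AlgEquiv.mul_apply, h3, map_neg, h1, neg_neg]
    have h3 := hfixF _ h2
    have h4 := hc.crossed (σ * T₀⁻¹) T₀
    rw [inv_mul_cancel_right, h3, zero_add, kerE_fix (sqL hQ) ((σ * T₀⁻¹ : L ≃ₐ[KK] L) : L →+* L) _ h2 (hK T₀)] at h4
    rw [h4, kerE_neg (sqL hQ) (σ : L →+* L) _ h1 (hK T₀)]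
    have h5 := kerE_of_phi hdL hoL (hK T₀)
    have h6 : c T₀ - (-c T₀ - c T₀) = 3 • c T₀ := by
      rw [show (3 : ℕ) = 2 + 1 from rfl, add_smul, two_nsmul, one_smul]
      abel
    exact sub_eq_zero.1 (h6.trans h5)

theorem step (hD : Cl D) (hQ : Quad D r τ) (hN : NoBad τ) : Step KK (jK D) := by
  intro c hc hK hloc
  have hfin : Module.Finite KK F := Module.finite_of_finrank_pos (by rw [hQ.fr]; norm_num)
  have halg : Algebra.IsAlgebraic KK F := inferInstance
  let i : F →ₐ[KK] AlgebraicClosure KK := IsAlgClosed.lift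
  let _ : Algebra F (AlgebraicClosure KK) := i.toRingHom.toAlgebra
  have htow : IsScalarTower KK F (AlgebraicClosure KK) := IsScalarTower.of_algebraMap_eq' (by
    ext x
    exact (i.commutes x).symm)
  have hcl : IsAlgClosure F (AlgebraicClosure KK) := ⟨inferInstance, Algebra.IsAlgebraic.tower_top (K := KK) F⟩
  exact n5_gen hD hQ hN hc hK hloc

theorem sha_zero (hD : Cl D) (hQ : Quad D r τ) (hN : NoBad τ) (x : SBSD.Sha (ED (jK D))) (k : ℕ) (h : 3 ^ k • x = 0) :
    x = 0 := by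
  have hD0 : D ≠ 0 := ne_of_cl hD
  refine sha_pow (d := jK D) (o := jK om) ?_ exists_o (step hD hQ hN) x k h
  intro h0
  exact hD0 (jK_inj (h0.trans (map_zero jK).symm))

end

end JD
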