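import Pool.Agent.JD.E9
import Pool.Agent.JD.E7
import Pool.Agent.JD.N5
import Pool.Agent.CUE.A4

/-!
# [JD-E10] the converse: if `E_D(K)` is finite and the Tate–Shafarevich group has no element of order 3 then all elements of `Lam τ` are cubes

PROOF. `cob_of_sha` [E10a] (model: `CUD.cz_mem`, `CUD.cz_trivialOver` (CUE/A3.lean), `CUD.locB_of_sha` (CUE/A4.lean), with `trE` (P2: `trE_map`) in the place of `trP`): `cz σ = (trE d K̄).symm (cE .. σ)` is in `SBSD.cocycles (ED d)` (`coc_cE`, E8; `Coc.loc`, `Coc.crossed`), and in `SBSD.locTrivial (ED d)`: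
 for a field `L ⊇ K` such that `LocSol` holds over `L` for all `ρ'`: let `j : K̄ → L̄` over `K`: `exists_QE` (E9) for `k = L`, `M = L̄`, `d = algebraMap K L d`, `d' = algebraMap K L̄ d`, `ρ = j ρ`, `s = j s`, and `ptE_cE` (E8). Finite places: `hloc`. Infinite places: they are complex (`CUD.isComplex_of_o`, CUE/A4): `v.Completion` is isomorphic to `ℂ`, algebraically closed:
 `d = s₀²` in `v.Completion`, `ρ' = ± s₀`, and `u ± y s₀` is a cube (`CUD.cube_complex`): first alternative of `LocSol` with `g` in the image of `v.Completion`. The class `x` of `cz` has `3 • x = 0` (`3 • cE = 0`: `kerE_of_phi`, N2, `cE_ker`), so it is `0` (`hsha`) and `cz` is a coboundary: apply `trE`.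
`fix_of_cob` [E10b]: `KerE (ptE σ R - R)` for all `σ` (`cE_ker`). `exists_pt` (N4) for `Kv = K`, `M = L`, `d := algebraMap K L d`, `o := algebraMap K L o`: (1) `phiE R = 0`: `KerE R` (`phiE_eq_zero`), so `ptE σ R = R` for `σ ρ = ρ` (`kerE_fix`). (2) `phiE R = (x₀, y₀)` with `x₀, y₀ ∈ K`: `P = (x₀, y₀) ∈ ED d` over `K` (`ED_nonsingular`, injectivity).
 `phiE : ED d → ED d` over `K` is injective: `phiE_eq_zero`, `KerE (some x y)` means `x = 0`, so `y² = d`: contradiction to `hsq`. `ED d` is finite, so it is surjective (`Finite.injective_iff_surjective`): `phiE Q' = P`. `T = R - ptE (algebraMap K L) Q'`: `phiE T = 0` (`phiE_ptE`), `KerE T`; `ptE σ T = T` for `σ ρ = ρ`,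
 `ptE σ (ptE (algebraMap) Q') = ptE (algebraMap) Q'` (`ptE_comp`, `ptE_congr`), so `ptE σ R = R`. So `cE .. σ = 0` and `fE ρ s σ = chi (toV 0) = 1` (`cE_chi`, `CUD.chi_zero`), `σ s / s = 1`, `σ s = s`.
`noBad_of_fin` [E10c]: let `α` with `Lam τ α`, `α = u + y r` (`exists_uv`), `u² - y² D = 1` (`lam_norm`). `L = AlgebraicClosure KK`, `ι : F →ₐ[KK] L` (`IsAlgClosed.lift`, `F / KK` algebraic: `N3a_alg F`), `ρ = ι r`, `s³ = ι α` (`IsAlgClosed.exists_pow_nat_eq`). `2 ρ ≠ 0`. `cob_of_sha` with `hloc` from `locSol_all` (E7).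
 `fix_of_cob` with `hsq`: `not_sq` (Q1). So `s` is fixed by all `σ` with `σ ρ = ρ`, i.e. by the fixing subgroup of `KK(ρ)`: `s ∈ KK(ρ) = IntermediateField.adjoin KK {ρ}` (`InfiniteGalois.fixedField_fixingSubgroup`; `L / KK` is Galois), `KK(ρ) ≤ ι.fieldRange` (`IntermediateField.adjoin_le_iff`), so `s = ι c`, `ι (c³) = ι α`, `c³ = α`.
-/

set_option autoImplicit false

open NumberField IsDedekindDomain
open scoped Classical

namespace JD

open CM27 CF JZ
open CU (la om eE W3)
open CUD (gal_comm alg_comm tau_comm am_ne am_o)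

/-- the cocycle -/
noncomputable def e10a_cz {K : Type} [Field K] [CharZero K] {d : K} {ρ : AlgebraicClosure K}
    (hρ : ρ ^ 2 = algebraMap K (AlgebraicClosure K) d) (h0 : 2 * ρ ≠ 0) (o : K) (s : AlgebraicClosure K) :
    SBSD.AbsGal K → SBSD.Pts (ED d) (AlgebraicClosure K) :=
  fun σ => (trE d (AlgebraicClosure K)).symm
    (cE hρ h0 (algebraMap K (AlgebraicClosure K) o) s (σ : AlgebraicClosure K →+* AlgebraicClosure K))

theorem e10a_mem {K : Type} [Field K] [CharZero K] {d o u y : K} (ho : o ^ 2 + o + 1 = 0)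
    (h1 : u ^ 2 - y ^ 2 * d = 1) {ρ s : AlgebraicClosure K}
    (hρ : ρ ^ 2 = algebraMap K (AlgebraicClosure K) d) (h0 : 2 * ρ ≠ 0)
    (hs : s ^ 3 = algebraMap K (AlgebraicClosure K) u + algebraMap K (AlgebraicClosure K) y * ρ) :
    e10a_cz hρ h0 o s ∈ SBSD.cocycles (ED d) := by
  have hgact : ∀ (σ : AlgebraicClosure K ≃ₐ[K] AlgebraicClosure K)
      (P : SBSD.Pts (ED d) (AlgebraicClosure K)),
      trE d (AlgebraicClosure K) (WeierstrassCurve.Affine.Point.map (W' := ED d) σ.toAlgHom P) =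
        ptE (σ : AlgebraicClosure K →+* AlgebraicClosure K) (gal_comm σ d)
          (trE d (AlgebraicClosure K) P) :=
    fun σ P => trE_map d (AlgebraicClosure K) (AlgebraicClosure K) σ.toAlgHom P
  have hcoc := coc_cE (K := K) (L := AlgebraicClosure K) hρ h0 ho hs h1
  refine ⟨hcoc.loc.comp (trE d (AlgebraicClosure K)).symm, fun σ τ => ?_⟩
  apply (trE d (AlgebraicClosure K)).injective
  rw [map_add, hgact]
  unfold e10a_cz
  rw [AddEquiv.apply_symm_apply, AddEquiv.apply_symm_apply, AddEquiv.apply_symm_apply]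
  exact hcoc.crossed σ τ

theorem e10a_trivialOver {K : Type} [Field K] [CharZero K] {d o u y : K} (hd : d ≠ 0) (ho : o ^ 2 + o + 1 = 0)
    (h1 : u ^ 2 - y ^ 2 * d = 1) {ρ s : AlgebraicClosure K}
    (hρ : ρ ^ 2 = algebraMap K (AlgebraicClosure K) d) (h0 : 2 * ρ ≠ 0)
    (hs : s ^ 3 = algebraMap K (AlgebraicClosure K) u + algebraMap K (AlgebraicClosure K) y * ρ)
    (L : Type) [Field L] [Algebra K L]
    (h : ∀ ρ' : AlgebraicClosure L, ρ' ^ 2 = algebraMap L (AlgebraicClosure L) (algebraMap K L d) →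
      LocSol (algebraMap K L d) ρ' (algebraMap L (AlgebraicClosure L) (algebraMap K L u) +
        algebraMap L (AlgebraicClosure L) (algebraMap K L y) * ρ')) :
    SBSD.TrivialOver (ED d) L (e10a_cz hρ h0 o s) := by
  intro j
  have hCL : CharZero L := charZero_of_injective_algebraMap (algebraMap K L).injective
  have hCΩ : CharZero (AlgebraicClosure L) :=
    charZero_of_injective_algebraMap (algebraMap L (AlgebraicClosure L)).injective
  have hCK : CharZero (AlgebraicClosure K) :=
    charZero_of_injective_algebraMap (algebraMap K (AlgebraicClosure K)).injective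
  have htow : ∀ z : K, algebraMap L (AlgebraicClosure L) (algebraMap K L z) = algebraMap K (AlgebraicClosure L) z :=
    fun z => (IsScalarTower.algebraMap_apply K L (AlgebraicClosure L) z).symm
  have hρ' : (j ρ) ^ 2 = algebraMap K (AlgebraicClosure L) d := by
    rw [← map_pow, hρ, j.commutes]
  have h0' : 2 * j ρ ≠ 0 := by
    have h2 : j (2 * ρ) = 2 * j ρ := by rw [map_mul, map_ofNat]
    rw [← h2]
    exact (map_ne_zero_iff j (RingHom.injective (j : AlgebraicClosure K →+* AlgebraicClosure L))).2 h0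
  have hs' : (j s) ^ 3 = algebraMap L (AlgebraicClosure L) (algebraMap K L u) +
      algebraMap L (AlgebraicClosure L) (algebraMap K L y) * j ρ := by
    rw [← map_pow, hs, map_add, map_mul, j.commutes, j.commutes, htow, htow]
  have h1' : (algebraMap K L u) ^ 2 - (algebraMap K L y) ^ 2 * algebraMap K L d = 1 := by
    rw [← map_pow, ← map_pow, ← map_mul, ← map_sub, h1, map_one]
  have hd' : algebraMap K L d ≠ 0 := fun h2 => hd ((map_eq_zero _).1 h2)
  have hoL : algebraMap L (AlgebraicClosure L) (algebraMap K L o) = algebraMap K (AlgebraicClosure L) o := htow o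
  obtain ⟨Q₀, hQ₀⟩ := exists_QE (k := L) (M := AlgebraicClosure L) (d := algebraMap K L d)
    (o := algebraMap K L o) (u := algebraMap K L u) (y := algebraMap K L y) (htow d) hd' (am_o ho) hρ' h0' hs' h1'
    (h (j ρ) (by rw [hρ', htow]))
  refine ⟨(trE d (AlgebraicClosure L)).symm Q₀, fun σ τ hστ => ?_⟩
  apply (trE d (AlgebraicClosure L)).injective
  rw [map_sub, trE_map d _ _ j,
    trE_map d _ _ (σ.toAlgHom.restrictScalars K), AddEquiv.apply_symm_apply]
  have h3 : trE d (AlgebraicClosure K) (e10a_cz hρ h0 o s τ) =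
      cE hρ h0 (algebraMap K (AlgebraicClosure K) o) s (τ : AlgebraicClosure K →+* AlgebraicClosure K) :=
    AddEquiv.apply_symm_apply _ _
  have h2 := hQ₀ σ ((σ.toAlgHom.restrictScalars K : AlgebraicClosure L →ₐ[K] AlgebraicClosure L) :
    AlgebraicClosure L →+* AlgebraicClosure L) (fun x => rfl)
    (alg_comm (σ.toAlgHom.restrictScalars K) d)
  rw [hoL] at h2
  rw [h3, ← h2]
  exact ptE_cE hρ h0 (j : AlgebraicClosure K →+* AlgebraicClosure L) hρ' h0' (alg_comm j d) rfl (alg_comm j o) rfl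
    (fun x => hστ x)

/-- over the completion at an infinite place -/
theorem e10a_inf {K : Type} [Field K] [NumberField K] {d o : K} (u y : K) (ho : o ^ 2 + o + 1 = 0)
    (v : InfinitePlace K) (ρ' : AlgebraicClosure v.Completion)
    (hρ' : ρ' ^ 2 = algebraMap v.Completion (AlgebraicClosure v.Completion) (algebraMap K v.Completion d)) :
    LocSol (algebraMap K v.Completion d) ρ'
      (algebraMap v.Completion (AlgebraicClosure v.Completion) (algebraMap K v.Completion u) +
        algebraMap v.Completion (AlgebraicClosure v.Completion) (algebraMap K v.Completion y) * ρ') := by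
  have hv := CUD.isComplex_of_o ho v
  obtain ⟨t, ht⟩ : ∃ t : v.Completion, t ^ 2 = algebraMap K v.Completion d := by
    obtain ⟨w, hw⟩ := IsAlgClosed.exists_pow_nat_eq
      (InfinitePlace.Completion.ringEquivComplexOfIsComplex hv (algebraMap K v.Completion d)) (n := 2) (by norm_num)
    refine ⟨(InfinitePlace.Completion.ringEquivComplexOfIsComplex hv).symm w, ?_⟩
    apply (InfinitePlace.Completion.ringEquivComplexOfIsComplex hv).injective
    rw [map_pow, RingEquiv.apply_symm_apply, hw]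
  obtain ⟨t', ht'⟩ : ∃ t' : v.Completion, algebraMap v.Completion (AlgebraicClosure v.Completion) t' = ρ' := by
    rw [← ht, map_pow] at hρ'
    rcases sq_eq_sq_iff_eq_or_eq_neg.1 hρ' with h | h
    · exact ⟨t, h.symm⟩
    · exact ⟨-t, by rw [map_neg, h]⟩
  obtain ⟨g, hg⟩ := CUD.cube_complex v hv (algebraMap K v.Completion u + algebraMap K v.Completion y * t')
  left
  refine ⟨algebraMap v.Completion _ g, algebraMap_mem _ g, ?_⟩
  rw [← map_pow, ← hg, map_add, map_mul, ht']

/-- [E10a] -/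
theorem cob_of_sha {K : Type} [Field K] [NumberField K] {d o u y : K} (hd : d ≠ 0) (ho : o ^ 2 + o + 1 = 0)
    (h1 : u ^ 2 - y ^ 2 * d = 1) (hsha : ∀ x : SBSD.Sha (ED d), 3 • x = 0 → x = 0) {ρ s : AlgebraicClosure K}
    (hρ : ρ ^ 2 = algebraMap K (AlgebraicClosure K) d) (h0 : 2 * ρ ≠ 0)
    (hs : s ^ 3 = algebraMap K (AlgebraicClosure K) u + algebraMap K (AlgebraicClosure K) y * ρ)
    (hloc : ∀ (v : HeightOneSpectrum (𝓞 K)) (ρ' : AlgebraicClosure (v.adicCompletion K)),
      ρ' ^ 2 = algebraMap (v.adicCompletion K) (AlgebraicClosure (v.adicCompletion K))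
        (algebraMap K (v.adicCompletion K) d) →
      LocSol (algebraMap K (v.adicCompletion K) d) ρ'
        (algebraMap (v.adicCompletion K) (AlgebraicClosure (v.adicCompletion K)) (algebraMap K (v.adicCompletion K) u) +
          algebraMap (v.adicCompletion K) (AlgebraicClosure (v.adicCompletion K))
            (algebraMap K (v.adicCompletion K) y) * ρ')) :
    ∃ R : (ED (algebraMap K (AlgebraicClosure K) d)).toAffine.Point,
      ∀ σ : AlgebraicClosure K ≃ₐ[K] AlgebraicClosure K,
        cE hρ h0 (algebraMap K (AlgebraicClosure K) o) s (σ : AlgebraicClosure K →+* AlgebraicClosure K) =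
          ptE (σ : AlgebraicClosure K →+* AlgebraicClosure K) (gal_comm σ d) R - R := by
  have hCK : CharZero (AlgebraicClosure K) :=
    charZero_of_injective_algebraMap (algebraMap K (AlgebraicClosure K)).injective
  have hc : e10a_cz hρ h0 o s ∈ SBSD.locTrivial (ED d) := by
    refine ⟨e10a_mem ho h1 hρ h0 hs, fun v => e10a_trivialOver hd ho h1 hρ h0 hs _ (hloc v), fun v => ?_⟩
    exact e10a_trivialOver hd ho h1 hρ h0 hs _ (e10a_inf u y ho v)
  let x : SBSD.Sha (ED d) := QuotientAddGroup.mk ⟨e10a_cz hρ h0 o s, hc⟩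
  have h2 : 3 • x = 0 := by
    have h3 : 3 • (⟨e10a_cz hρ h0 o s, hc⟩ : SBSD.locTrivial (ED d)) = 0 := by
      apply Subtype.ext
      funext σ
      change 3 • (trE d (AlgebraicClosure K)).symm
        (cE hρ h0 (algebraMap K (AlgebraicClosure K) o) s (σ : AlgebraicClosure K →+* AlgebraicClosure K)) = 0
      rw [← map_nsmul, kerE_of_phi (am_ne hd) (am_o ho) (cE_ker hρ h0), map_zero]
    change QuotientAddGroup.mk (3 • (⟨e10a_cz hρ h0 o s, hc⟩ : SBSD.locTrivial (ED d))) = _
    rw [h3]
    rfl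
  have h5 := (QuotientAddGroup.eq_zero_iff _).1 (hsha x h2)
  obtain ⟨P, hP⟩ := AddSubgroup.mem_addSubgroupOf.1 h5
  refine ⟨trE d (AlgebraicClosure K) P, fun σ => ?_⟩
  have h6 := congrArg (trE d (AlgebraicClosure K)) (hP σ)
  change trE d (AlgebraicClosure K) (e10a_cz hρ h0 o s σ) = _ at h6
  unfold e10a_cz at h6
  rw [AddEquiv.apply_symm_apply, map_sub, trE_map d _ _ σ.toAlgHom P] at h6
  exact h6

/-- [E10b] -/
theorem fix_of_cob {K L : Type} [Field K] [CharZero K] [Field L] [CharZero L] [Algebra K L] [IsAlgClosure K L]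
    {d o u y : K} (hd : d ≠ 0) (ho : o ^ 2 + o + 1 = 0) (hsq : ∀ x : K, x ^ 2 ≠ d) (h1 : u ^ 2 - y ^ 2 * d = 1)
    (hfin : Finite (ED d).toAffine.Point) {ρ s : L} (hρ : ρ ^ 2 = algebraMap K L d) (h0 : 2 * ρ ≠ 0)
    (hs : s ^ 3 = algebraMap K L u + algebraMap K L y * ρ) (R : (ED (algebraMap K L d)).toAffine.Point)
    (hR : ∀ σ : L ≃ₐ[K] L, cE hρ h0 (algebraMap K L o) s (σ : L →+* L) = ptE (σ : L →+* L) (gal_comm σ d) R - R)
    (σ : L ≃ₐ[K] L) (hσ : σ ρ = ρ) : σ s = s := by
  have hdL : algebraMap K L d ≠ 0 := am_ne hd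
  have hoL : (algebraMap K L o) ^ 2 + algebraMap K L o + 1 = 0 := am_o ho
  have hKer : ∀ τ : L ≃ₐ[K] L, KerE (ptE (τ : L →+* L) (gal_comm τ d) R - R) := by
    intro τ
    rw [← hR τ]
    exact cE_ker hρ h0
  have key : ptE (σ : L →+* L) (gal_comm σ d) R = R := by
    rcases exists_pt (Kv := K) (M := L) hdL hoL (fun τ => gal_comm τ d) (fun τ => gal_comm τ o) R hKer with
      hz | ⟨x₀, y₀, hns, hP⟩
    · exact kerE_fix hρ (σ : L →+* L) (gal_comm σ d) hσ ((phiE_eq_zero hdL hoL R).1 hz)
    · have heq : y₀ ^ 2 = x₀ ^ 3 + d := by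
        have h2 := (ED_nonsingular two_ne_zero three_ne_zero hdL _ _).1 hns
        rw [← map_pow, ← map_pow, ← map_add] at h2
        exact (algebraMap K L).injective h2
      have hns' : (ED d).toAffine.Nonsingular x₀ y₀ :=
        (ED_nonsingular two_ne_zero three_ne_zero hd _ _).2 heq
      have hker0 : ∀ P : (ED d).toAffine.Point, phiE ho P = 0 → P = 0 := by
        intro P h2
        have h3 := (phiE_eq_zero hd ho P).1 h2
        cases P with
        | zero => rfl
        | some x y hxy =>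
          exfalso
          have hx : x = 0 := h3
          subst hx
          have heq : y ^ 2 = 0 ^ 3 + d := (ED_equation d 0 y).1 hxy.1
          exact hsq y (by linear_combination heq)
      have hinj : Function.Injective (phiE (d := d) ho) := by
        intro P Q hPQ
        have h2 : phiE ho (P - Q) = 0 := by rw [phiE_sub, hPQ, sub_self]
        exact sub_eq_zero.1 (hker0 _ h2)
      obtain ⟨Q', hQ'⟩ := (Finite.injective_iff_surjective.1 hinj) (.some x₀ y₀ hns')
      have hT0 : phiE hoL (R - ptE (algebraMap K L) rfl Q') = 0 := by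
        rw [phiE_sub, phiE_ptE ho (algebraMap K L) rfl hoL rfl, hQ', hP, sub_eq_zero]
        rfl
      have hT := (phiE_eq_zero hdL hoL _).1 hT0
      have h3 := kerE_fix hρ (σ : L →+* L) (gal_comm σ d) hσ hT
      rw [ptE_sub] at h3
      have h4 : ptE (σ : L →+* L) (gal_comm σ d) (ptE (algebraMap K L) rfl Q') = ptE (algebraMap K L) rfl Q' := by
        rw [ptE_comp]
        refine ptE_congr ?_ _ _ Q'
        ext z
        exact σ.commutes z
      rw [h4] at h3
      exact sub_left_injective h3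
  have hc : cE hρ h0 (algebraMap K L o) s (σ : L →+* L) = 0 := by
    rw [hR σ, key, sub_self]
  have hFx : Fx (algebraMap K L d) (algebraMap K L o) (algebraMap K L u) (algebraMap K L y) (σ : L →+* L) :=
    ⟨gal_comm σ d, gal_comm σ o, gal_comm σ u, gal_comm σ y⟩
  have h1L : (algebraMap K L u) ^ 2 - (algebraMap K L y) ^ 2 * algebraMap K L d = 1 := by
    rw [← map_pow, ← map_pow, ← map_mul, ← map_sub, h1, map_one]
  have h5 := cE_chi hρ h0 hoL hs h1L hFx
  rw [hc, toV_zero, CUD.chi_zero] at h5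
  unfold fE at h5
  rw [if_pos (show (σ : L →+* L) ρ = ρ from hσ)] at h5
  have hs0 : s ≠ 0 := by
    rintro rfl
    have h6 : (algebraMap K L u + algebraMap K L y * ρ) * (algebraMap K L u - algebraMap K L y * ρ) = 1 := by
      linear_combination h1L - (algebraMap K L y) ^ 2 * hρ
    rw [← hs] at h6
    norm_num at h6
  exact (div_eq_one_iff_eq hs0).1 h5.symm

/-- [E10c] -/
theorem noBad_of_fin {D : Eis} {F : Type} [Field F] [NumberField F] [Algebra KK F] {r : F} {τ : F ≃ₐ[KK] F}
    (hD : Cl D) (hQ : Quad D r τ) (hfin : Finite (ED (jK D)).toAffine.Point)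
    (hsha : ∀ x : SBSD.Sha (ED (jK D)), 3 • x = 0 → x = 0) : NoBad τ := by
  intro α hα
  have hD0 : D ≠ 0 := ne_of_cl hD
  have hjD : jK D ≠ 0 := fun h => hD0 (jK_inj (h.trans (map_zero jK).symm))
  obtain ⟨u, y, huy⟩ := exists_uv hD0 hQ α
  have h1 := lam_norm hQ hα huy
  have halg := N3a_alg F
  have hCK : CharZero (AlgebraicClosure KK) :=
    charZero_of_injective_algebraMap (algebraMap KK (AlgebraicClosure KK)).injective
  let ι : F →ₐ[KK] AlgebraicClosure KK := IsAlgClosed.lift
  have hι : Function.Injective ι := RingHom.injective (ι : F →+* AlgebraicClosure KK)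
  have hρ : (ι r) ^ 2 = algebraMap KK (AlgebraicClosure KK) (jK D) := by
    rw [← map_pow, hQ.sq, jF_apply, ι.commutes]
  have h0 : 2 * ι r ≠ 0 := by
    refine mul_ne_zero two_ne_zero ?_
    exact (map_ne_zero_iff ι hι).2 (r_ne hD0 hQ)
  obtain ⟨s, hs⟩ := IsAlgClosed.exists_pow_nat_eq (ι α) (n := 3) (by norm_num)
  have hs' : s ^ 3 = algebraMap KK (AlgebraicClosure KK) u + algebraMap KK (AlgebraicClosure KK) y * ι r := by
    rw [hs, huy, map_add, map_mul, ι.commutes, ι.commutes]
  obtain ⟨R, hR⟩ := cob_of_sha hjD exists_o h1 hsha hρ h0 hs' (fun v ρ' hρ' => locSol_all hD hQ hα huy v hρ')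
  have hfix := fix_of_cob hjD exists_o (not_sq hD.2.2) h1 hfin hρ h0 hs' R hR
  have hmem : s ∈ IntermediateField.adjoin KK {ι r} := by
    rw [← InfiniteGalois.fixedField_fixingSubgroup (IntermediateField.adjoin KK {ι r}),
      IntermediateField.mem_fixedField_iff]
    intro σ hσ
    refine hfix σ ?_
    rw [IntermediateField.mem_fixingSubgroup_iff] at hσ
    exact hσ _ (IntermediateField.mem_adjoin_simple_self KK (ι r))
  have hle : IntermediateField.adjoin KK {ι r} ≤ ι.fieldRange := by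
    rw [IntermediateField.adjoin_le_iff]
    rintro _ rfl
    exact ⟨r, rfl⟩
  obtain ⟨c, hc⟩ := hle hmem
  refine ⟨c, hι ?_⟩
  rw [map_pow, ← hs]
  exact congrArg (fun z => z ^ 3) hc

end JD
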