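import Pool.Agent.JD.C2

/-!
# [JD-C3] `3 ∤ h(F)` and a unit with `(u / ū)^8 ≢ 1 mod λ²` imply `NoBad`

PROOF. `exists_gamma`: `α ≠ 0` with all `w α` cubes. `(α) = 𝔠³` for a fractional ideal `𝔠` of `𝓞 F` (e.g. write `α = x / n³`·… : multiply `α` by the cube of an integer so that it is integral: `α₁ = d³ α ∈ 𝓞 F` (`d³ α` with `d` a denominator), `(α₁) = ∏ w^(e_w)`, all `e_w` divisible by 3, so `(α₁) = I³`,
`I = ∏ w^(e_w / 3)`; `Ideal.finprod_heightOneSpectrum_factorization`, or UniqueFactorizationMonoid: all multiplicities are divisible by 3). The class of `I` satisfies `x³ = 1` and `3 ∤ h`, so `x = 1` (`orderOf_dvd_card`, coprime): `I = (γ)`, `(α₁) = (γ³)`, `α₁ = v γ³` with a unit `v` (`Ideal.span_singleton_eq_span_singleton`), `α = v (γ/d)³`.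
`noBad_of_uc`: `Lam τ α` (`α ≠ 0`): `α = v γ³`. `q(x) = x / τ x`. `α² = α / τ α = q(v) q(γ)³`. Over `λ`: `w α = 1` (`w (α - 1) < 1`), `w (q v) = 1` (`val_unit`), so `w (q γ)³ = 1`, `w (q γ) = 1`. `PL α`: `α^8 - 1 = (α - 1)(..)`; `PL (α²)`, so `PL (q v) = PL (α² (q(γ)³)⁻¹)` (`PL_mul`, `PL_inv`, `PL_cube`). `unit_cube`: `v = ζ c³`.
`α² = q(ζ) (q(c) q(γ))³` and `q(ζ) ^ m = 1` with `3 ∤ m` (`tors`), so `q(ζ)` is a cube (`1 = a m + 3 b`: `q(ζ) = (q(ζ)^b)³`, integer exponents). So `α²` is a cube, `α = α³ / α²` is a cube.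
`PL_of_int`: (for the converse) if `u` is a unit and `PL (q u)` then `((q u)^8 - 1)/3` is integral: all valuations are `≤ 1`: over `λ`: `w 3 = (w la)²` (`CU.three_eq`); otherwise `w (jF la) = 1`, `w 3 = 1`, `w (q u) = 1` (`HeightOneSpectrum.mem_integers_of_valuation_le_one`).
-/

set_option autoImplicit false

open NumberField IsDedekindDomain
open scoped Classical

namespace JD

open CM27 CF JZ
open CU (la om eE)

section
variable {D : Eis} {F : Type} [Field F] [NumberField F] [Algebra KK F] {r : F} {τ : F ≃ₐ[KK] F}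

/-- a nonzero ideal all of whose multiplicities are divisible by `3` is a cube -/
theorem c3a_cube {R : Type} [CommRing R] [IsDedekindDomain R] {J : Ideal R} (hJ : J ≠ 0)
    (h : ∀ w : HeightOneSpectrum R, 3 ∣ (Associates.mk w.asIdeal).count (Associates.mk J).factors) :
    ∃ I : Ideal R, J = I ^ 3 := by
  have h1 := Ideal.finprod_heightOneSpectrum_factorization hJ
  have h2 := Ideal.hasFiniteMulSupport hJ
  refine ⟨∏ᶠ v : HeightOneSpectrum R, v.asIdeal ^
    ((Associates.mk v.asIdeal).count (Associates.mk J).factors / 3), ?_⟩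
  rw [finprod_pow]
  · conv_lhs => rw [← h1]
    apply finprod_congr
    intro v
    unfold HeightOneSpectrum.maxPowDividing
    rw [← pow_mul, Nat.div_mul_cancel (h v)]
  · refine Set.Finite.subset h2 ?_
    intro v hv
    rw [Function.mem_mulSupport] at hv ⊢
    intro h3
    apply hv
    unfold HeightOneSpectrum.maxPowDividing at h3
    have h4 : (Associates.mk v.asIdeal).count (Associates.mk J).factors = 0 := by
      by_contra h5
      have h6 : v.asIdeal ∣ 1 := by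
        rw [← h3]
        exact dvd_pow_self _ h5
      exact v.isPrime.ne_top (Ideal.isUnit_iff.1 (isUnit_of_dvd_one h6))
    rw [h4]
    simp

theorem exists_gamma (F : Type) [Field F] [NumberField F] (h3 : ¬ 3 ∣ classNumber F) {α : F} (hα : α ≠ 0)
    (h : ∀ w : HeightOneSpectrum (𝓞 F), ∃ g : WithZero (Multiplicative ℤ), w.valuation F α = g ^ 3) :
    ∃ (v : (𝓞 F)ˣ) (γ : F), α = (v : F) * γ ^ 3 := by
  obtain ⟨a, d, hd, hαad⟩ := IsFractionRing.div_surjective (A := 𝓞 F) α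
  have hd0 : (d : 𝓞 F) ≠ 0 := nonZeroDivisors.ne_zero hd
  have hdF : algebraMap (𝓞 F) F d ≠ 0 := by
    rw [Ne, map_eq_zero_iff _ (IsFractionRing.injective (𝓞 F) F)]
    exact hd0
  set b : 𝓞 F := a * d ^ 2 with hb
  have hbα : algebraMap (𝓞 F) F b = (algebraMap (𝓞 F) F d) ^ 3 * α := by
    rw [hb, map_mul, map_pow, ← hαad]
    field_simp
  have hb0 : b ≠ 0 := by
    intro h0
    rw [h0, map_zero] at hbα
    exact mul_ne_zero (pow_ne_zero 3 hdF) hα hbα.symm
  have hspan0 : (Ideal.span {b} : Ideal (𝓞 F)) ≠ 0 := by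
    rw [Ne, Ideal.zero_eq_bot, Ideal.span_singleton_eq_bot]
    exact hb0
  obtain ⟨I, hI⟩ := c3a_cube hspan0 (by
    intro w
    obtain ⟨g, hg⟩ := h w
    have h1 : w.valuation F (algebraMap (𝓞 F) F b) = (w.valuation F (algebraMap (𝓞 F) F d) * g) ^ 3 := by
      rw [hbα, map_mul, map_pow, hg, mul_pow]
    rw [HeightOneSpectrum.valuation_of_algebraMap, HeightOneSpectrum.intValuation_if_neg w hb0] at h1
    set c := (Associates.mk w.asIdeal).count (Associates.mk (Ideal.span {b} : Ideal (𝓞 F))).factors with hc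
    set y := w.valuation F (algebraMap (𝓞 F) F d) * g with hy
    have hy0 : y ≠ 0 := by
      intro h2
      rw [h2, zero_pow (by norm_num)] at h1
      exact WithZero.exp_ne_zero h1
    obtain ⟨k, hk⟩ : ∃ k : ℤ, y = WithZero.exp k := ⟨WithZero.log y, (WithZero.exp_log hy0).symm⟩
    rw [hk, ← WithZero.exp_nsmul, WithZero.exp_inj] at h1
    have h3 : (c : ℤ) = 3 * (-k) := by
      rw [nsmul_eq_mul] at h1
      push_cast at h1
      linarith
    exact_mod_cast (Dvd.intro _ h3.symm : (3 : ℤ) ∣ c))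
  have hI0 : I ≠ 0 := by
    rintro rfl
    rw [zero_pow (by norm_num)] at hI
    exact hspan0 hI
  have hI' : I ∈ nonZeroDivisors (Ideal (𝓞 F)) := mem_nonZeroDivisors_of_ne_zero hI0
  have hcl3 : (ClassGroup.mk0 (⟨I, hI'⟩ : nonZeroDivisors (Ideal (𝓞 F)))) ^ 3 = 1 := by
    rw [← map_pow, ClassGroup.mk0_eq_one_iff (SetLike.coe_mem _)]
    have h1 : ((⟨I, hI'⟩ ^ 3 : nonZeroDivisors (Ideal (𝓞 F))) : Ideal (𝓞 F)) = Ideal.span {b} := by
      rw [hI]; rfl
    rw [h1]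
    exact ⟨⟨b, rfl⟩⟩
  have hcl : ClassGroup.mk0 (⟨I, hI'⟩ : nonZeroDivisors (Ideal (𝓞 F))) = 1 := by
    rw [← orderOf_eq_one_iff]
    have h1 : orderOf (ClassGroup.mk0 (⟨I, hI'⟩ : nonZeroDivisors (Ideal (𝓞 F)))) ∣ 3 :=
      orderOf_dvd_of_pow_eq_one hcl3
    have h2 : orderOf (ClassGroup.mk0 (⟨I, hI'⟩ : nonZeroDivisors (Ideal (𝓞 F)))) ∣ classNumber F :=
      orderOf_dvd_card
    rcases (Nat.dvd_prime Nat.prime_three).1 h1 with h4 | h4
    · exact h4
    · rw [h4] at h2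
      exact absurd h2 h3
  rw [ClassGroup.mk0_eq_one_iff hI'] at hcl
  obtain ⟨γ₁, hγ⟩ := hcl.principal
  change I = Ideal.span {γ₁} at hγ
  rw [hγ, Ideal.span_singleton_pow, Ideal.span_singleton_eq_span_singleton] at hI
  obtain ⟨u, hu⟩ := hI.symm
  refine ⟨u, algebraMap (𝓞 F) F γ₁ / algebraMap (𝓞 F) F d, ?_⟩
  have h5 : algebraMap (𝓞 F) F b = algebraMap (𝓞 F) F γ₁ ^ 3 * algebraMap (𝓞 F) F (u : 𝓞 F) := by
    rw [← hu, map_mul, map_pow]
  rw [hbα] at h5
  have h6 : α = algebraMap (𝓞 F) F γ₁ ^ 3 * algebraMap (𝓞 F) F (u : 𝓞 F) / (algebraMap (𝓞 F) F d) ^ 3 := by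
    rw [← h5]
    field_simp
  rw [h6]
  change _ = algebraMap (𝓞 F) F (u : 𝓞 F) * _
  rw [div_pow]
  ring

theorem c3b_cube_of_tors {z : F} {m : ℕ} (hm3 : ¬ 3 ∣ m) (hz : z ^ m = 1) (hz0 : z ≠ 0) :
    ∃ y : F, y ^ 3 = z := by
  have hco : IsCoprime (m : ℤ) 3 := by
    have h1 : Nat.Coprime m 3 := by
      rw [Nat.coprime_comm]
      exact (Nat.Prime.coprime_iff_not_dvd Nat.prime_three).2 hm3
    exact_mod_cast Nat.isCoprime_iff_coprime.2 h1
  obtain ⟨x, y, hxy⟩ := hco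
  refine ⟨z ^ y, ?_⟩
  have h2 : z ^ (x * (m : ℤ) + y * 3) = z := by rw [hxy, zpow_one]
  rw [zpow_add₀ hz0, mul_comm x, zpow_mul, zpow_natCast, hz, one_zpow, one_mul, zpow_mul] at h2
  exact_mod_cast h2

theorem c3b_one_of {w : HeightOneSpectrum (𝓞 F)} {a : F} (h : w.valuation F (a - 1) < 1) :
    w.valuation F a = 1 := by
  have h1 : w.valuation F (a - 1 + 1) = max (w.valuation F (a - 1)) (w.valuation F 1) := by
    apply Valuation.map_add_of_distinct_val
    rw [map_one]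
    exact h.ne
  rw [sub_add_cancel, map_one, max_eq_right h.le] at h1
  exact h1

theorem noBad_of_uc (hD : Cl D) (hQ : Quad D r τ) (h3 : ¬ 3 ∣ classNumber F)
    (hu : ∃ u : (𝓞 F)ˣ, ¬ PL ((u : F) / τ (u : F))) : NoBad τ := by
  obtain ⟨u, hu⟩ := hu
  have hD0 : D ≠ 0 := ne_of_cl hD
  rintro a ⟨hN, hcub, hPL⟩
  have ha0 : a ≠ 0 := by
    rintro rfl
    rw [zero_mul] at hN
    exact zero_ne_one hN
  have hta0 : τ a ≠ 0 := by
    intro h
    rw [h, mul_zero] at hN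
    exact zero_ne_one hN
  obtain ⟨v, γ, hv⟩ := exists_gamma F h3 ha0 hcub
  have hv0 : (v : F) ≠ 0 := fun h => ha0 (by rw [hv, h, zero_mul])
  have hγ0 : γ ≠ 0 := fun h => ha0 (by rw [hv, h]; ring)
  have hτv0 : τ (v : F) ≠ 0 := fun h => hv0 ((map_eq_zero τ).1 h)
  have hτγ0 : τ γ ≠ 0 := fun h => hγ0 ((map_eq_zero τ).1 h)
  -- a ^ 2 = q v * q γ ^ 3
  have hsq : a ^ 2 = (v : F) / τ (v : F) * (γ / τ γ) ^ 3 := by
    have h1 : a ^ 2 = a / τ a := by
      rw [eq_div_iff hta0]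
      linear_combination a * hN
    rw [h1, hv, map_mul, map_pow]
    field_simp
  -- valuations over `λ`
  have hwl : ∀ w : HeightOneSpectrum (𝓞 F), OvLa w → w.valuation F (jF F la) ^ 2 < 1 := by
    intro w hw
    exact pow_lt_one₀ zero_le hw two_ne_zero
  have hwa : ∀ w : HeightOneSpectrum (𝓞 F), OvLa w → w.valuation F a = 1 := fun w hw =>
    c3b_one_of (lt_of_le_of_lt (hPL w hw) (hwl w hw))
  have hwv : ∀ w : HeightOneSpectrum (𝓞 F), w.valuation F ((v : F) / τ (v : F)) = 1 := by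
    intro w
    obtain ⟨h1, h2⟩ := val_unit (τ := τ) v w
    rw [map_div₀, h1, h2, div_one]
  have hwγ : ∀ w : HeightOneSpectrum (𝓞 F), OvLa w → w.valuation F (γ / τ γ) = 1 := by
    intro w hw
    have h1 := congrArg (w.valuation F) hsq
    rw [map_pow, hwa w hw, one_pow, map_mul, hwv w, one_mul, map_pow] at h1
    exact (pow_eq_one_iff.1 h1.symm).resolve_right (by norm_num)
  have hPLa : PL a := by
    intro w hw
    have h1 : a ^ 8 - 1 = (a - 1) * (∑ i ∈ Finset.range 8, a ^ i) := by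
      rw [mul_comm]
      exact (geom_sum_mul a 8).symm
    rw [h1, map_mul]
    have h2 : w.valuation F (∑ i ∈ Finset.range 8, a ^ i) ≤ 1 := by
      apply Valuation.map_sum_le
      intro i _
      rw [map_pow, hwa w hw, one_pow]
    calc w.valuation F (a - 1) * w.valuation F (∑ i ∈ Finset.range 8, a ^ i)
        ≤ w.valuation F (jF F la) ^ 2 * 1 := mul_le_mul' (hPL w hw) h2
      _ = _ := mul_one _
  have hPLa2 : PL (a ^ 2) := by
    rw [pow_two]
    exact PL_mul hPLa hPLa hwa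
  have hPLγ : PL ((γ / τ γ) ^ 3) := PL_cube hD hQ hwγ
  have hwγ3 : ∀ w : HeightOneSpectrum (𝓞 F), OvLa w → w.valuation F ((γ / τ γ) ^ 3) = 1 := by
    intro w hw
    rw [map_pow, hwγ w hw, one_pow]
  have hPLv : PL ((v : F) / τ (v : F)) := by
    have h1 : (v : F) / τ (v : F) = a ^ 2 * ((γ / τ γ) ^ 3)⁻¹ := by
      rw [hsq]
      field_simp
    rw [h1]
    refine PL_mul hPLa2 (PL_inv hPLγ hwγ3) ?_
    intro w hw
    rw [map_inv₀, hwγ3 w hw, inv_one]
  obtain ⟨ζ, c, m, hm, hζ, hvc⟩ := unit_cube hD hQ hu hPLv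
  have hζ' : ((ζ : 𝓞 F) : F) ^ m = 1 := by
    have h1 := congrArg (fun x : (𝓞 F)ˣ => ((x : 𝓞 F) : F)) hζ
    simpa using h1
  obtain ⟨m', hm', hm3, hz⟩ := tors hD0 hQ hm hζ'
  have hζ0 : ((ζ : 𝓞 F) : F) ≠ 0 := by
    intro h
    rw [h, zero_pow hm.ne'] at hζ'
    exact zero_ne_one hζ'
  have hτζ0 : τ ((ζ : 𝓞 F) : F) ≠ 0 := fun h => hζ0 ((map_eq_zero τ).1 h)
  obtain ⟨y, hy⟩ := c3b_cube_of_tors hm3 hz (div_ne_zero hζ0 hτζ0)
  have hvc' : (v : F) = ((ζ : 𝓞 F) : F) * ((c : 𝓞 F) : F) ^ 3 := by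
    rw [hvc]
    simp
  have hc0 : ((c : 𝓞 F) : F) ≠ 0 := by
    intro h
    apply hv0
    rw [hvc', h]
    ring
  have hτc0 : τ ((c : 𝓞 F) : F) ≠ 0 := fun h => hc0 ((map_eq_zero τ).1 h)
  have hfin : a ^ 2 = (y * (((c : 𝓞 F) : F) / τ ((c : 𝓞 F) : F)) * (γ / τ γ)) ^ 3 := by
    rw [hsq, mul_pow, mul_pow, hy, hvc', map_mul, map_pow]
    field_simp
  set c' : F := y * (((c : 𝓞 F) : F) / τ ((c : 𝓞 F) : F)) * (γ / τ γ) with hc'
  refine ⟨a / c', ?_⟩
  rw [div_pow, ← hfin]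
  field_simp

theorem PL_of_int (u : (𝓞 F)ˣ) (hu : PL ((u : F) / τ (u : F))) :
    ∃ z : 𝓞 F, ((u : F) / τ (u : F)) ^ 8 - 1 = 3 * (z : F) := by
  have h30 : (3 : F) ≠ 0 := by norm_num
  have key : ∀ w : HeightOneSpectrum (𝓞 F),
      w.valuation F ((((u : F) / τ (u : F)) ^ 8 - 1) / 3) ≤ 1 := by
    intro w
    have h3w : w.valuation F (3 : F) = w.valuation F (jF F la) ^ 2 := by
      have h1 : (3 : F) = jF F (-om ^ 2) * jF F la ^ 2 := by
        rw [← map_pow, ← map_mul, ← CU.three_eq, map_ofNat]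
      have h2 : w.valuation F (jF F (-om ^ 2)) = 1 := by
        have h4 : jF F (-om ^ 2) ^ 6 = 1 := by
          rw [← map_pow]
          have h5 : (-om ^ 2) ^ 6 = (1 : Eis) := by
            have := CU.om_cube
            calc (-om ^ 2) ^ 6 = (om ^ 3) ^ 4 := by ring
              _ = 1 := by rw [this, one_pow]
          rw [h5, map_one]
        have h6 := congrArg (w.valuation F) h4
        rw [map_pow, map_one] at h6
        exact (pow_eq_one_iff.1 h6).resolve_right (by norm_num)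
      rw [h1, map_mul, h2, one_mul, map_pow]
    obtain ⟨h1, h2⟩ := val_unit (τ := τ) u w
    have hq : w.valuation F ((u : F) / τ (u : F)) = 1 := by
      rw [map_div₀, h1, h2, div_one]
    rw [map_div₀, h3w]
    by_cases hw : OvLa w
    · exact div_le_one_of_le₀ (hu w hw) zero_le
    · have h4 : w.valuation F (jF F la) = 1 := by
        apply le_antisymm
        · exact q3a_le w (int_jF F la)
        · exact not_lt.1 hw
      rw [h4, one_pow, div_one]
      calc w.valuation F (((u : F) / τ (u : F)) ^ 8 - 1)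
          ≤ max (w.valuation F (((u : F) / τ (u : F)) ^ 8)) (w.valuation F 1) :=
            Valuation.map_sub _ _ _
        _ = 1 := by rw [map_pow, hq, one_pow, map_one, max_self]
  obtain ⟨z, hz⟩ := HeightOneSpectrum.mem_integers_of_valuation_le_one (K := F) _ key
  refine ⟨z, ?_⟩
  have h5 : (z : F) = (((u : F) / τ (u : F)) ^ 8 - 1) / 3 := hz
  rw [h5]
  field_simp

end

end JD
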