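import Pool.Agent.JD.T1
import Pool.Agent.JD.C3

/-!
# [JD-T3] `UC D` implies `NoBad`

PROOF. `letI := algK (KD D) (w_mem D)`, `F = KD D`, `r = ⟨sD D, sD_mem D⟩`. `UC D`: `¬ 3 ∣ classNumber F` and `u₁, u₂ ∈ KK` (complex numbers) with `U = u₁ + u₂ s ≠ 0`, `U` and `U⁻¹` integral and `((U / (u₁ - u₂ s))^8 - 1)/3` not integral. `x = algebraMap KK F u₁ + algebraMap KK F u₂ * r : F` has the complex value `U`, is not `0`, `x` and `x⁻¹` are
integral over `ℤ` (`isIntegral_algebraMap_iff`), so it is (the value of) a unit `u : (𝓞 F)ˣ`; `τ x = u₁ - u₂ r` (`hQ.tau`). If `PL (u / τ u)` then `(u / τ u)^8 - 1 = 3 z` with `z : 𝓞 F` (`PL_of_int`, C3), and `((U / (u₁ - u₂ s))^8 - 1)/3 = z` is integral: contradiction. So `noBad_of_uc` (C3) applies.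
(Compare `uc_of_noForm` in T1.lean: the same translations between `F` and `ℂ`.)
-/

set_option autoImplicit false

open NumberField IsDedekindDomain
open scoped Classical

namespace JD

open CM27 CF JZ
open CU (la om eE)
open JL (KD sD UC)

theorem noBad_of_UC {D : Eis} (hD : Cl D) (h : UC D) : letI := algK (KD D) (w_mem D);
    ∀ τ : KD D ≃ₐ[KK] KD D, Quad D (⟨sD D, sD_mem D⟩ : KD D) τ → NoBad τ := by
  letI := algK (KD D) (w_mem D)
  intro τ hQ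
  obtain ⟨h1, u₁, u₂, hu₁, hu₂, hne, hi, hi', hn⟩ := h
  obtain ⟨x, hx⟩ : ∃ x : KD D, x = algebraMap KK (KD D) ⟨u₁, hu₁⟩ +
    algebraMap KK (KD D) ⟨u₂, hu₂⟩ * ⟨sD D, sD_mem D⟩ := ⟨_, rfl⟩
  have ex : (x : ℂ) = u₁ + u₂ * sD D := by
    rw [hx]
    rfl
  have hτ : τ x = algebraMap KK (KD D) ⟨u₁, hu₁⟩ -
      algebraMap KK (KD D) ⟨u₂, hu₂⟩ * ⟨sD D, sD_mem D⟩ := by
    rw [hx, map_add, map_mul, AlgEquiv.commutes, AlgEquiv.commutes, hQ.tau]
    ring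
  have eτ : ((τ x : KD D) : ℂ) = u₁ - u₂ * sD D := by
    rw [hτ]
    rfl
  have hx0 : x ≠ 0 := by
    intro h0
    apply hne
    rw [← ex, h0]
    rfl
  have hxi : IsIntegral ℤ x := by
    refine (isIntegral_algebraMap_iff (A := KD D) (B := ℂ) (algebraMap (KD D) ℂ).injective).1 ?_
    rw [← ex] at hi
    exact hi
  have hxi' : IsIntegral ℤ x⁻¹ := by
    refine (isIntegral_algebraMap_iff (A := KD D) (B := ℂ) (algebraMap (KD D) ℂ).injective).1 ?_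
    rw [← ex] at hi'
    rw [map_inv₀]
    exact hi'
  let u : (𝓞 (KD D))ˣ := ⟨⟨x, hxi⟩, ⟨x⁻¹, hxi'⟩, RingOfIntegers.ext (mul_inv_cancel₀ hx0),
    RingOfIntegers.ext (inv_mul_cancel₀ hx0)⟩
  refine noBad_of_uc hD hQ h1 ⟨u, fun hPL => ?_⟩
  obtain ⟨z, hz0⟩ := PL_of_int u hPL
  have hz : (x / τ x) ^ 8 - 1 = 3 * (z : KD D) := hz0
  apply hn
  have e4 : (((z : KD D)) : ℂ) = (((u₁ + u₂ * sD D) / (u₁ - u₂ * sD D)) ^ 8 - 1) / 3 := by
    have e5 := congrArg (fun y : KD D => (y : ℂ)) hz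
    push_cast at e5
    rw [ex, eτ] at e5
    rw [e5]
    have h3 : (3 : ℂ) ≠ 0 := by norm_num
    rw [eq_div_iff h3, mul_comm]
    rfl
  rw [← e4]
  exact (RingOfIntegers.isIntegral_coe z).algebraMap (B := ℂ)

end JD
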