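import Pool.Agent.JD.T2
import Pool.Agent.JD.T3
import Pool.Agent.JD.E10
import Pool.Agent.CUE.Defs

/-!
# [JD-T4] the conjecture of Birch and Swinnerton-Dyer modulo `3` for all `D` of the class
-/

set_option autoImplicit false

open NumberField IsDedekindDomain
open scoped Classical ComplexConjugate

namespace JD

open CM27 NAB CF JZ
open CU (la om eE)
open JL (KD sD UC)

/-- the order of the torsion subgroup (`0` if it is infinite) -/
noncomputable def tcard {K : Type} [Field K] (W : WeierstrassCurve K) : ℕ :=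
  Nat.card (AddCommGroup.torsion W.toAffine.Point)

theorem bsd_eq {K : Type} [Field K] [NumberField K] (W : WeierstrassCurve K) (a : ℂ) :
    SBSD2.bsdQuotient W a = a * (√|(discr K : ℝ)| : ℝ) * (tcard W : ℂ) ^ 2 /
      ((SBSD.period W : ℂ) * ((∏ᶠ v : HeightOneSpectrum (𝓞 K), SBSD.tam W v : ℕ) : ℂ)) := rfl

theorem tcard_eq {K : Type} [Field K] (W : WeierstrassCurve K) [Finite W.toAffine.Point] :
    tcard W = Nat.card W.toAffine.Point := CMT.card_tors W

theorem descent_UC {D : Eis} (hD : Cl D) (h : UC D) :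
    Finite (ED (jK D)).toAffine.Point ∧ ¬ 3 ∣ Nat.card (ED (jK D)).toAffine.Point ∧
      ∀ (x : SBSD.Sha (ED (jK D))) (k : ℕ), 3 ^ k • x = 0 → x = 0 := by
  letI := algK (KD D) (w_mem D)
  obtain ⟨τ, hQ⟩ := exists_quad hD
  exact descent hD hQ (noBad_of_UC hD h τ hQ)

/-- The class number of `ℚ(ω, √D)` is prime to `3` and there is a unit `u` with `(u / ū) ^ 8 ≢ 1 mod 3`, if and only if `E_D(K)` is finite and the
Tate–Shafarevich group has no element of order `3`. -/
theorem uc_iff {D : Eis} (hD : Cl D) : UC D ↔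
    (Finite (ED (jK D)).toAffine.Point ∧ ∀ x : SBSD.Sha (ED (jK D)), 3 • x = 0 → x = 0) := by
  constructor
  · intro h
    obtain ⟨h1, -, h3⟩ := descent_UC hD h
    exact ⟨h1, fun x hx => h3 x 1 (by rw [pow_one]; exact hx)⟩
  · rintro ⟨h1, h2⟩
    letI := algK (KD D) (w_mem D)
    obtain ⟨τ, hQ⟩ := exists_quad hD
    exact uc_of_noBad hD τ hQ (noBad_of_fin hD hQ h1 h2)

theorem final_all {D : Eis} (hD : Cl D) (h : UC D) (hL : LVal D) : SBSD3.ThreePartRankZero (ED (jK D)) := by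
  letI := algK (KD D) (w_mem D)
  obtain ⟨τ, hQ⟩ := exists_quad hD
  obtain ⟨Φ, hΦ, hs, q, hq, -, hu⟩ := hL
  obtain ⟨h0, h2⟩ := hu.2 h
  exact final_of hD hQ (noBad_of_UC hD h τ hQ) Φ hΦ hs q hq h0 h2

theorem modThree {D : Eis} (hD : Cl D) (hL : LVal D) : CUE.ModThree (ED (jK D)) := by
  obtain ⟨Φ, hΦ, hs, q, hq, hv, hu⟩ := hL
  obtain ⟨c, hc, hc3, hquot⟩ := quot_eq hD
  have hf : Fact (Nat.Prime 3) := ⟨Nat.prime_three⟩
  have hL1 : Φ 1 * conj (Φ (conj 1)) =
      (((q : ℝ) * ‖emb (4 * D)‖ ^ ((2 : ℝ) / 3) / (144 * ‖emb D‖ ^ 3) : ℝ) : ℂ) * (Om : ℂ) ^ 2 := by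
    rw [map_one]
    exact hq
  set t := tcard (ED (jK D)) with ht
  have hc1 : (c : ℚ) ≠ 0 := by exact_mod_cast hc
  have e3 : padicValRat 3 (36 : ℚ) = 2 := by
    have h := z1_val 1 one_ne_zero 1 1 (by norm_num) (by norm_num) one_ne_zero
    have h36 : ((1 : ℚ) * ((1 : ℕ) : ℚ) ^ 2 / (36 * ((1 : ℕ) : ℚ))) = (36 : ℚ)⁻¹ := by norm_num
    rw [h36, padicValRat.inv, padicValRat.one] at h
    linarith
  have hval : q ≠ 0 → t ≠ 0 → padicValRat 3 (q * (t : ℚ) ^ 2 / (36 * (c : ℚ))) =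
      padicValRat 3 q - 2 + 2 * padicValRat 3 (t : ℚ) := by
    intro h1 h2
    have h2' : (t : ℚ) ≠ 0 := by exact_mod_cast h2
    rw [padicValRat.div (mul_ne_zero h1 (pow_ne_zero _ h2')) (mul_ne_zero (by norm_num) hc1),
      padicValRat.mul h1 (pow_ne_zero _ h2'), padicValRat.mul (by norm_num) hc1, padicValRat.pow, e3,
      CU.z1_padic_nat c hc3]
    push_cast
    ring
  have ht0 : 0 ≤ padicValRat 3 (t : ℚ) := by
    rw [padicValRat.of_nat]
    positivity
  refine ⟨z1_elliptic (ne_of_cl hD), fun s => Φ s * conj (Φ (conj s)), entire_ED hD Φ hΦ hs,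
    q * (t : ℚ) ^ 2 / (36 * (c : ℚ)), ?_, ?_, ?_⟩
  · have h5 := hquot _ q hL1 t
    rw [quot] at h5
    rw [bsd_eq]
    exact h5
  · by_cases h1 : q = 0
    · rw [h1]; simp
    by_cases h2 : t = 0
    · rw [h2]; simp
    rw [hval h1 h2]
    have := hv.resolve_left h1
    linarith
  · rw [← uc_iff hD, ← hu]
    constructor
    · rintro ⟨h1, h2⟩
      have h3 : q ≠ 0 := by
        rintro rfl
        simp at h1
      have h4 : t ≠ 0 := by
        intro h5
        rw [h5] at h1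
        simp at h1
      rw [hval h3 h4] at h2
      have := hv.resolve_left h3
      exact ⟨h3, by linarith⟩
    · intro h
      obtain ⟨hfin, hcard, -⟩ := descent_UC hD (hu.1 h)
      obtain ⟨h1, h2⟩ := h
      have ht3 : ¬ 3 ∣ t := by
        rw [ht, tcard_eq]
        exact hcard
      have h4 : t ≠ 0 := by
        intro h5
        rw [h5] at ht3
        exact ht3 (dvd_zero 3)
      have h4' : (t : ℚ) ≠ 0 := by exact_mod_cast h4
      refine ⟨div_ne_zero (mul_ne_zero h1 (pow_ne_zero _ h4')) (mul_ne_zero (by norm_num) hc1), ?_⟩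
      rw [hval h1 h4, h2, CU.z1_padic_nat t ht3]
      norm_num

end JD
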