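import Pool.Agent.JD.F1
import Pool.Agent.JD.Q5

/-!
# [JD-F3] a basis of `M` adapted to `λ`

PROOF. `α ≡ 1 mod λ²` at the places over `λ`: `w α = 1` and `(α⁻¹ - 1) / λ² = (1 - α) / (α λ²)` has `w ≤ 1` for all `w` over `λ`. `exists_den`: `s, a, b` with `la ∣ s - 1`, `jF s * ((α⁻¹ - 1) / λ²) = jF a + jF b r =: z`, integral: `jF s / α = jF s + jF (la ^ 2) * z`. In
particular `jF s / α` is integral, `(jF s)³ / α = jF (s²) * (jF s / α)` is integral: `InM α (jF s)`. So `jF s = m e₁ + n e₂` (`exists_basis`).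
`m, n` are not both divisible by `la`: otherwise `jF s = jF la * μ` with `InM α μ`, `(jF s)³ / α = (jF la)³ (μ³/α)`, and multiplying by `jF s * α`... precisely `(jF s)³ · (jF s · α)`: apply `τ` to `jF s / α` integral: `jF s * α` is integral (`τ α = α⁻¹`); so
`(jF s)⁴ = (jF la)³ * (μ³/α) * (jF s * α)`, and the integral element `x = (μ³/α)(jF s α)` satisfies `jF (s ^ 4) = jF (la ^ 3) x`; `x = c + d r` (`exists_int`), so `s ^ 4 = la ^ 3 c` (`jr_inj`): `la ∣ s`, contradiction to `la ∣ s - 1`.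
If `la ∣ n`: `n = la n'`, `la ∤ m`: `m ≡ k mod la` with `k = 1` or `-1` (`CU.la_dvd_iff`): `w₁ = e₁`, `w₂ = e₂`: `k s = k m e₁ + k n e₂ = e₁ + la (...) ∈ e₁ + la M` (`k m ≡ k² = 1`), so `w₁ = jF (k s) + jF la * μ` with `InM α μ`.
If `la ∤ n`: `n ≡ k mod la`, `t := k m`: `w₁ = t e₁ + e₂`, `w₂ = e₁` (a basis: `x e₁ + y e₂ = y w₁ + (x - y t) w₂`): `k s = k m e₁ + k n e₂ = t e₁ + e₂ + la (...)`.
-/

set_option autoImplicit false

open NumberField IsDedekindDomain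
open scoped Classical

namespace JD

open CM27 CF JZ
open CU (la om eE)

section
variable {D : Eis} {F : Type} [Field F] [NumberField F] [Algebra KK F] {r : F} {τ : F ≃ₐ[KK] F} {α : F}

theorem f3_unit {n : Eis} (h : ¬ la ∣ n) : ∃ k c : Eis, (k = 1 ∨ k = -1) ∧ k * n = 1 + la * c := by
  have h0 := h
  rw [CU.la_dvd_iff] at h0
  have h2 : (n.re + n.im) % 3 = 1 ∨ (n.re + n.im) % 3 = 2 := by omega
  rcases h2 with h2 | h2
  · have h3 : la ∣ n - 1 := by
      rw [CU.la_dvd_iff]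
      simp only [QuadraticAlgebra.re_sub, QuadraticAlgebra.im_sub, QuadraticAlgebra.re_one,
        QuadraticAlgebra.im_one]
      omega
    obtain ⟨c, hc⟩ := h3
    exact ⟨1, c, Or.inl rfl, by rw [← hc]; ring⟩
  · have h3 : la ∣ n + 1 := by
      rw [CU.la_dvd_iff]
      simp only [QuadraticAlgebra.re_add, QuadraticAlgebra.im_add, QuadraticAlgebra.re_one,
        QuadraticAlgebra.im_one]
      omega
    obtain ⟨c, hc⟩ := h3
    exact ⟨-1, -c, Or.inr rfl, by rw [mul_neg, ← hc]; ring⟩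

theorem f3_comb (hα : α ≠ 0) {e₁ e₂ : F} (h₁ : InM α e₁) (h₂ : InM α e₂) (a b : Eis) :
    InM α (jF F a * e₁ + jF F b * e₂) :=
  inM_add hα (inM_smul (int_jF F a) h₁) (inM_smul (int_jF F b) h₂)

theorem f3_choose (hα : α ≠ 0) {e₁ e₂ : F} (h₁ : InM α e₁) (h₂ : InM α e₂)
    (hb : ∀ x, InM α x → ∃ m n : Eis, x = jF F m * e₁ + jF F n * e₂)
    (hi : ∀ m n : Eis, jF F m * e₁ + jF F n * e₂ = 0 → m = 0 ∧ n = 0) {s m n : Eis}
    (hs : jF F s = jF F m * e₁ + jF F n * e₂) (hmn : ¬ (la ∣ m ∧ la ∣ n)) :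
    ∃ (w₁ w₂ μ : F) (k : Eis), InM α w₁ ∧ InM α w₂ ∧
      (∀ x, InM α x → ∃ m n : Eis, x = jF F m * w₁ + jF F n * w₂) ∧
      (∀ m n : Eis, jF F m * w₁ + jF F n * w₂ = 0 → m = 0 ∧ n = 0) ∧
      InM α μ ∧ (k = 1 ∨ k = -1) ∧ w₁ = jF F (k * s) + jF F la * μ := by
  by_cases hn : la ∣ n
  · obtain ⟨n', rfl⟩ := hn
    have hm : ¬ la ∣ m := fun h => hmn ⟨h, dvd_mul_right _ _⟩
    obtain ⟨k, c, hk, hc⟩ := f3_unit hm
    refine ⟨e₁, e₂, jF F (-c) * e₁ + jF F (-(k * n')) * e₂, k, h₁, h₂, hb, hi,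
      f3_comb hα h₁ h₂ _ _, hk, ?_⟩
    have h3 : jF F k * jF F m = 1 + jF F la * jF F c := by
      rw [← map_mul, hc, map_add, map_one, map_mul]
    rw [map_mul (jF F) k s, hs, map_neg, map_neg, map_mul, map_mul]
    linear_combination -e₁ * h3
  · obtain ⟨k, c, hk, hc⟩ := f3_unit hn
    have hw₁ : InM α (jF F (k * m) * e₁ + jF F 1 * e₂) := f3_comb hα h₁ h₂ _ _
    have hμ : InM α (jF F (-c) * e₂) := inM_smul (int_jF F _) h₂
    refine ⟨jF F (k * m) * e₁ + jF F 1 * e₂, e₁, jF F (-c) * e₂, k, hw₁, h₁, ?_, ?_, hμ, hk, ?_⟩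
    · intro x hx
      obtain ⟨p, q, hpq⟩ := hb x hx
      refine ⟨q, p - q * (k * m), ?_⟩
      rw [hpq, map_sub, map_mul (jF F) q, map_one]
      ring
    · intro p q hpq
      have h3 := hi (p * (k * m) + q) p (by
        rw [← hpq, map_add, map_mul (jF F) p, map_one]
        ring)
      obtain ⟨h4, h5⟩ := h3
      subst h5
      rw [zero_mul, zero_add] at h4
      exact ⟨rfl, h4⟩
    · have h3 : jF F k * jF F n = 1 + jF F la * jF F c := by
        rw [← map_mul, hc, map_add, map_one, map_mul]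
      rw [map_mul (jF F) k s, hs, map_neg, map_mul, map_one]
      linear_combination -e₂ * h3

theorem exists_adapted (hD : Cl D) (hQ : Quad D r τ) (hα : α * τ α = 1)
    (h1 : ∀ w : HeightOneSpectrum (𝓞 F), OvLa w → w.valuation F (α - 1) ≤ w.valuation F (jF F la) ^ 2) :
    ∃ (w₁ w₂ μ z : F) (k s : Eis), InM α w₁ ∧ InM α w₂ ∧
      (∀ x, InM α x → ∃ m n : Eis, x = jF F m * w₁ + jF F n * w₂) ∧
      (∀ m n : Eis, jF F m * w₁ + jF F n * w₂ = 0 → m = 0 ∧ n = 0) ∧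
      InM α μ ∧ IsIntegral ℤ z ∧ (k = 1 ∨ k = -1) ∧ w₁ = jF F (k * s) + jF F la * μ ∧ InM α (jF F s) ∧
      jF F s / α = jF F s + jF F (la ^ 2) * z := by
  have hα0 : α ≠ 0 := left_ne_zero_of_mul_eq_one hα
  have hτ : τ α = α⁻¹ := eq_inv_of_mul_eq_one_right hα
  have hla0 : jF F la ≠ 0 := by
    rw [Ne, ← map_zero (jF F)]
    exact fun h => CU.la_prime.ne_zero (jF_inj F h)
  have hla2 : jF F (la ^ 2) ≠ 0 := by
    rw [map_pow]
    exact pow_ne_zero _ hla0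
  have hz0 : ∀ w : HeightOneSpectrum (𝓞 F), OvLa w →
      w.valuation F ((α⁻¹ - 1) / jF F (la ^ 2)) ≤ 1 := by
    intro w hw
    have hlt : w.valuation F (α - 1) < 1 :=
      lt_of_le_of_lt (h1 w hw) (pow_lt_one₀ zero_le hw two_ne_zero)
    have hwα : w.valuation F α = 1 := by
      have h2 : α = 1 + (α - 1) := by ring
      rw [h2]
      have h3 : w.valuation F (1 + (α - 1)) = w.valuation F 1 := by
        apply Valuation.map_add_eq_of_lt_left
        rw [map_one]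
        exact hlt
      rw [h3, map_one]
    have h4 : α⁻¹ - 1 = -((α - 1) * α⁻¹) := by
      field_simp
      ring
    rw [h4, map_div₀, Valuation.map_neg, map_mul, map_inv₀, hwα, inv_one, mul_one, map_pow, map_pow]
    have hne : w.valuation F (jF F la) ^ 2 ≠ 0 :=
      pow_ne_zero _ ((Valuation.ne_zero_iff _).2 hla0)
    exact div_le_one_of_le₀ (h1 w hw) zero_le
  obtain ⟨s, a, b, hs1, hsz⟩ := exists_den hD hQ hz0
  have hzi : IsIntegral ℤ (jF F a + jF F b * r) :=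
    (int_jF F a).add ((int_jF F b).mul (int_r hQ))
  have e1 : jF F s / α = jF F s + jF F (la ^ 2) * (jF F a + jF F b * r) := by
    rw [← hsz]
    field_simp
    ring
  have hsα : IsIntegral ℤ (jF F s / α) := by
    rw [e1]
    exact (int_jF F s).add ((int_jF F _).mul hzi)
  have hsM : InM α (jF F s) := by
    have h2 : jF F s ^ 3 / α = jF F (s ^ 2) * (jF F s / α) := by
      rw [map_pow]
      ring
    unfold InM
    rw [h2]
    exact (int_jF F _).mul hsα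
  obtain ⟨e₁, e₂, he₁, he₂, hb, hi⟩ := exists_basis hD hQ hα0
  obtain ⟨m, n, hmn⟩ := hb _ hsM
  have hnd : ¬ (la ∣ m ∧ la ∣ n) := by
    rintro ⟨⟨m', rfl⟩, ⟨n', rfl⟩⟩
    have hμ : InM α (jF F m' * e₁ + jF F n' * e₂) := f3_comb hα0 he₁ he₂ _ _
    have e2 : jF F s = jF F la * (jF F m' * e₁ + jF F n' * e₂) := by
      rw [hmn, map_mul, map_mul]
      ring
    have hsα' : IsIntegral ℤ (jF F s * α) := by
      have h2 := map_isIntegral_int (τ : F →+* F) hsα
      have h3 : (τ : F →+* F) (jF F s / α) = jF F s * α := by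
        change τ (jF F s / α) = jF F s * α
        rw [map_div₀, tau_jF, hτ, div_inv_eq_mul]
      rwa [h3] at h2
    obtain ⟨c, d, hcd⟩ := exists_int hD hQ (hμ.mul hsα')
    have e3 : jF F (s ^ 4) = jF F (la ^ 3) * ((jF F m' * e₁ + jF F n' * e₂) ^ 3 / α *
        (jF F s * α)) := by
      have h2 : jF F (s ^ 4) = jF F s * jF F s ^ 3 := by
        rw [map_pow]
        ring
      rw [h2]
      conv_lhs => rw [e2]
      rw [← e2, map_pow]
      conv_rhs => rw [div_mul_eq_mul_div]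
      rw [eq_comm, ← mul_div_assoc, div_eq_iff hα0]
      conv_rhs => rw [e2]
      conv_lhs => rw [e2]
      ring
    rw [hcd] at e3
    obtain ⟨h4, -⟩ := jr_inj hD hQ (a := s ^ 4 - la ^ 3 * c) (b := -(la ^ 3 * d)) (by
      rw [map_sub, map_neg, map_mul (jF F) (la ^ 3) c, map_mul (jF F) (la ^ 3) d, e3]
      ring)
    have h5 : la ∣ s ^ 4 := ⟨la ^ 2 * c, by rw [sub_eq_zero.1 h4]; ring⟩
    have h6 : la ∣ s := CU.la_prime.dvd_of_dvd_pow h5
    have h7 : la ∣ 1 := by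
      have := dvd_sub h6 hs1
      rwa [sub_sub_cancel] at this
    exact CU.la_prime.not_isUnit (isUnit_of_dvd_one h7)
  obtain ⟨w₁, w₂, μ, k, q1, q2, q3, q4, q5, q6, q7⟩ := f3_choose hα0 he₁ he₂ hb hi hmn hnd
  exact ⟨w₁, w₂, μ, _, k, s, q1, q2, q3, q4, q5, hzi, q6, q7, hsM, e1⟩

end

end JD
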