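import Pool.Agent.JD.F1

/-!
# [JD-F4] the leading coefficient is divisible by `λ²`; the determinant of the basis is a unit

PROOF. `coeff_dvd`: `w₁³/α = (k s)³/α + 3 la ((k s)² μ/α) + 3 la² ((k s) μ²/α) + la³ (μ³/α)`. All of `(jF s)² μ/α`, `(jF s) μ²/α`, `μ³/α` are integral (`inM_mul`), `3 = -om² la²` (`CU.three_eq`), `k² = 1`. So `w₁³/α = k jF(s³)/α + jF (la²) y`, `y` integral, and
`jF(s³)/α = jF(s²) (jF s/α) = jF (s³) + jF (la²) (jF (s²) z)`. So `jF a + jF b r = w₁³/α = jF (k s³) + jF (la²) y'` with `y'` integral, `y' = jF c + jF d r` (`exists_int`), `b = la² d` (`jr_inj`).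
`det_unit`: `r x_i = m e₁ + n e₂`... for `InM α x`, `InM α y`: `x = m w₁ + n w₂`, `y = m' w₁ + n' w₂`: `x τ y = m m' (w₁ τ w₁) + n n' (w₂ τ w₂) + m n' (w₁ τ w₂) + n m' (w₂ τ w₁)`. `w₁ τ w₁` and `w₂ τ w₂` are integral (`inM_tau`) and fixed by `τ`, so in `jF (Eis)` (`fix_int`);
`w₁ τ w₂ = jF u + jF t r`, `w₂ τ w₁ = τ (w₁ τ w₂) = jF u - jF t r`. So the `r`-coefficient of `x τ y` is divisible by `t`. Now `r = ∑ (r x_i) τ (y_i)` (`InM α (r x_i)`: `inM_smul`, `int_r`) has `r`-coefficient `1`: `t ∣ 1`.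
-/

set_option autoImplicit false

open NumberField IsDedekindDomain
open scoped Classical

namespace JD

open CM27 CF JZ
open CU (la om eE)

section
variable {D : Eis} {F : Type} [Field F] [NumberField F] [Algebra KK F] {r : F} {τ : F ≃ₐ[KK] F} {α : F}
  (hD : Cl D) (hQ : Quad D r τ)
include hD hQ

theorem coeff_dvd (hα : α ≠ 0) {w₁ μ z : F} {k s a b : Eis} (hμ : InM α μ) (hz : IsIntegral ℤ z) (hk : k = 1 ∨ k = -1)
    (hw : w₁ = jF F (k * s) + jF F la * μ) (hs : InM α (jF F s)) (hsz : jF F s / α = jF F s + jF F (la ^ 2) * z)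
    (h : w₁ ^ 3 / α = jF F a + jF F b * r) : la ^ 2 ∣ b := by
  have hk2 : k ^ 2 = 1 := by rcases hk with rfl | rfl <;> ring
  have h3 : (3 : F) = jF F (-om ^ 2) * jF F la ^ 2 := by
    rw [← map_pow, ← map_mul, ← CU.three_eq, map_ofNat]
  have i1 : IsIntegral ℤ (jF F s * jF F s * μ / α) := inM_mul hα hs hs hμ
  have i2 : IsIntegral ℤ (jF F s * μ * μ / α) := inM_mul hα hs hμ hμ
  have i3 : IsIntegral ℤ (μ ^ 3 / α) := hμ
  let y : F := jF F (k * s ^ 2) * z + jF F (-om ^ 2 * la * k ^ 2) * (jF F s * jF F s * μ / α) +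
    jF F (3 * k) * (jF F s * μ * μ / α) + jF F la * (μ ^ 3 / α)
  have hy : IsIntegral ℤ y :=
    ((((int_jF F _).mul hz).add ((int_jF F _).mul i1)).add ((int_jF F _).mul i2)).add
      ((int_jF F _).mul i3)
  obtain ⟨c, d, hcd⟩ := exists_int hD hQ hy
  have hmain : w₁ ^ 3 / α = jF F (k * s ^ 3) + jF F (la ^ 2) * y := by
    have e1 : w₁ ^ 3 / α = jF F k ^ 3 * jF F s ^ 2 * (jF F s / α) +
        3 * jF F k ^ 2 * jF F la * (jF F s * jF F s * μ / α) +
        3 * jF F k * jF F la ^ 2 * (jF F s * μ * μ / α) + jF F la ^ 3 * (μ ^ 3 / α) := by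
      rw [hw, map_mul]
      field_simp
      ring
    have e2 : jF F k ^ 2 = 1 := by rw [← map_pow, hk2, map_one]
    have e3 : jF F k ^ 3 = jF F k := by
      calc jF F k ^ 3 = jF F k ^ 2 * jF F k := by ring
        _ = jF F k := by rw [e2, one_mul]
    have e4 : y = jF F k * jF F s ^ 2 * z + jF F (-om ^ 2) * jF F la * (jF F s * jF F s * μ / α) +
        3 * jF F k * (jF F s * μ * μ / α) + jF F la * (μ ^ 3 / α) := by
      change jF F (k * s ^ 2) * z + jF F (-om ^ 2 * la * k ^ 2) * (jF F s * jF F s * μ / α) +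
        jF F (3 * k) * (jF F s * μ * μ / α) + jF F la * (μ ^ 3 / α) = _
      rw [map_mul, map_mul (jF F) (-om ^ 2 * la), map_mul (jF F) (-om ^ 2) la, map_mul (jF F) 3 k,
        map_pow, map_pow, e2, map_ofNat, mul_one]
    rw [e1, hsz, e3, e2, e4, map_mul, map_pow, map_pow]
    linear_combination (jF F la * (jF F s * jF F s * μ / α)) * h3
  have h4 : jF F (a - (k * s ^ 3 + la ^ 2 * c)) + jF F (b - la ^ 2 * d) * r = 0 := by
    rw [map_sub, map_sub, map_add, map_mul (jF F) (la ^ 2) c, map_mul (jF F) (la ^ 2) d]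
    rw [hmain, hcd] at h
    linear_combination -h
  have h5 := (jr_inj hD hQ h4).2
  exact ⟨d, sub_eq_zero.mp h5⟩

theorem det_unit (hα : α * τ α = 1) {w₁ w₂ : F} (h₁ : InM α w₁) (h₂ : InM α w₂)
    (hb : ∀ x, InM α x → ∃ m n : Eis, x = jF F m * w₁ + jF F n * w₂)
    (hsum : ∃ (s : Finset ℕ) (x y : ℕ → F), (∀ i ∈ s, InM α (x i) ∧ InM α (y i)) ∧ ∑ i ∈ s, x i * τ (y i) = 1)
    {u t : Eis} (h : w₁ * τ w₂ = jF F u + jF F t * r) : IsUnit t := by
  have hττ := fun z => tau_tau (ne_of_cl hD) hQ z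
  have hτj : ∀ m : Eis, τ (jF F m) = jF F m := fun m => AlgEquiv.commutes τ (jK m)
  obtain ⟨A, hA⟩ := fix_int hD hQ (z := w₁ * τ w₁) (by rw [map_mul, hττ, mul_comm])
    (inM_tau hα h₁ h₁)
  obtain ⟨B, hB⟩ := fix_int hD hQ (z := w₂ * τ w₂) (by rw [map_mul, hττ, mul_comm])
    (inM_tau hα h₂ h₂)
  have h' : w₂ * τ w₁ = jF F u - jF F t * r := by
    have h1 := congrArg τ h
    rw [map_mul, hττ, map_add, map_mul, hτj, hτj, hQ.tau] at h1
    rw [mul_comm, h1]
    ring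
  have key : ∀ x y : F, InM α x → InM α y → ∃ p q : Eis, x * τ y = jF F p + jF F (t * q) * r := by
    intro x y hx hy
    obtain ⟨m, n, hx'⟩ := hb x hx
    obtain ⟨m', n', hy'⟩ := hb y hy
    refine ⟨m * m' * A + n * n' * B + m * n' * u + n * m' * u, m * n' - n * m', ?_⟩
    have hτy : τ y = jF F m' * τ w₁ + jF F n' * τ w₂ := by
      rw [hy', map_add, map_mul, map_mul, hτj, hτj]
    rw [hx', hτy]
    simp only [map_add, map_mul, map_sub]
    linear_combination (jF F m * jF F m') * hA + (jF F n * jF F n') * hB +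
      (jF F m * jF F n') * h + (jF F n * jF F m') * h'
  obtain ⟨s, x, y, hxy, hs1⟩ := hsum
  have hir : IsIntegral ℤ r := int_r hQ
  have key2 : ∀ i, ∃ p q : Eis, i ∈ s → (r * x i) * τ (y i) = jF F p + jF F (t * q) * r := by
    intro i
    by_cases hi : i ∈ s
    · obtain ⟨p, q, hpq⟩ := key (r * x i) (y i) (inM_smul hir (hxy i hi).1) (hxy i hi).2
      exact ⟨p, q, fun _ => hpq⟩
    · exact ⟨0, 0, fun h => absurd h hi⟩
  choose p q hpq using key2
  have h1 : r = jF F (∑ i ∈ s, p i) + jF F (t * ∑ i ∈ s, q i) * r := by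
    have h2 : r = ∑ i ∈ s, (r * x i) * τ (y i) := by
      have h3 : ∑ i ∈ s, (r * x i) * τ (y i) = r * ∑ i ∈ s, x i * τ (y i) := by
        rw [Finset.mul_sum]
        exact Finset.sum_congr rfl fun i _ => mul_assoc _ _ _
      rw [h3, hs1, mul_one]
    conv_lhs => rw [h2]
    rw [Finset.sum_congr rfl fun i hi => hpq i hi, Finset.sum_add_distrib, ← Finset.sum_mul,
      Finset.mul_sum, map_sum, map_sum]
  have h4 : jF F (∑ i ∈ s, p i) + jF F (t * (∑ i ∈ s, q i) - 1) * r = 0 := by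
    rw [map_sub, map_one]
    linear_combination -h1
  have h5 := (jr_inj hD hQ h4).2
  exact IsUnit.of_mul_eq_one _ (sub_eq_zero.mp h5)

end

end JD
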