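import Pool.Agent.JD.F1

/-!
# [JD-F5] the discriminant of the form

PROOF. Apply `τ` to the five hypotheses (`τ r = -r`, `τ α = α⁻¹ =: p`, `τ (jF a) = jF a` by `τ.commutes`): with `v_i = τ w_i`, `b₁ r = (w₁³ p - v₁³ α)/2` etc.: `2 r jF b₁ = p w₁³ - α v₁³`, `2 r jF b₂ = p w₁² w₂ - α v₁² v₂`, `2 r jF b₃ = p w₁ w₂² - α v₁ v₂²`,
`2 r jF b₄ = p w₂³ - α v₂³`, `2 r jF t = w₁ v₂ - v₁ w₂`. The polynomial identity: for `A = p w₁³ - α v₁³`, `B = 3 (p w₁² w₂ - α v₁² v₂)`, `C = 3 (p w₁ w₂² - α v₁ v₂²)`, `E = p w₂³ - α v₂³`: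
`B²C² - 4AC³ - 4B³E - 27A²E² + 18ABCE = -27 (p α)² (w₁ v₂ - v₁ w₂)⁶` (`ring`; `p α = 1`). So `(2 r)⁴ disc = -27 (2 r)⁶ t⁶`, `disc(b₁, 3 b₂, 3 b₃, b₄) = -27 · 4 · D · t⁶` in `F`, hence in `Eis` (`jF_inj`).
`unit_six`: the units of `Eis` are `± om^k` (`CU.unit_iff`).
-/

set_option autoImplicit false

open NumberField IsDedekindDomain
open scoped Classical

namespace JD

open CM27 CF JZ
open CU (la om eE)

theorem unit_six {t : Eis} (h : IsUnit t) : t ^ 6 = 1 := by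
  rcases (CU.unit_iff t).1 h with rfl | rfl | rfl | rfl | rfl | rfl <;> decide

theorem f5_poly {R : Type*} [CommRing R] (p α w₁ w₂ v₁ v₂ : R) :
    disc (p * w₁ ^ 3 - α * v₁ ^ 3) (3 * (p * w₁ ^ 2 * w₂ - α * v₁ ^ 2 * v₂))
      (3 * (p * w₁ * w₂ ^ 2 - α * v₁ * v₂ ^ 2)) (p * w₂ ^ 3 - α * v₂ ^ 3) =
      -27 * (p * α) ^ 2 * (w₁ * v₂ - v₁ * w₂) ^ 6 := by
  unfold disc
  ring

theorem f5_hom {R : Type*} [CommRing R] (s a b c d : R) :
    disc (s * a) (s * b) (s * c) (s * d) = s ^ 4 * disc a b c d := by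
  unfold disc
  ring

theorem f5_map {R S : Type*} [CommRing R] [CommRing S] (f : R →+* S) (a b c d : R) :
    f (disc a b c d) = disc (f a) (f b) (f c) (f d) := by
  unfold disc
  simp only [map_add, map_sub, map_mul, map_pow, map_ofNat]

section
variable {D : Eis} {F : Type} [Field F] [NumberField F] [Algebra KK F] {r : F} {τ : F ≃ₐ[KK] F} {α : F}
  (hD : Cl D) (hQ : Quad D r τ)
include hD hQ

theorem disc_eq (hα : α * τ α = 1) {w₁ w₂ : F} {a₁ a₂ a₃ a₄ b₁ b₂ b₃ b₄ u t : Eis}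
    (h₁ : w₁ ^ 3 / α = jF F a₁ + jF F b₁ * r) (h₂ : w₁ ^ 2 * w₂ / α = jF F a₂ + jF F b₂ * r)
    (h₃ : w₁ * w₂ ^ 2 / α = jF F a₃ + jF F b₃ * r) (h₄ : w₂ ^ 3 / α = jF F a₄ + jF F b₄ * r)
    (h : w₁ * τ w₂ = jF F u + jF F t * r) :
    disc b₁ (3 * b₂) (3 * b₃) b₄ = -27 * (4 * D * t ^ 6) := by
  have hD0 : D ≠ 0 := hD.1.ne_zero
  have hr := r_ne hD0 hQ
  have hα0 : α ≠ 0 := left_ne_zero_of_mul_eq_one hα
  have hinv : α⁻¹ = τ α := inv_eq_of_mul_eq_one_right hα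
  have hinv' : (τ α)⁻¹ = α := by rw [← hinv, inv_inv]
  have hτj : ∀ a : Eis, τ (jF F a) = jF F a := fun a => τ.commutes (jK a)
  have hττ := tau_tau hD0 hQ
  have key : ∀ {z : F} {a b : Eis}, z / α = jF F a + jF F b * r →
      2 * r * jF F b = τ α * z - α * τ z := by
    intro z a b hz
    have h1 := congrArg τ hz
    rw [map_add, map_mul, hτj, hτj, hQ.tau, map_div₀, div_eq_mul_inv, hinv'] at h1
    rw [div_eq_mul_inv, hinv] at hz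
    linear_combination h1 - hz
  have e₁ := key h₁
  have e₂ := key h₂
  have e₃ := key h₃
  have e₄ := key h₄
  have e₅ : 2 * r * jF F t = w₁ * τ w₂ - τ w₁ * w₂ := by
    have h1 := congrArg τ h
    rw [map_add, map_mul, map_mul, hτj, hτj, hQ.tau, hττ] at h1
    linear_combination h1 - h
  rw [map_pow] at e₁ e₄
  rw [map_mul, map_pow] at e₂ e₃
  apply jF_inj F
  have h2r : (2 * r) ^ 4 ≠ 0 := pow_ne_zero _ (mul_ne_zero two_ne_zero hr)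
  apply mul_left_cancel₀ h2r
  have h3 : jF F 3 = 3 := map_ofNat _ 3
  rw [f5_map, map_mul, map_mul, h3, ← f5_hom]
  have e₂' : 2 * r * (3 * jF F b₂) = 3 * (τ α * w₁ ^ 2 * w₂ - α * (τ w₁) ^ 2 * τ w₂) := by
    linear_combination 3 * e₂
  have e₃' : 2 * r * (3 * jF F b₃) = 3 * (τ α * w₁ * w₂ ^ 2 - α * τ w₁ * (τ w₂) ^ 2) := by
    linear_combination 3 * e₃
  rw [e₁, e₂', e₃', e₄, f5_poly, mul_comm (τ α) α, hα, ← e₅]
  have h5 : jF F (-27 * (4 * D * t ^ 6)) = -27 * (4 * jF F D * (jF F t) ^ 6) := by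
    simp only [map_mul, map_neg, map_pow, map_ofNat]
  rw [h5, ← hQ.sq]
  ring

end

end JD
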