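import Pool.Agent.JD.F2
import Pool.Agent.JD.F3
import Pool.Agent.JD.F4
import Pool.Agent.JD.F5

/-!
# [JD-F6] `¬ NoBad → HasForm D`

PROOF. `noBad_of`: let `Lam τ α`, `α` not a cube (`α ≠ 0`). `exists_adapted` gives `w₁, w₂, μ, z, k, s`. The elements `w₁³/α, w₁²w₂/α, w₁w₂²/α, w₂³/α` (`inM_mul`) and `w₁ τ w₂` (`inM_tau`) are integral: `exists_int` gives `a_i, b_i, u, t`. `la² ∣ b₁` (`coeff_dvd`),
`b₁ = la² a`. `t ^ 6 = 1` (`det_unit` with `exists_sum_one`, `unit_six`). `disc(la² a, 3 b₂, 3 b₃, b₄) = -108 D` (`disc_eq`).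
The form `g = (a, la b, la² c, la d)` with `b = -om² b₂`, `c = -om² b₃`, `d = b₄`. (`g(x, y) = la⁻² f(x, la y)`, `f = (la² a, 3 b₂, 3 b₃, b₄)`, `3 = -om² la²`: `la² g(x,y) = f(x, la y)`.)
disc: `disc(la² a, 3 b₂, 3 b₃, b₄) = disc(la² a, la² b, la² c, d)`, and `la⁸ disc(a, la b, la² c, la d) = la⁶ disc(la² a, la² b, la² c, d)`: check: both sides of `la² · disc(a, la b, la² c, la d) = disc(la² a, la² b, la² c, d)` (`ring`). `-108 D = -27·4·D = la⁶ · 4 D` (`27 = -la⁶`: `decide`),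
so `la² disc g = la⁶ 4 D`, `disc g = 4 la⁴ D` (`Eis` is a domain: `CM27.eis_isDomain`).
No zero: let `g(x, y) = 0`. Then `la² g(x, y) = b₁ x³ + 3 b₂ x² (la y) + 3 b₃ x (la y)² + b₄ (la y)³ = 0`. With `L = jF x * w₁ + jF (la y) * w₂`: `L³/α = (jF stuff) + jF(0) r`, that is `L³/α` is fixed by `τ`: `L³/α = (τ L)³ α`. If `L = 0` then `x = 0`, `la y = 0` (basis). Otherwise
`α² = (L/τ L)³` and `α = α³/α² = (α τ L / L)³` is a cube: contradiction.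
-/

set_option autoImplicit false

open NumberField IsDedekindDomain
open scoped Classical

namespace JD

open CM27 CF JZ
open CU (la om eE)

section
variable {D : Eis} {F : Type} [Field F] [NumberField F] [Algebra KK F] {r : F} {τ : F ≃ₐ[KK] F}

theorem f6_disc (l a b c d : Eis) :
    l ^ 2 * disc a (l * b) (l ^ 2 * c) (l * d) = disc (l ^ 2 * a) (l ^ 2 * b) (l ^ 2 * c) d := by
  unfold disc
  ring

theorem noBad_of (hD : Cl D) (hQ : Quad D r τ) (h : ¬ HasForm D) : NoBad τ := by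
  have hdom := eis_isDomain
  intro α hL
  by_contra hcube
  push Not at hcube
  obtain ⟨hα, h3, h1⟩ := hL
  have hα0 : α ≠ 0 := left_ne_zero_of_mul_eq_one hα
  obtain ⟨w₁, w₂, μ, z, k, s, hw₁, hw₂, hb, hind, hμ, hz, hk, hw, hs, hsz⟩ :=
    exists_adapted hD hQ hα h1
  obtain ⟨a₁, b₁, h₁⟩ := exists_int hD hQ (z := w₁ ^ 3 / α) hw₁
  obtain ⟨a₂, b₂, h₂⟩ := exists_int hD hQ (inM_mul hα0 hw₁ hw₁ hw₂)
  obtain ⟨a₃, b₃, h₃⟩ := exists_int hD hQ (inM_mul hα0 hw₁ hw₂ hw₂)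
  obtain ⟨a₄, b₄, h₄⟩ := exists_int hD hQ (z := w₂ ^ 3 / α) hw₂
  obtain ⟨u, t, ht⟩ := exists_int hD hQ (inM_tau hα hw₁ hw₂)
  have h₂' : w₁ ^ 2 * w₂ / α = jF F a₂ + jF F b₂ * r := by rw [← h₂]; ring
  have h₃' : w₁ * w₂ ^ 2 / α = jF F a₃ + jF F b₃ * r := by rw [← h₃]; ring
  obtain ⟨a, ha⟩ := coeff_dvd hD hQ hα0 hμ hz hk hw hs hsz h₁
  have ht6 : t ^ 6 = 1 := unit_six (det_unit hD hQ hα hw₁ hw₂ hb (exists_sum_one hα h3) ht)
  have hdisc := disc_eq hD hQ hα h₁ h₂' h₃' h₄ ht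
  rw [ht6, mul_one] at hdisc
  have h3e : (3 : Eis) = -(om ^ 2) * la ^ 2 := by decide
  have h27 : (-27 : Eis) = la ^ 6 := by decide
  apply h
  refine ⟨a, -(om ^ 2) * b₂, -(om ^ 2) * b₃, b₄, ?_, ?_⟩
  · have hla : (la : Eis) ^ 2 ≠ 0 := by decide
    apply mul_left_cancel₀ hla
    rw [f6_disc]
    have e1 : la ^ 2 * (-(om ^ 2) * b₂) = 3 * b₂ := by rw [h3e]; ring
    have e2 : la ^ 2 * (-(om ^ 2) * b₃) = 3 * b₃ := by rw [h3e]; ring
    rw [e1, e2, ← ha, hdisc, h27]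
    ring
  · intro x y hxy
    have hX : b₁ * x ^ 3 + 3 * b₂ * x ^ 2 * (la * y) + 3 * b₃ * x * (la * y) ^ 2 +
        b₄ * (la * y) ^ 3 = 0 := by
      have h5 : b₁ * x ^ 3 + 3 * b₂ * x ^ 2 * (la * y) + 3 * b₃ * x * (la * y) ^ 2 +
        b₄ * (la * y) ^ 3 = la ^ 2 * (a * x ^ 3 + la * (-(om ^ 2) * b₂) * x ^ 2 * y +
          la ^ 2 * (-(om ^ 2) * b₃) * x * y ^ 2 + la * b₄ * y ^ 3) := by
        rw [ha, h3e]
        ring
      rw [h5, hxy, mul_zero]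
    obtain ⟨Y, hY⟩ : ∃ Y, Y = la * y := ⟨_, rfl⟩
    rw [← hY] at hX
    obtain ⟨L, hLdef⟩ : ∃ L, L = jF F x * w₁ + jF F Y * w₂ := ⟨_, rfl⟩
    have hL3 : L ^ 3 / α = jF F (a₁ * x ^ 3 + 3 * a₂ * x ^ 2 * Y + 3 * a₃ * x * Y ^ 2 +
        a₄ * Y ^ 3) := by
      have h5 : L ^ 3 / α = jF F x ^ 3 * (w₁ ^ 3 / α) + 3 * jF F x ^ 2 * jF F Y * (w₁ ^ 2 * w₂ / α) +
          3 * jF F x * jF F Y ^ 2 * (w₁ * w₂ ^ 2 / α) + jF F Y ^ 3 * (w₂ ^ 3 / α) := by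
        rw [hLdef]
        ring
      have h6 : jF F (b₁ * x ^ 3 + 3 * b₂ * x ^ 2 * Y + 3 * b₃ * x * Y ^ 2 + b₄ * Y ^ 3) = 0 := by
        rw [hX, map_zero]
      simp only [map_add, map_mul, map_pow, map_ofNat] at h6 ⊢
      rw [h5, h₁, h₂', h₃', h₄]
      linear_combination r * h6
    have hτj : ∀ a : Eis, τ (jF F a) = jF F a := fun a => τ.commutes (jK a)
    have hfix : τ (L ^ 3 / α) = L ^ 3 / α := by rw [hL3, hτj]
    have hinv' : (τ α)⁻¹ = α := inv_eq_of_mul_eq_one_left hα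
    rw [map_div₀, map_pow, div_eq_mul_inv, hinv'] at hfix
    have hLα : α ^ 2 * (τ L) ^ 3 = L ^ 3 := by
      rw [eq_div_iff hα0] at hfix
      linear_combination hfix
    have hL0 : L = 0 := by
      by_contra hL0
      apply hcube (α * τ L / L)
      rw [div_pow, mul_pow, div_eq_iff (pow_ne_zero 3 hL0)]
      linear_combination α * hLα
    rw [hLdef] at hL0
    obtain ⟨hx0, hY0⟩ := hind x Y hL0
    refine ⟨hx0, ?_⟩
    rw [hY] at hY0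
    have hla : (la : Eis) ≠ 0 := by decide
    exact (mul_eq_zero.1 hY0).resolve_left hla

end

end JD
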