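import Pool.Agent.JD.G5
import Pool.Agent.JD.F6
import Pool.Agent.JL.Field

/-!
# [JD-T1] the field `ℚ(ω, √D)` inside `ℂ`

PROOF. `w_mem`: `IntermediateField.subset_adjoin`. `finrank_KD` [T1a]: every element of `KD D` is of the form `u + v s` with `u, v ∈ KK` (`s = sD D`, `s² = emb D ∈ KK`; the set of these elements is closed under the field operations: it is a subfield: the inverse of `u + v s ≠ 0` is `(u - v s)/(u² - v² D)`, and
`u² - v² D ≠ 0` because `D` is not a square in `KK` (`not_sq hD.2.2`, Q1; if `v = 0` clear); it contains `w`, `s`, so it contains `KD D` (`IntermediateField.adjoin_le_iff`), or use `IntermediateField.adjoin_induction`). `1, s` are linearly independent over `KK` (`s ∉ KK`), so they are a basis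
(`Module.finrank_eq_card_basis` with `Basis.mk`; or `finrank_le_..` and `LinearIndependent.fintype_card_le_finrank`). The algebra structure is `CF.algK` (`algebraMap KK (KD D) x = x` as complex numbers).
Alternative: `KD D = KK⟮s⟯` restricted to `ℚ`; `IntermediateField.adjoin.finrank` with `minpoly KK s = X² - D`.
`jF_coe`: `jF (KD D) a` is `emb a` (`CU.eE_coe`).
`uc_of_noForm` [T1b]: `letI := algK (KD D) w_mem`, `F = KD D`, `r = ⟨sD D, sD_mem⟩`, `r² = jF F D` (`JL.sD_sq`, `jF_coe`), `τ` from `exists_tau` (Q1) with `finrank_KD`, `NoBad τ` (`noBad_of`, F6), `class_unit` (G5): `¬ 3 ∣ classNumber F` and `u : (𝓞 F)ˣ`. `(u : F) = u₁ + u₂ r` (`exists_uv`), `u₁, u₂ ∈ KK` as complex numbers. `u` and `u⁻¹` are integral over `ℤ`, also as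
complex numbers (`isIntegral_algebraMap_iff`, or `IsIntegral.map` of `F →ₐ[ℤ] ℂ`). `τ u = u₁ - u₂ r`. If `z = (((u₁ + u₂ s)/(u₁ - u₂ s))^8 - 1)/3` is integral: it is the image of the element `(((u)/(τ u))^8 - 1)/3` of `F`, integral over `ℤ` (injectivity), so it is an element `z' : 𝓞 F` with `(u/τ u)^8 - 1 = 3 z'`: contradiction.
-/

set_option autoImplicit false

open NumberField IsDedekindDomain
open scoped Classical

namespace JD

open CM27 CF JZ
open CU (la om eE)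
open JL (KD sD UC)

theorem t1a_alg (F : IntermediateField ℚ ℂ) (hw : w ∈ F) (x : KK) : letI := algK F hw;
    ((algebraMap KK F x : F) : ℂ) = (x : ℂ) := rfl

theorem t1a_smul (F : IntermediateField ℚ ℂ) (hw : w ∈ F) (x : KK) (y : F) : letI := algK F hw;
    ((x • y : F) : ℂ) = (x : ℂ) * (y : ℂ) := rfl

theorem t1a_jF (F : IntermediateField ℚ ℂ) (hw : w ∈ F) (a : Eis) : letI := algK F hw;
    ((jF F a : F) : ℂ) = emb a := by
  have h1 := t1a_alg F hw (jK a)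
  rw [jF_apply]
  exact h1.trans (CU.eE_coe a)

theorem t1a_emb (a : Eis) : emb a ∈ KK := by
  rw [← CU.eE_coe a]
  exact ((CU.eE a : 𝓞 KK) : KK).2

/-- `KK + KK √D` -/
noncomputable def t1a_A (D : Eis) : Subalgebra ℚ ℂ where
  carrier := {z | ∃ u v : ℂ, u ∈ KK ∧ v ∈ KK ∧ z = u + v * sD D}
  mul_mem' := by
    rintro _ _ ⟨u, v, hu, hv, rfl⟩ ⟨u', v', hu', hv', rfl⟩
    refine ⟨u * u' + v * v' * emb D, u * v' + v * u', ?_, ?_, ?_⟩
    · exact add_mem (mul_mem hu hu') (mul_mem (mul_mem hv hv') (t1a_emb D))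
    · exact add_mem (mul_mem hu hv') (mul_mem hv hu')
    · linear_combination v * v' * JL.sD_sq D
  add_mem' := by
    rintro _ _ ⟨u, v, hu, hv, rfl⟩ ⟨u', v', hu', hv', rfl⟩
    exact ⟨u + u', v + v', add_mem hu hu', add_mem hv hv', by ring⟩
  algebraMap_mem' := by
    intro q
    exact ⟨_, 0, KK.algebraMap_mem q, zero_mem _, by rw [zero_mul, add_zero]⟩

theorem t1a_adj (s : ℂ) (hs : IsIntegral ℤ s) {z : ℂ} (hz : z ∈ IntermediateField.adjoin ℚ {w, s}) :
    z ∈ Algebra.adjoin ℚ {w, s} := by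
  have h1 : (IntermediateField.adjoin ℚ {w, s}).toSubalgebra = Algebra.adjoin ℚ {w, s} := by
    apply IntermediateField.adjoin_toSubalgebra_of_isAlgebraic
    intro x hx
    rcases hx with rfl | hx
    · exact (JL.isIntegral_w.tower_top (A := ℚ)).isAlgebraic
    · rw [Set.mem_singleton_iff] at hx
      rw [hx]
      exact (hs.tower_top (A := ℚ)).isAlgebraic
  rw [← h1]
  exact hz

theorem t1a_mem {D : Eis} {z : ℂ} (hz : z ∈ KD D) : ∃ u v : ℂ, u ∈ KK ∧ v ∈ KK ∧ z = u + v * sD D := by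
  have h2 := t1a_adj (sD D) (JL.isIntegral_sD D) hz
  have h3 : Algebra.adjoin ℚ {w, sD D} ≤ t1a_A D := by
    apply Algebra.adjoin_le
    intro x hx
    rcases hx with rfl | hx
    · exact ⟨w, 0, IntermediateField.subset_adjoin ℚ _ (Set.mem_singleton _), zero_mem _,
        by rw [zero_mul, add_zero]⟩
    · rw [Set.mem_singleton_iff] at hx
      rw [hx]
      exact ⟨0, 1, zero_mem _, one_mem _, by rw [one_mul, zero_add]⟩
  exact h3 h2

theorem t1a_fin (F : IntermediateField ℚ ℂ) (hw : w ∈ F) (s : ℂ) (hs : s ∈ F) (hn : s ∉ KK)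
    (hz : ∀ z ∈ F, ∃ u v : ℂ, u ∈ KK ∧ v ∈ KK ∧ z = u + v * s) : letI := algK F hw; Module.finrank KK F = 2 := by
  letI := algK F hw
  have hli : LinearIndependent KK ![(1 : F), ⟨s, hs⟩] := by
    rw [LinearIndependent.pair_iff]
    intro a t hst
    have h2 : (a : ℂ) * 1 + (t : ℂ) * s = 0 := by
      have h1 := congrArg (fun z : F => (z : ℂ)) hst
      exact h1
    rw [mul_one] at h2
    have ht : t = 0 := by
      by_contra ht0
      have ht1 : (t : ℂ) ≠ 0 := fun h => ht0 (Subtype.ext h)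
      apply hn
      have h5 : s = -(a : ℂ) / (t : ℂ) := by
        rw [eq_div_iff ht1]
        linear_combination h2
      rw [h5]
      exact div_mem (neg_mem a.2) t.2
    refine ⟨?_, ht⟩
    rw [ht] at h2
    apply Subtype.ext
    have h6 : (((0 : KK)) : ℂ) = 0 := rfl
    rw [h6, zero_mul, add_zero] at h2
    exact h2
  have hsp : ⊤ ≤ Submodule.span KK (Set.range ![(1 : F), ⟨s, hs⟩]) := by
    rintro ⟨z, hzF⟩ -
    obtain ⟨u, v, hu, hv, huv⟩ := hz z hzF
    have h1 : (⟨z, hzF⟩ : F) = (⟨u, hu⟩ : KK) • (1 : F) + (⟨v, hv⟩ : KK) • (⟨s, hs⟩ : F) := by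
      apply Subtype.ext
      show z = u * 1 + v * s
      rw [huv, mul_one]
    rw [h1]
    exact Submodule.add_mem _ (Submodule.smul_mem _ _ (Submodule.subset_span ⟨0, rfl⟩))
      (Submodule.smul_mem _ _ (Submodule.subset_span ⟨1, rfl⟩))
  have h := Module.finrank_eq_card_basis (Module.Basis.mk hli hsp)
  rw [h, Fintype.card_fin]

theorem t1a_not {D : Eis} (hD : Cl D) : sD D ∉ KK := by
  intro h
  apply not_sq hD.2.2 ⟨sD D, h⟩
  apply Subtype.ext
  have h4 : ((jK D : KK) : ℂ) = emb D := CU.eE_coe D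
  rw [h4]
  exact JL.sD_sq D

theorem t1a_sq (F : IntermediateField ℚ ℂ) (hw : w ∈ F) (D : Eis) (hs : sD D ∈ F) : letI := algK F hw;
    (⟨sD D, hs⟩ : F) ^ 2 = jF F D := by
  apply Subtype.ext
  exact (JL.sD_sq D).trans (t1a_jF F hw D).symm

theorem w_mem (D : Eis) : w ∈ KD D := by
  exact IntermediateField.subset_adjoin ℚ _ (Set.mem_insert _ _)

theorem sD_mem (D : Eis) : sD D ∈ KD D := by
  exact IntermediateField.subset_adjoin ℚ _ (Set.mem_insert_of_mem _ (Set.mem_singleton _))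

theorem jF_coe (D a : Eis) : letI := algK (KD D) (w_mem D); ((jF (KD D) a : KD D) : ℂ) = emb a := by
  exact t1a_jF (KD D) (w_mem D) a

/-- [T1a] -/
theorem finrank_KD {D : Eis} (hD : Cl D) : letI := algK (KD D) (w_mem D); Module.finrank KK (KD D) = 2 := by
  exact t1a_fin (KD D) (w_mem D) (sD D) (sD_mem D) (t1a_not hD) (fun z hz => t1a_mem hz)

/-- the quadratic extension exists -/
theorem exists_quad {D : Eis} (hD : Cl D) : letI := algK (KD D) (w_mem D);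
    ∃ τ : KD D ≃ₐ[KK] KD D, Quad D (⟨sD D, sD_mem D⟩ : KD D) τ := by
  exact @exists_tau D hD.2.2 (KD D) _ _ (algK (KD D) (w_mem D)) (finrank_KD hD) ⟨sD D, sD_mem D⟩
    (t1a_sq (KD D) (w_mem D) D (sD_mem D))

/-- [T1b] -/
theorem uc_of_noBad {D : Eis} (hD : Cl D) : letI := algK (KD D) (w_mem D);
    ∀ τ : KD D ≃ₐ[KK] KD D, Quad D (⟨sD D, sD_mem D⟩ : KD D) τ → NoBad τ → UC D := by
  letI := algK (KD D) (w_mem D)
  intro τ hQ hN
  obtain ⟨h1, u, hu⟩ := class_unit hD hQ hN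
  refine ⟨h1, ?_⟩
  have hD0 : D ≠ 0 := by
    rintro rfl
    exact hD.2.2 0 ⟨0, by ring⟩
  obtain ⟨u₁, u₂, huv⟩ := exists_uv hD0 hQ ((u : 𝓞 (KD D)) : KD D)
  have hτ : τ ((u : 𝓞 (KD D)) : KD D) = algebraMap KK (KD D) u₁ - algebraMap KK (KD D) u₂ * ⟨sD D, sD_mem D⟩ := by
    rw [huv, map_add, map_mul, AlgEquiv.commutes, AlgEquiv.commutes, hQ.tau]
    ring
  have e1 : (((u : 𝓞 (KD D)) : KD D) : ℂ) = (u₁ : ℂ) + (u₂ : ℂ) * sD D := by
    rw [huv]
    rfl
  have e2 : ((τ ((u : 𝓞 (KD D)) : KD D) : KD D) : ℂ) = (u₁ : ℂ) - (u₂ : ℂ) * sD D := by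
    rw [hτ]
    rfl
  have e3 : (((u⁻¹ : (𝓞 (KD D))ˣ) : KD D) : ℂ) = ((u₁ : ℂ) + (u₂ : ℂ) * sD D)⁻¹ := by
    rw [← e1]
    have h2 : (((u⁻¹ : (𝓞 (KD D))ˣ) : 𝓞 (KD D)) : KD D) * ((u : 𝓞 (KD D)) : KD D) = 1 := by
      rw [← map_mul, Units.inv_mul, map_one]
    have h3 := congrArg (fun x : KD D => (x : ℂ)) h2
    simp only [MulMemClass.coe_mul, OneMemClass.coe_one] at h3
    exact eq_inv_of_mul_eq_one_left h3
  refine ⟨u₁, u₂, u₁.2, u₂.2, ?_, ?_, ?_, ?_⟩
  · rw [← e1]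
    intro h0
    have h2 : (((u⁻¹ : (𝓞 (KD D))ˣ) : 𝓞 (KD D)) : KD D) * ((u : 𝓞 (KD D)) : KD D) = 1 := by
      rw [← map_mul, Units.inv_mul, map_one]
    have h3 : ((u : 𝓞 (KD D)) : KD D) = 0 := by
      apply Subtype.ext
      exact h0
    rw [h3, mul_zero] at h2
    exact zero_ne_one h2
  · rw [← e1]
    exact (RingOfIntegers.isIntegral_coe (u : 𝓞 (KD D))).algebraMap (B := ℂ)
  · rw [← e3]
    exact (RingOfIntegers.isIntegral_coe ((u⁻¹ : (𝓞 (KD D))ˣ) : 𝓞 (KD D))).algebraMap (B := ℂ)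
  · intro hi
    rw [← e1, ← e2] at hi
    have e4 : (((((u : 𝓞 (KD D)) : KD D) / τ ((u : 𝓞 (KD D)) : KD D)) ^ 8 - 1) / 3 : KD D) =
        ((((((u : 𝓞 (KD D)) : KD D) : ℂ) / ((τ ((u : 𝓞 (KD D)) : KD D) : KD D) : ℂ)) ^ 8 - 1) / 3 : ℂ) := by
      push_cast
      rfl
    rw [← e4] at hi
    have h5 : IsIntegral ℤ (((((u : 𝓞 (KD D)) : KD D) / τ ((u : 𝓞 (KD D)) : KD D)) ^ 8 - 1) / 3 : KD D) :=
      (isIntegral_algebraMap_iff (A := KD D) (B := ℂ) (algebraMap (KD D) ℂ).injective).1 hi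
    apply hu ⟨_, h5⟩
    change _ = 3 * (((((u : 𝓞 (KD D)) : KD D) / τ ((u : 𝓞 (KD D)) : KD D)) ^ 8 - 1) / 3 : KD D)
    rw [mul_div_cancel₀ _ (by norm_num)]

theorem uc_of_noForm {D : Eis} (hD : Cl D) (h : ¬ HasForm D) : UC D := by
  letI := algK (KD D) (w_mem D)
  obtain ⟨τ, hQ⟩ := exists_quad hD
  exact uc_of_noBad hD τ hQ (noBad_of hD hQ h)

end JD
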