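import Pool.Agent.JD.P2
import Pool.Agent.JD.H1

/-!
# [JD-M1] every point of `E_D(K)` is in the image of `phiE`

PROOF. `exists_ptE`: `R = 0` or `R = (x, y)`, `ptE τ _ R = (τ x, τ y)`, so `τ x = x`, `τ y = y` (`WeierstrassCurve.Affine.Point.some.injEq`), `x, y` are in the image of `KK` (`exists_of_fix`); the point of `ED (jK D)` is nonsingular by
`WeierstrassCurve.Affine.map_nonsingular` (as in `ptE`, P1.lean: `p1_map`).
`exists_phiE`: `P = 0`: `Q = 0` (`phiE_zero`). `P = (x, y)`, `y ^ 2 = x ^ 3 + jK D` (`ED_nonsingular`). `b = algebraMap KK F y - r`. `b ≠ 0`: otherwise `y ^ 2 = jK D` (apply injectivity of `algebraMap KK F`, `hQ.sq`, `jF_apply`), contradiction to `not_sq hD.2.2`.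
`b * τ b = (y - r)(y + r) = y² - D = x³` (`hQ.tau`, `τ.commutes`). `LocK D r b w` for every `w`: the third alternative, `exists_Below w` (L0) gives `v, φ`; the points are the images of `x, y` in `v.adicCompletion KK`, `g = 1` (`Below.comm`; the image of `b ≠ 0` is not `0`).
`cube_of_loc` (H1): `b = c³`. `W = toW (hQ.sq) (ptE (algebraMap KK F) rfl P)` is `(x, y - r)` (`toW_some`; `hQ.sq : r ^ 2 = jF F D`, and `jF F D = algebraMap KK F (jK D)` is `rfl`), `CUD.of_cube` (CU/C3) with `g = c` gives `Q'` with `CUD.phi _ Q' = W`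
(`o' = algebraMap KK F o`, `2 r ≠ 0`: `r_ne`). `Q'' = (toW _).symm Q'`: `phiE ho' Q'' = ptE (algebraMap KK F) rfl P` (`toW_phiE`, injectivity). `R = Q'' + ptE τ _ Q''`: `ptE τ _ R = R` (`ptE_comp`, `tau_tau`, or compute on coordinates; `τ (τ z) = z`), so
`R = ptE _ _ R₀` (`exists_ptE`), `ptE _ _ (phiE ho R₀) = phiE ho' R = ptE P + ptE τ (ptE P) = 2 • ptE P` (`phiE_ptE`, `phiE_add`; `τ` fixes the coordinates of `ptE P`), so `phiE ho R₀ = 2 • P` (`ptE_injective`).
`P₁ = (omE ho).symm P`: `phiE ho (phiE ho P₁) = -(3 • P)` (`phiE_phiE`; `jK D ≠ 0` by `jK_inj`). So `P = 3 • P - 2 • P = phiE ho (-(phiE ho P₁) - R₀)`.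
-/

set_option autoImplicit false

open NumberField IsDedekindDomain
open scoped Classical

namespace JD

open CM27 CF JZ
open CU (la om eE)

section
variable {D : Eis} {F : Type} [Field F] [NumberField F] [Algebra KK F] {r : F} {τ : F ≃ₐ[KK] F}

theorem exists_ptE (hD : D ≠ 0) (hQ : Quad D r τ) (R : (ED (algebraMap KK F (jK D))).toAffine.Point)
    (h : ptE (τ : F →+* F) (τ.commutes (jK D)) R = R) :
    ∃ R₀ : (ED (jK D)).toAffine.Point, ptE (algebraMap KK F) rfl R₀ = R := by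
  cases R with
  | zero => exact ⟨0, rfl⟩
  | some x y hxy =>
    simp only [ptE, WeierstrassCurve.Affine.Point.some.injEq] at h
    obtain ⟨u, hu⟩ := exists_of_fix hD hQ (z := x) h.1
    obtain ⟨v, hv⟩ := exists_of_fix hD hQ (z := y) h.2
    subst hu
    subst hv
    have h2 : ((ED (jK D)).toAffine.map (algebraMap KK F)) = (ED (algebraMap KK F (jK D))).toAffine :=
      ED_map _ _
    have hns : (ED (jK D)).toAffine.Nonsingular u v := by
      rw [← WeierstrassCurve.Affine.map_nonsingular (ED (jK D)).toAffine (algebraMap KK F).injective u v, h2]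
      exact hxy
    exact ⟨.some u v hns, rfl⟩

/-- descent of `phiE Q = P` from `F` to `KK`, up to a factor `2` -/
theorem m1_aux {KK F : Type} [Field KK] [Field F] [Algebra KK F] {d : KK} (f : F →+* F) (hff : ∀ z, f (f z) = z)
    (hfk : ∀ k : KK, f (algebraMap KK F k) = algebraMap KK F k)
    (hf : f (algebraMap KK F d) = algebraMap KK F d) {o : KK} (ho : o ^ 2 + o + 1 = 0)
    (ho' : (algebraMap KK F o) ^ 2 + algebraMap KK F o + 1 = 0)
    (hex : ∀ R : (ED (algebraMap KK F d)).toAffine.Point, ptE f hf R = R →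
      ∃ R₀ : (ED d).toAffine.Point, ptE (algebraMap KK F) rfl R₀ = R)
    (P : (ED d).toAffine.Point) (Q : (ED (algebraMap KK F d)).toAffine.Point)
    (hφ : phiE ho' Q = ptE (algebraMap KK F) rfl P) : ∃ R₀ : (ED d).toAffine.Point, phiE ho R₀ = P + P := by
  have hττ : ∀ R : (ED (algebraMap KK F d)).toAffine.Point, ptE f hf (ptE f hf R) = R := by
    intro R
    have hid : f.comp f = RingHom.id F := by
      ext z
      exact hff z
    rw [ptE_comp, ptE_congr hid _ rfl, ptE_id]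
  obtain ⟨R₀, hR₀⟩ := hex (Q + ptE f hf Q) (by rw [ptE_add, hττ, add_comm])
  have hτP : ptE f hf (ptE (algebraMap KK F) rfl P) = ptE (algebraMap KK F) rfl P := by
    rw [ptE_comp]
    exact ptE_congr (by ext z; exact hfk z) _ _ _
  refine ⟨R₀, ?_⟩
  apply ptE_injective (algebraMap KK F) rfl
  rw [← phiE_ptE ho _ rfl ho' rfl, hR₀, phiE_add, phiE_ptE ho' f hf ho' (hfk o), hφ, hτP, ptE_add]

theorem m1_cube (hD : Cl D) (hQ : Quad D r τ) (hN : NoBad τ) {x y : KK} (heq : y ^ 2 = x ^ 3 + jK D) :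
    algebraMap KK F y - r ≠ 0 ∧ ∃ c : F, c ^ 3 = algebraMap KK F y - r := by
  have hb0 : algebraMap KK F y - r ≠ 0 := by
    intro h0
    have h1 : algebraMap KK F y = r := sub_eq_zero.1 h0
    have h2 : algebraMap KK F (y ^ 2) = algebraMap KK F (jK D) := by
      rw [map_pow, h1, hQ.sq, jF_apply]
    exact not_sq hD.2.2 y ((algebraMap KK F).injective h2)
  have hbt : (algebraMap KK F y - r) * τ (algebraMap KK F y - r) = (algebraMap KK F x) ^ 3 := by
    rw [map_sub, τ.commutes, hQ.tau]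
    have h2 : (algebraMap KK F y) ^ 2 = (algebraMap KK F x) ^ 3 + r ^ 2 := by
      rw [hQ.sq, jF_apply, ← map_pow, ← map_pow, ← map_add, heq]
    linear_combination h2
  have hloc : ∀ w, LocK D r (algebraMap KK F y - r) w := by
    intro w
    obtain ⟨v, φ, hB⟩ := exists_Below w
    refine Or.inr (Or.inr ⟨v, φ, algebraMap KK _ x, algebraMap KK _ y, 1, hB, one_ne_zero, ?_, ?_, ?_⟩)
    · rw [← map_pow, ← map_pow, ← map_add, heq]
    · rw [hB.comm, ← map_sub]
      exact fun h0 => hb0 ((algebraMap F (w.adicCompletion F)).injective (h0.trans (map_zero _).symm))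
    · rw [hB.comm, ← map_sub, one_pow, mul_one]
  exact ⟨hb0, cube_of_loc hD hQ hN hb0 ⟨_, hbt⟩ hloc⟩

theorem m1_F {F : Type} [Field F] [CharZero F] {d r o : F} (ho : o ^ 2 + o + 1 = 0) (hr : r ≠ 0) (hsq : r ^ 2 = d) {x y : F}
    (h : (ED d).toAffine.Nonsingular x y) {c : F} (hc : c ^ 3 = y - r) (hb0 : y - r ≠ 0) :
    ∃ Q : (ED d).toAffine.Point, phiE ho Q = .some x y h := by
  obtain ⟨hW, eW⟩ := toW_some hsq _ _ h
  have h2r : (2 * r : F) ≠ 0 := mul_ne_zero two_ne_zero hr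
  obtain ⟨Q', hQ'⟩ := CUD.of_cube h2r ho hW (g := c) hc.symm hb0
  refine ⟨(toW hsq).symm Q', ?_⟩
  apply (toW hsq).injective
  rw [toW_phiE, AddEquiv.apply_symm_apply, hQ', eW]

theorem m1_end {KK : Type} [Field KK] [CharZero KK] {d o : KK} (hd : d ≠ 0) (ho : o ^ 2 + o + 1 = 0) {P R₀ : (ED d).toAffine.Point}
    (hR : phiE ho R₀ = P + P) : ∃ Q, phiE ho Q = P := by
  have hP1 : phiE ho (phiE ho ((omE ho).symm P)) = -(3 • P) := by
    rw [phiE_phiE hd ho, AddEquiv.apply_symm_apply]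
  refine ⟨-(phiE ho ((omE ho).symm P)) - R₀, ?_⟩
  rw [phiE_sub, phiE_neg, hP1, hR, neg_neg, show (3 : ℕ) = 2 + 1 from rfl, succ_nsmul, two_nsmul]
  abel

theorem exists_phiE (hD : Cl D) (hQ : Quad D r τ) (hN : NoBad τ) {o : KK} (ho : o ^ 2 + o + 1 = 0)
    (P : (ED (jK D)).toAffine.Point) : ∃ Q, phiE ho Q = P := by
  have hD0 : D ≠ 0 := ne_of_cl hD
  have hdK : jK D ≠ 0 := fun h0 => hD0 (jK_inj (h0.trans (map_zero jK).symm))
  rcases P with _ | ⟨x, y, hP⟩
  · exact ⟨0, phiE_zero ho⟩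
  have heq : y ^ 2 = x ^ 3 + jK D := (ED_nonsingular two_ne_zero three_ne_zero hdK x y).1 hP
  obtain ⟨hb0, c, hc⟩ := m1_cube (F := F) hD hQ hN heq
  have ho' : (algebraMap KK F o) ^ 2 + algebraMap KK F o + 1 = 0 := CUD.am_o ho
  obtain ⟨h1, e1⟩ : ∃ h', ptE (algebraMap KK F) rfl (.some x y hP : (ED (jK D)).toAffine.Point) =
      .some (algebraMap KK F x) (algebraMap KK F y) h' := ⟨_, rfl⟩
  obtain ⟨Q2, hQ2⟩ := m1_F ho' (r_ne hD0 hQ) hQ.sq h1 hc hb0
  obtain ⟨R₀, hR1⟩ := m1_aux (τ : F →+* F) (fun z => tau_tau hD0 hQ z) (fun k => τ.commutes k) (τ.commutes (jK D)) ho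
    ho' (fun R h => exists_ptE hD0 hQ R h) (.some x y hP) Q2 (hQ2.trans e1.symm)
  exact m1_end hdK ho hR1

end

end JD
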