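import Pool.Agent.JD.Q2

/-!
# [JD-Q3] the places of `F = K(√D)` over `2 D` and over `λ`

PROOF. `tau_jF`: `τ` fixes `KK`. `exists_cj`: `CM27.exists_conj F (τ : F ≃+* F) w` (MP_9ab903_nt/SB/CO.lean).
`fix_of_two`: for an integral `x` write `x = a + b r` (`exists_int`); `x - τ x = 2 b r`, and `(2 b r)² = 4 b² D = 2 b² (2 D)` has valuation `< 1`, so `w (x - τ x) < 1`: `w x < 1 ↔ w (τ x) < 1` for all integers `x`. So the place `w'` of
`exists_cj` has the same ideal as `w` (`x ∈ w.asIdeal ↔ w.valuation F x < 1`: `HeightOneSpectrum.valuation_lt_one_iff_mem`), `w' = w` (`HeightOneSpectrum.ext`).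
`ov_mem`: if `la ∣ a` clear (`w` of an integer is `≤ 1`); otherwise `x a + y la = 1` in `Eis` (`la` is prime in the PID `Eis`, `CU.la_prime`), and `w (jF (x a)) = 1`, so `w (jF a) = 1`.
`ov_D`: `3 ∣ D - η` (`CondLa`), `la ∣ 3` (`CU.three_eq`), so `la ∤ D`; `w r ^ 2 = w D = 1`.
`ov_trans`, `ov_val`, by the value of `η` in `CondLa` (`D ≡ η mod 3`):
`η = -1`: if `x = a + b r` is in `w` (`exists_int`) then `x * τ x = a² - b² D ∈ w`, so `la ∣ a² - b² D` (`ov_mem`), `a² + b² ≡ 0` in `Eis / la = F₃` (`CU.la_dvd_iff`: `la ∣ z ↔ 3 ∣ z.re + z.im`), `la ∣ a`, `la ∣ b`. So `w.asIdeal = (la)` is generated by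
(the integer) `jF la`, all places over `λ` are equal and `w la = exp (-1)` (`HeightOneSpectrum.intValuation_singleton`).
`η = 1`: `(r - 1)(r + 1) = D - 1` has valuation `< 1`, so `w (r - s) < 1` for `s = 1` or `s = -1` (not both: `2` is a unit at `w`), and for integers `x = a + b r`: `x - b (r - s) = a + b s`, so `w x < 1 ↔ la ∣ a + b s` (`ov_mem`). So two places over
`λ` with the same `s` are equal; if the signs are different then `w₂ x < 1 ↔ la ∣ a - b s ↔ w₁ (τ x) < 1`, `w₂` is the conjugate of `w₁` (`exists_cj`; compare the ideals). Let `w'` be the conjugate of `w` (it has the sign `-s`, so `w' ≠ w`). For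
`x = a + b r ∈ w`, `y = c + d r ∈ w'`: `x ≡ b (r - s)`, `y ≡ d (r + s)` modulo `la`, `x y ≡ b d (D - 1) ≡ 0` modulo `la`: `w.asIdeal * w'.asIdeal ≤ (la)`. If `la ∈ w.asIdeal ^ 2`, then `w w' ≤ (la) ≤ w²`, so `w' ≤ w` (cancel `w`), `w' = w`, contradiction. So
`w la = exp (-1)` (`w la < 1` and not `≤ exp (-2)`: `valuation_le_pow_iff_mem` / `intValuation_le_pow_iff_mem`).
`exists_ov`: a maximal ideal of `𝓞 F` containing `jF la` (not a unit: `jF la * z = 1` with integral `z = a + b r` gives `la a = 1`).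
-/

set_option autoImplicit false

open NumberField IsDedekindDomain
open scoped Classical

namespace JD

open CM27 CF JZ
open CU (la om eE)

section
variable {D : Eis} {F : Type} [Field F] [NumberField F] [Algebra KK F] {r : F} {τ : F ≃ₐ[KK] F}
  (hD : Cl D) (hQ : Quad D r τ)

omit [Algebra KK F] in
theorem q3a_le (w : HeightOneSpectrum (𝓞 F)) {x : F} (hx : IsIntegral ℤ x) : w.valuation F x ≤ 1 :=
  HeightOneSpectrum.valuation_le_one w (⟨x, hx⟩ : 𝓞 F)

theorem q3a_sq_lt {v : WithZero (Multiplicative ℤ)} (h : v ^ 2 < 1) : v < 1 := by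
  by_contra hn
  rw [not_lt] at hn
  exact absurd (one_le_pow₀ hn) (not_le.2 h)

theorem q3a_la_sq (a : Eis) (h : ¬ la ∣ a) : la ∣ a * a - 1 := by
  rw [CU.la_dvd_iff] at h ⊢
  have h1 : (a * a - 1).re + (a * a - 1).im = (a.re + a.im) ^ 2 - 1 - 3 * (a.im * a.im) := by
    simp only [QuadraticAlgebra.re_sub, QuadraticAlgebra.im_sub, QuadraticAlgebra.re_mul,
      QuadraticAlgebra.im_mul, QuadraticAlgebra.re_one, QuadraticAlgebra.im_one]
    ring
  rw [h1]
  apply dvd_sub
  · have h2 : (a.re + a.im) % 3 = 1 ∨ (a.re + a.im) % 3 = 2 := by omega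
    rcases h2 with h2 | h2
    · have : a.re + a.im = 3 * ((a.re + a.im) / 3) + 1 := by omega
      rw [this]
      exact ⟨3 * ((a.re + a.im) / 3) ^ 2 + 2 * ((a.re + a.im) / 3), by ring⟩
    · have : a.re + a.im = 3 * ((a.re + a.im) / 3) + 2 := by omega
      rw [this]
      exact ⟨3 * ((a.re + a.im) / 3) ^ 2 + 4 * ((a.re + a.im) / 3) + 1, by ring⟩
  · exact dvd_mul_right _ _

theorem q3a_dvd_lt (w : HeightOneSpectrum (𝓞 F)) (hw : OvLa w) {a : Eis} (h : la ∣ a) :
    w.valuation F (jF F a) < 1 := by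
  obtain ⟨c, rfl⟩ := h
  rw [map_mul, map_mul]
  calc w.valuation F (jF F la) * w.valuation F (jF F c) ≤ w.valuation F (jF F la) * 1 :=
        mul_le_mul_right (q3a_le w (int_jF F c)) _
    _ < 1 := by rw [mul_one]; exact hw

theorem q3b_le {F : Type} [Field F] [NumberField F] (w : HeightOneSpectrum (𝓞 F)) {x : F} (hx : IsIntegral ℤ x) :
    w.valuation F x ≤ 1 :=
  w.valuation_le_one (K := F) (⟨x, hx⟩ : 𝓞 F)

theorem q3b_ext {F : Type} [Field F] [NumberField F] {w₁ w₂ : HeightOneSpectrum (𝓞 F)}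
    (h : ∀ x : F, IsIntegral ℤ x → (w₁.valuation F x < 1 ↔ w₂.valuation F x < 1)) : w₁ = w₂ := by
  apply HeightOneSpectrum.ext
  ext x
  rw [← HeightOneSpectrum.valuation_lt_one_iff_mem (K := F),
    ← HeightOneSpectrum.valuation_lt_one_iff_mem (K := F)]
  exact h _ x.2

theorem q3b_three : la ∣ 3 := by
  rw [CU.three_eq]
  exact Dvd.dvd.mul_left (dvd_pow_self _ two_ne_zero) _

theorem q3b_sq {a b : Eis} (h : la ∣ a ^ 2 + b ^ 2) : la ∣ a ∧ la ∣ b := by
  have h0 : ∀ c : Eis, la ∣ c - ((c.re + c.im : ℤ) : Eis) := by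
    intro c
    rw [CU.la_dvd_iff]
    refine ⟨0, ?_⟩
    simp
  have hi : ∀ n : ℤ, la ∣ (n : Eis) ↔ (3 : ℤ) ∣ n := by
    intro n
    rw [CU.la_dvd_iff]
    simp
  have h1 : la ∣ (((a.re + a.im) ^ 2 + (b.re + b.im) ^ 2 : ℤ) : Eis) := by
    have e : (((a.re + a.im) ^ 2 + (b.re + b.im) ^ 2 : ℤ) : Eis) = (a ^ 2 + b ^ 2) -
        (a - ((a.re + a.im : ℤ) : Eis)) * (a + ((a.re + a.im : ℤ) : Eis)) -
        (b - ((b.re + b.im : ℤ) : Eis)) * (b + ((b.re + b.im : ℤ) : Eis)) := by
      push_cast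
      ring
    rw [e]
    exact dvd_sub (dvd_sub h (Dvd.dvd.mul_right (h0 a) _)) (Dvd.dvd.mul_right (h0 b) _)
  rw [hi] at h1
  rw [CU.la_dvd_iff, CU.la_dvd_iff]
  generalize a.re + a.im = u at *
  generalize b.re + b.im = v at *
  have h2 : ∀ u v : ZMod 3, u ^ 2 + v ^ 2 = 0 → u = 0 ∧ v = 0 := by decide
  have h3 := h2 (u : ZMod 3) (v : ZMod 3) (by
    have := (ZMod.intCast_zmod_eq_zero_iff_dvd (u ^ 2 + v ^ 2) 3).2 h1
    push_cast at this
    exact this)
  exact ⟨(ZMod.intCast_zmod_eq_zero_iff_dvd u 3).1 h3.1,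
    (ZMod.intCast_zmod_eq_zero_iff_dvd v 3).1 h3.2⟩

theorem tau_jF (τ : F ≃ₐ[KK] F) (a : Eis) : τ (jF F a) = jF F a := by
  rw [jF_apply]
  exact τ.commutes (jK a)

theorem exists_cj (τ : F ≃ₐ[KK] F) (w : HeightOneSpectrum (𝓞 F)) :
    ∃ w' : HeightOneSpectrum (𝓞 F), ∀ x : F, w'.valuation F x = w.valuation F (τ x) := by
  obtain ⟨w', h, -⟩ := CM27.exists_conj F (τ : F ≃+* F) w
  exact ⟨w', h⟩

theorem ov_mem (w : HeightOneSpectrum (𝓞 F)) (hw : OvLa w) (a : Eis) : w.valuation F (jF F a) < 1 ↔ la ∣ a := by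
  constructor
  · intro h
    by_contra hn
    have h1 := q3a_dvd_lt w hw (q3a_la_sq a hn)
    have h2 : (1 : F) = jF F a * jF F a - jF F (a * a - 1) := by
      rw [map_sub, map_mul, map_one]
      ring
    have h3 : w.valuation F (1 : F) < 1 := by
      rw [h2]
      refine lt_of_le_of_lt (Valuation.map_sub _ _ _) (max_lt ?_ h1)
      rw [map_mul]
      calc w.valuation F (jF F a) * w.valuation F (jF F a) ≤ w.valuation F (jF F a) * 1 :=
            mul_le_mul_right h.le _
        _ < 1 := by rw [mul_one]; exact h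
    rw [map_one] at h3
    exact lt_irrefl _ h3
  · exact q3a_dvd_lt w hw

include hD hQ

theorem fix_of_two (w : HeightOneSpectrum (𝓞 F)) (h : w.valuation F (jF F (2 * D)) < 1) (x : F) :
    w.valuation F (τ x) = w.valuation F x := by
  obtain ⟨w', hw'⟩ := exists_cj τ w
  have key : ∀ y : F, IsIntegral ℤ y → w.valuation F (y - τ y) < 1 := by
    intro y hy
    obtain ⟨a, b, rfl⟩ := exists_int hD hQ hy
    have h1 : jF F a + jF F b * r - τ (jF F a + jF F b * r) = 2 * jF F b * r := by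
      rw [map_add, map_mul, tau_jF, tau_jF, hQ.tau]
      ring
    rw [h1]
    apply q3a_sq_lt
    rw [← map_pow]
    have h2 : (2 * jF F b * r) ^ 2 = jF F (2 * D) * jF F (2 * b * b) := by
      rw [mul_pow, hQ.sq, map_mul, map_mul, map_mul, map_ofNat]
      ring
    rw [h2, map_mul]
    calc w.valuation F (jF F (2 * D)) * w.valuation F (jF F (2 * b * b)) ≤
          w.valuation F (jF F (2 * D)) * 1 := mul_le_mul_right (q3a_le w (int_jF F _)) _
      _ < 1 := by rw [mul_one]; exact h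
  have q : ∀ z : F, w.valuation F (z - τ z) < 1 →
      (w.valuation F (τ z) < 1 ↔ w.valuation F z < 1) := by
    intro z h1
    constructor
    · intro h2
      have h3 : z = (z - τ z) + τ z := by ring
      rw [h3]
      exact lt_of_le_of_lt (Valuation.map_add _ _ _) (max_lt h1 h2)
    · intro h2
      have h3 : τ z = z - (z - τ z) := by ring
      rw [h3]
      exact lt_of_le_of_lt (Valuation.map_sub _ _ _) (max_lt h2 h1)
  have hww : w' = w := by
    apply HeightOneSpectrum.ext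
    ext y
    rw [← HeightOneSpectrum.valuation_lt_one_iff_mem (K := F),
      ← HeightOneSpectrum.valuation_lt_one_iff_mem (K := F), hw']
    exact q _ (key _ (RingOfIntegers.isIntegral_coe y))
  rw [← hw', hww]

theorem ov_D (w : HeightOneSpectrum (𝓞 F)) (hw : OvLa w) : w.valuation F (jF F D) = 1 ∧ w.valuation F r = 1 := by
  have h1 : ¬ la ∣ D := by
    intro hd
    obtain ⟨η, hη, h3, -⟩ := hD.2.1
    have h4 : la ∣ D - η := dvd_trans ⟨-om ^ 2 * la, by rw [CU.three_eq]; ring⟩ h3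
    have h5 : la ∣ η := by
      have := dvd_sub hd h4
      rwa [sub_sub_cancel] at this
    have h6 : IsUnit η := by
      rcases hη with rfl | rfl
      · exact isUnit_one
      · exact isUnit_one.neg
    exact CU.la_prime.not_isUnit (isUnit_of_dvd_unit h5 h6)
  have h2 : w.valuation F (jF F D) = 1 :=
    le_antisymm (q3a_le w (int_jF F D)) (not_lt.1 (fun h => h1 ((ov_mem w hw D).1 h)))
  refine ⟨h2, le_antisymm (q3a_le w (int_r hQ)) (not_lt.1 (fun h => ?_))⟩
  rw [← hQ.sq, map_pow] at h2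
  exact absurd h2 (pow_lt_one₀ (zero_le) h two_ne_zero).ne

omit hD in
theorem q3b_int (a b : Eis) : IsIntegral ℤ (jF F a + jF F b * r) :=
  (int_jF F a).add ((int_jF F b).mul (int_r hQ))

omit hD in
theorem q3b_tau (a b : Eis) : τ (jF F a + jF F b * r) = jF F a - jF F b * r := by
  rw [map_add, map_mul, tau_jF, tau_jF, hQ.tau]
  ring

omit hD in
theorem q3b_neg (w : HeightOneSpectrum (𝓞 F)) (hw : OvLa w) (h : (3 : Eis) ∣ D - (-1))
    (a b : Eis) : w.valuation F (jF F a + jF F b * r) < 1 ↔ la ∣ a ∧ la ∣ b := by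
  constructor
  · intro hx
    have h1 : w.valuation F (jF F (a ^ 2 - b ^ 2 * D)) < 1 := by
      have e : jF F (a ^ 2 - b ^ 2 * D) = (jF F a + jF F b * r) * τ (jF F a + jF F b * r) := by
        rw [q3b_tau hQ, map_sub, map_mul, map_pow, map_pow, ← hQ.sq]
        ring
      rw [e, map_mul]
      have h2 : w.valuation F (τ (jF F a + jF F b * r)) ≤ 1 := by
        apply q3b_le
        exact (q3b_int hQ a b).map (τ : F →ₐ[KK] F).toRingHom.toIntAlgHom
      calc _ ≤ w.valuation F (jF F a + jF F b * r) * 1 := mul_le_mul_right h2 _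
        _ < 1 := by rw [mul_one]; exact hx
    rw [ov_mem w hw] at h1
    apply q3b_sq
    have e : a ^ 2 + b ^ 2 = (a ^ 2 - b ^ 2 * D) + b ^ 2 * (D - (-1)) := by ring
    rw [e]
    exact dvd_add h1 (Dvd.dvd.mul_left (q3b_three.trans h) _)
  · rintro ⟨ha, hb⟩
    apply Valuation.map_add_lt
    · exact (ov_mem w hw a).2 ha
    · rw [map_mul]
      calc _ ≤ w.valuation F (jF F b) * 1 := mul_le_mul_right (q3b_le w (int_r hQ)) _
        _ < 1 := by rw [mul_one]; exact (ov_mem w hw b).2 hb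

omit hD in
theorem q3b_pos (w : HeightOneSpectrum (𝓞 F)) (hw : OvLa w) (h : (3 : Eis) ∣ D - 1) :
    ∃ s : Eis, (s = 1 ∨ s = -1) ∧ w.valuation F (r - jF F s) < 1 := by
  by_contra hc
  push Not at hc
  have h1 := hc 1 (Or.inl rfl)
  have h2 := hc (-1) (Or.inr rfl)
  have h3 : w.valuation F ((r - jF F 1) * (r - jF F (-1))) < 1 := by
    have e : (r - jF F 1) * (r - jF F (-1)) = jF F (D - 1) := by
      rw [map_sub, ← hQ.sq, map_neg, map_one]
      ring
    rw [e, ov_mem w hw]
    exact q3b_three.trans h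
  rw [map_mul] at h3
  exact absurd h3 (not_lt.2 (one_le_mul h1 h2))

omit hD hQ in
theorem q3b_pos_iff (w : HeightOneSpectrum (𝓞 F)) (hw : OvLa w) (s : Eis)
    (h : w.valuation F (r - jF F s) < 1) (a b : Eis) :
    w.valuation F (jF F a + jF F b * r) < 1 ↔ la ∣ a + b * s := by
  have h1 : w.valuation F (jF F b * (r - jF F s)) < 1 := by
    rw [map_mul]
    calc _ ≤ 1 * w.valuation F (r - jF F s) := mul_le_mul_left (q3b_le w (int_jF F b)) _
      _ < 1 := by rw [one_mul]; exact h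
  rw [← ov_mem w hw]
  constructor
  · intro hx
    have e : jF F (a + b * s) = (jF F a + jF F b * r) - jF F b * (r - jF F s) := by
      rw [map_add, map_mul]
      ring
    rw [e]
    exact Valuation.map_sub_lt _ hx h1
  · intro hx
    have e : jF F a + jF F b * r = jF F (a + b * s) + jF F b * (r - jF F s) := by
      rw [map_add, map_mul]
      ring
    rw [e]
    exact Valuation.map_add_lt _ hx h1

theorem ov_trans (w₁ w₂ : HeightOneSpectrum (𝓞 F)) (h₁ : OvLa w₁) (h₂ : OvLa w₂) :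
    (∀ x : F, w₂.valuation F x = w₁.valuation F x) ∨ ∀ x : F, w₂.valuation F x = w₁.valuation F (τ x) := by
  obtain ⟨η, hη, h3, -⟩ := hD.2.1
  rcases hη with rfl | rfl
  · obtain ⟨s₁, hs₁, hr₁⟩ := q3b_pos hQ w₁ h₁ h3
    obtain ⟨s₂, hs₂, hr₂⟩ := q3b_pos hQ w₂ h₂ h3
    by_cases hs : s₂ = s₁
    · left
      have : w₂ = w₁ := by
        apply q3b_ext
        intro x hx
        obtain ⟨a, b, rfl⟩ := exists_int hD hQ hx
        rw [q3b_pos_iff w₂ h₂ s₂ hr₂, q3b_pos_iff w₁ h₁ s₁ hr₁, hs]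
      rw [this]
      exact fun x => rfl
    · right
      obtain ⟨w', hw'⟩ := exists_cj τ w₁
      have : w₂ = w' := by
        apply q3b_ext
        intro x hx
        obtain ⟨a, b, rfl⟩ := exists_int hD hQ hx
        have e : τ (jF F a + jF F b * r) = jF F a + jF F (-b) * r := by
          rw [q3b_tau hQ, map_neg]
          ring
        rw [hw', e, q3b_pos_iff w₂ h₂ s₂ hr₂, q3b_pos_iff w₁ h₁ s₁ hr₁]
        have e2 : s₂ = -s₁ := by
          rcases hs₁ with rfl | rfl <;> rcases hs₂ with rfl | rfl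
          · exact absurd rfl hs
          · rfl
          · rw [neg_neg]
          · exact absurd rfl hs
        rw [e2, mul_neg, neg_mul]
      rw [this]
      exact hw'
  · left
    have : w₂ = w₁ := by
      apply q3b_ext
      intro x hx
      obtain ⟨a, b, rfl⟩ := exists_int hD hQ hx
      rw [q3b_neg hQ w₂ h₂ h3, q3b_neg hQ w₁ h₁ h3]
    rw [this]
    exact fun x => rfl

theorem ov_val (w : HeightOneSpectrum (𝓞 F)) (hw : OvLa w) : w.valuation F (jF F la) = WithZero.exp (-1 : ℤ) := by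
  have hlt : w.valuation F (jF F la) < 1 := hw
  have hle : w.valuation F (jF F la) ≤ WithZero.exp (-1 : ℤ) := by
    obtain ⟨LA, hLA⟩ : ∃ LA : 𝓞 F, jF F la = algebraMap (𝓞 F) F LA := ⟨⟨jF F la, int_jF F la⟩, rfl⟩
    rw [hLA] at hlt ⊢
    rw [HeightOneSpectrum.valuation_lt_one_iff_mem] at hlt
    rw [HeightOneSpectrum.valuation_of_algebraMap]
    have h1 := (w.intValuation_le_pow_iff_mem LA 1).2 (by rwa [pow_one])
    simpa using h1
  apply le_antisymm hle
  by_contra hc
  rw [not_le] at hc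
  obtain ⟨π, hπ⟩ := w.valuation_exists_uniformizer' F
  obtain ⟨a, b, hab⟩ := exists_int hD hQ π.2
  have hab' : (π : F) = jF F a + jF F b * r := hab
  have hπ' : w.valuation F (jF F a + jF F b * r) = WithZero.exp (-1 : ℤ) := by
    rw [← hab']
    exact hπ
  have hπlt : w.valuation F (jF F a + jF F b * r) < 1 := by
    rw [hπ', ← WithZero.exp_zero, WithZero.exp_lt_exp]
    norm_num
  have hdvd : ∀ c : Eis, la ∣ c → w.valuation F (jF F c) < WithZero.exp (-1 : ℤ) := by
    rintro c ⟨c', rfl⟩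
    rw [map_mul, map_mul]
    calc _ ≤ w.valuation F (jF F la) * 1 := mul_le_mul_right (q3b_le w (int_jF F c')) _
      _ < _ := by rw [mul_one]; exact hc
  obtain ⟨η, hη, h3, -⟩ := hD.2.1
  rcases hη with rfl | rfl
  · obtain ⟨s, hs, hr⟩ := q3b_pos hQ w hw h3
    have h1 := (q3b_pos_iff w hw s hr a b).1 hπlt
    have h2 : w.valuation F (r - jF F s) < WithZero.exp (-1 : ℤ) := by
      have e : jF F (D - 1) = (r - jF F s) * (r + jF F s) := by
        rw [map_sub, ← hQ.sq]
        rcases hs with rfl | rfl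
        · rw [map_one]; ring
        · rw [map_neg, map_one]; ring
      have h4 := hdvd (D - 1) (q3b_three.trans h3)
      have h5 : w.valuation F (r + jF F s) = 1 := by
        have e2 : r + jF F s = (r - jF F s) + jF F (2 * s) := by
          rw [map_mul, map_ofNat]
          ring
        have h6 : w.valuation F (jF F (2 * s)) = 1 := by
          apply le_antisymm (q3b_le w (int_jF F _))
          rw [← not_lt, ov_mem w hw, CU.la_dvd_iff]
          rcases hs with rfl | rfl
          · decide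
          · decide
        rw [e2, Valuation.map_add_eq_of_lt_right _ (by rw [h6]; exact hr), h6]
      rw [e, map_mul, h5, mul_one] at h4
      exact h4
    have h7 : w.valuation F (jF F a + jF F b * r) < WithZero.exp (-1 : ℤ) := by
      have e : jF F a + jF F b * r = jF F (a + b * s) + jF F b * (r - jF F s) := by
        rw [map_add, map_mul]
        ring
      rw [e]
      apply Valuation.map_add_lt _ (hdvd _ h1)
      rw [map_mul]
      calc _ ≤ 1 * w.valuation F (r - jF F s) := mul_le_mul_left (q3b_le w (int_jF F b)) _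
        _ < _ := by rw [one_mul]; exact h2
    rw [hπ'] at h7
    exact lt_irrefl _ h7
  · obtain ⟨h1, h2⟩ := (q3b_neg hQ w hw h3 a b).1 hπlt
    have h7 : w.valuation F (jF F a + jF F b * r) < WithZero.exp (-1 : ℤ) := by
      apply Valuation.map_add_lt _ (hdvd _ h1)
      rw [map_mul]
      calc _ ≤ w.valuation F (jF F b) * 1 := mul_le_mul_right (q3b_le w (int_r hQ)) _
        _ < _ := by rw [mul_one]; exact hdvd _ h2
    rw [hπ'] at h7
    exact lt_irrefl _ h7

theorem exists_ov : ∃ w : HeightOneSpectrum (𝓞 F), OvLa w := by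
  obtain ⟨LA, hLA⟩ : ∃ LA : 𝓞 F, jF F la = algebraMap (𝓞 F) F LA := ⟨⟨jF F la, int_jF F la⟩, rfl⟩
  have hu : ¬ IsUnit LA := by
    rintro ⟨u, hu⟩
    obtain ⟨a, b, hab⟩ := exists_int hD hQ (u⁻¹ : (𝓞 F)ˣ).1.2
    have h1 : jF F la * (((u⁻¹ : (𝓞 F)ˣ) : 𝓞 F) : F) = 1 := by
      rw [hLA, ← hu, ← map_mul, Units.mul_inv, map_one]
    have h2 : jF F la * (jF F a + jF F b * r) = 1 := by
      rw [← hab]
      exact h1
    have h3 : jF F (la * a - 1) + jF F (la * b) * r = 0 := by
      rw [map_sub, map_mul, map_mul, map_one]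
      linear_combination h2
    have h4 := (jr_inj hD hQ h3).1
    have h5 : la ∣ 1 := ⟨a, (sub_eq_zero.1 h4).symm⟩
    exact CU.la_prime.not_isUnit (isUnit_of_dvd_one h5)
  obtain ⟨m, hm, hle⟩ := Ideal.exists_le_maximal (Ideal.span {LA})
    (fun h => hu (Ideal.span_singleton_eq_top.1 h))
  have hmem : LA ∈ m := hle (Ideal.mem_span_singleton_self LA)
  have hne : m ≠ ⊥ := by
    rintro rfl
    rw [Submodule.mem_bot] at hmem
    rw [hmem, map_zero] at hLA
    have h1 : la = 0 := jF_inj F (by rw [hLA, map_zero])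
    exact CU.la_prime.ne_zero h1
  refine ⟨⟨m, hm.isPrime, hne⟩, ?_⟩
  unfold OvLa
  rw [hLA, HeightOneSpectrum.valuation_lt_one_iff_mem]
  exact hmem

end

end JD
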