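import Pool.Agent.JD.P2

/-!
# [JD-N1] cocycles with values in the points of `y² = x³ + d`; reduction of `Sha[3^∞] = 0` to cocycles with values in the kernel of `phiE` (port of CU/C9, CU/C9b)
-/

set_option autoImplicit false

open NumberField IsDedekindDomain
open scoped Classical

namespace JD

open CM27 CF JZ
open CU (la om eE)
open CUD (gal_comm alg_comm tau_comm am_ne am_o)

/-- locally constant crossed homomorphisms -/
structure Coc (F L : Type) [Field F] [Field L] [Algebra F L] (d : F)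
    (c : (L ≃ₐ[F] L) → (ED (algebraMap F L d)).toAffine.Point) : Prop where
  loc : IsLocallyConstant c
  crossed : ∀ σ τ : L ≃ₐ[F] L, c (σ * τ) = c σ + ptE (σ : L →+* L) (gal_comm σ d) (c τ)

/-- The crossed homomorphism `c` becomes principal over the extension `Fv` of `F` (with algebraic
closure `Lv`), for every embedding. -/
def LocTriv {F L : Type} [Field F] [Field L] [Algebra F L] {d : F}
    (c : (L ≃ₐ[F] L) → (ED (algebraMap F L d)).toAffine.Point) (Fv Lv : Type) [Field Fv]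
    [Algebra F Fv] [Field Lv] [Algebra Fv Lv] [Algebra F Lv] [IsScalarTower F Fv Lv] : Prop :=
  ∀ ι : L →ₐ[F] Lv, ∃ Q : (ED (algebraMap F Lv d)).toAffine.Point,
    ∀ (τ : Lv ≃ₐ[Fv] Lv) (σ : L ≃ₐ[F] L), (∀ x, ι (σ x) = τ (ι x)) →
      ptE (ι : L →+* Lv) (alg_comm ι d) (c σ) =
        ptE (τ : Lv →+* Lv) (tau_comm F Fv Lv τ d) Q - Q

theorem n1_loc_ptE {F L : Type} [Field F] [Field L] [Algebra F L] [Algebra.IsAlgebraic F L]
    {d : F} (P : (ED (algebraMap F L d)).toAffine.Point) :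
    IsLocallyConstant fun σ : L ≃ₐ[F] L => ptE (σ : L →+* L) (gal_comm σ d) P := by
  rcases P with _ | ⟨x, y, h⟩
  · exact IsLocallyConstant.const _
  · rw [IsLocallyConstant.iff_exists_open]
    intro σ
    obtain ⟨U, hU, hσU, hU'⟩ := (IsLocallyConstant.iff_exists_open _).1
      (CM27.fin_loc_apply (F := F) x) σ
    obtain ⟨V, hV, hσV, hV'⟩ := (IsLocallyConstant.iff_exists_open _).1
      (CM27.fin_loc_apply (F := F) y) σ
    refine ⟨U ∩ V, hU.inter hV, ⟨hσU, hσV⟩, fun τ hτ => ?_⟩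
    have h1 : τ x = σ x := hU' τ hτ.1
    have h2 : τ y = σ y := hV' τ hτ.2
    simp only [ptE]
    congr 1

theorem n1_comp {F L : Type} [Field F] [Field L] [Algebra F L] {d : F} (σ τ : L ≃ₐ[F] L)
    (P : (ED (algebraMap F L d)).toAffine.Point) :
    ptE ((σ * τ : L ≃ₐ[F] L) : L →+* L) (gal_comm (σ * τ) d) P =
      ptE (σ : L →+* L) (gal_comm σ d) (ptE (τ : L →+* L) (gal_comm τ d) P) := by
  rw [ptE_comp]
  rfl

theorem Coc.sub {F L : Type} [Field F] [CharZero F] [Field L] [Algebra F L]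
    [Algebra.IsAlgebraic F L] {d : F}
    {c : (L ≃ₐ[F] L) → (ED (algebraMap F L d)).toAffine.Point} (hc : Coc F L d c)
    (P : (ED (algebraMap F L d)).toAffine.Point) :
    Coc F L d (fun σ => c σ - (ptE (σ : L →+* L) (gal_comm σ d) P - P)) := by
  refine ⟨hc.loc.sub ((n1_loc_ptE (F := F) P).sub (IsLocallyConstant.const P)), fun σ τ => ?_⟩
  have h4 := hc.crossed σ τ
  change c (σ * τ) - (ptE ((σ * τ : L ≃ₐ[F] L) : L →+* L) (gal_comm (σ * τ) d) P - P) =
    (c σ - (ptE (σ : L →+* L) (gal_comm σ d) P - P)) +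
      ptE (σ : L →+* L) (gal_comm σ d) (c τ - (ptE (τ : L →+* L) (gal_comm τ d) P - P))
  rw [h4, n1_comp, ptE_sub, ptE_sub]
  abel

theorem LocTriv.sub {F L : Type} [Field F] [CharZero F] [Field L] [Algebra F L] {d : F}
    {c : (L ≃ₐ[F] L) → (ED (algebraMap F L d)).toAffine.Point} {Fv Lv : Type} [Field Fv]
    [Algebra F Fv] [Field Lv] [Algebra Fv Lv] [Algebra F Lv] [IsScalarTower F Fv Lv]
    (h : LocTriv c Fv Lv) (P : (ED (algebraMap F L d)).toAffine.Point) :
    LocTriv (fun σ => c σ - (ptE (σ : L →+* L) (gal_comm σ d) P - P)) Fv Lv := by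
  intro ι
  obtain ⟨Q, hQ⟩ := h ι
  refine ⟨Q - ptE (ι : L →+* Lv) (alg_comm ι d) P, fun τ σ hστ => ?_⟩
  have h7 : (ι : L →+* Lv).comp (σ : L →+* L) = (τ : Lv →+* Lv).comp (ι : L →+* Lv) := by
    ext x
    exact hστ x
  have h6 := hQ τ σ hστ
  have h8 : ptE (ι : L →+* Lv) (alg_comm ι d) (ptE (σ : L →+* L) (gal_comm σ d) P) =
      ptE (τ : Lv →+* Lv) (tau_comm F Fv Lv τ d) (ptE (ι : L →+* Lv) (alg_comm ι d) P) := by
    rw [ptE_comp, ptE_comp]
    exact ptE_congr h7 _ _ P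
  change ptE (ι : L →+* Lv) (alg_comm ι d) (c σ - (ptE (σ : L →+* L) (gal_comm σ d) P - P)) = _
  rw [ptE_sub, ptE_sub, ptE_sub, h6, h8]
  abel

theorem Coc.phi {F L : Type} [Field F] [Field L] [CharZero L] [Algebra F L] {d o : F}
    (ho : o ^ 2 + o + 1 = 0) {c : (L ≃ₐ[F] L) → (ED (algebraMap F L d)).toAffine.Point}
    (hc : Coc F L d c) : Coc F L d (fun σ => phiE (am_o (L := L) ho) (c σ)) := by
  refine ⟨hc.loc.comp (phiE (am_o (L := L) ho)), fun σ τ => ?_⟩
  rw [hc.crossed, phiE_add, phiE_ptE (am_o (L := L) ho) (σ : L →+* L) (gal_comm σ d)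
    (am_o (L := L) ho) (gal_comm σ o)]

theorem LocTriv.phi {F L : Type} [Field F] [Field L] [CharZero L] [Algebra F L] {d o : F}
    (ho : o ^ 2 + o + 1 = 0) {c : (L ≃ₐ[F] L) → (ED (algebraMap F L d)).toAffine.Point}
    {Fv Lv : Type} [Field Fv] [Algebra F Fv] [Field Lv] [CharZero Lv] [Algebra Fv Lv]
    [Algebra F Lv] [IsScalarTower F Fv Lv] (h : LocTriv c Fv Lv) :
    LocTriv (fun σ => phiE (am_o (L := L) ho) (c σ)) Fv Lv := by
  intro ι
  obtain ⟨Q, hQ⟩ := h ι
  refine ⟨phiE (am_o (L := Lv) ho) Q, fun τ σ hστ => ?_⟩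
  change ptE (ι : L →+* Lv) (alg_comm ι d) (phiE (am_o (L := L) ho) (c σ)) =
    ptE (τ : Lv →+* Lv) (tau_comm F Fv Lv τ d) (phiE (am_o (L := Lv) ho) Q) -
      phiE (am_o (L := Lv) ho) Q
  rw [← phiE_ptE (am_o (L := L) ho) (ι : L →+* Lv) (alg_comm ι d) (am_o (L := Lv) ho)
      (alg_comm ι o),
    ← phiE_ptE (am_o (L := Lv) ho) (τ : Lv →+* Lv) (tau_comm F Fv Lv τ d) (am_o (L := Lv) ho)
      (tau_comm F Fv Lv τ o), hQ τ σ hστ, phiE_sub]

/-- A cocycle with values in the kernel of `phiE`, which is trivial at all finite places, is principal. -/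
def Step (F : Type) [Field F] [NumberField F] (d : F) : Prop :=
  ∀ c : (AlgebraicClosure F ≃ₐ[F] AlgebraicClosure F) →
      (ED (algebraMap F (AlgebraicClosure F) d)).toAffine.Point,
    Coc F (AlgebraicClosure F) d c → (∀ σ, KerE (c σ)) →
    (∀ v : HeightOneSpectrum (𝓞 F),
      LocTriv c (v.adicCompletion F) (AlgebraicClosure (v.adicCompletion F))) →
    ∃ T : (ED (algebraMap F (AlgebraicClosure F) d)).toAffine.Point,
      ∀ σ, c σ = ptE (σ : AlgebraicClosure F →+* AlgebraicClosure F) (gal_comm σ d) T - T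

theorem sha_core {F : Type} [Field F] [NumberField F] {d o : F} (hd : d ≠ 0) (ho : o ^ 2 + o + 1 = 0)
    (hstep : Step F d)
    (c : (AlgebraicClosure F ≃ₐ[F] AlgebraicClosure F) →
      (ED (algebraMap F (AlgebraicClosure F) d)).toAffine.Point)
    (hc : Coc F (AlgebraicClosure F) d c)
    (hloc : ∀ v : HeightOneSpectrum (𝓞 F),
      LocTriv c (v.adicCompletion F) (AlgebraicClosure (v.adicCompletion F)))
    (h3 : ∃ P : (ED (algebraMap F (AlgebraicClosure F) d)).toAffine.Point, ∀ σ,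
      3 • c σ = ptE (σ : AlgebraicClosure F →+* AlgebraicClosure F) (gal_comm σ d) P - P) :
    ∃ P : (ED (algebraMap F (AlgebraicClosure F) d)).toAffine.Point, ∀ σ,
      c σ = ptE (σ : AlgebraicClosure F →+* AlgebraicClosure F) (gal_comm σ d) P - P := by
  have hDL : algebraMap F (AlgebraicClosure F) d ≠ 0 := am_ne hd
  have hoL : algebraMap F (AlgebraicClosure F) o ^ 2 + algebraMap F (AlgebraicClosure F) o + 1
      = 0 := am_o ho
  -- division by three
  obtain ⟨Q, hQ⟩ := h3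
  obtain ⟨P', hP'⟩ := phiE_surj hDL hoL Q
  obtain ⟨P'', hP''⟩ := phiE_surj hDL hoL P'
  have hP3 : Q = 3 • (-omE hoL P'') := by
    rw [← hP', ← hP'', phiE_phiE hDL, smul_neg]
  set P := -omE hoL P'' with hPdef
  -- first step
  have hc1 := hc.sub P
  have hl1 := fun v => (hloc v).sub P
  set c1 : (AlgebraicClosure F ≃ₐ[F] AlgebraicClosure F) →
    (ED (algebraMap F (AlgebraicClosure F) d)).toAffine.Point :=
    fun σ => c σ - (ptE (σ : AlgebraicClosure F →+* AlgebraicClosure F) (gal_comm σ d) P - P)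
    with hc1def
  have h3c : ∀ σ, 3 • c1 σ = 0 := by
    intro σ
    rw [hc1def]
    simp only
    rw [nsmul_sub, hQ σ, hP3, ptE_nsmul, nsmul_sub, sub_self]
  have hK' : ∀ σ, KerE (phiE hoL (c1 σ)) := by
    intro σ
    rw [← phiE_eq_zero hDL hoL, phiE_phiE hDL, ← map_nsmul, h3c, map_zero, neg_zero]
  have hchar : ∀ v : HeightOneSpectrum (𝓞 F),
      CharZero (AlgebraicClosure (v.adicCompletion F)) := fun v =>
    charZero_of_injective_algebraMap
      (algebraMap F (AlgebraicClosure (v.adicCompletion F))).injective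
  obtain ⟨T, hT⟩ := hstep (fun σ => phiE hoL (c1 σ)) (hc1.phi ho) hK'
    (fun v => by
      have := hchar v
      exact (hl1 v).phi ho)
  obtain ⟨T', hT'⟩ := phiE_surj hDL hoL T
  -- second step
  have hc2 := hc1.sub T'
  have hl2 := fun v => (hl1 v).sub T'
  set c2 : (AlgebraicClosure F ≃ₐ[F] AlgebraicClosure F) →
    (ED (algebraMap F (AlgebraicClosure F) d)).toAffine.Point :=
    fun σ => c1 σ -
      (ptE (σ : AlgebraicClosure F →+* AlgebraicClosure F) (gal_comm σ d) T' - T') with hc2def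
  have hK2 : ∀ σ, KerE (c2 σ) := by
    intro σ
    have h5 : phiE hoL (c1 σ) =
      ptE (σ : AlgebraicClosure F →+* AlgebraicClosure F) (gal_comm σ d) T - T := hT σ
    have h8 : c2 σ = c1 σ -
      (ptE (σ : AlgebraicClosure F →+* AlgebraicClosure F) (gal_comm σ d) T' - T') := rfl
    rw [← phiE_eq_zero hDL hoL, h8, phiE_sub hoL (c1 σ), h5, phiE_sub,
      phiE_ptE hoL (σ : AlgebraicClosure F →+* AlgebraicClosure F) (gal_comm σ d) hoL
        (gal_comm σ o), hT', sub_self]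
  obtain ⟨T2, hT2⟩ := hstep c2 hc2 hK2 hl2
  refine ⟨P + T' + T2, fun σ => ?_⟩
  have h6 : c σ - (ptE (σ : AlgebraicClosure F →+* AlgebraicClosure F) (gal_comm σ d) P - P) -
      (ptE (σ : AlgebraicClosure F →+* AlgebraicClosure F) (gal_comm σ d) T' - T') =
      ptE (σ : AlgebraicClosure F →+* AlgebraicClosure F) (gal_comm σ d) T2 - T2 := hT2 σ
  have h7 : c σ =
      (ptE (σ : AlgebraicClosure F →+* AlgebraicClosure F) (gal_comm σ d) T2 - T2) +
      (ptE (σ : AlgebraicClosure F →+* AlgebraicClosure F) (gal_comm σ d) T' - T') +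
      (ptE (σ : AlgebraicClosure F →+* AlgebraicClosure F) (gal_comm σ d) P - P) := by
    rw [← h6]
    abel
  rw [h7, ptE_add, ptE_add]
  abel

theorem n1_gen {F : Type} [Field F] [NumberField F] {d o : F} (hd : d ≠ 0) (ho : o ^ 2 + o + 1 = 0)
    (hstep : Step F d)
    (c : SBSD.AbsGal F → SBSD.Pts (ED d) (AlgebraicClosure F)) (hc : c ∈ SBSD.cocycles (ED d))
    (hloc : ∀ v : HeightOneSpectrum (𝓞 F), SBSD.TrivialOver (ED d) (v.adicCompletion F) c)
    (h3 : ∃ P : SBSD.Pts (ED d) (AlgebraicClosure F), ∀ σ : SBSD.AbsGal F,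
      3 • c σ = WeierstrassCurve.Affine.Point.map (W' := ED d) σ.toAlgHom P - P) :
    c ∈ SBSD.coboundaries (ED d) := by
  obtain ⟨hc1, hc2⟩ := hc
  let L := AlgebraicClosure F
  let ee := trE d L
  have hgact : ∀ (σ : L ≃ₐ[F] L) (P : SBSD.Pts (ED d) (AlgebraicClosure F)),
      ee (WeierstrassCurve.Affine.Point.map (W' := ED d) σ.toAlgHom P) =
        ptE (σ : L →+* L) (gal_comm σ d) (ee P) := fun σ P => trE_map d L L σ.toAlgHom P
  obtain ⟨Q, hQ⟩ := h3
  obtain ⟨P, hP⟩ := sha_core hd ho hstep (fun σ => ee (c σ))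
    ⟨hc1.comp ee, fun σ τ => by
      rw [hc2 σ τ, map_add, hgact]⟩
    (fun v ι => by
      obtain ⟨Q', hQ'⟩ := hloc v ι
      refine ⟨trE d (AlgebraicClosure (v.adicCompletion F)) Q', fun τ σ hστ => ?_⟩
      have h6 := congrArg (trE d (AlgebraicClosure (v.adicCompletion F))) (hQ' τ σ hστ)
      rw [trE_map, map_sub, trE_map] at h6
      exact h6)
    ⟨ee Q, fun σ => by
      change 3 • ee (c σ) = ptE (σ : L →+* L) (gal_comm σ d) (ee Q) - ee Q
      rw [← map_nsmul, hQ σ, map_sub, hgact]⟩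
  refine ⟨ee.symm P, fun σ => ee.injective ?_⟩
  rw [map_sub, hgact, ee.apply_symm_apply]
  exact hP σ

theorem sha_pow {F : Type} [Field F] [NumberField F] {d o : F} (hd : d ≠ 0) (ho : o ^ 2 + o + 1 = 0)
    (hstep : Step F d) (x : SBSD.Sha (ED d)) (k : ℕ) (h : 3 ^ k • x = 0) : x = 0 := by
  refine CUD.c9b_three_pow (A := SBSD.Sha (ED d)) (fun x hx => ?_) k x h
  obtain ⟨c, rfl⟩ := QuotientAddGroup.mk_surjective x
  obtain ⟨hc1, hc2, -⟩ := c.2
  have h3 : 3 • c ∈ (SBSD.coboundaries (ED d)).addSubgroupOf (SBSD.locTrivial (ED d)) := by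
    rw [← QuotientAddGroup.eq_zero_iff]
    exact hx
  obtain ⟨P, hP⟩ := AddSubgroup.mem_addSubgroupOf.1 h3
  exact (QuotientAddGroup.eq_zero_iff _).2 (AddSubgroup.mem_addSubgroupOf.2
    (n1_gen hd ho hstep c.1 hc1 hc2 ⟨P, fun σ => hP σ⟩))

end JD
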