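import Mathlib

/-!
# [JD-L2] the image of a point: `y - r = h³ u` with `u⁸ ≡ 1 mod l²`

PROOF. `w l = exp (-1)`, `w ε = 1`, `3 = ε l²`, so `w 3 = exp (-2)`, `w 2 = 1` (`2 = 3 - 1`), `w d = w r = 1`. `(y - r)(y + r) = x³`. (*) `w ((2 r)^8 - 1) ≤ exp (-2)`: `(2 r)^8 = 256 d⁴`, `256 = 1 + 3·85`, `d⁴ - 1 = (d - η)(..)` (`η² = 1`).
More generally: if `w (u - c (2 r)) ≤ exp (-2)` with `c = ± 1`, then `w (u^8 - 1) ≤ exp (-2)` (`u^8 - (2 r)^8 = (u - c 2 r)(..)`, everything integral), and `w (u⁻¹ ^ 8 - 1) ≤ exp (-2)` as well (`w u = 1`).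
(A) `exp 3 ≤ w y`: `w (y ± r) = w y`; `x ≠ 0`; `u = (y + r)/(y - r)`, `h = (y - r)/x`: `h³ u = (y - r)³ (y + r)/(x³ (y - r)) = y - r`. `u - 1 = 2 r/(y - r)`, `w (u - 1) ≤ exp (-3)`, so `w u = 1`, `w (u^8 - 1) ≤ exp (-3)`.
(B) `w x = 1`, `w y ≤ exp (-2)`: the same `u, h`; `w (y ± r) = 1`, `u + 1 = 2 y/(y - r)`, `w (u + 1) ≤ exp (-2)`, `w (u^8 - 1) ≤ exp (-2)`.
(C) `η = 1`, `w y = 1`, `y ≡ ± 1`: `(r - 1)(r + 1) = d - 1`, so `w (r - s) < 1` for `s = 1` or `s = -1`. So `w (y - r) < 1` or `w (y + r) < 1`.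
  `w (y - r) < 1`: `w (y + r) = w (2 r + (y - r)) = 1`, `w (y - r) = w x ^ 3 < 1`, so it is `≤ exp (-3)` (`w x < 1`, `w x ≤ exp (-1)`). `y - r = x³ (y + r)⁻¹`, `h = x` (`≠ 0` because `y - r ≠ 0`), `u = (y + r)⁻¹`, `w ((y + r) - 2 r) ≤ exp (-3)`: (*).
  `w (y + r) < 1`: `w (y - r) = 1`, `w (y + r) = w x ^ 3`, `≤ exp (-3)` (also if `x = 0`); `h = 1`, `u = y - r`, `w (u + 2 r) ≤ exp (-3)`.
(E) `η = -1`, `w y = w x = 1`, `w (y² - d + 1) ≤ exp (-3)`: again `u = (y + r)/(y - r)`, `h = (y - r)/x`; `w (y - r) = w (y + r) = 1` (both `≤ 1`, product `w x^3 = 1`). `u⁻¹ = (y - r)/(y + r) = (y - r)²/x³`. `u⁻⁸ = (y - r)^16 / (x³)^8`. `x³ = y² - d ≡ -1 mod l³`, so `(x³)^8 ≡ 1`.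
  `(y - r)² = y² + d - 2 y r ≡ (d - 1) + d - 2 y r ≡ -2 y r mod l²` (`2 d - 1 ≡ -3 ≡ 0`), `(y - r)⁴ ≡ 4 y² d ≡ 4 (d - 1) d ≡ 4·(-2)(-1) = 8 ≡ -1 mod l²` (`d ≡ -1`, `9 ≡ 0`), `(y - r)^16 ≡ 1 mod l²`. So `w (u⁻⁸ - 1) ≤ exp (-2)`.
-/

set_option autoImplicit false

namespace JD

open WithZero

section l2
variable {C : Type} [Field C] {w : Valuation C (WithZero (Multiplicative ℤ))}

theorem l2_lt1 {x : C} (h : w x < 1) : w x ≤ exp (-1 : ℤ) := by
  by_cases hx : w x = 0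
  · rw [hx]; exact zero_le
  · obtain ⟨k, hk⟩ : ∃ k : ℤ, w x = exp k := ⟨log (w x), (exp_log hx).symm⟩
    rw [hk, ← exp_zero, exp_lt_exp] at h
    rw [hk, exp_le_exp]
    omega

theorem l2_of_le {x : C} {n : ℤ} (hn : n < 0) (h : w x ≤ exp n) : w x < 1 := by
  refine lt_of_le_of_lt h ?_
  rw [← exp_zero, exp_lt_exp]
  exact hn

theorem l2_mul {a b : C} {g : WithZero (Multiplicative ℤ)} (ha : w a ≤ 1) (hb : w b ≤ g) : w (a * b) ≤ g := by
  rw [map_mul]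
  exact (mul_le_of_le_one_left' ha).trans hb

theorem l2_one_of {x y : C} (hy : w y = 1) (hxy : w (x - y) < 1) : w x = 1 := by
  have h1 : x = (x - y) + y := by ring
  rw [h1, Valuation.map_add_eq_of_lt_right w (by rw [hy]; exact hxy), hy]

theorem l2_sgn {s : C} (hs : s = 1 ∨ s = -1) : w s = 1 := by
  rcases hs with rfl | rfl
  · exact map_one _
  · rw [Valuation.map_neg, map_one]

/-- powers of congruent integral elements -/
theorem l2_pow {a b : C} {g : WithZero (Multiplicative ℤ)} (ha : w a ≤ 1) (hb : w b ≤ 1) (h : w (a - b) ≤ g) (n : ℕ) :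
    w (a ^ n - b ^ n) ≤ g := by
  induction n with
  | zero => rw [pow_zero, pow_zero, sub_self, map_zero]; exact zero_le
  | succ n ih =>
    have h1 : a ^ (n + 1) - b ^ (n + 1) = a * (a ^ n - b ^ n) + b ^ n * (a - b) := by ring
    rw [h1]
    refine w.map_add_le (l2_mul ha ih) (l2_mul ?_ h)
    rw [map_pow]
    exact pow_le_one' hb n

theorem l2_pow1 {a b : C} {g : WithZero (Multiplicative ℤ)} (ha : w a ≤ 1) (hb : w b ≤ 1) (h : w (a - b) ≤ g) (n : ℕ)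
    (hbn : b ^ n = 1) : w (a ^ n - 1) ≤ g := by
  have h1 := l2_pow ha hb h n
  rwa [hbn] at h1

theorem l2_inv {u : C} {g : WithZero (Multiplicative ℤ)} (hu : w u = 1) (h : w (u ^ 8 - 1) ≤ g) :
    w (u⁻¹ ^ 8 - 1) ≤ g := by
  have hu0 : u ≠ 0 := by
    intro h0
    rw [h0, map_zero] at hu
    exact zero_ne_one hu
  have h1 : u⁻¹ ^ 8 - 1 = -(u⁻¹ ^ 8) * (u ^ 8 - 1) := by
    field_simp
    ring
  rw [h1]
  refine l2_mul ?_ h
  rw [Valuation.map_neg, map_pow, map_inv₀, hu, inv_one, one_pow]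

theorem l2_three {l ε : C} (hl : w l = exp (-1 : ℤ)) (hε : w ε = 1) (h3 : (3 : C) = ε * l ^ 2) :
    w (3 : C) ≤ exp (-2 : ℤ) := by
  rw [h3, map_mul, map_pow, hl, hε, one_mul, ← exp_nsmul, exp_le_exp]
  norm_num

theorem l2_two {l ε : C} (hl : w l = exp (-1 : ℤ)) (hε : w ε = 1) (h3 : (3 : C) = ε * l ^ 2) :
    w (2 : C) = 1 := by
  have h1 : (2 : C) - (-1) = 3 := by norm_num
  exact l2_one_of (l2_sgn (Or.inr rfl)) (by rw [h1]; exact l2_of_le (by norm_num) (l2_three hl hε h3))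

theorem l2_four {l ε : C} (hl : w l = exp (-1 : ℤ)) (hε : w ε = 1) (h3 : (3 : C) = ε * l ^ 2) :
    w (4 : C) = 1 := by
  have h1 : (4 : C) = 2 ^ 2 := by norm_num
  rw [h1, map_pow, l2_two hl hε h3, one_pow]

theorem l2_d {d η : C} (hη : η = 1 ∨ η = -1) (hd : w (d - η) ≤ exp (-2 : ℤ)) : w d = 1 :=
  l2_one_of (l2_sgn hη) (l2_of_le (by norm_num) hd)

theorem l2_r {d η r : C} (hr : r ^ 2 = d) (hη : η = 1 ∨ η = -1) (hd : w (d - η) ≤ exp (-2 : ℤ)) : w r = 1 := by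
  have h1 := l2_d hη hd
  rw [← hr, map_pow] at h1
  exact (pow_eq_one_iff.1 h1).resolve_right (by norm_num)

theorem l2_eta {η : C} (hη : η = 1 ∨ η = -1) : η ^ 4 = 1 := by
  rcases hη with rfl | rfl <;> norm_num

/-- `(2 r)^8 ≡ 1` -/
theorem l2_star {l ε : C} (hl : w l = exp (-1 : ℤ)) (hε : w ε = 1) (h3 : (3 : C) = ε * l ^ 2)
    {d η r : C} (hr : r ^ 2 = d) (hη : η = 1 ∨ η = -1) (hd : w (d - η) ≤ exp (-2 : ℤ)) :
    w ((2 * r) ^ 8 - 1) ≤ exp (-2 : ℤ) := by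
  have h1 : (2 * r) ^ 8 - 1 = (4 * d) ^ 4 - η ^ 4 := by
    rw [l2_eta hη, ← hr]; ring
  rw [h1]
  have hwd := l2_d hη hd
  refine l2_pow ?_ (l2_sgn hη).le ?_ 4
  · rw [map_mul, l2_four hl hε h3, hwd, one_mul]
  · have h2 : 4 * d - η = d * 3 + (d - η) := by ring
    rw [h2]
    exact w.map_add_le (l2_mul hwd.le (l2_three hl hε h3)) hd

/-- `u ≡ ± 2 r` implies `u^8 ≡ 1` -/
theorem l2_star' {l ε : C} (hl : w l = exp (-1 : ℤ)) (hε : w ε = 1) (h3 : (3 : C) = ε * l ^ 2)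
    {d η r u c : C} (hr : r ^ 2 = d) (hη : η = 1 ∨ η = -1) (hd : w (d - η) ≤ exp (-2 : ℤ))
    (hc : c = 1 ∨ c = -1) (hu : w u ≤ 1) (huc : w (u - c * (2 * r)) ≤ exp (-2 : ℤ)) :
    w (u ^ 8 - 1) ≤ exp (-2 : ℤ) := by
  have hwr := l2_r hr hη hd
  have h1 : w (u ^ 8 - (c * (2 * r)) ^ 8) ≤ exp (-2 : ℤ) := by
    refine l2_pow hu ?_ huc 8
    rw [map_mul, map_mul, l2_sgn hc, l2_two hl hε h3, hwr, one_mul, one_mul]
  have h2 : (c * (2 * r)) ^ 8 = (2 * r) ^ 8 := by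
    rcases hc with rfl | rfl <;> ring
  have h4 : u ^ 8 - 1 = (u ^ 8 - (c * (2 * r)) ^ 8) + ((2 * r) ^ 8 - 1) := by rw [h2]; ring
  rw [h4]
  exact w.map_add_le h1 (l2_star hl hε h3 hr hη hd)

/-- the common form of the cases A, B, E -/
theorem l2_abe {d x y r : C} (hr : r ^ 2 = d) (he : y ^ 2 = x ^ 3 + d) (hx : x ≠ 0) (h1 : w (y - r) ≠ 0)
    (h2 : w (y + r) = w (y - r)) (h3 : w (((y + r) / (y - r)) ^ 8 - 1) ≤ exp (-2 : ℤ)) :
    ∃ h u : C, h ≠ 0 ∧ y - r = h ^ 3 * u ∧ w u = 1 ∧ w (u ^ 8 - 1) ≤ exp (-2 : ℤ) := by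
  have hm : y - r ≠ 0 := fun h0 => h1 (by rw [h0, map_zero])
  have hp : y + r ≠ 0 := fun h0 => h1 (by rw [← h2, h0, map_zero])
  have hx3 : x ^ 3 = (y - r) * (y + r) := by
    have : x ^ 3 = y ^ 2 - r ^ 2 := by rw [he, hr]; ring
    rw [this]; ring
  refine ⟨(y - r) / x, (y + r) / (y - r), div_ne_zero hm hx, ?_, ?_, h3⟩
  · rw [div_pow, hx3]
    field_simp
  · rw [map_div₀, h2, div_self h1]

end l2

theorem ll {C : Type} [Field C] {w : Valuation C (WithZero (Multiplicative ℤ))} {l ε : C} (hl : w l = exp (-1 : ℤ))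
    (hε : w ε = 1) (h3 : (3 : C) = ε * l ^ 2) {d η x y r : C} (hr : r ^ 2 = d) (hη : η = 1 ∨ η = -1)
    (hd : w (d - η) ≤ exp (-2 : ℤ)) (he : y ^ 2 = x ^ 3 + d) (hne : y - r ≠ 0)
    (ht : exp (3 : ℤ) ≤ w y ∨ (w x = 1 ∧ w y ≤ exp (-2 : ℤ)) ∨
      (w y = 1 ∧ η = 1 ∧ (w (y - 1) < 1 ∨ w (y + 1) < 1)) ∨
      (w y = 1 ∧ η = -1 ∧ w x = 1 ∧ w (y ^ 2 - d + 1) ≤ exp (-3 : ℤ))) :
    ∃ h u : C, h ≠ 0 ∧ y - r = h ^ 3 * u ∧ w u = 1 ∧ w (u ^ 8 - 1) ≤ exp (-2 : ℤ) := by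
  have hwd := l2_d hη hd
  have hwr := l2_r hr hη hd
  have hw2 := l2_two hl hε h3
  have hw3 := l2_three hl hε h3
  have hxy : x ^ 3 = (y - r) * (y + r) := by
    have : x ^ 3 = y ^ 2 - r ^ 2 := by rw [he, hr]; ring
    rw [this]; ring
  have hwxy : w x ^ 3 = w (y - r) * w (y + r) := by rw [← map_pow, hxy, map_mul]
  rcases ht with hA | ⟨hx, hy⟩ | ⟨hy, hη1, hy1⟩ | ⟨hy, hη1, hx, hy3⟩
  · -- A
    have hwy1 : 1 < w y := by
      refine lt_of_lt_of_le ?_ hA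
      rw [← exp_zero, exp_lt_exp]
      norm_num
    have hm : w (y - r) = w y := Valuation.map_sub_eq_of_lt_left w (by rw [hwr]; exact hwy1)
    have hp : w (y + r) = w y := Valuation.map_add_eq_of_lt_left w (by rw [hwr]; exact hwy1)
    have hy0 : w y ≠ 0 := ne_of_gt (lt_trans zero_lt_one hwy1)
    have hx0 : x ≠ 0 := by
      intro h0
      rw [hm, hp, h0, map_zero, zero_pow (by norm_num)] at hwxy
      exact mul_ne_zero hy0 hy0 hwxy.symm
    refine l2_abe hr he hx0 (by rw [hm]; exact hy0) (by rw [hm, hp]) ?_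
    have hwu : w ((y + r) / (y - r)) = 1 := by rw [map_div₀, hm, hp, div_self hy0]
    refine l2_pow1 hwu.le (map_one w).le ?_ 8 (one_pow 8)
    have h5 : (y + r) / (y - r) - 1 = 2 * r / (y - r) := by
      field_simp
      ring
    rw [h5, map_div₀, map_mul, hw2, hwr, one_mul, hm, div_le_iff₀ (zero_lt_iff.2 hy0)]
    calc (1 : WithZero (Multiplicative ℤ)) ≤ exp (-2 : ℤ) * exp (3 : ℤ) := by
          rw [← exp_add, ← exp_zero, exp_le_exp]; norm_num
      _ ≤ exp (-2 : ℤ) * w y := by gcongr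
  · -- B
    have hyr : w y < w r := by rw [hwr]; exact l2_of_le (by norm_num) hy
    have hm : w (y - r) = 1 := by rw [Valuation.map_sub_eq_of_lt_right w hyr, hwr]
    have hp : w (y + r) = 1 := by rw [Valuation.map_add_eq_of_lt_right w hyr, hwr]
    have hx0 : x ≠ 0 := by
      intro h0
      rw [h0, map_zero] at hx
      exact zero_ne_one hx
    refine l2_abe hr he hx0 (by rw [hm]; exact one_ne_zero) (by rw [hm, hp]) ?_
    have hwu : w ((y + r) / (y - r)) = 1 := by rw [map_div₀, hm, hp, div_self one_ne_zero]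
    refine l2_pow1 (b := -1) hwu.le (l2_sgn (Or.inr rfl)).le ?_ 8 (by norm_num)
    have h5 : (y + r) / (y - r) - (-1) = 2 * y / (y - r) := by
      field_simp
      ring
    rw [h5, map_div₀, map_mul, hw2, one_mul, hm, div_one]
    exact hy
  · -- C
    subst hη1
    have hr1 : w (r - 1) * w (r + 1) < 1 := by
      rw [← map_mul]
      have h5 : (r - 1) * (r + 1) = d - 1 := by rw [← hr]; ring
      rw [h5]
      exact l2_of_le (by norm_num) hd
    have hr2 : w (r - 1) < 1 ∨ w (r + 1) < 1 := by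
      by_contra hcon
      rw [not_or, not_lt, not_lt] at hcon
      exact absurd hr1 (not_lt.2 (one_le_mul hcon.1 hcon.2))
    have h6 : w (y - r) < 1 ∨ w (y + r) < 1 := by
      rcases hy1 with h7 | h7 <;> rcases hr2 with h8 | h8
      · left
        have : y - r = (y - 1) - (r - 1) := by ring
        rw [this]; exact w.map_sub_lt h7 h8
      · right
        have : y + r = (y - 1) + (r + 1) := by ring
        rw [this]; exact w.map_add_lt h7 h8
      · right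
        have : y + r = (y + 1) + (r - 1) := by ring
        rw [this]; exact w.map_add_lt h7 h8
      · left
        have : y - r = (y + 1) - (r + 1) := by ring
        rw [this]; exact w.map_sub_lt h7 h8
    have hw2r : w (2 * r) = 1 := by rw [map_mul, hw2, hwr, one_mul]
    have hcube : ∀ g : WithZero (Multiplicative ℤ), g < 1 → w x ^ 3 = g → g ≤ exp (-2 : ℤ) := by
      intro g hg hx
      have hx1 : w x < 1 := by
        by_contra hcon
        rw [← hx] at hg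
        exact absurd hg (not_lt.2 (one_le_pow_of_one_le' (not_lt.1 hcon) 3))
      have hx2 := l2_lt1 hx1
      rw [← hx]
      calc w x ^ 3 ≤ (exp (-1 : ℤ)) ^ 3 := pow_le_pow_left' hx2 3
        _ = exp (3 • (-1 : ℤ)) := (exp_nsmul 3 (-1 : ℤ)).symm
        _ ≤ exp (-2 : ℤ) := by rw [exp_le_exp]; norm_num
    rcases h6 with h6 | h6
    · have hp : w (y + r) = 1 := l2_one_of hw2r (by
        have : y + r - 2 * r = y - r := by ring
        rw [this]; exact h6)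
      have hp0 : y + r ≠ 0 := by
        intro h0
        rw [h0, map_zero] at hp
        exact zero_ne_one hp
      rw [hp, mul_one] at hwxy
      have hm2 := hcube _ h6 hwxy
      have hx0 : x ≠ 0 := by
        intro h0
        rw [h0, zero_pow (by norm_num)] at hxy
        exact mul_ne_zero hne hp0 hxy.symm
      refine ⟨x, (y + r)⁻¹, hx0, ?_, by rw [map_inv₀, hp, inv_one], ?_⟩
      · rw [hxy]; field_simp
      · refine l2_inv hp (l2_star' hl hε h3 hr (Or.inl rfl) hd (c := 1) (Or.inl rfl) hp.le ?_)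
        have : y + r - 1 * (2 * r) = y - r := by ring
        rw [this]; exact hm2
    · have hm : w (y - r) = 1 := by
        have h7 : w (-(2 * r)) = 1 := by rw [Valuation.map_neg, hw2r]
        exact l2_one_of h7 (by
          have : y - r - -(2 * r) = y + r := by ring
          rw [this]; exact h6)
      rw [hm, one_mul] at hwxy
      have hp2 := hcube _ h6 hwxy
      refine ⟨1, y - r, one_ne_zero, by ring, hm, ?_⟩
      refine l2_star' hl hε h3 hr (Or.inl rfl) hd (c := -1) (Or.inr rfl) hm.le ?_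
      have : y - r - -1 * (2 * r) = y + r := by ring
      rw [this]; exact hp2
  · -- E
    subst hη1
    have hmle : w (y - r) ≤ 1 := w.map_sub_le hy.le hwr.le
    have hple : w (y + r) ≤ 1 := w.map_add_le hy.le hwr.le
    rw [hx, one_pow] at hwxy
    have hm : w (y - r) = 1 := by
      refine le_antisymm hmle ?_
      rw [hwxy]
      exact mul_le_of_le_one_right' hple
    have hp : w (y + r) = 1 := by
      rw [hm, one_mul] at hwxy
      exact hwxy.symm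
    have hx0 : x ≠ 0 := by
      intro h0
      rw [h0, map_zero] at hx
      exact zero_ne_one hx
    have hm0 : y - r ≠ 0 := hne
    have hp0 : y + r ≠ 0 := by
      intro h0
      rw [h0, map_zero] at hp
      exact zero_ne_one hp
    refine l2_abe hr he hx0 (by rw [hm]; exact one_ne_zero) (by rw [hm, hp]) ?_
    have hy2 : w (y ^ 2 - d + 1) ≤ exp (-2 : ℤ) := hy3.trans (by rw [exp_le_exp]; norm_num)
    have h2d : w (2 * d - 1) ≤ exp (-2 : ℤ) := by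
      have h5 : 2 * d - 1 = 2 * (d - -1) - 3 := by ring
      rw [h5]
      exact w.map_sub_le (l2_mul hw2.le hd) hw3
    have h2d1 : w (2 * d - 1) ≤ 1 := (l2_of_le (by norm_num) h2d).le
    have hsq : w ((y - r) ^ 2 - (-(2 * y * r))) ≤ exp (-2 : ℤ) := by
      have h5 : (y - r) ^ 2 - (-(2 * y * r)) = (y ^ 2 - d + 1) + (2 * d - 1) := by
        rw [← hr]; ring
      rw [h5]
      exact w.map_add_le hy2 h2d
    have hwm2 : w ((y - r) ^ 2) ≤ 1 := by rw [map_pow, hm, one_pow]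
    have hw2yr : w (-(2 * y * r)) ≤ 1 := by
      rw [Valuation.map_neg, map_mul, map_mul, hw2, hy, hwr, one_mul, one_mul]
    have hq : w ((y - r) ^ 4 - (-1)) ≤ exp (-2 : ℤ) := by
      have h5 : (y - r) ^ 4 - (-1) = (((y - r) ^ 2) ^ 2 - (-(2 * y * r)) ^ 2) +
          (4 * d * (y ^ 2 - d + 1) + (2 * d - 1) * (2 * d - 1)) := by
        rw [← hr]; ring
      rw [h5]
      refine w.map_add_le (l2_pow hwm2 hw2yr hsq 2) (w.map_add_le (l2_mul ?_ hy2) (l2_mul h2d1 h2d))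
      rw [map_mul, l2_four hl hε h3, hwd, one_mul]
    have hwm4 : w ((y - r) ^ 4) ≤ 1 := by rw [map_pow, hm, one_pow]
    have h16 : w (((y - r) ^ 4) ^ 4 - 1) ≤ exp (-2 : ℤ) :=
      l2_pow1 (b := -1) hwm4 (l2_sgn (Or.inr rfl)).le hq 4 (by norm_num)
    have hx3w : w (x ^ 3) ≤ 1 := by rw [map_pow, hx, one_pow]
    have hx3 : w (x ^ 3 - (-1)) ≤ exp (-2 : ℤ) := by
      have h5 : x ^ 3 - (-1) = y ^ 2 - d + 1 := by rw [he]; ring
      rw [h5]; exact hy2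
    have h24 : w ((x ^ 3) ^ 8 - 1) ≤ exp (-2 : ℤ) :=
      l2_pow1 (b := -1) hx3w (l2_sgn (Or.inr rfl)).le hx3 8 (by norm_num)
    have h7 : ((y + r) / (y - r)) ^ 8 - 1 = (((y - r) ^ 4) ^ 4)⁻¹ * (((x ^ 3) ^ 8 - 1) - (((y - r) ^ 4) ^ 4 - 1)) := by
      rw [hxy]
      field_simp
      ring
    rw [h7]
    refine l2_mul ?_ (w.map_sub_le h24 h16)
    rw [map_inv₀, map_pow, map_pow, hm, one_pow, one_pow, inv_one]

/-- `((2 r)⁻¹)^8 ≡ 1` -/
theorem ll_two {C : Type} [Field C] {w : Valuation C (WithZero (Multiplicative ℤ))} {l ε : C} (hl : w l = exp (-1 : ℤ))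
    (hε : w ε = 1) (h3 : (3 : C) = ε * l ^ 2) {d η r : C} (hr : r ^ 2 = d) (hη : η = 1 ∨ η = -1)
    (hd : w (d - η) ≤ exp (-2 : ℤ)) : w (2 * r) = 1 ∧ w (((2 * r)⁻¹) ^ 8 - 1) ≤ exp (-2 : ℤ) := by
  have h1 : w (2 * r) = 1 := by rw [map_mul, l2_two hl hε h3, l2_r hr hη hd, one_mul]
  exact ⟨h1, l2_inv h1 (l2_star hl hε h3 hr hη hd)⟩

end JD
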