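import Pool.Agent.JD.L0
import Pool.Agent.JD.L1
import Pool.Agent.JD.L2

/-!
# [JD-L3] the local conditions at a place of `F`

PROOF. `la_of_LocK`: `w` over `λ`, `C' = w.adicCompletion F` with `Valued.v`, `l = image of jF la` (`Valued.v l = exp (-1)`: `ov_val`, `HeightOneSpectrum.valuedAdicCompletion_eq_valuation'`), `ε = image of jF (-om ^ 2)` (a unit, `CU.three_eq`), `d` = image of `jF D`, `η` from
`CondLa` (image of `η : Eis`, `3 ∣ D - η`, so `Valued.v (d - η) ≤ exp (-2)`).
(1) `IsCube b`, `b = t³`: `h = t`, `u = 1`. (2) `2 r b = t³`: `h = t`, `u = (2 r)⁻¹` (`ll_two`). (3) `Below v w φ`, `x, y ∈ v.adicCompletion KK`: `tri` for `C = v.adicCompletion KK`, `Loc3` by `below_la`, `below_res`; `hd'`: `¬ la³ ∣ D - η - la²`: if `Valued.v (d - η - l²) ≤ exp (-3)` in the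
completion at `v`, `v` is the place `(la)` (`v (jK la) = exp (-1)`: `below_la`), then `la³ ∣ D - η - la²` (`intValuation_le_pow_iff_mem`, `v.asIdeal = span {eE la}`; `eE la ∈ v.asIdeal` by `valuation_lt_one_iff_mem`, and `CU.gen_cases`/maximality). The four alternatives of `tri` are
transported to `φ x, φ y` by `below_val` (`φ` is a ring homomorphism, `Below.comm` for `D`, `η`), and `ll` gives `φ y - r = h³ u`, `b = (h g)³ u`.
`val_of_LocK`: `LocK` implies `CUD.LocB (2 * r) b (w.adicCompletion F)`: (1), (2) are the same; (3): the point `(φ x, φ y - r)` (`Y² + 2 r Y = x³` for `Y = φ y - r`, `r² = D`). `w (2 r) = 1`: `w (jF (2 D)) = 1` and `w 2 ≤ 1`, `w (jF D) ≤ 1`, so `w 2 = 1`, `w (r)² = w (jF D) = 1`.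
`CUD.val_b_cube` (CU/C11).
-/

set_option autoImplicit false

open NumberField IsDedekindDomain
open scoped Classical

namespace JD

open CM27 CF JZ
open CU (la om eE)
open CUD (IsCube)

/-- the local condition for `b` at the place `w` of `F`: modulo cubes `b` is `1`, `(2 r)⁻¹`, or `y - r` for a point `(x, y)` of `y² = x³ + D` over the completion of `KK` below `w` -/
def LocK {F : Type} [Field F] [NumberField F] [Algebra KK F] (D : Eis) (r b : F) (w : HeightOneSpectrum (𝓞 F)) : Prop :=
  IsCube (algebraMap F (w.adicCompletion F) b) ∨ IsCube (algebraMap F (w.adicCompletion F) (2 * r * b)) ∨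
  ∃ (v : HeightOneSpectrum (𝓞 KK)) (φ : v.adicCompletion KK →+* w.adicCompletion F) (x y : v.adicCompletion KK)
    (g : w.adicCompletion F), Below v w φ ∧ g ≠ 0 ∧ y ^ 2 = x ^ 3 + algebraMap KK (v.adicCompletion KK) (jK D) ∧
      φ y - algebraMap F (w.adicCompletion F) r ≠ 0 ∧
      algebraMap F (w.adicCompletion F) b = (φ y - algebraMap F (w.adicCompletion F) r) * g ^ 3

theorem l3_int {F : Type} [Field F] [NumberField F] (w : HeightOneSpectrum (𝓞 F)) {x : F}
    (h : IsIntegral ℤ x) : w.valuation F x ≤ 1 := by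
  obtain ⟨a, rfl⟩ := (IsIntegralClosure.isIntegral_iff (A := 𝓞 F)).1 h
  exact w.valuation_le_one a

theorem l3_intE {F : Type} [Field F] [NumberField F] [Algebra KK F] (w : HeightOneSpectrum (𝓞 F))
    (a : Eis) : w.valuation F (jF F a) ≤ 1 := l3_int w (int_jF F a)

theorem l3_unit {F : Type} [Field F] [NumberField F] [Algebra KK F] (w : HeightOneSpectrum (𝓞 F))
    (hw : OvLa w) {a : Eis} (ha : IsUnit a) : w.valuation F (jF F a) = 1 := by
  refine le_antisymm (l3_intE w a) ?_
  rw [← not_lt]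
  intro h
  rw [ov_mem w hw] at h
  exact CU.la_prime.not_isUnit (isUnit_of_dvd_unit h ha)

theorem l3_step {F : Type} [Field F] [NumberField F] [Algebra KK F] (w : HeightOneSpectrum (𝓞 F))
    (hw : OvLa w) (hl : w.valuation F (jF F la) = WithZero.exp (-1 : ℤ)) (n : ℤ) (hn : n ≤ 0) {a : Eis}
    (h : w.valuation F (jF F a) ≤ WithZero.exp (n - 1)) :
    ∃ b : Eis, a = la * b ∧ w.valuation F (jF F b) ≤ WithZero.exp n := by
  have h1 : w.valuation F (jF F a) < 1 := by
    refine lt_of_le_of_lt h ?_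
    rw [← WithZero.exp_zero, WithZero.exp_lt_exp]
    omega
  rw [ov_mem w hw] at h1
  obtain ⟨b, rfl⟩ := h1
  refine ⟨b, rfl, ?_⟩
  rw [map_mul, map_mul, hl] at h
  have h2 : WithZero.exp (n - 1) = WithZero.exp (-1 : ℤ) * WithZero.exp n := by
    rw [← WithZero.exp_add]
    congr 1
    ring
  rw [h2] at h
  exact (mul_le_mul_iff_right₀ (WithZero.exp_pos)).1 h

theorem l3_cube {F : Type} [Field F] [NumberField F] [Algebra KK F] (w : HeightOneSpectrum (𝓞 F))
    (hw : OvLa w) (hl : w.valuation F (jF F la) = WithZero.exp (-1 : ℤ)) {a : Eis}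
    (h : w.valuation F (jF F a) ≤ WithZero.exp (-3 : ℤ)) : la ^ 3 ∣ a := by
  obtain ⟨b, rfl, hb⟩ := l3_step w hw hl (-2) (by norm_num) (a := a) (by
    have e : (-2 : ℤ) - 1 = -3 := by norm_num
    rw [e]
    exact h)
  obtain ⟨c, rfl, hc⟩ := l3_step w hw hl (-1) (by norm_num) (a := b) (by
    have e : (-1 : ℤ) - 1 = -2 := by norm_num
    rw [e]
    exact hb)
  obtain ⟨d, rfl, -⟩ := l3_step w hw hl 0 le_rfl (a := c) (by
    have e : (0 : ℤ) - 1 = -1 := by norm_num
    rw [e]
    exact hc)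
  exact ⟨d, by ring⟩

theorem l3_three {F : Type} [Field F] [NumberField F] [Algebra KK F] (w : HeightOneSpectrum (𝓞 F))
    (hw : OvLa w) (hl : w.valuation F (jF F la) = WithZero.exp (-1 : ℤ)) {a : Eis}
    (h : (3 : Eis) ∣ a) : w.valuation F (jF F a) ≤ WithZero.exp (-2 : ℤ) := by
  obtain ⟨c, rfl⟩ := h
  rw [map_mul, map_mul, CU.three_eq, map_mul, map_mul, map_pow, map_pow, hl,
    l3_unit w hw ((CU.om_unit.pow 2).neg), one_mul]
  have h2 : (WithZero.exp (-1 : ℤ) : WithZero (Multiplicative ℤ)) ^ 2 = WithZero.exp (-2 : ℤ) := by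
    rw [← WithZero.exp_nsmul]
    rfl
  rw [h2]
  exact mul_le_of_le_one_right' (l3_intE w c)

section
variable {D : Eis} {F : Type} [Field F] [NumberField F] [Algebra KK F] {r : F} {τ : F ≃ₐ[KK] F}
  (hD : Cl D) (hQ : Quad D r τ)
include hD hQ

/-- the local data at a place over `λ` -/
theorem l3_data (w : HeightOneSpectrum (𝓞 F)) (hw : OvLa w) :
    ∃ η : Eis, (η = 1 ∨ η = -1) ∧ w.valuation F (jF F (D - η)) ≤ WithZero.exp (-2 : ℤ) ∧
      ¬ w.valuation F (jF F (D - η - la ^ 2)) ≤ WithZero.exp (-3 : ℤ) := by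
  obtain ⟨η, hη, h3, hn⟩ := hD.2.1
  have hl := ov_val hD hQ w hw
  exact ⟨η, hη, l3_three w hw hl h3, fun h => hn (l3_cube w hw hl h)⟩

/-- the alternatives of `tri` for a point over the completion of `KK` -/
theorem l3_tri (w : HeightOneSpectrum (𝓞 F)) (hw : OvLa w) (v : HeightOneSpectrum (𝓞 KK))
    (φ : v.adicCompletion KK →+* w.adicCompletion F) (hB : Below v w φ) (η : Eis)
    (hη : η = 1 ∨ η = -1) (h2 : w.valuation F (jF F (D - η)) ≤ WithZero.exp (-2 : ℤ))
    (h3 : ¬ w.valuation F (jF F (D - η - la ^ 2)) ≤ WithZero.exp (-3 : ℤ))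
    (x y : v.adicCompletion KK) (he : y ^ 2 = x ^ 3 + algebraMap KK (v.adicCompletion KK) (jK D)) :
    WithZero.exp (3 : ℤ) ≤ Valued.v (φ y) ∨
      (Valued.v (φ x) = (1 : WithZero (Multiplicative ℤ)) ∧ Valued.v (φ y) ≤ WithZero.exp (-2 : ℤ)) ∨
      (Valued.v (φ y) = (1 : WithZero (Multiplicative ℤ)) ∧
        algebraMap F (w.adicCompletion F) (jF F η) = 1 ∧
        (Valued.v (φ y - 1) < (1 : WithZero (Multiplicative ℤ)) ∨
          Valued.v (φ y + 1) < (1 : WithZero (Multiplicative ℤ)))) ∨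
      (Valued.v (φ y) = (1 : WithZero (Multiplicative ℤ)) ∧
        algebraMap F (w.adicCompletion F) (jF F η) = -1 ∧
        Valued.v (φ x) = (1 : WithZero (Multiplicative ℤ)) ∧
        Valued.v ((φ y) ^ 2 - algebraMap F (w.adicCompletion F) (jF F D) + 1) ≤
          WithZero.exp (-3 : ℤ)) := by
  have hv : ∀ x : F, Valued.v (algebraMap F (w.adicCompletion F) x) = w.valuation F x :=
    fun x => HeightOneSpectrum.valuedAdicCompletion_eq_valuation' w x
  have hval : ∀ x : v.adicCompletion KK, Valued.v (φ x) = Valued.v x :=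
    fun x => below_val hB hw hD hQ x
  have hφ : ∀ a : Eis, φ (algebraMap KK (v.adicCompletion KK) (jK a)) =
      algebraMap F (w.adicCompletion F) (jF F a) := fun a => hB.comm (jK a)
  have hv2 : ∀ a : Eis, Valued.v (algebraMap KK (v.adicCompletion KK) (jK a)) =
      w.valuation F (jF F a) := by
    intro a
    rw [← hval, hφ, hv]
  have hL : Loc3 (Valued.v (R := v.adicCompletion KK))
      (algebraMap KK (v.adicCompletion KK) (jK la))
      (algebraMap KK (v.adicCompletion KK) (jK (-om ^ 2))) := by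
    refine ⟨below_la hB hw, ?_, ?_, fun x hx => below_res hB hw hx⟩
    · rw [hv2]
      exact l3_unit w hw ((CU.om_unit.pow 2).neg)
    · rw [← map_pow, ← map_pow, ← map_mul, ← map_mul, ← CU.three_eq, map_ofNat, map_ofNat]
  have hη' : algebraMap KK (v.adicCompletion KK) (jK η) = 1 ∨
      algebraMap KK (v.adicCompletion KK) (jK η) = -1 := by
    rcases hη with rfl | rfl
    · left
      rw [map_one, map_one]
    · right
      rw [map_neg, map_neg, map_one, map_one]
  have ht := tri hL hη' (d := algebraMap KK (v.adicCompletion KK) (jK D)) (by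
    rw [← map_sub, ← map_sub, hv2]
    exact h2) (by
    rw [← map_sub, ← map_sub, ← map_pow, ← map_pow, ← map_sub, ← map_sub, hv2]
    exact h3) he
  have e1 : ∀ s : v.adicCompletion KK, Valued.v (φ s) = Valued.v s := hval
  rw [hval y, hval x]
  rcases ht with ht | ⟨ht, ht'⟩ | ⟨ht, hη1, ht'⟩ | ⟨ht, hη1, ht', ht''⟩
  · exact Or.inl ht
  · exact Or.inr (Or.inl ⟨ht, ht'⟩)
  · refine Or.inr (Or.inr (Or.inl ⟨ht, ?_, ?_⟩))
    · rw [← hφ, hη1, map_one]
    · have e4 : φ (y - 1) = φ y - 1 := by rw [map_sub, map_one]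
      have e5 : φ (y + 1) = φ y + 1 := by rw [map_add, map_one]
      have e2 : Valued.v (φ y - 1) = Valued.v (y - 1) := by
        rw [← hval (y - 1), e4]
      have e3 : Valued.v (φ y + 1) = Valued.v (y + 1) := by
        rw [← hval (y + 1), e5]
      rw [e2, e3]
      exact ht'
  · refine Or.inr (Or.inr (Or.inr ⟨ht, ?_, ht', ?_⟩))
    · rw [← hφ, hη1, map_neg, map_one]
    · have e2 : Valued.v ((φ y) ^ 2 - algebraMap F (w.adicCompletion F) (jF F D) + 1) =
          Valued.v (y ^ 2 - algebraMap KK (v.adicCompletion KK) (jK D) + 1) := by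
        have e4 : φ (y ^ 2 - algebraMap KK (v.adicCompletion KK) (jK D) + 1) =
            (φ y) ^ 2 - algebraMap F (w.adicCompletion F) (jF F D) + 1 := by
          rw [map_add, map_sub, map_pow, map_one, hφ]
        rw [← e4, hval]
      rw [e2]
      exact ht''

theorem la_of_LocK {b : F} (hb : b ≠ 0) (w : HeightOneSpectrum (𝓞 F)) (hw : OvLa w) (h : LocK D r b w) :
    ∃ h u : w.adicCompletion F, h ≠ 0 ∧ algebraMap F (w.adicCompletion F) b = h ^ 3 * u ∧
      Valued.v u = (1 : WithZero (Multiplicative ℤ)) ∧ Valued.v (u ^ 8 - 1) ≤ WithZero.exp (-2 : ℤ) := by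
  have hv : ∀ x : F, Valued.v (algebraMap F (w.adicCompletion F) x) = w.valuation F x :=
    fun x => HeightOneSpectrum.valuedAdicCompletion_eq_valuation' w x
  have hl : Valued.v (algebraMap F (w.adicCompletion F) (jF F la)) = WithZero.exp (-1 : ℤ) := by
    rw [hv]
    exact ov_val hD hQ w hw
  have hε : Valued.v (algebraMap F (w.adicCompletion F) (jF F (-om ^ 2))) =
      (1 : WithZero (Multiplicative ℤ)) := by
    rw [hv]
    exact l3_unit w hw ((CU.om_unit.pow 2).neg)
  have h3 : (3 : w.adicCompletion F) = algebraMap F (w.adicCompletion F) (jF F (-om ^ 2)) *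
      algebraMap F (w.adicCompletion F) (jF F la) ^ 2 := by
    rw [← map_pow, ← map_pow, ← map_mul, ← map_mul, ← CU.three_eq, map_ofNat, map_ofNat]
  have hr : algebraMap F (w.adicCompletion F) r ^ 2 =
      algebraMap F (w.adicCompletion F) (jF F D) := by
    rw [← map_pow, hQ.sq]
  obtain ⟨η, hη, hd2, hd3⟩ := l3_data hD hQ w hw
  have hη' : algebraMap F (w.adicCompletion F) (jF F η) = 1 ∨
      algebraMap F (w.adicCompletion F) (jF F η) = -1 := by
    rcases hη with rfl | rfl
    · left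
      rw [map_one, map_one]
    · right
      rw [map_neg, map_neg, map_one, map_one]
  have hd : Valued.v (algebraMap F (w.adicCompletion F) (jF F D) -
      algebraMap F (w.adicCompletion F) (jF F η)) ≤ WithZero.exp (-2 : ℤ) := by
    rw [← map_sub, ← map_sub, hv]
    exact hd2
  have hb' : algebraMap F (w.adicCompletion F) b ≠ 0 :=
    fun h0 => hb ((algebraMap F (w.adicCompletion F)).injective (by rw [h0, map_zero]))
  rcases h with ⟨t, ht⟩ | ⟨t, ht⟩ | ⟨v, φ, x, y, g, hB, hg, he, hne, hbg⟩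
  · refine ⟨t, 1, ?_, ?_, ?_, ?_⟩
    · rintro rfl
      apply hb'
      rw [ht, zero_pow three_ne_zero]
    · rw [ht, mul_one]
    · exact map_one _
    · rw [one_pow, sub_self, map_zero]
      exact zero_le
  · obtain ⟨h1, h2⟩ := ll_two (w := Valued.v (R := w.adicCompletion F)) hl hε h3 hr hη' hd
    have hne : (2 * algebraMap F (w.adicCompletion F) r) ≠ 0 := by
      intro h0
      rw [h0, map_zero] at h1
      exact zero_ne_one h1
    have ht' : (2 * algebraMap F (w.adicCompletion F) r) *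
        algebraMap F (w.adicCompletion F) b = t ^ 3 := by
      rw [← ht, map_mul, map_mul, map_ofNat]
    refine ⟨t, (2 * algebraMap F (w.adicCompletion F) r)⁻¹, ?_, ?_, ?_, h2⟩
    · rintro rfl
      rw [zero_pow three_ne_zero] at ht'
      exact (mul_ne_zero hne hb') ht'
    · rw [← ht', mul_comm _ (2 * algebraMap F (w.adicCompletion F) r)⁻¹, ← mul_assoc,
        inv_mul_cancel₀ hne, one_mul]
    · rw [map_inv₀, h1, inv_one]
  · have htri := l3_tri hD hQ w hw v φ hB η hη hd2 hd3 x y he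
    have he' : (φ y) ^ 2 = (φ x) ^ 3 + algebraMap F (w.adicCompletion F) (jF F D) := by
      rw [← map_pow, he, map_add, map_pow]
      congr 1
      exact hB.comm (jK D)
    obtain ⟨h, u, hh, hyu, hu1, hu2⟩ := ll (w := Valued.v (R := w.adicCompletion F)) hl hε h3 hr hη'
      hd he' hne htri
    refine ⟨h * g, u, mul_ne_zero hh hg, ?_, hu1, hu2⟩
    rw [hbg, hyu]
    ring

theorem val_of_LocK {b : F} (hb : b ≠ 0) (w : HeightOneSpectrum (𝓞 F)) (h2 : w.valuation F (jF F (2 * D)) = 1)
    (h : LocK D r b w) : ∃ g : WithZero (Multiplicative ℤ), w.valuation F b = g ^ 3 := by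
  have hr2 : w.valuation F r ^ 2 = w.valuation F (jF F D) := by
    rw [← map_pow, hQ.sq]
  have h2' : w.valuation F 2 * w.valuation F (jF F D) = 1 := by
    have e4 : jF F (2 * D) = 2 * jF F D := by rw [map_mul, map_ofNat]
    rw [← map_mul, ← h2, e4]
  have hle2 : w.valuation F 2 ≤ 1 := by
    have h3 := l3_intE w 2
    rw [map_ofNat] at h3
    exact h3
  have hleD := l3_intE w D
  have hD1 : w.valuation F (jF F D) = 1 := by
    refine le_antisymm hleD ?_
    rw [← h2']
    exact mul_le_of_le_one_left' hle2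
  have h21 : w.valuation F 2 = 1 := by
    rw [hD1, mul_one] at h2'
    exact h2'
  have hr1 : w.valuation F r = 1 := by
    rw [hD1] at hr2
    exact (pow_eq_one_iff.mp hr2).resolve_right two_ne_zero
  apply CUD.val_b_cube hb w (D := 2 * r)
  · rw [map_mul, h21, hr1, mul_one]
  · rcases h with h | h | ⟨v, φ, x, y, g, hB, hg, he, hne, hbg⟩
    · exact Or.inl h
    · exact Or.inr (Or.inl h)
    · refine Or.inr (Or.inr ⟨φ x, φ y - algebraMap F (w.adicCompletion F) r, g, hne, hg, ?_, hbg⟩)
      have he' : (φ y) ^ 2 = (φ x) ^ 3 + algebraMap F (w.adicCompletion F) (jF F D) := by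
        rw [← map_pow, he, map_add, map_pow]
        congr 1
        exact hB.comm (jK D)
      have hr : algebraMap F (w.adicCompletion F) r ^ 2 =
          algebraMap F (w.adicCompletion F) (jF F D) := by
        rw [← map_pow, hQ.sq]
      rw [map_mul, map_ofNat]
      linear_combination he' - hr

end

end JD
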