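import Pool.Agent.CU.C7

/-!
# [JD-N4a] the local image, with the point (refinement of CU/C7)
-/

set_option autoImplicit false

open NumberField IsDedekindDomain
open scoped Classical

namespace JD

open CU (W3)
open CUD

theorem locB2 {F L : Type} [Field F] [CharZero F] [Field L] [Algebra F L] [IsAlgClosure F L]
    {D o : F} (hD : D ≠ 0) (ho : o ^ 2 + o + 1 = 0)
    (c : (L ≃ₐ[F] L) → (W3 (algebraMap F L D)).toAffine.Point) (hK : ∀ σ, Ker (c σ))
    (b : F) (s : L) (hb : b ≠ 0) (hs : s ^ 3 = algebraMap F L b)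
    (h : ∀ σ : L ≃ₐ[F] L, σ s = chi (algebraMap F L o) (c σ) * s)
    (Fv Lv : Type) [Field Fv] [Algebra F Fv] [Field Lv] [Algebra Fv Lv] [IsAlgClosure Fv Lv]
    [Algebra F Lv] [IsScalarTower F Fv Lv] (ι : L →ₐ[F] Lv)
    (Q : (W3 (algebraMap F Lv D)).toAffine.Point)
    (hQ : ∀ (τ : Lv ≃ₐ[Fv] Lv) (σ : L ≃ₐ[F] L), (∀ x, ι (σ x) = τ (ι x)) →
      ptW (ι : L →+* Lv) (alg_comm ι D) (c σ) =
        ptW (τ : Lv →+* Lv) (tau_comm F Fv Lv τ D) Q - Q)
    (how : (algebraMap F Lv o) ^ 2 + algebraMap F Lv o + 1 = 0) :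
    IsCube (algebraMap F Fv b) ∨ IsCube (algebraMap F Fv (D * b)) ∨
      ∃ (X Y g : Fv) (h' : (W3 (algebraMap F Lv D)).toAffine.Nonsingular (algebraMap Fv Lv X) (algebraMap Fv Lv Y)),
        Y ≠ 0 ∧ g ≠ 0 ∧ algebraMap F Fv b = Y * g ^ 3 ∧ phi how Q = .some (algebraMap Fv Lv X) (algebraMap Fv Lv Y) h' := by
  have : CharZero Fv := charZero_of_injective_algebraMap (algebraMap F Fv).injective
  have : CharZero Lv := charZero_of_injective_algebraMap (algebraMap Fv Lv).injective
  have : CharZero L := charZero_of_injective_algebraMap (algebraMap F L).injective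
  have : Normal F L := IsAlgClosure.normal F L
  have : Algebra.IsAlgebraic Fv Lv := IsAlgClosure.isAlgebraic
  have : Normal Fv Lv := IsAlgClosure.normal Fv Lv
  have : IsGalois Fv Lv := ⟨⟩
  -- restriction of automorphisms
  have hres : ∀ τ : Lv ≃ₐ[Fv] Lv, ∃ σ : L ≃ₐ[F] L, ∀ x, ι (σ x) = τ (ι x) := by
    intro τ
    let _ : Algebra L Lv := (ι : L →+* Lv).toAlgebra
    have : IsScalarTower F L Lv := IsScalarTower.of_algebraMap_eq' (by
      ext x
      show algebraMap F Lv x = ι (algebraMap F L x)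
      rw [ι.commutes])
    refine ⟨(τ.restrictScalars F).restrictNormal L, fun x => ?_⟩
    exact AlgEquiv.restrictNormal_commutes (τ.restrictScalars F) L x
  have hdw : algebraMap F Lv D ≠ 0 := by
    intro h0
    exact hD ((map_eq_zero _).1 h0)
  have htow : ∀ x : F, algebraMap F Lv x = algebraMap Fv Lv (algebraMap F Fv x) := fun x =>
    IsScalarTower.algebraMap_apply F Fv Lv x
  -- the basic facts
  have hT : ∀ τ : Lv ≃ₐ[Fv] Lv, ∃ T : (W3 (algebraMap F Lv D)).toAffine.Point, Ker T ∧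
      ptW (τ : Lv →+* Lv) (tau_comm F Fv Lv τ D) Q = Q + T ∧
      τ (ι s) = chi (algebraMap F Lv o) T * ι s ∧
      τ (rho (algebraMap F Lv o) Q) = chi (algebraMap F Lv o) T * rho (algebraMap F Lv o) Q ∧
      τ (rho2 (algebraMap F Lv o) Q) =
        chi (algebraMap F Lv o) T ^ 2 * rho2 (algebraMap F Lv o) Q := by
    intro τ
    obtain ⟨σ, hσ⟩ := hres τ
    have hK' : Ker (ptW (ι : L →+* Lv) (alg_comm ι D) (c σ)) := (ker_ptW _ _ _).2 (hK σ)
    have hτQ : ptW (τ : Lv →+* Lv) (tau_comm F Fv Lv τ D) Q =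
        Q + ptW (ι : L →+* Lv) (alg_comm ι D) (c σ) := by
      rw [hQ τ σ hσ]; abel
    refine ⟨_, hK', hτQ, ?_, ?_, ?_⟩
    · rw [← hσ s, h σ, map_mul, chi_ptW (ι : L →+* Lv) (alg_comm ι D) (alg_comm ι o)]
      rfl
    · have h1 : τ (rho (algebraMap F Lv o) Q) =
          rho (algebraMap F Lv o) (ptW (τ : Lv →+* Lv) (tau_comm F Fv Lv τ D) Q) :=
        (rho_ptW (τ : Lv →+* Lv) (tau_comm F Fv Lv τ D) (tau_comm F Fv Lv τ o) Q).symm
      rw [h1, hτQ, rho_add hdw how _ _ hK']
    · have h1 : τ (rho2 (algebraMap F Lv o) Q) =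
          rho2 (algebraMap F Lv o) (ptW (τ : Lv →+* Lv) (tau_comm F Fv Lv τ D) Q) :=
        (rho2_ptW (τ : Lv →+* Lv) (tau_comm F Fv Lv τ D) (tau_comm F Fv Lv τ o) Q).symm
      rw [h1, hτQ, rho2_add hdw how _ _ hK']
  have hchi : ∀ T : (W3 (algebraMap F Lv D)).toAffine.Point,
      chi (algebraMap F Lv o) T ≠ 0 := by
    intro T h0
    have h1 := chi_cube how T
    rw [h0, zero_pow three_ne_zero] at h1
    exact zero_ne_one h1
  have hbs : (ι s) ^ 3 = algebraMap Fv Lv (algebraMap F Fv b) := by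
    rw [← map_pow, hs, ι.commutes, htow]
  have ho1 : (1 : Lv) - algebraMap F Lv o ≠ 0 := one_sub_o_ne how
  have hoF : (1 : F) - o ≠ 0 := one_sub_o_ne ho
  have hoFv : (1 : Fv) - algebraMap F Fv o ≠ 0 := by
    rw [← map_one (algebraMap F Fv), ← map_sub]
    exact (map_ne_zero _).2 hoF
  by_cases hr : rho (algebraMap F Lv o) Q = 0
  · rcases rho_zero_cases hdw how Q hr with hker | ⟨hr2, -⟩
    · -- first alternative
      left
      have hfix : ∀ τ : Lv ≃ₐ[Fv] Lv, τ (ι s) = ι s := by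
        intro τ
        obtain ⟨T, hTK, hTQ, hTs, -, -⟩ := hT τ
        have hτQ : ptW (τ : Lv →+* Lv) (tau_comm F Fv Lv τ D) Q = Q := by
          cases Q with
          | zero => rfl
          | some x y hxy =>
            have hx : x = 0 := hker
            subst hx
            have hDτ := tau_comm F Fv Lv τ D
            have h1 := (W3_nonsingular hdw _ _).1 hxy
            have h2 : y * (y + algebraMap F Lv D) = 0 := by linear_combination h1
            simp only [ptW, WeierstrassCurve.Affine.Point.some.injEq]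
            refine ⟨map_zero _, ?_⟩
            rcases mul_eq_zero.1 h2 with h3 | h3
            · rw [h3, map_zero]
            · have h4 : y = -algebraMap F Lv D := by linear_combination h3
              rw [h4, map_neg, hDτ]
        rw [hτQ] at hTQ
        have hT0 : T = 0 := by
          have h2 := hTQ.symm
          rwa [add_eq_left] at h2
        rw [hTs, hT0, chi_zero, one_mul]
      obtain ⟨s0, hs0⟩ := (InfiniteGalois.mem_range_algebraMap_iff_fixed (k := Fv) (ι s)).2 hfix
      refine ⟨s0, ?_⟩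
      apply (algebraMap Fv Lv).injective
      rw [map_pow, hs0, hbs]
    · -- second alternative
      right
      left
      have hfix : ∀ τ : Lv ≃ₐ[Fv] Lv, τ (ι s * rho2 (algebraMap F Lv o) Q) =
          ι s * rho2 (algebraMap F Lv o) Q := by
        intro τ
        obtain ⟨T, hTK, hTQ, hTs, -, hTr⟩ := hT τ
        rw [map_mul, hTs, hTr]
        linear_combination (ι s * rho2 (algebraMap F Lv o) Q) * chi_cube how T
      obtain ⟨u0, hu0⟩ := (InfiniteGalois.mem_range_algebraMap_iff_fixed (k := Fv)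
        (ι s * rho2 (algebraMap F Lv o) Q)).2 hfix
      refine ⟨u0 / (1 - algebraMap F Fv o), ?_⟩
      apply (algebraMap Fv Lv).injective
      rw [map_pow, map_div₀, hu0, map_sub, map_one, ← htow, ← htow, div_pow, mul_pow, hbs, hr2,
        map_mul, ← htow]
      field_simp
  · -- third alternative
    right
    right
    have hu : ∀ τ : Lv ≃ₐ[Fv] Lv, τ (ι s / rho (algebraMap F Lv o) Q) =
        ι s / rho (algebraMap F Lv o) Q := by
      intro τ
      obtain ⟨T, hTK, hTQ, hTs, hTr, -⟩ := hT τ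
      rw [map_div₀, hTs, hTr]
      exact mul_div_mul_left _ _ (hchi T)
    obtain ⟨u0, hu0⟩ := (InfiniteGalois.mem_range_algebraMap_iff_fixed (k := Fv)
      (ι s / rho (algebraMap F Lv o) Q)).2 hu
    obtain ⟨X, h', hphi⟩ := phi_rho hdw how Q hr
    have hfix : ∀ τ : Lv ≃ₐ[Fv] Lv, τ X = X ∧
        τ ((rho (algebraMap F Lv o) Q / (1 - algebraMap F Lv o)) ^ 3) =
        (rho (algebraMap F Lv o) Q / (1 - algebraMap F Lv o)) ^ 3 := by
      intro τ
      obtain ⟨T, hTK, hTQ, -, -, -⟩ := hT τ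
      have h1 : ptW (τ : Lv →+* Lv) (tau_comm F Fv Lv τ D) (phi how Q) = phi how Q := by
        rw [← phi_ptW how (τ : Lv →+* Lv) (tau_comm F Fv Lv τ D) how (tau_comm F Fv Lv τ o), hTQ,
          phi_add, (phi_eq_zero hdw how T).2 hTK, add_zero]
      rw [hphi] at h1
      simp only [ptW, WeierstrassCurve.Affine.Point.some.injEq] at h1
      exact h1
    obtain ⟨X0, hX0⟩ := (InfiniteGalois.mem_range_algebraMap_iff_fixed (k := Fv) X).2
      fun τ => (hfix τ).1
    obtain ⟨Y0, hY0⟩ := (InfiniteGalois.mem_range_algebraMap_iff_fixed (k := Fv)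
      ((rho (algebraMap F Lv o) Q / (1 - algebraMap F Lv o)) ^ 3)).2 fun τ => (hfix τ).2
    have hYne : (rho (algebraMap F Lv o) Q / (1 - algebraMap F Lv o)) ^ 3 ≠ 0 :=
      pow_ne_zero 3 (div_ne_zero hr ho1)
    have heq := (W3_nonsingular hdw _ _).1 h'
    have hs0 : ι s ≠ 0 := by
      intro h0
      rw [h0, zero_pow three_ne_zero, ← htow] at hbs
      exact hb ((map_eq_zero _).1 hbs.symm)
    have hu1 : u0 ≠ 0 := by
      intro h0
      rw [h0, map_zero] at hu0
      exact div_ne_zero hs0 hr hu0.symm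
    have hns : (W3 (algebraMap F Lv D)).toAffine.Nonsingular (algebraMap Fv Lv X0) (algebraMap Fv Lv Y0) := by
      rw [hX0, hY0]
      exact h'
    refine ⟨X0, Y0, (1 - algebraMap F Fv o) * u0, hns, ?_, mul_ne_zero hoFv hu1, ?_, ?_⟩
    · intro h0
      rw [h0, map_zero] at hY0
      exact hYne hY0.symm
    · apply (algebraMap Fv Lv).injective
      rw [map_mul, map_pow, map_mul, map_sub, map_one, ← htow o, hY0, hu0, ← hbs]
      field_simp
    · rw [hphi, WeierstrassCurve.Affine.Point.some.injEq]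
      exact ⟨hX0.symm, hY0.symm⟩

end JD
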