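import Pool.Agent.JD.N3
import Pool.Agent.JD.N4a
import Pool.Agent.JD.L3

/-!
# [JD-N4] the local condition `LocK` for the Kummer class of a locally trivial cocycle

Notation: `Kv = v.adicCompletion KK`, `M = AlgebraicClosure Kv`, `Fw = w.adicCompletion F`, `M' = AlgebraicClosure Fw`.

PROOF. `exists_embed` [N4b]: give `M'` the `Kv`-algebra structure `((algebraMap Fw M').comp φ).toAlgebra`; `j : M →ₐ[Kv] M'` by `IsAlgClosed.lift`. `ι₀ : L →ₐ[KK] M` by `IsAlgClosed.lift` (`L` is algebraic over `KK`). `z = j (ι₀ (algebraMap F L r))` satisfies `z² = j (ι₀ (algebraMap KK L (jK D))) =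
j (algebraMap Kv M (jK D)) = algebraMap Fw M' (φ (jK D)) = algebraMap F M' (jF F D) = (algebraMap F M' r)²` (`sqL`, `Below.comm`, `hQ.sq`), so `z = ± algebraMap F M' r`. In the first case `ι = ι₀`, in the second `ι = ι₀ ∘ T` with `T` of `exists_ext τ` (`T (algebraMap F L r) = algebraMap F L (τ r) = - algebraMap F L r`).
So `j (ι (algebraMap F L r)) = algebraMap F M' r`. `ι'` is the ring homomorphism `j ∘ ι`; it is `F`-linear: every `x ∈ F` is `u + v r` with `u, v ∈ KK` (`exists_uv`, `D ≠ 0`), `Below.comm` for `u, v`.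
Last clause: with `Algebra M M' := j.toAlgebra` (`IsScalarTower Kv M M'`): `(τ''.restrictScalars Kv).restrictNormal M`, `AlgEquiv.restrictNormal_commutes` (`M / Kv` is normal; `τ''` fixes `Fw`, hence the image of `Kv`). Compare `hres` in the proof of `CUD.locB` (CU/C7.lean).

`exists_pt` [N4c]: `Q ∈ E(M)` with `ptE τ' Q - Q ∈ Ker` for all `τ' ∈ Gal(M/Kv)`: `phiE (ptE τ' Q - Q) = 0` (`phiE_eq_zero`), `phiE_sub`, `phiE_ptE`: `phiE Q` is fixed by `ptE τ'`. So `phiE Q = 0` or `phiE Q = (x₀, y₀)` with `x₀, y₀` fixed by all `τ'`, in the image of `Kv` (`InfiniteGalois.mem_range_algebraMap_iff_fixed`).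

`locK_of` [N4d]: let `v, φ` from `exists_Below w`, `j, ι, ι'` from `exists_embed`; `Q` from `hloc v ι`. `r' = algebraMap F M' r`, `d' = algebraMap F M' (jF F D)`, `j (algebraMap KK M (jK D)) = d'`, `r'² = d'`. `Q₁ = ptE j _ Q : (ED d').Point`, `Q' = toV _ _ Q₁ : (W3 (algebraMap F M' (2 r))).Point`.
Hypothesis of `locB2` (N4a) (with `D := 2 * r`, `o := algebraMap KK F o`, `c := cF hQ c`, `L`, `Fv = Fw`, `Lv = M'`, `ι := ι'`, `Q := Q'`): let `τ'' ∈ Gal(M'/Fw)`, `σ ∈ Gal(L/F)` with `ι' (σ x) = τ'' (ι' x)`; `τ'` from `exists_embed`; `j (ι (σ x)) = ι' (σ x) = τ'' (j (ι x)) = j (τ' (ι x))`, so `ι (σ x) = τ' (ι x)` and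
`ptE ι (c (resK σ)) = ptE τ' Q - Q`. Apply `ptE j` (`ptE_sub`, `ptE_comp`, `ptE_congr`: `ptE j ∘ ptE ι = ptE ι'`, `ptE j ∘ ptE τ' = ptE τ'' ∘ ptE j`) and `toV` (`toV_ptE` for `f = ι'` and `f = τ''`, `map_sub`).
`locB2` gives three cases. The first two are the first two alternatives of `LocK`. Third: `X, Y, g ∈ Fw`, `phi Q' = (X, Y)`. For every `τ' ∈ Gal(M/Kv)` there is `σ ∈ Gal(L/KK)` with `ι (σ x) = τ' (ι x)` (`L / KK` is normal: `hres` in CU/C7.lean), so `ptE τ' Q - Q = ptE ι (c σ)` is in the kernel (`kerE_ptE`), `exists_pt` applies.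
`phi Q' = toV (phiE Q₁) = toV (ptE j (phiE Q))` (`toV_phiE`, `phiE_ptE`). `phiE Q = 0` would give `phi Q' = 0`. `phiE Q = (x, y)` with `x, y` from `Kv`, `toV (ptE j (x, y)) = (j x, j y - r') = (X, Y)`: `algebraMap Fw M' (φ y - r) = algebraMap Fw M' Y`, `Y = φ y - r`. The equation for `x, y` in `Kv`: `ED_nonsingular` /
`ED_equation` in `M` and injectivity of `algebraMap Kv M`.
-/

set_option autoImplicit false

open NumberField IsDedekindDomain
open scoped Classical

namespace JD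

open CM27 CF JZ
open CU (la om eE W3)
open CUD (gal_comm alg_comm tau_comm am_ne am_o)

/-- [N4c] -/
theorem exists_pt {Kv M : Type} [Field Kv] [CharZero Kv] [Field M] [Algebra Kv M] [IsAlgClosure Kv M] {d o : M} (hd : d ≠ 0)
    (ho : o ^ 2 + o + 1 = 0) (hd' : ∀ τ : M ≃ₐ[Kv] M, (τ : M →+* M) d = d) (ho' : ∀ τ : M ≃ₐ[Kv] M, τ o = o)
    (Q : (ED d).toAffine.Point) (h : ∀ τ : M ≃ₐ[Kv] M, KerE (ptE (τ : M →+* M) (hd' τ) Q - Q)) :
    phiE ho Q = 0 ∨ ∃ (x y : Kv) (h' : (ED d).toAffine.Nonsingular (algebraMap Kv M x) (algebraMap Kv M y)),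
      phiE ho Q = .some (algebraMap Kv M x) (algebraMap Kv M y) h' := by
  have hM : IsAlgClosed M := IsAlgClosure.isAlgClosed Kv
  have hCM : CharZero M := charZero_of_injective_algebraMap (algebraMap Kv M).injective
  have hfix : ∀ τ : M ≃ₐ[Kv] M, ptE (τ : M →+* M) (hd' τ) (phiE ho Q) = phiE ho Q := by
    intro τ
    have h1 : phiE ho (ptE (τ : M →+* M) (hd' τ) Q - Q) = 0 := (phiE_eq_zero hd ho _).2 (h τ)
    rw [phiE_sub, phiE_ptE ho (τ : M →+* M) (hd' τ) ho (ho' τ), sub_eq_zero] at h1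
    exact h1
  revert hfix
  generalize phiE ho Q = P
  intro hfix
  cases P with
  | zero => exact Or.inl rfl
  | some x y hxy =>
    right
    have hx : ∀ τ : M ≃ₐ[Kv] M, τ x = x ∧ τ y = y := by
      intro τ
      have h2 := hfix τ
      simp only [ptE] at h2
      rw [WeierstrassCurve.Affine.Point.some.injEq] at h2
      exact h2
    have halg : Algebra.IsAlgebraic Kv M := IsAlgClosure.isAlgebraic
    have hnor : Normal Kv M := IsAlgClosure.normal Kv M
    have hgal : IsGalois Kv M := ⟨⟩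
    obtain ⟨x0, hx0⟩ := (InfiniteGalois.mem_range_algebraMap_iff_fixed (k := Kv) (K := M) x).2 (fun τ => (hx τ).1)
    obtain ⟨y0, hy0⟩ := (InfiniteGalois.mem_range_algebraMap_iff_fixed (k := Kv) (K := M) y).2 (fun τ => (hx τ).2)
    subst hx0
    subst hy0
    exact ⟨x0, y0, hxy, rfl⟩

/-- [N4b], for general fields -/
theorem N4b_gen {K F Kv Fw L : Type} [Field K] [Field F] [Field Kv] [Field Fw] [Field L] [Algebra K F]
    [Algebra K Kv] [Algebra F Fw] [Algebra K L] [Algebra F L] [IsScalarTower K F L] [Algebra.IsAlgebraic K L]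
    {φ : Kv →+* Fw} (hφ : ∀ x : K, φ (algebraMap K Kv x) = algebraMap F Fw (algebraMap K F x)) {r : F} {d : K}
    (huv : ∀ z : F, ∃ u v : K, z = algebraMap K F u + algebraMap K F v * r) (hr : r ^ 2 = algebraMap K F d)
    (T : L ≃ₐ[K] L) (hT : T (algebraMap F L r) = -algebraMap F L r) :
    ∃ (j : AlgebraicClosure Kv →+* AlgebraicClosure Fw)
      (ι : L →ₐ[K] AlgebraicClosure Kv) (ι' : L →ₐ[F] AlgebraicClosure Fw),
      (∀ x, j (algebraMap Kv _ x) = algebraMap Fw _ (φ x)) ∧ (∀ z, ι' z = j (ι z)) ∧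
      ∀ τ'' : AlgebraicClosure Fw ≃ₐ[Fw] AlgebraicClosure Fw,
        ∃ τ' : AlgebraicClosure Kv ≃ₐ[Kv] AlgebraicClosure Kv, ∀ z, τ'' (j z) = j (τ' z) := by
  let _ : Algebra Kv Fw := φ.toAlgebra
  let j₀ : AlgebraicClosure Kv →ₐ[Kv] AlgebraicClosure Fw := IsAlgClosed.lift
  let j : AlgebraicClosure Kv →+* AlgebraicClosure Fw := (j₀ : AlgebraicClosure Kv →+* AlgebraicClosure Fw)
  have hj : ∀ x, j (algebraMap Kv _ x) = algebraMap Fw _ (φ x) := by
    intro x
    have h1 : j₀ (algebraMap Kv _ x) = algebraMap Kv (AlgebraicClosure Fw) x := j₀.commutes x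
    have h2 : algebraMap Kv (AlgebraicClosure Fw) x = algebraMap Fw _ (algebraMap Kv Fw x) :=
      IsScalarTower.algebraMap_apply Kv Fw (AlgebraicClosure Fw) x
    exact h1.trans h2
  let ι₀ : L →ₐ[K] AlgebraicClosure Kv := IsAlgClosed.lift
  -- on `K` the two maps agree
  have hK : ∀ (i : L →ₐ[K] AlgebraicClosure Kv) (x : K), j (i (algebraMap F L (algebraMap K F x))) =
      algebraMap F (AlgebraicClosure Fw) (algebraMap K F x) := by
    intro i x
    rw [← IsScalarTower.algebraMap_apply K F L x, i.commutes,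
      IsScalarTower.algebraMap_apply K Kv (AlgebraicClosure Kv) x, hj, hφ,
      ← IsScalarTower.algebraMap_apply F Fw (AlgebraicClosure Fw)]
  obtain ⟨ι, hι⟩ : ∃ ι : L →ₐ[K] AlgebraicClosure Kv, j (ι (algebraMap F L r)) =
      algebraMap F (AlgebraicClosure Fw) r := by
    have h1 : (j (ι₀ (algebraMap F L r))) ^ 2 = (algebraMap F (AlgebraicClosure Fw) r) ^ 2 := by
      rw [← map_pow, ← map_pow, ← map_pow, ← map_pow, hr, hK]
    rcases sq_eq_sq_iff_eq_or_eq_neg.1 h1 with h2 | h2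
    · exact ⟨ι₀, h2⟩
    · refine ⟨ι₀.comp (T : L →ₐ[K] L), ?_⟩
      change j (ι₀ (T (algebraMap F L r))) = _
      rw [hT, map_neg, map_neg, h2, neg_neg]
  let ι' : L →ₐ[F] AlgebraicClosure Fw :=
    { toRingHom := j.comp (ι : L →+* AlgebraicClosure Kv)
      commutes' := by
        intro x
        obtain ⟨u, v, rfl⟩ := huv x
        change j (ι (algebraMap F L (algebraMap K F u + algebraMap K F v * r))) = _
        rw [map_add, map_mul, map_add, map_mul, map_add, map_mul, hK, hK, hι, map_add, map_mul] }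
  refine ⟨j, ι, ι', hj, fun z => rfl, fun τ'' => ?_⟩
  let _ : Algebra (AlgebraicClosure Kv) (AlgebraicClosure Fw) := j.toAlgebra
  have hst : IsScalarTower Kv (AlgebraicClosure Kv) (AlgebraicClosure Fw) :=
    IsScalarTower.of_algebraMap_eq' (by
      ext x
      exact (j₀.commutes x).symm)
  have hnor : Normal Kv (AlgebraicClosure Kv) := IsAlgClosure.normal Kv (AlgebraicClosure Kv)
  refine ⟨(τ''.restrictScalars Kv).restrictNormal (AlgebraicClosure Kv), fun z => ?_⟩
  exact (AlgEquiv.restrictNormal_commutes (τ''.restrictScalars Kv) (AlgebraicClosure Kv) z).symm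

section
variable {D : Eis} {F : Type} [Field F] [NumberField F] [Algebra KK F] {r : F} {τ : F ≃ₐ[KK] F}
  {L : Type} [Field L] [Algebra F L] [Algebra KK L] [IsScalarTower KK F L]

/-- [N4b] -/
theorem exists_embed [IsAlgClosure F L] (hD : D ≠ 0) (hQ : Quad D r τ) {v : HeightOneSpectrum (𝓞 KK)}
    {w : HeightOneSpectrum (𝓞 F)} {φ : v.adicCompletion KK →+* w.adicCompletion F} (h : Below v w φ) :
    ∃ (j : AlgebraicClosure (v.adicCompletion KK) →+* AlgebraicClosure (w.adicCompletion F))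
      (ι : L →ₐ[KK] AlgebraicClosure (v.adicCompletion KK)) (ι' : L →ₐ[F] AlgebraicClosure (w.adicCompletion F)),
      (∀ x, j (algebraMap (v.adicCompletion KK) _ x) = algebraMap (w.adicCompletion F) _ (φ x)) ∧ (∀ z, ι' z = j (ι z)) ∧
      ∀ τ'' : AlgebraicClosure (w.adicCompletion F) ≃ₐ[w.adicCompletion F] AlgebraicClosure (w.adicCompletion F),
        ∃ τ' : AlgebraicClosure (v.adicCompletion KK) ≃ₐ[v.adicCompletion KK] AlgebraicClosure (v.adicCompletion KK),
          ∀ z, τ'' (j z) = j (τ' z) := by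
  have hF : Algebra.IsAlgebraic KK F := by
    have : FiniteDimensional KK F := Module.finite_of_finrank_pos (by rw [hQ.fr]; norm_num)
    exact Algebra.IsAlgebraic.of_finite KK F
  have hLF : Algebra.IsAlgebraic F L := IsAlgClosure.isAlgebraic
  have hL : Algebra.IsAlgebraic KK L := Algebra.IsAlgebraic.trans KK F L
  obtain ⟨T, hT⟩ := exists_ext (L := L) τ
  have hrT : T (algebraMap F L r) = -algebraMap F L r := by rw [hT, hQ.tau, map_neg]
  exact N4b_gen h.comm (exists_uv hD hQ) hQ.sq T hrT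

/-- [N4d] in terms of general fields -/
theorem n4d_gen [IsAlgClosure F L] (hD : D ≠ 0) (hQ : Quad D r τ) {o : KK} (ho : o ^ 2 + o + 1 = 0)
    {c : (L ≃ₐ[KK] L) → (ED (algebraMap KK L (jK D))).toAffine.Point} (hK : ∀ σ, KerE (c σ))
    {b : F} {s : L} (hb : b ≠ 0) (hs : s ^ 3 = algebraMap F L b)
    (h : ∀ σ : L ≃ₐ[F] L, σ s = CUD.chi (algebraMap F L (algebraMap KK F o)) (cF hQ c σ) * s)
    (Kv Fw M M' : Type) [Field Kv] [Field Fw] [Field M] [Field M'] [Algebra KK Kv] [Algebra F Fw] [Algebra Kv M]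
    [Algebra Fw M'] [Algebra KK M] [IsScalarTower KK Kv M] [Algebra F M'] [IsScalarTower F Fw M'] [IsAlgClosure Kv M]
    [IsAlgClosure Fw M'] (φ : Kv →+* Fw)
    (hφ : ∀ x : KK, φ (algebraMap KK Kv x) = algebraMap F Fw (algebraMap KK F x))
    (j : M →+* M') (ι : L →ₐ[KK] M) (ι' : L →ₐ[F] M')
    (hj : ∀ x, j (algebraMap Kv M x) = algebraMap Fw M' (φ x)) (hιι' : ∀ z, ι' z = j (ι z))
    (hτ : ∀ τ'' : M' ≃ₐ[Fw] M', ∃ τ' : M ≃ₐ[Kv] M, ∀ z, τ'' (j z) = j (τ' z))
    (Q : (ED (algebraMap KK M (jK D))).toAffine.Point)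
    (hQ' : ∀ (τ : M ≃ₐ[Kv] M) (σ : L ≃ₐ[KK] L), (∀ x, ι (σ x) = τ (ι x)) →
      ptE (ι : L →+* M) (alg_comm ι (jK D)) (c σ) =
        ptE (τ : M →+* M) (tau_comm KK Kv M τ (jK D)) Q - Q) :
    CUD.IsCube (algebraMap F Fw b) ∨ CUD.IsCube (algebraMap F Fw (2 * r * b)) ∨
      ∃ (x y : Kv) (g : Fw), g ≠ 0 ∧ y ^ 2 = x ^ 3 + algebraMap KK Kv (jK D) ∧
      φ y - algebraMap F Fw r ≠ 0 ∧ algebraMap F Fw b = (φ y - algebraMap F Fw r) * g ^ 3 := by
  have hKv0 : CharZero Kv := charZero_of_injective_algebraMap (algebraMap KK Kv).injective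
  have hFw0 : CharZero Fw := charZero_of_injective_algebraMap (algebraMap F Fw).injective
  have hM0 : CharZero M := charZero_of_injective_algebraMap (algebraMap Kv M).injective
  have hM'0 : CharZero M' := charZero_of_injective_algebraMap (algebraMap Fw M').injective
  have hjdv : ∀ x : KK, j (algebraMap KK M x) = algebraMap F M' (algebraMap KK F x) := by
    intro x
    rw [IsScalarTower.algebraMap_apply KK Kv M, hj, hφ, ← IsScalarTower.algebraMap_apply F Fw M']
  have hjd : j (algebraMap KK M (jK D)) = algebraMap F M' (jF F D) := hjdv (jK D)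
  have hr2 : (algebraMap F M' r) ^ 2 = algebraMap F M' (jF F D) := by rw [← map_pow, hQ.sq]
  have h2r : algebraMap F M' (2 * r) = 2 * algebraMap F M' r := by rw [map_mul, map_ofNat]
  have hjF : jF F D ≠ 0 := fun h0 => hD (jF_inj F (by rw [h0, map_zero]))
  have hr0 : r ≠ 0 := by
    rintro rfl
    apply hjF
    rw [← hQ.sq]
    ring
  have hD2 : 2 * r ≠ 0 := mul_ne_zero two_ne_zero hr0
  have hoF : (algebraMap KK F o) ^ 2 + algebraMap KK F o + 1 = 0 := am_o ho
  have how : (algebraMap F M' (algebraMap KK F o)) ^ 2 + algebraMap F M' (algebraMap KK F o) + 1 = 0 := am_o hoF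
  have hoM : (algebraMap KK M o) ^ 2 + algebraMap KK M o + 1 = 0 := am_o ho
  have hι'd : (ι' : L →+* M') (algebraMap KK L (jK D)) = algebraMap F M' (jF F D) := by
    rw [IsScalarTower.algebraMap_apply KK F L]
    exact ι'.commutes _
  have hcomp : j.comp (ι : L →+* M) = (ι' : L →+* M') := by
    ext x
    exact (hιι' x).symm
  set Q' : (W3 (algebraMap F M' (2 * r))).toAffine.Point := toV hr2 h2r (ptE j hjd Q) with hQ'def
  have hmain : ∀ (τ'' : M' ≃ₐ[Fw] M') (σ : L ≃ₐ[F] L), (∀ x, ι' (σ x) = τ'' (ι' x)) →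
      CUD.ptW (ι' : L →+* M') (alg_comm ι' (2 * r)) (cF hQ c σ) =
        CUD.ptW (τ'' : M' →+* M') (tau_comm F Fw M' τ'' (2 * r)) Q' - Q' := by
    intro τ'' σ hσ
    obtain ⟨τ', hτ'⟩ := hτ τ''
    have hσ' : ∀ x, ι ((resK σ : L ≃ₐ[KK] L) x) = τ' (ι x) := by
      intro x
      apply j.injective
      rw [resK_apply, ← hιι', hσ, hιι', hτ']
    have h1 := congrArg (ptE j hjd) (hQ' τ' (resK σ) hσ')
    rw [ptE_sub, ptE_comp, ptE_comp] at h1
    have hτd : (τ'' : M' →+* M') (algebraMap F M' (jF F D)) = algebraMap F M' (jF F D) := tau_comm F Fw M' τ'' (jF F D)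
    have hcomp2 : j.comp (τ' : M →+* M) = (τ'' : M' →+* M').comp j := by
      ext x
      exact (hτ' x).symm
    rw [ptE_congr hcomp _ hι'd, ptE_congr hcomp2 _ (by rw [RingHom.comp_apply, hjd, hτd]), ← ptE_comp j _ hjd hτd] at h1
    have h2 := congrArg (toV hr2 h2r) h1
    rw [map_sub, toV_ptE (sqL hQ) twoL (ι' : L →+* M') hι'd hr2 h2r (alg_comm ι' r) (alg_comm ι' (2 * r)),
      toV_ptE hr2 h2r (τ'' : M' →+* M') hτd hr2 h2r (tau_comm F Fw M' τ'' r) (tau_comm F Fw M' τ'' (2 * r))] at h2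
    exact h2
  rcases locB2 (F := F) (L := L) hD2 hoF (cF hQ c) (cF_ker hQ hK) b s hb hs h Fw M' ι' Q' hmain how with h1 | h1 | h1
  · exact Or.inl h1
  · exact Or.inr (Or.inl h1)
  · right
    right
    obtain ⟨X, Y, g, h', hY, hg, hbY, hphi⟩ := h1
    -- restriction of automorphisms
    have hfin : Module.Finite KK F := Module.finite_of_finrank_pos (by rw [hQ.fr]; norm_num)
    have halg : Algebra.IsAlgebraic KK F := inferInstance
    have halg2 : Algebra.IsAlgebraic F L := IsAlgClosure.isAlgebraic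
    have hcl : IsAlgClosed L := IsAlgClosure.isAlgClosed F
    have hclK : IsAlgClosure KK L := ⟨hcl, Algebra.IsAlgebraic.trans KK F L⟩
    have hnorm : Normal KK L := IsAlgClosure.normal KK L
    have hres : ∀ τ' : M ≃ₐ[Kv] M, ∃ σ : L ≃ₐ[KK] L, ∀ x, ι (σ x) = τ' (ι x) := by
      intro τ'
      let _ : Algebra L M := (ι : L →+* M).toAlgebra
      have : IsScalarTower KK L M := IsScalarTower.of_algebraMap_eq' (by
        ext x
        show algebraMap KK M x = ι (algebraMap KK L x)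
        rw [ι.commutes])
      refine ⟨(τ'.restrictScalars KK).restrictNormal L, fun x => ?_⟩
      exact AlgEquiv.restrictNormal_commutes (τ'.restrictScalars KK) L x
    have hdM : algebraMap KK M (jK D) ≠ 0 := by
      intro h0
      exact hD (jK_inj (by rw [(map_eq_zero _).1 h0, map_zero]))
    have hpt := exists_pt (Kv := Kv) (M := M) hdM hoM (fun τ' => tau_comm KK Kv M τ' (jK D))
      (fun τ' => tau_comm KK Kv M τ' o) Q (fun τ' => by
        obtain ⟨σ, hσ⟩ := hres τ'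
        rw [← hQ' τ' σ hσ]
        exact (kerE_ptE _ _ _).2 (hK σ))
    have hphi2 : CUD.phi how Q' = toV hr2 h2r (ptE j hjd (phiE hoM Q)) := by
      rw [← phiE_ptE hoM j hjd how (hjdv o), toV_phiE]
    rw [hphi2] at hphi
    rcases hpt with h0 | ⟨x, y, hxy, h0⟩
    · rw [h0, ptE_zero, map_zero] at hphi
      exact absurd hphi.symm (WeierstrassCurve.Affine.Point.some_ne_zero h')
    · rw [h0] at hphi
      obtain ⟨h5, e5⟩ := toV_some hr2 h2r (j (algebraMap Kv M x)) (j (algebraMap Kv M y)) (by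
        have h6 := (WeierstrassCurve.Affine.map_nonsingular (ED (algebraMap KK M (jK D))).toAffine j.injective _ _).2 hxy
        have h7 : ((ED (algebraMap KK M (jK D))).toAffine.map j) = (ED (algebraMap F M' (jF F D))).toAffine := p1_map j hjd
        rwa [h7] at h6)
      have e6 : toV hr2 h2r (ptE j hjd (.some (algebraMap Kv M x) (algebraMap Kv M y) hxy)) =
          .some (j (algebraMap Kv M x)) (j (algebraMap Kv M y) - algebraMap F M' r) h5 := e5
      rw [e6, WeierstrassCurve.Affine.Point.some.injEq] at hphi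
      have hYy : Y = φ y - algebraMap F Fw r := by
        apply (algebraMap Fw M').injective
        rw [map_sub, ← hj, ← IsScalarTower.algebraMap_apply F Fw M']
        exact hphi.2.symm
      refine ⟨x, y, g, hg, ?_, ?_, ?_⟩
      · apply (algebraMap Kv M).injective
        have h8 := (ED_equation _ _ _).1 hxy.1
        rw [map_add, map_pow, map_pow, ← IsScalarTower.algebraMap_apply KK Kv M]
        exact h8
      · rw [← hYy]
        exact hY
      · rw [← hYy]
        exact hbY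

/-- [N4d] -/
theorem locK_of [IsAlgClosure F L] (hD : D ≠ 0) (hQ : Quad D r τ) {o : KK} (ho : o ^ 2 + o + 1 = 0)
    {c : (L ≃ₐ[KK] L) → (ED (algebraMap KK L (jK D))).toAffine.Point} (hc : Coc KK L (jK D) c) (hK : ∀ σ, KerE (c σ))
    {b : F} {s : L} (hb : b ≠ 0) (hs : s ^ 3 = algebraMap F L b)
    (h : ∀ σ : L ≃ₐ[F] L, σ s = CUD.chi (algebraMap F L (algebraMap KK F o)) (cF hQ c σ) * s)
    (hloc : ∀ v : HeightOneSpectrum (𝓞 KK),
      LocTriv c (v.adicCompletion KK) (AlgebraicClosure (v.adicCompletion KK)))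
    (w : HeightOneSpectrum (𝓞 F)) : LocK D r b w := by
  obtain ⟨v, φ, hB⟩ := exists_Below (F := F) w
  obtain ⟨j, ι, ι', hj, hιι', hτ⟩ := exists_embed (L := L) hD hQ hB
  obtain ⟨Q, hQ'⟩ := hloc v ι
  rcases n4d_gen hD hQ ho hK hb hs h (v.adicCompletion KK) (w.adicCompletion F)
    (AlgebraicClosure (v.adicCompletion KK)) (AlgebraicClosure (w.adicCompletion F)) φ hB.comm j ι ι' hj hιι' hτ Q hQ'
    with h1 | h1 | ⟨x, y, g, h1, h2, h3, h4⟩
  · exact Or.inl h1
  · exact Or.inr (Or.inl h1)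
  · exact Or.inr (Or.inr ⟨v, φ, x, y, g, hB, h1, h2, h3, h4⟩)

end

end JD
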