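import Pool.Agent.JD.Q5

/-!
# [JD-G1] eighth powers of elements of norm `1` modulo `λ²`

PROOF. For `x` with `x * τ x = 1` and `w x = 1` over `λ`: `exists_den`: `jF s * x = jF a + jF b r`, `la ∣ s - 1`; the norm: `s² = a² - b² D` in `Eis` (`jr_inj`/`jF_inj`), so modulo `la`: `a² - η b² = 1` in `F₃` (`D ≡ η = ± 1`, `CU.la_dvd_iff`), hence
`la ∣ a b`. Then `jF s⁴ (x⁴ - 1) = (a + b r)⁴ - (a² - b² D)² = 8 a² b² D + 4 a b (a² + b² D) r`. So: (*) there are `s, p', q : Eis` with `la ∣ s - 1`, `jF s (x⁴ - 1) = jF (la² p') + jF (la q) r`.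
Consequently for the places over `λ`: `x⁴ ≡ 1 + la q r mod λ²` with `q : Eis` (`s ≡ 1 mod la`).
Let `a⁴ ≡ 1 + la q_a r`, `b⁴ ≡ 1 + la q_b r` modulo `λ²` (all places over `λ`). `(a b^j)^8 ≡ (1 + la q_a r)² (1 + la q_b r)^{2j} ≡ 1 + 2 la (q_a + j q_b) r mod λ²`. If `la ∣ q_b`, then `b^8 ≡ 1 mod λ²`, excluded by `hb2`. So `la ∤ q_b` and there is `j ∈ {0, 1, 2}` with
`la ∣ q_a + j q_b` (`Eis / la = F₃`).
-/

set_option autoImplicit false

open NumberField IsDedekindDomain
open scoped Classical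

namespace JD

open CM27 CF JZ
open CU (la om eE)

theorem G1_sq {x : Eis} (h : ¬ la ∣ x) : la ∣ x ^ 2 - 1 := by
  have h1 : la ∣ x - 1 ∨ la ∣ x + 1 := by
    rw [CU.la_dvd_iff] at h
    rw [CU.la_dvd_iff, CU.la_dvd_iff]
    have e1 : (x - 1).re = x.re - 1 := rfl
    have e2 : (x - 1).im = x.im - 0 := rfl
    have e3 : (x + 1).re = x.re + 1 := rfl
    have e4 : (x + 1).im = x.im + 0 := rfl
    rw [e1, e2, e3, e4]
    omega
  have h2 : x ^ 2 - 1 = (x - 1) * (x + 1) := by ring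
  rw [h2]
  rcases h1 with h1 | h1
  · exact Dvd.dvd.mul_right h1 _
  · exact Dvd.dvd.mul_left h1 _

theorem G1_not_one : ¬ la ∣ (1 : Eis) := fun h => CU.la_prime.not_isUnit (isUnit_of_dvd_one h)

/-- `Eis / la` has three elements -/
theorem G1_three {x y : Eis} (h : ¬ la ∣ y) : ∃ j : ℕ, la ∣ x + j * y := by
  rw [CU.la_dvd_iff] at h
  have h1 : la ∣ x + (0 : ℕ) * y ∨ la ∣ x + (1 : ℕ) * y ∨ la ∣ x + (2 : ℕ) * y := by
    have e0 : x + ((0 : ℕ) : Eis) * y = x := by push_cast; ring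
    have e1 : x + ((1 : ℕ) : Eis) * y = x + y := by push_cast; ring
    have e2 : x + ((2 : ℕ) : Eis) * y = x + y + y := by push_cast; ring
    rw [e0, e1, e2, CU.la_dvd_iff, CU.la_dvd_iff, CU.la_dvd_iff]
    have a1 : (x + y).re = x.re + y.re := rfl
    have a2 : (x + y).im = x.im + y.im := rfl
    have a3 : (x + y + y).re = x.re + y.re + y.re := rfl
    have a4 : (x + y + y).im = x.im + y.im + y.im := rfl
    rw [a1, a2, a3, a4]
    have hY : (y.re + y.im) % 3 = 1 ∨ (y.re + y.im) % 3 = 2 := by omega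
    have hX : (x.re + x.im) % 3 = 0 ∨ (x.re + x.im) % 3 = 1 ∨ (x.re + x.im) % 3 = 2 := by omega
    rcases hY with hY | hY <;> rcases hX with hX | hX | hX
    · left; omega
    · right; right; omega
    · right; left; omega
    · left; omega
    · right; left; omega
    · right; right; omega
  rcases h1 with h1 | h1 | h1
  · exact ⟨_, h1⟩
  · exact ⟨_, h1⟩
  · exact ⟨_, h1⟩

section
variable {D : Eis} {F : Type} [Field F] [NumberField F] [Algebra KK F] {r : F} {τ : F ≃ₐ[KK] F}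

theorem G1_den (hD : Cl D) (hQ : Quad D r τ) {x : F} (hx : x * τ x = 1)
    (hxu : ∀ w : HeightOneSpectrum (𝓞 F), OvLa w → w.valuation F x = 1) :
    ∃ s p q : Eis, la ∣ s - 1 ∧ jF F s * (x ^ 4 - 1) = jF F (la ^ 2 * p) + jF F (la * q) * r := by
  obtain ⟨s, a, b, hs, h1⟩ := exists_den hD hQ (z := x) (fun w hw => (hxu w hw).le)
  have h2 : jF F s * τ x = jF F a - jF F b * r := by
    have h3 := congrArg τ h1
    rw [map_mul, map_add, map_mul, tau_jF, tau_jF, tau_jF, hQ.tau] at h3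
    rw [h3]
    ring
  have h3 : s ^ 2 = a ^ 2 - b ^ 2 * D := by
    apply jF_inj F
    have h4 : (jF F s * x) * (jF F s * τ x) = jF F s ^ 2 := by
      calc (jF F s * x) * (jF F s * τ x) = jF F s ^ 2 * (x * τ x) := by ring
        _ = _ := by rw [hx, mul_one]
    rw [map_pow, map_sub, map_mul, map_pow, map_pow, ← h4, h1, h2, ← hQ.sq]
    ring
  obtain ⟨η, hη, hDη, -⟩ := hD.2.1
  have hla3 : la ∣ (3 : Eis) := ⟨-om ^ 2 * la, by rw [CU.three_eq]; ring⟩
  have hDη' : la ∣ D - η := hla3.trans hDη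
  have hab : la ∣ a * b := by
    by_contra hcon
    have ha : ¬ la ∣ a := fun h => hcon (Dvd.dvd.mul_right h _)
    have hb : ¬ la ∣ b := fun h => hcon (Dvd.dvd.mul_left h _)
    obtain ⟨k1, hk1⟩ := G1_sq ha
    obtain ⟨k2, hk2⟩ := G1_sq hb
    obtain ⟨k3, hk3⟩ := hs
    obtain ⟨k4, hk4⟩ := hDη'
    -- `η ≡ a² - s² ≡ 0`
    have h5 : la ∣ η := by
      refine ⟨k1 - k3 * (s + 1) - k2 * D - k4, ?_⟩
      linear_combination h3 + hk1 - (s + 1) * hk3 - D * hk2 - hk4
    apply G1_not_one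
    rcases hη with h6 | h6
    · rwa [h6] at h5
    · rw [h6] at h5
      exact (dvd_neg).1 h5
  obtain ⟨m, hm⟩ := hab
  refine ⟨s ^ 4, 8 * m ^ 2 * D, 4 * m * (a ^ 2 + b ^ 2 * D), ?_, ?_⟩
  · have h5 : s ^ 4 - 1 = (s - 1) * (s ^ 3 + s ^ 2 + s + 1) := by ring
    rw [h5]
    exact Dvd.dvd.mul_right hs _
  · have h6 : jF F s ^ 2 = jF F a ^ 2 - jF F b ^ 2 * r ^ 2 := by
      have h7 := congrArg (jF F) h3
      rw [map_pow, map_sub, map_mul, map_pow, map_pow, ← hQ.sq] at h7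
      exact h7
    have h8 : jF F a * jF F b = jF F la * jF F m := by
      have h9 := congrArg (jF F) hm
      rwa [map_mul, map_mul] at h9
    have h10 : jF F (s ^ 4) * (x ^ 4 - 1) = (jF F s * x) ^ 4 - (jF F s ^ 2) ^ 2 := by
      rw [map_pow]
      ring
    rw [h10, h1, h6]
    simp only [map_mul, map_add, map_pow, map_ofNat, ← hQ.sq]
    linear_combination (8 * (jF F a * jF F b + jF F la * jF F m) * r ^ 2 +
      4 * (jF F a ^ 2 + jF F b ^ 2 * r ^ 2) * r) * h8

theorem G1_jF_le (w : HeightOneSpectrum (𝓞 F)) (c : Eis) : w.valuation F (jF F c) ≤ 1 :=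
  w.valuation_le_one (⟨jF F c, int_jF F c⟩ : 𝓞 F)

theorem G1_r_le (hQ : Quad D r τ) (w : HeightOneSpectrum (𝓞 F)) : w.valuation F r ≤ 1 :=
  w.valuation_le_one (⟨r, int_r hQ⟩ : 𝓞 F)

theorem G1_la_mul (w : HeightOneSpectrum (𝓞 F)) {c : F} (hc : w.valuation F c ≤ 1) :
    w.valuation F (jF F la * c) ≤ w.valuation F (jF F la) := by
  rw [map_mul]
  calc w.valuation F (jF F la) * w.valuation F c ≤ w.valuation F (jF F la) * 1 := mul_le_mul_right hc _
    _ = _ := mul_one _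

theorem G1_one (hQ : Quad D r τ) (w : HeightOneSpectrum (𝓞 F)) (hw : OvLa w) {x : F} {s p q : Eis}
    (hs : la ∣ s - 1) (h : jF F s * (x ^ 4 - 1) = jF F (la ^ 2 * p) + jF F (la * q) * r) :
    w.valuation F (x ^ 4 - 1 - jF F (la * q) * r) ≤ w.valuation F (jF F la) ^ 2 := by
  have hws : w.valuation F (jF F s) = 1 := by
    refine le_antisymm (G1_jF_le w s) ?_
    by_contra hcon
    rw [not_le, ov_mem w hw] at hcon
    apply G1_not_one
    have := dvd_sub hcon hs
    rwa [sub_sub_cancel] at this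
  have h1 : w.valuation F (x ^ 4 - 1) ≤ w.valuation F (jF F la) := by
    have h2 : w.valuation F (jF F s * (x ^ 4 - 1)) = w.valuation F (x ^ 4 - 1) := by
      rw [map_mul, hws, one_mul]
    rw [← h2, h]
    have h3 : jF F (la ^ 2 * p) + jF F (la * q) * r = jF F la * (jF F (la * p) + jF F q * r) := by
      simp only [map_mul, map_pow]
      ring
    rw [h3]
    apply G1_la_mul
    apply Valuation.map_add_le _ (G1_jF_le w _)
    rw [map_mul]
    exact mul_le_one' (G1_jF_le w _) (G1_r_le hQ w)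
  obtain ⟨t, ht⟩ := hs
  have h4 : x ^ 4 - 1 - jF F (la * q) * r = jF F la * (jF F la * jF F p) - (jF F la * jF F t) * (x ^ 4 - 1) := by
    have h5 : jF F s = 1 + jF F la * jF F t := by
      have h6 := congrArg (jF F) ht
      rw [map_sub, map_one, map_mul] at h6
      rw [← h6]
      ring
    have h7 := h
    rw [h5, map_mul _ (la ^ 2), map_pow] at h7
    linear_combination h7
  rw [h4, pow_two]
  apply Valuation.map_sub_le
  · rw [map_mul]
    exact mul_le_mul_right (G1_la_mul w (G1_jF_le w p)) _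
  · rw [map_mul]
    exact mul_le_mul' (G1_la_mul w (G1_jF_le w t)) h1

omit [Algebra KK F] in
/-- congruences modulo `λ²` -/
theorem G1_mul (w : HeightOneSpectrum (𝓞 F)) {L : WithZero (Multiplicative ℤ)} (hL : L ≤ 1) {x y u v : F}
    (hx : w.valuation F (x - 1 - u) ≤ L ^ 2) (hy : w.valuation F (y - 1 - v) ≤ L ^ 2)
    (hu : w.valuation F u ≤ L) (hv : w.valuation F v ≤ L) :
    w.valuation F (x * y - 1 - (u + v)) ≤ L ^ 2 := by
  have hL2 : L ^ 2 ≤ 1 := pow_le_one' hL 2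
  have h1 : w.valuation F (1 : F) ≤ 1 := (map_one _).le
  have hy1 : w.valuation F y ≤ 1 := by
    have e : y = (y - 1 - v) + (1 + v) := by ring
    rw [e]
    exact Valuation.map_add_le _ (hy.trans hL2) (Valuation.map_add_le _ h1 (hv.trans hL))
  have e : x * y - 1 - (u + v) = ((x - 1 - u) * y + (1 + u) * (y - 1 - v)) + u * v := by ring
  rw [e]
  apply Valuation.map_add_le
  · apply Valuation.map_add_le
    · rw [map_mul]
      calc w.valuation F (x - 1 - u) * w.valuation F y ≤ L ^ 2 * 1 := mul_le_mul' hx hy1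
        _ = _ := mul_one _
    · rw [map_mul]
      calc w.valuation F (1 + u) * w.valuation F (y - 1 - v) ≤ 1 * L ^ 2 :=
            mul_le_mul' (Valuation.map_add_le _ h1 (hu.trans hL)) hy
        _ = _ := one_mul _
  · rw [map_mul, pow_two]
    exact mul_le_mul' hu hv

omit [Algebra KK F] in
theorem G1_nat (w : HeightOneSpectrum (𝓞 F)) (n : ℕ) : w.valuation F (n : F) ≤ 1 := by
  have h := w.valuation_le_one (K := F) ((n : ℕ) : 𝓞 F)
  exact (congrArg (w.valuation F) (map_natCast (algebraMap (𝓞 F) F) n)).symm.le.trans h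

omit [Algebra KK F] in
theorem G1_pow (w : HeightOneSpectrum (𝓞 F)) {L : WithZero (Multiplicative ℤ)} (hL : L ≤ 1) {x u : F}
    (hx : w.valuation F (x - 1 - u) ≤ L ^ 2) (hu : w.valuation F u ≤ L) (n : ℕ) :
    w.valuation F (x ^ n - 1 - n * u) ≤ L ^ 2 := by
  induction n with
  | zero => simp
  | succ n ih =>
    have h1 : w.valuation F ((n : F) * u) ≤ L := by
      rw [map_mul]
      calc w.valuation F (n : F) * w.valuation F u ≤ 1 * L := mul_le_mul' (G1_nat w n) hu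
        _ = _ := one_mul _
    have h2 := G1_mul w hL ih hx h1 hu
    have e : x ^ (n + 1) - 1 - ((n + 1 : ℕ) : F) * u = x ^ n * x - 1 - ((n : F) * u + u) := by
      push_cast
      ring
    rw [e]
    exact h2

theorem local_adjust (hD : Cl D) (hQ : Quad D r τ) {a b : F} (ha : a * τ a = 1) (hb : b * τ b = 1)
    (hau : ∀ w : HeightOneSpectrum (𝓞 F), OvLa w → w.valuation F a = 1)
    (hbu : ∀ w : HeightOneSpectrum (𝓞 F), OvLa w → w.valuation F b = 1)
    (hb2 : ¬ ∀ w : HeightOneSpectrum (𝓞 F), OvLa w → w.valuation F (b ^ 8 - 1) ≤ w.valuation F (jF F la) ^ 2) :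
    ∃ j : ℕ, ∀ w : HeightOneSpectrum (𝓞 F), OvLa w →
      w.valuation F ((a * b ^ j) ^ 8 - 1) ≤ w.valuation F (jF F la) ^ 2 := by
  obtain ⟨sa, pa, qa, hsa, ha4⟩ := G1_den hD hQ ha hau
  obtain ⟨sb, pb, qb, hsb, hb4⟩ := G1_den hD hQ hb hbu
  -- elements divisible by `la²`
  have hsmall : ∀ (w : HeightOneSpectrum (𝓞 F)) (n : ℕ) (q : Eis), la ∣ q →
      w.valuation F ((n : F) * (jF F (la * q) * r)) ≤ w.valuation F (jF F la) ^ 2 := by
    intro w n q hq
    obtain ⟨q', rfl⟩ := hq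
    have e : (n : F) * (jF F (la * (la * q')) * r) = jF F la * (jF F la * (jF F q' * (n * r))) := by
      simp only [map_mul]
      ring
    rw [e, map_mul, pow_two]
    refine mul_le_mul_right (G1_la_mul w ?_) _
    rw [map_mul, map_mul]
    exact mul_le_one' (G1_jF_le w _) (mul_le_one' (G1_nat w n) (G1_r_le hQ w))
  have hlar : ∀ (w : HeightOneSpectrum (𝓞 F)) (q : Eis),
      w.valuation F (jF F (la * q) * r) ≤ w.valuation F (jF F la) := by
    intro w q
    rw [map_mul (jF F), mul_assoc]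
    apply G1_la_mul
    rw [map_mul]
    exact mul_le_one' (G1_jF_le w _) (G1_r_le hQ w)
  have hqb : ¬ la ∣ qb := by
    intro hdiv
    apply hb2
    intro w hw
    have hL : w.valuation F (jF F la) ≤ 1 := le_of_lt hw
    have h1 := G1_pow w hL (G1_one hQ w hw hsb hb4) (hlar w qb) 2
    have h2 := hsmall w 2 qb hdiv
    have e : b ^ 8 - 1 = ((b ^ 4) ^ 2 - 1 - ((2 : ℕ) : F) * (jF F (la * qb) * r)) +
        ((2 : ℕ) : F) * (jF F (la * qb) * r) := by ring
    rw [e]
    exact Valuation.map_add_le _ h1 h2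
  obtain ⟨j, hj⟩ := G1_three (x := qa) hqb
  refine ⟨j, fun w hw => ?_⟩
  have hL : w.valuation F (jF F la) ≤ 1 := le_of_lt hw
  have h1 := G1_pow w hL (G1_one hQ w hw hsa ha4) (hlar w qa) 2
  have h2 := G1_pow w hL (G1_one hQ w hw hsb hb4) (hlar w qb) (2 * j)
  have h1' : w.valuation F (((2 : ℕ) : F) * (jF F (la * qa) * r)) ≤ w.valuation F (jF F la) := by
    rw [map_mul]
    calc _ ≤ 1 * w.valuation F (jF F la) := mul_le_mul' (G1_nat w 2) (hlar w qa)
      _ = _ := one_mul _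
  have h2' : w.valuation F (((2 * j : ℕ) : F) * (jF F (la * qb) * r)) ≤ w.valuation F (jF F la) := by
    rw [map_mul]
    calc _ ≤ 1 * w.valuation F (jF F la) := mul_le_mul' (G1_nat w _) (hlar w qb)
      _ = _ := one_mul _
  have h3 := G1_mul w hL h1 h2 h1' h2'
  have h4 := hsmall w 2 _ hj
  have e : (a * b ^ j) ^ 8 - 1 = ((a ^ 4) ^ 2 * (b ^ 4) ^ (2 * j) - 1 -
      (((2 : ℕ) : F) * (jF F (la * qa) * r) + ((2 * j : ℕ) : F) * (jF F (la * qb) * r))) +
      ((2 : ℕ) : F) * (jF F (la * (qa + j * qb)) * r) := by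
    simp only [map_mul, map_add, map_natCast]
    push_cast
    ring
  rw [e]
  exact Valuation.map_add_le _ h3 h4

end

end JD
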