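import Pool.Agent.JD.P1

/-!
# [JD-P2] `phiE ∘ phiE = -3 omE`, kernel and surjectivity of `phiE`; points of the base change
-/

set_option autoImplicit false

open NumberField IsDedekindDomain
open scoped Classical

namespace JD

open CM27 CF JZ
open CU (la om eE W3)

section
variable {K : Type} [Field K] [CharZero K] {d o : K}

/-- an extension in which `d` is a square -/
theorem p2_ext (d : K) : ∃ r : AlgebraicClosure K, r ^ 2 = algebraMap K (AlgebraicClosure K) d := by
  obtain ⟨r, hr⟩ := IsAlgClosed.exists_pow_nat_eq (algebraMap K (AlgebraicClosure K) d) (n := 2) (by norm_num)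
  exact ⟨r, hr⟩

theorem p2_r0 (hd : d ≠ 0) {r : AlgebraicClosure K} (h : r ^ 2 = algebraMap K (AlgebraicClosure K) d) :
    2 * r ≠ 0 := by
  have h1 : CharZero (AlgebraicClosure K) := charZero_of_injective_algebraMap (algebraMap K _).injective
  refine mul_ne_zero two_ne_zero ?_
  rintro rfl
  apply hd
  apply (algebraMap K (AlgebraicClosure K)).injective
  rw [map_zero, ← h]
  ring

theorem p2_o (ho : o ^ 2 + o + 1 = 0) :
    (algebraMap K (AlgebraicClosure K) o) ^ 2 + algebraMap K (AlgebraicClosure K) o + 1 = 0 := CUD.am_o ho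

theorem phiE_phiE (hd : d ≠ 0) (ho : o ^ 2 + o + 1 = 0) (P : (ED d).toAffine.Point) :
    phiE ho (phiE ho P) = -(3 • omE ho P) := by
  have hcz : CharZero (AlgebraicClosure K) := charZero_of_injective_algebraMap (algebraMap K _).injective
  obtain ⟨r, hr⟩ := p2_ext d
  have ho' := p2_o ho
  apply ptE_injective (algebraMap K (AlgebraicClosure K)) rfl
  apply (toW hr).injective
  rw [← phiE_ptE ho _ rfl ho' rfl, ← phiE_ptE ho _ rfl ho' rfl, toW_phiE, toW_phiE,
    CUD.phi_phi (p2_r0 hd hr), ptE_neg, map_neg, ptE_nsmul, map_nsmul, ← omE_ptE ho _ rfl ho' rfl, toW_omE]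

theorem phiE_eq_zero (hd : d ≠ 0) (ho : o ^ 2 + o + 1 = 0) (P : (ED d).toAffine.Point) :
    phiE ho P = 0 ↔ KerE P := by
  have hcz : CharZero (AlgebraicClosure K) := charZero_of_injective_algebraMap (algebraMap K _).injective
  obtain ⟨r, hr⟩ := p2_ext d
  have ho' := p2_o ho
  have h1 : phiE ho P = 0 ↔ phiE ho' (ptE (algebraMap K (AlgebraicClosure K)) rfl P) = 0 := by
    rw [phiE_ptE ho _ rfl ho' rfl]
    constructor
    · intro h
      rw [h, ptE_zero]
    · intro h
      apply ptE_injective (algebraMap K (AlgebraicClosure K)) rfl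
      rw [h, ptE_zero]
  have h2 : phiE ho' (ptE (algebraMap K (AlgebraicClosure K)) rfl P) = 0 ↔
      CUD.phi ho' (toW hr (ptE (algebraMap K (AlgebraicClosure K)) rfl P)) = 0 := by
    rw [← toW_phiE]
    constructor
    · intro h
      rw [h, map_zero]
    · intro h
      apply (toW hr).injective
      rw [h, map_zero]
  rw [h1, h2, CUD.phi_eq_zero (p2_r0 hd hr), toW_ker]
  cases P with
  | zero => exact Iff.rfl
  | some x y hP =>
    change algebraMap K (AlgebraicClosure K) x = 0 ↔ x = 0
    exact map_eq_zero _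

theorem phiE_surj [IsAlgClosed K] (hd : d ≠ 0) (ho : o ^ 2 + o + 1 = 0) (P : (ED d).toAffine.Point) :
    ∃ Q, phiE ho Q = P := by
  obtain ⟨r, hr⟩ := IsAlgClosed.exists_pow_nat_eq d (n := 2) (by norm_num)
  have hr0 : 2 * r ≠ 0 := by
    refine mul_ne_zero two_ne_zero ?_
    rintro rfl
    exact hd (by rw [← hr]; ring)
  obtain ⟨Q, hQ⟩ := CUD.phi_surj hr0 ho (toW hr P)
  refine ⟨(toW hr).symm Q, ?_⟩
  apply (toW hr).injective
  rw [toW_phiE, AddEquiv.apply_symm_apply, hQ]

omit [CharZero K] in
theorem kerE_zero : KerE (0 : (ED d).toAffine.Point) := trivial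

omit [CharZero K] in
theorem kerE_ptE {L : Type} [Field L] (f : K →+* L) {d' : L} (h : f d = d') (P : (ED d).toAffine.Point) :
    KerE (ptE f h P) ↔ KerE P := by
  cases P with
  | zero => exact Iff.rfl
  | some x y hP =>
    change f x = 0 ↔ x = 0
    exact map_eq_zero _

end

/-! ### the points of the base change -/

/-- The points of the base change of `ED d` are the points of `ED (algebraMap K L d)`. -/
noncomputable def trE {K : Type} [Field K] (d : K) (L : Type) [Field L] [Algebra K L] :
    ((ED d).baseChange L).toAffine.Point ≃+ (ED (algebraMap K L d)).toAffine.Point :=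
  CM27.trEq (ED_map (algebraMap K L) d)

theorem trE_some {K : Type} [Field K] (d : K) (L : Type) [Field L] [Algebra K L] (x y : L)
    (h : ((ED d).baseChange L).toAffine.Nonsingular x y) :
    ∃ h', trE d L (.some x y h) = .some x y h' :=
  ⟨_, CM27.trEq_some _ x y h⟩

theorem trE_map {K : Type} [Field K] (d : K) (L L' : Type) [Field L] [Algebra K L] [Field L']
    [Algebra K L'] (f : L →ₐ[K] L') (P : ((ED d).baseChange L).toAffine.Point) :
    trE d L' (WeierstrassCurve.Affine.Point.map (W' := ED d) f P) =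
      ptE (f : L →+* L') (CUD.alg_comm f d) (trE d L P) := by
  rcases P with _ | ⟨x, y, h⟩
  · have h1 : (WeierstrassCurve.Affine.Point.zero : ((ED d).baseChange L).toAffine.Point) = 0 :=
      rfl
    rw [h1, map_zero, map_zero, map_zero]
    rfl
  · obtain ⟨h', h2⟩ := trE_some d L x y h
    rw [h2, WeierstrassCurve.Affine.Point.map_some]
    obtain ⟨h'', h3⟩ := trE_some d L' (f x) (f y)
      ((WeierstrassCurve.Affine.baseChange_nonsingular (ED d).toAffine f.injective ..).mpr h)
    rw [h3]
    rfl

end JD
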