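import Pool.Agent.JD.G5

/-!
# [JD-C1] roots of unity and units

PROOF. `tau_unit`-facts: `τ` maps integers to integers (`τ z` is integral: `IsIntegral.map`), so it maps units of `𝓞 F` to units, `w (u) = 1` for all units.
`tors`: `z = ζ / τ ζ`, `z * τ z = 1` (`tau_tau`, Q1). `ζ` has finite order, so `z` has: let `m = orderOf z > 0`. If `3 ∣ m` then `z' = z ^ (m / 3)` has order 3, so `z'² + z' + 1 = 0`, and `z' = jF om` or `z' = jF (om²)` (`(z' - jF om)(z' - jF om²) = z'² + z' + 1`), so `τ z' = z'` (`tau_jF`); but `z' * τ z' = 1`: `z'² = 1`, `z'³ = 1`, `z' = 1`,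
contradiction.
`PL_tors`: `z` integral, `w z = 1`, `z * τ z = 1`. `y = z ^ 8`, `w (y - 1) < 1` (`ov_eight`, Q4), so `w (y - 1) ≤ exp (-1) = w la` (`ov_val`, Q3), `y ^ m = 1`, `3 ∤ m`. `y = 1 + t`, `w t ≤ w la`: `0 = y ^ m - 1 = m t + t² (...)` with an integral factor, `w m = 1` (`m` is an integer prime to `3`: `w 3 < 1` by `CU.three_eq`; Bezout `a m + 3 b = 1`),
so `w t = w (t² ..) ≤ (w t)²`; as `w t < 1` this gives `t = 0` or `w t ≤ (w t)² < w t`: `t = 0`. So `w (y - 1) = 0`. (So even `z ^ 8 = 1`: at least at one place, fine.)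
`PL_mul`: `(a b)^8 - 1 = (a^8 - 1) b^8 + (b^8 - 1)`, `w b = 1`. `PL_inv`: `a⁻¹ ^ 8 - 1 = -(a^8 - 1) / a^8`. `PL_cube`: for `w c = 1`: `c^8 = 1 + t`, `w t ≤ w la` (as above), `c^24 - 1 = 3 t + 3 t² + t³`, `w 3 = (w la)²`: `w (..) ≤ (w la)³ ≤ (w la)²`.
-/

set_option autoImplicit false

open NumberField IsDedekindDomain
open scoped Classical

namespace JD

open CM27 CF JZ
open CU (la om eE)

/-- `b ^ 8 ≡ 1` modulo `λ²` at the places over `λ` -/
def PL {F : Type} [Field F] [NumberField F] [Algebra KK F] (b : F) : Prop :=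
  ∀ w : HeightOneSpectrum (𝓞 F), OvLa w → w.valuation F (b ^ 8 - 1) ≤ w.valuation F (jF F la) ^ 2

theorem c1b_om (F : Type) [Field F] [NumberField F] [Algebra KK F] (w : HeightOneSpectrum (𝓞 F)) :
    w.valuation F (jF F om) = 1 := by
  have h1 : w.valuation F (jF F om) ^ 3 = 1 := by
    rw [← map_pow, ← map_pow, CU.om_cube, map_one, map_one]
  exact (pow_eq_one_iff.1 h1).resolve_right three_ne_zero

theorem c1b_three (F : Type) [Field F] [NumberField F] [Algebra KK F] (w : HeightOneSpectrum (𝓞 F)) :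
    w.valuation F (3 : F) = w.valuation F (jF F la) ^ 2 := by
  have h1 : (3 : F) = jF F 3 := (map_ofNat (jF F) 3).symm
  rw [h1, CU.three_eq, map_mul, map_mul, map_neg, Valuation.map_neg, map_pow, map_pow, map_pow, map_pow,
    c1b_om, one_pow, one_mul]

theorem c1b_nat {F : Type} [Field F] [NumberField F] [Algebra KK F] (w : HeightOneSpectrum (𝓞 F))
    (hw : OvLa w) {m : ℕ} (hm : ¬ 3 ∣ m) : w.valuation F (m : F) = 1 := by
  have h1 : (m : F) = jF F (m : Eis) := (map_natCast (jF F) m).symm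
  rw [h1]
  apply le_antisymm (q3b_le w (int_jF F _))
  rw [← not_lt, ov_mem w hw, CU.la_dvd_iff]
  intro h
  apply hm
  have h2 : ((m : Eis).re + (m : Eis).im) = (m : ℤ) := by simp
  rw [h2] at h
  exact_mod_cast h

theorem c1b_lt {v : WithZero (Multiplicative ℤ)} (h : v < 1) : v ≤ WithZero.exp (-1 : ℤ) := by
  by_cases h0 : v = 0
  · rw [h0]
    exact zero_le
  · rw [← WithZero.exp_log h0, ← WithZero.exp_zero, WithZero.exp_lt_exp] at h
    rw [← WithZero.exp_log h0, WithZero.exp_le_exp]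
    omega

theorem c1b_pow {F : Type} [Field F] [NumberField F] (w : HeightOneSpectrum (𝓞 F)) {y : F}
    (hy : w.valuation F y = 1) (h : w.valuation F (y - 1) < 1) (i : ℕ) : w.valuation F (y ^ i - 1) < 1 := by
  induction i with
  | zero =>
    rw [pow_zero, sub_self, map_zero]
    exact zero_lt_one
  | succ i ih =>
    have e : y ^ (i + 1) - 1 = y ^ i * (y - 1) + (y ^ i - 1) := by ring
    rw [e]
    refine Valuation.map_add_lt _ ?_ ih
    rw [map_mul, map_pow, hy, one_pow, one_mul]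
    exact h

theorem c1b_sum {F : Type} [Field F] [NumberField F] (w : HeightOneSpectrum (𝓞 F)) {y : F}
    (hy : w.valuation F y = 1) (h : w.valuation F (y - 1) < 1) (m : ℕ) :
    w.valuation F (∑ i ∈ Finset.range m, y ^ i - (m : F)) < 1 := by
  induction m with
  | zero =>
    rw [Finset.sum_range_zero, Nat.cast_zero, sub_self, map_zero]
    exact zero_lt_one
  | succ m ih =>
    have e : ∑ i ∈ Finset.range (m + 1), y ^ i - ((m + 1 : ℕ) : F) =
        (∑ i ∈ Finset.range m, y ^ i - (m : F)) + (y ^ m - 1) := by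
      rw [Finset.sum_range_succ, Nat.cast_add, Nat.cast_one]
      ring
    rw [e]
    exact Valuation.map_add_lt _ ih (c1b_pow w hy h m)

section
variable {D : Eis} {F : Type} [Field F] [NumberField F] [Algebra KK F] {r : F} {τ : F ≃ₐ[KK] F}

theorem val_unit (u : (𝓞 F)ˣ) (w : HeightOneSpectrum (𝓞 F)) :
    w.valuation F (u : F) = 1 ∧ w.valuation F (τ (u : F)) = 1 := by
  exact ⟨g5a_unit w u, g5a_tau w u⟩

/-- The roots of unity of order `3` are fixed by `τ`. -/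
theorem c1a_three {z : F} (hz : z ^ 2 + z + 1 = 0) : τ z = z := by
  have h1 : (jF F om) ^ 2 + jF F om + 1 = 0 := by
    rw [← map_pow, ← map_one (jF F), ← map_add, ← map_add, show om ^ 2 + om + 1 = 0 by decide,
      map_zero]
  have h2 : (z - jF F om) * (z - (jF F om) ^ 2) = 0 := by
    linear_combination hz + (jF F om - 1 - z) * h1
  rcases mul_eq_zero.1 h2 with h3 | h3
  · rw [sub_eq_zero.1 h3, tau_jF]
  · rw [sub_eq_zero.1 h3, map_pow, tau_jF]

theorem tors (hD : D ≠ 0) (hQ : Quad D r τ) {ζ : F} {n : ℕ} (hn : 0 < n) (hζ : ζ ^ n = 1) :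
    ∃ m : ℕ, 0 < m ∧ ¬ 3 ∣ m ∧ (ζ / τ ζ) ^ m = 1 := by
  have hζ0 : ζ ≠ 0 := by
    intro h
    rw [h, zero_pow hn.ne'] at hζ
    exact zero_ne_one hζ
  have hτζ0 : τ ζ ≠ 0 := fun h => hζ0 ((map_eq_zero τ).1 h)
  have hτζ : (τ ζ) ^ n = 1 := by
    rw [← map_pow, hζ, map_one]
  have hz : (ζ / τ ζ) ^ n = 1 := by
    rw [div_pow, hζ, hτζ, div_one]
  have hzz : (ζ / τ ζ) * τ (ζ / τ ζ) = 1 := by
    rw [map_div₀, tau_tau hD hQ, div_mul_div_comm, mul_comm, div_self (mul_ne_zero hτζ0 hζ0)]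
  have hfin : IsOfFinOrder (ζ / τ ζ) := isOfFinOrder_iff_pow_eq_one.2 ⟨n, hn, hz⟩
  have hpos : 0 < orderOf (ζ / τ ζ) := orderOf_pos_iff.2 hfin
  refine ⟨orderOf (ζ / τ ζ), hpos, ?_, pow_orderOf_eq_one _⟩
  rintro ⟨k, hk⟩
  have hk0 : 0 < k := by
    rcases Nat.eq_zero_or_pos k with h | h
    · rw [h, mul_zero] at hk
      omega
    · exact h
  have h3 : ((ζ / τ ζ) ^ k) ^ 3 = 1 := by
    rw [← pow_mul, mul_comm k 3, ← hk, pow_orderOf_eq_one]
  have hne : (ζ / τ ζ) ^ k ≠ 1 := by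
    intro h
    have h4 := orderOf_le_of_pow_eq_one hk0 h
    omega
  have hquad : ((ζ / τ ζ) ^ k) ^ 2 + (ζ / τ ζ) ^ k + 1 = 0 := by
    have h4 : ((ζ / τ ζ) ^ k - 1) * (((ζ / τ ζ) ^ k) ^ 2 + (ζ / τ ζ) ^ k + 1) = 0 := by
      linear_combination h3
    rcases mul_eq_zero.1 h4 with h5 | h5
    · exact absurd (sub_eq_zero.1 h5) hne
    · exact h5
  have hfix : τ ((ζ / τ ζ) ^ k) = (ζ / τ ζ) ^ k := c1a_three hquad
  have h5 : (ζ / τ ζ) ^ k * τ ((ζ / τ ζ) ^ k) = 1 := by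
    rw [map_pow, ← mul_pow, hzz, one_pow]
  rw [hfix] at h5
  apply hne
  have h6 : ((ζ / τ ζ) ^ k) ^ 3 = (ζ / τ ζ) ^ k * ((ζ / τ ζ) ^ k * (ζ / τ ζ) ^ k) := by ring
  rw [h6, h5, mul_one] at h3
  exact h3

theorem PL_tors (hD : Cl D) (hQ : Quad D r τ) {z : F} {m : ℕ} (hm : 0 < m) (hm3 : ¬ 3 ∣ m) (hz : z ^ m = 1) : PL z := by
  intro w hw
  have hwz : w.valuation F z = 1 := by
    have h1 : w.valuation F z ^ m = 1 := by rw [← map_pow, hz, map_one]
    exact (pow_eq_one_iff.1 h1).resolve_right hm.ne'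
  have h8 := ov_eight hD hQ w hw hwz
  have hy : w.valuation F (z ^ 8) = 1 := by rw [map_pow, hwz, one_pow]
  have hgeom : (∑ i ∈ Finset.range m, (z ^ 8) ^ i) * (z ^ 8 - 1) = 0 := by
    rw [geom_sum_mul, ← pow_mul, mul_comm 8 m, pow_mul, hz, one_pow, sub_self]
  have hs := c1b_sum w hy h8 m
  have hm1 := c1b_nat w hw hm3
  have hne : ∑ i ∈ Finset.range m, (z ^ 8) ^ i ≠ 0 := by
    intro h0
    rw [h0, zero_sub, Valuation.map_neg, hm1] at hs
    exact lt_irrefl _ hs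
  rw [(mul_eq_zero.1 hgeom).resolve_left hne, map_zero]
  exact zero_le

theorem PL_mul {a b : F} (ha : PL a) (hb : PL b) (hbu : ∀ w : HeightOneSpectrum (𝓞 F), OvLa w → w.valuation F b = 1) :
    PL (a * b) := by
  intro w hw
  have e : (a * b) ^ 8 - 1 = (a ^ 8 - 1) * b ^ 8 + (b ^ 8 - 1) := by ring
  rw [e]
  refine (Valuation.map_add _ _ _).trans (max_le ?_ (hb w hw))
  rw [map_mul, map_pow, hbu w hw, one_pow, mul_one]
  exact ha w hw

theorem PL_inv {a : F} (ha : PL a) (hau : ∀ w : HeightOneSpectrum (𝓞 F), OvLa w → w.valuation F a = 1) : PL a⁻¹ := by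
  intro w hw
  have h1 := hau w hw
  have ha0 : a ≠ 0 := by
    rintro rfl
    rw [map_zero] at h1
    exact zero_ne_one h1
  have e : a⁻¹ ^ 8 - 1 = -(a ^ 8 - 1) * (a ^ 8)⁻¹ := by
    field_simp
    ring
  rw [e, map_mul, Valuation.map_neg, map_inv₀, map_pow, h1, one_pow, inv_one, mul_one]
  exact ha w hw

theorem PL_cube (hD : Cl D) (hQ : Quad D r τ) {c : F}
    (hc : ∀ w : HeightOneSpectrum (𝓞 F), OvLa w → w.valuation F c = 1) : PL (c ^ 3) := by
  intro w hw
  have h1 := hc w hw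
  have h8 := ov_eight hD hQ w hw h1
  set t : F := c ^ 8 - 1 with ht
  have hla := ov_val hD hQ w hw
  have hla1 : w.valuation F (jF F la) ≤ 1 := le_of_lt hw
  have htla : w.valuation F t ≤ w.valuation F (jF F la) := by
    rw [hla]
    exact c1b_lt h8
  have e : (c ^ 3) ^ 8 - 1 = 3 * t + 3 * t ^ 2 + t ^ 3 := by
    rw [ht]
    ring
  have h3 := c1b_three F w
  rw [e]
  refine (Valuation.map_add _ _ _).trans (max_le ((Valuation.map_add _ _ _).trans (max_le ?_ ?_)) ?_)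
  · rw [map_mul, h3]
    exact mul_le_of_le_one_right' h8.le
  · rw [map_mul, h3, map_pow]
    exact mul_le_of_le_one_right' (pow_le_one' h8.le 2)
  · rw [map_pow]
    calc w.valuation F t ^ 3 ≤ w.valuation F (jF F la) ^ 3 := pow_le_pow_left' htla 3
      _ = w.valuation F (jF F la) ^ 2 * w.valuation F (jF F la) := pow_succ _ _
      _ ≤ w.valuation F (jF F la) ^ 2 := mul_le_of_le_one_right' hla1

end

end JD
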