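import Pool.Agent.JD.C1

/-!
# [JD-C2] units `v` with `(v / v̄)^8 ≡ 1 mod λ²` are cubes up to roots of unity

PROOF. `exists_fund`: the unit rank of `F` is 1 (see the proof of `exists_unit`, G2.lean): there is a unit `ε` such that every unit is `ζ ε^n`, `n ∈ ℤ`, `ζ` of finite order (`Units.exist_unique_eq_mul_prod`, `Units.fundSystem`, `Units.rank F = 1`).
`unit_cube`: write `q(x) = x / τ x` (multiplicative, `q(x)` has valuation 1 for a unit `x`: `val_unit`). `v = ζ ε^n`, `u = ζ' ε^k`. If `3 ∣ n`, `n = 3 l`: `v = ζ (ε^l)³`. Otherwise there are `j, l ∈ ℤ` with `k = j n + 3 l` (`n` is invertible modulo 3), `u = ζ' ζ^(-j) v^j (ε^l)³`, so `q(u) = q(ζ'') q(v)^j q(ε^l)³` with `ζ''` of finite order;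
`PL (q ζ'')` (`tors`, `PL_tors`), `PL (q(v)^j)` (`PL_mul`, `PL_inv`, induction), `PL (q(ε^l)³)` (`PL_cube`), so `PL (q u)`: contradiction to `hu`.
-/

set_option autoImplicit false

open NumberField IsDedekindDomain
open scoped Classical

namespace JD

open CM27 CF JZ
open CU (la om eE)

theorem c2_not_isReal (F : Type) [Field F] [NumberField F] [Algebra KK F] (v : InfinitePlace F) :
    ¬ v.IsReal := by
  intro hv
  rw [InfinitePlace.isReal_iff, ComplexEmbedding.isReal_iff] at hv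
  have h0 : om ^ 2 + om + 1 = (0 : Eis) := by decide
  have h1 : v.embedding (jF F om) ^ 2 + v.embedding (jF F om) + 1 = 0 := by
    rw [← map_pow, ← map_add, ← map_pow, ← map_add, ← map_one v.embedding,
      ← map_one (jF F), ← map_add, ← map_add, h0, map_zero, map_zero]
  have h2 : (starRingEnd ℂ) (v.embedding (jF F om)) = v.embedding (jF F om) := by
    have h3 := congrArg (fun φ : F →+* ℂ => φ (jF F om)) hv
    exact h3
  obtain ⟨t, ht⟩ := Complex.conj_eq_iff_real.1 h2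
  rw [ht] at h1
  have h4 : t ^ 2 + t + 1 = 0 := by exact_mod_cast h1
  nlinarith [sq_nonneg (t + 1 / 2)]

theorem c2_rank (F : Type) [Field F] [NumberField F] [Algebra KK F]
    (h : Module.finrank KK F = 2) : NumberField.Units.rank F = 1 := by
  have h1 : Module.finrank ℚ F = 4 := by
    rw [← Module.finrank_mul_finrank ℚ KK F, h, CF.d2_finrank_KK]
  have h2 := NumberField.InfinitePlace.sum_mult_eq (K := F)
  rw [h1] at h2
  have h3 : ∑ w : InfinitePlace F, w.mult = ∑ _w : InfinitePlace F, 2 := by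
    refine Finset.sum_congr rfl fun w _ => ?_
    rw [InfinitePlace.mult, if_neg (c2_not_isReal F w)]
  rw [h3, Finset.sum_const, Finset.card_univ, smul_eq_mul] at h2
  rw [NumberField.Units.rank]
  omega

section
variable {D : Eis} {F : Type} [Field F] [NumberField F] [Algebra KK F] {r : F} {τ : F ≃ₐ[KK] F}

theorem exists_fund (F : Type) [Field F] [NumberField F] [Algebra KK F] (h : Module.finrank KK F = 2) :
    ∃ ε : (𝓞 F)ˣ, ∀ u : (𝓞 F)ˣ, ∃ (ζ : (𝓞 F)ˣ) (n : ℤ) (m : ℕ), 0 < m ∧ ζ ^ m = 1 ∧ u = ζ * ε ^ n := by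
  have hr := c2_rank F h
  let i₀ : Fin (NumberField.Units.rank F) := ⟨0, by omega⟩
  refine ⟨NumberField.Units.fundSystem F i₀, fun u => ?_⟩
  obtain ⟨⟨ζ, e⟩, hζ, -⟩ := NumberField.Units.exist_unique_eq_mul_prod F u
  have h1 : IsOfFinOrder (ζ : (𝓞 F)ˣ) := by
    have h2 : (ζ : (𝓞 F)ˣ) ∈ CommGroup.torsion (𝓞 F)ˣ := ζ.2
    rwa [CommGroup.mem_torsion] at h2
  obtain ⟨m, hm, hm1⟩ := isOfFinOrder_iff_pow_eq_one.1 h1
  refine ⟨ζ, e i₀, m, hm, hm1, ?_⟩
  have h2 : ∏ i, NumberField.Units.fundSystem F i ^ e i = NumberField.Units.fundSystem F i₀ ^ e i₀ := by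
    refine Fintype.prod_eq_single i₀ fun i hi => ?_
    exact absurd (Fin.ext (by have := i.2; show (i : ℕ) = 0; omega)) hi
  rw [← h2]
  exact hζ

/-- the quotient by the conjugate -/
noncomputable def c2b_q (τ : F ≃ₐ[KK] F) (x : F) : F := x / τ x

omit [NumberField F] in
theorem c2b_q_mul (x y : F) : c2b_q τ (x * y) = c2b_q τ x * c2b_q τ y := by
  unfold c2b_q
  rw [map_mul, mul_div_mul_comm]

omit [NumberField F] in
theorem c2b_q_pow (x : F) (n : ℕ) : c2b_q τ (x ^ n) = c2b_q τ x ^ n := by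
  unfold c2b_q
  rw [map_pow, div_pow]

omit [NumberField F] in
theorem c2b_q_zpow (x : F) (n : ℤ) : c2b_q τ (x ^ n) = c2b_q τ x ^ n := by
  unfold c2b_q
  rw [map_zpow₀, div_zpow]

theorem c2b_val (u : (𝓞 F)ˣ) (w : HeightOneSpectrum (𝓞 F)) : w.valuation F (c2b_q τ (u : F)) = 1 := by
  obtain ⟨h1, h2⟩ := val_unit (τ := τ) u w
  unfold c2b_q
  rw [map_div₀, h1, h2, div_one]

theorem c2b_one : PL (1 : F) := by
  intro w _
  rw [one_pow, sub_self, map_zero]
  exact zero_le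

theorem c2b_pow {a : F} (ha : PL a) (hau : ∀ w : HeightOneSpectrum (𝓞 F), OvLa w → w.valuation F a = 1)
    (n : ℕ) : PL (a ^ n) := by
  induction n with
  | zero => rw [pow_zero]; exact c2b_one
  | succ n ih => rw [pow_succ]; exact PL_mul ih ha hau

theorem c2b_zpow {a : F} (ha : PL a) (hau : ∀ w : HeightOneSpectrum (𝓞 F), OvLa w → w.valuation F a = 1)
    (n : ℤ) : PL (a ^ n) := by
  cases n with
  | ofNat n =>
    rw [Int.ofNat_eq_natCast, zpow_natCast]
    exact c2b_pow ha hau n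
  | negSucc n =>
    rw [zpow_negSucc]
    apply PL_inv (c2b_pow ha hau _)
    intro w hw
    rw [map_pow, hau w hw, one_pow]

theorem unit_cube (hD : Cl D) (hQ : Quad D r τ) {u v : (𝓞 F)ˣ} (hu : ¬ PL ((u : F) / τ (u : F)))
    (hv : PL ((v : F) / τ (v : F))) :
    ∃ (ζ c : (𝓞 F)ˣ) (m : ℕ), 0 < m ∧ ζ ^ m = 1 ∧ v = ζ * c ^ 3 := by
  have hD0 : D ≠ 0 := hD.1.ne_zero
  obtain ⟨ε, hε⟩ := exists_fund F hQ.fr
  obtain ⟨ζ, n, m, hm, hζ, hvn⟩ := hε v
  by_cases h3 : (3 : ℤ) ∣ n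
  · obtain ⟨l, rfl⟩ := h3
    refine ⟨ζ, ε ^ l, m, hm, hζ, ?_⟩
    rw [hvn, mul_comm 3 l, zpow_mul]
    rfl
  · exfalso
    apply hu
    obtain ⟨ζ', k, m', hm', hζ', huk⟩ := hε u
    obtain ⟨t, ht⟩ : (3 : ℤ) ∣ 1 - n ^ 2 := by
      have h4 : n % 3 = 1 ∨ n % 3 = 2 := by omega
      rcases h4 with h4 | h4
      · obtain ⟨c, hc⟩ : ∃ c, n = 3 * c + 1 := ⟨n / 3, by omega⟩
        exact ⟨-(3 * c ^ 2 + 2 * c), by rw [hc]; ring⟩
      · obtain ⟨c, hc⟩ : ∃ c, n = 3 * c + 2 := ⟨n / 3, by omega⟩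
        exact ⟨-(3 * c ^ 2 + 4 * c + 1), by rw [hc]; ring⟩
    have hk : k = n * (n * k) + (k * t) * 3 := by
      have h5 : k = k * n ^ 2 + k * (1 - n ^ 2) := by ring
      rw [ht] at h5
      linarith [h5]
    have hu2 : u = (ζ' * ζ ^ (-(n * k))) * (v ^ (n * k) * (ε ^ (k * t)) ^ 3) := by
      have h6 : ε ^ k = (ε ^ n) ^ (n * k) * (ε ^ (k * t)) ^ 3 := by
        conv_lhs => rw [hk]
        rw [zpow_add, zpow_mul, zpow_mul ε (k * t) 3]
        rfl
      have h7 : v ^ (n * k) = ζ ^ (n * k) * (ε ^ n) ^ (n * k) := by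
        rw [hvn, mul_zpow]
      rw [huk, h6, h7, zpow_neg]
      group
    set z : (𝓞 F)ˣ := ζ' * ζ ^ (-(n * k)) with hz
    have hzm : z ^ (m * m') = 1 := by
      rw [hz, mul_pow, mul_comm m m', pow_mul, hζ', one_pow, one_mul, mul_comm m' m, pow_mul]
      have h8 : (ζ ^ (-(n * k))) ^ m = 1 := by
        rw [← zpow_natCast, ← zpow_mul, mul_comm, zpow_mul, zpow_natCast, hζ, one_zpow]
      rw [h8, one_pow]
    have hzF : (z : F) ^ (m * m') = 1 := by
      have h9 := congrArg (fun x : (𝓞 F)ˣ => ((x : 𝓞 F) : F)) hzm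
      simpa using h9
    obtain ⟨m0, hm0, hm3, hz0⟩ := tors hD0 hQ (Nat.mul_pos hm hm') hzF
    have hPz : PL (c2b_q τ (z : F)) := PL_tors hD hQ hm0 hm3 hz0
    have hPv : PL (c2b_q τ (v : F) ^ (n * k)) := c2b_zpow hv (fun w _ => c2b_val v w) _
    have hPe : PL (c2b_q τ ((ε ^ (k * t) : (𝓞 F)ˣ) : F) ^ 3) :=
      PL_cube hD hQ (fun w _ => c2b_val _ w)
    have huF : (u : F) = (z : F) * ((v : F) ^ (n * k) * ((ε ^ (k * t) : (𝓞 F)ˣ) : F) ^ 3) := by
      have h10 := congrArg (fun x : (𝓞 F)ˣ => ((x : 𝓞 F) : F)) hu2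
      have h11 : ((v ^ (n * k) : (𝓞 F)ˣ) : F) = (v : F) ^ (n * k) := by
        have h12 := map_zpow (Units.map (algebraMap (𝓞 F) F : 𝓞 F →* F)) v (n * k)
        have h13 := congrArg Units.val h12
        rw [Units.val_zpow_eq_zpow_val] at h13
        exact h13
      rw [← h11]
      have h14 : ∀ a b c : (𝓞 F)ˣ, ((a * (b * c ^ 3) : (𝓞 F)ˣ) : F) =
          (a : F) * ((b : F) * (c : F) ^ 3) := by
        intro a b c
        rw [Units.val_mul, Units.val_mul, Units.val_pow_eq_pow_val, map_mul, map_mul, map_pow]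
      exact h10.trans (h14 _ _ _)
    have hq : (u : F) / τ (u : F) = c2b_q τ (z : F) *
        (c2b_q τ (v : F) ^ (n * k) * c2b_q τ ((ε ^ (k * t) : (𝓞 F)ˣ) : F) ^ 3) := by
      rw [← c2b_q_zpow, ← c2b_q_pow, ← c2b_q_mul, ← c2b_q_mul, ← huF]
      rfl
    rw [hq]
    apply PL_mul hPz (PL_mul hPv hPe _)
    · intro w _
      rw [map_mul, map_zpow₀, map_pow, c2b_val, c2b_val, one_zpow, one_pow, one_mul]
    · intro w _
      rw [map_pow, c2b_val, one_pow]

end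

end JD
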