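import Pool.Agent.JZ.Defs
import Pool.Agent.CU.S1
import Pool.Agent.CU.C9b
import Pool.Agent.CU.C10c
import Pool.Agent.CU.C11
import Pool.Agent.MP_9ab903_nt.SB.CO
import Pool.Agent.MP_9ab903_nt.NT.V1
import Pool.Agent.MP_9ab903_nt.FinalDefs3

/-!
# [JD] descent by `λ = 1 - ω` on `y² = x³ + D` over `K = ℚ(ω)`: definitions

The mathematics is in `JZ_D.md` (team-store). `F = K(√D)` is an abstract number field with an algebra structure over `KK`, `r² = D`, `τ` the conjugation
(`Quad D r τ`). `jF F : ℤ[ω] →+* F`.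
-/

set_option autoImplicit false

open NumberField IsDedekindDomain
open scoped Classical

namespace JD

open CM27 CF JZ
open CU (la om eE)

/-- `ℤ[ω] → ℚ(ω)` -/
noncomputable def jK : Eis →+* KK := (algebraMap (𝓞 KK) KK).comp (eE : Eis →+* 𝓞 KK)

/-- `ℤ[ω] → F` -/
noncomputable def jF (F : Type) [Field F] [Algebra KK F] : Eis →+* F := (algebraMap KK F).comp jK

/-- `F = ℚ(ω)(√D)`, `r² = D`, `τ` the conjugation. -/
structure Quad (D : Eis) {F : Type} [Field F] [NumberField F] [Algebra KK F] (r : F)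
    (τ : F ≃ₐ[KK] F) : Prop where
  fr : Module.finrank KK F = 2
  sq : r ^ 2 = jF F D
  tau : τ r = -r

/-- `w` lies over `λ` -/
def OvLa {F : Type} [Field F] [NumberField F] [Algebra KK F] (w : HeightOneSpectrum (𝓞 F)) : Prop :=
  w.valuation F (jF F la) < 1

/-- The elements `a` with `a ā = 1` whose divisor is a cube, and `a ≡ 1 mod λ²` at all places over `λ`. -/
def Lam {F : Type} [Field F] [NumberField F] [Algebra KK F] (τ : F ≃ₐ[KK] F) (a : F) : Prop :=
  a * τ a = 1 ∧
  (∀ w : HeightOneSpectrum (𝓞 F), ∃ g : WithZero (Multiplicative ℤ), w.valuation F a = g ^ 3) ∧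
  ∀ w : HeightOneSpectrum (𝓞 F), OvLa w → w.valuation F (a - 1) ≤ w.valuation F (jF F la) ^ 2

/-- All elements of `Lam` are cubes. -/
def NoBad {F : Type} [Field F] [NumberField F] [Algebra KK F] (τ : F ≃ₐ[KK] F) : Prop :=
  ∀ a : F, Lam τ a → ∃ c : F, c ^ 3 = a

/-- The curve `y² = x³ + D`. -/
def ED {R : Type*} [CommRing R] (D : R) : WeierstrassCurve R := ⟨0, 0, 0, 0, D⟩

theorem jF_apply (F : Type) [Field F] [Algebra KK F] (a : Eis) : jF F a = algebraMap KK F (jK a) := rfl

theorem jK_apply (a : Eis) : jK a = ((eE a : 𝓞 KK) : KK) := rfl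

theorem jK_inj : Function.Injective jK := by
  intro a b h
  apply eE.injective
  exact RingOfIntegers.ext h

theorem jF_inj (F : Type) [Field F] [Algebra KK F] : Function.Injective (jF F) :=
  (algebraMap KK F).injective.comp jK_inj

theorem ED_map {R S : Type*} [CommRing R] [CommRing S] (f : R →+* S) (D : R) : (ED D).map f = ED (f D) := by
  ext <;> simp [ED]

theorem ED_Δ {R : Type*} [CommRing R] (D : R) : (ED D).Δ = -432 * D ^ 2 := by
  simp only [ED, WeierstrassCurve.Δ, WeierstrassCurve.b₂, WeierstrassCurve.b₄, WeierstrassCurve.b₆, WeierstrassCurve.b₈]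
  ring

theorem ED_c₄ {R : Type*} [CommRing R] (D : R) : (ED D).c₄ = 0 := by
  simp only [ED, WeierstrassCurve.c₄, WeierstrassCurve.b₂, WeierstrassCurve.b₄]
  ring

theorem ED_equation {R : Type*} [CommRing R] (D x y : R) :
    (ED D).toAffine.Equation x y ↔ y ^ 2 = x ^ 3 + D := by
  rw [WeierstrassCurve.Affine.equation_iff]
  simp [ED]

theorem ED_nonsingular {k : Type*} [Field k] (h2 : (2 : k) ≠ 0) (h3 : (3 : k) ≠ 0) {D : k} (hD : D ≠ 0) (x y : k) :
    (ED D).toAffine.Nonsingular x y ↔ y ^ 2 = x ^ 3 + D := by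
  have hΔ : (ED D).toAffine.Δ ≠ 0 := by
    have h1 : (ED D).Δ = -432 * D ^ 2 := ED_Δ D
    rw [h1]
    have h : (-432 : k) = -(2 ^ 4 * 3 ^ 3) := by norm_num
    rw [h]
    exact mul_ne_zero (neg_ne_zero.2 (mul_ne_zero (pow_ne_zero _ h2) (pow_ne_zero _ h3))) (pow_ne_zero _ hD)
  rw [← WeierstrassCurve.Affine.equation_iff_nonsingular_of_Δ_ne_zero hΔ, ED_equation]

end JD
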