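import Pool.Agent.JD.S3
import Pool.Agent.JD.S4
import Pool.Agent.CU.T5

/-!
# [JD-S5] the places of `ℚ(ω)`: minimality, Tamagawa numbers and Néron factors of `E_D`

`lo v : Eis →+* v.adicCompletionIntegers KK` is `CU.t5b_lo v` (CU/T5b.lean; useful: `CU.t5b_unit`, `t5b_irr`, `t5b_irr'`, `t5b_dvd`, `t5b_sq_dvd`, `t5b_res`, `t5b_three`, `t5b_eps`). `D = 2^k c`, `D = b c` with `c` prime to the prime because `D` is squarefree.

PROOF. `place_cases`: `CU.gen_cases`: `v = (la)` or `v = (b)`, `b` a primary prime.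
 (i) `b ∤ 2 D`: `6 D` is a unit (`b ∤ 3`: `CU.primary_not_three`; `CU.t5b_unit`). (ii) `b ∣ 2`: `2` is a prime of `Eis` (`norm 4`; every divisor has norm 1, 2, 4 and 2 is not a norm), so `b` and `2` are associated, `v = (2)` (`CU.s1_span`); `lo v 2 = 2` (`map_ofNat`) is irreducible (`CU.t5b_irr'`); `3` is a unit;
 `D = 2^k c`, `2 ∤ c`. `hsq`: let `x ∈ A`, `4 ∣ lo v D - x²`. There is `m : Eis` with `4 ∣ x - lo v m` in `A` (the integers are dense: `v.adicCompletionIntegers` modulo powers of the maximal ideal; e.g. twice the surjectivity of `𝓞 KK → A / maximal ideal` (`CMT.residue_completion` / `CM27.residue_completion`,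
 as used in CU/S5.lean): `x = lo m₁ + 2 x₁`, `x₁ = lo m₂ + 2 x₂`, `m = m₁ + 2 m₂`), so `4 ∣ lo v (D - m²)` in `A`, hence `4 ∣ D - m²` in `Eis` (`CU.t5b_sq_dvd` with `b = 2`): contradiction to `CondTwo`.
 (iii) `b ∣ D`, `b ∤ 2`: `D = b c`, `b ∤ c`.
`min_all`: in the four cases `unit_la`, `unit_good`, `unit_two`, `unit_p` (S2); at `(la)`: `lo v D` is a unit (`la ∤ D` by `CondLa`, `la ∣ 3`), `CU.t5b_three`, `CU.t5b_eps`. `tam_la`: `tamagawa_la` (S4): `η` of `CondLa`, `la² ∣ 3 ∣ D - η`; `¬ la³ ∣ ..`: if `lo la ^ 3 ∣ lo (D - η - la²)` in `A`; then `la ^ 3 ∣ ..` in `Eis` (as `CU.t5b_sq_dvd`, or by valuations: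
`HeightOneSpectrum.intValuation_le_pow_iff_mem`); `6 ≠ 0`.
`finprod_tam`: `finprod_eq_single` at the place `(la)` (`CU.pl la CU.la_prime`, see CU/T5.lean). `finprod_neron`: `PI.neron_of` (see `CU.neron_one`).
`bc`: `WeierstrassCurve.baseChange`, `ED_map` (see `CU.t5b_bc'`).
-/

set_option autoImplicit false

open Polynomial NumberField IsDedekindDomain
open scoped Classical ComplexConjugate

namespace JD

open CM27 CF JZ
open CU (la om eE t5b_lo)

section
variable {D : Eis} (v : HeightOneSpectrum (𝓞 KK))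

theorem bc (D : Eis) : (ED (jK D)).baseChange (v.adicCompletion KK) =
    ED (algebraMap (v.adicCompletionIntegers KK) (v.adicCompletion KK) (t5b_lo v D)) := by
  rw [WeierstrassCurve.baseChange, ED_map]
  rfl

omit D in
/-- reduction modulo `2` is surjective on the Eisenstein integers -/
theorem s5a_approx (hv : v.asIdeal = Ideal.span {eE (2 : Eis)}) (x : v.adicCompletionIntegers KK) :
    ∃ (m : Eis) (y : v.adicCompletionIntegers KK), x = t5b_lo v m + 2 * y := by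
  have hirr : Irreducible (t5b_lo v 2) := CU.t5b_irr' TH.b4_two_prime hv
  obtain ⟨m, hm⟩ := (CMT.residue_completion KK v).1 (IsLocalRing.residue (v.adicCompletionIntegers KK) x)
  have h1 : IsLocalRing.residue (v.adicCompletionIntegers KK) (x - t5b_lo v (eE.symm m)) = 0 := by
    have h2 : t5b_lo v (eE.symm m) = algebraMap (𝓞 KK) (v.adicCompletionIntegers KK) m := by
      show algebraMap (𝓞 KK) (v.adicCompletionIntegers KK) (eE (eE.symm m)) = _
      rw [eE.apply_symm_apply]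
    rw [map_sub, h2, ← hm, RingHom.comp_apply, sub_self]
  rw [IsLocalRing.residue_eq_zero_iff,
    (IsDiscreteValuationRing.irreducible_iff_uniformizer _).1 hirr, Ideal.mem_span_singleton] at h1
  obtain ⟨y, hy⟩ := h1
  refine ⟨eE.symm m, y, ?_⟩
  rw [map_ofNat] at hy
  linear_combination hy

omit D in
/-- a square modulo `4` in the completion is a square modulo `4` -/
theorem s5a_sq (hv : v.asIdeal = Ideal.span {eE (2 : Eis)}) {D : Eis} (h2 : CondTwo D)
    (x : v.adicCompletionIntegers KK) : ¬ 4 ∣ t5b_lo v D - x ^ 2 := by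
  rintro ⟨c, hc⟩
  obtain ⟨m₁, x₁, h1⟩ := s5a_approx v hv x
  obtain ⟨m₂, x₂, h3⟩ := s5a_approx v hv x₁
  have h4 : ¬ (2 : Eis) ^ 2 ∣ D - (m₁ + 2 * m₂) ^ 2 := by
    have h5 : (2 : Eis) ^ 2 = 4 := by norm_num
    rw [h5]
    exact h2 _
  apply CU.t5b_sq_dvd TH.b4_two_prime hv _ h4
  refine ⟨c + 2 * (t5b_lo v m₁ + 2 * t5b_lo v m₂) * x₂ + 4 * x₂ ^ 2, ?_⟩
  rw [map_sub, map_pow, map_add, map_mul, map_ofNat]
  have h6 : x = t5b_lo v m₁ + 2 * t5b_lo v m₂ + 4 * x₂ := by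
    rw [h1, h3]
    ring
  rw [h6] at hc
  linear_combination hc

theorem place_cases (hD : Cl D) : v.asIdeal = Ideal.span {eE la} ∨
    (∃ b : Eis, Prime b ∧ Primary b ∧ v.asIdeal = Ideal.span {eE b} ∧ ¬ b ∣ 2 * D ∧ IsUnit (6 * t5b_lo v D)) ∨
    (eE 2 ∈ v.asIdeal ∧ IsUnit (3 : v.adicCompletionIntegers KK) ∧ Irreducible (2 : v.adicCompletionIntegers KK) ∧
      ∃ (k : ℕ) (D' : v.adicCompletionIntegers KK), (k = 0 ∨ k = 1) ∧ IsUnit D' ∧ t5b_lo v D = 2 ^ k * D' ∧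
        ∀ x : v.adicCompletionIntegers KK, ¬ 4 ∣ t5b_lo v D - x ^ 2) ∨
    (eE D ∈ v.asIdeal ∧ IsUnit (6 : v.adicCompletionIntegers KK) ∧
      ∃ l D' : v.adicCompletionIntegers KK, Irreducible l ∧ IsUnit D' ∧ t5b_lo v D = l * D') := by
  have hdom : IsDomain Eis := eis_isDomain
  obtain ⟨hsf, -, h2⟩ := hD
  rcases CU.gen_cases (v := v) with hv | ⟨b, hb, hp, hv⟩
  · exact Or.inl hv
  right
  have hb3 : ¬ b ∣ 3 := CU.primary_not_three hp hb
  have u3 : IsUnit (3 : v.adicCompletionIntegers KK) := by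
    have h1 := CU.t5b_unit hv 3 hb3
    rwa [map_ofNat] at h1
  by_cases h2D : b ∣ 2 * D
  swap
  · left
    refine ⟨b, hb, hp, hv, h2D, ?_⟩
    have h1 := CU.t5b_unit hv (6 * D) (by
      intro h3
      have h4 : 6 * D = 3 * (2 * D) := by ring
      rw [h4] at h3
      exact (hb.dvd_or_dvd h3).elim hb3 h2D)
    rwa [map_mul, map_ofNat] at h1
  right
  by_cases hb2 : b ∣ 2
  · left
    have hass : Associated b 2 := hb.irreducible.associated_of_dvd TH.b4_two_prime.irreducible hb2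
    have hv2 : v.asIdeal = Ideal.span {eE (2 : Eis)} := by
      rw [hv]
      exact CU.s1_span hass
    refine ⟨(CU.mem_iff hv 2).2 hb2, u3, ?_, ?_⟩
    · have h1 := CU.t5b_irr' TH.b4_two_prime hv2
      rwa [map_ofNat] at h1
    · by_cases h2d : (2 : Eis) ∣ D
      · obtain ⟨c, hc⟩ := h2d
        have hc2 : ¬ (2 : Eis) ∣ c := by
          rintro ⟨c', hc'⟩
          exact TH.b4_two_prime.not_isUnit (hsf 2 ⟨c', by rw [hc, hc']; ring⟩)
        refine ⟨1, t5b_lo v c, Or.inr rfl, CU.t5b_unit hv2 c hc2, ?_, s5a_sq v hv2 h2⟩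
        rw [hc, map_mul, map_ofNat, pow_one]
      · exact ⟨0, t5b_lo v D, Or.inl rfl, CU.t5b_unit hv2 D h2d, by rw [pow_zero, one_mul], s5a_sq v hv2 h2⟩
  · right
    have hbD : b ∣ D := (hb.dvd_or_dvd h2D).resolve_left hb2
    refine ⟨(CU.mem_iff hv D).2 hbD, ?_, ?_⟩
    · have h1 := CU.t5b_unit hv 6 (by
        intro h3
        have h4 : (6 : Eis) = 2 * 3 := by norm_num
        rw [h4] at h3
        exact (hb.dvd_or_dvd h3).elim hb2 hb3)
      rwa [map_ofNat] at h1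
    · obtain ⟨c, hc⟩ := hbD
      refine ⟨t5b_lo v b, t5b_lo v c, CU.t5b_irr' hb hv, CU.t5b_unit hv c ?_, by rw [hc, map_mul]⟩
      rintro ⟨c', hc'⟩
      exact hb.not_isUnit (hsf b ⟨c', by rw [hc, hc']; ring⟩)

theorem s5b_not_la {D : Eis} (hD : Cl D) : ¬ la ∣ D := by
  intro h
  obtain ⟨η, hη, h3, -⟩ := hD.2.1
  have h4 : la ∣ (3 : Eis) := by
    rw [CU.three_eq]
    exact (dvd_pow_self la two_ne_zero).mul_left _
  have h5 : la ∣ η := by
    have h6 := dvd_sub h (h4.trans h3)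
    rwa [sub_sub_cancel] at h6
  rcases hη with rfl | rfl
  · exact CU.la_prime.not_isUnit (isUnit_of_dvd_one h5)
  · exact CU.la_prime.not_isUnit (isUnit_of_dvd_one ((dvd_neg).1 h5))

theorem s5b_six_ne : (6 : v.adicCompletion KK) ≠ 0 := by
  have h1 : algebraMap KK (v.adicCompletion KK) 6 = 6 := map_ofNat _ 6
  rw [← h1]
  intro h2
  rw [map_eq_zero] at h2
  norm_num at h2

theorem min_all (hD : Cl D) (T : WeierstrassCurve.VariableChange (v.adicCompletion KK))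
    (hT : (T • (ED (t5b_lo v D)).map (algebraMap (v.adicCompletionIntegers KK) (v.adicCompletion KK))).IsMinimal
      (v.adicCompletionIntegers KK)) :
    (IsDiscreteValuationRing.maximalIdeal (v.adicCompletionIntegers KK)).valuation (v.adicCompletion KK)
      (T.u : v.adicCompletion KK) = 1 := by
  rcases place_cases v hD with hv | ⟨b, -, -, -, -, hu⟩ | ⟨-, h3, h2, k, D', hk, hD', hlo, -⟩ |
    ⟨-, h6, l, D', hl, hD', hlo⟩
  · exact unit_la _ _ (CU.t5b_irr' CU.la_prime hv) (CU.t5b_eps v) (CU.t5b_three v) _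
      (CU.t5b_unit hv _ (s5b_not_la hD)) T hT
  · exact unit_good _ hu T hT
  · rw [hlo] at hT
    exact unit_two h3 h2 D' hD' k hk T hT
  · rw [hlo] at hT
    exact unit_p h6 l D' hl hD' T hT

theorem tam_one (hD : Cl D) (hv : v.asIdeal ≠ Ideal.span {eE la}) : SBSD.tam (ED (jK D)) v = 1 := by
  unfold SBSD.tam
  rw [bc]
  rcases place_cases v hD with hv' | ⟨b, -, -, -, -, hu⟩ | ⟨-, h3, h2, k, D', hk, hD', hlo, hsq⟩ |
    ⟨-, h6, l, D', hl, hD', hlo⟩
  · exact absurd hv' hv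
  · exact tamagawa_good _ _ _ hu
  · rw [hlo] at hsq ⊢
    exact tamagawa_two _ _ h3 h2 D' hD' k hk hsq
  · rw [hlo]
    exact tamagawa_p _ _ h6 l D' hl hD'

theorem tam_la (hD : Cl D) (hv : v.asIdeal = Ideal.span {eE la}) :
    SBSD.tam (ED (jK D)) v ≠ 0 ∧ ¬ 3 ∣ SBSD.tam (ED (jK D)) v := by
  obtain ⟨η, hη, h3, hn⟩ := hD.2.1
  have h4 : la ^ 2 ∣ D - η := by
    refine dvd_trans ?_ h3
    rw [CU.three_eq]
    exact dvd_mul_left _ _
  unfold SBSD.tam
  rw [bc]
  refine tamagawa_la (v.adicCompletion KK) (l := t5b_lo v la) (ε := t5b_lo v (-om ^ 2)) (η := t5b_lo v η)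
    (CU.t5b_irr' CU.la_prime hv) (CU.t5b_eps v) (CU.t5b_three v) (CU.t5b_res hv) ?_ ?_ ?_ (s5b_six_ne v)
  · rcases hη with rfl | rfl
    · left; rw [map_one]
    · right; rw [map_neg, map_one]
  · rw [← map_pow, ← map_sub]
    exact map_dvd _ h4
  · obtain ⟨y, hy⟩ := h4
    have hy1 : D - η - la ^ 2 = la ^ 2 * (y - 1) := by rw [hy]; ring
    have hny : ¬ la ∣ y - 1 := by
      rintro ⟨z, hz⟩
      apply hn
      rw [hy1, hz]
      exact ⟨z, by ring⟩
    intro h5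
    have h6 : t5b_lo v D - t5b_lo v η - t5b_lo v la ^ 2 = t5b_lo v la ^ 2 * t5b_lo v (y - 1) := by
      rw [← map_pow, ← map_sub, ← map_sub, ← map_mul, hy1]
    rw [h6] at h5
    obtain ⟨z, hz⟩ := h5
    apply CU.t5b_dvd CU.la_prime hv (y - 1) hny
    have hl0 : t5b_lo v la ≠ 0 := (CU.t5b_irr' CU.la_prime hv).ne_zero
    refine ⟨z, mul_left_cancel₀ (pow_ne_zero 2 hl0) ?_⟩
    rw [hz]
    ring

end

theorem finprod_tam {D : Eis} (hD : Cl D) : ∃ c : ℕ, c ≠ 0 ∧ ¬ 3 ∣ c ∧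
    ∏ᶠ v : HeightOneSpectrum (𝓞 KK), SBSD.tam (ED (jK D)) v = c := by
  have hP : (CU.pl la CU.la_prime).asIdeal = Ideal.span {eE la} := rfl
  obtain ⟨h1, h2⟩ := tam_la (CU.pl la CU.la_prime) hD hP
  refine ⟨SBSD.tam (ED (jK D)) (CU.pl la CU.la_prime), h1, h2, ?_⟩
  refine finprod_eq_single _ _ fun v hv => tam_one v hD fun hv' => hv ?_
  apply HeightOneSpectrum.ext
  rw [hv', hP]

theorem finprod_neron {D : Eis} (hD : Cl D) : ∏ᶠ v : HeightOneSpectrum (𝓞 KK), SBSD.neron (ED (jK D)) v = 1 := by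
  refine finprod_eq_one_of_forall_eq_one fun v => ?_
  refine PI.neron_of KK v (ED (jK D)) fun T hT => ?_
  have h1 : (ED (jK D)).baseChange (v.adicCompletion KK) =
      (ED (t5b_lo v D)).map (algebraMap (v.adicCompletionIntegers KK) (v.adicCompletion KK)) := by
    rw [ED_map]
    exact bc v D
  rw [h1] at hT
  exact min_all v hD T hT

end JD
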