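import Pool.Agent.JD.E1
import Pool.Agent.JD.S5

/-!
# [JD-E2] elements of norm `1` are cubes at the places over `2 D` and at the inert places outside `3`

`C = v.adicCompletion KK`, `V = Valued.v`; `d` = the image of `jK D`; `u, y ∈ C` with `u² - y² d = 1` (the element `u + y √D`).

PROOF. `Sol3` is the conclusion of `cheb` (E1).
`sol_ram` [E2a]: `2` a unit at `v`, `V d = exp (-1)` (`v ∣ D`), residue characteristic not 3: `V u ≤ 1`: otherwise `V (y² d) = V (u² - 1) = V u ^ 2`, but `V (y² d)` has odd exponent. Then `V (y² d) ≤ 1`, odd exponent, so `< 1`: `V (u² - 1) < 1`, `V (u - e) < 1` with `e = ± 1`. `4 X³ - 3 X - u`, divided by `4`: `hensel3` with `x₀ = e`: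
`f(e) = e - u` (up to the unit 4), `f'(e) = 12 - 3 = 9`. Root `a ≡ e`, `4 a² - 1 ≡ 3` is a unit, `b = y / (4 a² - 1)`.
`sol_two` [E2b]: `v` over `2`: `3` is a unit, `V 2 = exp (-1)`, `V d = 1` or `exp (-1)`, and `d` is not a square modulo 4 (`hsq`). `V u ≤ 1`: otherwise `V (y² d) = V (u² - 1) = V u ^ 2`; if `V d = exp (-1)`: impossible (parity); if `V d = 1`: `V y = V u ≥ exp 1` and
`d - (u/y)² = -(y⁻²)`, `V (..) ≤ exp (-2)`: contradiction to `hsq`. Now `z = 2 a`: `z³ - 3 z - 2 u = 0` is monic with the approximate root `0` (`f(0) = -2 u`, `f'(0) = -3` a unit): `hensel3` gives a root `z` with `V z < 1`, so `V z ≤ exp (-1) = V 2`; `a = z / 2`: `4 a³ - 3 a = (z³ - 3 z)/2 = u`,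
`4 a² - 1 = z² - 1` has `V = 1`; `b = y / (4 a² - 1)`.
`sol_inert` [E2c]: `6 d` a unit at `v` (`V 2 = V 3 = V d = 1`), `d` not a square modulo `v`: `V u ≤ 1`: otherwise `V y = V u > 1` and `d ≡ (u/y)²` modulo `v` (`V (d - (u/y)²) = V (y⁻²) < 1`): contradiction. `V y ≤ 1`. In the residue field `k` (finite, `q` elements, `q ≡ 1 mod 3` because it contains a primitive cube root of unity and `3 ≠ 0`): `inert_res`
gives `a₀, b₀ ∈ k` with `4 a₀³ - 3 a₀ = ū`, `4 a₀² - 1 ≠ 0`; lift `a₀`, `hensel3` (polynomial divided by `4`; `f'(a₀) = 3 (4 a₀² - 1)/4`).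
`inert_res` [E2d]: `k` finite, `2 ≠ 0`, `q ≡ 1 mod 3`, `d` not a square in `k`, `u² - y² d = 1`. `K₂ = AdjoinRoot (X² - C d)` is a field (irreducible: `d` is not a square), `r` the root. `r^q = -r` (`r^(q-1) = d^((q-1)/2) = -1`: Euler, `FiniteField.isSquare_iff`/`ZMod`-free version), `(u + y r)^q = u - y r` (Frobenius is additive, `u^q = u`), so `α^(q+1) = 1` for `α = u + y r`.
`3 ∤ q + 1`, so `α = g³` with `g = α^e` a power of `α` (`3 e ≡ 1 mod q + 1`), `g = a + b r` (basis), `g^(q+1) = 1`: `a² - b² d = 1`. Then `a³ + 3 a b² d = u`, `b² d = a² - 1`: `4 a³ - 3 a = u`; and `4 a² - 1 ≠ 0`: otherwise `4 b² d = 4 a² - 4 = -3`, and `-3 = (1 + 2 o)²` for the primitive cube root of unity `o ∈ k` (`q ≡ 1 mod 3`), `b ≠ 0`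
(`3 ≠ 0`: `q ≡ 1 mod 3`), so `d = ((1 + 2 o)/(2 b))²` is a square: contradiction.
-/

set_option autoImplicit false

open NumberField IsDedekindDomain
open scoped Classical

namespace JD

open CM27 CF JZ
open CU (la om eE)

/-- for `u² - y² d = 1`: `u + y √d` is the cube of `a + b √d`, `a² - b² d = 1` (`cheb`) -/
def Sol3 {C : Type} [Field C] (u y : C) : Prop :=
  ∃ a b : C, 4 * a ^ 3 - 3 * a = u ∧ b * (4 * a ^ 2 - 1) = y ∧ 4 * a ^ 2 - 1 ≠ 0

theorem e2d_cube {k : Type} [Field k] {d : k} (z : QuadraticAlgebra k d 0) :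
    (z ^ 3).re = z.re ^ 3 + 3 * z.re * z.im ^ 2 * d ∧
      (z ^ 3).im = 3 * z.re ^ 2 * z.im + z.im ^ 3 * d := by
  rw [pow_succ, pow_succ, pow_one]
  constructor
  · simp only [QuadraticAlgebra.im_mul, QuadraticAlgebra.re_mul]
    ring
  · simp only [QuadraticAlgebra.im_mul, QuadraticAlgebra.re_mul]
    ring

theorem e2d_omega {k : Type} [Field k] [Finite k] (hq : Nat.card k % 3 = 1) :
    ∃ o : k, o ^ 2 + o + 1 = 0 ∧ (3 : k) ≠ 0 := by
  have : Fintype k := Fintype.ofFinite k
  have hcard : Nat.card kˣ = Nat.card k - 1 := Nat.card_units k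
  have h3 : 3 ∣ Nat.card kˣ := by
    rw [hcard]
    omega
  have : Fact (Nat.Prime 3) := ⟨Nat.prime_three⟩
  obtain ⟨w, hw⟩ := exists_prime_orderOf_dvd_card' 3 h3
  have hw3 : (w : k) ^ 3 = 1 := by
    have h1 := pow_orderOf_eq_one w
    rw [hw] at h1
    have h2 := congrArg (Units.val) h1
    simpa using h2
  have hw1 : (w : k) ≠ 1 := by
    intro h1
    have h2 : w = 1 := Units.ext h1
    rw [h2, orderOf_one] at hw
    norm_num at hw
  refine ⟨w, ?_, ?_⟩
  · have h4 : ((w : k) - 1) * ((w : k) ^ 2 + w + 1) = 0 := by linear_combination hw3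
    rcases mul_eq_zero.mp h4 with h5 | h5
    · exact absurd (sub_eq_zero.mp h5) hw1
    · exact h5
  · intro h3
    apply hw1
    have h4 : ((w : k) - 1) ^ 3 = 0 := by
      linear_combination hw3 - (w : k) ^ 2 * h3 + (w : k) * h3
    exact sub_eq_zero.mp (by
      by_contra h5
      exact pow_ne_zero 3 h5 h4)

theorem e2d_ne {k : Type} [Field k] (h2 : (2 : k) ≠ 0) {d o a b : k} (ho : o ^ 2 + o + 1 = 0)
    (h3 : (3 : k) ≠ 0) (hd : ¬ IsSquare d) (h : a ^ 2 - b ^ 2 * d = 1) : 4 * a ^ 2 - 1 ≠ 0 := by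
  intro h4
  have hb : b ≠ 0 := by
    rintro rfl
    apply h3
    linear_combination h4 - 4 * h
  apply hd
  refine ⟨(1 + 2 * o) / (2 * b), ?_⟩
  have hb2 : (2 * b) ≠ 0 := mul_ne_zero h2 hb
  field_simp
  linear_combination (-4 : k) * h + h4 - 4 * ho

/-- [E2d] -/
theorem inert_res {k : Type} [Field k] [Finite k] (h2 : (2 : k) ≠ 0) (hq : Nat.card k % 3 = 1) {d u y : k}
    (hd : ¬ IsSquare d) (h : u ^ 2 - y ^ 2 * d = 1) : ∃ a : k, 4 * a ^ 3 - 3 * a = u ∧ 4 * a ^ 2 - 1 ≠ 0 := by
  obtain ⟨o, ho, h3⟩ := e2d_omega hq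
  let Q := QuadraticAlgebra k d 0
  have hQf : Finite Q := Finite.of_equiv _ (QuadraticAlgebra.equivProd d 0).symm
  have hmem : ∀ z : Q, z ∈ unitary Q ↔ z.re ^ 2 - z.im ^ 2 * d = 1 := by
    intro z
    rw [← QuadraticAlgebra.norm_eq_one_iff_mem_unitary, QuadraticAlgebra.norm_def]
    constructor
    · intro h1
      linear_combination h1
    · intro h1
      linear_combination h1
  have hinj : Function.Injective (fun z : unitary Q => z ^ 3) := by
    intro z w hzw
    have hzw' : z ^ 3 = w ^ 3 := hzw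
    have h5 : (z * w⁻¹) ^ 3 = 1 := by
      rw [mul_pow, inv_pow, hzw', mul_inv_cancel]
    have h6 : z * w⁻¹ = 1 := by
      generalize z * w⁻¹ = x at h5
      have h7 := (hmem x).mp x.2
      have h8 : (x : Q) ^ 3 = 1 := by
        have := congrArg Subtype.val h5
        simpa using this
      have h9 : 4 * (x : Q).im * (x : Q).re ^ 2 - (x : Q).im = 0 := by
        have h1 := (e2d_cube (x : Q)).2
        rw [h8] at h1
        have h2 : (1 : Q).im = 0 := rfl
        rw [h2] at h1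
        linear_combination - h1 + (x : Q).im * h7
      have h10 : 4 * (x : Q).re ^ 3 - 3 * (x : Q).re = 1 := by
        have h1 := (e2d_cube (x : Q)).1
        rw [h8] at h1
        have h2 : (1 : Q).re = 1 := rfl
        rw [h2] at h1
        linear_combination - h1 + 3 * (x : Q).re * h7
      have h11 : (x : Q).im = 0 := by
        have h12 : (x : Q).im * (4 * (x : Q).re ^ 2 - 1) = 0 := by linear_combination h9
        rcases mul_eq_zero.mp h12 with h13 | h13
        · exact h13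
        · exact absurd h13 (e2d_ne h2 ho h3 hd h7)
      have h14 : (x : Q).re = 1 := by
        rw [h11] at h7
        linear_combination h10 - 4 * (x : Q).re * h7
      apply Subtype.ext
      ext
      · rw [h14]
        rfl
      · rw [h11]
        rfl
    exact mul_inv_eq_one.mp h6
  have hsurj := Finite.surjective_of_injective hinj
  obtain ⟨z, hz⟩ := hsurj ⟨⟨u, y⟩, (hmem ⟨u, y⟩).mpr h⟩
  have hz' : (z : Q) ^ 3 = ⟨u, y⟩ := by
    have := congrArg Subtype.val hz
    simpa using this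
  have h7 := (hmem z).mp z.2
  refine ⟨(z : Q).re, ?_, e2d_ne h2 ho h3 hd h7⟩
  have h1 := (e2d_cube (z : Q)).1
  rw [hz'] at h1
  linear_combination - h1 + 3 * (z : Q).re * h7

section e2aux
open WithZero
variable {C : Type} [Field C] {w : Valuation C (WithZero (Multiplicative ℤ))} {d u y : C}

theorem e2a_exp {x : C} (hx : w x ≠ 0) : ∃ k : ℤ, w x = exp k := ⟨log (w x), (exp_log hx).symm⟩

theorem e2a_big (h : u ^ 2 - y ^ 2 * d = 1) (hu : 1 < w u) : w y ^ 2 * w d = w u ^ 2 := by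
  have h1 : y ^ 2 * d = u ^ 2 - 1 := by linear_combination (-1 : C) * h
  have h2 : w (1 : C) < w (u ^ 2) := by
    rw [map_one, map_pow]
    exact one_lt_pow' hu (by norm_num)
  rw [← map_pow, ← map_mul, h1, Valuation.map_sub_eq_of_lt_left w h2, map_pow]

/-- parity: for odd `w d` the element `u` is integral -/
theorem e2a_par (hd : w d = exp (-1 : ℤ)) (h : u ^ 2 - y ^ 2 * d = 1) : w u ≤ 1 := by
  by_contra hcon
  have hu := not_le.1 hcon
  have h1 := e2a_big h hu
  have hu0 : w u ≠ 0 := ne_of_gt (lt_trans zero_lt_one hu)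
  have hy0 : w y ≠ 0 := by
    intro h0
    rw [h0, zero_pow (by norm_num), zero_mul] at h1
    exact pow_ne_zero 2 hu0 h1.symm
  obtain ⟨m, hm⟩ := e2a_exp hu0
  obtain ⟨n, hn⟩ := e2a_exp hy0
  rw [hm, hn, hd, ← exp_nsmul, ← exp_nsmul, ← exp_add, exp_inj, nsmul_eq_mul, nsmul_eq_mul] at h1
  push_cast at h1
  omega

theorem e2a_lt (hd : w d = exp (-1 : ℤ)) (h : u ^ 2 - y ^ 2 * d = 1) : w (u ^ 2 - 1) < 1 := by
  have hu := e2a_par hd h
  have h1 : u ^ 2 - 1 = y ^ 2 * d := by linear_combination h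
  have h2 : w (u ^ 2 - 1) ≤ 1 := w.map_sub_le (by rw [map_pow]; exact pow_le_one' hu 2) (map_one w).le
  by_cases hy : w y = 0
  · rw [h1, map_mul, map_pow, hy, zero_pow (by norm_num), zero_mul]
    exact zero_lt_one
  · obtain ⟨n, hn⟩ := e2a_exp hy
    rw [h1, map_mul, map_pow, hn, hd, ← exp_nsmul, ← exp_add, ← exp_zero, exp_le_exp, nsmul_eq_mul] at h2
    rw [h1, map_mul, map_pow, hn, hd, ← exp_nsmul, ← exp_add, ← exp_zero, exp_lt_exp, nsmul_eq_mul]
    push_cast at h2 ⊢
    omega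

/-- `d` is close to a square if `u` is not integral -/
theorem e2b_big (hd : w d = 1) (h : u ^ 2 - y ^ 2 * d = 1) (hu : 1 < w u) : w (d - (u / y) ^ 2) ≤ exp (-2 : ℤ) := by
  have h1 := e2a_big h hu
  rw [hd, mul_one] at h1
  have hu0 : w u ≠ 0 := ne_of_gt (lt_trans zero_lt_one hu)
  have hy0 : w y ≠ 0 := by
    intro h0
    rw [h0, zero_pow (by norm_num)] at h1
    exact pow_ne_zero 2 hu0 h1.symm
  have hy : y ≠ 0 := by
    intro h0
    rw [h0, map_zero] at hy0
    exact hy0 rfl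
  have h2 : d - (u / y) ^ 2 = -(y ^ 2)⁻¹ := by
    field_simp
    linear_combination (-1 : C) * h
  obtain ⟨m, hm⟩ := e2a_exp hu0
  have h3 : w y ^ 2 = w u ^ 2 := h1
  rw [h2, Valuation.map_neg, map_inv₀, map_pow, h3, hm, ← exp_nsmul, ← exp_neg, exp_le_exp, nsmul_eq_mul]
  rw [hm, ← exp_zero, exp_lt_exp] at hu
  push_cast
  omega

end e2aux

theorem e2c_card {k : Type} [Field k] [Finite k] {o : k} (h3 : (3 : k) ≠ 0) (ho : o ^ 2 + o + 1 = 0) :
    Nat.card k % 3 = 1 := by
  have ho0 : o ≠ 0 := by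
    intro h0
    rw [h0] at ho
    norm_num at ho
  have ho1 : o ≠ 1 := by
    intro h0
    rw [h0] at ho
    apply h3
    linear_combination ho
  have ho3 : o ^ 3 = 1 := by linear_combination (o - 1) * ho
  have h4 : orderOf (Units.mk0 o ho0) = 3 := by
    have : Fact (Nat.Prime 3) := ⟨by norm_num⟩
    refine orderOf_eq_prime ?_ ?_
    · ext
      push_cast
      exact ho3
    · intro h5
      exact ho1 (congrArg Units.val h5)
  have h5 : orderOf (Units.mk0 o ho0) ∣ Nat.card kˣ := orderOf_dvd_natCard _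
  rw [h4, Nat.card_units] at h5
  have h6 : 1 < Nat.card k := Finite.one_lt_card
  omega

section
variable (v : HeightOneSpectrum (𝓞 KK)) {d u y : v.adicCompletion KK}

/-- [E2a] -/
theorem sol_ram (h2 : Valued.v (2 : v.adicCompletion KK) = (1 : WithZero (Multiplicative ℤ)))
    (h3 : Valued.v (3 : v.adicCompletion KK) = (1 : WithZero (Multiplicative ℤ)))
    (hd : Valued.v d = WithZero.exp (-1 : ℤ)) (h : u ^ 2 - y ^ 2 * d = 1) : Sol3 u y := by
  have h4 : Valued.v (4 : v.adicCompletion KK) = (1 : WithZero (Multiplicative ℤ)) := by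
    have : (4 : v.adicCompletion KK) = 2 ^ 2 := by norm_num
    rw [this, map_pow, h2, one_pow]
  have h40 : (4 : v.adicCompletion KK) ≠ 0 := by
    intro h0
    rw [h0, map_zero] at h4
    exact zero_ne_one h4
  have h34 : Valued.v (-3 / 4 : v.adicCompletion KK) = (1 : WithZero (Multiplicative ℤ)) := by
    rw [map_div₀, Valuation.map_neg, h3, h4, div_one]
  have hu := e2a_par hd h
  have hu2 := e2a_lt hd h
  obtain ⟨e, he, hue⟩ : ∃ e : v.adicCompletion KK, (e = 1 ∨ e = -1) ∧ Valued.v (u - e) < (1 : WithZero (Multiplicative ℤ)) := by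
    by_contra hcon
    push Not at hcon
    have h5 := hcon 1 (Or.inl rfl)
    have h6 := hcon (-1) (Or.inr rfl)
    have h7 : u ^ 2 - 1 = (u - 1) * (u - -1) := by ring
    rw [h7, map_mul] at hu2
    exact absurd (one_le_mul h5 h6) (not_le.2 hu2)
  have he2 : e ^ 2 = 1 := by rcases he with rfl | rfl <;> norm_num
  have hwe : Valued.v e = (1 : WithZero (Multiplicative ℤ)) := by
    rcases he with rfl | rfl
    · exact map_one _
    · rw [Valuation.map_neg, map_one]
  obtain ⟨a, ha, ha'⟩ := hensel3 v (p := 0) (q := -3 / 4) (t := -u / 4) (x₀ := e)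
    (by rw [map_zero]; exact zero_le) h34.le
    (by rw [map_div₀, Valuation.map_neg, h4, div_one]; exact hu) hwe.le (by
      have h5 : e ^ 3 + 0 * e ^ 2 + -3 / 4 * e + -u / 4 = -(u - e) / 4 := by
        field_simp
        linear_combination (4 * e) * he2
      rw [h5, map_div₀, Valuation.map_neg, h4, div_one]
      exact hue) (by
      have h5 : 3 * e ^ 2 + 2 * 0 * e + -3 / 4 = 3 ^ 2 / 4 := by
        field_simp
        linear_combination (12 : v.adicCompletion KK) * he2
      rw [h5, map_div₀, map_pow, h3, h4, one_pow, div_one])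
  have hwa : Valued.v a = (1 : WithZero (Multiplicative ℤ)) := by
    have h5 : a = (a - e) + e := by ring
    rw [h5, Valuation.map_add_eq_of_lt_right _ (by rw [hwe]; exact ha'), hwe]
  have hb : Valued.v (4 * a ^ 2 - 1) = (1 : WithZero (Multiplicative ℤ)) := by
    have h5 : 4 * a ^ 2 - 1 = 4 * ((a - e) * (a + e)) + 3 := by
      linear_combination (4 : v.adicCompletion KK) * he2
    rw [h5, Valuation.map_add_eq_of_lt_right _ ?_, h3]
    rw [h3, map_mul, map_mul, h4, one_mul]
    refine lt_of_le_of_lt (mul_le_of_le_one_right' ?_) ha'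
    exact Valuation.map_add_le _ hwa.le hwe.le
  have hb0 : 4 * a ^ 2 - 1 ≠ 0 := by
    intro h0
    rw [h0, map_zero] at hb
    exact zero_ne_one hb
  refine ⟨a, y / (4 * a ^ 2 - 1), ?_, ?_, hb0⟩
  · have h5 : 4 * (a ^ 3 + 0 * a ^ 2 + -3 / 4 * a + -u / 4) = 4 * a ^ 3 - 3 * a - u := by
      field_simp
      ring
    rw [ha, mul_zero] at h5
    linear_combination (-1 : v.adicCompletion KK) * h5
  · field_simp

/-- [E2b] -/
theorem sol_two (h2 : Valued.v (2 : v.adicCompletion KK) = WithZero.exp (-1 : ℤ))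
    (h3 : Valued.v (3 : v.adicCompletion KK) = (1 : WithZero (Multiplicative ℤ)))
    (hd : Valued.v d = (1 : WithZero (Multiplicative ℤ)) ∨ Valued.v d = WithZero.exp (-1 : ℤ))
    (hsq : ∀ x : v.adicCompletion KK, ¬ Valued.v (d - x ^ 2) ≤ WithZero.exp (-2 : ℤ))
    (h : u ^ 2 - y ^ 2 * d = 1) : Sol3 u y := by
  have h20 : (2 : v.adicCompletion KK) ≠ 0 := by
    intro h0
    rw [h0, map_zero] at h2
    exact WithZero.exp_ne_zero h2.symm
  have hu : Valued.v u ≤ (1 : WithZero (Multiplicative ℤ)) := by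
    rcases hd with hd | hd
    · by_contra hcon
      exact hsq (u / y) (e2b_big hd h (not_le.1 hcon))
    · exact e2a_par hd h
  have hu2 : Valued.v (-(2 * u)) < (1 : WithZero (Multiplicative ℤ)) := by
    rw [Valuation.map_neg, map_mul, h2]
    refine lt_of_le_of_lt (mul_le_of_le_one_right' hu) ?_
    rw [← WithZero.exp_zero, WithZero.exp_lt_exp]
    norm_num
  obtain ⟨z, hz, hz'⟩ := hensel3 v (p := 0) (q := -3) (t := -(2 * u)) (x₀ := 0)
    (by rw [map_zero]; exact zero_le) (by rw [Valuation.map_neg, h3]) hu2.le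
    (by rw [map_zero]; exact zero_le) (by
      have h5 : (0 : v.adicCompletion KK) ^ 3 + 0 * 0 ^ 2 + -3 * 0 + -(2 * u) = -(2 * u) := by ring
      rw [h5]
      exact hu2) (by
      have h5 : 3 * (0 : v.adicCompletion KK) ^ 2 + 2 * 0 * 0 + -3 = -3 := by ring
      rw [h5, Valuation.map_neg, h3])
  rw [sub_zero] at hz'
  have hb : Valued.v (4 * (z / 2) ^ 2 - 1) = (1 : WithZero (Multiplicative ℤ)) := by
    have h5 : 4 * (z / 2) ^ 2 - 1 = z ^ 2 - 1 := by
      field_simp
      ring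
    have h6 : Valued.v (1 : v.adicCompletion KK) = (1 : WithZero (Multiplicative ℤ)) := map_one _
    rw [h5, Valuation.map_sub_eq_of_lt_right _ ?_, h6]
    rw [h6, map_pow]
    exact pow_lt_one' hz' (by norm_num)
  have hb0 : 4 * (z / 2) ^ 2 - 1 ≠ 0 := by
    intro h0
    rw [h0, map_zero] at hb
    exact zero_ne_one hb
  refine ⟨z / 2, y / (4 * (z / 2) ^ 2 - 1), ?_, ?_, hb0⟩
  · have h5 : 2 * (4 * (z / 2) ^ 3 - 3 * (z / 2) - u) = z ^ 3 + 0 * z ^ 2 + -3 * z + -(2 * u) := by
      field_simp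
      ring
    rw [hz] at h5
    have h6 := (mul_eq_zero.1 h5).resolve_left h20
    linear_combination h6
  · rw [div_mul_cancel₀ _ hb0]

/-- [E2c] -/
theorem sol_inert (h2 : Valued.v (2 : v.adicCompletion KK) = (1 : WithZero (Multiplicative ℤ)))
    (h3 : Valued.v (3 : v.adicCompletion KK) = (1 : WithZero (Multiplicative ℤ)))
    (hd : Valued.v d = (1 : WithZero (Multiplicative ℤ)))
    (hsq : ∀ x : v.adicCompletion KK, ¬ Valued.v (d - x ^ 2) < (1 : WithZero (Multiplicative ℤ)))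
    (h : u ^ 2 - y ^ 2 * d = 1) : Sol3 u y := by
  have h4 : Valued.v (4 : v.adicCompletion KK) = (1 : WithZero (Multiplicative ℤ)) := by
    have : (4 : v.adicCompletion KK) = 2 ^ 2 := by norm_num
    rw [this, map_pow, h2, one_pow]
  have h40 : (4 : v.adicCompletion KK) ≠ 0 := by
    intro h0
    rw [h0, map_zero] at h4
    exact zero_ne_one h4
  have h34 : Valued.v (-3 / 4 : v.adicCompletion KK) = (1 : WithZero (Multiplicative ℤ)) := by
    rw [map_div₀, Valuation.map_neg, h3, h4, div_one]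
  have hu : Valued.v u ≤ (1 : WithZero (Multiplicative ℤ)) := by
    by_contra hcon
    refine hsq (u / y) (lt_of_le_of_lt (e2b_big hd h (not_le.1 hcon)) ?_)
    rw [← WithZero.exp_zero, WithZero.exp_lt_exp]
    norm_num
  have hy : Valued.v y ≤ (1 : WithZero (Multiplicative ℤ)) := by
    have h5 : y ^ 2 * d = u ^ 2 - 1 := by linear_combination (-1 : v.adicCompletion KK) * h
    have h6 : Valued.v (u ^ 2 - 1) ≤ (1 : WithZero (Multiplicative ℤ)) :=
      Valuation.map_sub_le _ (by rw [map_pow]; exact pow_le_one' hu 2) (map_one _).le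
    rw [← h5, map_mul, hd, mul_one, map_pow] at h6
    by_contra hcon
    exact absurd (one_lt_pow' (not_le.1 hcon) (by norm_num : (2 : ℕ) ≠ 0)) (not_lt.2 h6)
  set O := v.adicCompletionIntegers KK with hO
  have hint : (Valued.v : Valuation (v.adicCompletion KK) _).Integers O := Valuation.valuationSubring.integers _
  set k := IsLocalRing.ResidueField O with hk
  have hfin : Finite k := (CM27.card_residue KK v).2
  have hres : ∀ x : O, IsLocalRing.residue O x = 0 ↔ Valued.v (x : v.adicCompletion KK) < (1 : WithZero (Multiplicative ℤ)) := by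
    intro x
    rw [IsLocalRing.residue_eq_zero_iff]
    exact Valuation.mem_maximalIdeal_iff _ _
  have hk3 : (3 : k) ≠ 0 := by
    intro h0
    have h5 : IsLocalRing.residue O 3 = 0 := by rw [map_ofNat]; exact h0
    rw [hres] at h5
    have h6 : ((3 : O) : v.adicCompletion KK) = 3 := rfl
    rw [h6, h3] at h5
    exact lt_irrefl _ h5
  have hk2 : (2 : k) ≠ 0 := by
    intro h0
    have h5 : IsLocalRing.residue O 2 = 0 := by rw [map_ofNat]; exact h0
    rw [hres] at h5
    have h6 : ((2 : O) : v.adicCompletion KK) = 2 := rfl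
    rw [h6, h2] at h5
    exact lt_irrefl _ h5
  have hcard : Nat.card k % 3 = 1 := by
    refine e2c_card (o := IsLocalRing.residue O (CU.t5b_lo v om)) hk3 ?_
    rw [← map_pow, ← map_add, ← map_one (IsLocalRing.residue O), ← map_add, CU.t5b_om, map_zero]
  set D : O := ⟨d, hd.le⟩ with hD
  set U : O := ⟨u, hu⟩ with hU
  set Y : O := ⟨y, hy⟩ with hY
  have hrel : U ^ 2 - Y ^ 2 * D = 1 := Subtype.ext h
  obtain ⟨a₀', ha₀, ha₀1⟩ := inert_res (k := k) hk2 hcard (d := IsLocalRing.residue O D) (u := IsLocalRing.residue O U)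
    (y := IsLocalRing.residue O Y) (by
      rintro ⟨x', hx'⟩
      obtain ⟨x, rfl⟩ := IsLocalRing.residue_surjective x'
      rw [← map_mul, ← sub_eq_zero, ← map_sub, hres] at hx'
      apply hsq (x : v.adicCompletion KK)
      rw [sq]
      exact hx') (by
      have h5 := congrArg (IsLocalRing.residue O) hrel
      simpa only [map_sub, map_mul, map_pow, map_one] using h5)
  obtain ⟨a₀, rfl⟩ := IsLocalRing.residue_surjective a₀'
  have h5 : Valued.v (4 * (a₀ : v.adicCompletion KK) ^ 3 - 3 * a₀ - u) < (1 : WithZero (Multiplicative ℤ)) := by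
    have h6 : IsLocalRing.residue O (4 * a₀ ^ 3 - 3 * a₀ - U) = 0 := by
      rw [map_sub, map_sub, map_mul, map_mul, map_pow, map_ofNat, map_ofNat, ha₀, sub_self]
    rw [hres] at h6
    exact h6
  have hwa₀ : Valued.v (a₀ : v.adicCompletion KK) ≤ (1 : WithZero (Multiplicative ℤ)) := a₀.2
  have h6 : Valued.v (4 * (a₀ : v.adicCompletion KK) ^ 2 - 1) = (1 : WithZero (Multiplicative ℤ)) := by
    have h7 : ¬ IsLocalRing.residue O (4 * a₀ ^ 2 - 1) = 0 := by
      rw [map_sub, map_mul, map_pow, map_ofNat, map_one]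
      exact ha₀1
    rw [hres] at h7
    refine le_antisymm ?_ (not_lt.1 h7)
    refine Valuation.map_sub_le _ ?_ (map_one _).le
    rw [map_mul, map_pow, h4, one_mul]
    exact pow_le_one' hwa₀ 2
  obtain ⟨a, ha, ha'⟩ := hensel3 v (p := 0) (q := -3 / 4) (t := -u / 4) (x₀ := (a₀ : v.adicCompletion KK))
    (by rw [map_zero]; exact zero_le) h34.le
    (by rw [map_div₀, Valuation.map_neg, h4, div_one]; exact hu) hwa₀ (by
      have h7 : (a₀ : v.adicCompletion KK) ^ 3 + 0 * a₀ ^ 2 + -3 / 4 * a₀ + -u / 4 = (4 * a₀ ^ 3 - 3 * a₀ - u) / 4 := by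
        field_simp
        ring
      rw [h7, map_div₀, h4, div_one]
      exact h5) (by
      have h7 : 3 * (a₀ : v.adicCompletion KK) ^ 2 + 2 * 0 * a₀ + -3 / 4 = 3 * (4 * a₀ ^ 2 - 1) / 4 := by
        field_simp
        ring
      rw [h7, map_div₀, map_mul, h3, h4, h6, one_mul, div_one])
  have hwa : Valued.v a ≤ (1 : WithZero (Multiplicative ℤ)) := by
    have h7 : a = (a - a₀) + a₀ := by ring
    rw [h7]
    exact Valuation.map_add_le _ ha'.le hwa₀
  have hb : Valued.v (4 * a ^ 2 - 1) = (1 : WithZero (Multiplicative ℤ)) := by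
    have h7 : 4 * a ^ 2 - 1 = 4 * ((a - a₀) * (a + a₀)) + (4 * (a₀ : v.adicCompletion KK) ^ 2 - 1) := by ring
    rw [h7, Valuation.map_add_eq_of_lt_right _ ?_, h6]
    rw [h6, map_mul, map_mul, h4, one_mul]
    refine lt_of_le_of_lt (mul_le_of_le_one_right' ?_) ha'
    exact Valuation.map_add_le _ hwa hwa₀
  have hb0 : 4 * a ^ 2 - 1 ≠ 0 := by
    intro h0
    rw [h0, map_zero] at hb
    exact zero_ne_one hb
  refine ⟨a, y / (4 * a ^ 2 - 1), ?_, ?_, hb0⟩
  · have h7 : 4 * (a ^ 3 + 0 * a ^ 2 + -3 / 4 * a + -u / 4) = 4 * a ^ 3 - 3 * a - u := by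
      field_simp
      ring
    rw [ha, mul_zero] at h7
    linear_combination (-1 : v.adicCompletion KK) * h7
  · rw [div_mul_cancel₀ _ hb0]

end

end JD
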