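import Pool.Agent.JD.E3

/-!
# [JD-E4] the place over `λ`, `D ≡ 1`: all classes come from points

`C = v.adicCompletion KK`, `V = Valued.v`, `Loc3 V l ε` (L1.lean), `ε ≡ -1 mod l`. `s² = d ≡ 1 mod l²`, `d - 1 ≢ l² mod l³`. The point `(g h, s + a g³)` is on `y² = x³ + d` if (*) `h³ - a² g³ = 2 a s` (then `y + s = a⁻¹ h³`).

PROOF. `pt_of_gh`: `y = s + a g³`, `x = g h`: `(y - s)(y + s) = a g³ (2 s + a g³) = g³ h³` by (*).
`level3` [E4a]: `a = 1 + l³ b'`, `V b' = 1`. `s ≡ ± 1`, `b' ≡ ± 1` (`res`): `g₀ = ± 1` with `g₀ ≡ - s b' mod l`. Look for `k` with `g = g₀/l`, `h = (g₀ + l k)/l`: (*) times `l³`: `(g₀ + l k)³ - a² g₀³ = 2 a s l³`. `1 - a² = -l³ b' (2 + l³ b')`, `3 = ε l²`; divided by `l³`: `k³ + ε g₀ l k² + ε g₀² k + t = 0`,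
`t = -g₀³ b' (2 + l³ b') - 2 a s ≡ -2 (g₀ b' + s) ≡ 0 mod l` (`g₀³ = g₀`). `hensel3` with `x₀ = 0`: `f(0) = t`, `f'(0) = ε g₀²` a unit.
`level2` [E4b]: `a = 1 + l² b₁`. `s ≡ s₀ = ± 1 mod l²` (`(s - s₀)(s + s₀) = d - 1`, `s + s₀` a unit), `2 s = -s₀ (1 + l² c)` with integral `c` (`2 s + s₀ = 2 (s - s₀) + 3 s₀`); `4 d = (1 + l² c)²`, `4 (d - 1) + ε l² = 2 l² c + l⁴ c²`, so with `d = 1 + l² δ`: `2 c ≡ 4 δ + ε ≡ δ - 1`, `c ≡ 1 - δ mod l`, `c` is a unit (`hd'`).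
 Let `b₁ + c = l e`, `e` integral (`hb`). Choose `k ∈ C`, integral, `k ≠ 0`, `k ≡ s₀ e mod l` (`k = ± 1`, or `k = l` if `e ≡ 0`; `res`). `g = l k`. `2 a s + a² l³ k³ = -s₀ (1 + l² c)(1 + l² b₁) + a² l³ k³ = -s₀ X`, `X = 1 + l² (b₁ + c) + l⁴ b₁ c - s₀ a² l³ k³ = 1 + l³ (e - s₀ a² k³) + l⁴ b₁ c`, `k³ ≡ k ≡ s₀ e`, `a² ≡ 1`: `X ≡ 1 mod l⁴`.
 `cube_four` (E1): `X = m³`; `h = -s₀ m` (`(-s₀)³ = -s₀`), `h ≠ 0`.
`sol_plus` [E4c]: `a = 1 + l² b₁` (`V (a - 1) ≤ exp (-2)`). `V b₁ < 1`: `a = 1 + l³ b'`: `V b' < 1`: `V (a - 1) ≤ exp (-4)`, `a` is a cube (`cube_four`); `V b' = 1`: `level3`. `V b₁ = 1`: `b₁, c ≡ ± 1`. If `b₁ + c ≡ 0`: `level2`. Otherwise `b₁ ≡ c`, `a⁻¹ = 1 + l² b₂`, `b₂ ≡ -b₁ ≡ -c`: `level2` for `a⁻¹` gives `g, h`,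
the point `(x, y)` with `y - s = a⁻¹ g³`, `y + s = a h³`; the point `(x, -y)`: `-y - s = a (-h)³`.
`c` is the one of `exists_c` (same for `a` and `a⁻¹`).
-/

set_option autoImplicit false

open NumberField IsDedekindDomain
open scoped Classical

namespace JD

open CM27 CF JZ
open CU (la om eE)

theorem e4_sgn {C : Type} [Field C] {w : Valuation C (WithZero (Multiplicative ℤ))} {l ε : C} (h : Loc3 w l ε)
    {x : C} (hx : w x = 1) : ∃ s : C, (s = 1 ∨ s = -1) ∧ w (x - s) < 1 := by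
  rcases h.res x hx.le with h1 | h1 | h1
  · exact absurd hx h1.ne
  · exact ⟨1, Or.inl rfl, h1⟩
  · exact ⟨-1, Or.inr rfl, by rw [sub_neg_eq_add]; exact h1⟩

theorem e4_l {C : Type} [Field C] {w : Valuation C (WithZero (Multiplicative ℤ))} {l ε : C} (h : Loc3 w l ε) :
    w l < 1 := by
  rw [h.hl, ← WithZero.exp_zero, WithZero.exp_lt_exp]
  norm_num

theorem e4_l0 {C : Type} [Field C] {w : Valuation C (WithZero (Multiplicative ℤ))} {l ε : C} (h : Loc3 w l ε) :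
    l ≠ 0 := by
  intro h0
  have h1 := h.hl
  rw [h0, map_zero] at h1
  exact WithZero.exp_ne_zero h1.symm

theorem e4_mul_lt {C : Type} [Field C] {w : Valuation C (WithZero (Multiplicative ℤ))} {x y : C}
    (hx : w x < 1) (hy : w y ≤ 1) : w (x * y) < 1 := by
  rw [map_mul]
  exact mul_lt_one_of_lt_of_le hx hy

theorem e4_mul_le {C : Type} [Field C] {w : Valuation C (WithZero (Multiplicative ℤ))} {x y : C}
    (hx : w x ≤ 1) (hy : w y ≤ 1) : w (x * y) ≤ 1 := by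
  rw [map_mul]
  exact mul_le_one' hx hy

theorem e4_int {C : Type} [Field C] (w : Valuation C (WithZero (Multiplicative ℤ))) (n : ℕ) :
    w (n : C) ≤ 1 := by
  induction n with
  | zero => rw [Nat.cast_zero, map_zero]; exact zero_le_one
  | succ n ih =>
    rw [Nat.cast_add, Nat.cast_one]
    exact w.map_add_le ih (map_one w).le

theorem e4_sq {C : Type} [Field C] {s₀ : C} (hs : s₀ = 1 ∨ s₀ = -1) : s₀ ^ 2 = 1 := by
  rcases hs with rfl | rfl <;> norm_num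

/-- multiplication by a power of `l` -/
theorem e4_lpow {C : Type} [Field C] {w : Valuation C (WithZero (Multiplicative ℤ))} {l ε : C} (h : Loc3 w l ε)
    {x : C} {m : ℤ} (n : ℕ) (hx : w x ≤ WithZero.exp m) : w (l ^ n * x) ≤ WithZero.exp (m - n) := by
  rw [map_mul, map_pow, h.hl, ← WithZero.exp_nsmul]
  have h1 : WithZero.exp (m - n) = WithZero.exp (n • (-1 : ℤ)) * WithZero.exp m := by
    rw [← WithZero.exp_add]
    congr 1
    simp
    ring
  rw [h1]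
  exact mul_le_mul' le_rfl hx

theorem pt_of_gh {C : Type} [Field C] {d s a g h : C} (hs : s ^ 2 = d) (ha : a ≠ 0) (hg : h ^ 3 - a ^ 2 * g ^ 3 = 2 * a * s) :
    (s + a * g ^ 3) ^ 2 = (g * h) ^ 3 + d ∧ s + a * g ^ 3 + s = a⁻¹ * h ^ 3 := by
  have h1 : h ^ 3 = 2 * a * s + a ^ 2 * g ^ 3 := by linear_combination hg
  constructor
  · rw [mul_pow, h1, ← hs]
    ring
  · rw [h1]
    field_simp
    ring

section
variable (v : HeightOneSpectrum (𝓞 KK)) {l ε d s a : v.adicCompletion KK}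
  (hL : Loc3 (Valued.v : Valuation (v.adicCompletion KK) (WithZero (Multiplicative ℤ))) l ε)
  (hε : Valued.v (ε + 1) < (1 : WithZero (Multiplicative ℤ)))
  (hs : s ^ 2 = d) (hd : Valued.v (d - 1) ≤ WithZero.exp (-2 : ℤ))
include hL hε hs hd

/-- [E4a] -/
theorem level3 {b' : v.adicCompletion KK} (hb : Valued.v b' = (1 : WithZero (Multiplicative ℤ))) (ha : a = 1 + l ^ 3 * b') :
    ∃ g h : v.adicCompletion KK, g ≠ 0 ∧ h ^ 3 - a ^ 2 * g ^ 3 = 2 * a * s := by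
  set w : Valuation (v.adicCompletion KK) (WithZero (Multiplicative ℤ)) := Valued.v with hw
  have hl0 := e4_l0 hL
  have hl1 := e4_l hL
  have hwd : w d = 1 := l1_one_of (map_one w) (l1_of_le (by norm_num) hd)
  have hws : w s = 1 := by
    rw [← hs, map_pow] at hwd
    exact (pow_eq_one_iff.1 hwd).resolve_right (by norm_num)
  obtain ⟨σ, hσ, hsσ⟩ := e4_sgn hL hws
  obtain ⟨β, hβ, hbβ⟩ := e4_sgn hL hb
  have hσ2 := e4_sq hσ
  have hβ2 := e4_sq hβ
  have hwσ := l1_sgn (w := w) hσ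
  have hwβ := l1_sgn (w := w) hβ
  set g₀ : v.adicCompletion KK := -(σ * β) with hg₀
  have hg2 : g₀ ^ 2 = 1 := by
    rw [hg₀]
    linear_combination β ^ 2 * hσ2 + hβ2
  have hwg : w g₀ = 1 := by
    rw [hg₀, Valuation.map_neg, map_mul, hwσ, hwβ, one_mul]
  have hw1 : w (g₀ * b' + s) < 1 := by
    have h1 : g₀ * b' + s = g₀ * (b' - β) + (s - σ) := by
      rw [hg₀]
      linear_combination -σ * hβ2
    rw [h1]
    refine w.map_add_lt ?_ hsσ
    rw [map_mul, hwg, one_mul]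
    exact hbβ
  have hwt : w (-(g₀ ^ 3 * b' * (2 + l ^ 3 * b')) - 2 * a * s) < 1 := by
    have h1 : -(g₀ ^ 3 * b' * (2 + l ^ 3 * b')) - 2 * a * s =
        -(2 * (g₀ * b' + s)) + -(l * (l ^ 2 * b' * (g₀ * b' + 2 * s))) := by
      rw [ha]
      linear_combination -(g₀ * b' * (2 + l ^ 3 * b')) * hg2
    rw [h1]
    have h2 : w (2 : v.adicCompletion KK) = 1 := l1_two hL
    refine w.map_add_lt ?_ ?_
    · rw [Valuation.map_neg, map_mul, h2, one_mul]
      exact hw1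
    · rw [Valuation.map_neg]
      refine e4_mul_lt hl1 (e4_mul_le (e4_mul_le ?_ hb.le) (w.map_add_le ?_ ?_))
      · rw [map_pow]
        exact pow_le_one' hl1.le 2
      · exact e4_mul_le hwg.le hb.le
      · rw [map_mul, h2, one_mul]
        exact hws.le
  have hp : w (ε * g₀ * l) ≤ 1 := e4_mul_le (e4_mul_le hL.heps.le hwg.le) hl1.le
  have hq : w (ε * g₀ ^ 2) = 1 := by rw [hg2, mul_one]; exact hL.heps
  obtain ⟨k, hk, -⟩ := hensel3 v (p := ε * g₀ * l) (q := ε * g₀ ^ 2)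
    (t := -(g₀ ^ 3 * b' * (2 + l ^ 3 * b')) - 2 * a * s) (x₀ := 0) hp hq.le hwt.le
    (by rw [map_zero]; exact zero_le_one)
    (by
      have h1 : (0 : v.adicCompletion KK) ^ 3 + ε * g₀ * l * 0 ^ 2 + ε * g₀ ^ 2 * 0 +
          (-(g₀ ^ 3 * b' * (2 + l ^ 3 * b')) - 2 * a * s) =
          -(g₀ ^ 3 * b' * (2 + l ^ 3 * b')) - 2 * a * s := by ring
      rw [h1]
      exact hwt)
    (by
      have h1 : 3 * (0 : v.adicCompletion KK) ^ 2 + 2 * (ε * g₀ * l) * 0 + ε * g₀ ^ 2 =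
          ε * g₀ ^ 2 := by ring
      rw [h1]
      exact hq)
  have hg₀0 : g₀ ≠ 0 := by
    intro h0
    rw [h0] at hg2
    norm_num at hg2
  refine ⟨g₀ / l, (g₀ + l * k) / l, div_ne_zero hg₀0 hl0, ?_⟩
  have h3 := hL.three
  have hl3 : l ^ 3 ≠ 0 := pow_ne_zero 3 hl0
  have key : (g₀ + l * k) ^ 3 - a ^ 2 * g₀ ^ 3 = 2 * a * s * l ^ 3 := by
    rw [ha] at hk ⊢
    linear_combination l ^ 3 * hk + (g₀ ^ 2 * l * k + g₀ * l ^ 2 * k ^ 2) * h3
  have key2 : ((g₀ + l * k) / l) ^ 3 - a ^ 2 * (g₀ / l) ^ 3 =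
      ((g₀ + l * k) ^ 3 - a ^ 2 * g₀ ^ 3) / l ^ 3 := by
    rw [div_pow, div_pow]
    ring
  rw [key2, key, mul_div_assoc, div_self hl3, mul_one]

/-- [E4b] -/
theorem exists_c (hd' : ¬ Valued.v (d - 1 - l ^ 2) ≤ WithZero.exp (-3 : ℤ)) :
    ∃ s₀ c : v.adicCompletion KK, (s₀ = 1 ∨ s₀ = -1) ∧ Valued.v c = (1 : WithZero (Multiplicative ℤ)) ∧
      2 * s = -s₀ * (1 + l ^ 2 * c) := by
  set w : Valuation (v.adicCompletion KK) (WithZero (Multiplicative ℤ)) := Valued.v with hw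
  have hl0 := e4_l0 hL
  have hl1 := e4_l hL
  have h2 : w (2 : v.adicCompletion KK) = 1 := l1_two hL
  have hwd : w d = 1 := l1_one_of (map_one w) (l1_of_le (by norm_num) hd)
  have hws : w s = 1 := by
    rw [← hs, map_pow] at hwd
    exact (pow_eq_one_iff.1 hwd).resolve_right (by norm_num)
  obtain ⟨s₀, hs₀, hss⟩ := e4_sgn hL hws
  have hs2 := e4_sq hs₀
  have hws₀ := l1_sgn (w := w) hs₀
  have h3 := hL.three
  have hw3 : w (3 : v.adicCompletion KK) ≤ WithZero.exp (-2 : ℤ) := by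
    have h4 := e4_lpow hL (x := ε) (m := 0) 2 (by rw [hL.heps, WithZero.exp_zero])
    rw [h3, mul_comm]
    exact h4
  have hplus : w (s + s₀) = 1 := by
    refine l1_one_of (y := 2 * s₀) (by rw [map_mul, h2, hws₀, one_mul]) ?_
    have h4 : s + s₀ - 2 * s₀ = s - s₀ := by ring
    rw [h4]
    exact hss
  have hss2 : w (s - s₀) ≤ WithZero.exp (-2 : ℤ) := by
    have h4 : (s - s₀) * (s + s₀) = d - 1 := by
      linear_combination hs - hs2
    have h5 : w (s - s₀) = w (d - 1) := by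
      rw [← h4, map_mul, hplus, mul_one]
    rw [h5]
    exact hd
  have hl2 : l ^ 2 ≠ 0 := pow_ne_zero 2 hl0
  -- the number c
  obtain ⟨c, hc⟩ : ∃ c : v.adicCompletion KK, l ^ 2 * c = -(2 * s₀ * (s - s₀)) + -3 :=
    ⟨(-(2 * s₀ * (s - s₀)) + -3) / l ^ 2, mul_div_cancel₀ _ hl2⟩
  have hwc : w c ≤ 1 := by
    have h4 : w (l ^ 2 * c) ≤ WithZero.exp (-2 : ℤ) := by
      rw [hc]
      refine w.map_add_le ?_ ?_
      · rw [Valuation.map_neg, map_mul, map_mul, h2, hws₀, one_mul, one_mul]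
        exact hss2
      · rw [Valuation.map_neg]
        exact hw3
    rw [map_mul, map_pow, hL.hl, ← WithZero.exp_nsmul] at h4
    have h5 : (2 • (-1 : ℤ)) = -2 := by norm_num
    rw [h5] at h4
    exact le_of_mul_le_mul_left (by rw [mul_one]; exact h4) (zero_lt_iff.2 WithZero.exp_ne_zero)
  have hsc : 2 * s = -s₀ * (1 + l ^ 2 * c) := by
    rw [hc]
    linear_combination (-(2 * s) + 2 * s₀) * hs2
  refine ⟨s₀, c, hs₀, ?_, hsc⟩
  by_contra hne
  have hc1 : w c < 1 := lt_of_le_of_ne hwc hne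
  apply hd'
  obtain ⟨δ, hδ⟩ : ∃ δ : v.adicCompletion KK, d - 1 = l ^ 2 * δ :=
    ⟨(d - 1) / l ^ 2, (mul_div_cancel₀ _ hl2).symm⟩
  have hwδ : w δ ≤ 1 := by
    have h4 := hd
    rw [hδ, map_mul, map_pow, hL.hl, ← WithZero.exp_nsmul] at h4
    have h5 : (2 • (-1 : ℤ)) = -2 := by norm_num
    rw [h5] at h4
    exact le_of_mul_le_mul_left (by rw [mul_one]; exact h4) (zero_lt_iff.2 WithZero.exp_ne_zero)
  have e1 : l ^ 2 * (4 * δ + ε) = l ^ 2 * (2 * c + l ^ 2 * c ^ 2) := by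
    have h4 : 4 * d = (1 + l ^ 2 * c) ^ 2 := by
      have h5 : (2 * s) ^ 2 = (-s₀ * (1 + l ^ 2 * c)) ^ 2 := by rw [hsc]
      linear_combination h5 - 4 * hs + (1 + l ^ 2 * c) ^ 2 * hs2
    linear_combination h4 - h3 - 4 * hδ
  have e2 : 4 * δ + ε = 2 * c + l ^ 2 * c ^ 2 := mul_left_cancel₀ hl2 e1
  have e3 : w (δ - 1) < 1 := by
    have h4 : δ - 1 = (2 * c + l ^ 2 * c ^ 2) + (-(3 * δ) + -(ε + 1)) := by
      linear_combination e2
    rw [h4]
    refine w.map_add_lt (w.map_add_lt ?_ ?_) (w.map_add_lt ?_ ?_)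
    · rw [map_mul, h2, one_mul]
      exact hc1
    · have h5 : l ^ 2 * c ^ 2 = c * (l ^ 2 * c) := by ring
      rw [h5]
      refine e4_mul_lt hc1 (e4_mul_le ?_ hwc)
      rw [map_pow]
      exact pow_le_one' hl1.le 2
    · rw [Valuation.map_neg]
      exact e4_mul_lt (l1_three hL) hwδ
    · rw [Valuation.map_neg]
      exact hε
  have e4 : d - 1 - l ^ 2 = l ^ 2 * (δ - 1) := by
    rw [hδ]
    ring
  rw [e4]
  exact e4_lpow hL (m := -1) 2 (l1_lt1 e3)

/-- [E4b] -/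
theorem level2 {s₀ c b₁ : v.adicCompletion KK} (hs₀ : s₀ = 1 ∨ s₀ = -1) (hc : Valued.v c = (1 : WithZero (Multiplicative ℤ)))
    (hsc : 2 * s = -s₀ * (1 + l ^ 2 * c)) (ha : a = 1 + l ^ 2 * b₁)
    (hb : Valued.v (b₁ + c) < (1 : WithZero (Multiplicative ℤ))) :
    ∃ g h : v.adicCompletion KK, g ≠ 0 ∧ h ≠ 0 ∧ h ^ 3 - a ^ 2 * g ^ 3 = 2 * a * s := by
  set w : Valuation (v.adicCompletion KK) (WithZero (Multiplicative ℤ)) := Valued.v with hw
  have hl0 := e4_l0 hL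
  have hl1 := e4_l hL
  have hs2 := e4_sq hs₀
  have hws₀ := l1_sgn (w := w) hs₀
  obtain ⟨e, he, hwe⟩ := l1_div hL hb
  have hwb₁ : w b₁ ≤ 1 := by
    have h1 : b₁ = l * e + -c := by linear_combination he
    rw [h1]
    refine w.map_add_le (e4_mul_le hl1.le hwe) ?_
    rw [Valuation.map_neg]
    exact hc.le
  have hws₀e : w (s₀ * e) ≤ 1 := e4_mul_le hws₀.le hwe
  obtain ⟨k, hk0, hwk, hk1, hk3⟩ : ∃ k : v.adicCompletion KK, k ≠ 0 ∧ w k ≤ 1 ∧
      w (s₀ * e - k) < 1 ∧ w (k - k ^ 3) < 1 := by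
    rcases hL.res (s₀ * e) hws₀e with h1 | h1 | h1
    · refine ⟨l, hl0, hl1.le, ?_, ?_⟩
      · rw [sub_eq_add_neg]
        refine w.map_add_lt h1 ?_
        rw [Valuation.map_neg]
        exact hl1
      · have h4 : l - l ^ 3 = l * (1 + -(l ^ 2)) := by ring
        rw [h4]
        refine e4_mul_lt hl1 (w.map_add_le (map_one w).le ?_)
        rw [Valuation.map_neg, map_pow]
        exact pow_le_one' hl1.le 2
    · refine ⟨1, one_ne_zero, (map_one w).le, h1, ?_⟩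
      rw [one_pow, sub_self, map_zero]
      exact zero_lt_one
    · refine ⟨-1, neg_ne_zero.2 one_ne_zero, by rw [Valuation.map_neg, map_one], ?_, ?_⟩
      · rw [sub_neg_eq_add]
        exact h1
      · have h4 : (-1 : v.adicCompletion KK) - (-1) ^ 3 = 0 := by ring
        rw [h4, map_zero]
        exact zero_lt_one
  have hwa : w (1 - a ^ 2) < 1 := by
    have h4 : 1 - a ^ 2 = l * (-(l * b₁ * (2 + l ^ 2 * b₁))) := by
      rw [ha]
      ring
    rw [h4]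
    refine e4_mul_lt hl1 ?_
    rw [Valuation.map_neg]
    refine e4_mul_le (e4_mul_le hl1.le hwb₁) (w.map_add_le ?_ (e4_mul_le ?_ hwb₁))
    · exact (l1_two hL).le
    · rw [map_pow]
      exact pow_le_one' hl1.le 2
  set X : v.adicCompletion KK := 1 + (l ^ 3 * (e - s₀ * a ^ 2 * k ^ 3) + l ^ 4 * (b₁ * c)) with hX
  have hwX : w (X - 1) ≤ WithZero.exp (-4 : ℤ) := by
    have h4 : X - 1 = l ^ 3 * (e - s₀ * a ^ 2 * k ^ 3) + l ^ 4 * (b₁ * c) := by
      rw [hX]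
      ring
    rw [h4]
    refine w.map_add_le ?_ ?_
    · have h5 : w (e - s₀ * a ^ 2 * k ^ 3) < 1 := by
        have h6 : e - s₀ * a ^ 2 * k ^ 3 = s₀ * (s₀ * e - k) + (s₀ * (k - k ^ 3) +
            (1 - a ^ 2) * (s₀ * k ^ 3)) := by
          linear_combination -e * hs2
        rw [h6]
        refine w.map_add_lt ?_ (w.map_add_lt ?_ ?_)
        · rw [map_mul, hws₀, one_mul]
          exact hk1
        · rw [map_mul, hws₀, one_mul]
          exact hk3
        · refine e4_mul_lt hwa (e4_mul_le hws₀.le ?_)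
          rw [map_pow]
          exact pow_le_one' hwk 3
      exact e4_lpow hL (m := -1) 3 (l1_lt1 h5)
    · refine e4_lpow hL (m := 0) 4 ?_
      rw [WithZero.exp_zero]
      exact e4_mul_le hwb₁ hc.le
  obtain ⟨m, hm, hXm⟩ := cube_four v hL.hl hL.heps hL.three hwX
  have hm1 : (1 + l * m : v.adicCompletion KK) ≠ 0 := by
    intro h0
    have h4 : w (1 + l * m) = 1 := by
      refine l1_one_of (y := 1) (map_one w) ?_
      have h5 : (1 + l * m : v.adicCompletion KK) - 1 = l * m := by ring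
      rw [h5]
      exact e4_mul_lt hl1 hm
    rw [h0, map_zero] at h4
    exact zero_ne_one h4
  have hs₀0 : s₀ ≠ 0 := by
    intro h0
    rw [h0, map_zero] at hws₀
    exact zero_ne_one hws₀
  refine ⟨l * k, -s₀ * (1 + l * m), mul_ne_zero hl0 hk0, mul_ne_zero (neg_ne_zero.2 hs₀0) hm1, ?_⟩
  have h4 : (-s₀ * (1 + l * m)) ^ 3 = -s₀ * X := by
    rw [hXm]
    linear_combination -(s₀ * (1 + l * m) ^ 3) * hs2
  rw [h4, hX]
  have h5 : 2 * a * s = a * (2 * s) := by ring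
  rw [h5, hsc]
  have h6 : a = 1 + l ^ 2 * b₁ := ha
  linear_combination s₀ * l ^ 2 * he + (a ^ 2 * l ^ 3 * k ^ 3) * hs2 + (s₀ * (1 + l ^ 2 * c)) * h6

/-- [E4c] -/
theorem sol_plus (hd' : ¬ Valued.v (d - 1 - l ^ 2) ≤ WithZero.exp (-3 : ℤ))
    (ha : Valued.v (a - 1) ≤ WithZero.exp (-2 : ℤ)) :
    (∃ g : v.adicCompletion KK, g ^ 3 = a) ∨
      ∃ x y g : v.adicCompletion KK, g ≠ 0 ∧ y ^ 2 = x ^ 3 + d ∧ y - s ≠ 0 ∧ y - s = a * g ^ 3 := by
  have hl0 : l ≠ 0 := by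
    intro h0
    have h1 := hL.hl
    rw [h0, map_zero] at h1
    exact WithZero.exp_ne_zero h1.symm
  have hwl2 : Valued.v (l ^ 2) = WithZero.exp (-2 : ℤ) := by
    rw [map_pow, hL.hl, ← WithZero.exp_nsmul]
    norm_num
  have ha1 : Valued.v (a - 1) < (1 : WithZero (Multiplicative ℤ)) := l1_of_le (by norm_num) ha
  have hwa : Valued.v a = (1 : WithZero (Multiplicative ℤ)) := l1_one_of (map_one _) ha1
  have ha0 : a ≠ 0 := by
    intro h0
    rw [h0, map_zero] at hwa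
    exact zero_ne_one hwa
  -- `a = 1 + l² b₁`
  obtain ⟨b₁, hb₁, hwb₁⟩ : ∃ b₁ : v.adicCompletion KK, a = 1 + l ^ 2 * b₁ ∧
      Valued.v b₁ ≤ (1 : WithZero (Multiplicative ℤ)) := by
    refine ⟨(a - 1) / l ^ 2, ?_, ?_⟩
    · field_simp
      ring
    · rw [map_div₀, hwl2, div_le_iff₀ (zero_lt_iff.2 WithZero.exp_ne_zero), one_mul]
      exact ha
  have hfin : ∀ g h : v.adicCompletion KK, g ≠ 0 → h ^ 3 - a ^ 2 * g ^ 3 = 2 * a * s →
      ∃ x y g : v.adicCompletion KK, g ≠ 0 ∧ y ^ 2 = x ^ 3 + d ∧ y - s ≠ 0 ∧ y - s = a * g ^ 3 := by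
    intro g h hg hgh
    have h1 := (pt_of_gh hs ha0 hgh).1
    have h2 : s + a * g ^ 3 - s = a * g ^ 3 := by ring
    refine ⟨g * h, s + a * g ^ 3, g, hg, h1, ?_, h2⟩
    rw [h2]
    exact mul_ne_zero ha0 (pow_ne_zero 3 hg)
  rcases hwb₁.lt_or_eq with hb | hb
  · obtain ⟨b', hb', hwb'⟩ := l1_div hL hb
    have hab' : a = 1 + l ^ 3 * b' := by
      rw [hb₁, hb']
      ring
    rcases hwb'.lt_or_eq with h1 | h1
    · left
      have h2 : Valued.v (a - 1) ≤ WithZero.exp (-4 : ℤ) := by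
        have h3 : a - 1 = l ^ 3 * b' := by rw [hab']; ring
        rw [h3, map_mul, map_pow, hL.hl, ← WithZero.exp_nsmul]
        calc WithZero.exp (3 • (-1 : ℤ)) * Valued.v b'
            ≤ WithZero.exp (3 • (-1 : ℤ)) * WithZero.exp (-1 : ℤ) :=
              mul_le_mul_right (l1_lt1 h1) _
          _ = WithZero.exp (-4 : ℤ) := by
              rw [← WithZero.exp_add]
              norm_num
      obtain ⟨m, -, hm⟩ := cube_four v hL.hl hL.heps hL.three h2
      exact ⟨1 + l * m, hm.symm⟩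
    · right
      obtain ⟨g, h, hg, hgh⟩ := level3 v hL hε hs hd h1 hab'
      exact hfin g h hg hgh
  · right
    obtain ⟨s₀, c, hs₀, hwc, hsc⟩ := exists_c v hL hε hs hd hd'
    have hsgn : ∀ x : v.adicCompletion KK, Valued.v x = (1 : WithZero (Multiplicative ℤ)) →
        Valued.v (x - 1) < (1 : WithZero (Multiplicative ℤ)) ∨
          Valued.v (x + 1) < (1 : WithZero (Multiplicative ℤ)) := by
      intro x hx
      rcases hL.res x hx.le with h1 | h1 | h1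
      · exact absurd hx h1.ne
      · exact Or.inl h1
      · exact Or.inr h1
    have hcase : Valued.v (b₁ + c) < (1 : WithZero (Multiplicative ℤ)) ∨
        Valued.v (b₁ - c) < (1 : WithZero (Multiplicative ℤ)) := by
      rcases hsgn b₁ hb with h1 | h1 <;> rcases hsgn c hwc with h2 | h2
      · right
        have e : b₁ - c = (b₁ - 1) - (c - 1) := by ring
        rw [e]
        exact Valuation.map_sub_lt _ h1 h2
      · left
        have e : b₁ + c = (b₁ - 1) + (c + 1) := by ring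
        rw [e]
        exact Valuation.map_add_lt _ h1 h2
      · left
        have e : b₁ + c = (b₁ + 1) + (c - 1) := by ring
        rw [e]
        exact Valuation.map_add_lt _ h1 h2
      · right
        have e : b₁ - c = (b₁ + 1) - (c + 1) := by ring
        rw [e]
        exact Valuation.map_sub_lt _ h1 h2
    rcases hcase with h1 | h1
    · obtain ⟨g, h, hg, -, hgh⟩ := level2 v hL hε hs hd hs₀ hwc hsc hb₁ h1
      exact hfin g h hg hgh
    · have ha' : a⁻¹ = 1 + l ^ 2 * (-b₁ / a) := by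
        have e : a⁻¹ * a = (1 + l ^ 2 * (-b₁ / a)) * a := by
          rw [inv_mul_cancel₀ ha0, add_mul, one_mul, mul_assoc, div_mul_cancel₀ _ ha0]
          rw [hb₁]
          ring
        exact mul_right_cancel₀ ha0 e
      have h2 : Valued.v (-b₁ / a + c) < (1 : WithZero (Multiplicative ℤ)) := by
        have e : -b₁ / a + c = (-(b₁ - c) + l ^ 2 * (b₁ * c)) / a := by
          rw [eq_div_iff ha0, add_mul, div_mul_cancel₀ _ ha0]
          rw [hb₁]
          ring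
        rw [e, map_div₀, hwa, div_one]
        refine Valuation.map_add_lt _ ?_ ?_
        · rw [Valuation.map_neg]
          exact h1
        · rw [map_mul, map_mul, hb, hwc, mul_one, mul_one, hwl2, ← WithZero.exp_zero,
            WithZero.exp_lt_exp]
          norm_num
      obtain ⟨g, h, -, hh, hgh⟩ := level2 v hL hε hs hd hs₀ hwc hsc ha' h2
      have h3 := pt_of_gh hs (inv_ne_zero ha0) hgh
      rw [inv_inv] at h3
      have h4 : -(s + a⁻¹ * g ^ 3) - s = a * (-h) ^ 3 := by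
        linear_combination -h3.2
      refine ⟨g * h, -(s + a⁻¹ * g ^ 3), -h, neg_ne_zero.2 hh, ?_, ?_, h4⟩
      · rw [neg_sq]
        exact h3.1
      · rw [h4]
        exact mul_ne_zero ha0 (pow_ne_zero 3 (neg_ne_zero.2 hh))

end

end JD
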