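import Pool.Agent.JD.N2
import Pool.Agent.CUE.A1

/-!
# [JD-E8] the crossed homomorphism of an element of norm `1`

`L` a field, `ρ² = d`, `s³ = a + b ρ`, `a² - b² d = 1` (so `s ≠ 0`, `N s³ = 1`), `o` a primitive cube root of unity. For a homomorphism `f : L → L` which fixes `d, o, a, b`: `f ρ = ± ρ`; `fE f = f s / s` if `f ρ = ρ` and `(f s * s)⁻¹` otherwise; this is a cube root of unity. `cE f` is the point `T` of the kernel of
`phiE` (`KerE`) with character value `chi o (toV T) = fE f`.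

PROOF. `fE_cube` [E8a]: `f ρ = ρ`: `(f s)³ = f (a + b ρ) = a + b ρ = s³`. `f ρ ≠ ρ`: `(f ρ)² = f d = d = ρ²`, so `f ρ = -ρ`, `(f s)³ = a - b ρ`, `(f s * s)³ = a² - b² d = 1`. `s ≠ 0`: `(a + b ρ)(a - b ρ) = 1`.
`cE_ker` [E8a]: `kcp_ker` (CUE/A1), `toV_ker` (N2). `cE_chi` [E8a]: `kcp_chi` with `s = 1`, `t = fE f`: `t = chi o (kcp ..) * 1`. `cE_unique` [E8a]: `kcp_unique` (with `s = 1`).
`ptE_cE` [E8b]: `toV_ptE` (N2) for `ι` and `ptW_kcp` (CUE/A1): `ι (fE f) = fE f'` by injectivity of `ι` (`f' ρ' = ρ'` iff `f ρ = ρ`). (Apply `toV hρ' rfl` to both sides.)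
`cE_comp` [E8b]: `g (f s)`: put `t_f = fE f` (`t_f³ = 1`, and `f` maps every cube root of unity `1, o, o²` to itself). Four cases:
 `f ρ = ρ`, `g ρ = ρ`: `f (g s) = f (t_g s) = t_g t_f s`: `fE (f ∘ g) = t_f t_g`; `ptE f (cE g) = cE g` (`kerE_fix`, N2).
 `f ρ = ρ`, `g ρ = -ρ`: `g s = t_g⁻¹ s⁻¹`, `f (g s) = t_g⁻¹ t_f⁻¹ s⁻¹`: `fE (f ∘ g) = t_f t_g`; `ptE f (cE g) = cE g`.
 `f ρ = -ρ`, `g ρ = ρ`: `g s = t_g s`, `f (g s) = t_g f s = t_g t_f⁻¹ s⁻¹`, `fE (f ∘ g) = t_f t_g⁻¹`; `ptE f (cE g) = -cE g` (`kerE_neg`, N2).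
 `f ρ = -ρ`, `g ρ = -ρ`: `g s = t_g⁻¹ s⁻¹`, `f (g s) = t_g⁻¹ (f s)⁻¹ = t_g⁻¹ t_f s`, `(f ∘ g) ρ = ρ`: `fE (f ∘ g) = t_f t_g⁻¹`; `ptE f (cE g) = -cE g`.
 In all cases `chi (toV (cE f + ptE f (cE g))) = fE (f ∘ g)` (`chi_add`, `map_add`, `chi` of a negative point: `chi_add` with `T + (-T) = 0`, `chi_zero`), so `cE_unique` (or `chi_inj`).
`coc_cE` [E8c]: `L` algebraic over `K`: locally constant: `σ ↦ (σ ρ, σ s)` is locally constant (`CM27.fin_loc_apply`, as in the proof of `CUD.coc_kcp`, CUE/A1: `(fin_loc_apply ρ).prodMk (fin_loc_apply s)` and `.comp`) and `cE` is a function of `(σ ρ, σ s)`; crossed: `cE_comp`.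
-/

set_option autoImplicit false

open NumberField IsDedekindDomain
open scoped Classical

namespace JD

open CM27 CF JZ
open CU (la om eE W3)
open CUD (gal_comm alg_comm tau_comm am_ne am_o)

/-- the homomorphism `f` fixes the elements `d, o, a, b` -/
structure Fx {L : Type} [Field L] (d o a b : L) (f : L →+* L) : Prop where
  fd : f d = d
  fo : f o = o
  fa : f a = a
  fb : f b = b

noncomputable def fE {L : Type} [Field L] (ρ s : L) (f : L →+* L) : L := if f ρ = ρ then f s / s else (f s * s)⁻¹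

noncomputable def cE {L : Type} [Field L] [CharZero L] {d ρ : L} (hρ : ρ ^ 2 = d) (h0 : 2 * ρ ≠ 0) (o s : L)
    (f : L →+* L) : (ED d).toAffine.Point :=
  (toV hρ (rfl : 2 * ρ = 2 * ρ)).symm (CUD.kcp h0 o 1 (fE ρ s f))

section
variable {L : Type} [Field L] [CharZero L] {d ρ o s a b : L} (hρ : ρ ^ 2 = d) (h0 : 2 * ρ ≠ 0) (ho : o ^ 2 + o + 1 = 0)
  (hs : s ^ 3 = a + b * ρ) (h1 : a ^ 2 - b ^ 2 * d = 1) {f g : L →+* L} (hf : Fx d o a b f) (hg : Fx d o a b g)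

/-- [E8a] -/
theorem cE_ker : KerE (cE hρ h0 o s f) := by
  rw [← toV_ker hρ (rfl : 2 * ρ = 2 * ρ)]
  unfold cE
  rw [AddEquiv.apply_symm_apply]
  exact CUD.kcp_ker h0

include hρ ho hs h1 hf in
/-- [E8a] -/
theorem fE_cube : fE ρ s f ^ 3 = 1 := by
  have hd0 : (a + b * ρ) * (a - b * ρ) = 1 := by
    linear_combination h1 - b ^ 2 * hρ
  have hs0 : s ≠ 0 := by
    intro h
    rw [h, zero_pow (three_ne_zero)] at hs
    rw [← hs, zero_mul] at hd0
    exact zero_ne_one hd0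
  unfold fE
  split_ifs with h
  · have h2 : f s ^ 3 = s ^ 3 := by
      rw [← map_pow, hs, map_add, map_mul, hf.fa, hf.fb, h]
    rw [div_pow, h2, div_self (pow_ne_zero 3 hs0)]
  · have h3 : (f ρ - ρ) * (f ρ + ρ) = 0 := by
      have h4 : f ρ ^ 2 = d := by
        rw [← map_pow, hρ, hf.fd]
      linear_combination h4 - hρ
    have h4 : f ρ = -ρ := by
      rcases mul_eq_zero.1 h3 with h5 | h5
      · exact absurd (sub_eq_zero.1 h5) h
      · exact eq_neg_of_add_eq_zero_left h5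
    have h5 : f s ^ 3 = a - b * ρ := by
      rw [← map_pow, hs, map_add, map_mul, hf.fa, hf.fb, h4]
      ring
    have h6 : (f s * s) ^ 3 = 1 := by
      rw [mul_pow, h5, hs, mul_comm]
      exact hd0
    rw [inv_pow, h6, inv_one]

include ho hs h1 hf in
/-- [E8a] -/
theorem cE_chi : CUD.chi o (toV hρ (rfl : 2 * ρ = 2 * ρ) (cE hρ h0 o s f)) = fE ρ s f := by
  unfold cE
  rw [AddEquiv.apply_symm_apply]
  have h2 := CUD.kcp_chi (s := 1) (t := fE ρ s f) h0 ho (by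
    rw [one_pow]
    exact fE_cube hρ ho hs h1 hf)
  rw [mul_one] at h2
  exact h2.symm

include ho in
/-- [E8a] -/
theorem cE_unique {T : (ED d).toAffine.Point} (hT : KerE T)
    (h : CUD.chi o (toV hρ (rfl : 2 * ρ = 2 * ρ) T) = fE ρ s f) : cE hρ h0 o s f = T := by
  unfold cE
  rw [AddEquiv.symm_apply_eq]
  refine CUD.kcp_unique h0 ho one_ne_zero _ ((toV_ker hρ _ T).2 hT) ?_
  rw [mul_one]
  exact h.symm

/-- [E8b] -/
theorem ptE_cE {M : Type} [Field M] [CharZero M] (ι : L →+* M) {d' ρ' o' s' : M} (hρ' : ρ' ^ 2 = d') (h0' : 2 * ρ' ≠ 0)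
    (hd : ι d = d') (hr : ι ρ = ρ') (ho' : ι o = o') (hs' : ι s = s') {f' : M →+* M}
    (hff : ∀ x, ι (f x) = f' (ι x)) : ptE ι hd (cE hρ h0 o s f) = cE hρ' h0' o' s' f' := by
  apply (toV hρ' (rfl : 2 * ρ' = 2 * ρ')).injective
  have hss : ι (2 * ρ) = 2 * ρ' := by rw [map_mul, map_ofNat, hr]
  rw [toV_ptE hρ rfl ι hd hρ' rfl hr hss]
  unfold cE
  rw [AddEquiv.apply_symm_apply, AddEquiv.apply_symm_apply, CUD.ptW_kcp h0 ι h0' hss ho', map_one]
  congr 1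
  unfold fE
  by_cases h : f ρ = ρ
  · have h' : f' ρ' = ρ' := by rw [← hr, ← hff, h]
    rw [if_pos h, if_pos h', map_div₀, hff, hs']
  · have h' : ¬ f' ρ' = ρ' := by
      rw [← hr, ← hff]
      exact fun h2 => h (ι.injective h2)
    rw [if_neg h, if_neg h', map_inv₀, map_mul, hff, hs']

theorem e8b_pos (hs0 : s ≠ 0) (h : f ρ = ρ) : f s = fE ρ s f * s := by
  unfold fE
  rw [if_pos h, div_mul_cancel₀ _ hs0]

theorem e8b_neg (hs0 : s ≠ 0) (h : ¬ f ρ = ρ) : f s = (fE ρ s f)⁻¹ * s⁻¹ := by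
  unfold fE
  rw [if_neg h, inv_inv, mul_assoc, mul_inv_cancel₀ hs0, mul_one]

include hρ hf in
theorem e8b_sgn : f ρ = ρ ∨ f ρ = -ρ := by
  have h2 : (f ρ - ρ) * (f ρ + ρ) = 0 := by
    have h3 : (f ρ) ^ 2 = d := by rw [← map_pow, hρ, hf.fd]
    linear_combination h3 - hρ
  rcases mul_eq_zero.1 h2 with h | h
  · exact Or.inl (sub_eq_zero.1 h)
  · exact Or.inr (eq_neg_of_add_eq_zero_left h)

include hρ hs h1 in
theorem e8b_s0 : s ≠ 0 := by
  intro h0
  rw [h0] at hs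
  have h2 : a + b * ρ = 0 := by rw [← hs]; ring
  have h3 : (1 : L) = 0 := by
    rw [← h1, ← hρ]
    linear_combination (a - b * ρ) * h2
  exact one_ne_zero h3

include ho hs h1 hg in
/-- [E8b] -/
theorem cE_comp (hf : Fx d o a b f) :
    cE hρ h0 o s (f.comp g) = cE hρ h0 o s f + ptE f hf.fd (cE hρ h0 o s g) := by
  have hs0 : s ≠ 0 := e8b_s0 hρ hs h1
  have hne : ¬ -ρ = ρ := by
    intro h
    apply h0
    linear_combination -h
  have hkf : CUD.Ker (toV hρ (rfl : 2 * ρ = 2 * ρ) (cE hρ h0 o s f)) := (toV_ker hρ rfl _).2 (cE_ker hρ h0)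
  have hkg : CUD.Ker (toV hρ (rfl : 2 * ρ = 2 * ρ) (cE hρ h0 o s g)) := (toV_ker hρ rfl _).2 (cE_ker hρ h0)
  have hcf := cE_chi hρ h0 ho hs h1 hf
  have hcg := cE_chi hρ h0 ho hs h1 hg
  have htf3 := fE_cube hρ ho hs h1 hf
  have htg3 := fE_cube hρ ho hs h1 hg
  have htf0 : fE ρ s f ≠ 0 := by
    intro h
    rw [h] at htf3
    norm_num at htf3
  have htg0 : fE ρ s g ≠ 0 := by
    intro h
    rw [h] at htg3
    norm_num at htg3
  have hftg : f (fE ρ s g) = fE ρ s g := by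
    rw [← hcg]
    rcases CUD.chi_cases o (toV hρ (rfl : 2 * ρ = 2 * ρ) (cE hρ h0 o s g)) with h | h | h
    · rw [h, map_one]
    · rw [h, hf.fo]
    · rw [h, map_pow, hf.fo]
  have hinv : CUD.chi o (-(toV hρ (rfl : 2 * ρ = 2 * ρ) (cE hρ h0 o s g))) = (fE ρ s g)⁻¹ := by
    have h2 := CUD.chi_add h0 ho _ _ hkg (CUD.ker_neg _ hkg)
    rw [add_neg_cancel, CUD.chi_zero, hcg] at h2
    rw [eq_inv_of_mul_eq_one_right h2.symm]
  rcases e8b_sgn hρ hf with hfr | hfr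
  · rw [kerE_fix hρ f hf.fd hfr (cE_ker hρ h0)]
    refine cE_unique hρ h0 ho ((toV_ker hρ rfl _).1 ?_) ?_
    · rw [map_add]
      exact CUD.ker_add h0 _ _ hkf hkg
    · rw [map_add, CUD.chi_add h0 ho _ _ hkf hkg, hcf, hcg]
      rcases e8b_sgn hρ hg with hgr | hgr
      · have e1 : (f.comp g) ρ = ρ := by rw [RingHom.comp_apply, hgr, hfr]
        have e2 : (f.comp g) s = fE ρ s g * (fE ρ s f * s) := by
          rw [RingHom.comp_apply, e8b_pos hs0 hgr, map_mul, hftg, ← e8b_pos hs0 hfr]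
        have e3 : fE ρ s (f.comp g) = (f.comp g) s / s := if_pos e1
        rw [e3, e2]
        field_simp
      · have e0 : ¬ g ρ = ρ := by rw [hgr]; exact hne
        have e1 : ¬ (f.comp g) ρ = ρ := by
          rw [RingHom.comp_apply, hgr, map_neg, hfr]
          exact hne
        have e2 : (f.comp g) s = (fE ρ s g)⁻¹ * (fE ρ s f * s)⁻¹ := by
          rw [RingHom.comp_apply, e8b_neg hs0 e0, map_mul, map_inv₀, map_inv₀, hftg, ← e8b_pos hs0 hfr]
        have e3 : fE ρ s (f.comp g) = ((f.comp g) s * s)⁻¹ := if_neg e1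
        rw [e3, e2]
        field_simp
  · have e00 : ¬ f ρ = ρ := by rw [hfr]; exact hne
    rw [kerE_neg hρ f hf.fd hfr (cE_ker hρ h0)]
    refine cE_unique hρ h0 ho ((toV_ker hρ rfl _).1 ?_) ?_
    · rw [map_add, map_neg]
      exact CUD.ker_add h0 _ _ hkf (CUD.ker_neg _ hkg)
    · rw [map_add, map_neg, CUD.chi_add h0 ho _ _ hkf (CUD.ker_neg _ hkg), hcf, hinv]
      rcases e8b_sgn hρ hg with hgr | hgr
      · have e1 : ¬ (f.comp g) ρ = ρ := by
          rw [RingHom.comp_apply, hgr, hfr]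
          exact hne
        have e2 : (f.comp g) s = fE ρ s g * ((fE ρ s f)⁻¹ * s⁻¹) := by
          rw [RingHom.comp_apply, e8b_pos hs0 hgr, map_mul, hftg, ← e8b_neg hs0 e00]
        have e3 : fE ρ s (f.comp g) = ((f.comp g) s * s)⁻¹ := if_neg e1
        rw [e3, e2]
        field_simp
      · have e0 : ¬ g ρ = ρ := by rw [hgr]; exact hne
        have e1 : (f.comp g) ρ = ρ := by rw [RingHom.comp_apply, hgr, map_neg, hfr, neg_neg]
        have e2 : (f.comp g) s = (fE ρ s g)⁻¹ * ((fE ρ s f)⁻¹ * s⁻¹)⁻¹ := by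
          rw [RingHom.comp_apply, e8b_neg hs0 e0, map_mul, map_inv₀, map_inv₀, hftg, ← e8b_neg hs0 e00]
        have e3 : fE ρ s (f.comp g) = (f.comp g) s / s := if_pos e1
        rw [e3, e2]
        field_simp

end

/-- [E8c] -/
theorem coc_cE {K L : Type} [Field K] [CharZero K] [Field L] [CharZero L] [Algebra K L] [Algebra.IsAlgebraic K L]
    {d o u y : K} {ρ s : L} (hρ : ρ ^ 2 = algebraMap K L d) (h0 : 2 * ρ ≠ 0) (ho : o ^ 2 + o + 1 = 0)
    (hs : s ^ 3 = algebraMap K L u + algebraMap K L y * ρ) (h1 : u ^ 2 - y ^ 2 * d = 1) :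
    Coc K L d (fun σ => cE hρ h0 (algebraMap K L o) s (σ : L →+* L)) := by
  have h1' : algebraMap K L u ^ 2 - algebraMap K L y ^ 2 * algebraMap K L d = 1 := by
    rw [← map_pow, ← map_pow, ← map_mul, ← map_sub, h1, map_one]
  have hFx : ∀ σ : L ≃ₐ[K] L, Fx (algebraMap K L d) (algebraMap K L o) (algebraMap K L u)
      (algebraMap K L y) (σ : L →+* L) := fun σ =>
    ⟨gal_comm σ d, gal_comm σ o, gal_comm σ u, gal_comm σ y⟩
  refine ⟨?_, ?_⟩
  · exact ((CM27.fin_loc_apply (F := K) ρ).prodMk (CM27.fin_loc_apply (F := K) s)).comp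
      (fun p : L × L => (toV hρ (rfl : 2 * ρ = 2 * ρ)).symm (CUD.kcp h0 (algebraMap K L o) 1
        (if p.1 = ρ then p.2 / s else (p.2 * s)⁻¹)))
  · intro σ τ
    exact cE_comp hρ h0 (am_o ho) hs h1' (hFx τ) (hFx σ)

end JD
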