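import Pool.Agent.JD.E8
import Pool.Agent.JD.E3

/-!
# [JD-E9] a class which comes from a point gives a principal crossed homomorphism

`k` a field of characteristic 0, `M` its algebraic closure.

PROOF. `principal_of_fix` [E9a]: if all `σ` fix `ρ`: `T = 0`. Otherwise `τ₀` with `τ₀ ρ ≠ ρ`, so `τ₀ ρ = -ρ` (`ρ² = algebraMap d`). `T = c τ₀` (in the kernel). `σ ρ = ρ`: `c σ = 0`, `ptE σ T = T` (`kerE_fix`, N2). `σ ρ = -ρ`: `σ = τ₀ (τ₀⁻¹ σ)`, `(τ₀⁻¹ σ) ρ = ρ`, so `c σ = c τ₀ + ptE τ₀ 0 = T`;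
`ptE σ T - T = -T - T = T` (`kerE_neg`, `kerE_of_phi`: `3 • T = 0`).
`fix_adjoin` [E9a]: the elements fixed by `σ` are an intermediate field which contains `ρ`: e.g. `IntermediateField.adjoin_induction`, or `IntermediateField.adjoin_le_iff` for `IntermediateField.fixedField (Subgroup.zpowers σ)`.
`point_class` [E9b]: `P = (x, y')` in `ED (algebraMap d)` over `M` (`ED_nonsingular`), `Q` with `phiE Q = P` (`phiE_surj`). For every `σ`: `phiE (ptE σ Q - Q) = ptE σ P - P = 0` (`phiE_ptE`, the coordinates of `P` are in `k`), so `KerE (ptE σ Q - Q)` (`phiE_eq_zero`).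
 `Q' = toV hρ rfl Q` in `W3 (2 ρ)`: `CUD.phi Q' = toV P = (x, y' - ρ)` (`toV_phiE`, `toV_some`, N2), `y' - ρ ≠ 0`. `R = CUD.rho o Q' ≠ 0`: otherwise (`CUD.rho_zero_cases`, CU/C4) `Ker Q'`, so `phi Q' = 0`, or `phi Q' = T0 = (0, 0)`: both contradict `y' - ρ ≠ 0`. `CUD.phi_rho`: `y' - ρ = (R / (1 - o))³`.
 (Model: the proof of `CUD.a2_pt` in CUE/A2.lean.) Let `σ ρ = ρ`: `σ g = g` (`fix_adjoin`). `ptE σ Q = Q + T`, `T = ptE σ Q - Q`: `toV_ptE` (for `σ`, `σ ρ = ρ`), `CUD.rho_ptW`, `CUD.rho_add`: `σ R = chi (toV T) R`. `s³ = algebraMap u + algebraMap y ρ =: α`, `(R/(1 - o))³ = α g³ = (s g)³`, so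
 `R = ζ (1 - o) s g` with `ζ³ = 1`, `ζ ∈ {1, o, o²}` fixed by `σ`, so `σ s = chi (toV T) s`, `fE ρ s σ = σ s / s = chi (toV T)`, and `cE_unique` (E8): `cE .. σ = T`.
`exists_QE` [E9c]: `subst hdd`. `c σ = cE .. σ`. First alternative of `LocSol`: `g³ = α = s³`, `g ∈ k(ρ)`: for `σ ρ = ρ`: `σ g = g`, `s = ζ g`, `σ s = s`, `fE = 1`, `cE = 0` (`cE_unique`, `CUD.chi_zero`, `toV_zero`); `principal_of_fix` (crossed: `cE_comp` (E8), `Fx` from `σ.commutes`; kernel: `cE_ker`).
 Second alternative: `Q` of `point_class`; `c' σ = cE .. σ - (ptE σ Q - Q)` is crossed (as in `Coc.sub`, N1), has values in the kernel (`p`: `phiE_sub`/`phiE_eq_zero`) and vanishes on `σ ρ = ρ`: `principal_of_fix` gives `T`; `Q + T` is the point. Finally `f = (σ : M →+* M)` (`RingHom.ext`), `ptE_congr` (as at the end of `CUD.exists_Q`).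
-/

set_option autoImplicit false

open NumberField IsDedekindDomain
open scoped Classical

namespace JD

open CM27 CF JZ
open CU (la om eE W3)
open CUD (gal_comm alg_comm tau_comm am_ne am_o)

section
variable {k M : Type} [Field k] [CharZero k] [Field M] [CharZero M] [Algebra k M] {d o u y : k} {ρ s : M}

/-- [E9a] -/
theorem principal_of_fix (hd : d ≠ 0) (ho : o ^ 2 + o + 1 = 0) (hρ : ρ ^ 2 = algebraMap k M d)
    (c : (M ≃ₐ[k] M) → (ED (algebraMap k M d)).toAffine.Point)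
    (hc : ∀ σ τ : M ≃ₐ[k] M, c (σ * τ) = c σ + ptE (σ : M →+* M) (gal_comm σ d) (c τ)) (hK : ∀ σ, KerE (c σ))
    (h : ∀ σ : M ≃ₐ[k] M, σ ρ = ρ → c σ = 0) :
    ∃ T : (ED (algebraMap k M d)).toAffine.Point, KerE T ∧
      ∀ σ : M ≃ₐ[k] M, c σ = ptE (σ : M →+* M) (gal_comm σ d) T - T := by
  have hd' : algebraMap k M d ≠ 0 := by
    intro h0
    exact hd ((algebraMap k M).injective (by rw [h0, map_zero]))
  have ho' : (algebraMap k M o) ^ 2 + algebraMap k M o + 1 = 0 := by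
    have := congrArg (algebraMap k M) ho
    rwa [map_add, map_add, map_pow, map_one, map_zero] at this
  have hcase : ∀ σ : M ≃ₐ[k] M, σ ρ = ρ ∨ σ ρ = -ρ := by
    intro σ
    apply sq_eq_sq_iff_eq_or_eq_neg.mp
    rw [← map_pow, hρ, AlgEquiv.commutes]
  by_cases hall : ∀ σ : M ≃ₐ[k] M, σ ρ = ρ
  · refine ⟨0, kerE_zero, ?_⟩
    intro σ
    rw [h σ (hall σ), ptE_zero, sub_zero]
  · push Not at hall
    obtain ⟨τ, hτ⟩ := hall
    have hτ' : τ ρ = -ρ := (hcase τ).resolve_left hτ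
    have hK0 := hK τ
    refine ⟨c τ, hK0, ?_⟩
    intro σ
    rcases hcase σ with hσ | hσ
    · rw [h σ hσ, kerE_fix hρ (σ : M →+* M) (gal_comm σ d) hσ hK0, sub_self]
    · have h1 : (τ⁻¹ * σ) ρ = ρ := by
        rw [AlgEquiv.mul_apply, hσ, ← hτ', ← AlgEquiv.mul_apply, inv_mul_cancel, AlgEquiv.one_apply]
      have h2 := hc τ (τ⁻¹ * σ)
      rw [h _ h1, ptE_zero, add_zero, mul_inv_cancel_left] at h2
      rw [h2, kerE_neg hρ (σ : M →+* M) (gal_comm σ d) hσ hK0]
      have h3 := kerE_of_phi hd' ho' hK0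
      have h4 : c τ + c τ + c τ = 0 := by
        rw [← h3]
        abel
      rw [eq_comm, ← sub_eq_zero]
      rw [show -c τ - c τ - c τ = -(c τ + c τ + c τ) by abel, h4, neg_zero]

/-- [E9a] -/
theorem fix_adjoin {g : M} (hg : g ∈ IntermediateField.adjoin k {ρ}) (σ : M ≃ₐ[k] M) (h : σ ρ = ρ) : σ g = g := by
  induction hg using IntermediateField.adjoin_induction with
  | mem x hx =>
    rw [Set.mem_singleton_iff.mp hx]
    exact h
  | algebraMap x => exact σ.commutes x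
  | add x y _ _ hx hy => rw [map_add, hx, hy]
  | inv x _ hx => rw [map_inv₀, hx]
  | mul x y _ _ hx hy => rw [map_mul, hx, hy]

/-- [E9b] -/
theorem point_class [IsAlgClosure k M] (hd : d ≠ 0) (ho : o ^ 2 + o + 1 = 0) (hρ : ρ ^ 2 = algebraMap k M d) (h0 : 2 * ρ ≠ 0)
    (hs : s ^ 3 = algebraMap k M u + algebraMap k M y * ρ) (h1 : u ^ 2 - y ^ 2 * d = 1)
    {x' y' : k} {g : M} (hg : g ∈ IntermediateField.adjoin k {ρ}) (hg0 : g ≠ 0) (he : y' ^ 2 = x' ^ 3 + d)
    (hne : algebraMap k M y' - ρ ≠ 0)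
    (hyg : algebraMap k M y' - ρ = (algebraMap k M u + algebraMap k M y * ρ) * g ^ 3) :
    ∃ Q : (ED (algebraMap k M d)).toAffine.Point,
      (∀ σ : M ≃ₐ[k] M, KerE (ptE (σ : M →+* M) (gal_comm σ d) Q - Q)) ∧
      ∀ σ : M ≃ₐ[k] M, σ ρ = ρ →
        cE hρ h0 (algebraMap k M o) s (σ : M →+* M) = ptE (σ : M →+* M) (gal_comm σ d) Q - Q := by
  have hac : IsAlgClosed M := IsAlgClosure.isAlgClosed k
  have hd' : algebraMap k M d ≠ 0 := am_ne hd
  have ho' : algebraMap k M o ^ 2 + algebraMap k M o + 1 = 0 := am_o ho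
  have ho3 : algebraMap k M o ^ 3 = 1 := by linear_combination (algebraMap k M o - 1) * ho'
  have hns : (ED (algebraMap k M d)).toAffine.Nonsingular (algebraMap k M x') (algebraMap k M y') := by
    rw [ED_nonsingular two_ne_zero three_ne_zero hd', ← map_pow, ← map_pow, ← map_add, he]
  obtain ⟨Q, hQ⟩ := phiE_surj hd' ho' (.some _ _ hns)
  have hTK : ∀ σ : M ≃ₐ[k] M, KerE (ptE (σ : M →+* M) (gal_comm σ d) Q - Q) := by
    intro σ
    rw [← phiE_eq_zero hd' ho', phiE_sub, phiE_ptE ho' (σ : M →+* M) (gal_comm σ d) ho' (gal_comm σ o), hQ,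
      sub_eq_zero]
    simp only [ptE]
    rw [WeierstrassCurve.Affine.Point.some.injEq]
    exact ⟨gal_comm σ x', gal_comm σ y'⟩
  refine ⟨Q, hTK, fun σ hσ => ?_⟩
  have hphi : CUD.phi ho' (toV hρ (rfl : 2 * ρ = 2 * ρ) Q) = toV hρ (rfl : 2 * ρ = 2 * ρ) (.some _ _ hns) := by
    rw [← toV_phiE, hQ]
  obtain ⟨h2, e2⟩ := toV_some hρ (rfl : 2 * ρ = 2 * ρ) _ _ hns
  rw [e2] at hphi
  have hT0 : CUD.T0 h0 = .some 0 0 ((CUD.W3_nonsingular h0 0 0).2 (by ring)) := rfl
  have hrho : CUD.rho (algebraMap k M o) (toV hρ (rfl : 2 * ρ = 2 * ρ) Q) ≠ 0 := by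
    intro hr
    rcases CUD.rho_zero_cases h0 ho' _ hr with h3 | ⟨-, h3⟩
    · rw [(CUD.phi_eq_zero h0 ho' _).2 h3] at hphi
      cases hphi
    · rw [hphi, hT0, WeierstrassCurve.Affine.Point.some.injEq] at h3
      exact hne h3.2
  obtain ⟨X, h', h3⟩ := CUD.phi_rho h0 ho' _ hrho
  rw [hphi, WeierstrassCurve.Affine.Point.some.injEq] at h3
  have ho1 : 1 - algebraMap k M o ≠ 0 := CUD.one_sub_o_ne ho'
  have hs0 : s ≠ 0 := by
    intro hs0
    rw [hs0] at hs
    have h4 : algebraMap k M u + algebraMap k M y * ρ = 0 := by rw [← hs]; ring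
    rw [h4, zero_mul] at hyg
    exact hne hyg
  have hss : (σ : M →+* M) (2 * ρ) = 2 * ρ := by
    rw [map_mul, map_ofNat]
    exact congrArg (fun t => 2 * t) hσ
  have hσR : σ (CUD.rho (algebraMap k M o) (toV hρ (rfl : 2 * ρ = 2 * ρ) Q)) =
      CUD.chi (algebraMap k M o)
        (toV hρ (rfl : 2 * ρ = 2 * ρ) (ptE (σ : M →+* M) (gal_comm σ d) Q - Q)) *
      CUD.rho (algebraMap k M o) (toV hρ (rfl : 2 * ρ = 2 * ρ) Q) := by
    have h5 := CUD.rho_ptW (σ : M →+* M) hss (gal_comm σ o) (toV hρ (rfl : 2 * ρ = 2 * ρ) Q)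
    rw [← toV_ptE hρ rfl (σ : M →+* M) (gal_comm σ d) hρ rfl hσ hss Q] at h5
    have h6 : ptE (σ : M →+* M) (gal_comm σ d) Q =
        Q + (ptE (σ : M →+* M) (gal_comm σ d) Q - Q) := by
      abel
    rw [h6, map_add, CUD.rho_add h0 ho' _ _ ((toV_ker hρ rfl _).2 (hTK σ))] at h5
    exact h5.symm
  have hT := hTK σ
  refine cE_unique hρ h0 ho' hT ?_
  have e3 : fE ρ s (σ : M →+* M) = σ s / s := if_pos hσ
  rw [e3, eq_div_iff hs0]
  have hgσ : σ g = g := fix_adjoin hg σ hσ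
  generalize CUD.chi (algebraMap k M o) (toV hρ (rfl : 2 * ρ = 2 * ρ)
    (ptE (σ : M →+* M) (gal_comm σ d) Q - Q)) = χ at hσR ⊢
  generalize CUD.rho (algebraMap k M o) (toV hρ (rfl : 2 * ρ = 2 * ρ) Q) = R at hσR hrho h3
  have hR3 : R ^ 3 = ((1 - algebraMap k M o) * (s * g)) ^ 3 := by
    have h4 := h3.2
    rw [hyg, ← hs, div_pow, eq_div_iff (pow_ne_zero 3 ho1)] at h4
    linear_combination -h4
  have hz0 : (1 - algebraMap k M o) * (s * g) ≠ 0 := mul_ne_zero ho1 (mul_ne_zero hs0 hg0)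
  have hw : ∃ w : M, σ w = w ∧ w ≠ 0 ∧ R = w * ((1 - algebraMap k M o) * (s * g)) := by
    set z := (1 - algebraMap k M o) * (s * g) with hz
    have h7 : (R - z) * ((R - algebraMap k M o * z) * (R - algebraMap k M o ^ 2 * z)) = 0 := by
      linear_combination hR3 - (R ^ 2 * z - algebraMap k M o * R * z ^ 2) * ho' - z ^ 3 * ho3
    have hoo : algebraMap k M o ≠ 0 := by
      intro h8
      rw [h8] at ho3
      norm_num at ho3
    rcases mul_eq_zero.1 h7 with h8 | h8
    · exact ⟨1, map_one σ, one_ne_zero, by rw [one_mul]; exact sub_eq_zero.1 h8⟩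
    · rcases mul_eq_zero.1 h8 with h9 | h9
      · exact ⟨algebraMap k M o, σ.commutes o, hoo, sub_eq_zero.1 h9⟩
      · exact ⟨algebraMap k M o ^ 2, by rw [map_pow, σ.commutes], pow_ne_zero 2 hoo, sub_eq_zero.1 h9⟩
  obtain ⟨w, hσw, hw0, hRw⟩ := hw
  have h10 : σ R = w * ((1 - algebraMap k M o) * (σ s * g)) := by
    rw [hRw, map_mul, map_mul, map_mul, map_sub, map_one, σ.commutes, hσw, hgσ]
  rw [hσR, hRw] at h10
  have h11 : (w * (1 - algebraMap k M o) * g) ≠ 0 := mul_ne_zero (mul_ne_zero hw0 ho1) hg0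
  apply mul_left_cancel₀ h11
  linear_combination h10

/-- [E9c] -/
theorem exists_QE [IsAlgClosure k M] {d' : M} (hdd : algebraMap k M d = d') (hd : d ≠ 0) (ho : o ^ 2 + o + 1 = 0)
    (hρ : ρ ^ 2 = d') (h0 : 2 * ρ ≠ 0) (hs : s ^ 3 = algebraMap k M u + algebraMap k M y * ρ)
    (h1 : u ^ 2 - y ^ 2 * d = 1) (h : LocSol d ρ (algebraMap k M u + algebraMap k M y * ρ)) :
    ∃ Q : (ED d').toAffine.Point, ∀ (σ : M ≃ₐ[k] M) (f : M →+* M) (_ : ∀ x, f x = σ x) (hf : f d' = d'),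
      cE hρ h0 (algebraMap k M o) s f = ptE f hf Q - Q := by
  subst hdd
  have hdM : algebraMap k M d ≠ 0 := am_ne hd
  have hoM : algebraMap k M o ^ 2 + algebraMap k M o + 1 = 0 := am_o ho
  have h1M : algebraMap k M u ^ 2 - algebraMap k M y ^ 2 * algebraMap k M d = 1 := by
    have := congrArg (algebraMap k M) h1
    simpa only [map_sub, map_mul, map_pow, map_one] using this
  have hFx : ∀ σ : M ≃ₐ[k] M, Fx (algebraMap k M d) (algebraMap k M o) (algebraMap k M u)
      (algebraMap k M y) (σ : M →+* M) :=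
    fun σ => ⟨gal_comm σ d, gal_comm σ o, gal_comm σ u, gal_comm σ y⟩
  have hcr : ∀ σ τ : M ≃ₐ[k] M,
      cE hρ h0 (algebraMap k M o) s ((σ * τ : M ≃ₐ[k] M) : M →+* M) =
        cE hρ h0 (algebraMap k M o) s (σ : M →+* M) +
          ptE (σ : M →+* M) (gal_comm σ d) (cE hρ h0 (algebraMap k M o) s (τ : M →+* M)) := by
    intro σ τ
    exact cE_comp hρ h0 hoM hs h1M (hFx τ) (hFx σ)
  have key : ∃ Q : (ED (algebraMap k M d)).toAffine.Point, ∀ σ : M ≃ₐ[k] M,
      cE hρ h0 (algebraMap k M o) s (σ : M →+* M) =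
        ptE (σ : M →+* M) (gal_comm σ d) Q - Q := by
    rcases h with ⟨g, hg, hgs⟩ | ⟨x', y', g, hg, hg0, he, hne, hyg⟩
    · obtain ⟨T, -, hT⟩ := principal_of_fix hd ho hρ
        (fun σ : M ≃ₐ[k] M => cE hρ h0 (algebraMap k M o) s (σ : M →+* M)) hcr
        (fun σ => cE_ker hρ h0) (by
          intro σ hσ
          have hσg : σ g = g := fix_adjoin hg σ hσ
          have hs0 : s ≠ 0 := by
            rintro rfl
            have h2 : (algebraMap k M u + algebraMap k M y * ρ) *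
                (algebraMap k M u - algebraMap k M y * ρ) = 1 := by
              linear_combination h1M - algebraMap k M y ^ 2 * hρ
            rw [← hs, zero_pow (by norm_num), zero_mul] at h2
            exact zero_ne_one h2
          have hg0 : g ≠ 0 := by
            rintro rfl
            rw [← hgs, zero_pow (by norm_num)] at hs
            exact hs0 (pow_eq_zero_iff (by norm_num) |>.1 hs)
          have hζ : (s / g) ^ 3 = 1 := by
            rw [div_pow, hs, hgs, div_self]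
            rw [← hgs]
            exact pow_ne_zero 3 hg0
          have hz : (s / g - 1) * (s / g - algebraMap k M o) *
              (s / g - algebraMap k M o ^ 2) = 0 := by
            linear_combination hζ + (-(s / g) ^ 2 + (s / g) * algebraMap k M o -
              (algebraMap k M o - 1)) * hoM
          have hσz : σ (s / g) = s / g := by
            rcases mul_eq_zero.1 hz with h3 | h3
            · rcases mul_eq_zero.1 h3 with h3 | h3
              · rw [sub_eq_zero.1 h3, map_one]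
              · rw [sub_eq_zero.1 h3, σ.commutes]
            · rw [sub_eq_zero.1 h3, map_pow, σ.commutes]
          have hσs : σ s = s := by
            rw [map_div₀, hσg] at hσz
            have h3 := congrArg (fun z => z * g) hσz
            simp only [div_mul_cancel₀ _ hg0] at h3
            exact h3
          refine cE_unique hρ h0 hoM (T := 0) trivial ?_
          rw [map_zero, CUD.chi_zero]
          have hσρ : (σ : M →+* M) ρ = ρ := hσ
          have hσs' : (σ : M →+* M) s = s := hσs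
          rw [fE, if_pos hσρ, hσs', div_self hs0])
      exact ⟨T, hT⟩
    · obtain ⟨Q, hQ1, hQ2⟩ := point_class hd ho hρ h0 hs h1 hg hg0 he hne hyg
      obtain ⟨T, -, hT⟩ := principal_of_fix hd ho hρ
        (fun σ : M ≃ₐ[k] M => cE hρ h0 (algebraMap k M o) s (σ : M →+* M) -
          (ptE (σ : M →+* M) (gal_comm σ d) Q - Q))
        (by
          intro σ τ
          show cE hρ h0 (algebraMap k M o) s ((σ * τ : M ≃ₐ[k] M) : M →+* M) -
              (ptE ((σ * τ : M ≃ₐ[k] M) : M →+* M) (gal_comm (σ * τ) d) Q - Q) =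
            cE hρ h0 (algebraMap k M o) s (σ : M →+* M) -
              (ptE (σ : M →+* M) (gal_comm σ d) Q - Q) +
              ptE (σ : M →+* M) (gal_comm σ d)
                (cE hρ h0 (algebraMap k M o) s (τ : M →+* M) -
                  (ptE (τ : M →+* M) (gal_comm τ d) Q - Q))
          rw [hcr σ τ, n1_comp, ptE_sub, ptE_sub]
          abel)
        (by
          intro σ
          have h2 : phiE hoM (cE hρ h0 (algebraMap k M o) s (σ : M →+* M)) = 0 :=
            (phiE_eq_zero hdM hoM _).2 (cE_ker hρ h0)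
          have h3 : phiE hoM (ptE (σ : M →+* M) (gal_comm σ d) Q - Q) = 0 :=
            (phiE_eq_zero hdM hoM _).2 (hQ1 σ)
          rw [← phiE_eq_zero hdM hoM, phiE_sub, h2, h3, sub_zero])
        (by
          intro σ hσ
          show cE hρ h0 (algebraMap k M o) s (σ : M →+* M) -
              (ptE (σ : M →+* M) (gal_comm σ d) Q - Q) = 0
          rw [hQ2 σ hσ, sub_self])
      refine ⟨T + Q, fun σ => ?_⟩
      have h2 : cE hρ h0 (algebraMap k M o) s (σ : M →+* M) -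
          (ptE (σ : M →+* M) (gal_comm σ d) Q - Q) =
            ptE (σ : M →+* M) (gal_comm σ d) T - T := hT σ
      rw [sub_eq_iff_eq_add.1 h2, ptE_add]
      abel
  obtain ⟨Q, hQ⟩ := key
  refine ⟨Q, fun σ f hf hfd => ?_⟩
  have h2 : f = (σ : M →+* M) := RingHom.ext hf
  subst h2
  exact hQ σ

end

end JD
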