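import Pool.Agent.JD.Q2

/-!
# [JD-F1] the lattice `{x : x³ / α integral}`

PROOF. `inM_mul`: `t = x y z / α` satisfies `t³ = (x³/α)(y³/α)(z³/α)`, integral, so `t` is integral (`IsIntegral.of_pow`). `inM_add`: `(x + y)³/α = x³/α + 3 (x x y/α) + 3 (x y y/α) + y³/α`. `inM_smul`: `(c x)³/α = c³ (x³/α)`.
`inM_tau`: `(x τ y)³ = (x³/α) (τ (y³/α)) (α τ α)`, integral. `inM_div`: if `InM α (s / jF F la)`-type statements are needed use the definition.
`exists_basis`: `M = {x : InM α x}` is a `𝓞 KK`-submodule of `F` (`inM_add`, `inM_smul`). There is `d : Eis`, `d ≠ 0`, with `jF d * α` integral and `jF d * α⁻¹` integral (every element of the number field `F` times a nonzero integer is integral: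
`exists_integer_multiple`-type lemma / `IsAlgebraic`). If `x ∈ M` then `(d x)³ = d² (d α) (x³/α)` is integral, `d x` is integral: `M ⊆ d⁻¹ 𝓞 F`, a finitely generated `𝓞 KK`-module (`𝓞 F` is finite over `𝓞 KK`; or: `exists_int`, it is generated by `d⁻¹` and `d⁻¹ r`), so `M` is
finitely generated over the principal ideal domain `𝓞 KK ≃ Eis`; it is torsion free, so free. Its rank is 2: `M` contains `d 𝓞 F` (`(d x)³/α = d² x³ (d α⁻¹)`), that is `d` and `d r`, linearly independent over `KK`, and `M ⊆ F` with `finrank KK F = 2` (elements of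
`F` linearly independent over `𝓞 KK` are linearly independent over `KK`). A basis of two elements gives `e₁, e₂`.
(Alternative without modules: Hermite normal form: `M ⊆ d⁻¹(O + O r)`; choose `e₁ = a₁ / d ∈ M ∩ KK` with `a₁` a generator of the ideal `{a : a/d ∈ M}` of `Eis` (not 0), and `e₂ = (b + a₂ r) / d ∈ M` with `a₂` a generator of the ideal
`{a₂ : ∃ b, (b + a₂ r)/d ∈ M}` (not 0); `Eis` is a PID.) This is short: recommended.
-/

set_option autoImplicit false

open NumberField IsDedekindDomain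
open scoped Classical

namespace JD

open CM27 CF JZ
open CU (la om eE)

/-- `x³ / α` is integral -/
def InM {F : Type} [Field F] (α x : F) : Prop := IsIntegral ℤ (x ^ 3 / α)

section
variable {D : Eis} {F : Type} [Field F] [NumberField F] [Algebra KK F] {r : F} {τ : F ≃ₐ[KK] F} {α : F}

theorem inM_mul (hα : α ≠ 0) {x y z : F} (hx : InM α x) (hy : InM α y) (hz : InM α z) :
    IsIntegral ℤ (x * y * z / α) := by
  refine IsIntegral.of_pow (n := 3) (by norm_num) ?_
  have e : (x * y * z / α) ^ 3 = x ^ 3 / α * (y ^ 3 / α) * (z ^ 3 / α) := by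
    field_simp
  rw [e]
  exact (hx.mul hy).mul hz

theorem inM_add (hα : α ≠ 0) {x y : F} (hx : InM α x) (hy : InM α y) : InM α (x + y) := by
  have h1 := inM_mul hα hx hx hy
  have h2 := inM_mul hα hx hy hy
  have e : (x + y) ^ 3 / α = x ^ 3 / α + (x * x * y / α + (x * x * y / α + x * x * y / α)) +
      (x * y * y / α + (x * y * y / α + x * y * y / α)) + y ^ 3 / α := by
    field_simp
    ring
  unfold InM
  rw [e]
  exact ((hx.add (h1.add (h1.add h1))).add (h2.add (h2.add h2))).add hy

theorem inM_smul {c x : F} (hc : IsIntegral ℤ c) (hx : InM α x) : InM α (c * x) := by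
  have e : (c * x) ^ 3 / α = c ^ 3 * (x ^ 3 / α) := by
    rw [mul_pow, mul_div_assoc]
  unfold InM
  rw [e]
  exact (hc.pow 3).mul hx

theorem inM_tau (hα : α * τ α = 1) {x y : F} (hx : InM α x) (hy : InM α y) : IsIntegral ℤ (x * τ y) := by
  refine IsIntegral.of_pow (n := 3) (by norm_num) ?_
  have hα0 : α ≠ 0 := by
    rintro rfl
    rw [zero_mul] at hα
    exact zero_ne_one hα
  have e : (x * τ y) ^ 3 = x ^ 3 / α * τ (y ^ 3 / α) := by
    have h1 : y ^ 3 = y ^ 3 / α * α := by field_simp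
    have h2 : x ^ 3 = x ^ 3 / α * α := by field_simp
    have h3 : (τ y) ^ 3 = τ (y ^ 3 / α) * τ α := by
      rw [← map_pow, ← map_mul, ← h1]
    calc (x * τ y) ^ 3 = x ^ 3 * (τ y) ^ 3 := by rw [mul_pow]
      _ = (x ^ 3 / α * α) * (τ (y ^ 3 / α) * τ α) := by rw [h3, ← h2]
      _ = x ^ 3 / α * τ (y ^ 3 / α) * (α * τ α) := by ring
      _ = x ^ 3 / α * τ (y ^ 3 / α) := by rw [hα, mul_one]
  rw [e]
  exact hx.mul (IsIntegral.map (τ.toRingEquiv.toRingHom.toIntAlgHom) hy)

/-- the first coefficients of the elements of `M ∩ KK` -/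
def f1b_I (hα : α ≠ 0) (d : Eis) (hd : jF F d ≠ 0) : Ideal Eis where
  carrier := {a | InM α (jF F a / jF F d)}
  add_mem' := by
    intro a b ha hb
    have h := inM_add hα ha hb
    rwa [← add_div, ← map_add] at h
  zero_mem' := by
    show InM α (jF F 0 / jF F d)
    unfold InM
    rw [map_zero, zero_div, zero_pow three_ne_zero, zero_div]
    exact isIntegral_zero
  smul_mem' := by
    intro c a ha
    have h := inM_smul (int_jF F c) ha
    rwa [← mul_div_assoc, ← map_mul] at h

/-- the second coefficients of the elements of `M` -/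
def f1b_J (r : F) (hα : α ≠ 0) (d : Eis) (hd : jF F d ≠ 0) : Ideal Eis where
  carrier := {b | ∃ a : Eis, InM α ((jF F a + jF F b * r) / jF F d)}
  add_mem' := by
    rintro b b' ⟨a, ha⟩ ⟨a', ha'⟩
    refine ⟨a + a', ?_⟩
    have h := inM_add hα ha ha'
    rw [← add_div] at h
    rw [map_add, map_add]
    have e : jF F a + jF F a' + (jF F b + jF F b') * r = jF F a + jF F b * r + (jF F a' + jF F b' * r) := by
      ring
    rwa [e]
  zero_mem' := by
    refine ⟨0, ?_⟩
    unfold InM
    rw [map_zero, zero_mul, add_zero, zero_div, zero_pow three_ne_zero, zero_div]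
    exact isIntegral_zero
  smul_mem' := by
    rintro c b ⟨a, ha⟩
    refine ⟨c * a, ?_⟩
    have h := inM_smul (int_jF F c) ha
    rw [← mul_div_assoc] at h
    rw [smul_eq_mul, map_mul, map_mul]
    have e : jF F c * jF F a + jF F c * jF F b * r = jF F c * (jF F a + jF F b * r) := by ring
    rwa [e]

theorem f1b_d (α : F) : ∃ d : Eis, jF F d ≠ 0 ∧ IsIntegral ℤ (jF F d * α) ∧ IsIntegral ℤ (jF F d * α⁻¹) := by
  obtain ⟨y, hy, h⟩ := exists_integral_multiples ℤ ℚ ({α, α⁻¹} : Finset F)
  have h0 : jF F (y : Eis) = (y : F) := map_intCast _ y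
  refine ⟨(y : Eis), ?_, ?_, ?_⟩
  · rw [h0]
    exact_mod_cast hy
  · rw [h0, ← zsmul_eq_mul]
    exact h α (Finset.mem_insert_self _ _)
  · rw [h0, ← zsmul_eq_mul]
    exact h α⁻¹ (Finset.mem_insert_of_mem (Finset.mem_singleton_self _))

theorem exists_basis (hD : Cl D) (hQ : Quad D r τ) (hα : α ≠ 0) :
    ∃ e₁ e₂ : F, InM α e₁ ∧ InM α e₂ ∧ (∀ x, InM α x → ∃ m n : Eis, x = jF F m * e₁ + jF F n * e₂) ∧
      ∀ m n : Eis, jF F m * e₁ + jF F n * e₂ = 0 → m = 0 ∧ n = 0 := by
  obtain ⟨d, hd, hd1, hd2⟩ := f1b_d α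
  have hdd : d ≠ 0 := fun h => hd (by rw [h, map_zero])
  have hpid : IsPrincipalIdealRing Eis := eis_pid
  have hdom : IsDomain Eis := eis_isDomain
  obtain ⟨a₁, ha₁⟩ := (hpid.principal (f1b_I hα d hd)).principal
  obtain ⟨b₂, hb₂⟩ := (hpid.principal (f1b_J r hα d hd)).principal
  have hJ : b₂ ∈ f1b_J r hα d hd := by
    rw [hb₂]
    exact Submodule.mem_span_singleton_self b₂
  have hI : a₁ ∈ f1b_I hα d hd := by
    rw [ha₁]
    exact Submodule.mem_span_singleton_self a₁
  obtain ⟨a₂, ha₂⟩ := hJ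
  have ha₁0 : a₁ ≠ 0 := by
    intro h
    have h1 : d * d ∈ f1b_I hα d hd := by
      show InM α (jF F (d * d) / jF F d)
      rw [map_mul, mul_div_cancel_right₀ _ hd]
      unfold InM
      have e : jF F d ^ 3 / α = jF F (d ^ 2) * (jF F d * α⁻¹) := by
        rw [map_pow, div_eq_mul_inv]
        ring
      rw [e]
      exact (int_jF F _).mul hd2
    rw [ha₁, h, Submodule.span_singleton_eq_bot.2 rfl] at h1
    exact (mul_ne_zero hdd hdd) ((Submodule.mem_bot _).1 h1)
  have hb₂0 : b₂ ≠ 0 := by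
    intro h
    have h1 : d * d ∈ f1b_J r hα d hd := by
      refine ⟨0, ?_⟩
      have e0 : (jF F 0 + jF F (d * d) * r) / jF F d = jF F d * r := by
        rw [map_zero, zero_add, map_mul]
        field_simp
      rw [e0]
      unfold InM
      have e : (jF F d * r) ^ 3 / α = jF F (d ^ 2) * r ^ 3 * (jF F d * α⁻¹) := by
        rw [map_pow, div_eq_mul_inv]
        ring
      rw [e]
      exact ((int_jF F _).mul ((int_r hQ).pow 3)).mul hd2
    rw [hb₂, h, Submodule.span_singleton_eq_bot.2 rfl] at h1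
    exact (mul_ne_zero hdd hdd) ((Submodule.mem_bot _).1 h1)
  refine ⟨jF F a₁ / jF F d, (jF F a₂ + jF F b₂ * r) / jF F d, hI, ha₂, ?_, ?_⟩
  · intro x hx
    have hdx : IsIntegral ℤ (jF F d * x) := by
      refine IsIntegral.of_pow (n := 3) (by norm_num) ?_
      have e : (jF F d * x) ^ 3 = jF F (d ^ 2) * (jF F d * α) * (x ^ 3 / α) := by
        rw [map_pow]
        field_simp
      rw [e]
      exact ((int_jF F _).mul hd1).mul hx
    obtain ⟨a, b, hab⟩ := exists_int hD hQ hdx
    have hx' : x = (jF F a + jF F b * r) / jF F d := by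
      rw [← hab]
      field_simp
    have hbJ : b ∈ f1b_J r hα d hd := ⟨a, by rw [← hx']; exact hx⟩
    rw [hb₂] at hbJ
    obtain ⟨n, hn⟩ := Submodule.mem_span_singleton.1 hbJ
    rw [smul_eq_mul] at hn
    have haI : a - n * a₂ ∈ f1b_I hα d hd := by
      show InM α (jF F (a - n * a₂) / jF F d)
      have h1 := inM_add hα hx (inM_smul (int_jF F (-n)) ha₂)
      have e : x + jF F (-n) * ((jF F a₂ + jF F b₂ * r) / jF F d) = jF F (a - n * a₂) / jF F d := by
        rw [hx', ← hn, map_sub, map_mul, map_mul, map_neg]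
        field_simp
        ring
      rwa [e] at h1
    rw [ha₁] at haI
    obtain ⟨m, hm⟩ := Submodule.mem_span_singleton.1 haI
    rw [smul_eq_mul] at hm
    refine ⟨m, n, ?_⟩
    have ha : a = m * a₁ + n * a₂ := by
      rw [hm]
      ring
    rw [hx', ha, ← hn, map_add, map_mul, map_mul, map_mul]
    field_simp
    ring
  · intro m n h
    have h1 : jF F (m * a₁ + n * a₂) + jF F (n * b₂) * r = 0 := by
      have e : jF F m * (jF F a₁ / jF F d) + jF F n * ((jF F a₂ + jF F b₂ * r) / jF F d) =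
          (jF F (m * a₁ + n * a₂) + jF F (n * b₂) * r) / jF F d := by
        rw [map_add, map_mul, map_mul, map_mul]
        field_simp
        ring
      rw [e, div_eq_zero_iff] at h
      exact h.resolve_right hd
    obtain ⟨h2, h3⟩ := jr_inj hD hQ h1
    have hn : n = 0 := (mul_eq_zero.1 h3).resolve_right hb₂0
    rw [hn, zero_mul, add_zero] at h2
    exact ⟨(mul_eq_zero.1 h2).resolve_right ha₁0, hn⟩

end

end JD
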