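import Pool.Agent.JD.F1
import Pool.Agent.JD.Q3

/-!
# [JD-F2] `M · τ M` contains `1`

PROOF. `exists_val`: choose `x₀` with `w x₀ = g` (`HeightOneSpectrum.valuation_surjective`). `z = x₀³ / α` has `w z = 1`, so there are `n, d ∈ 𝓞 F`, `d ∉ w`, with `z d = n` (`HeightOneSpectrum.exists_primeCompl_mul_eq_of_integer`). `x = d x₀`:
`x³/α = d³ z = d² n` is integral, `w x = w x₀ = g` (`w d = 1`).
`exists_sum_one`: the elements `z ∈ 𝓞 F` which are finite sums `∑ x_i τ(y_i)` with `InM α (x_i)`, `InM α (y_i)` form an ideal `I` of `𝓞 F` (`inM_smul`, `inM_tau`; e.g. `I = Ideal.span {z | ∃ x y, InM α x ∧ InM α y ∧ z = x * τ y}`, and show by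
`Submodule.span_induction` that every element of the span is such a sum). Suppose `I ≠ ⊤`: `I ≤ w` for a maximal ideal `w` (nonzero because... if `I = ⊥` take any `w`; or note that `I` contains nonzero elements). `w α = g³`; `x` with `InM α x`, `w x = g` (`exists_val`); let
`w'` be the conjugate of `w` (`exists_cj`): `w' α = w (τ α) = g⁻³`, `y` with `InM α y`, `w' y = g⁻¹`; then `w (τ y) = w' y`... (`w' y = w (τ y)`), so `w (x * τ y) = 1`, but `x * τ y ∈ I ≤ w`: contradiction.
-/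

set_option autoImplicit false

open NumberField IsDedekindDomain
open scoped Classical

namespace JD

open CM27 CF JZ
open CU (la om eE)

section
variable {D : Eis} {F : Type} [Field F] [NumberField F] [Algebra KK F] {r : F} {τ : F ≃ₐ[KK] F} {α : F}

omit [Algebra KK F] in
theorem exists_val (hα : α ≠ 0) (w : HeightOneSpectrum (𝓞 F)) {g : WithZero (Multiplicative ℤ)}
    (h : w.valuation F α = g ^ 3) : ∃ x : F, InM α x ∧ w.valuation F x = g := by
  obtain ⟨x₀, hx₀⟩ := w.valuation_surjective F g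
  have hg3 : g ^ 3 ≠ 0 := by
    rw [← h]
    exact (Valuation.ne_zero_iff _).2 hα
  have hz : w.valuation F (x₀ ^ 3 / α) ≤ 1 := by
    rw [map_div₀, map_pow, hx₀, h, div_self hg3]
  obtain ⟨n, d, hd⟩ := HeightOneSpectrum.exists_primeCompl_mul_eq_of_integer w (x₀ ^ 3 / α) hz
  refine ⟨algebraMap (𝓞 F) F d * x₀, ?_, ?_⟩
  · have e : (algebraMap (𝓞 F) F d * x₀) ^ 3 / α = algebraMap (𝓞 F) F ((d : 𝓞 F) ^ 2 * n) := by
      rw [map_mul, map_pow, ← hd]
      ring
    unfold InM
    rw [e]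
    exact NumberField.RingOfIntegers.isIntegral_coe _
  · rw [map_mul, hx₀, (HeightOneSpectrum.valuation_eq_one_iff_notMem w).2 d.2, one_mul]

/-- finite sums of the products -/
def F2Sum (τ : F ≃ₐ[KK] F) (α z : F) : Prop :=
  ∃ (n : ℕ) (x y : ℕ → F), (∀ i ∈ Finset.range n, InM α (x i) ∧ InM α (y i)) ∧
    ∑ i ∈ Finset.range n, x i * τ (y i) = z

omit [NumberField F] in
theorem F2_sum_zero : F2Sum τ α 0 := ⟨0, fun _ => 0, fun _ => 0, by simp, by simp⟩

omit [NumberField F] in
theorem F2_sum_add {z z' : F} (h : F2Sum τ α z) (h' : F2Sum τ α z') : F2Sum τ α (z + z') := by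
  obtain ⟨n, x, y, hxy, rfl⟩ := h
  obtain ⟨m, x', y', hxy', rfl⟩ := h'
  refine ⟨n + m, fun i => if i < n then x i else x' (i - n), fun i => if i < n then y i else y' (i - n),
    ?_, ?_⟩
  · intro i hi
    rw [Finset.mem_range] at hi
    by_cases hin : i < n
    · simp only [hin, if_true]
      exact hxy i (Finset.mem_range.2 hin)
    · simp only [hin, if_false]
      exact hxy' (i - n) (Finset.mem_range.2 (by omega))
  · rw [Finset.sum_range_add]
    congr 1
    · apply Finset.sum_congr rfl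
      intro i hi
      have := Finset.mem_range.1 hi
      simp [this]
    · apply Finset.sum_congr rfl
      intro i _
      simp

theorem F2_sum_smul {z a : F} (ha : IsIntegral ℤ a) (h : F2Sum τ α z) : F2Sum τ α (a * z) := by
  obtain ⟨n, x, y, hxy, rfl⟩ := h
  refine ⟨n, fun i => a * x i, y, fun i hi => ⟨inM_smul ha (hxy i hi).1, (hxy i hi).2⟩, ?_⟩
  rw [Finset.mul_sum]
  exact Finset.sum_congr rfl (fun i _ => by ring)

theorem exists_sum_one (hα : α * τ α = 1)
    (h3 : ∀ w : HeightOneSpectrum (𝓞 F), ∃ g : WithZero (Multiplicative ℤ), w.valuation F α = g ^ 3) :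
    ∃ (s : Finset ℕ) (x y : ℕ → F), (∀ i ∈ s, InM α (x i) ∧ InM α (y i)) ∧ ∑ i ∈ s, x i * τ (y i) = 1 := by
  have hα0 : α ≠ 0 := left_ne_zero_of_mul_eq_one hα
  have hτα : τ α = α⁻¹ := eq_inv_of_mul_eq_one_right hα
  let I : Ideal (𝓞 F) := Ideal.span {z : 𝓞 F | ∃ x y : F, InM α x ∧ InM α y ∧ (z : F) = x * τ y}
  have hI : ∀ z ∈ I, F2Sum τ α (z : F) := by
    intro z hz
    induction hz using Submodule.span_induction with
    | mem z hz =>
      obtain ⟨x, y, hx, hy, e⟩ := hz
      refine ⟨1, fun _ => x, fun _ => y, fun _ _ => ⟨hx, hy⟩, ?_⟩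
      simp [e]
    | zero => simpa using F2_sum_zero
    | add a b _ _ iha ihb => simpa using F2_sum_add iha ihb
    | smul a b _ ih =>
      simpa using F2_sum_smul (NumberField.RingOfIntegers.isIntegral_coe a) ih
  have hT : I = ⊤ := by
    by_contra hne
    obtain ⟨m, hm, hIm⟩ := Ideal.exists_le_maximal I hne
    have hb : m ≠ ⊥ := Ring.ne_bot_of_isMaximal_of_not_isField hm (NumberField.RingOfIntegers.not_isField F)
    let w : HeightOneSpectrum (𝓞 F) := ⟨m, hm.isPrime, hb⟩
    obtain ⟨g, hg⟩ := h3 w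
    have hg0 : g ≠ 0 := by
      rintro rfl
      have : w.valuation F α ≠ 0 := (Valuation.ne_zero_iff _).2 hα0
      apply this
      rw [hg]
      simp
    obtain ⟨x, hx, hwx⟩ := exists_val hα0 w hg
    obtain ⟨w', hw'⟩ := exists_cj τ w
    have hg' : w'.valuation F α = g⁻¹ ^ 3 := by
      rw [hw', hτα, map_inv₀, hg, inv_pow]
    obtain ⟨y, hy, hwy⟩ := exists_val hα0 w' hg'
    have h1 : w.valuation F (x * τ y) = 1 := by
      rw [map_mul, ← hw' y, hwx, hwy, mul_inv_cancel₀ hg0]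
    have hint : IsIntegral ℤ (x * τ y) := inM_tau hα hx hy
    let z : 𝓞 F := ⟨x * τ y, hint⟩
    have hz : z ∈ I := Ideal.subset_span ⟨x, y, hx, hy, rfl⟩
    have hzm : z ∈ w.asIdeal := hIm hz
    have := (HeightOneSpectrum.valuation_lt_one_iff_mem (K := F) w z).2 hzm
    have e : w.valuation F (z : F) = 1 := h1
    exact absurd this (by rw [e]; exact lt_irrefl _)
  have h1 : (1 : 𝓞 F) ∈ I := by rw [hT]; trivial
  obtain ⟨n, x, y, hxy, hs⟩ := hI 1 h1
  refine ⟨Finset.range n, x, y, hxy, ?_⟩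
  rw [hs]
  simp

end

end JD
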