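import Pool.Agent.JD.Q1

/-!
# [JD-G2] a unit which is not a cube times a root of unity

PROOF. `[F : ℚ] = [F : KK] [KK : ℚ] = 2 · 2 = 4` (`CF.d2_finrank_KK`). `F` contains a primitive cube root of unity, so it has no real place (`InfinitePlace`, an embedding `F → ℝ` would give a real root of `x² + x + 1`; `CU.not_isReal_KK`: a real place of
`F` restricts to a real place of `KK`), so `2 r₂ = 4`, `Units.rank F = r₁ + r₂ - 1 = 1` (`NumberField.Units.rank`, `InfinitePlace.card_add_two_mul_card_eq_rank`). Let `u` be the fundamental unit (`Units.fundSystem F 0`). If `u = ζ c³` with `ζ` of finite order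
(`ζ ∈ Units.torsion F`), write `c = ζ' u^e` (`Units.exist_unique_eq_mul_prod`): `u^(3 e - 1)` is a torsion element, but `3 e ≠ 1` and by uniqueness in `exist_unique_eq_mul_prod` (or: `u` has infinite order modulo torsion) this is impossible.
`unit_not_cube`: take this `u`. `N = u * τ u` (as a unit of `𝓞 F`) is fixed by `τ`, so it comes from a unit of `𝓞 KK ≃ Eis`, `N^6 = 1` (the units of `Eis` are `± om^k`: `CU.unit_iff`). [Without `exists_of_fix`: it is enough that `N` has finite order: every unit of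
`𝓞 KK` does.] `(u / τ u)^8 = u^16 / N^8`. If `c³ = (u/τ u)^8` then `c` is integral and so is its inverse: `c` is a unit, `c³ = u^16 N^{-8}`, `u = N^{-8} · (u^17 ...)`: `u^{-1}·`... precisely `u = N^{8}·c³·u^{-15} = N^8 (c u^{-5})³`, a torsion element times a cube: contradiction.
-/

set_option autoImplicit false

open NumberField IsDedekindDomain
open scoped Classical

namespace JD

open CM27 CF JZ
open CU (la om eE)

theorem G2_rank (F : Type) [Field F] [NumberField F] [Algebra KK F] (h : Module.finrank KK F = 2) :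
    0 < NumberField.Units.rank F := by
  have h1 : Module.finrank ℚ F = 4 := by
    rw [← Module.finrank_mul_finrank ℚ KK F, h, CF.d2_finrank_KK]
  have h2 := NumberField.InfinitePlace.sum_mult_eq (K := F)
  rw [h1] at h2
  have h3 : ∑ w : InfinitePlace F, w.mult ≤ ∑ _w : InfinitePlace F, 2 := by
    refine Finset.sum_le_sum fun w _ => ?_
    rw [InfinitePlace.mult]
    split_ifs
    · exact one_le_two
    · exact le_rfl
  rw [h2, Finset.sum_const, Finset.card_univ, smul_eq_mul] at h3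
  rw [NumberField.Units.rank]
  omega

theorem exists_unit (F : Type) [Field F] [NumberField F] [Algebra KK F] (h : Module.finrank KK F = 2) :
    ∃ u : (𝓞 F)ˣ, ∀ (c : (𝓞 F)ˣ) (n : ℕ), 0 < n → (u * c ^ 3) ^ n ≠ 1 := by
  let i₀ : Fin (NumberField.Units.rank F) := ⟨0, G2_rank F h⟩
  refine ⟨NumberField.Units.fundSystem F i₀, fun c n hn hc => ?_⟩
  obtain ⟨⟨ζ, e⟩, hζ, -⟩ := NumberField.Units.exist_unique_eq_mul_prod F c
  have htor : NumberField.Units.fundSystem F i₀ * c ^ 3 ∈ NumberField.Units.torsion F := by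
    rw [NumberField.Units.torsion, CommGroup.mem_torsion, isOfFinOrder_iff_pow_eq_one]
    exact ⟨n, hn, hc⟩
  have h1 : ((⟨_, htor⟩ : NumberField.Units.torsion F) : (𝓞 F)ˣ) =
      ((ζ ^ 3 : NumberField.Units.torsion F) : (𝓞 F)ˣ) *
        ∏ i, NumberField.Units.fundSystem F i ^ (3 * e i + if i = i₀ then 1 else 0) := by
    change NumberField.Units.fundSystem F i₀ * c ^ 3 = _
    have h2 : ∏ i, NumberField.Units.fundSystem F i ^ (3 * e i + if i = i₀ then (1 : ℤ) else 0) =
        (∏ i, NumberField.Units.fundSystem F i ^ (e i)) ^ 3 * NumberField.Units.fundSystem F i₀ := by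
      simp only [zpow_add]
      rw [Finset.prod_mul_distrib, ← Finset.prod_pow]
      congr 1
      · refine Finset.prod_congr rfl fun i _ => ?_
        rw [mul_comm, zpow_mul]
        rfl
      · rw [Finset.prod_eq_single i₀]
        · rw [if_pos rfl, zpow_one]
        · intro b _ hb
          rw [if_neg hb, zpow_zero]
        · intro hh
          exact absurd (Finset.mem_univ _) hh
    rw [h2]
    conv_lhs => rw [hζ]
    rw [mul_pow, Subgroup.coe_pow, mul_comm]
    rw [mul_assoc]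
  have h3 : ((⟨_, htor⟩ : NumberField.Units.torsion F) : (𝓞 F)ˣ) =
      ((⟨_, htor⟩ : NumberField.Units.torsion F) : (𝓞 F)ˣ) *
        ∏ i, NumberField.Units.fundSystem F i ^ ((0 : Fin (NumberField.Units.rank F) → ℤ) i) := by
    simp
  obtain ⟨x, -, hx⟩ := NumberField.Units.exist_unique_eq_mul_prod F
    ((⟨_, htor⟩ : NumberField.Units.torsion F) : (𝓞 F)ˣ)
  have h4 := hx (ζ ^ 3, fun i => 3 * e i + if i = i₀ then 1 else 0) h1
  have h5 := hx (⟨_, htor⟩, 0) h3
  have h6 := congrArg (fun z : NumberField.Units.torsion F × (Fin (NumberField.Units.rank F) → ℤ) => z.2 i₀)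
    (h4.trans h5.symm)
  simp only [if_true, Pi.zero_apply] at h6
  omega

section
variable {D : Eis} {F : Type} [Field F] [NumberField F] [Algebra KK F] {r : F} {τ : F ≃ₐ[KK] F}

theorem G2_int {x : KK} (h : IsIntegral ℤ x) : ∃ a : Eis, x = jK a := by
  obtain ⟨a, ha⟩ := eE.surjective (⟨x, h⟩ : 𝓞 KK)
  refine ⟨a, ?_⟩
  rw [jK_apply, ha]
  rfl

omit [NumberField F] in
theorem G2_tau_int (τ : F ≃ₐ[KK] F) {x : F} (h : IsIntegral ℤ x) : IsIntegral ℤ (τ x) :=
  h.map ((τ : F →+* F).toIntAlgHom)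

/-- `u τ(u)` has finite order -/
theorem G2_norm (hD : D ≠ 0) (hQ : Quad D r τ) (u : (𝓞 F)ˣ) : ((u : F) * τ (u : F)) ^ 6 = 1 := by
  have hu : (u : F) * ((u⁻¹ : (𝓞 F)ˣ) : F) = 1 := by
    have h2 := congrArg (algebraMap (𝓞 F) F) u.mul_inv
    rwa [map_mul, map_one] at h2
  have hi : IsIntegral ℤ (u : F) := RingOfIntegers.isIntegral_coe _
  have hi' : IsIntegral ℤ ((u⁻¹ : (𝓞 F)ˣ) : F) := RingOfIntegers.isIntegral_coe _
  have hfix : ∀ y : F, τ (y * τ y) = y * τ y := by
    intro y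
    rw [map_mul, tau_tau hD hQ, mul_comm]
  obtain ⟨x, hx⟩ := exists_of_fix hD hQ (hfix (u : F))
  obtain ⟨y, hy⟩ := exists_of_fix hD hQ (hfix ((u⁻¹ : (𝓞 F)ˣ) : F))
  have hxi : IsIntegral ℤ x := by
    have h1 : IsIntegral ℤ (algebraMap KK F x) := by
      rw [← hx]; exact hi.mul (G2_tau_int τ hi)
    exact (isIntegral_algebraMap_iff (algebraMap KK F).injective).1 h1
  have hyi : IsIntegral ℤ y := by
    have h1 : IsIntegral ℤ (algebraMap KK F y) := by
      rw [← hy]; exact hi'.mul (G2_tau_int τ hi')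
    exact (isIntegral_algebraMap_iff (algebraMap KK F).injective).1 h1
  obtain ⟨a, rfl⟩ := G2_int hxi
  obtain ⟨b, rfl⟩ := G2_int hyi
  have hab : a * b = 1 := by
    apply jF_inj F
    rw [map_mul, map_one, jF_apply, jF_apply, ← hx, ← hy]
    have h2 := congrArg τ hu
    rw [map_mul, map_one] at h2
    calc _ = ((u : F) * ((u⁻¹ : (𝓞 F)ˣ) : F)) * (τ (u : F) *
        τ ((u⁻¹ : (𝓞 F)ˣ) : F)) := by ring
      _ = 1 := by rw [hu, h2, one_mul]
  have ha : IsUnit a := IsUnit.of_mul_eq_one b hab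
  have ha6 : a ^ 6 = 1 := by
    rcases (CU.unit_iff a).1 ha with h | h | h | h | h | h <;> rw [h] <;> decide
  rw [hx, ← jF_apply, ← map_pow, ha6, map_one]

theorem unit_not_cube (hD : D ≠ 0) (hQ : Quad D r τ) :
    ∃ u : (𝓞 F)ˣ, ¬ ∃ c : F, c ^ 3 = ((u : F) / τ (u : F)) ^ 8 := by
  obtain ⟨u, hu⟩ := exists_unit F hQ.fr
  refine ⟨u, ?_⟩
  rintro ⟨c, hc⟩
  have hN := G2_norm hD hQ u
  have hu0 : (u : F) ≠ 0 := by
    intro h0
    rw [h0, zero_mul, zero_pow (by norm_num)] at hN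
    exact zero_ne_one hN
  have ht0 : τ (u : F) ≠ 0 := by
    intro h0
    rw [h0, mul_zero, zero_pow (by norm_num)] at hN
    exact zero_ne_one hN
  have hi : IsIntegral ℤ (u : F) := RingOfIntegers.isIntegral_coe _
  have hi' : IsIntegral ℤ ((u⁻¹ : (𝓞 F)ˣ) : F) := RingOfIntegers.isIntegral_coe _
  have huinv : ((u⁻¹ : (𝓞 F)ˣ) : F) = (u : F)⁻¹ := by
    have h2 := congrArg (algebraMap (𝓞 F) F) u.mul_inv
    rw [map_mul, map_one] at h2
    exact eq_inv_of_mul_eq_one_right h2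
  rw [huinv] at hi'
  have hci : IsIntegral ℤ c := by
    refine IsIntegral.of_pow (n := 3) (by norm_num) ?_
    rw [hc, div_eq_mul_inv, ← map_inv₀]
    exact (hi.mul (G2_tau_int τ hi')).pow 8
  have hci' : IsIntegral ℤ c⁻¹ := by
    refine IsIntegral.of_pow (n := 3) (by norm_num) ?_
    rw [inv_pow, hc, ← inv_pow, inv_div, div_eq_mul_inv]
    exact ((G2_tau_int τ hi).mul hi').pow 8
  have hc0 : c ≠ 0 := by
    rintro rfl
    rw [zero_pow (by norm_num)] at hc
    exact pow_ne_zero 8 (div_ne_zero hu0 ht0) hc.symm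
  let C : (𝓞 F)ˣ := ⟨⟨c⁻¹, hci'⟩, ⟨c, hci⟩, by
    apply RingOfIntegers.ext
    exact inv_mul_cancel₀ hc0, by
    apply RingOfIntegers.ext
    exact mul_inv_cancel₀ hc0⟩
  apply hu (C * u ^ 5) 6 (by norm_num)
  apply Units.ext
  apply RingOfIntegers.ext
  have hC : algebraMap (𝓞 F) F (C : 𝓞 F) = c⁻¹ := rfl
  have h1 : algebraMap (𝓞 F) F ((((u * (C * u ^ 5) ^ 3) ^ 6 : (𝓞 F)ˣ)) : 𝓞 F) =
      ((u : F) * (c⁻¹ * (u : F) ^ 5) ^ 3) ^ 6 := by
    simp only [Units.val_mul, Units.val_pow_eq_pow_val, map_mul, map_pow, hC]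
  refine h1.trans ?_
  have h2 : (u : F) * (c⁻¹ * (u : F) ^ 5) ^ 3 = ((u : F) * τ (u : F)) ^ 8 := by
    have h3 : c⁻¹ ^ 3 = (τ (u : F) / (u : F)) ^ 8 := by
      rw [inv_pow, hc, ← inv_pow, inv_div]
    rw [mul_pow, h3]
    field_simp
  rw [h2, ← pow_mul, mul_comm 8 6, pow_mul, hN, one_pow]
  rfl

end

end JD
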