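import Mathlib

/-!
# [JD-G3] class numbers divisible by `3`

PROOF. `3 ∣ classNumber F = Fintype.card (ClassGroup (𝓞 F))`: Cauchy (`exists_prime_orderOf_dvd_card`) gives `x ≠ 1` with `x³ = 1`. `x = ClassGroup.mk0 I` (`ClassGroup.mk0_surjective`), `I³` is principal (`ClassGroup.mk0_eq_one_iff`), `I³ = (b)`, `b ≠ 0`. `β = b`:
`w b = exp (-(multiplicity of w in (b)))` and `(b) = I³`, so it is the cube of `exp (-(multiplicity of w in I))` (e.g. `HeightOneSpectrum.intValuation_def`, `Associates.count_pow`; or prove it with `valuation` of fractional ideals).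
If `b = u δ³`, `u` a unit: `δ³ = b u⁻¹` is integral, so `δ` is an integer (`IsIntegral.of_pow`), `(δ)³ = (b) = I³`, so `(δ) = I` (ideals of a Dedekind domain: unique factorization; e.g. `pow_left_injective`-type lemma: `a ^ 3 ∣ b ^ 3 ↔ a ∣ b`
(`pow_dvd_pow_iff` in a GCD monoid / `Ideal` with `NormalizedGCDMonoid`), or compare the counts of every prime factor), so `x = 1`: contradiction.
-/

set_option autoImplicit false

open NumberField IsDedekindDomain
open scoped Classical

namespace JD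

theorem g3_pow_inj {R : Type} [CommRing R] [IsDedekindDomain R] {I J : Ideal R} (h : I ^ 3 = J ^ 3) : I = J := by
  have key : ∀ {A B : Ideal R}, A ^ 3 ∣ B ^ 3 → A ∣ B := by
    intro A B hAB
    by_cases hB : B = 0
    · rw [hB]; exact dvd_zero _
    have hA : A ≠ 0 := by
      rintro rfl
      rw [zero_pow (by norm_num), zero_dvd_iff] at hAB
      exact hB (pow_eq_zero_iff (by norm_num) |>.1 hAB)
    have hA3 : A ^ 3 ≠ 0 := pow_ne_zero _ hA
    have hB3 : B ^ 3 ≠ 0 := pow_ne_zero _ hB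
    rw [UniqueFactorizationMonoid.dvd_iff_normalizedFactors_le_normalizedFactors hA3 hB3,
      UniqueFactorizationMonoid.normalizedFactors_pow, UniqueFactorizationMonoid.normalizedFactors_pow,
      Multiset.le_iff_count] at hAB
    rw [UniqueFactorizationMonoid.dvd_iff_normalizedFactors_le_normalizedFactors hA hB, Multiset.le_iff_count]
    intro a
    have h1 := hAB a
    rw [Multiset.count_nsmul, Multiset.count_nsmul] at h1
    omega
  exact dvd_antisymm (key h.dvd) (key h.symm.dvd)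

theorem exists_beta (F : Type) [Field F] [NumberField F] (h : 3 ∣ classNumber F) :
    ∃ β : F, β ≠ 0 ∧ (∀ w : HeightOneSpectrum (𝓞 F), ∃ g : WithZero (Multiplicative ℤ), w.valuation F β = g ^ 3) ∧
      ∀ (u : (𝓞 F)ˣ) (δ : F), β ≠ (u : F) * δ ^ 3 := by
  haveI : Fact (Nat.Prime 3) := ⟨by norm_num⟩
  obtain ⟨x, hx⟩ := exists_prime_orderOf_dvd_card 3 (show 3 ∣ Fintype.card (ClassGroup (𝓞 F)) from h)
  have hx1 : x ≠ 1 := by
    intro h1
    rw [h1, orderOf_one] at hx
    norm_num at hx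
  have hx3 : x ^ 3 = 1 := by rw [← hx]; exact pow_orderOf_eq_one x
  obtain ⟨I, rfl⟩ := ClassGroup.mk0_surjective x
  rw [← map_pow] at hx3
  rw [ClassGroup.mk0_eq_one_iff (SetLike.coe_mem _)] at hx3
  have hI0 : (I : Ideal (𝓞 F)) ≠ 0 := nonZeroDivisors.ne_zero I.2
  have hI3 : ((I ^ 3 : nonZeroDivisors (Ideal (𝓞 F))) : Ideal (𝓞 F)) = (I : Ideal (𝓞 F)) ^ 3 := rfl
  rw [hI3] at hx3
  obtain ⟨b, hb⟩ := hx3.principal
  change (I : Ideal (𝓞 F)) ^ 3 = Ideal.span {b} at hb
  have hb0 : b ≠ 0 := by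
    intro h0
    rw [h0, Ideal.span_singleton_zero] at hb
    exact pow_ne_zero 3 hI0 hb
  refine ⟨algebraMap (𝓞 F) F b, ?_, ?_, ?_⟩
  · intro h0
    exact hb0 ((map_eq_zero_iff _ (IsFractionRing.injective (𝓞 F) F)).1 h0)
  · intro w
    rw [HeightOneSpectrum.valuation_of_algebraMap, HeightOneSpectrum.intValuation_if_neg w hb0, ← hb,
      Associates.mk_pow, Associates.count_pow (Associates.mk_ne_zero.2 hI0) w.associates_irreducible]
    refine ⟨WithZero.exp (-(Associates.mk w.asIdeal).count (Associates.mk (I : Ideal (𝓞 F))).factors : ℤ), ?_⟩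
    rw [← WithZero.exp_nsmul]
    congr 1
    push_cast
    ring
  · intro u δ hβ
    have hδint : IsIntegral (𝓞 F) (δ ^ 3) := by
      have h1 : δ ^ 3 = algebraMap (𝓞 F) F (((u⁻¹ : (𝓞 F)ˣ) : 𝓞 F) * b) := by
        have hu : algebraMap (𝓞 F) F (((u⁻¹ : (𝓞 F)ˣ) : 𝓞 F)) * algebraMap (𝓞 F) F ((u : 𝓞 F)) = 1 := by
          rw [← map_mul, Units.inv_mul, map_one]
        rw [map_mul, hβ]
        linear_combination -(δ ^ 3) * hu
      rw [h1]
      exact isIntegral_algebraMap
    obtain ⟨d, hd⟩ := IsIntegrallyClosed.exists_algebraMap_eq_of_isIntegral_pow (by norm_num : 0 < 3) hδint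
    have h2 : b = (u : 𝓞 F) * d ^ 3 := by
      apply IsFractionRing.injective (𝓞 F) F
      rw [hβ, map_mul, map_pow, hd]
    have h3 : (I : Ideal (𝓞 F)) ^ 3 = (Ideal.span {d}) ^ 3 := by
      rw [hb, h2, Ideal.span_singleton_mul_left_unit u.isUnit, Ideal.span_singleton_pow]
    have h4 := g3_pow_inj h3
    apply hx1
    rw [ClassGroup.mk0_eq_one_iff (SetLike.coe_mem _), h4]
    exact ⟨⟨d, rfl⟩⟩

end JD
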