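import Pool.Agent.JD.Q2

/-!
# [JD-G4] elements of `K` whose divisor in `F` is a cube

PROOF. `val_prime`: let `p` be a prime of `Eis`, `w` a place of `F` with `w (jF p) < 1`; `w (jF p) = exp (-e)`, `e ≥ 1` and `e ≤ 2`: the ideal `(jF p)` of `𝓞 F` has norm `N(p)²` (`absNorm` of `jF p` is the absolute value of its norm over `ℚ`; or `𝓞 F = O + O r` has
`(N p)²` classes modulo `p`; or use `Ideal.sum_ramification_inertia` for `𝓞 KK → 𝓞 F`, `[F : KK] = 2`), `w^e ∣ (p)` and the residue field of `w` contains `O / p`: `N(p)^e ≤ N(w)^e ≤ N(p)²`, `e ≤ 2`.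
`eis_cube`: induction over the factorization of `c` (`UniqueFactorizationMonoid.induction_on_prime`, or strong induction on `c.norm.natAbs`): if `c` is a unit: `d = 1`. Otherwise let `p ∣ c` be a prime, `p^m` the exact power, `c = p^m c'`, `p ∤ c'`; `w` a place of `F` over `p` (a maximal
ideal of `𝓞 F` containing `jF p`; `jF p` is not a unit: `exists_int`, `jr_inj`); `w (jF c') = 1` (Bezout in `Eis`), so `w (jF c) = (w (jF p))^m = exp (-e m)` is a cube, `3 ∣ e m`, `e ∈ {1, 2}`: `3 ∣ m`, `m = 3 k`, `c = (p^k)³ c'`, and `c'` satisfies the hypothesis.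
`kk_cube`: `x = jK a / jK b` (`x ∈ KK` is a quotient of integers), `x = jK (a b²) / (jK b)³`, apply `eis_cube` to `c = a b²`.
-/

set_option autoImplicit false

open NumberField IsDedekindDomain
open scoped Classical

namespace JD

open CM27 CF JZ
open CU (la om eE)

theorem g4a_exp {F : Type} [Field F] (w : Valuation F (WithZero (Multiplicative ℤ))) {x : F} (hx : x ≠ 0) :
    ∃ k : ℤ, w x = WithZero.exp k :=
  ⟨WithZero.log (w x), (WithZero.exp_log ((w.ne_zero_iff).2 hx)).symm⟩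

/-- `a = p^k b` with `p ∤ b` -/
theorem g4a_split {p a : Eis} (hp : Prime p) (ha : a ≠ 0) : ∃ (k : ℕ) (b : Eis), ¬ p ∣ b ∧ a = p ^ k * b := by
  have hdom : IsDomain Eis := eis_isDomain
  have hpid : IsPrincipalIdealRing Eis := eis_pid
  have hfm : FiniteMultiplicity p a := FiniteMultiplicity.of_not_isUnit hp.not_isUnit ha
  obtain ⟨b, hb, hnd⟩ := hfm.exists_eq_pow_mul_and_not_dvd
  exact ⟨_, b, hnd, hb⟩

theorem g4a_le {F : Type} [Field F] [NumberField F] (w : HeightOneSpectrum (𝓞 F)) {x : F} (hx : IsIntegral ℤ x) :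
    w.valuation F x ≤ 1 := by
  have h := w.valuation_le_one (K := F) (⟨x, hx⟩ : 𝓞 F)
  exact h

/-- an element of `ℤ[ω]` prime to `p` is a unit at the places over `p` -/
theorem g4a_one {F : Type} [Field F] [NumberField F] [Algebra KK F] {p b : Eis} (hp : Prime p) (hb : ¬ p ∣ b)
    (w : HeightOneSpectrum (𝓞 F)) (hw : w.valuation F (jF F p) < 1) : w.valuation F (jF F b) = 1 := by
  have hdom : IsDomain Eis := eis_isDomain
  have hpid : IsPrincipalIdealRing Eis := eis_pid
  have hco : IsCoprime p b := (hp.irreducible.coprime_iff_not_dvd).2 hb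
  obtain ⟨s, t, hst⟩ := hco
  refine le_antisymm (g4a_le w (int_jF F b)) ?_
  by_contra hlt
  rw [not_le] at hlt
  have h1 : w.valuation F (jF F s * jF F p + jF F t * jF F b) < 1 := by
    refine Valuation.map_add_lt _ ?_ ?_
    · rw [map_mul]
      exact lt_of_le_of_lt (mul_le_of_le_one_left' (g4a_le w (int_jF F s))) hw
    · rw [map_mul]
      exact lt_of_le_of_lt (mul_le_of_le_one_left' (g4a_le w (int_jF F t))) hlt
  rw [← map_mul, ← map_mul, ← map_add, hst, map_one, map_one] at h1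
  exact lt_irrefl _ h1

section
variable {D : Eis} {F : Type} [Field F] [NumberField F] [Algebra KK F] {r : F} {τ : F ≃ₐ[KK] F}
  (hD : Cl D) (hQ : Quad D r τ)
include hD hQ

/-- the valuation of an integral norm is a multiple of the valuation of the prime below -/
theorem g4a_norm {p : Eis} (hp : Prime p) (w : HeightOneSpectrum (𝓞 F)) (hw : w.valuation F (jF F p) < 1)
    {z : F} (hz : IsIntegral ℤ z) (hz0 : z ≠ 0) :
    ∃ k : ℕ, w.valuation F z * w.valuation F (τ z) = (w.valuation F (jF F p)) ^ k := by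
  have hD0 : D ≠ 0 := ne_of_cl hD
  have hfix : τ (z * τ z) = z * τ z := by
    rw [map_mul, tau_tau hD0 hQ, mul_comm]
  have hint : IsIntegral ℤ (z * τ z) := hz.mul (hz.map (τ : F ≃ₐ[KK] F).toRingEquiv.toRingHom.toIntAlgHom)
  obtain ⟨a, ha⟩ := fix_int hD hQ hfix hint
  have ha0 : a ≠ 0 := by
    rintro rfl
    rw [map_zero] at ha
    rcases mul_eq_zero.1 ha with h | h
    · exact hz0 h
    · exact hz0 ((map_eq_zero τ).1 h)
  obtain ⟨k, b, hb, hab⟩ := g4a_split hp ha0
  refine ⟨k, ?_⟩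
  rw [← map_mul, ha, hab, map_mul, map_mul, map_pow, map_pow, g4a_one hp hb w hw, mul_one]

theorem val_prime {p : Eis} (hp : Prime p) (w : HeightOneSpectrum (𝓞 F)) (hw : w.valuation F (jF F p) < 1) :
    w.valuation F (jF F p) = WithZero.exp (-1 : ℤ) ∨ w.valuation F (jF F p) = WithZero.exp (-2 : ℤ) := by
  have hp0 : jF F p ≠ 0 := fun h => hp.ne_zero (jF_inj F (by rw [h, map_zero]))
  obtain ⟨e, he⟩ := g4a_exp (w.valuation F) hp0
  have he0 : e < 0 := by
    rw [he, ← WithZero.exp_zero, WithZero.exp_lt_exp] at hw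
    exact hw
  obtain ⟨π, hπ⟩ := w.intValuation_exists_uniformizer
  obtain ⟨w', hw', -, -⟩ := exists_conj F (τ : F ≃ₐ[KK] F).toRingEquiv w
  have hw'' : ∀ x : F, w'.valuation F x = w.valuation F (τ x) := hw'
  by_cases hww : w' = w
  · -- ramified or inert
    have hπ0 : (algebraMap (𝓞 F) F π) ≠ 0 := by
      intro h0
      have h1 : w.valuation F (algebraMap (𝓞 F) F π) = WithZero.exp (-1 : ℤ) := by
        rw [HeightOneSpectrum.valuation_of_algebraMap]; exact hπ
      rw [h0, map_zero] at h1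
      exact WithZero.exp_ne_zero h1.symm
    obtain ⟨k, hk⟩ := g4a_norm hD hQ hp w hw (RingOfIntegers.isIntegral_coe π) hπ0
    rw [← hw'', hww, HeightOneSpectrum.valuation_of_algebraMap, hπ, he, ← WithZero.exp_add, ← WithZero.exp_nsmul,
      WithZero.exp_inj, nsmul_eq_mul] at hk
    have hk0 : k ≤ 2 := by
      by_contra hcon
      have : (3 : ℤ) ≤ k := by omega
      nlinarith
    interval_cases k
    · norm_num at hk
    · right
      rw [he, WithZero.exp_inj]
      push_cast at hk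
      omega
    · left
      rw [he, WithZero.exp_inj]
      push_cast at hk
      omega
  · -- split
    have hnle : ¬ w.asIdeal ^ 2 ≤ w'.asIdeal := by
      intro hle
      have hpr : w'.asIdeal.IsPrime := w'.isPrime
      have h1 : w.asIdeal ≤ w'.asIdeal := hpr.le_of_pow_le hle
      have hmax : w.asIdeal.IsMaximal := w.isMaximal
      have h2 := hmax.eq_of_le hpr.ne_top h1
      exact hww (HeightOneSpectrum.ext h2.symm)
    obtain ⟨t, ht, htn⟩ := SetLike.not_le_iff_exists.1 hnle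
    have htw : w.valuation F (algebraMap (𝓞 F) F t) ≤ WithZero.exp (-2 : ℤ) := by
      rw [HeightOneSpectrum.valuation_of_algebraMap]
      exact (w.intValuation_le_pow_iff_mem t 2).2 ht
    have htw' : w'.valuation F (algebraMap (𝓞 F) F t) = 1 :=
      (HeightOneSpectrum.valuation_eq_one_iff_notMem w').2 htn
    have hπw : w.valuation F (algebraMap (𝓞 F) F π) = WithZero.exp (-1 : ℤ) := by
      rw [HeightOneSpectrum.valuation_of_algebraMap]; exact hπ
    obtain ⟨z, hz1, hz2⟩ : ∃ z : 𝓞 F, w.valuation F (algebraMap (𝓞 F) F z) = WithZero.exp (-1 : ℤ) ∧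
        w'.valuation F (algebraMap (𝓞 F) F z) = 1 := by
      by_cases hπ' : w'.valuation F (algebraMap (𝓞 F) F π) = 1
      · exact ⟨π, hπw, hπ'⟩
      · have hlt : w'.valuation F (algebraMap (𝓞 F) F π) < 1 :=
          lt_of_le_of_ne (w'.valuation_le_one π) hπ'
        refine ⟨π + t, ?_, ?_⟩
        · rw [map_add, Valuation.map_add_eq_of_lt_left, hπw]
          rw [hπw]
          refine lt_of_le_of_lt htw ?_
          rw [WithZero.exp_lt_exp]
          norm_num
        · rw [map_add, Valuation.map_add_eq_of_lt_right, htw']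
          rw [htw']
          exact hlt
    have hz0 : (algebraMap (𝓞 F) F z) ≠ 0 := by
      intro h0
      rw [h0, map_zero] at hz1
      exact WithZero.exp_ne_zero hz1.symm
    obtain ⟨k, hk⟩ := g4a_norm hD hQ hp w hw (RingOfIntegers.isIntegral_coe z) hz0
    rw [← hw'', hz1, hz2, mul_one, he, ← WithZero.exp_nsmul, WithZero.exp_inj, nsmul_eq_mul] at hk
    have hk0 : k ≤ 1 := by
      by_contra hcon
      have : (2 : ℤ) ≤ k := by omega
      nlinarith
    interval_cases k
    · norm_num at hk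
    · left
      rw [he, WithZero.exp_inj]
      push_cast at hk
      omega

/-- a place over a prime -/
theorem g4b_place {p : Eis} (hp : Prime p) : ∃ w : HeightOneSpectrum (𝓞 F), w.valuation F (jF F p) < 1 := by
  have hD0 : D ≠ 0 := ne_of_cl hD
  have hp0 : jF F p ≠ 0 := fun h => hp.ne_zero (jF_inj F (by rw [h, map_zero]))
  set P : 𝓞 F := ⟨jF F p, int_jF F p⟩ with hP
  have hP0 : P ≠ 0 := by
    intro h0
    apply hp0
    have := congrArg (algebraMap (𝓞 F) F) h0
    rw [map_zero] at this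
    exact this
  have hPu : ¬ IsUnit P := by
    rintro ⟨U, hU⟩
    have h1 : jF F p * algebraMap (𝓞 F) F ((U⁻¹ : (𝓞 F)ˣ) : 𝓞 F) = 1 := by
      have h2 : (U : 𝓞 F) * ((U⁻¹ : (𝓞 F)ˣ) : 𝓞 F) = 1 := U.mul_inv
      have h3 := congrArg (algebraMap (𝓞 F) F) h2
      rw [map_mul, map_one, hU] at h3
      exact h3
    have h4 : algebraMap (𝓞 F) F ((U⁻¹ : (𝓞 F)ˣ) : 𝓞 F) = (jF F p)⁻¹ := by
      exact (inv_eq_of_mul_eq_one_right h1).symm
    have h5 : τ (jF F p)⁻¹ = (jF F p)⁻¹ := by
      rw [map_inv₀, jF_apply, τ.commutes]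
    have h6 : IsIntegral ℤ (jF F p)⁻¹ := by
      rw [← h4]
      exact RingOfIntegers.isIntegral_coe _
    obtain ⟨b, hb⟩ := fix_int hD hQ h5 h6
    have h7 : p * b = 1 := by
      apply jF_inj F
      rw [map_mul, map_one, ← hb]
      exact mul_inv_cancel₀ hp0
    exact hp.not_isUnit (IsUnit.of_mul_eq_one b h7)
  have hne : Ideal.span {P} ≠ ⊤ := fun h => hPu (Ideal.span_singleton_eq_top.1 h)
  obtain ⟨M, hM, hle⟩ := Ideal.exists_le_maximal _ hne
  have hPM : P ∈ M := hle (Ideal.mem_span_singleton_self P)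
  have hM0 : M ≠ ⊥ := by
    rintro rfl
    exact hP0 hPM
  refine ⟨⟨M, hM.isPrime, hM0⟩, ?_⟩
  exact (HeightOneSpectrum.valuation_lt_one_iff_mem (K := F) ⟨M, hM.isPrime, hM0⟩ P).2 hPM

theorem eis_cube {c : Eis} (hc : c ≠ 0)
    (h : ∀ w : HeightOneSpectrum (𝓞 F), ∃ g : WithZero (Multiplicative ℤ), w.valuation F (jF F c) = g ^ 3) :
    ∃ u d : Eis, IsUnit u ∧ c = u * d ^ 3 := by
  have hdom : IsDomain Eis := eis_isDomain
  have hpid : IsPrincipalIdealRing Eis := eis_pid
  revert hc h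
  refine (wellFounded_dvdNotUnit (α := Eis)).induction (C := fun c : Eis => c ≠ 0 →
    (∀ w : HeightOneSpectrum (𝓞 F), ∃ g : WithZero (Multiplicative ℤ), w.valuation F (jF F c) = g ^ 3) →
    ∃ u d : Eis, IsUnit u ∧ c = u * d ^ 3) c ?_
  intro c ih hc h
  by_cases hu : IsUnit c
  · exact ⟨c, 1, hu, by ring⟩
  obtain ⟨p, hpirr, hpc⟩ := WfDvdMonoid.exists_irreducible_factor hu hc
  have hp : Prime p := hpirr.prime
  obtain ⟨m, c', hc', hcc'⟩ := g4a_split hp hc
  have hm : m ≠ 0 := by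
    rintro rfl
    rw [pow_zero, one_mul] at hcc'
    exact hc' (hcc' ▸ hpc)
  have hc'0 : c' ≠ 0 := by
    rintro rfl
    exact hc' (dvd_zero p)
  obtain ⟨w, hw⟩ := g4b_place hD hQ hp
  obtain ⟨g, hg⟩ := h w
  have hcF : jF F c ≠ 0 := fun h0 => hc (jF_inj F (by rw [h0, map_zero]))
  have hm3 : 3 ∣ m := by
    have hg0 : g ≠ 0 := by
      rintro rfl
      rw [zero_pow (by norm_num)] at hg
      exact hcF ((map_eq_zero _).1 hg)
    obtain ⟨k, hk⟩ : ∃ k : ℤ, g = WithZero.exp k := ⟨WithZero.log g, (WithZero.exp_log hg0).symm⟩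
    rw [hcc', map_mul, map_mul, map_pow, map_pow, g4a_one hp hc' w hw, mul_one, hk, ← WithZero.exp_nsmul] at hg
    rcases val_prime hD hQ hp w hw with h1 | h1 <;>
    · rw [h1, ← WithZero.exp_nsmul, WithZero.exp_inj, nsmul_eq_mul, nsmul_eq_mul] at hg
      push_cast at hg
      omega
  obtain ⟨k, rfl⟩ := hm3
  have hdn : DvdNotUnit c' c := by
    refine ⟨hc'0, p ^ (3 * k), ?_, by rw [hcc']; ring⟩
    intro hu'
    exact hp.not_isUnit (isUnit_of_dvd_unit (dvd_pow_self p hm) hu')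
  have hpF : jF F p ≠ 0 := fun h0 => hp.ne_zero (jF_inj F (by rw [h0, map_zero]))
  obtain ⟨u, d, hu', hd⟩ := ih c' hdn hc'0 (fun w' => by
    obtain ⟨g', hg'⟩ := h w'
    refine ⟨g' / (w'.valuation F (jF F p)) ^ k, ?_⟩
    rw [hcc', map_mul, map_mul, map_pow, map_pow] at hg'
    have hne : (w'.valuation F (jF F p)) ^ k ≠ 0 := pow_ne_zero _ ((map_ne_zero _).2 hpF)
    rw [div_pow, ← hg', ← pow_mul, mul_comm k 3]
    have hne' : (w'.valuation F (jF F p)) ^ (3 * k) ≠ 0 := pow_ne_zero _ ((map_ne_zero _).2 hpF)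
    rw [mul_div_cancel_left₀ _ hne'])
  refine ⟨u, p ^ k * d, hu', ?_⟩
  rw [hcc', hd]
  ring

theorem kk_cube {x : KK} (hx : x ≠ 0)
    (h : ∀ w : HeightOneSpectrum (𝓞 F), ∃ g : WithZero (Multiplicative ℤ), w.valuation F (algebraMap KK F x) = g ^ 3) :
    ∃ (u : Eis) (d : KK), IsUnit u ∧ x = jK u * d ^ 3 := by
  have hdom : IsDomain Eis := eis_isDomain
  obtain ⟨a', b', hb', hab⟩ := IsFractionRing.div_surjective (A := 𝓞 KK) x
  obtain ⟨a, rfl⟩ := eE.surjective a'
  obtain ⟨b, rfl⟩ := eE.surjective b'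
  have hx1 : x = jK a / jK b := hab.symm
  have hb0 : b ≠ 0 := by
    rintro rfl
    rw [map_zero] at hb'
    exact nonZeroDivisors.ne_zero hb' rfl
  have hjb : jK b ≠ 0 := fun h0 => hb0 (jK_inj (by rw [h0, map_zero]))
  have ha0 : a ≠ 0 := by
    rintro rfl
    rw [map_zero, zero_div] at hx1
    exact hx hx1
  have hbF : jF F b ≠ 0 := fun h0 => hb0 (jF_inj F (by rw [h0, map_zero]))
  obtain ⟨u, d, hu, hd⟩ := eis_cube hD hQ (c := a * b ^ 2) (mul_ne_zero ha0 (pow_ne_zero 2 hb0)) (fun w => by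
    obtain ⟨g, hg⟩ := h w
    refine ⟨g * w.valuation F (jF F b), ?_⟩
    have h1 : jF F (a * b ^ 2) = algebraMap KK F x * (jF F b) ^ 3 := by
      rw [map_mul, map_pow, hx1, map_div₀, ← jF_apply, ← jF_apply]
      field_simp
    rw [h1, map_mul, map_pow, hg, mul_pow])
  refine ⟨u, jK d / jK b, hu, ?_⟩
  have h2 : jK a * jK b ^ 2 = jK u * jK d ^ 3 := by
    rw [← map_pow, ← map_pow, ← map_mul, ← map_mul, hd]
  rw [hx1, div_pow, div_eq_iff hjb]
  field_simp
  linear_combination h2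

end

end JD
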