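import Pool.Agent.JD.G1
import Pool.Agent.JD.G2
import Pool.Agent.JD.G3
import Pool.Agent.JD.G4
import Pool.Agent.JD.Q4

/-!
# [JD-G5] `NoBad → 3 ∤ h(F)` and there is a unit `u` with `(u / ū)^8 ≢ 1 mod λ²`

PROOF. Notation: `P(b) := ∀ w over λ, w (b^8 - 1) ≤ (w la)²`. For a unit `u`: `b = u / τ u` satisfies `b * τ b = 1` (`tau_tau`), `w b = 1` for all `w` (`w` of a unit is 1, also of `τ u`, an integral unit).
(1) `exists_u0`: there is a unit `u₀` with `¬ P(u₀ / τ u₀)`. Otherwise take `u` from `unit_not_cube`: `a = (u / τ u)^8` is in `Lam τ` (valuations 1 = 1³), so it is a cube by `NoBad`: contradiction.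
(2) `not_three`: suppose `3 ∣ classNumber F`; `β` from `exists_beta`. `α₀ = β / τ β`: `α₀ τ α₀ = 1`, `w α₀ = w β / w (τ β)`, `w (τ β) = w' β` (`exists_cj`): a cube. `κ` from `exists_kappa`, `a = α₀ / κ³`: `a τ a = 1`, `w a = 1` over `λ`, `w a` a cube everywhere.
`b = u₀ / τ u₀`. `j` from `local_adjust`. `α = (a b^j)^8 ∈ Lam τ`, so `α = γ³`. Now `β τ β` is fixed by `τ`: `β τ β = algebraMap x`, `x ∈ KK` (`exists_of_fix`), all valuations are cubes, so `β τ β = jF u · d³` with `u` a unit of `Eis` (`kk_cube`), `α₀ = β² / (jF u d³)`.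
`γ³ = (β² / (jF u d³ κ³) b^j)^8`, so `β^16 = (jF u)^8 b^{-8j} · (d κ)^{24} γ³ = U · y³` with `U = (jF u)^8 b^{-8 j}` a unit of `𝓞 F` and `y = (d κ)^8 γ`, and `β = U (y / β^5)³`: contradiction to `exists_beta`.
(3) `class_unit`: `((u₀/τ u₀)^8 - 1) = 3 z` with `z` integral would give `w (..) ≤ w 3 = (w la)²` over `λ` (`CU.three_eq`), `P(u₀/τ u₀)`.
-/

set_option autoImplicit false

open NumberField IsDedekindDomain
open scoped Classical

namespace JD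

open CM27 CF JZ
open CU (la om eE)

section
variable {D : Eis} {F : Type} [Field F] [NumberField F] [Algebra KK F] {r : F} {τ : F ≃ₐ[KK] F}

omit [Algebra KK F] in
theorem g5a_unit (w : HeightOneSpectrum (𝓞 F)) (u : (𝓞 F)ˣ) : w.valuation F (u : F) = 1 := by
  have h1 : w.valuation F (u : F) ≤ 1 := w.valuation_le_one _
  have h2 : w.valuation F ((u⁻¹ : (𝓞 F)ˣ) : F) ≤ 1 := w.valuation_le_one _
  have h3 : (u : F) * ((u⁻¹ : (𝓞 F)ˣ) : F) = 1 := by simp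
  have h4 : w.valuation F (u : F) * w.valuation F ((u⁻¹ : (𝓞 F)ˣ) : F) = 1 := by
    rw [← map_mul, h3, map_one]
  apply le_antisymm h1
  rw [← h4]
  exact mul_le_of_le_one_right' h2

theorem g5a_tau (w : HeightOneSpectrum (𝓞 F)) (u : (𝓞 F)ˣ) : w.valuation F (τ (u : F)) = 1 := by
  obtain ⟨w', h⟩ := exists_cj τ w
  rw [← h, g5a_unit]

theorem g5a_norm (hD : Cl D) (hQ : Quad D r τ) (u : (𝓞 F)ˣ) :
    ((u : F) / τ (u : F)) * τ ((u : F) / τ (u : F)) = 1 := by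
  have hu : (u : F) ≠ 0 := by
    intro h
    have h1 : (u : 𝓞 F) = 0 := RingOfIntegers.ext h
    exact u.ne_zero h1
  have hτ : τ (u : F) ≠ 0 := (map_ne_zero τ).2 hu
  rw [map_div₀, tau_tau (ne_of_cl hD) hQ]
  field_simp

theorem exists_u0 (hD : Cl D) (hQ : Quad D r τ) (hN : NoBad τ) : ∃ u : (𝓞 F)ˣ,
    ¬ ∀ w : HeightOneSpectrum (𝓞 F), OvLa w →
      w.valuation F (((u : F) / τ (u : F)) ^ 8 - 1) ≤ w.valuation F (jF F la) ^ 2 := by
  by_contra hcon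
  push Not at hcon
  obtain ⟨u, hu⟩ := unit_not_cube (ne_of_cl hD) hQ
  apply hu
  apply hN
  refine ⟨?_, fun w => ⟨1, ?_⟩, hcon u⟩
  · rw [map_pow, ← mul_pow, g5a_norm hD hQ, one_pow]
  · rw [map_pow, map_div₀, g5a_unit, g5a_tau, div_one, one_pow, one_pow]

omit [NumberField F] [Algebra KK F] in
/-- an integral element with an integral inverse is a unit -/
theorem G5b_unit {x y : F} (hx : IsIntegral ℤ x) (hy : IsIntegral ℤ y) (h : x * y = 1) :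
    ∃ U : (𝓞 F)ˣ, (U : F) = x := by
  refine ⟨⟨⟨x, hx⟩, ⟨y, hy⟩, ?_, ?_⟩, rfl⟩
  · apply RingOfIntegers.ext
    exact h
  · apply RingOfIntegers.ext
    exact (mul_comm y x).trans h

omit [Algebra KK F] in
theorem G5b_val (u : (𝓞 F)ˣ) (w : HeightOneSpectrum (𝓞 F)) : w.valuation F (u : F) = 1 := by
  have h1 : (u : F) * ((u⁻¹ : (𝓞 F)ˣ) : F) = 1 := by
    have h2 := congrArg (algebraMap (𝓞 F) F) u.mul_inv
    rwa [map_mul, map_one] at h2
  have h2 : w.valuation F (u : F) ≤ 1 := w.valuation_le_one _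
  have h3 : w.valuation F ((u⁻¹ : (𝓞 F)ˣ) : F) ≤ 1 := w.valuation_le_one _
  refine le_antisymm h2 ?_
  have h4 := congrArg (w.valuation F) h1
  rw [map_mul, map_one] at h4
  calc (1 : WithZero (Multiplicative ℤ)) = w.valuation F (u : F) * w.valuation F ((u⁻¹ : (𝓞 F)ˣ) : F) := h4.symm
    _ ≤ w.valuation F (u : F) * 1 := mul_le_mul_right h3 _
    _ = _ := mul_one _

omit [NumberField F] in
theorem g5a_three : (3 : F) = jF F (-om ^ 2) * jF F la ^ 2 := by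
  rw [← map_pow, ← map_mul, ← CU.three_eq]
  exact (map_ofNat _ 3).symm

theorem not_three (hD : Cl D) (hQ : Quad D r τ) (hN : NoBad τ) : ¬ 3 ∣ classNumber F := by
  intro h3
  have hD0 : D ≠ 0 := ne_of_cl hD
  obtain ⟨u₀, hu₀⟩ := exists_u0 hD hQ hN
  obtain ⟨β, hβ0, hβ3, hβ⟩ := exists_beta F h3
  have hτ0 : ∀ x : F, x ≠ 0 → τ x ≠ 0 := fun x hx h0 => hx (τ.injective (by rw [h0, map_zero]))
  have hττ : ∀ x : F, τ (τ x) = x := tau_tau hD0 hQ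
  have hdiv : ∀ x : F, x ≠ 0 → (x / τ x) * τ (x / τ x) = 1 := by
    intro x hx
    rw [map_div₀, hττ]
    have := hτ0 x hx
    field_simp
  have hw0 : ∀ (w : HeightOneSpectrum (𝓞 F)) (x : F), x ≠ 0 → w.valuation F x ≠ 0 := fun w x hx =>
    (Valuation.ne_zero_iff _).2 hx
  -- `w (τ β)` is a cube
  have hβ3' : ∀ w : HeightOneSpectrum (𝓞 F), ∃ g : WithZero (Multiplicative ℤ),
      w.valuation F (τ β) = g ^ 3 := by
    intro w
    obtain ⟨w', hw'⟩ := exists_cj τ w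
    obtain ⟨g, hg⟩ := hβ3 w'
    exact ⟨g, by rw [← hw', hg]⟩
  have hα3 : ∀ w : HeightOneSpectrum (𝓞 F), ∃ g : WithZero (Multiplicative ℤ),
      w.valuation F (β / τ β) = g ^ 3 := by
    intro w
    obtain ⟨g, hg⟩ := hβ3 w
    obtain ⟨g', hg'⟩ := hβ3' w
    exact ⟨g / g', by rw [map_div₀, hg, hg', div_pow]⟩
  obtain ⟨k, hk, hkv⟩ := exists_kappa hD hQ (hdiv β hβ0) (fun w _ => hα3 w)
  have hk0 : k ≠ 0 := by
    rintro rfl
    rw [zero_mul] at hk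
    exact zero_ne_one hk
  set a : F := (β / τ β) / k ^ 3 with ha
  have ha1 : a * τ a = 1 := by
    have h1 : a * τ a = ((β / τ β) * τ (β / τ β)) / (k * τ k) ^ 3 := by
      rw [ha, map_div₀, map_pow]
      have := hτ0 k hk0
      have := hτ0 β hβ0
      field_simp
    rw [h1, hdiv β hβ0, hk, one_pow, div_one]
  have hav : ∀ w : HeightOneSpectrum (𝓞 F), OvLa w → w.valuation F a = 1 := by
    intro w hw
    rw [ha, map_div₀, map_pow, ← hkv w hw]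
    exact div_self (hw0 w _ (div_ne_zero hβ0 (hτ0 β hβ0)))
  have ha3 : ∀ w : HeightOneSpectrum (𝓞 F), ∃ g : WithZero (Multiplicative ℤ),
      w.valuation F a = g ^ 3 := by
    intro w
    obtain ⟨g, hg⟩ := hα3 w
    exact ⟨g / w.valuation F k, by rw [ha, map_div₀, map_pow, hg, div_pow]⟩
  -- the unit
  have hu0 : (u₀ : F) ≠ 0 := by
    intro h0
    have h1 := G5b_val u₀ (exists_ov hD hQ).choose
    rw [h0, map_zero] at h1
    exact zero_ne_one h1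
  have hinv : ((u₀⁻¹ : (𝓞 F)ˣ) : F) = (u₀ : F)⁻¹ := by
    have h2 := congrArg (algebraMap (𝓞 F) F) u₀.mul_inv
    rw [map_mul, map_one] at h2
    exact eq_inv_of_mul_eq_one_right h2
  have hτint : ∀ x : F, IsIntegral ℤ x → IsIntegral ℤ (τ x) := fun x hx =>
    hx.map ((τ : F →+* F).toIntAlgHom)
  obtain ⟨T, hT⟩ := G5b_unit (hτint _ (RingOfIntegers.isIntegral_coe (u₀ : 𝓞 F)))
    (hτint _ (RingOfIntegers.isIntegral_coe ((u₀⁻¹ : (𝓞 F)ˣ) : 𝓞 F))) (by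
      rw [← map_mul]
      have h2 := congrArg (algebraMap (𝓞 F) F) u₀.mul_inv
      rw [map_mul, map_one] at h2
      exact (congrArg τ h2).trans (map_one τ))
  have hT' : (T : F) = τ (u₀ : F) := hT
  have hbv : ∀ w : HeightOneSpectrum (𝓞 F), w.valuation F ((u₀ : F) / τ (u₀ : F)) = 1 := by
    intro w
    rw [map_div₀, ← hT', G5b_val, G5b_val, div_one]
  obtain ⟨j, hj⟩ := local_adjust hD hQ ha1 (hdiv (u₀ : F) hu0) hav (fun w _ => hbv w) hu₀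
  have hLam : Lam τ ((a * ((u₀ : F) / τ (u₀ : F)) ^ j) ^ 8) := by
    refine ⟨?_, ?_, hj⟩
    · have h1 : (a * ((u₀ : F) / τ (u₀ : F)) ^ j) ^ 8 * τ ((a * ((u₀ : F) / τ (u₀ : F)) ^ j) ^ 8) =
          ((a * τ a) * (((u₀ : F) / τ (u₀ : F)) * τ ((u₀ : F) / τ (u₀ : F))) ^ j) ^ 8 := by
        rw [map_pow, map_mul, map_pow]
        ring
      rw [h1, ha1, hdiv _ hu0, one_pow, one_mul, one_pow]
    · intro w
      obtain ⟨g, hg⟩ := ha3 w
      refine ⟨g ^ 8, ?_⟩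
      rw [map_pow, map_mul, map_pow, hbv w, one_pow, mul_one, hg, ← pow_mul, ← pow_mul]
  obtain ⟨γ, hγ⟩ := hN _ hLam
  obtain ⟨x, hx⟩ := exists_of_fix hD0 hQ (z := β * τ β) (by rw [map_mul, hττ, mul_comm])
  have hx0 : x ≠ 0 := by
    rintro rfl
    rw [map_zero] at hx
    exact mul_ne_zero hβ0 (hτ0 β hβ0) hx
  obtain ⟨v, d, hv, hxd⟩ := kk_cube hD hQ hx0 (by
    intro w
    obtain ⟨g, hg⟩ := hβ3 w
    obtain ⟨g', hg'⟩ := hβ3' w
    exact ⟨g * g', by rw [← hx, map_mul, hg, hg', mul_pow]⟩)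
  set δ : F := algebraMap KK F d with hδ
  have hx' : β * τ β = jF F v * δ ^ 3 := by
    rw [hx, hxd, map_mul, map_pow, ← jF_apply]
  obtain ⟨v', hv'⟩ := hv.exists_right_inv
  obtain ⟨V, hV⟩ := G5b_unit (int_jF F v) (int_jF F v') (by rw [← map_mul, hv', map_one])
  have hjv0 : jF F v ≠ 0 := by
    intro h0
    rw [h0, zero_mul] at hx'
    exact mul_ne_zero hβ0 (hτ0 β hβ0) hx'
  have hδ0 : δ ≠ 0 := by
    intro h0
    rw [h0, zero_pow (by norm_num), mul_zero] at hx'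
    exact mul_ne_zero hβ0 (hτ0 β hβ0) hx'
  have hτu0 : τ (u₀ : F) ≠ 0 := hτ0 _ hu0
  refine hβ (V ^ 8 * (T * u₀⁻¹) ^ (8 * j)) (γ * (δ * k) ^ 8 / β ^ 5) ?_
  have hU : (((V ^ 8 * (T * u₀⁻¹) ^ (8 * j) : (𝓞 F)ˣ)) : F) =
      jF F v ^ 8 * (τ (u₀ : F) * (u₀ : F)⁻¹) ^ (8 * j) := by
    have h1 : (((V ^ 8 * (T * u₀⁻¹) ^ (8 * j) : (𝓞 F)ˣ)) : F) =
        (V : F) ^ 8 * ((T : F) * ((u₀⁻¹ : (𝓞 F)ˣ) : F)) ^ (8 * j) := by
      simp only [Units.val_mul, Units.val_pow_eq_pow_val, map_mul, map_pow]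
    rw [h1, hV, hT', hinv]
  rw [hU, div_pow, mul_pow γ ((δ * k) ^ 8) 3, hγ]
  have haβ : a = β ^ 2 / (jF F v * δ ^ 3 * k ^ 3) := by
    rw [ha, ← hx']
    have := hτ0 β hβ0
    field_simp
  rw [haβ]
  have hb1 : (τ (u₀ : F) * (u₀ : F)⁻¹) ^ (8 * j) * (((u₀ : F) / τ (u₀ : F)) ^ j) ^ 8 = 1 := by
    rw [← pow_mul, mul_comm j 8, ← mul_pow]
    have h1 : τ (u₀ : F) * (u₀ : F)⁻¹ * ((u₀ : F) / τ (u₀ : F)) = 1 := by
      field_simp
    rw [h1, one_pow]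
  have h2 : jF F v ^ 8 * (τ (u₀ : F) * (u₀ : F)⁻¹) ^ (8 * j) *
      ((β ^ 2 / (jF F v * δ ^ 3 * k ^ 3) * ((u₀ : F) / τ (u₀ : F)) ^ j) ^ 8 * ((δ * k) ^ 8) ^ 3 / (β ^ 5) ^ 3) =
      ((τ (u₀ : F) * (u₀ : F)⁻¹) ^ (8 * j) * (((u₀ : F) / τ (u₀ : F)) ^ j) ^ 8) *
        (jF F v ^ 8 * ((β ^ 2 / (jF F v * δ ^ 3 * k ^ 3)) ^ 8 * ((δ * k) ^ 8) ^ 3 / (β ^ 5) ^ 3)) := by
    ring
  rw [h2, hb1, one_mul]
  field_simp

theorem class_unit (hD : Cl D) (hQ : Quad D r τ) (hN : NoBad τ) :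
    ¬ 3 ∣ classNumber F ∧ ∃ u : (𝓞 F)ˣ, ∀ z : 𝓞 F, ((u : F) / τ (u : F)) ^ 8 - 1 ≠ 3 * (z : F) := by
  refine ⟨not_three hD hQ hN, ?_⟩
  obtain ⟨u, hu⟩ := exists_u0 hD hQ hN
  refine ⟨u, fun z hz => hu fun w _ => ?_⟩
  rw [hz, g5a_three, map_mul, map_mul, map_pow]
  have h1 : w.valuation F (z : F) ≤ 1 := w.valuation_le_one _
  have h2 : w.valuation F (jF F (-om ^ 2)) ≤ 1 :=
    w.valuation_le_one (⟨jF F (-om ^ 2), int_jF F _⟩ : 𝓞 F)
  calc w.valuation F (jF F (-om ^ 2)) * w.valuation F (jF F la) ^ 2 * w.valuation F (z : F)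
      ≤ w.valuation F (jF F (-om ^ 2)) * w.valuation F (jF F la) ^ 2 := mul_le_of_le_one_right' h1
    _ ≤ w.valuation F (jF F la) ^ 2 := mul_le_of_le_one_left' h2

end

end JD
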