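import Pool.Agent.JD.Q3
import Pool.Agent.CU.T5b

/-!
# [JD-L0] the completion of `KK` below a completion of `F`

PROOF. `exists_Below`: `CM27.exists_below KK F w` (MP_9ab903_nt/SB/CO.lean) gives `v` (`v.asIdeal = w.asIdeal.under (𝓞 KK)`) and `φ` with `comm`. For `int` go into its proof (copy it): `φ` is `UniformSpace.Completion.mapRingHom` of the (uniformly) continuous
`algebraMap`, so it is continuous; `v x ≤ 1`: the set of `y` with `Valued.v (y - x) < 1` and `Valued.v (φ y - φ x) ≤ 1` is a neighbourhood of `x` (continuity of `φ` at `x`), so it contains an element `y = algebraMap k`, `k ∈ KK`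
(`HeightOneSpectrum.denseRange_algebraMap`), `v k ≤ 1`, `w (algebraMap KK F k) ≤ 1` (for `k` with `v k ≤ 1`: `k = n / d` with `n, d ∈ 𝓞 KK`, `d ∉ v` (`exists_primeCompl_mul_eq_of_integer`), and `d ∉ w` since `v` is the ideal under `w`), so `w (φ x) ≤ 1`.
`below_la`, for `w` over `λ`: `jF la ∈ w`, so `eE la ∈ v.asIdeal`, which is the prime `(eE la)` (`CU.gen_cases`/maximality: `λ` is prime, `v.asIdeal = span {eE la}`), `v (jK la) = exp (-1)` (`HeightOneSpectrum.intValuation_singleton`,
`valuedAdicCompletion_eq_valuation'`).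
`below_val`: `x ≠ 0`, `Valued.v x = exp (-n)`, `n ∈ ℤ`; `x = (jK la)^n x'` with `Valued.v x' = 1`; `int` for `x'` and `x'⁻¹`: `Valued.v (φ x') = 1`; `Valued.v (φ (jK la)) = w (jF la) = exp (-1)` (`comm`, `ov_val`).
`below_res`: the residue field of `v` is `Eis / la = F₃`: `CU.t5b_res` (Pool/Agent/CU/T5b.lean, statement for `x : v.adicCompletionIntegers KK` with divisibility by `t5b_lo v la`), or: choose `k ∈ KK` near `x`, `k = n / d`, etc.
-/

set_option autoImplicit false

open NumberField IsDedekindDomain
open scoped Classical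

namespace JD

open CM27 CF JZ
open CU (la om eE)

/-- `φ` is the homomorphism of the completions at `v` and at the place `w` of `F` above `v` -/
structure Below {F : Type} [Field F] [NumberField F] [Algebra KK F] (v : HeightOneSpectrum (𝓞 KK))
    (w : HeightOneSpectrum (𝓞 F)) (φ : v.adicCompletion KK →+* w.adicCompletion F) : Prop where
  comm : ∀ x : KK, φ (algebraMap KK (v.adicCompletion KK) x) = algebraMap F (w.adicCompletion F) (algebraMap KK F x)
  int : ∀ x : v.adicCompletion KK, Valued.v x ≤ (1 : WithZero (Multiplicative ℤ)) →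
    Valued.v (φ x) ≤ (1 : WithZero (Multiplicative ℤ))

section
variable {D : Eis} {F : Type} [Field F] [NumberField F] [Algebra KK F] {r : F} {τ : F ≃ₐ[KK] F}

theorem l0a_map (w : HeightOneSpectrum (𝓞 F)) : ∃ v : HeightOneSpectrum (𝓞 KK),
    (∀ x : KK, v.valuation KK x ≤ 1 → w.valuation F (algebraMap KK F x) ≤ 1) ∧
      ∃ φ : v.adicCompletion KK →+* w.adicCompletion F, Continuous φ ∧
        ∀ x : KK, φ (algebraMap KK (v.adicCompletion KK) x) =
          algebraMap F (w.adicCompletion F) (algebraMap KK F x) := by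
  have hne : w.asIdeal.under (𝓞 KK) ≠ ⊥ := Ideal.under_ne_bot _ w.ne_bot
  let v : HeightOneSpectrum (𝓞 KK) := ⟨w.asIdeal.under (𝓞 KK), inferInstance, hne⟩
  have : w.asIdeal.LiesOver v.asIdeal := ⟨rfl⟩
  have huc := HeightOneSpectrum.uniformContinuous_algebraMap_liesOver (A := 𝓞 KK) (K := KK)
    (B := 𝓞 F) F v w
  let ψ : (v.valuation KK).Completion →+* (w.valuation F).Completion :=
    UniformSpace.Completion.mapRingHom
      (algebraMap (WithVal (v.valuation KK)) (WithVal (w.valuation F))) huc.continuous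
  have hψ : Continuous ψ := UniformSpace.Completion.continuous_map
  refine ⟨v, fun x hx => ?_, ((HeightOneSpectrum.adicCompletion.equiv F w).symm.toRingHom.comp ψ).comp
    (HeightOneSpectrum.adicCompletion.equiv KK v).toRingHom, ?_, fun x => ?_⟩
  · rw [← HeightOneSpectrum.valuation_liesOver F v w]
    exact pow_le_one' hx _
  · exact ((HeightOneSpectrum.adicCompletion.continuous_ofCompletion F w).comp hψ).comp
      (HeightOneSpectrum.adicCompletion.continuous_toCompletion KK v)
  · apply HeightOneSpectrum.adicCompletion.ext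
    have h1 := UniformSpace.Completion.mapRingHom_coe (f := algebraMap (WithVal (v.valuation KK))
      (WithVal (w.valuation F))) huc.continuous (WithVal.toVal (v.valuation KK) x)
    exact h1

theorem exists_Below (w : HeightOneSpectrum (𝓞 F)) :
    ∃ (v : HeightOneSpectrum (𝓞 KK)) (φ : v.adicCompletion KK →+* w.adicCompletion F), Below v w φ := by
  obtain ⟨v, hv, φ, hφ, hcomm⟩ := l0a_map w
  refine ⟨v, φ, hcomm, fun x hx => ?_⟩
  have h1 : IsOpen {y : v.adicCompletion KK | Valued.v (y - x) ≤ (1 : WithZero (Multiplicative ℤ))} :=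
    (Valued.isOpen_integer (v.adicCompletion KK)).preimage (continuous_id.sub continuous_const)
  have h2 : IsOpen {y : v.adicCompletion KK |
      Valued.v (φ y - φ x) ≤ (1 : WithZero (Multiplicative ℤ))} :=
    (Valued.isOpen_integer (w.adicCompletion F)).preimage (hφ.sub continuous_const)
  obtain ⟨k, hk1, hk2⟩ := (HeightOneSpectrum.denseRange_algebraMap KK v).exists_mem_open
    (h1.inter h2) ⟨x, by
      constructor
      · show Valued.v (x - x) ≤ (1 : WithZero (Multiplicative ℤ))
        rw [sub_self, map_zero]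
        exact zero_le_one
      · show Valued.v (φ x - φ x) ≤ (1 : WithZero (Multiplicative ℤ))
        rw [sub_self, map_zero]
        exact zero_le_one⟩
  have hk3 : v.valuation KK k ≤ 1 := by
    rw [← HeightOneSpectrum.valuedAdicCompletion_eq_valuation' v k]
    have e : algebraMap KK (v.adicCompletion KK) k =
      (algebraMap KK (v.adicCompletion KK) k - x) + x := by ring
    have h3 : Valued.v (algebraMap KK (v.adicCompletion KK) k) ≤
        (1 : WithZero (Multiplicative ℤ)) := by
      rw [e]
      exact (Valued.v.map_add _ _).trans (max_le hk1 hx)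
    exact h3
  have hk4 := hv k hk3
  have hk5 : Valued.v (φ (algebraMap KK (v.adicCompletion KK) k)) ≤
      (1 : WithZero (Multiplicative ℤ)) := by
    rw [hcomm]
    have h3 := HeightOneSpectrum.valuedAdicCompletion_eq_valuation' w (algebraMap KK F k)
    exact (le_of_eq h3).trans hk4
  have e : φ x = φ (algebraMap KK (v.adicCompletion KK) k) -
      (φ (algebraMap KK (v.adicCompletion KK) k) - φ x) := by ring
  rw [e]
  exact (Valued.v.map_sub _ _).trans (max_le hk5 hk2)

section
variable {v : HeightOneSpectrum (𝓞 KK)} {w : HeightOneSpectrum (𝓞 F)} {φ : v.adicCompletion KK →+* w.adicCompletion F}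
  (h : Below v w φ) (hw : OvLa w)
include h hw

theorem below_la : Valued.v (algebraMap KK (v.adicCompletion KK) (jK la)) = WithZero.exp (-1 : ℤ) := by
  have hdom := eis_isDomain
  have e1 : Valued.v (algebraMap KK (v.adicCompletion KK) (jK la)) = v.valuation KK (jK la) :=
    HeightOneSpectrum.valuedAdicCompletion_eq_valuation' v (jK la)
  have e2 : v.valuation KK (jK la) = v.intValuation (eE la) := by
    rw [← HeightOneSpectrum.valuation_of_algebraMap (K := KK)]
    rfl
  have hmem : eE la ∈ v.asIdeal := by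
    rw [← v.intValuation_lt_one_iff_mem, ← e2, ← e1]
    by_contra hcon
    have h0 : algebraMap KK (v.adicCompletion KK) (jK la) ≠ 0 := by
      intro h0
      rw [h0, map_zero] at hcon
      exact hcon zero_lt_one
    have h1 : Valued.v (algebraMap KK (v.adicCompletion KK) (jK la))⁻¹ ≤
        (1 : WithZero (Multiplicative ℤ)) := by
      rw [map_inv₀]
      exact inv_le_one_of_one_le₀ (not_lt.1 hcon)
    have h2 := h.int _ h1
    rw [map_inv₀, h.comm, map_inv₀] at h2
    have h3 := HeightOneSpectrum.valuedAdicCompletion_eq_valuation' w (algebraMap KK F (jK la))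
    have h4 : w.valuation F (algebraMap KK F (jK la)) < 1 := hw
    have h5 : Valued.v (algebraMap F (w.adicCompletion F) (algebraMap KK F (jK la))) <
      (1 : WithZero (Multiplicative ℤ)) := (le_of_eq h3).trans_lt h4
    have h6 : Valued.v (algebraMap F (w.adicCompletion F) (algebraMap KK F (jK la))) ≠
        (0 : WithZero (Multiplicative ℤ)) := by
      rw [map_ne_zero, map_ne_zero, map_ne_zero]
      intro h7
      apply h0
      rw [h7, map_zero]
    exact absurd h2 (not_le.2 ((one_lt_inv₀ (zero_lt_iff.2 h6)).2 h5))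
  obtain ⟨b, hb, hv⟩ := CU.gen v
  have h1 := (CU.mem_iff hv la).1 hmem
  have h2 : v.asIdeal = Ideal.span {eE la} := by
    rw [hv]
    exact CU.s1_span (hb.irreducible.associated_of_dvd CU.la_prime.irreducible h1)
  have h3 : eE la ≠ 0 := by
    rw [Ne, EmbeddingLike.map_eq_zero_iff]
    exact CU.la_prime.ne_zero
  rw [e1, e2, v.intValuation_singleton h3 h2]

omit h hw in
theorem l0b_lt : (WithZero.exp (-1 : ℤ) : WithZero (Multiplicative ℤ)) < 1 := by
  rw [← WithZero.exp_zero, WithZero.exp_lt_exp]
  norm_num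

/-- the place below a place over `λ` is `(λ)` -/
theorem l0b_ideal : v.asIdeal = Ideal.span {eE la} := by
  have h1 := below_la h hw
  have h2 : v.valuation KK (jK la) < 1 := by
    rw [← HeightOneSpectrum.valuedAdicCompletion_eq_valuation']
    exact lt_of_eq_of_lt h1 l0b_lt
  have h3 : eE la ∈ v.asIdeal := by
    rw [jK_apply] at h2
    exact (HeightOneSpectrum.valuation_lt_one_iff_mem v (eE la)).1 h2
  have h4 : Prime (eE la) := (MulEquiv.prime_iff (eE : Eis ≃+* 𝓞 KK)).2 CU.la_prime
  have h5 : (Ideal.span {eE la} : Ideal (𝓞 KK)).IsPrime := (Ideal.span_singleton_prime h4.ne_zero).2 h4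
  have h6 : (Ideal.span {eE la} : Ideal (𝓞 KK)).IsMaximal :=
    h5.isMaximal (fun h7 => h4.ne_zero (Ideal.span_singleton_eq_bot.1 h7))
  exact (h6.eq_of_le v.isPrime.ne_top ((Ideal.span_singleton_le_iff_mem _).2 h3)).symm

theorem below_res {x : v.adicCompletion KK} (hx : Valued.v x ≤ (1 : WithZero (Multiplicative ℤ))) :
    Valued.v x < (1 : WithZero (Multiplicative ℤ)) ∨ Valued.v (x - 1) < (1 : WithZero (Multiplicative ℤ)) ∨
      Valued.v (x + 1) < (1 : WithZero (Multiplicative ℤ)) := by
  have hv := l0b_ideal h hw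
  have h1 := below_la h hw
  have key : ∀ y : v.adicCompletionIntegers KK, CU.t5b_lo v la ∣ y →
      Valued.v (y : v.adicCompletion KK) < (1 : WithZero (Multiplicative ℤ)) := by
    rintro y ⟨c, rfl⟩
    have h2 : (((CU.t5b_lo v la * c : v.adicCompletionIntegers KK)) : v.adicCompletion KK) =
        algebraMap KK (v.adicCompletion KK) (jK la) * (c : v.adicCompletion KK) := rfl
    rw [h2, map_mul, h1]
    have hc : Valued.v (c : v.adicCompletion KK) ≤ (1 : WithZero (Multiplicative ℤ)) := c.2
    have h3 : WithZero.exp (-1 : ℤ) * Valued.v (c : v.adicCompletion KK) ≤ WithZero.exp (-1 : ℤ) * 1 :=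
      mul_le_mul_right hc _
    refine lt_of_le_of_lt h3 ?_
    rw [mul_one]
    exact l0b_lt
  obtain ⟨y, hy⟩ : ∃ y : v.adicCompletionIntegers KK, (y : v.adicCompletion KK) = x := ⟨⟨x, hx⟩, rfl⟩
  have e1 : ((y - 1 : v.adicCompletionIntegers KK) : v.adicCompletion KK) = x - 1 := by
    rw [← hy]
    rfl
  have e2 : ((y + 1 : v.adicCompletionIntegers KK) : v.adicCompletion KK) = x + 1 := by
    rw [← hy]
    rfl
  rcases CU.t5b_res hv y with h3 | h3 | h3
  · left
    have h4 := key _ h3
    rw [hy] at h4
    exact h4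
  · right
    left
    have h4 := key _ h3
    rw [e1] at h4
    exact h4
  · right
    right
    have h4 := key _ h3
    rw [e2] at h4
    exact h4

theorem below_val (hD : Cl D) (hQ : Quad D r τ) (x : v.adicCompletion KK) : Valued.v (φ x) = Valued.v x := by
  have h1 := below_la h hw
  have h2 : Valued.v (φ (algebraMap KK (v.adicCompletion KK) (jK la))) = WithZero.exp (-1 : ℤ) := by
    rw [h.comm]
    have h3 := ov_val hD hQ w hw
    rw [← HeightOneSpectrum.valuedAdicCompletion_eq_valuation'] at h3
    exact h3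
  rcases eq_or_ne x 0 with rfl | hx
  · rw [map_zero, map_zero, map_zero]
  · set π := algebraMap KK (v.adicCompletion KK) (jK la) with hπ
    have hv0 : (Valued.v x : WithZero (Multiplicative ℤ)) ≠ 0 := (Valuation.ne_zero_iff _).2 hx
    obtain ⟨n, hn⟩ : ∃ n : ℤ, (Valued.v x : WithZero (Multiplicative ℤ)) = WithZero.exp (-1 : ℤ) ^ n := by
      refine ⟨-WithZero.log (Valued.v x : WithZero (Multiplicative ℤ)), ?_⟩
      rw [← WithZero.exp_zsmul]
      simp only [smul_eq_mul, mul_neg, mul_one, neg_neg]
      exact (WithZero.exp_log hv0).symm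
    have hπ0 : π ≠ 0 := by
      intro h3
      rw [h3, map_zero] at h1
      exact absurd h1.symm (by simp)
    set y := x * π ^ (-n) with hy
    have hy1 : Valued.v y = (1 : WithZero (Multiplicative ℤ)) := by
      rw [hy, map_mul, map_zpow₀, h1, hn, ← zpow_add₀ (by simp)]
      simp
    have hy0 : y ≠ 0 := mul_ne_zero hx (zpow_ne_zero _ hπ0)
    have e1 : Valued.v (φ y) ≤ (1 : WithZero (Multiplicative ℤ)) := h.int y hy1.le
    have e2 : Valued.v (φ y⁻¹) ≤ (1 : WithZero (Multiplicative ℤ)) := by
      refine h.int y⁻¹ ?_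
      rw [map_inv₀, hy1, inv_one]
    have e3 : Valued.v (φ y) = (1 : WithZero (Multiplicative ℤ)) := by
      refine le_antisymm e1 ?_
      rw [map_inv₀, map_inv₀] at e2
      have h0 : (Valued.v (φ y) : WithZero (Multiplicative ℤ)) ≠ 0 :=
        (Valuation.ne_zero_iff _).2 ((map_ne_zero φ).2 hy0)
      exact (inv_le_one₀ (zero_lt_iff.2 h0)).1 e2
    have e4 : x = y * π ^ n := by
      rw [hy, mul_assoc, ← zpow_add₀ hπ0, neg_add_cancel, zpow_zero, mul_one]
    rw [hn, e4, map_mul, map_mul, e3, one_mul, map_zpow₀, map_zpow₀, h2]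

end

end

end JD
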