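import Pool.Agent.JD.N1
import Pool.Agent.CU.C8

/-!
# [JD-N2] `toV`: `ED d ≃ W3 s` for `s = 2 r`; the action of automorphisms on the kernel of `phiE`
-/

set_option autoImplicit false

open NumberField IsDedekindDomain
open scoped Classical

namespace JD

open CM27 CF JZ
open CU (la om eE W3)

section
variable {K : Type} [Field K] {d r s o : K}

/-- `(x, y) ↦ (x, y - r)`, `s = 2 r` -/
noncomputable def toV (h : r ^ 2 = d) (hs : s = 2 * r) : (ED d).toAffine.Point ≃+ (W3 s).toAffine.Point :=
  (toW h).trans (CM27.trEq (by rw [hs]))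

theorem toV_zero (h : r ^ 2 = d) (hs : s = 2 * r) : toV h hs 0 = 0 := map_zero _

theorem toV_some (h : r ^ 2 = d) (hs : s = 2 * r) (x y : K) (hxy : (ED d).toAffine.Nonsingular x y) :
    ∃ h', toV h hs (.some x y hxy) = .some x (y - r) h' := by
  subst hs
  obtain ⟨h1, e1⟩ := toW_some h x y hxy
  refine ⟨h1, ?_⟩
  have e2 : toV h rfl (.some x y hxy) = CM27.trEq rfl (toW h (.some x y hxy)) := rfl
  rw [e2, e1, CM27.trEq_some]

theorem toV_ptE (h : r ^ 2 = d) (hs : s = 2 * r) {L : Type} [Field L] (f : K →+* L) {d' r' s' : L} (hd : f d = d')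
    (h' : r' ^ 2 = d') (hs' : s' = 2 * r') (hr : f r = r') (hss : f s = s') (P : (ED d).toAffine.Point) :
    toV h' hs' (ptE f hd P) = CUD.ptW f hss (toV h hs P) := by
  cases P with
  | zero =>
    have h0 : (WeierstrassCurve.Affine.Point.zero : (ED d).toAffine.Point) = 0 := rfl
    rw [h0, ptE_zero, map_zero, map_zero]
    rfl
  | some x y hP =>
    obtain ⟨h1, e1⟩ := toV_some h hs x y hP
    rw [e1]
    simp only [ptE, CUD.ptW]
    obtain ⟨h2, e2⟩ := toV_some h' hs' (f x) (f y) (by
      have h5 := (WeierstrassCurve.Affine.map_nonsingular (ED d).toAffine f.injective x y).2 hP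
      have h6 : ((ED d).toAffine.map f) = (ED d').toAffine := p1_map f hd
      rwa [h6] at h5)
    rw [e2, WeierstrassCurve.Affine.Point.some.injEq, map_sub, hr]
    exact ⟨rfl, rfl⟩

/-- the same for an automorphism `f` with `f r = -r`: up to the sign -/
theorem toV_omE (h : r ^ 2 = d) (hs : s = 2 * r) (ho : o ^ 2 + o + 1 = 0) (P : (ED d).toAffine.Point) :
    toV h hs (omE ho P) = CUD.omP ho (toV h hs P) := by
  cases P with
  | zero =>
    have h0 : (WeierstrassCurve.Affine.Point.zero : (ED d).toAffine.Point) = 0 := rfl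
    rw [h0, map_zero, map_zero]
    rfl
  | some x y hP =>
    obtain ⟨h1, e1⟩ := toV_some h hs x y hP
    obtain ⟨h2, e2⟩ := omE_some ho x y hP
    obtain ⟨h3, e3⟩ := toV_some h hs (o * x) y h2
    rw [e1, e2, e3]
    rfl

theorem toV_phiE (h : r ^ 2 = d) (hs : s = 2 * r) (ho : o ^ 2 + o + 1 = 0) (P : (ED d).toAffine.Point) :
    toV h hs (phiE ho P) = CUD.phi ho (toV h hs P) := by
  unfold phiE CUD.phi
  rw [map_sub, toV_omE]

theorem toV_ker (h : r ^ 2 = d) (hs : s = 2 * r) (P : (ED d).toAffine.Point) : CUD.Ker (toV h hs P) ↔ KerE P := by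
  cases P with
  | zero =>
    have h0 : (WeierstrassCurve.Affine.Point.zero : (ED d).toAffine.Point) = 0 := rfl
    rw [h0, map_zero]
    exact Iff.rfl
  | some x y hP =>
    obtain ⟨h1, e1⟩ := toV_some h hs x y hP
    rw [e1]
    exact Iff.rfl

/-- an automorphism fixing `r` fixes the kernel of `phiE` -/
theorem kerE_fix (h : r ^ 2 = d) (f : K →+* K) (hf : f d = d) (hr : f r = r) {P : (ED d).toAffine.Point} (hP : KerE P) :
    ptE f hf P = P := by
  cases P with
  | zero => rfl
  | some x y hxy =>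
    have hx : x = 0 := hP
    subst hx
    have h1 := (WeierstrassCurve.Affine.equation_iff_nonsingular_of_Δ_ne_zero (W := (ED d).toAffine) (x := 0) (y := y))
    have heq : y ^ 2 = 0 ^ 3 + d := (ED_equation d 0 y).1 hxy.1
    have h2 : (y - r) * (y + r) = 0 := by linear_combination heq - h
    simp only [ptE, WeierstrassCurve.Affine.Point.some.injEq]
    refine ⟨map_zero f, ?_⟩
    rcases mul_eq_zero.1 h2 with h3 | h3
    · rw [sub_eq_zero.1 h3, hr]
    · rw [eq_neg_of_add_eq_zero_left h3, map_neg, hr]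

/-- an automorphism with `f r = -r` is `-1` on the kernel of `phiE` -/
theorem kerE_neg (h : r ^ 2 = d) (f : K →+* K) (hf : f d = d) (hr : f r = -r) {P : (ED d).toAffine.Point} (hP : KerE P) :
    ptE f hf P = -P := by
  cases P with
  | zero => rfl
  | some x y hxy =>
    have hx : x = 0 := hP
    subst hx
    have heq : y ^ 2 = 0 ^ 3 + d := (ED_equation d 0 y).1 hxy.1
    have h2 : (y - r) * (y + r) = 0 := by linear_combination heq - h
    have h3 : (ED d).toAffine.negY 0 y = -y := by
      simp [WeierstrassCurve.Affine.negY, ED]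
    simp only [ptE, WeierstrassCurve.Affine.Point.neg_some, WeierstrassCurve.Affine.Point.some.injEq]
    refine ⟨map_zero f, ?_⟩
    rw [h3]
    rcases mul_eq_zero.1 h2 with h3 | h3
    · rw [sub_eq_zero.1 h3, hr]
    · rw [eq_neg_of_add_eq_zero_left h3, map_neg, hr]

theorem kerE_of_phi [CharZero K] (hd : d ≠ 0) (ho : o ^ 2 + o + 1 = 0) {P : (ED d).toAffine.Point} (hP : KerE P) : 3 • P = 0 := by
  have h1 : phiE ho (phiE ho ((omE ho).symm P)) = -(3 • P) := by
    rw [phiE_phiE hd, AddEquiv.apply_symm_apply]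
  have h2 : phiE ho P = 0 := (phiE_eq_zero hd ho P).2 hP
  have h3 : phiE ho ((omE ho).symm P) = 0 := by
    have h4 : omE ho (phiE ho ((omE ho).symm P)) = 0 := by
      rw [← phiE_omE, AddEquiv.apply_symm_apply, h2]
    have h5 := (omE ho).injective (h4.trans (map_zero (omE ho)).symm)
    exact h5
  rw [h3, phiE_zero] at h1
  exact neg_eq_zero.1 h1.symm

end

end JD
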