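import Pool.Agent.JD.N2
import Pool.Agent.CU.C6

/-!
# [JD-N3] the Kummer class over `F` of a cocycle over `KK` with values in the kernel of `phiE`

`L` is an algebraic closure of `F` and of `KK`. `resK σ` is the automorphism `σ` of `L / F` as an automorphism of `L / KK`. `cF c σ = toV (c (resK σ))` is a cocycle on `Gal(L/F)` with values in the kernel of `phi` on `W3 (2 r)`.

PROOF. `cF_coc`: locally constant: `c` is and `resK` is continuous (the Krull topology: `resK` is continuous because for a finite extension of `KK` inside `L`... simplest: `IsLocallyConstant c` means: for every `σ` there is an open neighbourhood; use `CM27.fin_loc_apply`-type arguments or: continuity of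
`resK` from `krullTopology_mem_nhds_one_iff` — for an intermediate field `E` of `L / KK` finite over `KK`, adjoin it to `F`: the intermediate field `F(E)` of `L / F` is finite over `F` and its fixing subgroup is mapped into the fixing subgroup of `E`). Crossed: `hc.crossed`, `toV_ptE` (an automorphism `σ` of `L / F`
fixes `algebraMap F L r`), `CUD.ptW_congr`/`rfl`.
`cF_ker`: `toV_ker`.
`exists_bs`: `CUD.kummer` (CU/C6) for `F`, `L`, `D := 2 * r`, `o := algebraMap KK F o`.
`norm_cube`: `t τ`-extension: let `T : L ≃ₐ[KK] L` with `T (algebraMap F L x) = algebraMap F L (τ x)` (`exists_ext`). `u = s * T s`. For `σ ∈ Gal(L/F)` let `σ₁ = T⁻¹ σ T` (it fixes `F`: `T⁻¹ σ T x = T⁻¹ (σ (τ x)) = T⁻¹ (τ x) = x`; so it is `resK` of an automorphism `σ₁` of `L/F`). Then `σ (T s) = T (σ₁ s) = T (χ(cF σ₁) s) =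
χ(cF σ₁) T s` (`χ = CUD.chi o'` has values in `{1, o, o²}` (`CUD.chi_cases`), fixed by `T`), `σ s = χ(cF σ) s`. `cF σ₁ = -cF σ`: `c(σ T) = c(σ) + ptE σ (c T) = c(σ) + c(T)` (`kerE_fix`) and `c(T σ₁) = c(T) + ptE T (c σ₁) = c(T) - c(σ₁)` (`kerE_neg`), `σ T = T σ₁` (in `L ≃ₐ[KK] L`), so `c(σ) = -c(σ₁)`.
So `χ(cF σ) χ(cF σ₁) = χ(cF σ + cF σ₁) = χ(0) = 1` (`CUD.chi_add`, `CUD.chi_zero`), `σ u = u` for all `σ ∈ Gal(L/F)`, `u = algebraMap F L t` (`InfiniteGalois.mem_range_algebraMap_iff_fixed`), `t³ = b * τ b` (`u³ = s³ T(s³)`, `s³ = b`, injectivity).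
`exists_ext`: `AlgEquiv.liftNormal τ L`, `AlgEquiv.liftNormal_commutes` (`L / KK` is normal: `IsAlgClosure.normal`; the instance `IsAlgClosure KK L` from `IsAlgClosure F L` and algebraicity of `F / KK`).
-/

set_option autoImplicit false

open NumberField IsDedekindDomain
open scoped Classical

namespace JD

open CM27 CF JZ
open CU (la om eE W3)
open CUD (gal_comm alg_comm tau_comm am_ne am_o)

section
variable {D : Eis} {F : Type} [Field F] [NumberField F] [Algebra KK F] {r : F} {τ : F ≃ₐ[KK] F}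
  {L : Type} [Field L] [Algebra F L] [Algebra KK L] [IsScalarTower KK F L]

/-- an automorphism of `L / F` as an automorphism of `L / KK` -/
noncomputable def resK (σ : L ≃ₐ[F] L) : L ≃ₐ[KK] L := σ.restrictScalars KK

theorem resK_apply (σ : L ≃ₐ[F] L) (x : L) : (resK σ : L ≃ₐ[KK] L) x = σ x := rfl

theorem sqL (hQ : Quad D r τ) : (algebraMap F L r) ^ 2 = algebraMap KK L (jK D) := by
  rw [← map_pow, hQ.sq, IsScalarTower.algebraMap_apply KK F L]
  rfl

theorem twoL : algebraMap F L (2 * r) = 2 * algebraMap F L r := by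
  rw [map_mul, map_ofNat]

/-- the restriction of `c` to `Gal(L/F)`, with values in the points of `W3 (2 r)` -/
noncomputable def cF (hQ : Quad D r τ) (c : (L ≃ₐ[KK] L) → (ED (algebraMap KK L (jK D))).toAffine.Point) (σ : L ≃ₐ[F] L) :
    (W3 (algebraMap F L (2 * r))).toAffine.Point := toV (sqL hQ) twoL (c (resK σ))

theorem N3a_alg (F : Type) [Field F] [NumberField F] [Algebra KK F] : Algebra.IsAlgebraic KK F := by
  have h1 : IsScalarTower ℚ KK F := IsScalarTower.of_algebraMap_eq' (Subsingleton.elim _ _)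
  exact Algebra.IsAlgebraic.tower_top (K := ℚ) KK

theorem exists_ext [IsAlgClosure F L] (τ : F ≃ₐ[KK] F) : ∃ T : L ≃ₐ[KK] L, ∀ x : F, T (algebraMap F L x) = algebraMap F L (τ x) := by
  have h1 := N3a_alg F
  have h2 : Algebra.IsAlgebraic F L := IsAlgClosure.isAlgebraic
  have h3 : IsAlgClosed L := IsAlgClosure.isAlgClosed F
  have h4 : Algebra.IsAlgebraic KK L := Algebra.IsAlgebraic.trans KK F L
  have h5 : IsAlgClosure KK L := ⟨h3, h4⟩
  have h6 : Normal KK L := IsAlgClosure.normal KK L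
  exact ⟨τ.liftNormal L, fun x => AlgEquiv.liftNormal_commutes τ L x⟩

/-- `resK` as a homomorphism -/
noncomputable def N3a_hom : (L ≃ₐ[F] L) →* (L ≃ₐ[KK] L) where
  toFun := resK
  map_one' := rfl
  map_mul' := fun _ _ => rfl

theorem N3a_cont : Continuous (resK : (L ≃ₐ[F] L) → (L ≃ₐ[KK] L)) := by
  have h : Continuous (N3a_hom : (L ≃ₐ[F] L) →* (L ≃ₐ[KK] L)) := by
    refine continuous_of_continuousAt_one _ ?_
    intro s hs
    rw [map_one, krullTopology_mem_nhds_one_iff] at hs
    obtain ⟨E, hE, hEs⟩ := hs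
    rw [Filter.mem_map, krullTopology_mem_nhds_one_iff]
    let b := Module.finBasis KK E
    let S : Set L := Set.range (fun i => ((b i : E) : L))
    have hS : Finite S := Set.finite_range _
    have hfin : FiniteDimensional F (IntermediateField.adjoin F S) := by
      apply IntermediateField.finiteDimensional_adjoin
      rintro x ⟨i, rfl⟩
      have h1 : IsIntegral KK ((b i : E) : L) :=
        (Algebra.IsIntegral.isIntegral (R := KK) (b i)).map E.val
      exact h1.tower_top
    refine ⟨IntermediateField.adjoin F S, hfin, ?_⟩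
    intro σ hσ
    apply hEs
    rw [SetLike.mem_coe, IntermediateField.mem_fixingSubgroup_iff] at hσ ⊢
    have h2 : ∀ i, σ ((b i : E) : L) = ((b i : E) : L) := fun i =>
      hσ _ (IntermediateField.subset_adjoin F S ⟨i, rfl⟩)
    intro x hx
    have h3 := b.sum_repr ⟨x, hx⟩
    have h4 : x = ∑ i, (b.repr ⟨x, hx⟩ i) • ((b i : E) : L) := by
      have h5 := congrArg (E.val) h3
      rw [map_sum] at h5
      simp only [map_smul] at h5
      exact h5.symm
    have h6 : (N3a_hom σ) x = ∑ i, (b.repr ⟨x, hx⟩ i) • σ ((b i : E) : L) := by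
      conv_lhs => rw [h4]
      rw [map_sum]
      simp only [map_smul]
      rfl
    rw [h6]
    conv_rhs => rw [h4]
    refine Finset.sum_congr rfl fun i _ => ?_
    rw [h2]
  exact h

theorem cF_coc (hQ : Quad D r τ) {c : (L ≃ₐ[KK] L) → (ED (algebraMap KK L (jK D))).toAffine.Point} (hc : Coc KK L (jK D) c) :
    CUD.Coc F L (2 * r) (cF hQ c) := by
  refine ⟨?_, ?_⟩
  · have h1 : IsLocallyConstant (fun σ : L ≃ₐ[F] L => c (resK σ)) := hc.loc.comp_continuous N3a_cont
    exact h1.comp (toV (sqL hQ) twoL)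
  · intro σ ρ
    have h1 : c (resK (σ * ρ)) = c (resK σ) + ptE ((resK σ : L ≃ₐ[KK] L) : L →+* L)
        (gal_comm (resK σ) (jK D)) (c (resK ρ)) := hc.crossed (resK σ) (resK ρ)
    have h2 : ((resK σ : L ≃ₐ[KK] L) : L →+* L) (algebraMap F L r) = algebraMap F L r :=
      σ.commutes r
    have h3 : ((resK σ : L ≃ₐ[KK] L) : L →+* L) (algebraMap F L (2 * r)) =
        algebraMap F L (2 * r) := σ.commutes (2 * r)
    change toV (sqL hQ) twoL (c (resK (σ * ρ))) = toV (sqL hQ) twoL (c (resK σ)) +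
      CUD.ptW (σ : L →+* L) (gal_comm σ (2 * r)) (toV (sqL hQ) twoL (c (resK ρ)))
    rw [h1, map_add, toV_ptE (sqL hQ) twoL _ (gal_comm (resK σ) (jK D)) (sqL hQ) twoL h2 h3]
    rfl

theorem cF_ker (hQ : Quad D r τ) {c : (L ≃ₐ[KK] L) → (ED (algebraMap KK L (jK D))).toAffine.Point} (hK : ∀ σ, KerE (c σ))
    (σ : L ≃ₐ[F] L) : CUD.Ker (cF hQ c σ) :=
  (toV_ker (sqL hQ) twoL _).2 (hK _)

omit [Algebra KK L] [Field L] [Algebra F L] [IsScalarTower KK F L] in
theorem n3_r_ne (hD : D ≠ 0) (hQ : Quad D r τ) : (2 * r : F) ≠ 0 := by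
  have hjF : jF F D ≠ 0 := fun h0 => hD (jF_inj F (by rw [h0, map_zero]))
  have hr0 : r ≠ 0 := by
    rintro rfl
    apply hjF
    rw [← hQ.sq]
    ring
  exact mul_ne_zero two_ne_zero hr0

theorem exists_bs [IsAlgClosure F L] (hD : D ≠ 0) (hQ : Quad D r τ) {o : KK} (ho : o ^ 2 + o + 1 = 0)
    {c : (L ≃ₐ[KK] L) → (ED (algebraMap KK L (jK D))).toAffine.Point} (hc : Coc KK L (jK D) c) (hK : ∀ σ, KerE (c σ)) :
    ∃ (b : F) (s : L), b ≠ 0 ∧ s ^ 3 = algebraMap F L b ∧
      ∀ σ : L ≃ₐ[F] L, σ s = CUD.chi (algebraMap F L (algebraMap KK F o)) (cF hQ c σ) * s := by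
  have hoF : (algebraMap KK F o) ^ 2 + algebraMap KK F o + 1 = 0 := am_o ho
  exact CUD.kummer (F := F) (L := L) (n3_r_ne hD hQ) hoF (cF hQ c) (cF_coc hQ hc) (cF_ker hQ hK)

theorem norm_cube [IsAlgClosure F L] (hD : D ≠ 0) (hQ : Quad D r τ) {o : KK} (ho : o ^ 2 + o + 1 = 0)
    {c : (L ≃ₐ[KK] L) → (ED (algebraMap KK L (jK D))).toAffine.Point} (hc : Coc KK L (jK D) c) (hK : ∀ σ, KerE (c σ))
    {b : F} {s : L} (hb : b ≠ 0) (hs : s ^ 3 = algebraMap F L b)
    (h : ∀ σ : L ≃ₐ[F] L, σ s = CUD.chi (algebraMap F L (algebraMap KK F o)) (cF hQ c σ) * s) :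
    ∃ t : F, b * τ b = t ^ 3 := by
  have hL0 : CharZero L := charZero_of_injective_algebraMap (algebraMap F L).injective
  have hcl : IsAlgClosed L := IsAlgClosure.isAlgClosed F
  have hnorm : Normal F L := IsAlgClosure.normal F L
  have halg : Algebra.IsAlgebraic F L := IsAlgClosure.isAlgebraic
  have hgal : IsGalois F L := ⟨⟩
  obtain ⟨T, hT⟩ := exists_ext (L := L) τ
  have hoF : (algebraMap KK F o) ^ 2 + algebraMap KK F o + 1 = 0 := am_o ho
  have hoL : (algebraMap F L (algebraMap KK F o)) ^ 2 + algebraMap F L (algebraMap KK F o) + 1 = 0 := am_o hoF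
  have hTo : T (algebraMap F L (algebraMap KK F o)) = algebraMap F L (algebraMap KK F o) := by
    rw [← IsScalarTower.algebraMap_apply KK F L]
    exact T.commutes o
  have hD2L : algebraMap F L (2 * r) ≠ 0 := am_ne (n3_r_ne hD hQ)
  have hTchi : ∀ P : (W3 (algebraMap F L (2 * r))).toAffine.Point,
      T (CUD.chi (algebraMap F L (algebraMap KK F o)) P) = CUD.chi (algebraMap F L (algebraMap KK F o)) P := by
    intro P
    rcases CUD.chi_cases (algebraMap F L (algebraMap KK F o)) P with h1 | h1 | h1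
    · rw [h1, map_one]
    · rw [h1, hTo]
    · rw [h1, map_pow, hTo]
  have hfix : ∀ σ : L ≃ₐ[F] L, σ (s * T s) = s * T s := by
    intro σ
    have hsymm : ∀ x : F, T.symm (algebraMap F L (τ x)) = algebraMap F L x := by
      intro x
      rw [← hT x, AlgEquiv.symm_apply_apply]
    let σ₁ : L ≃ₐ[F] L := AlgEquiv.ofRingEquiv (f := ((T.trans (resK σ)).trans T.symm).toRingEquiv) (fun x => by
      show T.symm (σ (T (algebraMap F L x))) = algebraMap F L x
      rw [hT, σ.commutes, hsymm])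
    have hσ₁ : ∀ x, σ₁ x = T.symm (σ (T x)) := fun x => rfl
    have hmul : resK σ * T = T * resK σ₁ := by
      ext x
      show σ (T x) = T (σ₁ x)
      rw [hσ₁, AlgEquiv.apply_symm_apply]
    have hrT : (T : L →+* L) (algebraMap F L r) = -algebraMap F L r := by
      show T (algebraMap F L r) = _
      rw [hT, hQ.tau, map_neg]
    have h1 := hc.crossed (resK σ) T
    have h2 := hc.crossed T (resK σ₁)
    rw [kerE_fix (sqL hQ) ((resK σ : L ≃ₐ[KK] L) : L →+* L) _ (σ.commutes r) (hK T)] at h1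
    rw [kerE_neg (sqL hQ) (T : L →+* L) _ hrT (hK (resK σ₁))] at h2
    rw [hmul, h2] at h1
    have h3 : c (resK σ) + c (resK σ₁) = 0 := by
      have h4 : c (resK σ) + c T = c T - c (resK σ₁) := by rw [← h1, sub_eq_add_neg]
      have h5 : c (resK σ) + c (resK σ₁) = (c (resK σ) + c T) - c T + c (resK σ₁) := by abel
      rw [h5, h4]
      abel
    have h6 : cF hQ c σ + cF hQ c σ₁ = 0 := by
      show toV (sqL hQ) twoL (c (resK σ)) + toV (sqL hQ) twoL (c (resK σ₁)) = 0
      rw [← map_add, h3, map_zero]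
    have h7 : CUD.chi (algebraMap F L (algebraMap KK F o)) (cF hQ c σ) *
        CUD.chi (algebraMap F L (algebraMap KK F o)) (cF hQ c σ₁) = 1 := by
      rw [← CUD.chi_add hD2L hoL _ _ (cF_ker hQ hK σ) (cF_ker hQ hK σ₁), h6, CUD.chi_zero]
    have h8 : σ (T s) = CUD.chi (algebraMap F L (algebraMap KK F o)) (cF hQ c σ₁) * T s := by
      have h9 : σ (T s) = T (σ₁ s) := by rw [hσ₁, AlgEquiv.apply_symm_apply]
      rw [h9, h σ₁, map_mul, hTchi]
    rw [map_mul, h σ, h8]
    linear_combination (s * T s) * h7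
  obtain ⟨t, ht⟩ := (InfiniteGalois.mem_range_algebraMap_iff_fixed (k := F) (s * T s)).2 hfix
  refine ⟨t, ?_⟩
  apply (algebraMap F L).injective
  rw [map_pow, ht, mul_pow, ← map_pow, hs, hT, map_mul]

end

end JD
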