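import Pool.Agent.JD.Defs

/-!
# [JD-P1] the points of `y² = x³ + d` over fields: maps induced by homomorphisms, `omE = (x, y) ↦ (o x, y)`, `phiE = 1 - omE`, the isomorphism `toW` with `W3 (2 r)`, `r² = d`
-/

set_option autoImplicit false

open NumberField IsDedekindDomain
open scoped Classical

namespace JD

open CM27 CF JZ
open CU (la om eE W3)

/-- The map on points induced by a homomorphism of fields. -/
def ptE {K L : Type} [Field K] [Field L] (f : K →+* L) {d : K} {d' : L} (h : f d = d') :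
    (ED d).toAffine.Point → (ED d').toAffine.Point
  | .zero => .zero
  | .some x y hxy => .some (f x) (f y) (by
      have h1 := (WeierstrassCurve.Affine.map_nonsingular (ED d).toAffine f.injective x y).2 hxy
      have h2 : ((ED d).toAffine.map f) = (ED d').toAffine := by rw [← h]; exact ED_map f d
      rwa [h2] at h1)

section
variable {K L : Type} [Field K] [Field L] (f : K →+* L) {d : K} {d' : L} (hd : f d = d')
include hd

theorem p1_map : (ED d).map f = ED d' := by rw [← hd]; exact ED_map f d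

theorem p1_negY (x y : K) : (ED d').toAffine.negY (f x) (f y) = f ((ED d).toAffine.negY x y) := by
  rw [← p1_map f hd]
  exact WeierstrassCurve.Affine.map_negY f x y

theorem p1_addX (x₁ x₂ l : K) :
    (ED d').toAffine.addX (f x₁) (f x₂) (f l) = f ((ED d).toAffine.addX x₁ x₂ l) := by
  rw [← p1_map f hd]
  exact WeierstrassCurve.Affine.map_addX f x₁ x₂ l

theorem p1_addY (x₁ x₂ y₁ l : K) :
    (ED d').toAffine.addY (f x₁) (f x₂) (f y₁) (f l) = f ((ED d).toAffine.addY x₁ x₂ y₁ l) := by
  rw [← p1_map f hd]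
  exact WeierstrassCurve.Affine.map_addY f x₁ y₁ x₂ l

theorem p1_slope (x₁ x₂ y₁ y₂ : K) :
    (ED d').toAffine.slope (f x₁) (f x₂) (f y₁) (f y₂) =
      f ((ED d).toAffine.slope x₁ x₂ y₁ y₂) := by
  rw [← p1_map f hd]
  exact WeierstrassCurve.Affine.map_slope f x₁ x₂ y₁ y₂

theorem ptE_zero : ptE f hd 0 = 0 := rfl

theorem ptE_add (P Q : (ED d).toAffine.Point) : ptE f hd (P + Q) = ptE f hd P + ptE f hd Q := by
  cases P with
  | zero =>
    have h0 : (WeierstrassCurve.Affine.Point.zero : (ED d).toAffine.Point) = 0 := rfl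
    rw [h0, zero_add, ptE_zero f hd, zero_add]
  | some x₁ y₁ h₁ =>
    cases Q with
    | zero =>
      have h0 : (WeierstrassCurve.Affine.Point.zero : (ED d).toAffine.Point) = 0 := rfl
      rw [h0, add_zero, ptE_zero f hd, add_zero]
    | some x₂ y₂ h₂ =>
      by_cases hxy : x₁ = x₂ ∧ y₁ = (ED d).toAffine.negY x₂ y₂
      · rw [WeierstrassCurve.Affine.Point.add_of_Y_eq hxy.1 hxy.2, ptE_zero f hd]
        symm
        apply WeierstrassCurve.Affine.Point.add_of_Y_eq
        · rw [hxy.1]
        · rw [hxy.2, p1_negY f hd]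
      · rw [WeierstrassCurve.Affine.Point.add_some hxy]
        have hxy' : ¬ (f x₁ = f x₂ ∧ f y₁ = (ED d').toAffine.negY (f x₂) (f y₂)) := by
          rintro ⟨h3, h4⟩
          rw [p1_negY f hd] at h4
          exact hxy ⟨f.injective h3, f.injective h4⟩
        simp only [ptE]
        rw [WeierstrassCurve.Affine.Point.add_some hxy']
        rw [WeierstrassCurve.Affine.Point.some.injEq]
        rw [p1_slope f hd, p1_addX f hd, p1_addY f hd]
        exact ⟨rfl, rfl⟩

theorem ptE_injective : Function.Injective (ptE f hd) := by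
  intro P Q h
  cases P with
  | zero =>
    cases Q with
    | zero => rfl
    | some x y hQ => simp only [ptE] at h; cases h
  | some x y hP =>
    cases Q with
    | zero => simp only [ptE] at h; cases h
    | some x' y' hQ =>
      simp only [ptE, WeierstrassCurve.Affine.Point.some.injEq] at h
      rw [WeierstrassCurve.Affine.Point.some.injEq]
      exact ⟨f.injective h.1, f.injective h.2⟩

/-- The additive homomorphism on points. -/
noncomputable def ptHE : (ED d).toAffine.Point →+ (ED d').toAffine.Point :=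
  AddMonoidHom.mk' (ptE f hd) (ptE_add f hd)

theorem ptHE_apply (P : (ED d).toAffine.Point) : ptHE f hd P = ptE f hd P := rfl

theorem ptE_neg (P : (ED d).toAffine.Point) : ptE f hd (-P) = -ptE f hd P :=
  map_neg (ptHE f hd) P

theorem ptE_sub (P Q : (ED d).toAffine.Point) : ptE f hd (P - Q) = ptE f hd P - ptE f hd Q :=
  map_sub (ptHE f hd) P Q

theorem ptE_nsmul (n : ℕ) (P : (ED d).toAffine.Point) : ptE f hd (n • P) = n • ptE f hd P :=
  map_nsmul (ptHE f hd) n P

end

theorem ptE_comp {K L M : Type} [Field K] [Field L] [Field M] (f : K →+* L) (g : L →+* M) {d : K}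
    {d' : L} {d'' : M} (hd : f d = d') (hd' : g d' = d'') (P : (ED d).toAffine.Point) :
    ptE g hd' (ptE f hd P) = ptE (g.comp f) (by rw [RingHom.comp_apply, hd, hd']) P := by
  cases P <;> rfl

theorem ptE_id {K : Type} [Field K] {d : K} (P : (ED d).toAffine.Point) :
    ptE (RingHom.id K) rfl P = P := by
  cases P <;> rfl

theorem ptE_congr {K L : Type} [Field K] [Field L] {f g : K →+* L} (h : f = g) {d : K} {d' : L}
    (hd : f d = d') (hd' : g d = d') (P : (ED d).toAffine.Point) : ptE f hd P = ptE g hd' P := by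
  subst h
  rfl

/-! ### multiplication by `o` -/

section
variable {K : Type} [Field K] {d o : K}

theorem p1_o3 (ho : o ^ 2 + o + 1 = 0) : o ^ 3 = 1 := by linear_combination (o - 1) * ho

theorem p1_o0 (ho : o ^ 2 + o + 1 = 0) : o ≠ 0 := by
  rintro rfl
  norm_num at ho

/-- the change of variables `(x, y) ↦ (o x, y)` -/
noncomputable def p1_T (ho : o ^ 2 + o + 1 = 0) : WeierstrassCurve.VariableChange K :=
  ⟨Units.mk0 (o ^ 2) (pow_ne_zero 2 (p1_o0 ho)), 0, 0, 0⟩

theorem p1_T_smul (ho : o ^ 2 + o + 1 = 0) : p1_T ho • ED d = ED d := by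
  have ho3 := p1_o3 ho
  have h6 : ((o ^ 2)⁻¹ : K) ^ 6 = 1 := by
    rw [inv_pow, ← pow_mul]
    have : o ^ (2 * 6) = 1 := by
      calc o ^ (2 * 6) = (o ^ 3) ^ 4 := by ring
        _ = 1 := by rw [ho3, one_pow]
    rw [this, inv_one]
  ext
  · rw [WeierstrassCurve.variableChange_a₁]; simp [ED, p1_T]
  · rw [WeierstrassCurve.variableChange_a₂]; simp [ED, p1_T]
  · rw [WeierstrassCurve.variableChange_a₃]; simp [ED, p1_T]
  · rw [WeierstrassCurve.variableChange_a₄]; simp [ED, p1_T]
  · rw [WeierstrassCurve.variableChange_a₆]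
    simp only [ED, p1_T]
    rw [Units.val_inv_eq_inv_val, Units.val_mk0, h6]
    ring

/-- `(x, y) ↦ (o x, y)` as an automorphism of the group of points -/
noncomputable def omE (ho : o ^ 2 + o + 1 = 0) : (ED d).toAffine.Point ≃+ (ED d).toAffine.Point :=
  (CM27.trEq (p1_T_smul ho)).symm.trans (VC63.vcEquiv (ED d) (p1_T ho))

theorem omE_some (ho : o ^ 2 + o + 1 = 0) (x y : K) (h : (ED d).toAffine.Nonsingular x y) :
    ∃ h', omE ho (.some x y h) = .some (o * x) y h' := by
  have ho3 := p1_o3 ho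
  have e1 : (CM27.trEq (p1_T_smul (d := d) ho)).symm (.some x y h) =
      .some x y (by rw [p1_T_smul ho]; exact h) := by
    rw [AddEquiv.symm_apply_eq, CM27.trEq_some]
  have e2 : omE ho (.some x y h) = VC63.vcFun (ED d) (p1_T ho)
      ((CM27.trEq (p1_T_smul (d := d) ho)).symm (.some x y h)) := rfl
  rw [e2, e1, VC63.vcFun_some]
  have eX : VC63.vX (p1_T ho) x = o * x := by
    simp only [VC63.vX, p1_T, Units.val_mk0]
    linear_combination (o * x) * ho3
  have eY : VC63.vY (p1_T ho) x y = y := by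
    simp only [VC63.vY, p1_T, Units.val_mk0]
    linear_combination (y * (o ^ 3 + 1)) * ho3
  have hns : (ED d).toAffine.Nonsingular (o * x) y := by
    rw [← eX, ← eY]
    have h5 := (VC63.vc_nonsingular (ED d) (p1_T ho) x y).1 (by rw [p1_T_smul ho]; exact h)
    rw [eY] at h5 ⊢
    exact h5
  refine ⟨hns, ?_⟩
  rw [WeierstrassCurve.Affine.Point.some.injEq]
  exact ⟨eX, eY⟩

/-- `1 - o` -/
noncomputable def phiE (ho : o ^ 2 + o + 1 = 0) (P : (ED d).toAffine.Point) : (ED d).toAffine.Point :=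
  P - omE ho P

/-- The kernel of `phiE`. -/
def KerE {K : Type} [Field K] {d : K} : (ED d).toAffine.Point → Prop
  | .zero => True
  | .some x _ _ => x = 0

theorem phiE_add (ho : o ^ 2 + o + 1 = 0) (P Q : (ED d).toAffine.Point) :
    phiE ho (P + Q) = phiE ho P + phiE ho Q := by
  unfold phiE
  rw [map_add]
  abel

theorem phiE_zero (ho : o ^ 2 + o + 1 = 0) : phiE ho (0 : (ED d).toAffine.Point) = 0 := by
  unfold phiE
  rw [map_zero, sub_zero]

/-- `phiE` as a homomorphism -/
noncomputable def phiHE (ho : o ^ 2 + o + 1 = 0) : (ED d).toAffine.Point →+ (ED d).toAffine.Point :=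
  AddMonoidHom.mk' (phiE ho) (phiE_add ho)

theorem phiHE_apply (ho : o ^ 2 + o + 1 = 0) (P : (ED d).toAffine.Point) : phiHE ho P = phiE ho P := rfl

theorem phiE_neg (ho : o ^ 2 + o + 1 = 0) (P : (ED d).toAffine.Point) : phiE ho (-P) = -phiE ho P :=
  map_neg (phiHE ho) P

theorem phiE_sub (ho : o ^ 2 + o + 1 = 0) (P Q : (ED d).toAffine.Point) :
    phiE ho (P - Q) = phiE ho P - phiE ho Q := map_sub (phiHE ho) P Q

theorem phiE_nsmul (ho : o ^ 2 + o + 1 = 0) (n : ℕ) (P : (ED d).toAffine.Point) :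
    phiE ho (n • P) = n • phiE ho P := map_nsmul (phiHE ho) n P

theorem phiE_omE (ho : o ^ 2 + o + 1 = 0) (P : (ED d).toAffine.Point) :
    phiE ho (omE ho P) = omE ho (phiE ho P) := by
  unfold phiE
  rw [map_sub]

theorem omE_ptE (ho : o ^ 2 + o + 1 = 0) {L : Type} [Field L] (f : K →+* L) {d' o' : L} (h : f d = d')
    (ho' : o' ^ 2 + o' + 1 = 0) (hf : f o = o') (P : (ED d).toAffine.Point) :
    omE ho' (ptE f h P) = ptE f h (omE ho P) := by
  cases P with
  | zero =>
    have h0 : (WeierstrassCurve.Affine.Point.zero : (ED d).toAffine.Point) = 0 := rfl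
    rw [h0, ptE_zero, map_zero, map_zero, ptE_zero]
  | some x y hP =>
    obtain ⟨h1, e1⟩ := omE_some ho x y hP
    rw [e1]
    simp only [ptE]
    obtain ⟨h2, e2⟩ := omE_some ho' (f x) (f y) (by
      have h5 := (WeierstrassCurve.Affine.map_nonsingular (ED d).toAffine f.injective x y).2 hP
      have h6 : ((ED d).toAffine.map f) = (ED d').toAffine := p1_map f h
      rwa [h6] at h5)
    rw [e2, WeierstrassCurve.Affine.Point.some.injEq, map_mul, hf]
    exact ⟨rfl, rfl⟩

theorem phiE_ptE (ho : o ^ 2 + o + 1 = 0) {L : Type} [Field L] (f : K →+* L) {d' o' : L} (h : f d = d')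
    (ho' : o' ^ 2 + o' + 1 = 0) (hf : f o = o') (P : (ED d).toAffine.Point) :
    phiE ho' (ptE f h P) = ptE f h (phiE ho P) := by
  unfold phiE
  rw [omE_ptE ho f h ho' hf, ptE_sub f h]

end

/-! ### the isomorphism with `W3 (2 r)` -/

section
variable {K : Type} [Field K] {d r o : K}

/-- the change of variables `(x, y) ↦ (x, y + r)` -/
def p1_S (r : K) : WeierstrassCurve.VariableChange K := ⟨1, 0, 0, r⟩

theorem p1_S_smul (h : r ^ 2 = d) : p1_S r • ED d = W3 (2 * r) := by
  ext
  · rw [WeierstrassCurve.variableChange_a₁]; simp [ED, p1_S, W3]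
  · rw [WeierstrassCurve.variableChange_a₂]; simp [ED, p1_S, W3]
  · rw [WeierstrassCurve.variableChange_a₃]; simp [ED, p1_S, W3]
  · rw [WeierstrassCurve.variableChange_a₄]; simp [ED, p1_S, W3]
  · rw [WeierstrassCurve.variableChange_a₆]; simp [ED, p1_S, W3, ← h]

/-- `(x, y) ↦ (x, y - r)` -/
noncomputable def toW (h : r ^ 2 = d) : (ED d).toAffine.Point ≃+ (W3 (2 * r)).toAffine.Point :=
  (VC63.vcEquiv (ED d) (p1_S r)).symm.trans (CM27.trEq (p1_S_smul h))

theorem toW_symm_some (h : r ^ 2 = d) (x y : K) (hxy : (W3 (2 * r)).toAffine.Nonsingular x y) :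
    ∃ h', (toW h).symm (.some x y hxy) = .some x (y + r) h' := by
  have e1 : (CM27.trEq (p1_S_smul h)).symm (.some x y hxy) =
      .some x y (by rw [p1_S_smul h]; exact hxy) := by
    rw [AddEquiv.symm_apply_eq, CM27.trEq_some]
  have e2 : (toW h).symm (.some x y hxy) = VC63.vcFun (ED d) (p1_S r)
      ((CM27.trEq (p1_S_smul h)).symm (.some x y hxy)) := rfl
  rw [e2, e1, VC63.vcFun_some]
  have eX : VC63.vX (p1_S r) x = x := by
    simp [VC63.vX, p1_S]
  have eY : VC63.vY (p1_S r) x y = y + r := by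
    simp [VC63.vY, p1_S]
  have hns : (ED d).toAffine.Nonsingular x (y + r) := by
    have h5 := (VC63.vc_nonsingular (ED d) (p1_S r) x y).1 (by rw [p1_S_smul h]; exact hxy)
    rwa [eX, eY] at h5
  refine ⟨hns, ?_⟩
  rw [WeierstrassCurve.Affine.Point.some.injEq]
  exact ⟨eX, eY⟩

theorem toW_some (h : r ^ 2 = d) (x y : K) (hxy : (ED d).toAffine.Nonsingular x y) :
    ∃ h', toW h (.some x y hxy) = .some x (y - r) h' := by
  have hns : (W3 (2 * r)).toAffine.Nonsingular x (y - r) := by
    rw [← p1_S_smul h, VC63.vc_nonsingular]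
    have eX : VC63.vX (p1_S r) x = x := by simp [VC63.vX, p1_S]
    have eY : VC63.vY (p1_S r) x (y - r) = y := by simp [VC63.vY, p1_S]
    rw [eX, eY]
    exact hxy
  refine ⟨hns, ?_⟩
  obtain ⟨h1, e1⟩ := toW_symm_some h x (y - r) hns
  rw [← AddEquiv.eq_symm_apply, e1, WeierstrassCurve.Affine.Point.some.injEq]
  exact ⟨rfl, by ring⟩

theorem toW_ptE (h : r ^ 2 = d) {L : Type} [Field L] (f : K →+* L) {d' r' : L} (hd : f d = d')
    (h' : r' ^ 2 = d') (hr : f r = r') (P : (ED d).toAffine.Point) :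
    toW h' (ptE f hd P) = CUD.ptW f (by rw [map_mul, hr, map_ofNat]) (toW h P) := by
  cases P with
  | zero =>
    have h0 : (WeierstrassCurve.Affine.Point.zero : (ED d).toAffine.Point) = 0 := rfl
    rw [h0, ptE_zero, map_zero, map_zero]
    rfl
  | some x y hP =>
    obtain ⟨h1, e1⟩ := toW_some h x y hP
    rw [e1]
    simp only [ptE, CUD.ptW]
    obtain ⟨h2, e2⟩ := toW_some h' (f x) (f y) (by
      have h5 := (WeierstrassCurve.Affine.map_nonsingular (ED d).toAffine f.injective x y).2 hP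
      have h6 : ((ED d).toAffine.map f) = (ED d').toAffine := p1_map f hd
      rwa [h6] at h5)
    rw [e2, WeierstrassCurve.Affine.Point.some.injEq, map_sub, hr]
    exact ⟨rfl, rfl⟩

theorem toW_omE (h : r ^ 2 = d) (ho : o ^ 2 + o + 1 = 0) (P : (ED d).toAffine.Point) :
    toW h (omE ho P) = CUD.omP ho (toW h P) := by
  cases P with
  | zero =>
    have h0 : (WeierstrassCurve.Affine.Point.zero : (ED d).toAffine.Point) = 0 := rfl
    rw [h0, map_zero, map_zero]
    rfl
  | some x y hP =>
    obtain ⟨h1, e1⟩ := toW_some h x y hP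
    obtain ⟨h2, e2⟩ := omE_some ho x y hP
    obtain ⟨h3, e3⟩ := toW_some h (o * x) y h2
    rw [e1, e2, e3]
    rfl

theorem toW_phiE (h : r ^ 2 = d) (ho : o ^ 2 + o + 1 = 0) (P : (ED d).toAffine.Point) :
    toW h (phiE ho P) = CUD.phi ho (toW h P) := by
  unfold phiE CUD.phi
  rw [map_sub, toW_omE]

theorem toW_ker (h : r ^ 2 = d) (P : (ED d).toAffine.Point) : CUD.Ker (toW h P) ↔ KerE P := by
  cases P with
  | zero =>
    have h0 : (WeierstrassCurve.Affine.Point.zero : (ED d).toAffine.Point) = 0 := rfl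
    rw [h0, map_zero]
    exact Iff.rfl
  | some x y hP =>
    obtain ⟨h1, e1⟩ := toW_some h x y hP
    rw [e1]
    exact Iff.rfl

end

end JD
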