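import Pool.Agent.JD.Defs

/-!
# [JD-Q1] the quadratic extension `F = K(√D)`

PROOF. `not_sq`: `x` is integral over `ℤ` (`x² = jK D` is, `IsIntegral.of_pow`), so `x = jK m` (`eE` is a bijection `Eis ≃ 𝓞 KK`), `D = m²` (`jK_inj`), and `4 ∣ D - m²` contradicts `CondTwo`.
`exists_tau`: `F / KK` has degree 2, characteristic 0; `r ∉ KK` by `not_sq`. `F / KK` is normal and separable (`IsGalois`: every extension of degree 2 in characteristic 0; e.g. `F = KK(r)` is the splitting field of
`X² - D`; or `IsQuadraticExtension`), so there are 2 automorphisms; a nontrivial one moves `r` (`r ∉ KK`; the fixed field of the group is `KK`), `(τ r)² = r²`, `τ r ≠ r`, so `τ r = -r`.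
`exists_uv`: `1, r` are linearly independent over `KK` (`r ∉ KK`), hence a basis. `uv_inj`: if `v ≠ 0` then `r = -u/v ∈ KK`, contradiction to `τ r = -r ≠ r` (`r ≠ 0`, as `r² = D ≠ 0`).
`tau_tau`: `τ (τ z) = z` by `exists_uv`. `exists_of_fix`: `z = u + v r`, `τ z = u - v r`, so `2 v r = 0`, `v = 0`.
-/

set_option autoImplicit false

open NumberField IsDedekindDomain
open scoped Classical

namespace JD

open CM27 CF JZ
open CU (la om eE)

theorem not_sq {D : Eis} (h2 : CondTwo D) (x : KK) : x ^ 2 ≠ jK D := by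
  intro hx
  have hint : IsIntegral (𝓞 KK) (x ^ 2) := by
    rw [hx, jK_apply]
    exact isIntegral_algebraMap
  obtain ⟨y, hy⟩ := IsIntegrallyClosed.exists_algebraMap_eq_of_isIntegral_pow (by norm_num : 0 < 2) hint
  obtain ⟨m, rfl⟩ := eE.surjective y
  have h3 : jK m ^ 2 = jK D := by
    rw [← hx, ← hy]
    rfl
  rw [← map_pow] at h3
  have h4 := jK_inj h3
  exact h2 m (by rw [h4, sub_self]; exact dvd_zero _)

theorem exists_tau {D : Eis} (h2 : CondTwo D) (F : Type) [Field F] [NumberField F] [Algebra KK F]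
    (hfr : Module.finrank KK F = 2) (r : F) (hr : r ^ 2 = jF F D) : ∃ τ : F ≃ₐ[KK] F, Quad D r τ := by
  haveI : Algebra.IsQuadraticExtension KK F := ⟨hfr⟩
  have hfix : ¬ ∀ τ : F ≃ₐ[KK] F, τ r = r := by
    intro h
    have h1 : r ∈ (⊥ : IntermediateField KK F) := (IsGalois.mem_bot_iff_fixed r).2 h
    obtain ⟨x, hx⟩ := IntermediateField.mem_bot.1 h1
    refine not_sq h2 x ((algebraMap KK F).injective ?_)
    rw [map_pow, hx, hr, jF_apply]
  push_neg at hfix
  obtain ⟨τ, hτ⟩ := hfix
  refine ⟨τ, ⟨hfr, hr, ?_⟩⟩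
  have h3 : (τ r) ^ 2 = r ^ 2 := by
    rw [← map_pow, hr, jF_apply]
    exact τ.commutes _
  rcases sq_eq_sq_iff_eq_or_eq_neg.1 h3 with h | h
  · exact absurd h hτ
  · exact h

section
variable {D : Eis} {F : Type} [Field F] [NumberField F] [Algebra KK F] {r : F} {τ : F ≃ₐ[KK] F}
  (hD : D ≠ 0) (hQ : Quad D r τ)
include hD hQ

theorem r_ne : r ≠ 0 := by
  intro h
  have h1 := hQ.sq
  rw [h, zero_pow (by norm_num : (2 : ℕ) ≠ 0)] at h1
  exact hD (jF_inj F (by rw [← h1, map_zero]))

theorem q1b_not_mem (x : KK) : algebraMap KK F x ≠ r := by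
  intro h
  have h1 := hQ.tau
  rw [← h, τ.commutes, h] at h1
  exact r_ne hD hQ (self_eq_neg.1 h1)

theorem q1b_inj {u v : KK} (h : algebraMap KK F u + algebraMap KK F v * r = 0) : u = 0 ∧ v = 0 := by
  by_cases hv : v = 0
  · rw [hv, map_zero, zero_mul, add_zero] at h
    exact ⟨(map_eq_zero (algebraMap KK F)).1 h, hv⟩
  · exfalso
    have hv' : algebraMap KK F v ≠ 0 := fun h' => hv ((map_eq_zero (algebraMap KK F)).1 h')
    refine q1b_not_mem hD hQ (-u / v) ?_
    rw [map_div₀, map_neg, div_eq_iff hv']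
    linear_combination -h

theorem exists_uv (z : F) : ∃ u v : KK, z = algebraMap KK F u + algebraMap KK F v * r := by
  have hli : LinearIndependent KK ![(1 : F), r] := by
    rw [LinearIndependent.pair_iff]
    intro s t hst
    refine q1b_inj hD hQ ?_
    rw [← hst, Algebra.smul_def, Algebra.smul_def, mul_one]
  haveI : Module.Finite KK F := Module.finite_of_finrank_pos (by rw [hQ.fr]; norm_num)
  have hspan := hli.span_eq_top_of_card_eq_finrank (by rw [hQ.fr]; rfl)
  have hz : z ∈ Submodule.span KK (Set.range ![(1 : F), r]) := by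
    rw [hspan]
    trivial
  rw [Matrix.range_cons, Matrix.range_cons, Matrix.range_empty, Set.union_empty, Set.singleton_union,
    Submodule.mem_span_pair] at hz
  obtain ⟨a, b, hab⟩ := hz
  refine ⟨a, b, ?_⟩
  rw [← hab, Algebra.smul_def, Algebra.smul_def, mul_one]

theorem uv_inj {u v : KK} (h : algebraMap KK F u + algebraMap KK F v * r = 0) : u = 0 ∧ v = 0 :=
  q1b_inj hD hQ h

theorem tau_tau (z : F) : τ (τ z) = z := by
  obtain ⟨u, v, rfl⟩ := exists_uv hD hQ z
  simp only [map_add, map_mul, τ.commutes, hQ.tau, map_neg, neg_neg]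

theorem exists_of_fix {z : F} (h : τ z = z) : ∃ u : KK, z = algebraMap KK F u := by
  obtain ⟨u, v, rfl⟩ := exists_uv hD hQ z
  simp only [map_add, map_mul, τ.commutes, hQ.tau] at h
  have h1 : algebraMap KK F (0 : KK) + algebraMap KK F (2 * v) * r = 0 := by
    rw [map_zero, map_mul, map_ofNat]
    linear_combination -h
  have h2 := (q1b_inj hD hQ h1).2
  have h3 : v = 0 := by
    rcases mul_eq_zero.1 h2 with h4 | h4
    · exact absurd h4 two_ne_zero
    · exact h4
  exact ⟨u, by rw [h3, map_zero, zero_mul, add_zero]⟩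

end

end JD
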