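import Pool.Agent.JD.Q1

/-!
# [JD-Q2] the integers of `F = K(√D)` are `ℤ[ω] + ℤ[ω] √D`

PROOF. `ne_of_cl`: `D` is squarefree. `int_KK`: `u ∈ 𝓞 KK`, `eE` is surjective. `int_jF`: image of an element of `𝓞 KK`. `int_r`: `r² = jF D` is integral. `fix_int`: `exists_of_fix`, and `u : KK` is integral because its image in `F` is
(`isIntegral_algebraMap_iff` with the injective `algebraMap KK F`).
`exists_int`: `z = u + v r` with `u, v ∈ KK` (`exists_uv`). `z + τ z = 2 u` and `z * τ z = u² - v² D` are integral and fixed by `τ` (`τ z` is integral), so `2 u = jK U`, `u² - v² D = jK N`. Hence `(2 v)² D = U² - 4 N` is (the image of)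
an element of `ℤ[ω]`. As `D` is squarefree, `2 v` is in `ℤ[ω]`: write `2 v = p / q` with coprime `p, q : Eis` (`Eis` is a PID / GCD domain: `IsFractionRing`-style representation of an element of `KK` as a quotient of elements of `𝓞 KK`; or: take any
representation `2 v = p / q` and divide by the gcd), `q² ∣ p² D`, so `q² ∣ D`, `q` is a unit (`D` squarefree). So `2 v = jK V` and `U² - D V² = 4 N`.
If `2 ∤ V`: `2` is a prime element of `ℤ[ω]` (norm 4; `2` remains prime), so `V` is coprime to `2`, hence to `4`: `V V' ≡ 1 mod 4` for a `V'`; then `D ≡ (U V')² mod 4`, contradiction to `CondTwo`. So `V = 2 V₁`, `4 ∣ U²`, `2 ∣ U`,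
`U = 2 U₁`, `z = jF U₁ + jF V₁ r`.
`jr_inj`: `uv_inj` with `jK_inj`.
-/

set_option autoImplicit false

open NumberField IsDedekindDomain
open scoped Classical

namespace JD

open CM27 CF JZ
open CU (la om eE)

theorem ne_of_cl {D : Eis} (hD : Cl D) : D ≠ 0 := by
  exact hD.1.ne_zero

theorem int_KK {u : KK} (h : IsIntegral ℤ u) : ∃ a : Eis, u = jK a := by
  obtain ⟨a, ha⟩ := (eE : Eis ≃+* 𝓞 KK).surjective ⟨u, (mem_integralClosure_iff ℤ KK).2 h⟩
  refine ⟨a, ?_⟩
  rw [jK_apply, ha]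
  rfl

theorem int_jF (F : Type) [Field F] [Algebra KK F] (a : Eis) : IsIntegral ℤ (jF F a) := by
  rw [jF_apply, jK_apply]
  exact (RingOfIntegers.isIntegral_coe (eE a)).map ((algebraMap KK F).toIntAlgHom)

private theorem q2_par {a : Eis} (h : ¬ (2 : Eis) ∣ a) : a.norm % 2 = 1 := by
  by_contra hcon
  apply h
  have h1 : a.norm % 2 = 0 := by omega
  rw [norm_eq] at h1
  have h2 : a.re % 2 = 0 ∧ a.im % 2 = 0 := by
    rcases Int.emod_two_eq_zero_or_one a.re with hr | hr <;>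
      rcases Int.emod_two_eq_zero_or_one a.im with hi | hi
    · exact ⟨hr, hi⟩
    all_goals
      exfalso
      obtain ⟨k, hk⟩ : ∃ k, a.re = 2 * k + a.re % 2 := ⟨a.re / 2, by omega⟩
      obtain ⟨l, hl⟩ : ∃ l, a.im = 2 * l + a.im % 2 := ⟨a.im / 2, by omega⟩
      rw [hr] at hk
      rw [hi] at hl
      rw [hk, hl] at h1
      ring_nf at h1
      omega
  refine ⟨⟨a.re / 2, a.im / 2⟩, ?_⟩
  ext
  · rw [two_mul, QuadraticAlgebra.re_add]
    change a.re = a.re / 2 + a.re / 2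
    omega
  · rw [two_mul, QuadraticAlgebra.im_add]
    change a.im = a.im / 2 + a.im / 2
    omega

private theorem q2_inv {V : Eis} (h : ¬ (2 : Eis) ∣ V) : ∃ V' k : Eis, V * V' = 1 + 4 * k := by
  have h1 := q2_par h
  obtain ⟨m, hm⟩ : ∃ m : ℤ, V.norm = 2 * m + 1 := ⟨V.norm / 2, by omega⟩
  refine ⟨star V * (algebraMap ℤ Eis V.norm), algebraMap ℤ Eis (m ^ 2 + m), ?_⟩
  rw [← mul_assoc, ← QuadraticAlgebra.algebraMap_norm_eq_mul_star, ← map_mul, hm]
  have h4 : (4 : Eis) = algebraMap ℤ Eis 4 := by simp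
  rw [h4, ← map_mul, ← map_one (algebraMap ℤ Eis), ← map_add]
  congr 1
  ring

private theorem q2_sq {U : Eis} (h : (4 : Eis) ∣ U ^ 2) : (2 : Eis) ∣ U := by
  by_contra hcon
  have h1 := q2_par hcon
  obtain ⟨k, hk⟩ := h
  have h2 : U.norm ^ 2 = 16 * k.norm := by
    have h3 := congrArg (fun a : Eis => a.norm) hk
    simp only [map_pow, map_mul] at h3
    rw [h3, norm_eq 4]
    have e1 : (4 : Eis).re = 4 := rfl
    have e2 : (4 : Eis).im = 0 := rfl
    rw [e1, e2]
    ring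
  obtain ⟨m, hm⟩ : ∃ m : ℤ, U.norm = 2 * m + 1 := ⟨U.norm / 2, by omega⟩
  rw [hm] at h2
  ring_nf at h2
  omega

section
variable {D : Eis} {F : Type} [Field F] [NumberField F] [Algebra KK F] {r : F} {τ : F ≃ₐ[KK] F}
  (hD : Cl D) (hQ : Quad D r τ)
include hD hQ

omit hD in
theorem int_r : IsIntegral ℤ r := by
  refine IsIntegral.of_pow (n := 2) (by norm_num) ?_
  rw [hQ.sq]
  exact int_jF F D

theorem jr_inj {a b : Eis} (h : jF F a + jF F b * r = 0) : a = 0 ∧ b = 0 := by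
  rw [jF_apply, jF_apply] at h
  obtain ⟨h1, h2⟩ := uv_inj (ne_of_cl hD) hQ h
  exact ⟨jK_inj (by rw [h1, map_zero]), jK_inj (by rw [h2, map_zero])⟩

theorem fix_int {z : F} (h : τ z = z) (hi : IsIntegral ℤ z) : ∃ a : Eis, z = jF F a := by
  obtain ⟨u, rfl⟩ := exists_of_fix (ne_of_cl hD) hQ h
  have hu : IsIntegral ℤ u := by
    obtain ⟨p, hp, hp2⟩ := hi
    refine ⟨p, hp, ?_⟩
    have h1 : algebraMap KK F (Polynomial.eval₂ (algebraMap ℤ KK) u p) = 0 := by
      rw [Polynomial.hom_eval₂, ← hp2]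
      congr 1
      exact RingHom.ext_int _ _
    exact (map_eq_zero _).1 h1
  obtain ⟨a, ha⟩ := int_KK hu
  exact ⟨a, by rw [jF_apply, ha]⟩

theorem exists_int {z : F} (h : IsIntegral ℤ z) : ∃ a b : Eis, z = jF F a + jF F b * r := by
  have hDne : D ≠ 0 := ne_of_cl hD
  have hinj : Function.Injective (algebraMap KK F) := (algebraMap KK F).injective
  obtain ⟨u, v, huv⟩ := exists_uv hDne hQ z
  have hτz : τ z = algebraMap KK F u - algebraMap KK F v * r := by
    rw [huv, map_add, map_mul, AlgEquiv.commutes, AlgEquiv.commutes, hQ.tau]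
    ring
  have hττ := tau_tau hDne hQ z
  have hτi : IsIntegral ℤ (τ z) := h.map (τ : F →ₐ[KK] F)
  -- trace and norm
  obtain ⟨U, hU⟩ := fix_int hD hQ (z := z + τ z) (by rw [map_add, hττ, add_comm]) (h.add hτi)
  obtain ⟨N, hN⟩ := fix_int hD hQ (z := z * τ z) (by rw [map_mul, hττ, mul_comm]) (h.mul hτi)
  have hU' : 2 * u = jK U := by
    apply hinj
    rw [← jF_apply, ← hU, hτz, huv, map_mul, map_ofNat]
    ring
  have hN' : u ^ 2 - v ^ 2 * jK D = jK N := by
    apply hinj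
    rw [← jF_apply, ← hN, hτz, huv, map_sub, map_mul, map_pow, map_pow, ← jF_apply, ← hQ.sq]
    ring
  -- `2 v` is an integer
  have hM : (2 * v) ^ 2 * jK D = jK (U ^ 2 - 4 * N) := by
    rw [map_sub, map_mul, map_pow, map_ofNat, ← hU', ← hN']
    ring
  have hw : IsIntegral ℤ ((2 * v) * jK D) := by
    apply IsIntegral.of_pow (n := 2) (by norm_num)
    have h1 : ((2 * v) * jK D) ^ 2 = jK ((U ^ 2 - 4 * N) * D) := by
      rw [map_mul, ← hM]
      ring
    rw [h1, jK_apply]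
    exact RingOfIntegers.isIntegral_coe _
  obtain ⟨P, hP⟩ := int_KK hw
  have hP2 : P ^ 2 = (U ^ 2 - 4 * N) * D := by
    apply jK_inj
    rw [map_pow, ← hP, map_mul, ← hM]
    ring
  have : IsDomain Eis := eis_isDomain
  have : IsPrincipalIdealRing Eis := eis_pid
  have hDP : D ∣ P := hD.1.isRadical 2 P (by rw [hP2]; exact dvd_mul_left _ _)
  obtain ⟨V, hV⟩ := hDP
  have hjD : jK D ≠ 0 := by
    intro h1
    apply hDne
    apply jK_inj
    rw [h1, map_zero]
  have hv : 2 * v = jK V := by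
    apply mul_right_cancel₀ hjD
    rw [hP, hV, map_mul, mul_comm]
  have hUV : V ^ 2 * D = U ^ 2 - 4 * N := by
    apply jK_inj
    rw [map_mul, map_pow, ← hv, hM]
  -- `2 ∣ V`
  have hV2 : (2 : Eis) ∣ V := by
    by_contra hcon
    obtain ⟨V', k, hk⟩ := q2_inv hcon
    apply hD.2.2 (U * V')
    refine ⟨-(N * V' ^ 2) - (2 * k + 4 * k ^ 2) * D, ?_⟩
    have h1 : (V * V') ^ 2 * D = (U ^ 2 - 4 * N) * V' ^ 2 := by
      rw [← hUV]
      ring
    rw [hk] at h1
    linear_combination h1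
  obtain ⟨V₁, rfl⟩ := hV2
  have hU2 : (2 : Eis) ∣ U := by
    apply q2_sq
    refine ⟨V₁ ^ 2 * D + N, ?_⟩
    linear_combination -hUV
  obtain ⟨U₁, rfl⟩ := hU2
  have h2 : (2 : KK) ≠ 0 := two_ne_zero
  have hu : u = jK U₁ := by
    apply mul_left_cancel₀ h2
    rw [hU', map_mul, map_ofNat]
  have hv' : v = jK V₁ := by
    apply mul_left_cancel₀ h2
    rw [hv, map_mul, map_ofNat]
  exact ⟨U₁, V₁, by rw [huv, hu, hv']; rfl⟩

end

end JD
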