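import Pool.Agent.JD.Defs
import Pool.Agent.PI.T2a
import Pool.Agent.PI.S4

/-!
# [JD-S2] the equation `y² = x³ + D` is minimal; local polynomials (abstract discrete valuation ring `A`)

PROOF. `ED_Δ : (ED D).Δ = -432 D²`, `432 = 2⁴ 3³`. `VC63.unit_of_good`, `VC63.unit_of_irreducible_pow` (see CU/T2.lean: `unit_good`, `unit_bad`, `unit_la`): `unit_p`: `Δ = (-432 D'²) l²`; `unit_two`: `l = 2`, `Δ = (-27 D'²) 2^(4 + 2 k)`, `4 + 2 k < 12`; `unit_la`: `3 = ε l²`, `Δ = (-16 ε³ D²) l⁶`,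
`2 = ε l² - 1` is a unit (`l` is in the maximal ideal of the local ring).
`localPoly_good`: as `CU.localPoly_W_good` (CU/S4.lean), `GE.localPoly_good`. `localPoly_bad`: `PI.localPoly_add'` (PI/S4.lean): `Δ` and `c₄ = 0` are not units.
-/

set_option autoImplicit false

open Polynomial NumberField IsDedekindDomain
open scoped Classical ComplexConjugate

namespace JD

section
variable {A : Type} [CommRing A] [IsDomain A] [IsDiscreteValuationRing A] {K : Type} [Field K]
  [Algebra A K] [IsFractionRing A K]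

theorem unit_good (D : A) (h : IsUnit (6 * D)) (T : WeierstrassCurve.VariableChange K)
    (hT : (T • (ED D).map (algebraMap A K)).IsMinimal A) :
    (IsDiscreteValuationRing.maximalIdeal A).valuation K (T.u : K) = 1 := by
  have h6 : IsUnit (6 : A) := isUnit_of_mul_isUnit_left h
  have hD : IsUnit D := isUnit_of_mul_isUnit_right h
  have h2 : IsUnit (2 : A) := isUnit_of_dvd_unit ⟨3, by norm_num⟩ h6
  refine VC63.unit_of_good (ED D) ?_ T hT
  rw [ED_Δ, show (-432 : A) * D ^ 2 = -(6 ^ 3 * 2 * D ^ 2) by ring]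
  exact (((h6.pow 3).mul h2).mul (hD.pow 2)).neg

theorem unit_p (h6 : IsUnit (6 : A)) (l D' : A) (hl : Irreducible l) (hD : IsUnit D')
    (T : WeierstrassCurve.VariableChange K) (hT : (T • (ED (l * D')).map (algebraMap A K)).IsMinimal A) :
    (IsDiscreteValuationRing.maximalIdeal A).valuation K (T.u : K) = 1 := by
  have h2 : IsUnit (2 : A) := isUnit_of_dvd_unit ⟨3, by norm_num⟩ h6
  refine VC63.unit_of_irreducible_pow (ED (l * D')) l hl (-432 * D' ^ 2) ?_ 2 (by norm_num) ?_ T hT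
  · rw [show (-432 : A) * D' ^ 2 = -(6 ^ 3 * 2 * D' ^ 2) by ring]
    exact (((h6.pow 3).mul h2).mul (hD.pow 2)).neg
  · rw [ED_Δ]
    ring

theorem unit_two (h3 : IsUnit (3 : A)) (h2 : Irreducible (2 : A)) (D' : A) (hD : IsUnit D') (k : ℕ) (hk : k = 0 ∨ k = 1)
    (T : WeierstrassCurve.VariableChange K) (hT : (T • (ED (2 ^ k * D')).map (algebraMap A K)).IsMinimal A) :
    (IsDiscreteValuationRing.maximalIdeal A).valuation K (T.u : K) = 1 := by
  refine VC63.unit_of_irreducible_pow (ED (2 ^ k * D')) 2 h2 (-27 * D' ^ 2) ?_ (4 + 2 * k) (by omega) ?_ T hT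
  · rw [show (-27 : A) * D' ^ 2 = -(3 ^ 3 * D' ^ 2) by ring]
    exact ((h3.pow 3).mul (hD.pow 2)).neg
  · rw [ED_Δ]
    ring

theorem unit_la (l ε : A) (hl : Irreducible l) (hε : IsUnit ε) (h3 : (3 : A) = ε * l ^ 2) (D : A) (hD : IsUnit D)
    (T : WeierstrassCurve.VariableChange K) (hT : (T • (ED D).map (algebraMap A K)).IsMinimal A) :
    (IsDiscreteValuationRing.maximalIdeal A).valuation K (T.u : K) = 1 := by
  have h2 : IsUnit (2 : A) := by
    by_contra h
    have h1 : (2 : A) ∈ IsLocalRing.maximalIdeal A := (IsLocalRing.mem_maximalIdeal _).2 h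
    have hl' : l ∈ IsLocalRing.maximalIdeal A := (IsLocalRing.mem_maximalIdeal l).2 hl.not_isUnit
    have h4 : (3 : A) ∈ IsLocalRing.maximalIdeal A := by
      rw [h3]
      exact Ideal.mul_mem_left _ _ (Ideal.pow_mem_of_mem _ hl' 2 (by norm_num))
    have h5 := Ideal.sub_mem _ h4 h1
    rw [show (3 : A) - 2 = 1 by norm_num] at h5
    exact (Ideal.ne_top_iff_one _).1 (IsLocalRing.maximalIdeal.isMaximal A).ne_top h5
  refine VC63.unit_of_irreducible_pow (ED D) l hl (-(2 ^ 4 * ε ^ 3 * D ^ 2)) ?_ 6 (by norm_num) ?_ T hT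
  · exact (((h2.pow 4).mul (hε.pow 3)).mul (hD.pow 2)).neg
  · rw [ED_Δ, show (-432 : A) = -(16 * 3 ^ 3) by norm_num, h3]
    ring

variable (A K)

theorem localPoly_good [Finite (IsLocalRing.ResidueField A)] (D : A) (h : IsUnit (6 * D)) :
    (ED (algebraMap A K D)).localPolynomial A =
      1 - C ((Nat.card (IsLocalRing.ResidueField A) : ℤ) + 1 -
        Nat.card (ED (IsLocalRing.residue A D)).toAffine.Point) * X
      + C (Nat.card (IsLocalRing.ResidueField A) : ℤ) * X ^ 2 := by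
  have hΔ : IsUnit (ED D).Δ := by
    have h6 : IsUnit (6 : A) := isUnit_of_mul_isUnit_left h
    have hD : IsUnit D := isUnit_of_mul_isUnit_right h
    have h2 : IsUnit (2 : A) := isUnit_of_dvd_unit ⟨3, by norm_num⟩ h6
    rw [ED_Δ, show (-432 : A) * D ^ 2 = -(6 ^ 3 * 2 * D ^ 2) by ring]
    exact (((h6.pow 3).mul h2).mul (hD.pow 2)).neg
  have h1 := GE.localPoly_good A (K := K) (ED D) hΔ 1
  rw [one_smul, ED_map, ED_map] at h1
  exact h1

/-- `hu`: one of `unit_p`, `unit_two`, `unit_la` -/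
theorem localPoly_bad (D : A) (h : ¬ IsUnit (6 * D))
    (hu : ∀ T : WeierstrassCurve.VariableChange K, (T • (ED D).map (algebraMap A K)).IsMinimal A →
      (IsDiscreteValuationRing.maximalIdeal A).valuation K (T.u : K) = 1) :
    (ED (algebraMap A K D)).localPolynomial A = 1 := by
  have h1 := PI.localPoly_add' A K (ED D) hu ?_ ?_
  · rw [ED_map] at h1
    exact h1
  · intro hΔ
    rw [ED_Δ] at hΔ
    exact h (isUnit_of_dvd_unit ⟨-72 * D, by ring⟩ hΔ)
  · rw [ED_c₄]
    exact not_isUnit_zero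

end

end JD
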