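import Pool.Agent.JD.S2
import Pool.Agent.PI.T3a
import Pool.Agent.CU.T3

/-!
# [JD-S3] the Tamagawa numbers of `y² = x³ + D` outside `λ` are `1` (abstract discrete valuation ring `A`)

PROOF. `SBSD.tamagawa A (ED (algebraMap A K D)) = SBSD.tamagawa A ((ED D).map (algebraMap A K))` (`ED_map`), `VC63.tamagawa_eq` with the minimality of S2: the index of the subgroup generated by the points with `VC63.NR`. `VC63.tamagawa_good` for `tamagawa_good` (compare CU/T3.lean).
`index_one`: if all points satisfy `NR` the subgroup is everything, the index is `1`.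
`tamagawa_p`: `P = (x, y)`, `x = algebraMap a`, `y = algebraMap b`, `b² = a³ + l D'`. The reduced curve is `y² = x³` (the residue of `l D'` is `0`), the point `(ā, b̄)` is nonsingular unless `ā = b̄ = 0` (`3`, `2` are units: partial derivatives `-3 x²`, `2 y`; compare `CU.t3_nonsing`). If `l ∣ a`, `l ∣ b` then `l² ∣ l D'`, `l ∣ D'`, contradiction.
`tamagawa_two`: the residue field has characteristic 2, the reduced curve is `y² = x³ + D̄`, partial derivatives `-3 x² `, `0`: the point `(ā, b̄)` is nonsingular unless `ā = 0`. If `a = 2 c`: `D = b² - 8 c³`, `4 ∣ D - b²`: contradiction to `hsq`.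
(`WeierstrassCurve.Affine.nonsingular_iff'`.)
-/

set_option autoImplicit false

open Polynomial NumberField IsDedekindDomain
open scoped Classical ComplexConjugate

namespace JD

theorem s3_nonsing {k : Type} [Field k] (d x y : k) (h : y ^ 2 = x ^ 3 + d) (h' : 3 * x ^ 2 ≠ 0 ∨ 2 * y ≠ 0) :
    (ED d).toAffine.Nonsingular x y := by
  rw [WeierstrassCurve.Affine.nonsingular_iff', ED_equation]
  simp only [ED]
  refine ⟨h, ?_⟩
  rcases h' with h' | h'
  · left
    intro h0
    apply h'
    linear_combination -h0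
  · right
    intro h0
    apply h'
    linear_combination h0

theorem s3_eq (A : Type) [CommRing A] [IsDomain A] [IsDiscreteValuationRing A] (K : Type) [Field K]
    [Algebra A K] [IsFractionRing A K] {D a b : A}
    (h : ((ED D).map (algebraMap A K)).toAffine.Nonsingular (algebraMap A K a) (algebraMap A K b)) : b ^ 2 = a ^ 3 + D := by
  have h1 := h.1
  rw [ED_map, ED_equation] at h1
  apply IsFractionRing.injective A K
  rw [map_pow, map_add, map_pow]
  exact h1

section
variable (A : Type) [CommRing A] [IsDomain A] [IsDiscreteValuationRing A] (K : Type) [Field K]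
  [Algebra A K] [IsFractionRing A K]

theorem tamagawa_good (D : A) (h : IsUnit (6 * D)) : SBSD.tamagawa A (ED (algebraMap A K D)) = 1 := by
  have hW : SBSD.tamagawa A (ED (algebraMap A K D)) =
      SBSD.tamagawa A ((ED D).map (algebraMap A K)) := by rw [ED_map]
  rw [hW]
  refine VC63.tamagawa_good (ED D) ?_
  have h6 : IsUnit (6 : A) := isUnit_of_mul_isUnit_left h
  have hD : IsUnit D := isUnit_of_mul_isUnit_right h
  have h2 : IsUnit (2 : A) := isUnit_of_dvd_unit ⟨3, by norm_num⟩ h6
  rw [ED_Δ, show (-432 : A) * D ^ 2 = -(6 ^ 3 * 2 * D ^ 2) by ring]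
  exact (((h6.pow 3).mul h2).mul (hD.pow 2)).neg

theorem index_one (D : A)
    (hu : ∀ T : WeierstrassCurve.VariableChange K, (T • (ED D).map (algebraMap A K)).IsMinimal A →
      (IsDiscreteValuationRing.maximalIdeal A).valuation K (T.u : K) = 1)
    (h : ∀ P : ((ED D).map (algebraMap A K)).toAffine.Point, VC63.NR (ED D) P) :
    SBSD.tamagawa A (ED (algebraMap A K D)) = 1 := by
  have hW : SBSD.tamagawa A (ED (algebraMap A K D)) =
      SBSD.tamagawa A ((ED D).map (algebraMap A K)) := by rw [ED_map]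
  rw [hW, VC63.tamagawa_eq (ED D) hu]
  have h1 : {P : ((ED D).map (algebraMap A K)).toAffine.Point | VC63.NR (ED D) P} = Set.univ :=
    Set.eq_univ_of_forall h
  rw [h1, AddSubgroup.closure_univ, AddSubgroup.index_top]

theorem tamagawa_p (h6 : IsUnit (6 : A)) (l D' : A) (hl : Irreducible l) (hD : IsUnit D') :
    SBSD.tamagawa A (ED (algebraMap A K (l * D'))) = 1 := by
  refine index_one A K (l * D') (unit_p h6 l D' hl hD) ?_
  rintro (_ | ⟨x, y, h⟩)
  · trivial
  have hred : (ED (l * D')).map (IsLocalRing.residue A) = ED (IsLocalRing.residue A (l * D')) := ED_map _ _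
  simp only [VC63.NR, hred]
  intro a b ha hb
  subst ha hb
  have heq := s3_eq A K h
  have h2 : IsUnit (2 : A) := isUnit_of_dvd_unit ⟨3, by norm_num⟩ h6
  have h3 : IsUnit (3 : A) := isUnit_of_dvd_unit ⟨2, by norm_num⟩ h6
  have h2' : (2 : IsLocalRing.ResidueField A) ≠ 0 := by
    have h4 := (h2.map (IsLocalRing.residue A)).ne_zero
    rwa [map_ofNat] at h4
  have h3' : (3 : IsLocalRing.ResidueField A) ≠ 0 := by
    have h4 := (h3.map (IsLocalRing.residue A)).ne_zero
    rwa [map_ofNat] at h4
  refine s3_nonsing _ _ _ (by rw [← map_pow, heq, map_add, map_pow]) ?_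
  by_contra hcon
  push Not at hcon
  obtain ⟨hc1, hc2⟩ := hcon
  have ha0 : IsLocalRing.residue A a = 0 :=
    pow_eq_zero_iff (two_ne_zero) |>.1 ((mul_eq_zero.1 hc1).resolve_left h3')
  have hb0 : IsLocalRing.residue A b = 0 := (mul_eq_zero.1 hc2).resolve_left h2'
  rw [IsLocalRing.residue_eq_zero_iff, hl.maximalIdeal_eq, Ideal.mem_span_singleton] at ha0 hb0
  obtain ⟨c, hc⟩ := ha0
  obtain ⟨e, he⟩ := hb0
  have h5 : l * D' = l * (l * (e ^ 2 - l * c ^ 3)) := by
    subst hc he
    linear_combination -heq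
  have h6' := mul_left_cancel₀ hl.ne_zero h5
  exact hl.not_isUnit (isUnit_of_dvd_unit ⟨_, h6'⟩ hD)

theorem tamagawa_two (h3 : IsUnit (3 : A)) (h2 : Irreducible (2 : A)) (D' : A) (hD : IsUnit D') (k : ℕ)
    (hk : k = 0 ∨ k = 1) (hsq : ∀ b : A, ¬ (4 : A) ∣ 2 ^ k * D' - b ^ 2) :
    SBSD.tamagawa A (ED (algebraMap A K (2 ^ k * D'))) = 1 := by
  refine index_one A K (2 ^ k * D') (unit_two h3 h2 D' hD k hk) ?_
  rintro (_ | ⟨x, y, h⟩)
  · trivial
  have hred : (ED (2 ^ k * D')).map (IsLocalRing.residue A) = ED (IsLocalRing.residue A (2 ^ k * D')) := ED_map _ _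
  simp only [VC63.NR, hred]
  intro a b ha hb
  subst ha hb
  have heq := s3_eq A K h
  have h3' : (3 : IsLocalRing.ResidueField A) ≠ 0 := by
    have h4 := (h3.map (IsLocalRing.residue A)).ne_zero
    rwa [map_ofNat] at h4
  refine s3_nonsing _ _ _ (by rw [← map_pow, heq, map_add, map_pow]) ?_
  by_contra hcon
  push Not at hcon
  obtain ⟨hc1, -⟩ := hcon
  have ha0 : IsLocalRing.residue A a = 0 :=
    pow_eq_zero_iff (two_ne_zero) |>.1 ((mul_eq_zero.1 hc1).resolve_left h3')
  rw [IsLocalRing.residue_eq_zero_iff, h2.maximalIdeal_eq, Ideal.mem_span_singleton] at ha0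
  obtain ⟨c, hc⟩ := ha0
  apply hsq b
  refine ⟨-(2 * c ^ 3), ?_⟩
  subst hc
  linear_combination -heq

end

end JD
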