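import Pool.Agent.JD.T1
import Pool.Agent.JD.Z1

/-!
# [JD-T2] the final theorems, given the central values (`JL.L_main`)
-/

set_option autoImplicit false

open NumberField IsDedekindDomain
open scoped Classical ComplexConjugate

namespace JD

open CM27 NAB CF JZ
open CU (la om eE)
open JL (KD sD UC)

/-- The statement on the central values of the L-function of `E_D`. -/
def LVal (D : Eis) : Prop :=
  ∃ Φ : ℂ → ℂ, Differentiable ℂ Φ ∧
    (∀ s : ℂ, 3 / 2 < s.re → Φ s = LSeries (fun n => IL KK (fun I => conj (emb (Psi6 (eE D) I))) n) s) ∧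
    ∃ q : ℚ, Φ 1 * conj (Φ 1) =
      (((q : ℝ) * ‖emb (4 * D)‖ ^ ((2 : ℝ) / 3) / (144 * ‖emb D‖ ^ 3) : ℝ) : ℂ) * (Om : ℂ) ^ 2 ∧
      (q = 0 ∨ 2 ≤ padicValRat 3 q) ∧ ((q ≠ 0 ∧ padicValRat 3 q = 2) ↔ UC D)

/-- `E_D(K)` is finite of order prime to `3` and the `3`-primary part of the Tate–Shafarevich group is `0`. -/
theorem descent_of {D : Eis} (hD : Cl D) (h : ¬ HasForm D) :
    Finite (ED (jK D)).toAffine.Point ∧ ¬ 3 ∣ Nat.card (ED (jK D)).toAffine.Point ∧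
      ∀ (x : SBSD.Sha (ED (jK D))) (k : ℕ), 3 ^ k • x = 0 → x = 0 := by
  letI := algK (KD D) (w_mem D)
  obtain ⟨τ, hQ⟩ := exists_quad hD
  exact descent hD hQ (noBad_of hD hQ h)

theorem final {D : Eis} (hD : Cl D) (h : ¬ HasForm D) (hL : LVal D) : SBSD3.ThreePartRankZero (ED (jK D)) := by
  letI := algK (KD D) (w_mem D)
  obtain ⟨τ, hQ⟩ := exists_quad hD
  obtain ⟨Φ, hΦ, hs, q, hq, -, hu⟩ := hL
  obtain ⟨h0, h2⟩ := hu.2 (uc_of_noForm hD h)
  exact final_of hD hQ (noBad_of hD hQ h) Φ hΦ hs q hq h0 h2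

/-- All `D` of the class: the `L`-series is entire and `L(E_D, 1) √3 / (Ω ∏ c_v)` is a rational number without
`3` in the denominator; it is a `3`-adic unit if and only if the class number of `ℚ(ω, √D)` is prime to `3` and
there is a unit `u` with `(u / ū) ^ 8 ≢ 1 mod 3`. -/
theorem all_D {D : Eis} (hD : Cl D) (hL : LVal D) :
    ∃ L : ℂ → ℂ, SBSD2.IsEntireLSeries (ED (jK D)) L ∧ ∃ q : ℚ, quot D (L 1) 1 = q ∧
      (q = 0 ∨ 0 ≤ padicValRat 3 q) ∧ ((q ≠ 0 ∧ padicValRat 3 q = 0) ↔ UC D) := by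
  obtain ⟨Φ, hΦ, hs, q, hq, hv, hu⟩ := hL
  obtain ⟨q', h1, h2, h3⟩ := quot_all hD Φ q hq hv
  exact ⟨_, entire_ED hD Φ hΦ hs, q', h1, h2, h3.trans hu⟩

end JD
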